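import Pool.Agent.Work.MP_f36782_lf.Interface2

set_option autoImplicit false

open MeasureTheory Pool.Agent.Work.RamseyAD

namespace Pool.LF

theorem BRF_len (z : ℕ → ℕ) (n : ℕ) : (hist z n).length = n := by simp [hist]

theorem BRF_get (z z' : ℕ → ℕ) (n i : ℕ) (hi : i < n) (h : hist z n = hist z' n) : z i = z' i := by
  have h1 : (hist z n)[i]? = (hist z' n)[i]? := by rw [h]
  simpa [hist, hi] using h1

theorem p_BRF : Stmt_BRF := by
  intro B hB z z' hz
  obtain ⟨n, hn⟩ := Function.ne_iff.mp hz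
  refine Set.Finite.subset (Set.Finite.biUnion (Set.finite_Iic n) (fun i _ => hB.fin (hist z i))) ?_
  rintro m ⟨⟨i, hi⟩, ⟨i', hi'⟩⟩
  have h1 := hB.inj _ _ m hi hi'
  have h2 : i = i' := by
    have := congrArg List.length h1
    rwa [BRF_len, BRF_len] at this
  subst h2
  simp only [Set.mem_iUnion, Set.mem_Iic]
  refine ⟨i, ?_, hi⟩
  by_contra hlt
  push Not at hlt
  exact hn (BRF_get z z' i n hlt h1)

end Pool.LF
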