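import Pool.Agent.Work.MP_f36782_lf.Interface2

set_option autoImplicit false

/-! # Block BRN (MP_f36782, THEOREM LF, helper95): a tail set which is not Ramsey anywhere -/

open MeasureTheory Pool.Agent.Work.RamseyAD

namespace Pool.LF

theorem BRN_refl (x : C) : AEq x x := ⟨0, fun _ _ => rfl⟩

theorem BRN_symm {x y : C} (h : AEq x y) : AEq y x := by
  obtain ⟨N, hN⟩ := h
  exact ⟨N, fun k hk => (hN k hk).symm⟩

theorem BRN_trans {x y z : C} (h : AEq x y) (h' : AEq y z) : AEq x z := by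
  obtain ⟨N, hN⟩ := h
  obtain ⟨M, hM⟩ := h'
  exact ⟨max N M, fun k hk => (hN k (le_trans (le_max_left _ _) hk)).trans
    (hM k (le_trans (le_max_right _ _) hk))⟩

theorem BRN_inf {x y : C} (h : AEq x y) (hx : Inf x) : Inf y := by
  obtain ⟨N, hN⟩ := h
  intro n
  obtain ⟨k, hk, hk'⟩ := hx (max n N)
  exact ⟨k, le_trans (le_max_left _ _) hk, by rw [← hN k (le_trans (le_max_right _ _) hk)]; exact hk'⟩

/-- the equivalence relation -/
def BRN_set : Setoid C := ⟨AEq, ⟨BRN_refl, BRN_symm, BRN_trans⟩⟩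

theorem BRN_fin (H : C) (hH : Inf H) : (setOf (fun k => H k = true)).Infinite := by
  rw [Set.infinite_iff_exists_gt]
  intro n
  obtain ⟨k, hk, hk'⟩ := hH (n + 1)
  exact ⟨k, hk', by omega⟩

/-- the point of the branch -/
noncomputable def BRN_pt (H : C) (r : ℕ → Bool) (n : ℕ) : ℕ :=
  Nat.nth (fun k => H k = true) (Encodable.encode ((List.range n).map r))

theorem BRN_inj0 (H : C) (hH : Inf H) (r r' : ℕ → Bool) (n n' : ℕ)
    (h : BRN_pt H r n = BRN_pt H r' n') : n = n' ∧ ∀ i, i < n → r i = r' i := by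
  have h1 := Nat.nth_injective (BRN_fin H hH) h
  have h2 : (List.range n).map r = (List.range n').map r' := Encodable.encode_injective h1
  have h3 : n = n' := by
    have := congrArg List.length h2
    simpa using this
  refine ⟨h3, fun i hi => ?_⟩
  subst h3
  have h4 := List.map_inj_left.1 h2 i (List.mem_range.2 hi)
  exact h4

open Classical in
/-- the branch -/
noncomputable def BRN_y (H : C) (r : ℕ → Bool) : C := fun k => decide (∃ n, BRN_pt H r n = k)

theorem BRN_tend (H : C) (hH : Inf H) (r : ℕ → Bool) (N m : ℕ) :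
    ∃ n, m ≤ n ∧ N ≤ BRN_pt H r n := by
  have hi : Function.Injective (BRN_pt H r) := fun a b h => (BRN_inj0 H hH r r a b h).1
  have ht := hi.nat_tendsto_atTop
  obtain ⟨n, hn, hn'⟩ := ((ht.eventually_ge_atTop N).and (Filter.eventually_ge_atTop m)).exists
  exact ⟨n, hn', hn⟩

theorem BRN_y_inf (H : C) (hH : Inf H) (r : ℕ → Bool) : Inf (BRN_y H r) := by
  intro N
  obtain ⟨n, _, hn⟩ := BRN_tend H hH r N 0
  exact ⟨_, hn, by simp only [BRN_y, decide_eq_true_eq]; exact ⟨n, rfl⟩⟩

theorem BRN_y_sub (H : C) (hH : Inf H) (r : ℕ → Bool) : Sub (BRN_y H r) H := by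
  intro k hk
  simp only [BRN_y, decide_eq_true_eq] at hk
  obtain ⟨n, rfl⟩ := hk
  exact Nat.nth_mem_of_infinite (BRN_fin H hH) _

theorem BRN_y_ne (H : C) (hH : Inf H) (r r' : ℕ → Bool) (h : AEq (BRN_y H r) (BRN_y H r')) :
    r = r' := by
  obtain ⟨N, hN⟩ := h
  funext i
  obtain ⟨n, hn, hn'⟩ := BRN_tend H hH r N (i + 1)
  have h1 : BRN_y H r (BRN_pt H r n) = true := by
    simp only [BRN_y, decide_eq_true_eq]; exact ⟨n, rfl⟩
  rw [hN _ hn'] at h1
  simp only [BRN_y, decide_eq_true_eq] at h1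
  obtain ⟨n', hn''⟩ := h1
  exact (BRN_inj0 H hH r r' n n' hn''.symm).2 i (by omega)

theorem p_BRN (hI : Stmt_INJ) : Stmt_BRN := by
  have hcI : Cardinal.mk ({H : C // Inf H} × Bool) ≤ Cardinal.continuum := by
    have hC : Cardinal.mk C = Cardinal.continuum := by
      simp [C]
    have h1 : Cardinal.mk {H : C // Inf H} ≤ Cardinal.continuum := by
      rw [← hC]
      exact Cardinal.mk_subtype_le _
    calc Cardinal.mk ({H : C // Inf H} × Bool)
        = Cardinal.mk {H : C // Inf H} * Cardinal.mk Bool := by simp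
      _ ≤ Cardinal.continuum * Cardinal.continuum := by
          apply mul_le_mul' h1
          rw [Cardinal.mk_bool]
          exact (Cardinal.nat_lt_continuum 2).le
      _ = Cardinal.continuum := Cardinal.continuum_mul_self
  obtain ⟨c, hc, hcK⟩ := hI ({H : C // Inf H} × Bool) (Quotient BRN_set)
    (fun i => {q | ∃ x : C, Inf x ∧ Sub x i.1.1 ∧ (Quotient.mk BRN_set x) = q}) hcI (by
      rintro ⟨⟨H, hH⟩, b⟩
      have hC : Cardinal.mk (ℕ → Bool) = Cardinal.continuum := by simp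
      rw [← hC]
      refine Cardinal.mk_le_of_injective (f := fun r : ℕ → Bool =>
        (⟨Quotient.mk BRN_set (BRN_y H r), BRN_y H r, BRN_y_inf H hH r, BRN_y_sub H hH r, rfl⟩ :
          {q | ∃ x : C, Inf x ∧ Sub x H ∧ (Quotient.mk BRN_set x) = q})) ?_
      intro r r' h
      have h1 := congrArg Subtype.val h
      simp only at h1
      exact BRN_y_ne H hH r r' (Quotient.exact (s := BRN_set) h1))
  refine ⟨{x | Inf x ∧ ∃ H : {H : C // Inf H}, Quotient.mk BRN_set x = c (H, true)}, ?_, ?_, ?_⟩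
  · intro x y hxy
    have hq : Quotient.mk BRN_set x = Quotient.mk BRN_set y := Quotient.sound (s := BRN_set) hxy
    simp only [Set.mem_setOf_eq]
    rw [hq]
    exact and_congr_left fun _ => ⟨BRN_inf hxy, BRN_inf (BRN_symm hxy)⟩
  · intro x hx
    exact hx.1
  · intro H hH
    constructor
    · obtain ⟨x, hx, hs, he⟩ := hcK (⟨H, hH⟩, true)
      exact ⟨x, ⟨hx, ⟨H, hH⟩, he⟩, hs⟩
    · obtain ⟨x, hx, hs, he⟩ := hcK (⟨H, hH⟩, false)
      refine ⟨x, hx, hs, ?_⟩
      rintro ⟨_, H', he'⟩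
      rw [he] at he'
      have := hc he'
      simp at this

end Pool.LF
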