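import Pool.Agent.Work.MP_f36782_lf.Interface2

set_option autoImplicit false

/-! # Block CCO (MP_f36782, THEOREM LF, helper2): continuity of the companions -/

open MeasureTheory Pool.Agent.Work.RamseyAD

namespace Pool.LF

/-- A function to a discrete space which depends locally on finitely many coordinates. -/
theorem CCO_loc {α : Type} [TopologicalSpace α] (F : (ℕ → ℕ) → α)
    (h : ∀ z, ∃ N, ∀ z' : ℕ → ℕ, (∀ i, i < N → z' i = z i) → F z' = F z) : Continuous F := by
  rw [continuous_iff_continuousAt]
  intro z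
  obtain ⟨N, hN⟩ := h z
  have h1 : {z' : ℕ → ℕ | ∀ i, i < N → z' i = z i} ∈ nhds z := by
    have h2 : IsOpen {z' : ℕ → ℕ | ∀ i, i < N → z' i = z i} := by
      have h3 : {z' : ℕ → ℕ | ∀ i, i < N → z' i = z i} = ⋂ i ∈ Set.Iio N, {z' : ℕ → ℕ | z' i = z i} := by
        ext z'; simp
      rw [h3]
      refine (Set.finite_Iio N).isOpen_biInter fun i _ => ?_
      exact IsOpen.preimage (f := fun z' : ℕ → ℕ => z' i) (continuous_apply i) (isOpen_discrete ({z i} : Set ℕ))
    exact h2.mem_nhds fun _ _ => rfl
  have h4 : F =ᶠ[nhds z] fun _ => F z := by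
    filter_upwards [h1] with z' hz' using hN z' hz'
  exact (continuousAt_const (y := F z)).congr h4.symm

theorem CCO_hist (z z' : ℕ → ℕ) (n : ℕ) : hist z' n = hist z n ↔ ∀ i, i < n → z' i = z i := by
  unfold hist
  rw [List.map_inj_left]
  simp [List.mem_range]

theorem CCO_histlen (z : ℕ → ℕ) (n : ℕ) : (hist z n).length = n := by
  simp [hist]

theorem CCO_Br (B : List ℕ → Set ℕ) (hB : Blk B) (m : ℕ) :
    Continuous fun z : ℕ → ℕ => @decide (m ∈ Br B z) (Classical.propDecidable _) := by
  have e : ∀ p q : Prop, p = q →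
      @decide p (Classical.propDecidable p) = @decide q (Classical.propDecidable q) := by
    rintro p q rfl; rfl
  apply CCO_loc
  intro z
  by_cases h : ∃ l, m ∈ B l
  · obtain ⟨l, hl⟩ := h
    refine ⟨l.length, fun z' hz' => ?_⟩
    have key : ∀ w : ℕ → ℕ, m ∈ Br B w ↔ hist w l.length = l := by
      intro w
      constructor
      · rintro ⟨i, hi⟩
        have h1 := hB.inj _ _ _ hi hl
        have h2 : i = l.length := by rw [← h1, CCO_histlen]
        rw [← h2, h1]
      · intro h1
        exact ⟨l.length, by rw [h1]; exact hl⟩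
    have h3 : hist z' l.length = hist z l.length := (CCO_hist z z' _).2 hz'
    have h4 : (m ∈ Br B z') = (m ∈ Br B z) := by
      rw [eq_iff_iff, key, key, h3]
    exact e _ _ h4
  · refine ⟨0, fun z' _ => ?_⟩
    have h1 : ∀ w : ℕ → ℕ, (m ∈ Br B w) = False := by
      intro w
      rw [eq_iff_iff]
      exact ⟨fun ⟨i, hi⟩ => h ⟨_, hi⟩, False.elim⟩
    exact e _ _ ((h1 z').trans (h1 z).symm)

theorem CCO_cnt (w : (ℕ → ℕ) → C) (hw : Continuous w) (m : ℕ) : Continuous fun z => cnt (w z) m := by
  have h1 : (fun z => cnt (w z) m) = fun z => ∑ i ∈ Finset.range m, if w z i = true then 1 else 0 := by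
    funext z
    rw [cnt, Finset.card_filter]
  rw [h1]
  refine continuous_finsetSum _ fun i _ => ?_
  have h2 : Continuous fun b : Bool => if b = true then (1 : ℕ) else 0 := continuous_of_discreteTopology
  exact h2.comp ((continuous_apply i).comp hw)

theorem CCO_dia (w : (ℕ → ℕ) → C) (g : ℕ → (ℕ → ℕ) → C) (hw : Continuous w) (hg : ∀ i, Continuous (g i)) :
    Continuous fun z => dia (w z) fun i => g i z := by
  rw [continuous_pi_iff]
  intro m
  have hc := CCO_cnt w hw m
  have h1 : Continuous fun p : ℕ × (ℕ → ℕ) => g p.1 p.2 m := by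
    rw [continuous_prod_of_discrete_left]
    intro i
    exact (continuous_apply m).comp (hg i)
  have h2 : Continuous fun n : ℕ => (Nat.unpair (n / 2)).1 := continuous_of_discreteTopology
  have h3 : Continuous fun z => g (Nat.unpair (cnt (w z) m / 2)).1 z m :=
    h1.comp ((h2.comp hc).prodMk continuous_id)
  have h4 : Continuous fun n : ℕ => decide (n % 2 = 1) := continuous_of_discreteTopology
  have h5 : Continuous fun p : Bool × Bool × Bool => (p.1 && (p.2.1 || !p.2.2)) := continuous_of_discreteTopology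
  exact h5.comp (((continuous_apply m).comp hw).prodMk ((h4.comp hc).prodMk h3))

theorem CCO_lev (B : List ℕ → Set ℕ) (hB : Blk B) (f : ℕ → (ℕ → ℕ) → C) (hf : ∀ j, Continuous (f j)) (n : ℕ) :
    (∀ i, Continuous fun z => (lev B f z n).1 i) ∧ ∀ j, Continuous fun z => (lev B f z n).2 j := by
  induction n with
  | zero =>
    refine ⟨hf, fun j => ?_⟩
    rw [continuous_pi_iff]
    intro m
    have h5 : Continuous fun p : Bool × Bool => (p.1 && p.2) := continuous_of_discreteTopology
    exact h5.comp (((continuous_apply m).comp (hf j)).prodMk (CCO_Br B hB m))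
  | succ n ih =>
    refine ⟨fun i => ?_, fun j => ?_⟩
    · by_cases h : i % 2 = 0
      · simp only [lev, h, if_true]
        exact ih.1 _
      · simp only [lev, h, if_false]
        exact CCO_dia (fun z => (lev B f z n).2 (i / 2)) (fun i z => (lev B f z n).1 i) (ih.2 _) ih.1
    · exact CCO_dia (fun z => (lev B f z n).2 j) (fun i z => (lev B f z n).1 i) (ih.2 _) ih.1

theorem p_CCO : Stmt_CCO := fun B hB f hf n j => (CCO_lev B hB f hf n).2 j

end Pool.LF
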