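import Pool.Agent.Work.MP_f36782_lf.Interface2
import Pool.Agent.Work.MP_f36782_lf.B_CCO

set_option autoImplicit false

/-! # Block CME (MP_f36782, THEOREM LF, helper2): the companions form a Borel set -/

open MeasureTheory Pool.Agent.Work.RamseyAD

namespace Pool.LF

/-- The map `z ↦ (t below t.length, com B f n j z from there on)`. -/
noncomputable def CME_G (B : List ℕ → Set ℕ) (f : ℕ → (ℕ → ℕ) → C) (n j : ℕ) (t : List Bool) (z : ℕ → ℕ) : C :=
  fun m => if m < t.length then t.getD m false else com B f n j z m

theorem CME_hit (B : List ℕ → Set ℕ) (hB : Blk B) (f : (ℕ → ℕ) → C) (hf : Continuous f) :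
    MeasurableSet {z : ℕ → ℕ | Hit (f z) (Br B z)} := by
  have h1 : {z : ℕ → ℕ | Hit (f z) (Br B z)} =
      ⋂ n : ℕ, ⋃ k : ℕ, {z : ℕ → ℕ | n ≤ k} ∩ ({z | f z k = true} ∩
        {z | @decide (k ∈ Br B z) (Classical.propDecidable _) = true}) := by
    ext z
    simp [Hit]
  rw [h1]
  refine MeasurableSet.iInter fun n => MeasurableSet.iUnion fun k => ?_
  refine (MeasurableSet.const _).inter (MeasurableSet.inter ?_ ?_)
  · have h2 : Continuous fun z => f z k := (continuous_apply k).comp hf
    exact h2.measurable (measurableSet_singleton true)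
  · exact (CCO_Br B hB k).measurable (measurableSet_singleton true)

theorem p_CME (h1 : Stmt_CPR) (h2 : Stmt_CCO) (h3 : Stmt_BRF) : Stmt_CME := by
  intro B hB f hf n
  have hc : ∀ j t, Continuous (CME_G B f n j t) := by
    intro j t
    rw [continuous_pi_iff]
    intro m
    by_cases hm : m < t.length
    · simp only [CME_G, hm, if_true]
      exact continuous_const
    · simp only [CME_G, hm, if_false]
      exact (continuous_apply m).comp (h2 B hB f hf n j)
  have hi : ∀ j t, Set.InjOn (CME_G B f n j t) {z | Hit (f j z) (Br B z)} := by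
    intro j t z hz z' hz' he
    by_contra hne
    have hfin := h3 B hB z z' hne
    obtain ⟨i1, -, -, b1, -⟩ := h1 B f z j hz n
    obtain ⟨-, -, -, b2, -⟩ := h1 B f z' j hz' n
    obtain ⟨M, hM⟩ := hfin.bddAbove
    obtain ⟨k, hk, hkt⟩ := i1 (max (M + 1) t.length)
    have hk1 : M + 1 ≤ k := (le_max_left _ _).trans hk
    have hk2 : ¬ k < t.length := not_lt.2 ((le_max_right _ _).trans hk)
    have e1 := congrFun he k
    simp only [CME_G, hk2, if_false] at e1
    have := hM ⟨b1 k hkt, b2 k (by rw [← e1]; exact hkt)⟩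
    omega
  have hu : Com B f n = ⋃ j : ℕ, ⋃ t : List Bool, CME_G B f n j t '' {z | Hit (f j z) (Br B z)} := by
    ext x
    simp only [Set.mem_iUnion, Set.mem_image, Set.mem_setOf_eq]
    constructor
    · rintro ⟨z, j, hz, N, hN⟩
      refine ⟨j, (List.range N).map x, z, hz, ?_⟩
      funext m
      by_cases hm : m < N
      · simp [CME_G, hm]
      · have : ¬ m < ((List.range N).map x).length := by simpa using hm
        simp only [CME_G, this, if_false]
        exact (hN m (not_lt.1 hm)).symm
    · rintro ⟨j, t, z, hz, rfl⟩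
      refine ⟨z, j, hz, t.length, fun k hk => ?_⟩
      simp only [CME_G, not_lt.2 hk, if_false]
  rw [hu]
  refine MeasurableSet.iUnion fun j => MeasurableSet.iUnion fun t => ?_
  exact (CME_hit B hB (f j) (hf j)).image_of_continuousOn_injOn (hc j t).continuousOn (hi j t)

end Pool.LF
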