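import Pool.Agent.Work.MP_f36782_lf.Interface5
import Pool.Agent.Work.MP_f36782_lf.B_CME

set_option autoImplicit false

/-! # Block CBM (MP_f36782, THEOREM LF, helper26): the companions of Borel maps form a Borel set -/

open MeasureTheory Pool.Agent.Work.RamseyAD

namespace Pool.LF

theorem CBM_cnt (w : (ℕ → ℕ) → C) (hw : Measurable w) (m : ℕ) : Measurable fun z => cnt (w z) m := by
  have h1 : (fun z => cnt (w z) m) = fun z => ∑ i ∈ Finset.range m, if w z i = true then 1 else 0 := by
    funext z
    rw [cnt, Finset.card_filter]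
  rw [h1]
  refine Finset.measurable_sum _ fun i _ => ?_
  have h2 : Measurable fun b : Bool => if b = true then (1 : ℕ) else 0 := measurable_from_top
  exact h2.comp ((measurable_pi_apply i).comp hw)

theorem CBM_dia (w : (ℕ → ℕ) → C) (g : ℕ → (ℕ → ℕ) → C) (hw : Measurable w) (hg : ∀ i, Measurable (g i)) :
    Measurable fun z => dia (w z) fun i => g i z := by
  rw [measurable_pi_iff]
  intro m
  have hc := CBM_cnt w hw m
  have h1 : Measurable fun p : ℕ × (ℕ → ℕ) => g p.1 p.2 m :=
    measurable_from_prod_countable_right fun i => (measurable_pi_apply m).comp (hg i)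
  have h2 : Measurable fun n : ℕ => (Nat.unpair (n / 2)).1 := measurable_from_top
  have h3 : Measurable fun z => g (Nat.unpair (cnt (w z) m / 2)).1 z m :=
    h1.comp ((h2.comp hc).prodMk measurable_id)
  have h4 : Measurable fun n : ℕ => decide (n % 2 = 1) := measurable_from_top
  have h5 : Measurable fun p : Bool × Bool × Bool => (p.1 && (p.2.1 || !p.2.2)) :=
    measurable_of_countable _
  exact h5.comp (((measurable_pi_apply m).comp hw).prodMk ((h4.comp hc).prodMk h3))

theorem CBM_lev (B : List ℕ → Set ℕ) (hB : Blk B) (f : ℕ → (ℕ → ℕ) → C) (hf : ∀ j, Measurable (f j)) (n : ℕ) :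
    (∀ i, Measurable fun z => (lev B f z n).1 i) ∧ ∀ j, Measurable fun z => (lev B f z n).2 j := by
  induction n with
  | zero =>
    refine ⟨hf, fun j => ?_⟩
    rw [measurable_pi_iff]
    intro m
    have h5 : Measurable fun p : Bool × Bool => (p.1 && p.2) := measurable_of_countable _
    exact h5.comp (((measurable_pi_apply m).comp (hf j)).prodMk (CCO_Br B hB m).measurable)
  | succ n ih =>
    refine ⟨fun i => ?_, fun j => ?_⟩
    · by_cases h : i % 2 = 0
      · simp only [lev, h, if_true]
        exact ih.1 _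
      · simp only [lev, h, if_false]
        exact CBM_dia (fun z => (lev B f z n).2 (i / 2)) (fun i z => (lev B f z n).1 i) (ih.2 _) ih.1
    · exact CBM_dia (fun z => (lev B f z n).2 j) (fun i z => (lev B f z n).1 i) (ih.2 _) ih.1

theorem CBM_hit (B : List ℕ → Set ℕ) (hB : Blk B) (f : (ℕ → ℕ) → C) (hf : Measurable f) :
    MeasurableSet {z : ℕ → ℕ | Hit (f z) (Br B z)} := by
  have h1 : {z : ℕ → ℕ | Hit (f z) (Br B z)} =
      ⋂ n : ℕ, ⋃ k : ℕ, {z : ℕ → ℕ | n ≤ k} ∩ ({z | f z k = true} ∩
        {z | @decide (k ∈ Br B z) (Classical.propDecidable _) = true}) := by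
    ext z
    simp [Hit]
  rw [h1]
  refine MeasurableSet.iInter fun n => MeasurableSet.iUnion fun k => ?_
  refine (MeasurableSet.const _).inter (MeasurableSet.inter ?_ ?_)
  · have h2 : Measurable fun z => f z k := (measurable_pi_apply k).comp hf
    exact h2 (measurableSet_singleton true)
  · exact (CCO_Br B hB k).measurable (measurableSet_singleton true)

theorem p_CBM (h1 : Stmt_CPR) (h3 : Stmt_BRF) : Stmt_CBM := by
  intro B hB f hf n
  have hc : ∀ j t, Measurable (CME_G B f n j t) := by
    intro j t
    rw [measurable_pi_iff]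
    intro m
    by_cases hm : m < t.length
    · simp only [CME_G, hm, if_true]
      exact measurable_const
    · simp only [CME_G, hm, if_false]
      exact (measurable_pi_apply m).comp ((CBM_lev B hB f hf n).2 j)
  have hi : ∀ j t, Set.InjOn (CME_G B f n j t) {z | Hit (f j z) (Br B z)} := by
    intro j t z hz z' hz' he
    by_contra hne
    have hfin := h3 B hB z z' hne
    obtain ⟨i1, -, -, b1, -⟩ := h1 B f z j hz n
    obtain ⟨-, -, -, b2, -⟩ := h1 B f z' j hz' n
    obtain ⟨M, hM⟩ := hfin.bddAbove
    obtain ⟨k, hk, hkt⟩ := i1 (max (M + 1) t.length)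
    have hk1 : M + 1 ≤ k := (le_max_left _ _).trans hk
    have hk2 : ¬ k < t.length := not_lt.2 ((le_max_right _ _).trans hk)
    have e1 := congrFun he k
    simp only [CME_G, hk2, if_false] at e1
    have := hM ⟨b1 k hkt, b2 k (by rw [← e1]; exact hkt)⟩
    omega
  have hu : Com B f n = ⋃ j : ℕ, ⋃ t : List Bool, CME_G B f n j t '' {z | Hit (f j z) (Br B z)} := by
    ext x
    simp only [Set.mem_iUnion, Set.mem_image, Set.mem_ofPred_eq]
    constructor
    · rintro ⟨z, j, hz, N, hN⟩
      refine ⟨j, (List.range N).map x, z, hz, ?_⟩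
      funext m
      by_cases hm : m < N
      · simp [CME_G, hm]
      · have : ¬ m < ((List.range N).map x).length := by simpa using hm
        simp only [CME_G, this, if_false]
        exact (hN m (not_lt.1 hm)).symm
    · rintro ⟨j, t, z, hz, rfl⟩
      refine ⟨z, j, hz, t.length, fun k hk => ?_⟩
      simp only [CME_G, not_lt.2 hk, if_false]
  rw [hu]
  refine MeasurableSet.iUnion fun j => MeasurableSet.iUnion fun t => ?_
  exact (CBM_hit B hB (f j) (hf j)).image_of_measurable_injOn (hc j t) (hi j t)

end Pool.LF
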