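import Pool.Agent.Work.MP_f36782_lf.Interface2

/-! # Block CDI (MP_f36782, THEOREM LF, helper1): different levels are disjoint -/

set_option autoImplicit false

open MeasureTheory Pool.Agent.Work.RamseyAD

namespace Pool.LF

theorem CDI_inf {x y : C} (h : AEq x y) (hy : Inf y) : Inf x := by
  obtain ⟨M, hM⟩ := h
  intro k
  obtain ⟨l, hl, hl2⟩ := hy (max k M)
  refine ⟨l, le_trans (le_max_left _ _) hl, ?_⟩
  rw [hM l (le_trans (le_max_right _ _) hl), hl2]

theorem CDI_symm {x y : C} (h : AEq x y) : AEq y x := by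
  obtain ⟨M, hM⟩ := h
  exact ⟨M, fun k hk => (hM k hk).symm⟩

theorem CDI_trans {x y z : C} (h : AEq x y) (h' : AEq y z) : AEq x z := by
  obtain ⟨M, hM⟩ := h
  obtain ⟨M', hM'⟩ := h'
  exact ⟨max M M', fun k hk => (hM k (le_trans (le_max_left _ _) hk)).trans
    (hM' k (le_trans (le_max_right _ _) hk))⟩

theorem p_CDI (hBRF : Stmt_BRF) (hCPR : Stmt_CPR) : Stmt_CDI := by
  intro B hB f
  refine ⟨?_, ?_, ?_, ?_⟩
  · rintro n m h1 hmn x ⟨z, j, hz, hx⟩ ⟨z', j', hz', hx'⟩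
    obtain ⟨iz, -, -, bz, -, dz⟩ := hCPR B f z j hz n
    obtain ⟨iz', -, -, bz', -, -⟩ := hCPR B f z' j' hz' m
    have he : AEq (com B f n j z) (com B f m j' z') := CDI_trans (CDI_symm hx) hx'
    by_cases hzz : z = z'
    · subst hzz
      exact dz m j' h1 hmn he
    · have hfin := hBRF B hB z z' hzz
      obtain ⟨M, hM⟩ := hfin.bddAbove
      obtain ⟨N, hN⟩ := he
      obtain ⟨k, hk, hkt⟩ := iz (max (M + 1) N)
      have hk1 : M + 1 ≤ k := (le_max_left _ _).trans hk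
      have hk2 : N ≤ k := (le_max_right _ _).trans hk
      have := hM ⟨bz k hkt, bz' k (by rw [← hN k hk2]; exact hkt)⟩
      omega
  · intro n x y hxy
    constructor
    · rintro ⟨z, j, hz, hx⟩
      exact ⟨z, j, hz, CDI_trans (CDI_symm hxy) hx⟩
    · rintro ⟨z, j, hz, hy⟩
      exact ⟨z, j, hz, CDI_trans hxy hy⟩
  · rintro n x ⟨z, j, hz, hx⟩
    exact CDI_inf hx (hCPR B f z j hz n).1
  · rintro n x ⟨z, j, hz, N, hN⟩
    obtain ⟨-, hs, -⟩ := hCPR B f z j hz n
    refine ⟨fun m => decide (N ≤ m) && com B f (n + 1) j z m, ⟨z, j, hz, N, fun k hk => ?_⟩, ?_⟩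
    · simp [hk]
    · intro k hk
      simp only [Bool.and_eq_true, decide_eq_true_eq] at hk
      rw [hN k hk.1]
      exact hs k hk.2

end Pool.LF
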