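import Pool.Agent.Work.MP_f36782_lf.Interface5
import Pool.Agent.Work.MP_f36782_lf.B_CDI

set_option autoImplicit false

/-! # Block CDB (MP_f36782, THEOREM LF, helper26): different levels are disjoint -/

open MeasureTheory Pool.Agent.Work.RamseyAD

namespace Pool.LF

theorem p_CDB (h1 : Stmt_BRF) (h2 : Stmt_CPR) : Stmt_CDB :=
  fun B hB f => p_CDI h1 h2 B hB f

end Pool.LF
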