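import Pool.Agent.Work.MP_f36782_lf.Interface

set_option autoImplicit false

open MeasureTheory Pool.Agent.Work.RamseyAD

namespace Pool.LF

theorem CHN_ub (Pt : Type) (E : Pt → Pt → Prop) (p₀ : Pt) (hr : ∀ p, E p p)
    (ht : ∀ p q r, E p q → E q r → E p r)
    (hs : ∀ p : ℕ → Pt, (∀ n, E (p n) (p (n + 1))) → ∃ q, ∀ n, E (p n) q)
    (S : Set Pt) (hS : S.Countable) (hc : ∀ a ∈ S, ∀ b ∈ S, E a b ∨ E b a) :
    ∃ q, ∀ s ∈ S, E s q := by
  classical
  rcases S.eq_empty_or_nonempty with h0 | h0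
  · exact ⟨p₀, fun s hs' => by rw [h0] at hs'; exact absurd hs' (Set.notMem_empty s)⟩
  obtain ⟨f, hf⟩ := hS.exists_eq_range h0
  let m : ℕ → Pt := fun n => Nat.rec (f 0) (fun n x => if E x (f (n + 1)) then f (n + 1) else x) n
  have hm0 : m 0 = f 0 := rfl
  have hm1 : ∀ n, m (n + 1) = if E (m n) (f (n + 1)) then f (n + 1) else m n := fun n => rfl
  have hfS : ∀ n, f n ∈ S := fun n => by rw [hf]; exact ⟨n, rfl⟩
  have hmS : ∀ n, m n ∈ S := by
    intro n
    induction n with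
    | zero => rw [hm0]; exact hfS 0
    | succ n ih =>
      rw [hm1]
      split_ifs
      · exact hfS (n + 1)
      · exact ih
  have hmono : ∀ n, E (m n) (m (n + 1)) := by
    intro n
    rw [hm1]
    split_ifs with h
    · exact h
    · exact hr _
  have hle : ∀ n, E (f n) (m n) := by
    intro n
    cases n with
    | zero => rw [hm0]; exact hr _
    | succ n =>
      rw [hm1]
      split_ifs with h
      · exact hr _
      · rcases hc _ (hfS (n + 1)) _ (hmS n) with h1 | h1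
        · exact h1
        · exact absurd h1 h
  obtain ⟨q, hq⟩ := hs m hmono
  refine ⟨q, fun s hs' => ?_⟩
  rw [hf] at hs'
  obtain ⟨n, rfl⟩ := hs'
  exact ht _ _ _ (hle n) (hq n)

open Classical in
/-- The recursion. -/
noncomputable def CHN_h {Pt O : Type} (E : Pt → Pt → Prop) (p₀ : Pt) (r : O → O → Prop)
    (wf : WellFounded r) (D : O → Set Pt) : O → Pt :=
  wf.fix (fun o ih => if h : ∃ q ∈ D o, ∀ o' (ho : r o' o), E (ih o' ho) q then h.choose else p₀)

theorem CHN_h_spec {Pt O : Type} (E : Pt → Pt → Prop) (p₀ : Pt) (r : O → O → Prop)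
    (wf : WellFounded r) (D : O → Set Pt) (o : O)
    (h : ∃ q ∈ D o, ∀ o', r o' o → E (CHN_h E p₀ r wf D o') q) :
    CHN_h E p₀ r wf D o ∈ D o ∧ ∀ o', r o' o → E (CHN_h E p₀ r wf D o') (CHN_h E p₀ r wf D o) := by
  classical
  have e : CHN_h E p₀ r wf D o = h.choose := by
    unfold CHN_h
    rw [WellFounded.fix_eq]
    exact dif_pos h
  rw [e]
  exact h.choose_spec

theorem CHN_main (Pt : Type) (E : Pt → Pt → Prop) (p₀ : Pt) (hr : ∀ p, E p p)
    (ht : ∀ p q r, E p q → E q r → E p r)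
    (hs : ∀ p : ℕ → Pt, (∀ n, E (p n) (p (n + 1))) → ∃ q, ∀ n, E (p n) q)
    (O : Type) [LinearOrder O] [WellFoundedLT O] (hO : ∀ o : O, (Set.Iio o).Countable)
    (D : O → Set Pt) (hD : ∀ o p, ∃ q ∈ D o, E p q) :
    ∃ g : O → Pt, (∀ o, g o ∈ D o) ∧ ∀ o o', o' < o → E (g o') (g o) := by
  let g := CHN_h E p₀ (· < ·) (wellFounded_lt (α := O)) D
  have key : ∀ o, g o ∈ D o ∧ ∀ o', o' < o → E (g o') (g o) := by
    intro o
    induction o using WellFoundedLT.induction with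
    | ind o ih =>
      apply CHN_h_spec
      have hchain : ∀ a ∈ g '' Set.Iio o, ∀ b ∈ g '' Set.Iio o, E a b ∨ E b a := by
        rintro _ ⟨a, ha, rfl⟩ _ ⟨b, hb, rfl⟩
        rcases lt_trichotomy a b with h | h | h
        · exact Or.inl ((ih b hb).2 a h)
        · rw [h]
          exact Or.inl (hr _)
        · exact Or.inr ((ih a ha).2 b h)
      obtain ⟨q₀, hq₀⟩ := CHN_ub Pt E p₀ hr ht hs (g '' Set.Iio o) ((hO o).image g) hchain
      obtain ⟨q, hq, hqq⟩ := hD o q₀
      exact ⟨q, hq, fun o' ho' => ht _ _ _ (hq₀ _ ⟨o', ho', rfl⟩) hqq⟩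
  exact ⟨g, fun o => (key o).1, fun o o' h => (key o).2 o' h⟩

theorem p_CHN : Stmt_CHN := by
  intro Pt E p₀ hr ht hs T D hT hD
  classical
  let O : Type := (Cardinal.aleph.{0} 1).ord.ToType
  have hO : ∀ o : O, (Set.Iio o).Countable := by
    intro o
    rw [Cardinal.countable_iff_lt_aleph_one]
    exact Cardinal.mk_Iio_toType_ord_lt o
  have hcard : Cardinal.mk T ≤ Cardinal.mk O := by
    refine hT.trans (le_of_eq ?_)
    exact (Cardinal.mk_ord_toType _).symm
  obtain ⟨e⟩ := (Cardinal.le_def _ _).mp hcard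
  obtain ⟨g, hg1, hg2⟩ := CHN_main Pt E p₀ hr ht hs O hO
    (fun o => {q | ∀ t, e t = o → q ∈ D t}) (by
      intro o p
      by_cases h : ∃ t, e t = o
      · obtain ⟨t, rfl⟩ := h
        obtain ⟨q, hq, hpq⟩ := hD t p
        refine ⟨q, fun t' ht' => ?_, hpq⟩
        rw [e.injective ht']
        exact hq
      · exact ⟨p, fun t ht' => absurd ⟨t, ht'⟩ h, hr p⟩)
  refine ⟨fun t => g (e t), fun t => hg1 (e t) t rfl, fun t t' => ?_⟩
  rcases lt_trichotomy (e t) (e t') with h | h | h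
  · exact Or.inl (hg2 _ _ h)
  · left
    show E (g (e t)) (g (e t'))
    rw [h]
    exact hr _
  · exact Or.inr (hg2 _ _ h)

end Pool.LF
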