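import Pool.Agent.Work.MP_f36782_lf.Interface5

set_option autoImplicit false

/-!
# Block CLF (typed by helper21): the closure is monotone and finitary
-/

open MeasureTheory Pool.Agent.Work.RamseyAD

namespace Pool.LF

theorem CLF_mono (ι : Type) (R : ι → Rule) (S S' : Set C) (h : S ⊆ S') (x : C)
    (hx : Cl R S x) : Cl R S' x := by
  induction hx with
  | base x hx => exact Cl.base x (h hx)
  | step e x hY hd _ ih => exact Cl.step e x hY hd ih

theorem CLF_fin (ι : Type) (R : ι → Rule) (S : Set C) (x : C) (hx : Cl R S x) :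
    ∃ S₀ : Set C, S₀.Finite ∧ S₀ ⊆ S ∧ Cl R S₀ x := by
  induction hx with
  | base x hx =>
    exact ⟨{x}, Set.finite_singleton x, Set.singleton_subset_iff.mpr hx,
      Cl.base x (Set.mem_singleton x)⟩
  | step e x hY hd _ ih =>
    choose f hf using ih
    refine ⟨⋃ β, ⋃ h : β ∈ (R e).L, f β h, ?_, ?_, ?_⟩
    · exact (List.finite_toSet (R e).L).biUnion' fun β h => (hf β h).1
    · exact Set.iUnion_subset fun β => Set.iUnion_subset fun h => (hf β h).2.1
    · refine Cl.step e x hY hd fun β hβ => ?_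
      exact CLF_mono ι R _ _ (Set.subset_iUnion_of_subset β
        (Set.subset_iUnion (fun h : β ∈ (R e).L => f β h) hβ)) _ (hf β hβ).2.2

theorem p_CLF : Stmt_CLF := fun ι R =>
  ⟨fun S S' h x hx => CLF_mono ι R S S' h x hx, fun S x hx => CLF_fin ι R S x hx⟩

end Pool.LF

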