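import Pool.Agent.Work.MP_f36782_lf.Interface2

set_option autoImplicit false

/-! # Block CPR (typed by helper82): properties of the companions -/

open MeasureTheory Pool.Agent.Work.RamseyAD

namespace Pool.LF

theorem CPR_com_succ (B : List ℕ → Set ℕ) (f : ℕ → (ℕ → ℕ) → C) (n j : ℕ) (z : ℕ → ℕ) :
    com B f (n + 1) j z = dia (com B f n j z) (lev B f z n).1 := rfl

theorem CPR_even (B : List ℕ → Set ℕ) (f : ℕ → (ℕ → ℕ) → C) (n i : ℕ) (z : ℕ → ℕ) :
    (lev B f z (n + 1)).1 (2 * i) = (lev B f z n).1 i := by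
  have h1 : (2 * i) % 2 = 0 := by omega
  have h2 : 2 * i / 2 = i := by omega
  show (if (2 * i) % 2 = 0 then (lev B f z n).1 (2 * i / 2) else _) = _
  rw [if_pos h1, h2]

theorem CPR_odd (B : List ℕ → Set ℕ) (f : ℕ → (ℕ → ℕ) → C) (n i : ℕ) (z : ℕ → ℕ) :
    (lev B f z (n + 1)).1 (2 * i + 1) = com B f (n + 1) i z := by
  have h1 : ¬ (2 * i + 1) % 2 = 0 := by omega
  have h2 : (2 * i + 1) / 2 = i := by omega
  show (if (2 * i + 1) % 2 = 0 then (lev B f z n).1 ((2 * i + 1) / 2) else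
    dia ((lev B f z n).2 ((2 * i + 1) / 2)) (lev B f z n).1) = _
  rw [if_neg h1, h2]
  rfl

theorem CPR_mem_f (B : List ℕ → Set ℕ) (f : ℕ → (ℕ → ℕ) → C) (z : ℕ → ℕ) (i : ℕ) :
    ∀ k, ∃ i', (lev B f z k).1 i' = f i z := by
  intro k
  induction k with
  | zero => exact ⟨i, rfl⟩
  | succ k ih =>
    obtain ⟨i', hi'⟩ := ih
    exact ⟨2 * i', by rw [CPR_even, hi']⟩

theorem CPR_mem_com (B : List ℕ → Set ℕ) (f : ℕ → (ℕ → ℕ) → C) (z : ℕ → ℕ) (m i : ℕ)
    (hm : 1 ≤ m) : ∀ k, m ≤ k → ∃ i', (lev B f z k).1 i' = com B f m i z := by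
  intro k hk
  induction k, hk using Nat.le_induction with
  | base =>
    obtain ⟨m, rfl⟩ : ∃ m', m = m' + 1 := ⟨m - 1, by omega⟩
    exact ⟨2 * i + 1, CPR_odd B f m i z⟩
  | succ k hk ih =>
    obtain ⟨i', hi'⟩ := ih
    exact ⟨2 * i', by rw [CPR_even, hi']⟩

theorem p_CPR (hD : Stmt_DIA) : Stmt_CPR := by
  intro B f z j hH
  have hsub : ∀ n, Sub (com B f (n + 1) j z) (com B f n j z) := fun n => (hD _ _).1
  have h0 : ∀ m, com B f 0 j z m = true → f j z m = true ∧ m ∈ Br B z := by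
    intro m hm
    have hm' : (f j z m && @decide (m ∈ Br B z) (Classical.propDecidable _)) = true := hm
    rw [Bool.and_eq_true] at hm'
    exact ⟨hm'.1, @of_decide_eq_true _ (Classical.propDecidable _) hm'.2⟩
  have hinf0 : Inf (com B f 0 j z) := by
    intro n
    obtain ⟨k, hk, h1, h2⟩ := hH n
    refine ⟨k, hk, ?_⟩
    show (f j z k && @decide (k ∈ Br B z) (Classical.propDecidable _)) = true
    rw [Bool.and_eq_true]
    exact ⟨h1, @decide_eq_true _ (Classical.propDecidable _) h2⟩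
  have hsub0 : ∀ n, Sub (com B f n j z) (com B f 0 j z) := by
    intro n
    induction n with
    | zero => exact fun k hk => hk
    | succ n ih => exact fun k hk => ih k (hsub n k hk)
  have hinf : ∀ n, Inf (com B f n j z) := by
    intro n
    induction n with
    | zero => exact hinf0
    | succ n ih => exact (hD _ _).2.1 ih
  intro n
  refine ⟨hinf n, hsub n, fun m hm => (h0 m (hsub0 n m hm)).1,
    fun m hm => (h0 m (hsub0 n m hm)).2, ?_, ?_⟩
  · intro i hn
    obtain ⟨k, rfl⟩ : ∃ k, n = k + 1 := ⟨n - 1, by omega⟩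
    obtain ⟨i', hi'⟩ := CPR_mem_f B f z i k
    have := (hD (com B f k j z) (lev B f z k).1).2.2 (hinf k) i'
    rw [hi'] at this
    exact this
  · intro m i hm hmn
    obtain ⟨k, rfl⟩ : ∃ k, n = k + 1 := ⟨n - 1, by omega⟩
    obtain ⟨i', hi'⟩ := CPR_mem_com B f z m i hm k (by omega)
    have := (hD (com B f k j z) (lev B f z k).1).2.2 (hinf k) i'
    rw [hi'] at this
    exact this

end Pool.LF
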