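import Pool.Agent.Work.MP_f36782_lf.Interface2

/-! Block DIA (MP_f36782_lc, helper90). -/

set_option autoImplicit false

open MeasureTheory Pool.Agent.Work.RamseyAD

namespace Pool.LF

theorem DIA_succ (w : C) (m : ℕ) :
    cnt w (m + 1) = cnt w m + if w m = true then 1 else 0 := by
  unfold cnt
  rw [Finset.range_add_one, Finset.filter_insert]
  by_cases h : w m = true
  · rw [if_pos h, if_pos h, Finset.card_insert_of_notMem]
    simp
  · rw [if_neg h, if_neg h, add_zero]

theorem DIA_mono (w : C) {m k : ℕ} (h : m ≤ k) : cnt w m ≤ cnt w k := by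
  unfold cnt
  refine Finset.card_le_card (Finset.filter_subset_filter _ ?_)
  exact Finset.range_mono h

theorem DIA_le (w : C) (m : ℕ) : cnt w m ≤ m := by
  unfold cnt
  refine (Finset.card_filter_le _ _).trans ?_
  rw [Finset.card_range]

theorem DIA_unb {w : C} (hw : Inf w) (c : ℕ) : ∃ m, c < cnt w m := by
  induction c with
  | zero =>
    obtain ⟨k, -, hk⟩ := hw 0
    refine ⟨k + 1, ?_⟩
    rw [DIA_succ, if_pos hk]
    omega
  | succ c ih =>
    obtain ⟨m, hm⟩ := ih
    obtain ⟨k, hmk, hk⟩ := hw m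
    refine ⟨k + 1, ?_⟩
    have h1 := DIA_mono w hmk
    rw [DIA_succ, if_pos hk]
    omega

theorem DIA_val {w : C} (hw : Inf w) (c : ℕ) : ∃ m, w m = true ∧ cnt w m = c := by
  classical
  have h := DIA_unb hw c
  obtain ⟨m, hm⟩ : ∃ m, Nat.find h = m + 1 := by
    cases h0 : Nat.find h with
    | zero =>
      exfalso
      have h1 := Nat.find_spec h
      rw [h0] at h1
      have h2 := DIA_le w 0
      omega
    | succ m => exact ⟨m, rfl⟩
  have h1 := Nat.find_spec h
  rw [hm, DIA_succ] at h1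
  have h2 : ¬ c < cnt w m := Nat.find_min h (by omega)
  by_cases hw' : w m = true
  · rw [if_pos hw'] at h1
    exact ⟨m, hw', by omega⟩
  · rw [if_neg hw'] at h1
    omega

theorem p_DIA : Stmt_DIA := by
  intro w g
  refine ⟨?_, ?_, ?_⟩
  · intro k hk
    unfold dia at hk
    rw [Bool.and_eq_true] at hk
    exact hk.1
  · intro hw n
    obtain ⟨m, h1, h2⟩ := DIA_val hw (2 * n + 1)
    have h3 := DIA_le w m
    refine ⟨m, by omega, ?_⟩
    have h4 : (2 * n + 1) % 2 = 1 := by omega
    unfold dia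
    rw [h1, h2, decide_eq_true h4]
    rfl
  · rintro hw i ⟨N, hN⟩
    obtain ⟨m, h1, h2⟩ := DIA_val hw (2 * Nat.pair i N)
    have h3 := DIA_le w m
    have h4 := Nat.right_le_pair i N
    have h5 := hN m (by omega)
    have h6 : ¬ (2 * Nat.pair i N) % 2 = 1 := by omega
    have h7 : 2 * Nat.pair i N / 2 = Nat.pair i N := by omega
    unfold dia at h5
    rw [h1, h2, decide_eq_false h6, h7, Nat.unpair_pair] at h5
    cases h8 : g i m <;> simp [h8] at h5

end Pool.LF
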