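import Pool.Agent.Work.MP_f36782_lf.Interface

/-! Block FMA: atoms are countable, monotonicity. -/

set_option autoImplicit false

open MeasureTheory Pool.Agent.Work.RamseyAD

namespace Pool.LF

theorem FMA_count {K L : Type} (φ : Fm K L) : φ.at.Countable := by
  induction φ with
  | base k => exact Set.countable_empty
  | pre l => exact Set.countable_singleton l
  | uni φ ih => exact Set.countable_iUnion ih
  | int φ ih => exact Set.countable_iUnion ih

theorem FMA_mono {K L : Type} (φ : Fm K L) (a : K → Prop) (b b' : L → Prop)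
    (h : ∀ l ∈ φ.at, b l → b' l) (ht : φ.tr a b) : φ.tr a b' := by
  induction φ with
  | base k => exact ht
  | pre l => exact h l rfl ht
  | uni φ ih =>
    obtain ⟨n, hn⟩ := ht
    exact ⟨n, ih n (fun l hl => h l (Set.mem_iUnion.2 ⟨n, hl⟩)) hn⟩
  | int φ ih =>
    intro n
    exact ih n (fun l hl => h l (Set.mem_iUnion.2 ⟨n, hl⟩)) (ht n)

theorem p_FMA : Stmt_FMA := fun _ _ φ => ⟨FMA_count φ, fun a b b' h ht => FMA_mono φ a b b' h ht⟩

end Pool.LF
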