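import Pool.Agent.Work.MP_f36782_lf.Interface5

set_option autoImplicit false

/-! # Block FNA (MP_f36782, THEOREM LF, part M): the set `A` -/

open MeasureTheory Pool.Agent.Work.RamseyAD

namespace Pool.LF

theorem FNA_refl (c : Pnt) : c.Le c :=
  ⟨subset_rfl, subset_rfl, subset_rfl, fun e => ⟨e, rfl⟩, fun e' _ _ _ => ⟨e', rfl⟩⟩

theorem FNA_notFreP {c : Pnt} {x : C} (h : x ∈ c.P) : x ∉ Fre c := fun h' => h'.1 h

theorem FNA_notFreQ {c : Pnt} {x : C} (h : x ∈ c.Q) : x ∉ Fre c := fun h' => h'.2.1 h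

theorem FNA_notFreY {c : Pnt} {x : C} (h : x ∈ c.Y) : x ∉ Fre c := fun h' => h'.2.2 h

theorem FNA_aeqSymm {x y : C} (h : AEq x y) : AEq y x := by
  obtain ⟨N, hN⟩ := h
  exact ⟨N, fun k hk => (hN k hk).symm⟩

theorem FNA_aeqTrans {x y z : C} (h : AEq x y) (h' : AEq y z) : AEq x z := by
  obtain ⟨N, hN⟩ := h
  obtain ⟨M, hM⟩ := h'
  exact ⟨max N M, fun k hk => (hN k (le_trans (le_max_left _ _) hk)).trans
    (hM k (le_trans (le_max_right _ _) hk))⟩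

section

variable {T : Type} (g : T → Pnt) (Z : Set C)

/-- The union of the promised sets. -/
def FNA_P : Set C := {x | ∃ t, x ∈ (g t).P}

/-- The union of the forbidden sets. -/
def FNA_Q : Set C := {x | ∃ t, x ∈ (g t).Q}

/-- The union of the reserved sets. -/
def FNA_Y : Set C := {x | ∃ t, x ∈ (g t).Y}

/-- All rules. -/
def FNA_R : T × ℕ → Rule := fun p => (g p.1).R p.2

/-- The free part. -/
def FNA_B : Set C := {x | x ∈ FNA_P g ∨ (x ∈ Z ∧ x ∉ FNA_Q g ∧ x ∉ FNA_Y g)}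

/-- The set. -/
def FNA_A : Set C := {x | Cl (FNA_R g) (FNA_B g Z) x}

variable {g Z}

theorem FNA_step {t : T} {e : ℕ} {x : C} (h : x ∈ ((g t).R e).Y) (hd : ∀ β ∈ ((g t).R e).L, β.dom x)
    (hc : ∀ β ∈ ((g t).R e).L, β.val x ∈ FNA_A g Z) : x ∈ FNA_A g Z :=
  Cl.step (R := FNA_R g) (t, e) x h hd hc

theorem FNA_base {x : C} (h : x ∈ FNA_B g Z) : x ∈ FNA_A g Z := Cl.base x h

variable {F : Set (Set (ℕ → ℕ))} (hg : ∀ t, Cok F (g t))
  (hL : ∀ t t', (g t).Le (g t') ∨ (g t').Le (g t))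

include hL in
theorem FNA_dir (t t' : T) : ∃ u, (g t).Le (g u) ∧ (g t').Le (g u) := by
  rcases hL t t' with h | h
  · exact ⟨t', h, FNA_refl _⟩
  · exact ⟨t, FNA_refl _, h⟩

include hg hL in
theorem FNA_PQ (x : C) (h : x ∈ FNA_P g) : x ∉ FNA_Q g := by
  rintro ⟨t', h'⟩
  obtain ⟨t, h⟩ := h
  obtain ⟨u, hu, hu'⟩ := FNA_dir hL t t'
  exact (hg u).dPQ x (hu.1 h) (hu'.2.1 h')

include hg hL in
theorem FNA_PY (x : C) (h : x ∈ FNA_P g) : x ∉ FNA_Y g := by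
  rintro ⟨t', h'⟩
  obtain ⟨t, h⟩ := h
  obtain ⟨u, hu, hu'⟩ := FNA_dir hL t t'
  exact (hg u).dPY x (hu.1 h) (hu'.2.2.1 h')

include hg hL in
theorem FNA_QY (x : C) (h : x ∈ FNA_Q g) : x ∉ FNA_Y g := by
  rintro ⟨t', h'⟩
  obtain ⟨t, h⟩ := h
  obtain ⟨u, hu, hu'⟩ := FNA_dir hL t t'
  exact (hg u).dQY x (hu.2.1 h) (hu'.2.2.1 h')

include hg in
theorem FNA_or (x : C) (h : x ∈ FNA_A g Z) : x ∈ FNA_B g Z ∨ x ∈ FNA_Y g := by
  have h' : Cl (FNA_R g) (FNA_B g Z) x := h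
  cases h' with
  | base _ h => exact Or.inl h
  | step e _ h hd hc => exact Or.inr ⟨e.1, (hg e.1).sub e.2 h⟩

include hg hL in
theorem FNA_disQ (x : C) (h : x ∈ FNA_A g Z) : x ∉ FNA_Q g := by
  rcases FNA_or hg x h with (h | h) | h
  · exact FNA_PQ hg hL x h
  · exact h.2.1
  · exact fun h' => FNA_QY hg hL x h' h

include hg in
theorem FNA_inf (hZ : ∀ x ∈ Z, Inf x) (x : C) (h : x ∈ FNA_A g Z) : Inf x := by
  rcases FNA_or hg x h with (⟨t, h⟩ | h) | ⟨t, h⟩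
  · exact (hg t).inf x (FNA_notFreP h)
  · exact hZ x h.1
  · exact (hg t).inf x (FNA_notFreY h)

include hg in
theorem FNA_tailB (hZ : Tail Z) (x x' : C) (h : AEq x x') (hx : x ∈ FNA_B g Z) : x' ∈ FNA_B g Z := by
  rcases hx with ⟨t, hx⟩ | ⟨h1, h2, h3⟩
  · exact Or.inl ⟨t, ((hg t).tP x x' h).1 hx⟩
  · refine Or.inr ⟨(hZ x x' h).1 h1, ?_, ?_⟩
    · rintro ⟨t, ht⟩
      exact h2 ⟨t, ((hg t).tQ x x' h).2 ht⟩
    · rintro ⟨t, ht⟩
      exact h3 ⟨t, ((hg t).tY x x' h).2 ht⟩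

include hg in
theorem FNA_tail1 (hZ : Tail Z) (x : C) (h : Cl (FNA_R g) (FNA_B g Z) x) :
    ∀ x', AEq x x' → x' ∈ FNA_A g Z := by
  induction h with
  | base x h => exact fun x' hx' => FNA_base (FNA_tailB hg hZ x x' hx' h)
  | step e x h hd hc ih =>
    intro x' hx'
    let A₁ : Set C := {y | ∀ y', AEq y y' → y' ∈ FNA_A g Z}
    have hT : Tail A₁ := by
      intro y y' hy
      constructor
      · intro h1 z hz
        exact h1 z (FNA_aeqTrans hy hz)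
      · intro h1 z hz
        exact h1 z (FNA_aeqTrans (FNA_aeqSymm hy) hz)
    have hS : Sat A₁ ((g e.1).R e.2) x := ⟨h, fun β hβ => ⟨hd β hβ, fun y' hy' => ih β hβ y' hy'⟩⟩
    obtain ⟨e', he', hS'⟩ := (hg e.1).tR A₁ hT e.2 x x' hx' hS
    exact FNA_step he' (fun β hβ => (hS' β hβ).1) fun β hβ => (hS' β hβ).2 _ ⟨0, fun _ _ => rfl⟩

include hg in
theorem FNA_tail (hZ : Tail Z) : Tail (FNA_A g Z) := by
  intro x y h
  exact ⟨fun hx => FNA_tail1 hg hZ x hx y h, fun hy => FNA_tail1 hg hZ y hy x (FNA_aeqSymm h)⟩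

theorem FNA_cl2 (t : T) (x : C) (h : Cl (g t).R (FNA_A g Z \ (g t).Y) x) : x ∈ FNA_A g Z := by
  induction h with
  | base x h => exact h.1
  | step e x h hd hc ih => exact FNA_step h hd ih

include hg hL in
theorem FNA_cl1 (t : T) (x : C) (h : Cl (FNA_R g) (FNA_B g Z) x) :
    Cl (g t).R (FNA_A g Z \ (g t).Y) x := by
  induction h with
  | base x h =>
    refine Cl.base x ⟨FNA_base h, fun hY => ?_⟩
    rcases h with h | h
    · exact FNA_PY hg hL x h ⟨t, hY⟩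
    · exact h.2.2 ⟨t, hY⟩
  | step e x h hd hc ih =>
    by_cases hY : x ∈ (g t).Y
    · have key : ∃ e₂, (g t).R e₂ = (g e.1).R e.2 := by
        rcases hL t e.1 with hl | hl
        · exact hl.2.2.2.2 e.2 x h hY
        · exact hl.2.2.2.1 e.2
      obtain ⟨e₂, he₂⟩ := key
      refine Cl.step e₂ x ?_ ?_ ?_
      · rw [he₂]; exact h
      · rw [he₂]; exact hd
      · rw [he₂]; exact ih
    · exact Cl.base x ⟨Cl.step e x h hd hc, hY⟩

end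

theorem p_FNA (h1 : Stmt_BRN) (_h2 : Stmt_CLF) : Stmt_FNA := by
  intro F T g hg hL
  obtain ⟨Z, hZT, hZI, hZ⟩ := h1
  refine ⟨FNA_A g Z, FNA_tail hg hZT, ?_, fun t => ⟨fun x hx => FNA_base (Or.inl ⟨t, hx⟩),
    fun x hx hQ => FNA_disQ hg hL x hx ⟨t, hQ⟩, FNA_inf hg hZI, FNA_tail hg hZT,
    fun x => ⟨FNA_cl1 hg hL t x, FNA_cl2 t x⟩⟩⟩
  rintro ⟨H, hH, hR⟩
  by_cases hex : ∃ x, Inf x ∧ Sub x H ∧ ∃ t, x ∉ Fre (g t)
  · obtain ⟨x, hx, hxH, t, ht⟩ := hex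
    obtain ⟨⟨y, hy, hyx⟩, ⟨y', hy', hyx'⟩⟩ := (hg t).bal x ht
    rcases hR with hR | hR
    · exact FNA_disQ hg hL y' (hR y' ((hg t).inf y' (FNA_notFreQ hy')) fun k hk => hxH k (hyx' k hk)) ⟨t, hy'⟩
    · exact hR y ((hg t).inf y (FNA_notFreP hy)) (fun k hk => hxH k (hyx k hk)) (FNA_base (Or.inl ⟨t, hy⟩))
  · obtain ⟨⟨x, hx, hxH⟩, ⟨y, hyI, hyH, hyZ⟩⟩ := hZ H hH
    have hfree : ∀ z, Inf z → Sub z H → ∀ t, z ∈ Fre (g t) := by
      intro z hz hzH t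
      by_contra hcon
      exact hex ⟨z, hz, hzH, t, hcon⟩
    rcases hR with hR | hR
    · have hyA := hR y hyI hyH
      rcases FNA_or hg y hyA with (⟨t, h⟩ | h) | ⟨t, h⟩
      · exact (hfree y hyI hyH t).1 h
      · exact hyZ h.1
      · exact (hfree y hyI hyH t).2.2 h
    · refine hR x (hZI x hx) hxH (FNA_base (Or.inr ⟨hx, ?_, ?_⟩))
      · rintro ⟨t, ht⟩
        exact (hfree x (hZI x hx) hxH t).2.1 ht
      · rintro ⟨t, ht⟩
        exact (hfree x (hZI x hx) hxH t).2.2 ht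

end Pool.LF
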