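import Pool.Agent.Work.MP_f36782_lf.Interface5

set_option autoImplicit false

open MeasureTheory Pool.Agent.Work.RamseyAD

namespace Pool.LF

theorem INB_union (F : Set (Set (ℕ → ℕ))) (h : DetBorel F) (S T : Set (ℕ → ℕ)) (hS : S ∈ F)
    (hT : T ∈ F) : S ∪ T ∈ F := by
  have h1 := h.union (fun n => if n = 0 then S else T) (by
    intro n
    by_cases hn : n = 0
    · simpa [hn] using hS
    · simpa [hn] using hT)
  have h2 : (⋃ n : ℕ, if n = 0 then S else T) = S ∪ T := by
    ext x
    simp only [Set.mem_iUnion, Set.mem_union]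
    constructor
    · rintro ⟨n, hn⟩
      by_cases h0 : n = 0
      · left; simpa [h0] using hn
      · right; simpa [h0] using hn
    · rintro (hx | hx)
      · exact ⟨0, by simpa using hx⟩
      · exact ⟨1, by simpa using hx⟩
  rwa [h2] at h1

theorem INB_inter (F : Set (Set (ℕ → ℕ))) (h : DetBorel F) (S T : Set (ℕ → ℕ)) (hS : S ∈ F)
    (hT : T ∈ F) : S ∩ T ∈ F := by
  have h1 := h.compl _ (INB_union F h _ _ (h.compl _ hS) (h.compl _ hT))
  rwa [Set.compl_union, compl_compl, compl_compl] at h1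

theorem INB_meas (F : Set (Set (ℕ → ℕ))) (h : DetBorel F) (S : Set (ℕ → ℕ))
    (hS : MeasurableSet S) : S ∈ F := by
  have hb : (MeasurableSpace.pi : MeasurableSpace (ℕ → ℕ)) = borel (ℕ → ℕ) :=
    BorelSpace.measurable_eq
  rw [hb] at hS
  have h1 : borel (ℕ → ℕ) ≤
    ({ MeasurableSet' := fun S => S ∈ F
       measurableSet_empty := h.isOpen _ isOpen_empty
       measurableSet_compl := h.compl
       measurableSet_iUnion := h.union } : MeasurableSpace (ℕ → ℕ)) :=
    MeasurableSpace.generateFrom_le (fun t ht => h.isOpen t ht)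
  exact h1 S hS

theorem p_INB : Stmt_INB := by
  intro F h
  refine ⟨INB_meas F h, ?_, ?_, ?_, ?_, ?_, ?_⟩
  · intro P hP f hf
    rw [Set.preimage_iUnion]
    exact h.union _ fun n => hP n f hf
  · intro P Q hP hQ f hf
    rw [Set.preimage_union]
    exact INB_union F h _ _ (hP f hf) (hQ f hf)
  · intro P Q hP hQ f hf
    rw [Set.preimage_inter]
    exact INB_inter F h _ _ (hP f hf) (hQ f hf)
  · intro P hP f hf
    rw [Set.preimage_compl]
    exact h.compl _ (hP f hf)
  · intro P hP f hf
    exact INB_meas F h _ (hf hP)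
  · intro S ζ hS hζ f hf
    exact h.preimage S hS (ζ ∘ f) (hζ.comp hf)

end Pool.LF
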