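import Pool.Agent.Work.MP_f36782_lf.Interface2

set_option autoImplicit false

/-! # MP_f36782_lc, THEOREM LF, block INJ: an injective choice function -/

open MeasureTheory Pool.Agent.Work.RamseyAD

namespace Pool.LF

theorem p_INJ : Stmt_INJ := by
  classical
  intro I X K hI hK
  obtain ⟨r, wo, hr⟩ := Cardinal.ord_eq I
  have hne : ∀ i, (K i).Nonempty := by
    intro i
    rw [Set.nonempty_iff_ne_empty]
    intro h0
    have h1 := hK i
    rw [h0, Cardinal.mk_emptyCollection] at h1
    exact absurd h1 (not_le.2 Cardinal.continuum_pos)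
  have wf : WellFounded r := wo.wf
  let F : (i : I) → ((j : I) → r j i → X) → X := fun i g =>
    if h : ∃ x ∈ K i, ∀ (j : I) (hj : r j i), g j hj ≠ x then h.choose else (hne i).some
  let c : I → X := wf.fix F
  have hc : ∀ i, c i = F i (fun j _ => c j) := fun i => wf.fix_eq F i
  have key : ∀ i, c i ∈ K i ∧ ∀ j, r j i → c j ≠ c i := by
    intro i
    have hex : ∃ x ∈ K i, ∀ (j : I) (_ : r j i), c j ≠ x := by
      by_contra hcon
      push Not at hcon
      have hsub : K i ⊆ Set.range (fun j : {j // r j i} => c j.1) := by
        intro x hx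
        obtain ⟨j, hj, hjx⟩ := hcon x hx
        exact ⟨⟨j, hj⟩, hjx⟩
      have h1 : Cardinal.mk (K i) ≤ Cardinal.mk {j // r j i} :=
        (Cardinal.mk_le_mk_of_subset hsub).trans Cardinal.mk_range_le
      have h2 : Cardinal.mk {j // r j i} < Cardinal.mk I := by
        have h3 := Cardinal.card_typein_lt (r := r) i hr
        rwa [Ordinal.card_typein] at h3
      exact absurd ((hK i).trans h1) (not_le.2 (h2.trans_le hI))
    have h1 : c i = hex.choose := by
      rw [hc i]
      exact dif_pos hex
    have h2 := hex.choose_spec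
    rw [← h1] at h2
    exact h2
  refine ⟨c, fun i j hij => ?_, fun i => (key i).1⟩
  rcases trichotomous_of r i j with h | h | h
  · exact absurd hij ((key j).2 i h)
  · exact h
  · exact absurd hij.symm ((key i).2 j h)

end Pool.LF
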