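import Pool.Agent.Work.MP_f36782_lf.Interface5

set_option autoImplicit false

open MeasureTheory Pool.Agent.Work.RamseyAD

namespace Pool.LF

theorem KBM_len (z : ℕ → ℕ) (n : ℕ) : (hist z n).length = n := by
  simp [hist]

theorem KBM_pre (z : ℕ → ℕ) {i j : ℕ} (h : i ≤ j) : hist z i <+: hist z j := by
  unfold hist
  obtain ⟨d, rfl⟩ := Nat.exists_eq_add_of_le h
  refine ⟨(List.range d).map (fun k => z (i + k)), ?_⟩
  rw [List.range_add, List.map_append, List.map_map]
  rfl

/-- The combinatorial condition. -/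
theorem KBM_iff (B : List ℕ → Set ℕ) (hB : Blk B) (x : C) (hx : Inf x) (N : ℕ) :
    (∃ z, ∀ m, N ≤ m → x m = true → m ∈ Br B z) ↔
      ∀ m m' : ℕ, N ≤ m → N ≤ m' → x m = true → x m' = true → Adj B m m' := by
  constructor
  · rintro ⟨z, hz⟩ m m' hm hm' hxm hxm'
    obtain ⟨i, hi⟩ := hz m hm hxm
    obtain ⟨i', hi'⟩ := hz m' hm' hxm'
    refine ⟨_, _, hi, hi', ?_⟩
    rcases le_total i i' with h | h
    · exact Or.inl (KBM_pre z h)
    · exact Or.inr (KBM_pre z h)
  · intro h
    -- the set of positions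
    obtain ⟨P, hP⟩ : ∃ P : Set (List ℕ), P = {l | ∃ m ∈ B l, N ≤ m ∧ x m = true} := ⟨_, rfl⟩
    have hcomp : ∀ l ∈ P, ∀ l' ∈ P, l <+: l' ∨ l' <+: l := by
      intro l hl l' hl'
      rw [hP] at hl hl'
      obtain ⟨m, hm, hNm, hxm⟩ := hl
      obtain ⟨m', hm', hNm', hxm'⟩ := hl'
      obtain ⟨a, b, ha, hb, hab⟩ := h m m' hNm hNm' hxm hxm'
      rw [hB.inj l a m hm ha, hB.inj l' b m' hm' hb]
      exact hab
    have hpos : ∀ m, N ≤ m → x m = true → ∃ l ∈ P, m ∈ B l := by
      intro m hm hxm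
      obtain ⟨l, l', hl, -, -⟩ := h m m hm hm hxm hxm
      refine ⟨l, ?_, hl⟩
      rw [hP]; exact ⟨m, hl, hm, hxm⟩
    have hunb : ∀ n, ∃ l ∈ P, n < l.length := by
      intro n
      by_contra hcon
      push Not at hcon
      have hfin : P.Finite := by
        refine Set.Finite.of_injOn (f := List.length) (t := Set.Iic n) ?_ ?_ (Set.finite_Iic n)
        · intro l hl; exact hcon l hl
        · intro l hl l' hl' hll
          rcases hcomp l hl l' hl' with h1 | h1
          · exact h1.eq_of_length hll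
          · exact (h1.eq_of_length hll.symm).symm
      have hU : (⋃ l ∈ P, B l).Finite := hfin.biUnion fun l _ => hB.fin l
      obtain ⟨b, hb⟩ := hU.bddAbove
      obtain ⟨m, hm, hxm⟩ := hx (max N (b + 1))
      obtain ⟨l, hl, hml⟩ := hpos m ((le_max_left _ _).trans hm) hxm
      have h1 : m ≤ b := hb (Set.mem_biUnion hl hml)
      have h2 : b + 1 ≤ m := (le_max_right _ _).trans hm
      omega
    choose L hLP hLl using hunb
    refine ⟨fun n => (L n)[n]'(hLl n), ?_⟩
    intro m hm hxm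
    obtain ⟨l, hl, hml⟩ := hpos m hm hxm
    refine ⟨l.length, ?_⟩
    have e : hist (fun n => (L n)[n]'(hLl n)) l.length = l := by
      apply List.ext_getElem
      · rw [KBM_len]
      · intro i h1 h2
        have e1 : (hist (fun n => (L n)[n]'(hLl n)) l.length)[i] = (L i)[i]'(hLl i) := by
          simp [hist]
        rw [e1]
        rcases hcomp l hl (L i) (hLP i) with h3 | h3
        · exact (h3.getElem h2).symm
        · exact h3.getElem (hLl i)
    rw [e]
    exact hml

theorem KBM_coord (m : ℕ) : MeasurableSet {x : C | x m = true} := by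
  have h : Measurable (fun x : C => x m) := measurable_pi_apply m
  exact h (MeasurableSet.singleton true)

theorem KBM_inf : MeasurableSet {x : C | Inf x} := by
  have e : {x : C | Inf x} = ⋂ n : ℕ, ⋃ k : ℕ, ({x : C | n ≤ k} ∩ {x : C | x k = true}) := by
    ext x
    simp only [Inf, Set.mem_ofPred_eq, Set.mem_iInter, Set.mem_iUnion, Set.mem_inter_iff]
  rw [e]
  exact MeasurableSet.iInter fun n => MeasurableSet.iUnion fun k =>
    (MeasurableSet.const _).inter (KBM_coord k)

theorem KBM_meas (B : List ℕ → Set ℕ) (hB : Blk B) (N : ℕ) :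
    MeasurableSet {x : C | Inf x ∧ ∃ z, ∀ m, N ≤ m → x m = true → m ∈ Br B z} := by
  have e : {x : C | Inf x ∧ ∃ z, ∀ m, N ≤ m → x m = true → m ∈ Br B z} =
      {x : C | Inf x} ∩ ⋂ m : ℕ, ⋂ m' : ℕ,
        ({x : C | x m = true}ᶜ ∪ ({x : C | x m' = true}ᶜ ∪ {x : C | N ≤ m → N ≤ m' → Adj B m m'})) := by
    ext x
    constructor
    · rintro ⟨h1, h2⟩
      refine ⟨h1, ?_⟩
      have h3 := (KBM_iff B hB x h1 N).1 h2
      refine Set.mem_iInter.2 fun m => Set.mem_iInter.2 fun m' => ?_
      by_cases hm : x m = true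
      · by_cases hm' : x m' = true
        · exact Or.inr (Or.inr fun a b => h3 m m' a b hm hm')
        · exact Or.inr (Or.inl hm')
      · exact Or.inl hm
    · rintro ⟨h1, h2⟩
      refine ⟨h1, (KBM_iff B hB x h1 N).2 ?_⟩
      intro m m' a b hm hm'
      have h3 := Set.mem_iInter.1 (Set.mem_iInter.1 h2 m) m'
      rcases h3 with h3 | h3 | h3
      · exact absurd hm h3
      · exact absurd hm' h3
      · exact h3 a b
  rw [e]
  exact KBM_inf.inter (MeasurableSet.iInter fun m => MeasurableSet.iInter fun m' =>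
    (KBM_coord m).compl.union ((KBM_coord m').compl.union (MeasurableSet.const _)))

theorem p_KBM : Stmt_KBM := by
  intro B hB
  refine ⟨?_, ?_, KBM_meas B hB⟩
  · have e : KB B = ⋃ N : ℕ, {x : C | Inf x ∧ ∃ z, ∀ m, N ≤ m → x m = true → m ∈ Br B z} := by
      ext x
      constructor
      · rintro ⟨h1, z, N, hz⟩
        exact Set.mem_iUnion.2 ⟨N, h1, z, hz⟩
      · intro h
        obtain ⟨N, h1, z, hz⟩ := Set.mem_iUnion.1 h
        exact ⟨h1, z, N, hz⟩
    rw [e]
    exact MeasurableSet.iUnion fun N => KBM_meas B hB N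
  · have key : ∀ x y : C, (∃ N, ∀ k, N ≤ k → x k = y k) → x ∈ KB B → y ∈ KB B := by
      rintro x y ⟨N, hN⟩ ⟨h1, z, K, hK⟩
      refine ⟨?_, z, max K N, ?_⟩
      · intro n
        obtain ⟨k, hk, hxk⟩ := h1 (max n N)
        refine ⟨k, (le_max_left _ _).trans hk, ?_⟩
        rw [← hN k ((le_max_right _ _).trans hk)]
        exact hxk
      · intro m hm hym
        refine hK m ((le_max_left _ _).trans hm) ?_
        rw [hN m ((le_max_right _ _).trans hm)]
        exact hym
    intro x y hxy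
    refine ⟨key x y hxy, key y x ?_⟩
    obtain ⟨N, hN⟩ := hxy
    exact ⟨N, fun k hk => (hN k hk).symm⟩

end Pool.LF
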