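import Pool.Agent.Work.MP_f36782_lf.Interface5

set_option autoImplicit false

open MeasureTheory Pool.Agent.Work.RamseyAD

namespace Pool.LF

theorem LIC_refl (c : Pnt) : c.Le c :=
  ⟨fun _ h => h, fun _ h => h, fun _ h => h, fun e => ⟨e, rfl⟩, fun e _ _ _ => ⟨e, rfl⟩⟩

theorem LIC_trans {c d f : Pnt} (h1 : c.Le d) (h2 : d.Le f) : c.Le f := by
  obtain ⟨a1, a2, a3, a4, a5⟩ := h1
  obtain ⟨b1, b2, b3, b4, b5⟩ := h2
  refine ⟨a1.trans b1, a2.trans b2, a3.trans b3, ?_, ?_⟩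
  · intro e
    obtain ⟨e', he'⟩ := a4 e
    obtain ⟨e'', he''⟩ := b4 e'
    exact ⟨e'', he''.trans he'⟩
  · intro e'' x hx hxc
    obtain ⟨e', he'⟩ := b5 e'' x hx (a3 hxc)
    obtain ⟨e, he⟩ := a5 e' x (by rw [he']; exact hx) hxc
    exact ⟨e, he.trans he'⟩

theorem LIC_le {c : ℕ → Pnt} (h : ∀ n, (c n).Le (c (n + 1))) : ∀ m n, m ≤ n → (c m).Le (c n) := by
  intro m n hmn
  induction n, hmn using Nat.le_induction with
  | base => exact LIC_refl _
  | succ n _ ih => exact LIC_trans ih (h n)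

theorem p_LIC (hINB : Stmt_INB) : Stmt_LIC := by
  intro F hF c hc hle
  obtain ⟨_, hU, _⟩ := hINB F hF
  have hmono := LIC_le hle
  let d : Pnt := ⟨⋃ n, (c n).P, ⋃ n, (c n).Q, ⋃ n, (c n).Y, fun t => (c t.unpair.1).R t.unpair.2⟩
  have mP : ∀ x, x ∈ d.P ↔ ∃ n, x ∈ (c n).P := fun x => Set.mem_iUnion
  have mQ : ∀ x, x ∈ d.Q ↔ ∃ n, x ∈ (c n).Q := fun x => Set.mem_iUnion
  have mY : ∀ x, x ∈ d.Y ↔ ∃ n, x ∈ (c n).Y := fun x => Set.mem_iUnion
  have hfre : ∀ x, x ∉ Fre d → ∃ n, x ∉ Fre (c n) := by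
    intro x hx
    by_contra hcon
    have hcon' : ∀ n, x ∈ Fre (c n) := fun n => by
      by_contra h
      exact hcon ⟨n, h⟩
    apply hx
    refine ⟨?_, ?_, ?_⟩
    · intro h
      obtain ⟨n, hn⟩ := (mP x).1 h
      exact (hcon' n).1 hn
    · intro h
      obtain ⟨n, hn⟩ := (mQ x).1 h
      exact (hcon' n).2.1 hn
    · intro h
      obtain ⟨n, hn⟩ := (mY x).1 h
      exact (hcon' n).2.2 hn
  refine ⟨d, ?_, ?_⟩
  · constructor
    · intro x hx hx'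
      obtain ⟨n, hn⟩ := (mP x).1 hx
      obtain ⟨m, hm⟩ := (mQ x).1 hx'
      exact (hc (max n m)).dPQ x ((hmono n _ (le_max_left n m)).1 hn)
        ((hmono m _ (le_max_right n m)).2.1 hm)
    · intro x hx hx'
      obtain ⟨n, hn⟩ := (mP x).1 hx
      obtain ⟨m, hm⟩ := (mY x).1 hx'
      exact (hc (max n m)).dPY x ((hmono n _ (le_max_left n m)).1 hn)
        ((hmono m _ (le_max_right n m)).2.2.1 hm)
    · intro x hx hx'
      obtain ⟨n, hn⟩ := (mQ x).1 hx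
      obtain ⟨m, hm⟩ := (mY x).1 hx'
      exact (hc (max n m)).dQY x ((hmono n _ (le_max_left n m)).2.1 hn)
        ((hmono m _ (le_max_right n m)).2.2.1 hm)
    · intro x y hxy
      constructor
      · intro hx
        obtain ⟨n, hn⟩ := (mP x).1 hx
        exact (mP y).2 ⟨n, ((hc n).tP x y hxy).1 hn⟩
      · intro hx
        obtain ⟨n, hn⟩ := (mP y).1 hx
        exact (mP x).2 ⟨n, ((hc n).tP x y hxy).2 hn⟩
    · intro x y hxy
      constructor
      · intro hx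
        obtain ⟨n, hn⟩ := (mQ x).1 hx
        exact (mQ y).2 ⟨n, ((hc n).tQ x y hxy).1 hn⟩
      · intro hx
        obtain ⟨n, hn⟩ := (mQ y).1 hx
        exact (mQ x).2 ⟨n, ((hc n).tQ x y hxy).2 hn⟩
    · intro x y hxy
      constructor
      · intro hx
        obtain ⟨n, hn⟩ := (mY x).1 hx
        exact (mY y).2 ⟨n, ((hc n).tY x y hxy).1 hn⟩
      · intro hx
        obtain ⟨n, hn⟩ := (mY y).1 hx
        exact (mY x).2 ⟨n, ((hc n).tY x y hxy).2 hn⟩
    · intro x hx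
      obtain ⟨n, hn⟩ := hfre x hx
      exact (hc n).inf x hn
    · intro x hx
      obtain ⟨n, hn⟩ := hfre x hx
      obtain ⟨⟨y, hy, hys⟩, ⟨z, hz, hzs⟩⟩ := (hc n).bal x hn
      exact ⟨⟨y, (mP y).2 ⟨n, hy⟩, hys⟩, ⟨z, (mQ z).2 ⟨n, hz⟩, hzs⟩⟩
    · exact hU _ fun n => (hc n).fP
    · exact hU _ fun n => (hc n).fQ
    · exact hU _ fun n => (hc n).fY
    · intro e
      exact (hc _).fR _
    · intro e x hx
      exact (mY x).2 ⟨_, (hc _).sub _ hx⟩
    · intro A hA e x x' hxx hS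
      obtain ⟨e', he'⟩ := (hc e.unpair.1).tR A hA e.unpair.2 x x' hxx hS
      refine ⟨Nat.pair e.unpair.1 e', ?_⟩
      show Sat A ((c (Nat.pair e.unpair.1 e').unpair.1).R (Nat.pair e.unpair.1 e').unpair.2) x'
      rw [Nat.unpair_pair]
      exact he'
  · intro n
    refine ⟨fun x hx => (mP x).2 ⟨n, hx⟩, fun x hx => (mQ x).2 ⟨n, hx⟩,
      fun x hx => (mY x).2 ⟨n, hx⟩, ?_, ?_⟩
    · intro e
      refine ⟨Nat.pair n e, ?_⟩
      show (c (Nat.pair n e).unpair.1).R (Nat.pair n e).unpair.2 = _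
      rw [Nat.unpair_pair]
    · intro e' x hx hxn
      rcases le_total e'.unpair.1 n with h | h
      · obtain ⟨e, he⟩ := (hmono _ _ h).2.2.2.1 e'.unpair.2
        exact ⟨e, he⟩
      · obtain ⟨e, he⟩ := (hmono _ _ h).2.2.2.2 e'.unpair.2 x hx hxn
        exact ⟨e, he⟩

end Pool.LF
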