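import Pool.Agent.Work.MP_f36782_lf.Interface5

set_option autoImplicit false

open MeasureTheory Pool.Agent.Work.RamseyAD

namespace Pool.LF

lemma LVC_ini_length {A : Type} (z : ℕ → A) (n : ℕ) : (ini z n).length = n := by
  simp [ini]

lemma LVC_ini_get {A : Type} (z : ℕ → A) {n m : ℕ} (h : m < n) : (ini z n)[m]? = some (z m) := by
  simp [ini, List.getElem?_map, List.getElem?_range h]

lemma LVC_ini_pre {A : Type} (z : ℕ → A) {m n : ℕ} (h : m ≤ n) : ini z m <+: ini z n := by
  have e : List.range m = (List.range n).take m := by rw [List.take_range, min_eq_left h]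
  rw [ini, ini, e, List.map_take]
  exact List.take_prefix _ _

lemma LVC_get_pre {A : Type} {l l' : List A} (h : l <+: l') {m : ℕ} {b : A} (hb : l[m]? = some b) :
    l'[m]? = some b := by
  obtain ⟨t, rfl⟩ := h
  have hm : m < l.length := by
    by_contra hc
    rw [List.getElem?_eq_none (not_lt.1 hc)] at hb
    cases hb
  rw [List.getElem?_append_left hm, hb]

lemma LVC_val {A B : Type} [Inhabited B] (α : LMap A B) (z : ℕ → A) (n m : ℕ) (b : B)
    (h : (α.fn (ini z n))[m]? = some b) : α.val z m = b := by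
  have hs : ∃ n, (α.fn (ini z n))[m]? = some (α.val z m) :=
    Classical.epsilon_spec (p := fun b => ∃ n, (α.fn (ini z n))[m]? = some b) ⟨b, n, h⟩
  obtain ⟨n', h'⟩ := hs
  rcases le_total n n' with hn | hn
  · have := LVC_get_pre (α.mono _ _ (LVC_ini_pre z hn)) h
    rw [this] at h'
    exact (Option.some.inj h').symm
  · have := LVC_get_pre (α.mono _ _ (LVC_ini_pre z hn)) h'
    rw [this] at h
    exact Option.some.inj h

lemma LVC_dom {A B : Type} (α : LMap A B) (z : ℕ → A) :
    α.dom z ↔ ∀ m : ℕ, ∃ (n : ℕ) (b : B), (α.fn (ini z n))[m]? = some b := by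
  constructor
  · intro h m
    obtain ⟨n, hn⟩ := h (m + 1)
    exact ⟨n, _, List.getElem?_eq_getElem (show m < (α.fn (ini z n)).length by omega)⟩
  · intro h k
    rcases k with _ | m
    · exact ⟨0, Nat.zero_le _⟩
    · obtain ⟨n, b, hb⟩ := h m
      refine ⟨n, ?_⟩
      by_contra hc
      rw [List.getElem?_eq_none (by omega)] at hb
      cases hb

lemma LVC_fn {A B : Type} [Inhabited B] (α : LMap A B) (z : ℕ → A) (n : ℕ) :
    α.fn (ini z n) = ini (α.val z) (α.fn (ini z n)).length := by
  apply List.ext_getElem?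
  intro m
  by_cases hm : m < (α.fn (ini z n)).length
  · rw [LVC_ini_get _ hm, LVC_val α z n m _ (List.getElem?_eq_getElem hm), List.getElem?_eq_getElem hm]
  · rw [List.getElem?_eq_none (not_lt.1 hm), List.getElem?_eq_none]
    rw [LVC_ini_length]
    exact not_lt.1 hm

lemma LVC_comp_dom {A B D : Type} (α : LMap A B) (β : LMap B D) (z : ℕ → A)
    (h : (β.comp α).dom z) : α.dom z := by
  by_contra hd
  have h1 : ∃ N, ∀ n, (α.fn (ini z n)).length ≤ (α.fn (ini z N)).length := by
    by_contra hc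
    push Not at hc
    apply hd
    intro k
    induction k with
    | zero => exact ⟨0, Nat.zero_le _⟩
    | succ k ih =>
      obtain ⟨N, hN⟩ := ih
      obtain ⟨n, hn⟩ := hc N
      exact ⟨n, by omega⟩
  obtain ⟨N, hN⟩ := h1
  obtain ⟨n, hn⟩ := h ((β.fn (α.fn (ini z N))).length + 1)
  have hn' : (β.fn (α.fn (ini z N))).length + 1 ≤ (β.fn (α.fn (ini z n))).length := hn
  rcases le_total n N with hnN | hnN
  · have := (β.mono _ _ (α.mono _ _ (LVC_ini_pre z hnN))).length_le
    omega
  · have := (α.mono _ _ (LVC_ini_pre z hnN)).eq_of_length_le (hN n)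
    rw [this] at hn'
    omega

theorem p_LVC : Stmt_LVC := by
  intro A B D _ _ α β z
  have h3 : (β.comp α).dom z ↔ α.dom z ∧ β.dom (α.val z) := by
    constructor
    · intro h
      refine ⟨LVC_comp_dom α β z h, fun k => ?_⟩
      obtain ⟨n, hn⟩ := h k
      have hn' : k ≤ (β.fn (α.fn (ini z n))).length := hn
      rw [LVC_fn α z n] at hn'
      exact ⟨_, hn'⟩
    · rintro ⟨h1, h2⟩ k
      obtain ⟨j, hj⟩ := h2 k
      obtain ⟨n, hn⟩ := h1 j
      refine ⟨n, hj.trans ?_⟩
      show _ ≤ (β.fn (α.fn (ini z n))).length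
      have hp : ini (α.val z) j <+: α.fn (ini z n) := by
        rw [LVC_fn α z n]
        exact LVC_ini_pre _ hn
      exact (β.mono _ _ hp).length_le
  refine ⟨LVC_val α z, LVC_dom α z, h3, fun h => ?_⟩
  funext m
  obtain ⟨n, b, hb⟩ := (LVC_dom (β.comp α) z).1 h m
  rw [LVC_val (β.comp α) z n m b hb]
  have hb' : (β.fn (α.fn (ini z n)))[m]? = some b := hb
  rw [LVC_fn α z n] at hb'
  exact (LVC_val β (α.val z) _ m b hb').symm

end Pool.LF
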