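import Pool.Agent.Work.MP_f36782_lf.Interface5

/-!
# MP_f36782_lc, THEOREM LF, part M, block LVM: list maps are measurable
-/

set_option autoImplicit false

open MeasureTheory Pool.Agent.Work.RamseyAD

namespace Pool.LF

theorem LVM_ofFn {A : Type} (z : ℕ → A) (n : ℕ) : ini z n = List.ofFn (fun i : Fin n => z i) := by
  unfold ini
  apply List.ext_getElem
  · simp
  · intro i h1 h2
    simp

theorem LVM_ini {A : Type} [Countable A] [MeasurableSpace A] [DiscreteMeasurableSpace A]
    (P : List A → Prop) (n : ℕ) : MeasurableSet {z : ℕ → A | P (ini z n)} := by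
  have h1 : Measurable (fun (z : ℕ → A) (i : Fin n) => z i) :=
    measurable_pi_lambda _ fun i => measurable_pi_apply _
  have h2 : MeasurableSet {w : Fin n → A | P (List.ofFn w)} := MeasurableSet.of_discrete
  have h3 : {z : ℕ → A | P (ini z n)} =
      (fun (z : ℕ → A) (i : Fin n) => z i) ⁻¹' {w : Fin n → A | P (List.ofFn w)} := by
    ext z
    rw [Set.mem_setOf_eq, LVM_ofFn]
    rfl
  rw [h3]
  exact h1 h2

theorem LVM_dom {A B : Type} [Countable A] [MeasurableSpace A] [DiscreteMeasurableSpace A]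
    (α : LMap A B) : MeasurableSet {z : ℕ → A | α.dom z} := by
  have h : {z : ℕ → A | α.dom z} = ⋂ k : ℕ, ⋃ n : ℕ, {z | k ≤ (α.fn (ini z n)).length} := by
    ext z
    simp only [Set.mem_setOf_eq, Set.mem_iInter, Set.mem_iUnion]
    exact Iff.rfl
  rw [h]
  exact MeasurableSet.iInter fun k => MeasurableSet.iUnion fun n =>
    LVM_ini (fun l => k ≤ (α.fn l).length) n

theorem LVM_val (hLVC : Stmt_LVC) {A B : Type} [Countable A] [Countable B] [Inhabited B]
    [MeasurableSpace A] [DiscreteMeasurableSpace A] [MeasurableSpace B] [DiscreteMeasurableSpace B]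
    (α : LMap A B) : Measurable (fun z : ℕ → A => α.val z) := by
  rw [measurable_pi_iff]
  intro m
  apply measurable_to_countable'
  intro b
  have h1 : ∀ (z : ℕ → A) (n : ℕ) (b' : B), (α.fn (ini z n))[m]? = some b' → α.val z m = b' :=
    fun z n b' h => (hLVC A B B α ⟨id, fun _ _ h => h⟩ z).1 n m b' h
  have h2 : (fun z : ℕ → A => α.val z m) ⁻¹' {b} =
      (⋃ n : ℕ, {z | (α.fn (ini z n))[m]? = some b}) ∪
      ((⋃ n : ℕ, {z | ∃ b' : B, (α.fn (ini z n))[m]? = some b'})ᶜ ∩
        {_z | Classical.epsilon (fun _ : B => False) = b}) := by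
    ext z
    simp only [Set.mem_preimage, Set.mem_singleton_iff, Set.mem_union, Set.mem_iUnion,
      Set.mem_setOf_eq, Set.mem_inter_iff, Set.mem_compl_iff]
    by_cases hex : ∃ (n : ℕ) (b' : B), (α.fn (ini z n))[m]? = some b'
    · obtain ⟨n, b', hb'⟩ := hex
      have h3 := h1 z n b' hb'
      constructor
      · intro h4
        left
        refine ⟨n, ?_⟩
        rw [hb', ← h3, h4]
      · rintro (⟨n', h4⟩ | ⟨h4, -⟩)
        · exact h1 z n' b h4
        · exact absurd ⟨n, b', hb'⟩ h4
    · have h3 : α.val z m = Classical.epsilon (fun _ : B => False) := by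
        unfold LMap.val
        congr 1
        funext b'
        rw [eq_iff_iff, iff_false]
        rintro ⟨n, hn⟩
        exact hex ⟨n, b', hn⟩
      constructor
      · intro h4
        right
        exact ⟨hex, by rw [← h3, h4]⟩
      · rintro (⟨n', h4⟩ | ⟨-, h4⟩)
        · exact h1 z n' b h4
        · rw [h3, h4]
  rw [h2]
  refine (MeasurableSet.iUnion fun n => LVM_ini (fun l => (α.fn l)[m]? = some b) n).union
    ((MeasurableSet.iUnion fun n =>
      LVM_ini (fun l => ∃ b' : B, (α.fn l)[m]? = some b') n).compl.inter ?_)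
  exact MeasurableSet.const _

theorem p_LVM (hLVC : Stmt_LVC) : Stmt_LVM := by
  refine ⟨fun A B _ _ _ _ _ _ _ α => ⟨LVM_dom α, LVM_val hLVC α⟩, fun α => ?_⟩
  show Measurable (fun z => pt α z)
  unfold pt
  exact Measurable.ite (LVM_dom α) (LVM_val hLVC α) measurable_const

end Pool.LF
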