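import Pool.Agent.Work.MP_f36782_lf.Interface2

set_option autoImplicit false

/-!
# Block MAB: the sets MA and MB are balanced
-/

open MeasureTheory Pool.Agent.Work.RamseyAD

namespace Pool.LF

theorem MAB_symm {B : List ℕ → Set ℕ} {a b : ℕ} (h : Adj B a b) : Adj B b a := by
  obtain ⟨l, l', h1, h2, h3⟩ := h
  exact ⟨l', l, h2, h1, h3.symm⟩

theorem p_MAB (h1 : Stmt_MPR) : Stmt_MAB := by
  classical
  intro B
  constructor
  · rintro x ⟨hinf, N, hU, M, hM⟩
    have hpick : ∀ n : ℕ, ∃ q : ℕ × ℕ, max n (max M N) ≤ q.1 ∧ x q.1 = true ∧ N ≤ q.2 ∧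
        q.2 ≠ q.1 ∧ x q.2 = true ∧ Adj B q.1 q.2 := by
      intro n
      obtain ⟨a, ha, hxa⟩ := hinf (max n (max M N))
      have haM : M ≤ a := le_trans (le_trans (le_max_left M N) (le_max_right n _)) ha
      obtain ⟨b, hb, hba, hxb, hab⟩ := hM a haM hxa
      exact ⟨(a, b), ha, hxa, hb, hba, hxb, hab⟩
    choose q hq1 hq2 hq3 hq4 hq5 hq6 using hpick
    let s : ℕ → ℕ := fun k => Nat.rec 0 (fun _ n => max n (max (q n).1 (q n).2) + 1) k
    have hs : ∀ k, s (k + 1) = max (s k) (max (q (s k)).1 (q (s k)).2) + 1 := fun k => rfl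
    have hmono : ∀ j k, j < k → s (j + 1) ≤ s k := by
      intro j k hjk
      induction k with
      | zero => omega
      | succ k ih =>
        rcases Nat.lt_succ_iff_lt_or_eq.1 hjk with h | h
        · exact le_trans (ih h) (by rw [hs]; exact Nat.le_succ_of_le (le_max_left _ _))
        · rw [h]
    set a : ℕ → ℕ := fun k => (q (s k)).1 with ha
    set b : ℕ → ℕ := fun k => (q (s k)).2 with hb
    have haN : ∀ k, N ≤ a k := fun k =>
      le_trans (le_trans (le_max_right M N) (le_max_right _ _)) (hq1 (s k))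
    have has : ∀ k, s k ≤ a k := fun k => le_trans (le_max_left _ _) (hq1 (s k))
    have hlt : ∀ j k, j < k → a j < a k ∧ b j < a k := by
      intro j k hjk
      have h2 : max (s j) (max (a j) (b j)) + 1 ≤ s k := hmono j k hjk
      have h3 : a j ≤ max (s j) (max (a j) (b j)) := le_trans (le_max_left _ _) (le_max_right _ _)
      have h4 : b j ≤ max (s j) (max (a j) (b j)) := le_trans (le_max_right _ _) (le_max_right _ _)
      have h5 := has k
      exact ⟨by linarith, by linarith⟩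
    -- the only neighbour of a member of the pair `j` is the other member
    have hpart : ∀ j c, (c = a j ∨ c = b j) → N ≤ c ∧ x c = true ∧
        ∀ e, N ≤ e → x e = true → e ≠ c → Adj B c e → e = a j ∨ e = b j := by
      intro j c hc
      rcases hc with rfl | rfl
      · refine ⟨haN j, hq2 (s j), fun e he hxe hec hae => Or.inr ?_⟩
        exact hU (a j) e (b j) (haN j) he (hq3 (s j)) (hq2 (s j)) hxe (hq5 (s j)) hec (hq4 (s j))
          hae (hq6 (s j))
      · refine ⟨hq3 (s j), hq5 (s j), fun e he hxe hec hae => Or.inl ?_⟩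
        exact hU (b j) e (a j) (hq3 (s j)) he (haN j) (hq5 (s j)) hxe (hq2 (s j)) hec
          (hq4 (s j)).symm hae (MAB_symm (hq6 (s j)))
    have hne : ∀ j k, j < k → ∀ c, (c = a j ∨ c = b j) → (c = a k ∨ c = b k) → False := by
      intro j k hjk c hc hc'
      obtain ⟨h2, h3⟩ := hlt j k hjk
      have hcl : c < a k := by rcases hc with rfl | rfl <;> assumption
      rcases hc' with h4 | h4
      · omega
      · have h5 := (hpart j c hc).2.2 (a k) (haN k) (hq2 (s k)) (by omega)
          (h4 ▸ MAB_symm (hq6 (s k)))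
        rcases h5 with h5 | h5 <;> omega
    have hmain : ∀ j k, j < k → ∀ c c', (c = a j ∨ c = b j) → (c' = a k ∨ c' = b k) →
        c ≠ c' ∧ ¬ Adj B c c' := by
      intro j k hjk c c' hc hc'
      have h2 : c ≠ c' := by
        rintro rfl
        exact hne j k hjk c hc hc'
      refine ⟨h2, fun h3 => ?_⟩
      obtain ⟨h4, h5, _⟩ := hpart k c' hc'
      have h6 := (hpart j c hc).2.2 c' h4 h5 h2.symm h3
      exact hne j k hjk c' h6 hc'
    refine (h1 B x a b ?_ ?_).2
    · intro k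
      exact ⟨hq2 (s k), hq5 (s k), (hq4 (s k)).symm, hq6 (s k)⟩
    · intro k k' hkk c c' hc hc'
      rcases Nat.lt_or_gt_of_ne hkk with h | h
      · exact hmain k k' h c c' hc hc'
      · obtain ⟨h2, h3⟩ := hmain k' k h c' c hc' hc
        exact ⟨h2.symm, fun h4 => h3 (MAB_symm h4)⟩
  · rintro x ⟨N, hU, _, h3⟩
    have hy : ∀ a, (decide (x a = true ∧ N ≤ a ∧ Nb B x N a) = true) ↔
        (x a = true ∧ N ≤ a ∧ Nb B x N a) := fun a => decide_eq_true_iff
    refine ⟨fun a => decide (x a = true ∧ N ≤ a ∧ Nb B x N a), ⟨?_, N, ?_, 0, ?_⟩, ?_⟩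
    · intro n
      obtain ⟨a, ha, hxa, hNa⟩ := h3 (max n N)
      exact ⟨a, le_trans (le_max_left _ _) ha, (hy a).2 ⟨hxa, le_trans (le_max_right _ _) ha, hNa⟩⟩
    · intro a b b' ha hb hb' hxa hxb hxb' h4 h5 h6 h7
      exact hU a b b' ha hb hb' ((hy a).1 hxa).1 ((hy b).1 hxb).1 ((hy b').1 hxb').1 h4 h5 h6 h7
    · intro a _ hxa
      obtain ⟨h4, h5, b, hb, hba, hxb, hab⟩ := (hy a).1 hxa
      exact ⟨b, hb, hba, (hy b).2 ⟨hxb, hb, a, h5, hba.symm, h4, MAB_symm hab⟩, hab⟩
    · intro a hxa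
      exact ((hy a).1 hxa).1

end Pool.LF
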