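import Pool.Agent.Work.MP_f36782_lf.Interface2

set_option autoImplicit false

open MeasureTheory Pool.Agent.Work.RamseyAD

namespace Pool.LF

theorem MPR_symm {B : List ℕ → Set ℕ} {a b : ℕ} (h : Adj B a b) : Adj B b a := by
  obtain ⟨l, l', h1, h2, h3⟩ := h
  exact ⟨l', l, h2, h1, h3.symm⟩

theorem MPR_large {f : ℕ → ℕ} (hf : Function.Injective f) (n : ℕ) : ∃ k, n ≤ f k := by
  obtain ⟨m, ⟨k, rfl⟩, hk⟩ := (Set.infinite_range_of_injective hf).exists_gt n
  exact ⟨k, hk.le⟩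

theorem MPR_uq {B : List ℕ → Set ℕ} {a b : ℕ → ℕ}
    (h : ∀ k k', k ≠ k' → ∀ c c', (c = a k ∨ c = b k) → (c' = a k' ∨ c' = b k') →
      c ≠ c' ∧ ¬ Adj B c c') {y : C}
    (hy : ∀ c, y c = true → ∃ k, c = a k ∨ c = b k) : Uq B y 0 := by
  intro c d d' _ _ _ hc hd hd' hdc hdc' h1 h2
  obtain ⟨k, hk⟩ := hy c hc
  obtain ⟨l, hl⟩ := hy d hd
  obtain ⟨l', hl'⟩ := hy d' hd'
  have e1 : k = l := by
    by_contra hne
    exact (h k l hne c d hk hl).2 h1
  have e2 : k = l' := by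
    by_contra hne
    exact (h k l' hne c d' hk hl').2 h2
  subst e1
  subst e2
  rcases hk with rfl | rfl
  · rcases hl with rfl | rfl
    · exact absurd rfl hdc
    · rcases hl' with rfl | rfl
      · exact absurd rfl hdc'
      · rfl
  · rcases hl with rfl | rfl
    · rcases hl' with rfl | rfl
      · rfl
      · exact absurd rfl hdc'
    · exact absurd rfl hdc

theorem p_MPR : Stmt_MPR := by
  intro B x a b h1 h2
  classical
  have hinj : Function.Injective a := by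
    intro k k' hk
    by_contra hne
    exact (h2 k k' hne _ _ (Or.inl rfl) (Or.inl rfl)).1 hk
  constructor
  · obtain ⟨y, hy⟩ : ∃ y : C, ∀ m, y m = true ↔ ∃ k, m = a k ∨ m = b k :=
      ⟨fun m => decide (∃ k, m = a k ∨ m = b k), fun m => by simp⟩
    refine ⟨y, ⟨fun n => ?_, 0, MPR_uq h2 fun c hc => (hy c).1 hc, 0, fun c _ hc => ?_⟩,
      fun c hc => ?_⟩
    · obtain ⟨k, hk⟩ := MPR_large hinj n
      exact ⟨a k, hk, (hy _).2 ⟨k, Or.inl rfl⟩⟩
    · obtain ⟨k, rfl | rfl⟩ := (hy c).1 hc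
      · exact ⟨b k, Nat.zero_le _, (h1 k).2.2.1.symm, (hy _).2 ⟨k, Or.inr rfl⟩, (h1 k).2.2.2⟩
      · exact ⟨a k, Nat.zero_le _, (h1 k).2.2.1, (hy _).2 ⟨k, Or.inl rfl⟩,
          MPR_symm (h1 k).2.2.2⟩
    · obtain ⟨k, rfl | rfl⟩ := (hy c).1 hc
      · exact (h1 k).1
      · exact (h1 k).2.1
  · obtain ⟨y, hy⟩ : ∃ y : C, ∀ m, y m = true ↔ ∃ k, m = a k ∨ (m = b k ∧ k % 2 = 0) :=
      ⟨fun m => decide (∃ k, m = a k ∨ (m = b k ∧ k % 2 = 0)), fun m => by simp⟩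
    have hy' : ∀ c, y c = true → ∃ k, c = a k ∨ c = b k := by
      intro c hc
      obtain ⟨k, hk | ⟨hk, -⟩⟩ := (hy c).1 hc
      · exact ⟨k, Or.inl hk⟩
      · exact ⟨k, Or.inr hk⟩
    refine ⟨y, ⟨0, MPR_uq h2 hy', fun n => ?_, fun n => ?_⟩, fun c hc => ?_⟩
    · have hi : Function.Injective fun k => a (2 * k + 1) := by
        intro k k' hk
        have := hinj hk
        omega
      obtain ⟨k, hk⟩ := MPR_large hi n
      refine ⟨a (2 * k + 1), hk, (hy _).2 ⟨_, Or.inl rfl⟩, ?_⟩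
      rintro ⟨d, -, hdc, hd, hadj⟩
      obtain ⟨l, hl⟩ := (hy d).1 hd
      have hl' : d = a l ∨ d = b l := by
        rcases hl with hl | ⟨hl, -⟩
        · exact Or.inl hl
        · exact Or.inr hl
      have e1 : 2 * k + 1 = l := by
        by_contra hne
        exact (h2 _ l hne _ d (Or.inl rfl) hl').2 hadj
      subst e1
      rcases hl with hl | ⟨-, hl⟩
      · exact hdc hl
      · omega
    · have hi : Function.Injective fun k => a (2 * k) := by
        intro k k' hk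
        have := hinj hk
        omega
      obtain ⟨k, hk⟩ := MPR_large hi n
      refine ⟨a (2 * k), hk, (hy _).2 ⟨_, Or.inl rfl⟩, b (2 * k), Nat.zero_le _,
        (h1 _).2.2.1.symm, (hy _).2 ⟨2 * k, Or.inr ⟨rfl, by omega⟩⟩, (h1 _).2.2.2⟩
    · obtain ⟨k, rfl | ⟨rfl, -⟩⟩ := (hy c).1 hc
      · exact (h1 k).1
      · exact (h1 k).2.1

end Pool.LF
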