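import Pool.Agent.Work.MP_f36782_lf.Interface2

set_option autoImplicit false

open MeasureTheory Pool.Agent.Work.RamseyAD

namespace Pool.LF

theorem MSB_el (a : ℕ) : Measurable fun x : C => (x a = true) :=
  measurableSet_setOfPred.1 (measurableSet_eq_fun (measurable_pi_apply a) measurable_const)

theorem MSB_inf : Measurable fun x : C => Inf x := by
  unfold Inf
  exact Measurable.forall fun n => Measurable.exists fun k => measurable_const.and (MSB_el k)

theorem MSB_uq (B : List ℕ → Set ℕ) (N : ℕ) : Measurable fun x : C => Uq B x N := by
  unfold Uq
  refine Measurable.forall fun a => Measurable.forall fun b => Measurable.forall fun b' => ?_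
  refine measurable_const.imp (measurable_const.imp (measurable_const.imp ?_))
  refine (MSB_el a).imp ((MSB_el b).imp ((MSB_el b').imp ?_))
  exact measurable_const

theorem MSB_nb (B : List ℕ → Set ℕ) (N a : ℕ) : Measurable fun x : C => Nb B x N a := by
  unfold Nb
  refine Measurable.exists fun b => ?_
  exact measurable_const.and (measurable_const.and ((MSB_el b).and measurable_const))

theorem p_MSB : Stmt_MSB := by
  intro B
  constructor
  · refine measurableSet_setOfPred.2 ?_
    refine MSB_inf.and (Measurable.exists fun N => (MSB_uq B N).and (Measurable.exists fun M => ?_))
    exact Measurable.forall fun a => measurable_const.imp ((MSB_el a).imp (MSB_nb B N a))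
  · refine measurableSet_setOfPred.2 ?_
    refine Measurable.exists fun N => (MSB_uq B N).and (Measurable.and ?_ ?_)
    · exact Measurable.forall fun n => Measurable.exists fun a =>
        measurable_const.and ((MSB_el a).and (MSB_nb B N a).not)
    · exact Measurable.forall fun n => Measurable.exists fun a =>
        measurable_const.and ((MSB_el a).and (MSB_nb B N a))

end Pool.LF
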