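import Pool.Agent.Work.MP_f36782_lf.Interface2

set_option autoImplicit false

/-!
# MP_f36782_lc, THEOREM LF, block MST: `MA` and `MB` are disjoint tail sets of infinite sets
-/

open MeasureTheory Pool.Agent.Work.RamseyAD

namespace Pool.LF

theorem MST_sym {B : List ℕ → Set ℕ} {a b : ℕ} (h : Adj B a b) : Adj B b a := by
  obtain ⟨l, l', h1, h2, h3⟩ := h
  exact ⟨l', l, h2, h1, h3.symm⟩

theorem MST_mono {B : List ℕ → Set ℕ} {x : C} {N N' : ℕ} (hN : N ≤ N') (h : Uq B x N) :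
    Uq B x N' := fun a b b' h1 h2 h3 => h a b b' (hN.trans h1) (hN.trans h2) (hN.trans h3)

theorem MST_nb {B : List ℕ → Set ℕ} {x : C} {N N' : ℕ} (hN : N ≤ N') (h : Uq B x N) :
    ∃ M, ∀ a, M ≤ a → x a = true → (Nb B x N a ↔ Nb B x N' a) := by
  have hfin : Set.Finite (⋃ b ∈ Finset.range N', {a | N ≤ a ∧ x a = true ∧ N ≤ b ∧
      x b = true ∧ a ≠ b ∧ Adj B b a}) := by
    refine Set.Finite.biUnion (Finset.finite_toSet _) fun b _ => ?_
    apply Set.Subsingleton.finite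
    intro a ha a' ha'
    obtain ⟨h1, h2, h3, h4, h5, h6⟩ := ha
    obtain ⟨h1', h2', -, -, h5', h6'⟩ := ha'
    exact h b a a' h3 h1 h1' h4 h2 h2' h5 h5' h6 h6'
  obtain ⟨M, hM⟩ := hfin.bddAbove
  refine ⟨max N (M + 1), fun a ha hxa => ⟨?_, ?_⟩⟩
  · rintro ⟨b, h1, h2, h3, h4⟩
    by_cases hb : N' ≤ b
    · exact ⟨b, hb, h2, h3, h4⟩
    · exfalso
      have h5 : a ≤ M := by
        apply hM
        refine Set.mem_biUnion (show b ∈ (Finset.range N' : Set ℕ) from ?_) ?_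
        · exact Finset.mem_coe.2 (Finset.mem_range.2 (not_le.1 hb))
        · exact ⟨(le_max_left _ _).trans ha, hxa, h1, h3, h2.symm, MST_sym h4⟩
      have h6 : M + 1 ≤ a := (le_max_right _ _).trans ha
      omega
  · rintro ⟨b, h1, h2, h3, h4⟩
    exact ⟨b, hN.trans h1, h2, h3, h4⟩

theorem MST_uq {B : List ℕ → Set ℕ} {x y : C} {N : ℕ} (hxy : ∀ k, N ≤ k → x k = y k)
    (h : Uq B x N) : Uq B y N := by
  intro a b b' h1 h2 h3 h4 h5 h6
  exact h a b b' h1 h2 h3 ((hxy a h1).trans h4) ((hxy b h2).trans h5) ((hxy b' h3).trans h6)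

theorem MST_nb2 {B : List ℕ → Set ℕ} {x y : C} {N : ℕ} (hxy : ∀ k, N ≤ k → x k = y k) (a : ℕ)
    (h : Nb B x N a) : Nb B y N a := by
  obtain ⟨b, h1, h2, h3, h4⟩ := h
  exact ⟨b, h1, h2, (hxy b h1).symm.trans h3, h4⟩

theorem MST_MA {B : List ℕ → Set ℕ} {x y : C} {K : ℕ} (hxy : ∀ k, K ≤ k → x k = y k)
    (h : x ∈ MA B) : y ∈ MA B := by
  obtain ⟨hI, N, hU, M, hM⟩ := h
  obtain ⟨M₂, hM₂⟩ := MST_nb (le_max_left N K) hU
  have hxy' : ∀ k, max N K ≤ k → x k = y k := fun k hk => hxy k ((le_max_right _ _).trans hk)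
  refine ⟨?_, max N K, MST_uq hxy' (MST_mono (le_max_left N K) hU), max M (max M₂ K), ?_⟩
  · intro n
    obtain ⟨k, h1, h2⟩ := hI (max n K)
    exact ⟨k, (le_max_left _ _).trans h1, (hxy k ((le_max_right _ _).trans h1)).symm.trans h2⟩
  · intro a ha hya
    have h1 : M ≤ a := (le_max_left _ _).trans ha
    have h2 : M₂ ≤ a := ((le_max_left _ _).trans (le_max_right _ _)).trans ha
    have h3 : K ≤ a := ((le_max_right _ _).trans (le_max_right _ _)).trans ha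
    have hxa : x a = true := (hxy a h3).trans hya
    exact MST_nb2 hxy' a ((hM₂ a h2 hxa).1 (hM a h1 hxa))

theorem MST_MB {B : List ℕ → Set ℕ} {x y : C} {K : ℕ} (hxy : ∀ k, K ≤ k → x k = y k)
    (h : x ∈ MB B) : y ∈ MB B := by
  obtain ⟨N, hU, hn, hp⟩ := h
  obtain ⟨M₂, hM₂⟩ := MST_nb (le_max_left N K) hU
  have hxy' : ∀ k, max N K ≤ k → x k = y k := fun k hk => hxy k ((le_max_right _ _).trans hk)
  refine ⟨max N K, MST_uq hxy' (MST_mono (le_max_left N K) hU), ?_, ?_⟩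
  · intro n
    obtain ⟨a, ha, hxa, hna⟩ := hn (max n (max M₂ K))
    have h1 : n ≤ a := (le_max_left _ _).trans ha
    have h2 : M₂ ≤ a := ((le_max_left _ _).trans (le_max_right _ _)).trans ha
    have h3 : K ≤ a := ((le_max_right _ _).trans (le_max_right _ _)).trans ha
    refine ⟨a, h1, (hxy a h3).symm.trans hxa, fun hb => hna ?_⟩
    exact (hM₂ a h2 hxa).2 (MST_nb2 (fun k hk => (hxy' k hk).symm) a hb)
  · intro n
    obtain ⟨a, ha, hxa, hna⟩ := hp (max n (max M₂ K))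
    have h1 : n ≤ a := (le_max_left _ _).trans ha
    have h2 : M₂ ≤ a := ((le_max_left _ _).trans (le_max_right _ _)).trans ha
    have h3 : K ≤ a := ((le_max_right _ _).trans (le_max_right _ _)).trans ha
    exact ⟨a, h1, (hxy a h3).symm.trans hxa, MST_nb2 hxy' a ((hM₂ a h2 hxa).1 hna)⟩

theorem p_MST : Stmt_MST := by
  intro B
  refine ⟨?_, ?_, fun x hx => hx.1, ?_, ?_⟩
  · rintro x y ⟨K, hK⟩
    exact ⟨fun h => MST_MA hK h, fun h => MST_MA (fun k hk => (hK k hk).symm) h⟩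
  · rintro x y ⟨K, hK⟩
    exact ⟨fun h => MST_MB hK h, fun h => MST_MB (fun k hk => (hK k hk).symm) h⟩
  · rintro x ⟨N, -, -, hp⟩ n
    obtain ⟨a, h1, h2, -⟩ := hp n
    exact ⟨a, h1, h2⟩
  · rintro x ⟨-, N₁, hU₁, M, hM⟩ ⟨N₂, hU₂, hn, -⟩
    obtain ⟨K₁, hK₁⟩ := MST_nb (le_max_left N₁ N₂) hU₁
    obtain ⟨K₂, hK₂⟩ := MST_nb (le_max_right N₁ N₂) hU₂
    obtain ⟨a, ha, hxa, hna⟩ := hn (max M (max K₁ K₂))
    have h1 : M ≤ a := (le_max_left _ _).trans ha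
    have h2 : K₁ ≤ a := ((le_max_left _ _).trans (le_max_right _ _)).trans ha
    have h3 : K₂ ≤ a := ((le_max_right _ _).trans (le_max_right _ _)).trans ha
    exact hna ((hK₂ a h3 hxa).2 ((hK₁ a h2 hxa).1 (hM a h1 hxa)))

end Pool.LF
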