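import Pool.Agent.Work.MP_f36782_lf.Interface2

set_option autoImplicit false

/-! # Block NOD (typed by helper82): chains of positions -/

open MeasureTheory Pool.Agent.Work.RamseyAD

namespace Pool.LF

/-- there is a chain of `k + 1` elements of `M` above `h` -/
def NOD_Ch (M : Set (List ℕ)) (h : List ℕ) (k : ℕ) : Prop :=
  ∃ c : ℕ → List ℕ, (∀ i, i ≤ k → c i ∈ M) ∧ (∀ i, i < k → c i <+: c (i + 1) ∧ c i ≠ c (i + 1)) ∧
    h <+: c 0

theorem NOD_Ch_mono {M : Set (List ℕ)} {h : List ℕ} {k k' : ℕ} (hk : k ≤ k')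
    (hc : NOD_Ch M h k') : NOD_Ch M h k := by
  obtain ⟨c, h1, h2, h3⟩ := hc
  exact ⟨c, fun i hi => h1 i (hi.trans hk), fun i hi => h2 i (lt_of_lt_of_le hi hk), h3⟩

theorem NOD_hist_len (z : ℕ → ℕ) (n : ℕ) : (hist z n).length = n := by
  simp [hist]

theorem NOD_hist_get (z : ℕ → ℕ) (n i : ℕ) (h : i < (hist z n).length) : (hist z n)[i] = z i := by
  simp [hist]

theorem NOD_hist_pre (u : ℕ → ℕ) (a b : ℕ) (h : a ≤ b) : hist u a <+: hist u b := by
  obtain ⟨c, rfl⟩ := Nat.exists_eq_add_of_le h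
  unfold hist
  rw [List.range_add, List.map_append]
  exact List.prefix_append _ _

theorem NOD_lt {a b : List ℕ} (h : a <+: b) (hne : a ≠ b) : a.length < b.length := by
  rcases Nat.lt_or_ge a.length b.length with h1 | h1
  · exact h1
  · exact absurd (h.eq_of_length (le_antisymm h.length_le h1)) hne

theorem NOD_branch (M : Set (List ℕ)) (s : ℕ → List ℕ)
    (hs : ∀ i, s i <+: s (i + 1) ∧ s i ≠ s (i + 1) ∧ s (i + 1) ∈ M) :
    ∃ z : ℕ → ℕ, ∀ N, ∃ i, N ≤ i ∧ hist z i ∈ M := by
  have hmono : ∀ i j, i ≤ j → s i <+: s j := by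
    intro i j hij
    induction j, hij using Nat.le_induction with
    | base => exact List.prefix_refl _
    | succ j _ ih => exact ih.trans (hs j).1
  have hlen : ∀ i, i ≤ (s i).length := by
    intro i
    induction i with
    | zero => omega
    | succ i ih =>
      have := NOD_lt (hs i).1 (hs i).2.1
      omega
  have hl1 : ∀ m, m < (s (m + 1)).length := fun m => lt_of_lt_of_le (Nat.lt_succ_self m) (hlen _)
  refine ⟨fun m => (s (m + 1))[m]'(hl1 m), fun N => ⟨(s (N + 1)).length, ?_, ?_⟩⟩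
  · have := hlen (N + 1)
    omega
  · have : hist (fun m => (s (m + 1))[m]'(hl1 m)) (s (N + 1)).length = s (N + 1) := by
      refine List.ext_getElem (NOD_hist_len _ _) fun m h1 h2 => ?_
      rw [NOD_hist_get]
      rcases le_total (m + 1) (N + 1) with h | h
      · exact (hmono _ _ h).getElem (hl1 m)
      · exact ((hmono _ _ h).getElem h2).symm
    rw [this]
    exact (hs N).2.2

theorem p_NOD : Stmt_NOD := by
  classical
  intro M hM
  have hroot : ∀ k, NOD_Ch M [] k := by
    intro k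
    obtain ⟨u, n, hn, hu⟩ := hM k
    refine ⟨fun i => hist u (n i), hu, fun i hi => ⟨NOD_hist_pre _ _ _ (hn i hi).le, ?_⟩,
      List.nil_prefix⟩
    intro he
    have := congrArg List.length he
    rw [NOD_hist_len, NOD_hist_len] at this
    have := hn i hi
    omega
  by_cases hcase : ∀ h, (∀ k, NOD_Ch M h k) →
      ∃ h' ∈ M, (∀ k, NOD_Ch M h' k) ∧ h <+: h' ∧ h ≠ h'
  · left
    choose! F hF using hcase
    let s : ℕ → List ℕ := fun n => Nat.rec [] (fun _ a => F a) n
    have hs0 : ∀ i, ∀ k, NOD_Ch M (s i) k := by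
      intro i
      induction i with
      | zero => exact hroot
      | succ i ih => exact (hF _ ih).2.1
    exact NOD_branch M s fun i => ⟨(hF _ (hs0 i)).2.2.1, (hF _ (hs0 i)).2.2.2, (hF _ (hs0 i)).1⟩
  · right
    push Not at hcase
    obtain ⟨h, hlarge, hno⟩ := hcase
    set A : Set (List ℕ) := {m | m ∈ M ∧ h <+: m ∧ m ≠ h} with hA
    set E : Set (List ℕ) := {e | e ∈ A ∧ ∀ m ∈ A, m <+: e → m = e} with hE
    have hmin : ∀ n, ∀ m ∈ A, m.length = n → ∃ e ∈ E, e <+: m := by
      intro n
      induction n using Nat.strong_induction_on with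
      | _ n ih =>
        intro m hm hl
        by_cases hmm : ∀ m' ∈ A, m' <+: m → m' = m
        · exact ⟨m, ⟨hm, hmm⟩, List.prefix_refl _⟩
        · push Not at hmm
          obtain ⟨m', hm', h1, h2⟩ := hmm
          obtain ⟨e, he, h3⟩ := ih m'.length (hl ▸ NOD_lt h1 h2) m' hm' rfl
          exact ⟨e, he, h3.trans h1⟩
    set E' : Set (List ℕ) := {e | e ∈ E ∧ ∃ e' ∈ M, e <+: e' ∧ e ≠ e'} with hE'
    have hinf : E'.Infinite := by
      intro hfin
      have hbad : ∀ e ∈ E', ∃ k, ¬ NOD_Ch M e k := by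
        intro e he
        by_contra hcon
        push Not at hcon
        have heA := he.1.1
        exact (hno e heA.1 hcon) heA.2.1 |> fun h1 => heA.2.2 h1.symm
      choose! K hK using hbad
      obtain ⟨B, hB⟩ : ∃ B, ∀ e ∈ E', K e ≤ B := by
        obtain ⟨B, hB⟩ := (hfin.image K).bddAbove
        exact ⟨B, fun e he => hB (Set.mem_image_of_mem K he)⟩
      obtain ⟨c, hc1, hc2, hc3⟩ := hlarge (B + 2)
      have hc01 := hc2 0 (by omega)
      have hc12 := hc2 1 (by omega)
      have hA1 : c 1 ∈ A := by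
        refine ⟨hc1 1 (by omega), hc3.trans hc01.1, fun he => ?_⟩
        have h1 := NOD_lt hc01.1 hc01.2
        have h2 := hc3.length_le
        rw [zero_add, he] at h1
        omega
      obtain ⟨e, he, hec⟩ := hmin _ (c 1) hA1 rfl
      have heE' : e ∈ E' := by
        refine ⟨he, c 2, hc1 2 (by omega), hec.trans hc12.1, fun h1 => ?_⟩
        have h2 := NOD_lt hc12.1 hc12.2
        have h3 := hec.length_le
        rw [h1] at h3
        simp only [Nat.reduceAdd] at h2
        omega
      refine hK e heE' (NOD_Ch_mono (hB e heE') ⟨fun i => c (i + 1), fun i hi => hc1 _ (by omega),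
        fun i hi => hc2 _ (by omega), hec⟩)
    let g := hinf.natEmbedding
    have hg : ∀ k, ((g k : E') : List ℕ) ∈ E' := fun k => (g k).2
    choose e' he' using fun k => (hg k).2
    refine ⟨fun k => (g k : List ℕ), e', fun k => ⟨(hg k).1.1.1, (he' k).1, (he' k).2.1,
      (he' k).2.2⟩, ?_⟩
    intro k k' hkk hp
    have h1 := (hg k').1.2 _ (hg k).1.1 hp
    exact hkk (g.injective (Subtype.ext h1))

end Pool.LF
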