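import Pool.Agent.Work.MP_f36782_lf.Interface5
import Pool.Agent.Work.MP_f36782_lf.B_NOD

set_option autoImplicit false

/-! # Block NOL: chains of positions along which a length grows (compare B_NOD) -/

open MeasureTheory Pool.Agent.Work.RamseyAD

namespace Pool.LF

/-- there is a chain of `k + 1` elements of `M` above `h`, with growing `lam` -/
def NOL_Ch (M : Set (List ℕ)) (lam : List ℕ → ℕ) (h : List ℕ) (k : ℕ) : Prop :=
  ∃ c : ℕ → List ℕ, (∀ i, i ≤ k → c i ∈ M) ∧
    (∀ i, i < k → c i <+: c (i + 1) ∧ lam (c i) < lam (c (i + 1))) ∧ h <+: c 0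

theorem NOL_Ch_mono {M : Set (List ℕ)} {lam : List ℕ → ℕ} {h : List ℕ} {k k' : ℕ} (hk : k ≤ k')
    (hc : NOL_Ch M lam h k') : NOL_Ch M lam h k := by
  obtain ⟨c, h1, h2, h3⟩ := hc
  exact ⟨c, fun i hi => h1 i (hi.trans hk), fun i hi => h2 i (lt_of_lt_of_le hi hk), h3⟩

theorem NOL_branch (s : ℕ → List ℕ) (hs : ∀ i, s i <+: s (i + 1) ∧ s i ≠ s (i + 1)) :
    ∃ z : ℕ → ℕ, ∀ N, ∃ i, N ≤ i ∧ hist z i = s (N + 1) := by
  have hmono : ∀ i j, i ≤ j → s i <+: s j := by
    intro i j hij
    induction j, hij using Nat.le_induction with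
    | base => exact List.prefix_refl _
    | succ j _ ih => exact ih.trans (hs j).1
  have hlen : ∀ i, i ≤ (s i).length := by
    intro i
    induction i with
    | zero => omega
    | succ i ih =>
      have := NOD_lt (hs i).1 (hs i).2
      omega
  have hl1 : ∀ m, m < (s (m + 1)).length := fun m => lt_of_lt_of_le (Nat.lt_succ_self m) (hlen _)
  refine ⟨fun m => (s (m + 1))[m]'(hl1 m), fun N => ⟨(s (N + 1)).length, ?_, ?_⟩⟩
  · have := hlen (N + 1)
    omega
  · refine List.ext_getElem (NOD_hist_len _ _) fun m h1 h2 => ?_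
    rw [NOD_hist_get]
    rcases le_total (m + 1) (N + 1) with h | h
    · exact (hmono _ _ h).getElem (hl1 m)
    · exact ((hmono _ _ h).getElem h2).symm

theorem p_NOL : Stmt_NOL := by
  classical
  intro M lam hlam hM
  have hroot : ∀ k, NOL_Ch M lam [] k := by
    intro k
    obtain ⟨c, hc, hc'⟩ := hM k
    exact ⟨c, hc', hc, List.nil_prefix⟩
  by_cases hcase : ∀ h, (∀ k, NOL_Ch M lam h k) →
      ∃ h' ∈ M, (∀ k, NOL_Ch M lam h' k) ∧ h <+: h' ∧ lam h < lam h'
  · left
    choose! F hF using hcase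
    let s : ℕ → List ℕ := fun n => Nat.rec [] (fun _ a => F a) n
    have hs0 : ∀ i, ∀ k, NOL_Ch M lam (s i) k := by
      intro i
      induction i with
      | zero => exact hroot
      | succ i ih => exact (hF _ ih).2.1
    have hs1 : ∀ i, s i <+: s (i + 1) ∧ lam (s i) < lam (s (i + 1)) ∧ s (i + 1) ∈ M :=
      fun i => ⟨(hF _ (hs0 i)).2.2.1, (hF _ (hs0 i)).2.2.2, (hF _ (hs0 i)).1⟩
    have hs2 : ∀ i, i ≤ lam (s i) := by
      intro i
      induction i with
      | zero => omega
      | succ i ih =>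
        have := (hs1 i).2.1
        omega
    obtain ⟨z, hz⟩ := NOL_branch s fun i => ⟨(hs1 i).1, fun he => by
      have h1 := (hs1 i).2.1
      rw [← he] at h1
      exact lt_irrefl _ h1⟩
    refine ⟨z, fun K => ?_⟩
    obtain ⟨n, hn, he⟩ := hz K
    refine ⟨n, hn, ?_, ?_⟩
    · rw [he]
      exact (hs1 K).2.2
    · rw [he]
      have := hs2 (K + 1)
      omega
  · right
    push Not at hcase
    obtain ⟨h, hlarge, hno⟩ := hcase
    set A : Set (List ℕ) := {m | m ∈ M ∧ h <+: m ∧ lam h < lam m} with hA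
    set E : Set (List ℕ) := {e | e ∈ A ∧ ∀ m ∈ A, m <+: e → m = e} with hE
    have hmin : ∀ n, ∀ m ∈ A, m.length = n → ∃ e ∈ E, e <+: m := by
      intro n
      induction n using Nat.strong_induction_on with
      | _ n ih =>
        intro m hm hl
        by_cases hmm : ∀ m' ∈ A, m' <+: m → m' = m
        · exact ⟨m, ⟨hm, hmm⟩, List.prefix_refl _⟩
        · push Not at hmm
          obtain ⟨m', hm', h1, h2⟩ := hmm
          obtain ⟨e, he, h3⟩ := ih m'.length (hl ▸ NOD_lt h1 h2) m' hm' rfl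
          exact ⟨e, he, h3.trans h1⟩
    set E' : Set (List ℕ) := {e | e ∈ E ∧ ∃ e' ∈ M, e <+: e' ∧ e ≠ e'} with hE'
    have hinf : E'.Infinite := by
      intro hfin
      have hbad : ∀ e ∈ E', ∃ k, ¬ NOL_Ch M lam e k := by
        intro e he
        by_contra hcon
        push Not at hcon
        have heA := he.1.1
        exact absurd heA.2.2 (not_lt.2 (hno e heA.1 hcon heA.2.1))
      choose! K hK using hbad
      obtain ⟨B, hB⟩ : ∃ B, ∀ e ∈ E', K e ≤ B := by
        obtain ⟨B, hB⟩ := (hfin.image K).bddAbove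
        exact ⟨B, fun e he => hB (Set.mem_image_of_mem K he)⟩
      obtain ⟨c, hc1, hc2, hc3⟩ := hlarge (B + 2)
      have hc01 := hc2 0 (by omega)
      have hc12 := hc2 1 (by omega)
      have hA1 : c 1 ∈ A := by
        refine ⟨hc1 1 (by omega), hc3.trans hc01.1, ?_⟩
        exact lt_of_le_of_lt (hlam _ _ hc3) hc01.2
      obtain ⟨e, he, hec⟩ := hmin _ (c 1) hA1 rfl
      have heE' : e ∈ E' := by
        refine ⟨he, c 2, hc1 2 (by omega), hec.trans hc12.1, fun h1 => ?_⟩
        have h2 := lt_of_le_of_lt (hlam _ _ hec) hc12.2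
        rw [h1] at h2
        exact lt_irrefl _ h2
      refine hK e heE' (NOL_Ch_mono (hB e heE') ⟨fun i => c (i + 1), fun i hi => hc1 _ (by omega),
        fun i hi => hc2 _ (by omega), hec⟩)
    let g := hinf.natEmbedding
    have hg : ∀ k, ((g k : E') : List ℕ) ∈ E' := fun k => (g k).2
    choose e' he' using fun k => (hg k).2
    refine ⟨fun k => (g k : List ℕ), e', fun k => ⟨(hg k).1.1.1, (he' k).1, (he' k).2.1,
      (he' k).2.2⟩, ?_⟩
    intro k k' hkk hp
    have h1 := (hg k').1.2 _ (hg k).1.1 hp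
    exact hkk (g.injective (Subtype.ext h1))

end Pool.LF
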