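import Pool.Agent.Work.MP_f36782_lf.Interface5

set_option autoImplicit false

/-!
# Block RLB of MP_f36782_lf (helper90), after `B_RSB.lean`
-/

open MeasureTheory Pool.Agent.Work.RamseyAD

namespace Pool.LF

theorem p_RLB (hLVC : Stmt_LVC) : Stmt_RLB := by
  intro B hB α x hx z hK
  obtain ⟨-, N, hN⟩ := hx
  obtain ⟨K, hK⟩ := hK
  have key : ∀ k, ∃ n, k ≤ (α.fn (ini z n)).length ∧
      ∀ (j : ℕ) (b : Bool), N ≤ j → (α.fn (ini z n))[j]? = some b → x j = b := by
    intro k
    obtain ⟨c, hc, hg⟩ := hN (k + K)
    have hmono : ∀ i j, i ≤ j → j ≤ k + K →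
        (α.fn (c i)).length ≤ (α.fn (c j)).length := by
      intro i j hij
      induction j, hij using Nat.le_induction with
      | base => intro _; exact le_refl _
      | succ j hij ih =>
        intro hj
        exact (ih (by omega)).trans (hc j (by omega)).2.le
    have hstrict : ∀ i j, i < j → j ≤ k + K →
        (α.fn (c i)).length < (α.fn (c j)).length := by
      intro i j hij hj
      exact lt_of_lt_of_le (hc i (by omega)).2 (hmono (i + 1) j hij hj)
    have hge : ∀ i, i ≤ k + K → i ≤ (α.fn (c i)).length := by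
      intro i
      induction i with
      | zero => intro _; exact Nat.zero_le _
      | succ i ih =>
        intro hi
        have h1 := ih (by omega)
        have h2 := (hc i (by omega)).2
        omega
    have hm : ∀ i, i ≤ k + K → ∃ m ∈ B (c i), x m = true := fun i hi => (hg i hi).1
    choose! m hmB hmx using hm
    have hinj : Set.InjOn m (Finset.Icc k (k + K) : Finset ℕ) := by
      intro i hi j hj hij
      rw [Finset.coe_Icc, Set.mem_Icc] at hi hj
      have h1 := hmB i (by omega)
      have h2 := hmB j (by omega)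
      rw [← hij] at h2
      have h3 := hB.inj _ _ _ h1 h2
      have h4 : (α.fn (c i)).length = (α.fn (c j)).length := by rw [h3]
      rcases lt_trichotomy i j with h | h | h
      · exact absurd h4 (hstrict i j h (by omega)).ne
      · exact h
      · exact absurd h4.symm (hstrict j i h (by omega)).ne
    obtain ⟨i, hi, hiK⟩ : ∃ i ∈ Finset.Icc k (k + K), K ≤ m i := by
      by_contra hcon
      push Not at hcon
      have h1 : (Finset.Icc k (k + K)).card ≤ (Finset.range K).card :=
        Finset.card_le_card_of_injOn m (fun i hi => Finset.mem_coe.mpr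
          (Finset.mem_range.mpr (hcon i (Finset.mem_coe.mp hi)))) hinj
      rw [Nat.card_Icc, Finset.card_range] at h1
      omega
    rw [Finset.mem_Icc] at hi
    obtain ⟨i', hi'⟩ := hK (m i) hiK (hmx i (by omega))
    have h3 : c i = ini z i' := hB.inj _ _ _ (hmB i (by omega)) hi'
    refine ⟨i', ?_, ?_⟩
    · rw [← h3]
      exact hi.1.trans (hge i (by omega))
    · rw [← h3]
      exact (hg i (by omega)).2
  have hdom : α.dom z := fun k => by
    obtain ⟨n, hn, -⟩ := key k
    exact ⟨n, hn⟩
  refine ⟨N, fun j hj => ?_⟩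
  obtain ⟨n, hn, hnx⟩ := key (j + 1)
  have h1 : (α.fn (ini z n))[j]? = some ((α.fn (ini z n))[j]'(by omega)) :=
    List.getElem?_eq_getElem (by omega)
  have h2 := hnx j _ hj h1
  have h3 := (hLVC ℕ Bool Bool α (⟨fun l => l, fun _ _ h => h⟩ : LMap Bool Bool) z).1 n j _ h1
  have h4 : pt α z = α.val z := if_pos hdom
  rw [h4, h3, h2]

end Pool.LF
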