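import Pool.Agent.Work.MP_f36782_lf.Interface5

set_option autoImplicit false

/-! # Block RLC of MP_f36782_lf (helper71), after `B_RSC.lean` -/

open MeasureTheory Pool.Agent.Work.RamseyAD

namespace Pool.LF

theorem RLC_len (z : ℕ → ℕ) (n : ℕ) : (hist z n).length = n := by simp [hist]

/-- block RLC -/
theorem p_RLC (hNOL : Stmt_NOL) (hLVC : Stmt_LVC) : Stmt_RLC := by
  intro B hB α x hx
  obtain ⟨hxI, N, hN⟩ := hx
  obtain ⟨M, hM⟩ : ∃ M : Set (List ℕ), M = {l | Gd B α x N l} := ⟨_, rfl⟩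
  have hchain : ∀ k, ∃ c : ℕ → List ℕ,
      (∀ i, i < k → c i <+: c (i + 1) ∧ (α.fn (c i)).length < (α.fn (c (i + 1))).length) ∧
      ∀ i, i ≤ k → c i ∈ M := by
    intro k
    obtain ⟨c, h1, h2⟩ := hN k
    refine ⟨c, h1, fun i hi => ?_⟩
    rw [hM]
    exact h2 i hi
  rcases hNOL M (fun l => (α.fn l).length) (fun l l' h => (α.mono l l' h).length_le) hchain with h1 | h1
  · obtain ⟨z, hz⟩ := h1
    left
    have hdom : α.dom z := by
      intro k
      obtain ⟨n, -, -, h3⟩ := hz k
      exact ⟨n, h3⟩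
    have hpt : pt α z = α.val z := by
      unfold pt
      rw [if_pos hdom]
    have hI : {i | hist z i ∈ M}.Infinite := by
      refine Set.infinite_of_not_bddAbove fun h => ?_
      obtain ⟨b, hb⟩ := h
      obtain ⟨i, hi1, hi2, -⟩ := hz (b + 1)
      have := hb hi2
      omega
    refine ⟨z, ⟨N, fun j hj => ?_⟩, fun n => ?_⟩
    · obtain ⟨i, hi1, hi2, hi3⟩ := hz (j + 1)
      rw [hM] at hi2
      have hlt : j < (α.fn (hist z i)).length := by
        have : j + 1 ≤ (α.fn (hist z i)).length := hi3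
        omega
      have hget : (α.fn (hist z i))[j]? = some ((α.fn (hist z i))[j]) :=
        List.getElem?_eq_getElem hlt
      rw [hpt, hi2.2 j _ hj hget]
      exact ((hLVC ℕ Bool Bool α ⟨id, fun _ _ h => h⟩ z).1 i j _ hget).symm
    · have h2 : ∀ i : {i | hist z i ∈ M}, ∃ m, m ∈ B (hist z i) ∧ x m = true := by
        intro i
        have h3 : Gd B α x N (hist z i) := by
          have h4 : hist z i ∈ {l | Gd B α x N l} := by
            rw [← hM]
            exact i.2
          exact h4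
        obtain ⟨⟨m, hm1, hm2⟩, -⟩ := h3
        exact ⟨m, hm1, hm2⟩
      choose m hm1 hm2 using h2
      have hinj : Function.Injective m := by
        intro i i' h
        have h3 := hB.inj _ _ _ (hm1 i) (by rw [h]; exact hm1 i')
        have h4 := congrArg List.length h3
        rw [RLC_len, RLC_len] at h4
        exact Subtype.ext h4
      haveI : Infinite {i | hist z i ∈ M} := hI.to_subtype
      have h3 : (Set.range m).Infinite := Set.infinite_range_of_injective hinj
      obtain ⟨b, hb1, hb2⟩ := h3.exists_gt n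
      obtain ⟨i, rfl⟩ := hb1
      exact ⟨m i, hb2.le, hm2 i, ⟨i, hm1 i⟩⟩
  · obtain ⟨e, e', he, hee⟩ := h1
    right
    have h2 : ∀ k, ∃ a b, (a ∈ B (e k) ∧ x a = true) ∧ b ∈ B (e' k) ∧ x b = true := by
      intro k
      obtain ⟨h3, h4, -⟩ := he k
      rw [hM] at h3 h4
      obtain ⟨⟨a, ha1, ha2⟩, -⟩ := h3
      obtain ⟨⟨b, hb1, hb2⟩, -⟩ := h4
      exact ⟨a, b, ⟨ha1, ha2⟩, hb1, hb2⟩
    choose a b hab hb using h2
    refine ⟨a, b, fun k => ⟨(hab k).2, (hb k).2, fun h => ?_, ?_⟩, ?_⟩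
    · refine (he k).2.2.2 (hB.inj _ _ _ (hab k).1 ?_)
      rw [h]
      exact (hb k).1
    · exact ⟨e k, e' k, (hab k).1, (hb k).1, Or.inl (he k).2.2.1⟩
    · intro k k' hkk c c' hc hc'
      have h3 : ∃ l, c ∈ B l ∧ e k <+: l := by
        rcases hc with rfl | rfl
        · exact ⟨e k, (hab k).1, List.prefix_refl _⟩
        · exact ⟨e' k, (hb k).1, (he k).2.2.1⟩
      have h4 : ∃ l, c' ∈ B l ∧ e k' <+: l := by
        rcases hc' with rfl | rfl
        · exact ⟨e k', (hab k').1, List.prefix_refl _⟩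
        · exact ⟨e' k', (hb k').1, (he k').2.2.1⟩
      obtain ⟨l, hl1, hl2⟩ := h3
      obtain ⟨l', hl1', hl2'⟩ := h4
      have hcomp : ∀ r : List ℕ, e k <+: r → e k' <+: r → False := by
        intro r hr hr'
        rcases List.prefix_or_prefix_of_prefix hr hr' with h | h
        · exact hee k k' hkk h
        · exact hee k' k (Ne.symm hkk) h
      refine ⟨fun h => ?_, ?_⟩
      · have h5 : l = l' := hB.inj _ _ _ hl1 (by rw [h]; exact hl1')
        rw [← h5] at hl2'
        exact hcomp l hl2 hl2'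
      · rintro ⟨r, r', hr, hr', h⟩
        have h5 : r = l := hB.inj _ _ _ hr hl1
        have h6 : r' = l' := hB.inj _ _ _ hr' hl1'
        rw [h5, h6] at h
        rcases h with h | h
        · exact hcomp l' (hl2.trans h) hl2'
        · exact hcomp l hl2 (hl2'.trans h)

end Pool.LF
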