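import Pool.Agent.Work.MP_f36782_lf.Interface5

set_option autoImplicit false

/-!
# MP_f36782_lc, THEOREM LF, block RLM: the promised set is a Borel tail set
-/

open MeasureTheory Pool.Agent.Work.RamseyAD

namespace Pool.LF

/-- drop the members of a chain whose chosen elements are `< M` -/
theorem RLM_sel {B : List ℕ → Set ℕ} (hB : Blk B) (x : C) (lam : List ℕ → ℕ) (c : ℕ → List ℕ)
    (k M : ℕ) (hc : ∀ i, i < k + M → c i <+: c (i + 1) ∧ lam (c i) < lam (c (i + 1)))
    (hx : ∀ i, i ≤ k + M → ∃ m ∈ B (c i), x m = true) :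
    ∃ c' : ℕ → List ℕ, (∀ i, i < k → c' i <+: c' (i + 1) ∧ lam (c' i) < lam (c' (i + 1))) ∧
      ∀ i, i ≤ k → (∃ m ∈ B (c' i), M ≤ m ∧ x m = true) ∧ ∃ i', i' ≤ k + M ∧ c' i = c i' := by
  choose! m hm1 hm2 using hx
  have hmono : ∀ d i, i + d + 1 ≤ k + M → c i <+: c (i + d + 1) ∧ lam (c i) < lam (c (i + d + 1)) := by
    intro d
    induction d with
    | zero =>
      intro i hi
      exact hc i (by omega)
    | succ d ih =>
      intro i hi
      obtain ⟨h1, h2⟩ := ih i (by omega)
      obtain ⟨h3, h4⟩ := hc (i + d + 1) (by omega)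
      exact ⟨h1.trans h3, h2.trans h4⟩
  have hmono' : ∀ i j, i < j → j ≤ k + M → c i <+: c j ∧ lam (c i) < lam (c j) := by
    intro i j hij hj
    obtain ⟨d, rfl⟩ : ∃ d, j = i + d + 1 := ⟨j - i - 1, by omega⟩
    exact hmono d i hj
  have hinj : Set.InjOn m {i | i ≤ k + M} := by
    intro i hi j hj hij
    have h1 : c i = c j := by
      refine hB.inj _ _ (m i) (hm1 i hi) ?_
      rw [hij]
      exact hm1 j hj
    have h2 : lam (c i) = lam (c j) := by rw [h1]
    rcases lt_trichotomy i j with h | h | h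
    · have := (hmono' i j h hj).2
      omega
    · exact h
    · have := (hmono' j i h hi).2
      omega
  obtain ⟨S, hS⟩ : ∃ S, S = (Finset.range (k + M + 1)).filter fun i => M ≤ m i := ⟨_, rfl⟩
  have hcard : k + 1 ≤ S.card := by
    have h1 : ((Finset.range (k + M + 1)).filter fun i => ¬ M ≤ m i).card ≤ (Finset.range M).card := by
      refine Finset.card_le_card_of_injOn m ?_ ?_
      · intro i hi
        simp only [Finset.coe_filter, Finset.mem_range, Set.mem_ofPred_eq, not_le] at hi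
        simp only [Finset.coe_range, Set.mem_Iio]
        exact hi.2
      · refine hinj.mono ?_
        intro i hi
        simp only [Finset.coe_filter, Finset.mem_range, Set.mem_ofPred_eq, not_le] at hi
        show i ≤ k + M
        omega
    have h2 := Finset.card_filter_add_card_filter_not (s := Finset.range (k + M + 1))
      (fun i => M ≤ m i)
    rw [Finset.card_range] at h1 h2
    rw [hS]
    omega
  have hmem : ∀ i ∈ S, i ≤ k + M ∧ M ≤ m i := by
    intro i hi
    rw [hS, Finset.mem_filter, Finset.mem_range] at hi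
    exact ⟨by omega, hi.2⟩
  obtain ⟨e, he⟩ : ∃ e : ℕ → ℕ, e = fun i => if h : i < S.card then S.orderEmbOfFin rfl ⟨i, h⟩ else 0 :=
    ⟨_, rfl⟩
  have heS : ∀ i, i ≤ k → e i ∈ S := by
    intro i hi
    rw [he]
    simp only
    rw [dif_pos (by omega : i < S.card)]
    exact Finset.orderEmbOfFin_mem S rfl _
  have helt : ∀ i, i < k → e i < e (i + 1) := by
    intro i hi
    rw [he]
    simp only
    rw [dif_pos (by omega : i < S.card), dif_pos (by omega : i + 1 < S.card)]
    exact (S.orderEmbOfFin rfl).strictMono (Fin.mk_lt_mk.2 (Nat.lt_succ_self i))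
  refine ⟨fun i => c (e i), ?_, ?_⟩
  · intro i hi
    exact hmono' _ _ (helt i hi) (hmem _ (heS (i + 1) (by omega))).1
  · intro i hi
    obtain ⟨h1, h2⟩ := hmem _ (heS i hi)
    exact ⟨⟨m (e i), hm1 _ h1, h2, hm2 _ h1⟩, e i, h1, rfl⟩

theorem RLM_tail {B : List ℕ → Set ℕ} (hB : Blk B) (α : LMap ℕ Bool) {x y : C} {M : ℕ}
    (hxy : ∀ k, M ≤ k → x k = y k) (hx : x ∈ RsL B α) : y ∈ RsL B α := by
  obtain ⟨hI, N, hN⟩ := hx
  refine ⟨?_, max N M, ?_⟩
  · intro n
    obtain ⟨k, h1, h2⟩ := hI (max n M)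
    exact ⟨k, (le_max_left _ _).trans h1, (hxy k ((le_max_right _ _).trans h1)).symm.trans h2⟩
  · intro k
    obtain ⟨c, h1, h2⟩ := hN (k + M)
    obtain ⟨c', g1, g2⟩ := RLM_sel hB x (fun l => (α.fn l).length) c k M h1 (fun i hi => (h2 i hi).1)
    refine ⟨c', g1, fun i hi => ?_⟩
    obtain ⟨⟨m, hm1, hm2, hm3⟩, i', hi', hci⟩ := g2 i hi
    refine ⟨⟨m, hm1, (hxy m hm2).symm.trans hm3⟩, ?_⟩
    intro j b hj hjb
    rw [← hxy j ((le_max_right _ _).trans hj)]
    rw [hci] at hjb
    exact (h2 i' hi').2 j b ((le_max_left _ _).trans hj) hjb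

theorem RLM_coord (m : ℕ) (b : Bool) : IsOpen {x : C | x m = b} := by
  have h1 : Continuous fun x : C => x m := continuous_apply m
  exact (isOpen_discrete ({b} : Set Bool)).preimage h1

theorem RLM_gd (B : List ℕ → Set ℕ) (α : LMap ℕ Bool) (N : ℕ) (l : List ℕ) :
    IsOpen {x : C | Gd B α x N l} := by
  refine IsOpen.and ?_ ?_
  · have h2 : {x : C | ∃ m ∈ B l, x m = true} = ⋃ m ∈ B l, {x : C | x m = true} := by
      ext x
      simp only [Set.mem_ofPred_eq, Set.mem_iUnion, exists_prop]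
    rw [h2]
    exact isOpen_biUnion fun m _ => RLM_coord m true
  · have h1 : {x : C | ∀ (j : ℕ) (b : Bool), N ≤ j → (α.fn l)[j]? = some b → x j = b} =
        ⋂ j ∈ Set.Iio (α.fn l).length, {x : C | ∀ b : Bool, N ≤ j → (α.fn l)[j]? = some b → x j = b} := by
      ext x
      simp only [Set.mem_ofPred_eq, Set.mem_iInter, Set.mem_Iio]
      constructor
      · intro h j _ b hj hb
        exact h j b hj hb
      · intro h j b hj hb
        refine h j ?_ b hj hb
        by_contra hlt
        rw [List.getElem?_eq_none (not_lt.1 hlt)] at hb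
        cases hb
    rw [h1]
    refine (Set.finite_Iio _).isOpen_biInter fun j _ => ?_
    have h2 : Continuous fun x : C => x j := continuous_apply j
    exact (isOpen_discrete {a : Bool | ∀ b : Bool, N ≤ j → (α.fn l)[j]? = some b → a = b}).preimage h2

theorem RLM_open (B : List ℕ → Set ℕ) (α : LMap ℕ Bool) (N k : ℕ) :
    IsOpen {x : C | ∃ c : ℕ → List ℕ, (∀ i, i < k → c i <+: c (i + 1) ∧
      (α.fn (c i)).length < (α.fn (c (i + 1))).length) ∧ ∀ i, i ≤ k → Gd B α x N (c i)} := by
  simp only [Set.ofPred_exists]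
  refine isOpen_iUnion fun c => ?_
  refine IsOpen.and isOpen_const ?_
  have h1 : {x : C | ∀ i, i ≤ k → Gd B α x N (c i)} = ⋂ i ∈ Set.Iic k, {x : C | Gd B α x N (c i)} := by
    ext x
    simp only [Set.mem_ofPred_eq, Set.mem_iInter, Set.mem_Iic]
  rw [h1]
  exact (Set.finite_Iic k).isOpen_biInter fun i _ => RLM_gd B α N (c i)

theorem p_RLM : Stmt_RLM := by
  intro B hB α
  refine ⟨?_, ?_⟩
  · have h1 : RsL B α = {x : C | Inf x} ∩ ⋃ N, ⋂ k, {x : C | ∃ c : ℕ → List ℕ,
        (∀ i, i < k → c i <+: c (i + 1) ∧ (α.fn (c i)).length < (α.fn (c (i + 1))).length) ∧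
          ∀ i, i ≤ k → Gd B α x N (c i)} := by
      ext x
      simp only [RsL, Set.mem_ofPred_eq, Set.mem_inter_iff, Set.mem_iUnion, Set.mem_iInter]
    have h2 : {x : C | Inf x} = ⋂ n : ℕ, ⋃ k ∈ Set.Ici n, {x : C | x k = true} := by
      ext x
      simp only [Inf, Set.mem_ofPred_eq, Set.mem_iUnion, Set.mem_iInter, Set.mem_Ici, exists_prop]
    rw [h1, h2]
    refine MeasurableSet.inter (MeasurableSet.iInter fun n => ?_)
      (MeasurableSet.iUnion fun N => MeasurableSet.iInter fun k => (RLM_open B α N k).measurableSet)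
    exact (isOpen_biUnion fun m _ => RLM_coord m true).measurableSet
  · rintro x y ⟨M, hM⟩
    exact ⟨fun h => RLM_tail hB α hM h, fun h => RLM_tail hB α (fun k hk => (hM k hk).symm) h⟩

end Pool.LF
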