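import Pool.Agent.Work.MP_f36782_lf.Interface5

set_option autoImplicit false

/-! # Block RLR of MP_f36782_lf (helper71), after `B_RSR.lean` -/

open MeasureTheory Pool.Agent.Work.RamseyAD

namespace Pool.LF

theorem RLR_inf {B : List ℕ → Set ℕ} (hB : Blk B) {x : C} {z : ℕ → ℕ} (h : Hit x (Br B z))
    (N : ℕ) : ∃ i, N ≤ i ∧ ∃ m ∈ B (hist z i), x m = true := by
  have hfin : (⋃ i ∈ Finset.range N, B (hist z i)).Finite :=
    Set.Finite.biUnion (Finset.finite_toSet _) (fun i _ => hB.fin _)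
  obtain ⟨M, hM⟩ := hfin.bddAbove
  obtain ⟨m, hm, hx, i, hi⟩ := h (M + 1)
  refine ⟨i, ?_, m, hi, hx⟩
  by_contra hlt
  have h1 : m ∈ ⋃ i ∈ Finset.range N, B (hist z i) :=
    Set.mem_biUnion (Finset.mem_coe.2 (Finset.mem_range.2 (by omega))) hi
  have h2 := hM h1
  omega

theorem RLR_ini (z : ℕ → ℕ) {a b : ℕ} (h : a ≤ b) : ini z a <+: ini z b := by
  unfold ini
  refine List.IsPrefix.map z ?_
  rw [List.prefix_iff_eq_take]
  rw [List.length_range, List.take_range, min_eq_left h]

theorem p_RLR (hLVC : Stmt_LVC) : Stmt_RLR := by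
  intro B hB α z h
  have hdom : α.dom z := by
    by_contra hd
    obtain ⟨m, -, h2, -⟩ := h 0
    unfold pt at h2
    rw [if_neg hd] at h2
    exact absurd h2 (by simp)
  have hpt : pt α z = α.val z := by
    unfold pt
    rw [if_pos hdom]
  refine ⟨fun n => ?_, 0, fun k => ?_⟩
  · obtain ⟨m, h1, h2, -⟩ := h n
    exact ⟨m, h1, h2⟩
  · have hlen : ∀ a b, a ≤ b → (α.fn (ini z a)).length ≤ (α.fn (ini z b)).length :=
      fun a b hab => (α.mono _ _ (RLR_ini z hab)).length_le
    have hstep : ∀ a : ℕ, ∃ b, a < b ∧ (α.fn (ini z a)).length < (α.fn (ini z b)).length ∧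
        ∃ m ∈ B (hist z b), pt α z m = true := by
      intro a
      obtain ⟨n₀, hn₀⟩ := hdom ((α.fn (ini z a)).length + 1)
      obtain ⟨b, hb, hm⟩ := RLR_inf hB h (max n₀ (a + 1))
      have h1 : n₀ ≤ b := (le_max_left _ _).trans hb
      have h2 : a + 1 ≤ b := (le_max_right _ _).trans hb
      have h3 := hlen n₀ b h1
      exact ⟨b, by omega, by omega, hm⟩
    choose g hg1 hg2 hg3 using hstep
    let n : ℕ → ℕ := fun i => Nat.rec (g 0) (fun _ m => g m) i
    have hn : ∀ i, n (i + 1) = g (n i) := fun i => rfl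
    have hval : ∀ i, ∃ m ∈ B (hist z (n i)), pt α z m = true := by
      intro i
      cases i with
      | zero => exact hg3 0
      | succ i =>
        rw [hn]
        exact hg3 _
    refine ⟨fun i => ini z (n i), ?_, ?_⟩
    · intro i _
      refine ⟨RLR_ini z ?_, ?_⟩
      · rw [hn]; exact (hg1 _).le
      · show (α.fn (ini z (n i))).length < (α.fn (ini z (n (i + 1)))).length
        rw [hn]; exact hg2 _
    · intro i _
      refine ⟨hval i, fun j b _ hj => ?_⟩
      rw [hpt]
      exact (hLVC ℕ Bool Bool α ⟨id, fun _ _ h => h⟩ z).1 _ _ _ hj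

end Pool.LF
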