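import Pool.Agent.Work.MP_f36782_lf.Interface5

set_option autoImplicit false

/-!
# MP_f36782_lc, THEOREM LF, block RLX: the promised sets are not in `MA`, `MB`
-/

open MeasureTheory Pool.Agent.Work.RamseyAD

namespace Pool.LF

theorem RLX_pre (u : ℕ → ℕ) {a b : ℕ} (h : a ≤ b) : hist u a <+: hist u b := by
  obtain ⟨c, rfl⟩ := Nat.exists_eq_add_of_le h
  unfold hist
  rw [List.range_add, List.map_append]
  exact List.prefix_append _ _

theorem RLX_mono {c : ℕ → List ℕ} {lam : List ℕ → ℕ} {k : ℕ}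
    (h : ∀ i, i < k → c i <+: c (i + 1) ∧ lam (c i) < lam (c (i + 1))) (i d : ℕ)
    (hd : i + d + 1 ≤ k) : c i <+: c (i + d + 1) ∧ lam (c i) < lam (c (i + d + 1)) := by
  induction d with
  | zero => exact h i (by omega)
  | succ d ih =>
    have h1 := ih (by omega)
    have h2 := h (i + d + 1) (by omega)
    have h3 : i + (d + 1) + 1 = i + d + 1 + 1 := by ring
    rw [h3]
    exact ⟨h1.1.trans h2.1, h1.2.trans h2.2⟩

/-- A promised set has three pairwise adjacent elements beyond every `N`. -/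
theorem RLX_uq {B : List ℕ → Set ℕ} (hB : Blk B) {α : LMap ℕ Bool} {x : C} (hx : x ∈ RsL B α)
    (N : ℕ) : ¬ Uq B x N := by
  intro hU
  obtain ⟨-, N₀, h⟩ := hx
  obtain ⟨c, h1, h2⟩ := h (N + 2)
  have h2' : ∀ i, i ≤ N + 2 → ∃ m ∈ B (c i), x m = true := fun i hi => (h2 i hi).1
  choose! m hm1 hm2 using h2'
  have hlt : ∀ i j, i < j → j ≤ N + 2 → c i <+: c j ∧ (α.fn (c i)).length < (α.fn (c j)).length := by
    intro i j hij hj
    obtain ⟨d, rfl⟩ := Nat.exists_eq_add_of_lt hij
    exact RLX_mono (lam := fun l => (α.fn l).length) h1 i d hj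
  have hne : ∀ i j, i ≤ N + 2 → j ≤ N + 2 → i ≠ j → m i ≠ m j := by
    intro i j hi hj hij hm
    have h3 : c i = c j := by
      refine hB.inj _ _ (m i) (hm1 i hi) ?_
      rw [hm]
      exact hm1 j hj
    rcases lt_or_gt_of_ne hij with h5 | h5
    · have := (hlt i j h5 hj).2
      rw [h3] at this
      exact lt_irrefl _ this
    · have := (hlt j i h5 hi).2
      rw [h3] at this
      exact lt_irrefl _ this
  have hadj : ∀ i j, i ≤ N + 2 → j ≤ N + 2 → Adj B (m i) (m j) := by
    intro i j hi hj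
    refine ⟨c i, c j, hm1 i hi, hm1 j hj, ?_⟩
    rcases lt_trichotomy i j with h5 | h5 | h5
    · left
      exact (hlt i j h5 hj).1
    · left
      rw [h5]
    · right
      exact (hlt j i h5 hi).1
  have hcard1 : ((Finset.range (N + 3)).filter (fun i => ¬ N ≤ m i)).card ≤ N := by
    have h3 : (((Finset.range (N + 3)).filter (fun i => ¬ N ≤ m i)).image m) ⊆
        Finset.range N := by
      intro t ht
      obtain ⟨i, hi, rfl⟩ := Finset.mem_image.1 ht
      exact Finset.mem_range.2 (not_le.1 (Finset.mem_filter.1 hi).2)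
    have h4 := Finset.card_le_card h3
    rw [Finset.card_range, Finset.card_image_of_injOn] at h4
    · exact h4
    · intro i hi j hj hij
      have hi' := Finset.mem_range.1 (Finset.mem_filter.1 (Finset.mem_coe.1 hi)).1
      have hj' := Finset.mem_range.1 (Finset.mem_filter.1 (Finset.mem_coe.1 hj)).1
      by_contra hne'
      exact hne i j (by omega) (by omega) hne' hij
  have hcard2 := Finset.card_filter_add_card_filter_not (s := Finset.range (N + 3))
    (fun i => N ≤ m i)
  rw [Finset.card_range] at hcard2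
  have hcard3 : 2 < ((Finset.range (N + 3)).filter (fun i => N ≤ m i)).card := by omega
  obtain ⟨a, ha, b, hb, c', hc, hab, hac, hbc⟩ := Finset.two_lt_card.1 hcard3
  rw [Finset.mem_filter, Finset.mem_range] at ha hb hc
  have ha' : a ≤ N + 2 := by omega
  have hb' : b ≤ N + 2 := by omega
  have hc' : c' ≤ N + 2 := by omega
  exact hne b c' hb' hc' hbc (hU (m a) (m b) (m c') ha.2 hb.2 hc.2 (hm2 a ha') (hm2 b hb')
    (hm2 c' hc') (hne b a hb' ha' hab.symm) (hne c' a hc' ha' hac.symm) (hadj a b ha' hb')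
    (hadj a c' ha' hc'))

/-- An infinite set almost contained in a branch has three pairwise adjacent elements beyond every
`N`. -/
theorem RLX_kb {B : List ℕ → Set ℕ} {x : C} (hx : x ∈ KB B) (N : ℕ) : ¬ Uq B x N := by
  intro hU
  obtain ⟨hinf, z, K, hK⟩ := hx
  have hadj : ∀ a b, K ≤ a → K ≤ b → x a = true → x b = true → Adj B a b := by
    intro a b ha hb hxa hxb
    obtain ⟨i, hi⟩ := hK a ha hxa
    obtain ⟨j, hj⟩ := hK b hb hxb
    refine ⟨hist z i, hist z j, hi, hj, ?_⟩
    rcases le_total i j with h | h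
    · exact Or.inl (RLX_pre z h)
    · exact Or.inr (RLX_pre z h)
  obtain ⟨a, ha, hxa⟩ := hinf (max N K)
  obtain ⟨b, hb, hxb⟩ := hinf (a + 1)
  obtain ⟨c, hc, hxc⟩ := hinf (b + 1)
  have h1 := le_max_left N K
  have h2 := le_max_right N K
  have h3 := hU a b c (by omega) (by omega) (by omega) hxa hxb hxc (by omega) (by omega)
    (hadj a b (by omega) (by omega) hxa hxb) (hadj a c (by omega) (by omega) hxa hxc)
  omega

theorem p_RLX : Stmt_RLX := by
  intro B hB x hx
  have key : ∀ N, ¬ Uq B x N := by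
    intro N
    rcases hx with hx | ⟨α, hx⟩
    · exact RLX_kb hx N
    · exact RLX_uq hB hx N
  refine ⟨?_, ?_⟩
  · rintro ⟨-, N, hU, -⟩
    exact key N hU
  · rintro ⟨N, hU, -⟩
    exact key N hU

end Pool.LF
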