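import Pool.Agent.Work.MP_f36782_lf.Interface

set_option autoImplicit false

/-! # Block SIM: simulation of a game -/

open MeasureTheory Pool.Agent.Work.RamseyAD

namespace Pool.LF

/-- the code of a list -/
def SIM_cd (l : List ℕ) : ℕ := Encodable.encode l.reverse

/-- the list with a given code -/
def SIM_dc (m : ℕ) : List ℕ := ((Encodable.decode (α := List ℕ) m).getD []).reverse

lemma SIM_dc_cd (l : List ℕ) : SIM_dc (SIM_cd l) = l := by
  simp [SIM_dc, SIM_cd]

lemma SIM_cd_inj {l l' : List ℕ} (h : SIM_cd l = SIM_cd l') : l = l' := by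
  rw [← SIM_dc_cd l, h, SIM_dc_cd]

lemma SIM_cd_append (l : List ℕ) (a : ℕ) : SIM_cd l < SIM_cd (l ++ [a]) := by
  unfold SIM_cd
  rw [List.reverse_append, List.reverse_singleton, List.singleton_append,
    Encodable.encode_list_cons]
  have := Nat.right_le_pair (Encodable.encode a) (Encodable.encode l.reverse)
  omega

lemma SIM_cd_strictMono (z : ℕ → ℕ) : StrictMono fun i => SIM_cd (hist z (i + 1)) :=
  strictMono_nat_of_lt_succ fun i => by
    rw [hist_succ z (i + 1)]
    exact SIM_cd_append _ _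

/-- the total length of a position -/
def SIM_L (l : List ℕ) : ℕ := (l.map fun a => (Nat.unpair a).2).sum

lemma SIM_L_append (l : List ℕ) (a : ℕ) : SIM_L (l ++ [a]) = SIM_L l + (Nat.unpair a).2 := by
  simp [SIM_L]

lemma SIM_len (z : ℕ → ℕ) (i : ℕ) : len z i = SIM_L (hist z i) := by
  induction i with
  | zero => simp [len, SIM_L, hist]
  | succ i ih => rw [hist_succ, SIM_L_append, ← ih, len, Finset.sum_range_succ, ← len]

/-- the next move of the simulated run -/
def SIM_nx (p : ℕ) (T : List ℕ → ℕ) (i a b : ℕ) (l : List ℕ) : ℕ :=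
  if i % 2 = p then T l else Nat.pair a (b - SIM_L l)

/-- the simulated position -/
def SIM_sm (p : ℕ) (T : List ℕ → ℕ) (z n : ℕ → ℕ) : ℕ → List ℕ
  | 0 => []
  | i + 1 => SIM_sm p T z n i ++ [SIM_nx p T i (z i) (n i) (SIM_sm p T z n i)]

lemma SIM_sm_succ (p : ℕ) (T : List ℕ → ℕ) (z n : ℕ → ℕ) (i : ℕ) : SIM_sm p T z n (i + 1) =
    SIM_sm p T z n i ++ [SIM_nx p T i (z i) (n i) (SIM_sm p T z n i)] := rfl

lemma SIM_sm_congr (p : ℕ) (T : List ℕ → ℕ) {z n z' n' : ℕ → ℕ} (i : ℕ)
    (h : ∀ j, j < i → z j = z' j ∧ n j = n' j) : SIM_sm p T z n i = SIM_sm p T z' n' i := by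
  induction i with
  | zero => rfl
  | succ i ih =>
    have h1 := ih fun j hj => h j (by omega)
    obtain ⟨h2, h3⟩ := h i (by omega)
    rw [SIM_sm_succ, SIM_sm_succ, h1, h2, h3]

/-- the prescribed lengths -/
def SIM_n (g : ℕ → ℕ) (z : ℕ → ℕ) (i : ℕ) : ℕ := g (SIM_cd (hist z (i + 1)))

/-- the simulated run -/
def SIM_Phi (p : ℕ) (T : List ℕ → ℕ) (g : ℕ → ℕ) (z : ℕ → ℕ) (i : ℕ) : ℕ :=
  SIM_nx p T i (z i) (SIM_n g z i) (SIM_sm p T z (SIM_n g z) i)

lemma SIM_hist_Phi (p : ℕ) (T : List ℕ → ℕ) (g : ℕ → ℕ) (z : ℕ → ℕ) (i : ℕ) :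
    hist (SIM_Phi p T g z) i = SIM_sm p T z (SIM_n g z) i := by
  induction i with
  | zero => simp [hist, SIM_sm]
  | succ i ih => rw [hist_succ, SIM_sm_succ, ih, SIM_Phi]

/-- the strategy -/
def SIM_s (p : ℕ) (T : List ℕ → ℕ) (g : ℕ → ℕ) (l : List ℕ) : ℕ :=
  (Nat.unpair (T (SIM_sm p T (fun j => l.getD j 0) (fun j => g (SIM_cd (l.take (j + 1))))
    l.length))).1

lemma SIM_take (z : ℕ → ℕ) {i j : ℕ} (h : j ≤ i) : (hist z i).take j = hist z j := by
  simp only [hist]
  rw [← List.map_take, List.take_range, min_eq_left h]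

lemma SIM_s_hist (p : ℕ) (T : List ℕ → ℕ) (g : ℕ → ℕ) (z : ℕ → ℕ) (i : ℕ) :
    SIM_s p T g (hist z i) = (Nat.unpair (T (SIM_sm p T z (SIM_n g z) i))).1 := by
  unfold SIM_s
  rw [hist_length]
  congr 3
  refine SIM_sm_congr p T i fun j hj => ⟨hist_getD z hj, ?_⟩
  rw [SIM_take z (by omega : j + 1 ≤ i)]
  rfl

/-- the bound -/
def SIM_F (p : ℕ) (T : List ℕ → ℕ) (l w : List ℕ) : ℕ :=
  SIM_L (SIM_sm p T (fun j => l.getD j 0) (fun j => w.getD j 0) w.length) +
    (Nat.unpair (T (SIM_sm p T (fun j => l.getD j 0) (fun j => w.getD j 0) w.length))).2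

lemma SIM_F_hist (p : ℕ) (T : List ℕ → ℕ) (z n : ℕ → ℕ) (i : ℕ) :
    SIM_F p T (hist z i) (hist n i) =
      SIM_L (SIM_sm p T z n i) + (Nat.unpair (T (SIM_sm p T z n i))).2 := by
  unfold SIM_F
  rw [hist_length, SIM_sm_congr p T (z' := z) (n' := n) i fun j hj =>
    ⟨hist_getD z hj, hist_getD n hj⟩]

/-- the function to be dominated -/
def SIM_rho (p : ℕ) (T : List ℕ → ℕ) (w : List ℕ) : ℕ :=
  (Finset.range (w.sum + 1)).sup fun m => SIM_F p T (SIM_dc m) w

lemma SIM_le_rho (p : ℕ) (T : List ℕ → ℕ) (l w : List ℕ) (h : SIM_cd l ≤ w.sum) :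
    SIM_F p T l w ≤ SIM_rho p T w := by
  have h1 := Finset.le_sup (f := fun m => SIM_F p T (SIM_dc m) w)
    (Finset.mem_range.2 (Nat.lt_succ_of_le h))
  simp only [SIM_dc_cd] at h1
  exact h1

/-- the domination -/
lemma SIM_key (p : ℕ) (T : List ℕ → ℕ) (g : ℕ → ℕ) (hg : StrictMono g)
    (hfast : ∀ k : ℕ → ℕ, StrictMono k → ∀ i, SIM_rho p T (hist (fun j => g (k j)) i) < g (k i))
    (z : ℕ → ℕ) (i : ℕ) (k' : ℕ → ℕ) (hk' : StrictMono k')
    (hk : ∀ j, j < i → k' j = SIM_cd (hist z (j + 1))) :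
    SIM_L (SIM_sm p T z (SIM_n g z) i) +
      (Nat.unpair (T (SIM_sm p T z (SIM_n g z) i))).2 < g (k' i) := by
  have h1 : hist (fun j => g (k' j)) i = hist (SIM_n g z) i := by
    simp only [hist]
    refine List.map_congr_left fun j hj => ?_
    rw [hk j (List.mem_range.1 hj), SIM_n]
  have h2 := hfast k' hk' i
  rw [h1] at h2
  refine lt_of_le_of_lt ?_ h2
  rw [← SIM_F_hist]
  apply SIM_le_rho
  rcases i with _ | i
  · simp [hist, SIM_cd]
  · rw [hist_succ (SIM_n g z), List.sum_append, List.sum_singleton]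
    have h3 : SIM_cd (hist z (i + 1)) ≤ SIM_n g z i := hg.id_le _
    omega

theorem p_SIM : Stmt_SIM := by
  intro p T hp
  obtain ⟨g, hg, hfast⟩ := fast (SIM_rho p T)
  have key := SIM_key p T g hg hfast
  have hL : ∀ z i, SIM_L (SIM_sm p T z (SIM_n g z) i) < SIM_n g z i := by
    intro z i
    have h1 := key z i (fun i => SIM_cd (hist z (i + 1))) (SIM_cd_strictMono z) fun j _ => rfl
    have h2 : SIM_n g z i = g (SIM_cd (hist z (i + 1))) := rfl
    omega
  have hlen : ∀ z i, len (SIM_Phi p T g z) i = SIM_L (SIM_sm p T z (SIM_n g z) i) := by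
    intro z i
    rw [SIM_len, SIM_hist_Phi]
  have hlen2 : ∀ z i, i % 2 ≠ p → len (SIM_Phi p T g z) (i + 1) = SIM_n g z i := by
    intro z i hi
    rw [hlen, SIM_sm_succ, SIM_L_append, SIM_nx, if_neg hi, Nat.unpair_pair]
    have := hL z i
    dsimp only
    omega
  have hlen3 : ∀ z i, i % 2 = p → 1 ≤ i →
      g (SIM_cd (hist z i)) = len (SIM_Phi p T g z) i ∧
      len (SIM_Phi p T g z) (i + 1) < g (SIM_cd (hist z i) + 1) := by
    intro z i hi h1
    obtain ⟨i, rfl⟩ := Nat.exists_eq_add_of_le' h1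
    constructor
    · rw [hlen2 z i (by omega)]
      rfl
    · rw [hlen, SIM_sm_succ, SIM_L_append, SIM_nx, if_pos hi]
      have hk' : StrictMono fun j => if j < i + 1 then SIM_cd (hist z (j + 1)) else
          SIM_cd (hist z (i + 1)) + (j - i) := by
        refine strictMono_nat_of_lt_succ fun j => ?_
        by_cases hj : j + 1 < i + 1
        · rw [if_pos hj, if_pos (by omega)]
          exact SIM_cd_strictMono z (Nat.lt_succ_self j)
        · rw [if_neg hj]
          by_cases hj' : j < i + 1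
          · rw [if_pos hj']
            have : j = i := by omega
            subst this
            omega
          · rw [if_neg hj']
            omega
      have h2 := key z (i + 1) _ hk' fun j hj => if_pos hj
      rw [if_neg (by omega), Nat.add_sub_cancel_left] at h2
      exact h2
  refine ⟨SIM_s p T g, SIM_Phi p T g, ?_, ?_, ?_⟩
  · -- continuity
    refine continuous_pi fun i => ?_
    have hcongr : ∀ z z' : ℕ → ℕ, (∀ j, j < i + 1 → z j = z' j) →
        SIM_Phi p T g z i = SIM_Phi p T g z' i := by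
      intro z z' h
      have hh : ∀ j, j ≤ i + 1 → hist z j = hist z' j := by
        intro j hj
        simp only [hist]
        refine List.map_congr_left fun a ha => h a ?_
        have := List.mem_range.1 ha
        omega
      have hn : ∀ j, j < i + 1 → SIM_n g z j = SIM_n g z' j := by
        intro j hj
        rw [SIM_n, SIM_n, hh (j + 1) (by omega)]
      rw [SIM_Phi, SIM_Phi, h i (by omega), hn i (by omega),
        SIM_sm_congr p T (z' := z') (n' := SIM_n g z') i fun j hj =>
          ⟨h j (by omega), hn j (by omega)⟩]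
    let ext : (Fin (i + 1) → ℕ) → (ℕ → ℕ) := fun x j =>
      if h : j < i + 1 then x ⟨j, h⟩ else 0
    have hfac : (fun z : ℕ → ℕ => SIM_Phi p T g z i) =
        (fun x : Fin (i + 1) → ℕ => SIM_Phi p T g (ext x) i) ∘
          (fun (z : ℕ → ℕ) (j : Fin (i + 1)) => z j) := by
      funext z
      refine hcongr _ _ fun j hj => ?_
      simp only [ext, dif_pos hj]
    rw [hfac]
    exact (continuous_of_discreteTopology (α := Fin (i + 1) → ℕ)).comp
      (continuous_pi fun j => continuous_apply _)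
  · intro z hz
    refine ⟨fun i hi => ?_, ?_, fun N => ?_⟩
    · rw [SIM_hist_Phi, SIM_Phi, SIM_nx, if_pos hi]
    · funext i
      show (Nat.unpair (SIM_Phi p T g z i)).1 = z i
      rw [SIM_Phi, SIM_nx]
      by_cases hi : i % 2 = p
      · rw [if_pos hi, ← SIM_s_hist]
        exact (hz i hi).symm
      · rw [if_neg hi, Nat.unpair_pair]
    · refine ⟨2 * N + 1 - p + 1, ?_⟩
      rw [hlen2 z _ (by omega)]
      have h1 : SIM_cd (hist z (2 * N + 1 - p + 1)) ≤ SIM_n g z (2 * N + 1 - p) := hg.id_le _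
      have h2 : 2 * N + 1 - p ≤ SIM_cd (hist z (2 * N + 1 - p + 1)) :=
        (SIM_cd_strictMono z).id_le _
      omega
  · intro z z' _ _ hne
    obtain ⟨a, ha⟩ : ∃ a, z a ≠ z' a := by
      by_contra hcon
      push Not at hcon
      exact hne (funext hcon)
    have hmono : ∀ w : ℕ → ℕ, Monotone (len w) := fun w =>
      monotone_nat_of_le_succ fun i => by
        unfold len
        rw [Finset.sum_range_succ]
        omega
    refine Set.Finite.subset (Set.finite_Iio
      (max (len (SIM_Phi p T g z) (a + 2)) (len (SIM_Phi p T g z') (a + 2)))) ?_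
    rintro m ⟨⟨i, hi, h1, h2⟩, ⟨i', hi', h1', h2'⟩⟩
    rw [Set.mem_Iio]
    by_contra hcon
    rw [not_lt, max_le_iff] at hcon
    have hia : a + 2 ≤ i := by
      by_contra hc
      have := hmono (SIM_Phi p T g z) (by omega : i + 1 ≤ a + 2)
      omega
    have hia' : a + 2 ≤ i' := by
      by_contra hc
      have := hmono (SIM_Phi p T g z') (by omega : i' + 1 ≤ a + 2)
      omega
    obtain ⟨e1, e2⟩ := hlen3 z i hi (by omega)
    obtain ⟨e1', e2'⟩ := hlen3 z' i' hi' (by omega)
    have hcode : SIM_cd (hist z i) = SIM_cd (hist z' i') := by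
      rcases lt_trichotomy (SIM_cd (hist z i)) (SIM_cd (hist z' i')) with h | h | h
      · have := hg.monotone (Nat.succ_le_of_lt h)
        simp only [Nat.succ_eq_add_one] at this
        omega
      · exact h
      · have := hg.monotone (Nat.succ_le_of_lt h)
        simp only [Nat.succ_eq_add_one] at this
        omega
    have hh := SIM_cd_inj hcode
    have hii : i = i' := by
      have := congrArg List.length hh
      rwa [hist_length, hist_length] at this
    subst hii
    apply ha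
    rw [← hist_getD z (by omega : a < i), hh, hist_getD z' (by omega : a < i)]

end Pool.LF
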