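import Pool.Agent.Work.MP_f36782_lf.Interface2
import Pool.Agent.Work.MP_f36782_lf.B_SIM

set_option autoImplicit false

/-! # Block SIB: simulation of a game, with blocks -/

open MeasureTheory Pool.Agent.Work.RamseyAD

namespace Pool.LF

/-- the block of a position -/
def SIB_B (g : ℕ → ℕ) (l : List ℕ) : Set ℕ := Set.Ico (g (SIM_cd l)) (g (SIM_cd l + 1))

lemma SIB_blk {g : ℕ → ℕ} (hg : StrictMono g) : Blk (SIB_B g) := by
  refine ⟨fun l => Set.finite_Ico _ _, fun l l' m h h' => ?_⟩
  obtain ⟨h1, h2⟩ := h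
  obtain ⟨h1', h2'⟩ := h'
  apply SIM_cd_inj
  rcases lt_trichotomy (SIM_cd l) (SIM_cd l') with h | h | h
  · have := hg.monotone (Nat.succ_le_of_lt h)
    simp only [Nat.succ_eq_add_one] at this
    omega
  · exact h
  · have := hg.monotone (Nat.succ_le_of_lt h)
    simp only [Nat.succ_eq_add_one] at this
    omega

theorem p_SIB : Stmt_SIB := by
  intro p T hp
  obtain ⟨g, hg, hfast⟩ := fast (SIM_rho p T)
  have key := SIM_key p T g hg hfast
  have hL : ∀ z i, SIM_L (SIM_sm p T z (SIM_n g z) i) < SIM_n g z i := by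
    intro z i
    have h1 := key z i (fun i => SIM_cd (hist z (i + 1))) (SIM_cd_strictMono z) fun j _ => rfl
    have h2 : SIM_n g z i = g (SIM_cd (hist z (i + 1))) := rfl
    omega
  have hlen : ∀ z i, len (SIM_Phi p T g z) i = SIM_L (SIM_sm p T z (SIM_n g z) i) := by
    intro z i
    rw [SIM_len, SIM_hist_Phi]
  have hlen2 : ∀ z i, i % 2 ≠ p → len (SIM_Phi p T g z) (i + 1) = SIM_n g z i := by
    intro z i hi
    rw [hlen, SIM_sm_succ, SIM_L_append, SIM_nx, if_neg hi, Nat.unpair_pair]
    have := hL z i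
    dsimp only
    omega
  have hlen3 : ∀ z i, i % 2 = p → 1 ≤ i →
      g (SIM_cd (hist z i)) = len (SIM_Phi p T g z) i ∧
      len (SIM_Phi p T g z) (i + 1) < g (SIM_cd (hist z i) + 1) := by
    intro z i hi h1
    obtain ⟨i, rfl⟩ := Nat.exists_eq_add_of_le' h1
    constructor
    · rw [hlen2 z i (by omega)]
      rfl
    · rw [hlen, SIM_sm_succ, SIM_L_append, SIM_nx, if_pos hi]
      have hk' : StrictMono fun j => if j < i + 1 then SIM_cd (hist z (j + 1)) else
          SIM_cd (hist z (i + 1)) + (j - i) := by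
        refine strictMono_nat_of_lt_succ fun j => ?_
        by_cases hj : j + 1 < i + 1
        · rw [if_pos hj, if_pos (by omega)]
          exact SIM_cd_strictMono z (Nat.lt_succ_self j)
        · rw [if_neg hj]
          by_cases hj' : j < i + 1
          · rw [if_pos hj']
            have : j = i := by omega
            subst this
            omega
          · rw [if_neg hj']
            omega
      have h2 := key z (i + 1) _ hk' fun j hj => if_pos hj
      rw [if_neg (by omega), Nat.add_sub_cancel_left] at h2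
      exact h2
  refine ⟨SIM_s p T g, SIM_Phi p T g, SIB_B g, SIB_blk hg, fun z hz =>
    ⟨fun i hi => ?_, ?_, fun N => ?_, len (SIM_Phi p T g z) 1, ?_⟩⟩
  · rw [SIM_hist_Phi, SIM_Phi, SIM_nx, if_pos hi]
  · funext i
    show (Nat.unpair (SIM_Phi p T g z i)).1 = z i
    rw [SIM_Phi, SIM_nx]
    by_cases hi : i % 2 = p
    · rw [if_pos hi, ← SIM_s_hist]
      exact (hz i hi).symm
    · rw [if_neg hi, Nat.unpair_pair]
  · refine ⟨2 * N + 1 - p + 1, ?_⟩
    rw [hlen2 z _ (by omega)]
    have h1 : SIM_cd (hist z (2 * N + 1 - p + 1)) ≤ SIM_n g z (2 * N + 1 - p) := hg.id_le _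
    have h2 : 2 * N + 1 - p ≤ SIM_cd (hist z (2 * N + 1 - p + 1)) :=
      (SIM_cd_strictMono z).id_le _
    omega
  · rintro m ⟨i, hi, h1, h2⟩ hK
    have hi1 : 1 ≤ i := by
      rcases Nat.eq_zero_or_pos i with h | h
      · subst h
        rw [zero_add] at h2
        omega
      · exact h
    obtain ⟨e1, e2⟩ := hlen3 z i hi hi1
    exact ⟨i, by rw [e1]; exact h1, h2.trans e2⟩

end Pool.LF
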