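import Pool.Agent.Work.MP_f36782_lf.Interface5
import Pool.Agent.Work.MP_f36782_lf.B_SIB

set_option autoImplicit false

/-! # Block SIC (MP_f36782, THEOREM LF, helper26): simulation of a game, with blocks, continuous -/

open MeasureTheory Pool.Agent.Work.RamseyAD

namespace Pool.LF

theorem SIC_cont (p : ℕ) (T : List ℕ → ℕ) (g : ℕ → ℕ) : Continuous (SIM_Phi p T g) := by
  refine continuous_pi fun i => ?_
  have hcongr : ∀ z z' : ℕ → ℕ, (∀ j, j < i + 1 → z j = z' j) →
      SIM_Phi p T g z i = SIM_Phi p T g z' i := by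
    intro z z' h
    have hh : ∀ j, j ≤ i + 1 → hist z j = hist z' j := by
      intro j hj
      simp only [hist]
      refine List.map_congr_left fun a ha => h a ?_
      have := List.mem_range.1 ha
      omega
    have hn : ∀ j, j < i + 1 → SIM_n g z j = SIM_n g z' j := by
      intro j hj
      rw [SIM_n, SIM_n, hh (j + 1) (by omega)]
    rw [SIM_Phi, SIM_Phi, h i (by omega), hn i (by omega),
      SIM_sm_congr p T (z' := z') (n' := SIM_n g z') i fun j hj =>
        ⟨h j (by omega), hn j (by omega)⟩]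
  let ext : (Fin (i + 1) → ℕ) → (ℕ → ℕ) := fun x j =>
    if h : j < i + 1 then x ⟨j, h⟩ else 0
  have hfac : (fun z : ℕ → ℕ => SIM_Phi p T g z i) =
      (fun x : Fin (i + 1) → ℕ => SIM_Phi p T g (ext x) i) ∘
        (fun (z : ℕ → ℕ) (j : Fin (i + 1)) => z j) := by
    funext z
    refine hcongr _ _ fun j hj => ?_
    simp only [ext, dif_pos hj]
  rw [hfac]
  exact (continuous_of_discreteTopology (α := Fin (i + 1) → ℕ)).comp
    (continuous_pi fun j => continuous_apply _)

theorem p_SIC : Stmt_SIC := by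
  intro p T hp
  obtain ⟨g, hg, hfast⟩ := fast (SIM_rho p T)
  have key := SIM_key p T g hg hfast
  have hL : ∀ z i, SIM_L (SIM_sm p T z (SIM_n g z) i) < SIM_n g z i := by
    intro z i
    have h1 := key z i (fun i => SIM_cd (hist z (i + 1))) (SIM_cd_strictMono z) fun j _ => rfl
    have h2 : SIM_n g z i = g (SIM_cd (hist z (i + 1))) := rfl
    omega
  have hlen : ∀ z i, len (SIM_Phi p T g z) i = SIM_L (SIM_sm p T z (SIM_n g z) i) := by
    intro z i
    rw [SIM_len, SIM_hist_Phi]
  have hlen2 : ∀ z i, i % 2 ≠ p → len (SIM_Phi p T g z) (i + 1) = SIM_n g z i := by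
    intro z i hi
    rw [hlen, SIM_sm_succ, SIM_L_append, SIM_nx, if_neg hi, Nat.unpair_pair]
    have := hL z i
    dsimp only
    omega
  have hlen3 : ∀ z i, i % 2 = p → 1 ≤ i →
      g (SIM_cd (hist z i)) = len (SIM_Phi p T g z) i ∧
      len (SIM_Phi p T g z) (i + 1) < g (SIM_cd (hist z i) + 1) := by
    intro z i hi h1
    obtain ⟨i, rfl⟩ := Nat.exists_eq_add_of_le' h1
    constructor
    · rw [hlen2 z i (by omega)]
      rfl
    · rw [hlen, SIM_sm_succ, SIM_L_append, SIM_nx, if_pos hi]
      have hk' : StrictMono fun j => if j < i + 1 then SIM_cd (hist z (j + 1)) else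
          SIM_cd (hist z (i + 1)) + (j - i) := by
        refine strictMono_nat_of_lt_succ fun j => ?_
        by_cases hj : j + 1 < i + 1
        · rw [if_pos hj, if_pos (by omega)]
          exact SIM_cd_strictMono z (Nat.lt_succ_self j)
        · rw [if_neg hj]
          by_cases hj' : j < i + 1
          · rw [if_pos hj']
            have : j = i := by omega
            subst this
            omega
          · rw [if_neg hj']
            omega
      have h2 := key z (i + 1) _ hk' fun j hj => if_pos hj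
      rw [if_neg (by omega), Nat.add_sub_cancel_left] at h2
      exact h2
  refine ⟨SIM_s p T g, SIM_Phi p T g, SIB_B g, SIB_blk hg, SIC_cont p T g, fun z hz =>
    ⟨fun i hi => ?_, ?_, fun N => ?_, len (SIM_Phi p T g z) 1, ?_⟩⟩
  · rw [SIM_hist_Phi, SIM_Phi, SIM_nx, if_pos hi]
  · funext i
    show (Nat.unpair (SIM_Phi p T g z i)).1 = z i
    rw [SIM_Phi, SIM_nx]
    by_cases hi : i % 2 = p
    · rw [if_pos hi, ← SIM_s_hist]
      exact (hz i hi).symm
    · rw [if_neg hi, Nat.unpair_pair]
  · refine ⟨2 * N + 1 - p + 1, ?_⟩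
    rw [hlen2 z _ (by omega)]
    have h1 : SIM_cd (hist z (2 * N + 1 - p + 1)) ≤ SIM_n g z (2 * N + 1 - p) := hg.id_le _
    have h2 : 2 * N + 1 - p ≤ SIM_cd (hist z (2 * N + 1 - p + 1)) :=
      (SIM_cd_strictMono z).id_le _
    omega
  · rintro m ⟨i, hi, h1, h2⟩ hK
    have hi1 : 1 ≤ i := by
      rcases Nat.eq_zero_or_pos i with h | h
      · subst h
        rw [zero_add] at h2
        omega
      · exact h
    obtain ⟨e1, e2⟩ := hlen3 z i hi hi1
    exact ⟨i, by rw [e1]; exact h1, h2.trans e2⟩

end Pool.LF
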