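import Pool.Agent.Work.MP_f36782_lf.Interface6

set_option autoImplicit false

/-! # Block TWO: Boolean combinations of two preimages are signed differences -/

open MeasureTheory Pool.Agent.Work.RamseyAD

namespace Pool.LF

theorem TWO_union {F : Set (Set (ℕ → ℕ))} (hF : DetBorel F) {S T : Set (ℕ → ℕ)} (hS : S ∈ F)
    (hT : T ∈ F) : S ∪ T ∈ F := by
  have h := hF.union (fun n => if n = 0 then S else T) (fun n => by
    by_cases h : n = 0
    · simp only [h, if_true]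
      exact hS
    · simp only [h, if_false]
      exact hT)
  have h1 : (⋃ n : ℕ, if n = 0 then S else T) = S ∪ T := by
    ext z
    rw [Set.mem_iUnion]
    constructor
    · rintro ⟨n, hn⟩
      by_cases h0 : n = 0
      · rw [if_pos h0] at hn
        exact Or.inl hn
      · rw [if_neg h0] at hn
        exact Or.inr hn
    · rintro (h0 | h0)
      · exact ⟨0, by rw [if_pos rfl]; exact h0⟩
      · exact ⟨1, by rw [if_neg one_ne_zero]; exact h0⟩
  rwa [h1] at h

theorem TWO_inter {F : Set (Set (ℕ → ℕ))} (hF : DetBorel F) {S T : Set (ℕ → ℕ)} (hS : S ∈ F)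
    (hT : T ∈ F) : S ∩ T ∈ F := by
  have h := hF.compl _ (TWO_union hF (hF.compl _ hS) (hF.compl _ hT))
  rwa [Set.compl_union, compl_compl, compl_compl] at h

theorem TWO_iff {F : Set (Set (ℕ → ℕ))} (hF : DetBorel F) {S T : Set (ℕ → ℕ)} (hS : S ∈ F)
    (hT : T ∈ F) : {z | z ∈ S ↔ z ∈ T} ∈ F := by
  have h : {z : ℕ → ℕ | z ∈ S ↔ z ∈ T} = (S ∩ T) ∪ (Sᶜ ∩ Tᶜ) := by
    ext z
    show (z ∈ S ↔ z ∈ T) ↔ (z ∈ S ∧ z ∈ T) ∨ (z ∉ S ∧ z ∉ T)
    tauto
  rw [h]
  exact TWO_union hF (TWO_inter hF hS hT) (TWO_inter hF (hF.compl _ hS) (hF.compl _ hT))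

theorem TWO_mem1 {h f : (ℕ → ℕ) → C} (hh : h ∈ [f]) : h = f := List.mem_singleton.1 hh

theorem TWO_mem2 {h f g : (ℕ → ℕ) → C} (hh : h ∈ [f, g]) : h = f ∨ h = g := by
  rcases List.mem_cons.1 hh with h1 | h1
  · exact Or.inl h1
  · exact Or.inr (List.mem_singleton.1 h1)

/-- Block TWO. -/
theorem p_TWO : Stmt_TWO := by
  intro F hF M S hS
  obtain ⟨f, g, H, hf, hg, hH, hA⟩ := hS
  have hB : (H False False)ᶜ ∈ F := hF.compl _ (hH _ _)
  have hD : ∀ p q, {z | z ∈ H p q ↔ z ∈ (H False False)ᶜ} ∈ F := fun p q => TWO_iff hF (hH p q) hB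
  have hE : (∅ : Set (ℕ → ℕ)) ∈ F := hF.isOpen _ isOpen_empty
  refine ⟨(H False False)ᶜ,
    fun A => {z | ∃ n : ℕ, z ∈ (match n with
        | 0 => {z | z ∈ H True False ↔ z ∈ (H False False)ᶜ}
        | 1 => {z | z ∈ H False True ↔ z ∈ (H False False)ᶜ}
        | 2 => {z | z ∈ H True True ↔ z ∈ (H False False)ᶜ}
        | _ => ∅ : Set (ℕ → ℕ)) ∧ ∀ h ∈ (match n with
        | 0 => [f]
        | 1 => [g]
        | 2 => [f, g]
        | _ => [] : List ((ℕ → ℕ) → C)), h z ∈ A},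
    fun A => ⋂ n : ℕ, (match n with
        | 0 => fun A => f ⁻¹' A
        | 1 => fun A => g ⁻¹' A
        | _ => fun _ => {z | z ∈ H True True ↔ z ∈ (H False False)ᶜ}ᶜ : Op) A,
    hB, ⟨_, _, fun n => ?_, fun A => rfl⟩, PosOp.inter _ (fun n => ?_), fun A => ?_⟩
  · match n with
    | 0 => exact ⟨hD _ _, fun h hh => (TWO_mem1 hh) ▸ hf⟩
    | 1 => exact ⟨hD _ _, fun h hh => (TWO_mem1 hh) ▸ hg⟩
    | 2 => exact ⟨hD _ _, fun h hh => (TWO_mem2 hh).elim (fun e => e ▸ hf) fun e => e ▸ hg⟩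
    | n + 3 => exact ⟨hE, by intro h hh; exact absurd hh (List.not_mem_nil)⟩
  · match n with
    | 0 => exact PosOp.pre f hf
    | 1 => exact PosOp.pre g hg
    | n + 2 => exact PosOp.const _ (hF.compl _ (hD _ _))
  · rw [hA A]
    ext z
    have hV : (∃ n : ℕ, z ∈ (match n with
        | 0 => {z | z ∈ H True False ↔ z ∈ (H False False)ᶜ}
        | 1 => {z | z ∈ H False True ↔ z ∈ (H False False)ᶜ}
        | 2 => {z | z ∈ H True True ↔ z ∈ (H False False)ᶜ}
        | _ => ∅ : Set (ℕ → ℕ)) ∧ ∀ h ∈ (match n with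
        | 0 => [f]
        | 1 => [g]
        | 2 => [f, g]
        | _ => [] : List ((ℕ → ℕ) → C)), h z ∈ A) ↔
        (f z ∈ A ∧ (z ∈ H True False ↔ z ∉ H False False)) ∨
        (g z ∈ A ∧ (z ∈ H False True ↔ z ∉ H False False)) ∨
        (f z ∈ A ∧ g z ∈ A ∧ (z ∈ H True True ↔ z ∉ H False False)) := by
      constructor
      · rintro ⟨n, h1, h2⟩
        match n, h1, h2 with
        | 0, h1, h2 => exact Or.inl ⟨h2 f (List.mem_singleton_self _), h1⟩
        | 1, h1, h2 => exact Or.inr (Or.inl ⟨h2 g (List.mem_singleton_self _), h1⟩)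
        | 2, h1, h2 => exact Or.inr (Or.inr ⟨h2 f (by simp), h2 g (by simp), h1⟩)
        | n + 3, h1, _ => exact absurd h1 (Set.notMem_empty z)
      · rintro (⟨h1, h2⟩ | ⟨h1, h2⟩ | ⟨h1, h2, h3⟩)
        · exact ⟨0, h2, fun h hh => (TWO_mem1 hh) ▸ h1⟩
        · exact ⟨1, h2, fun h hh => (TWO_mem1 hh) ▸ h1⟩
        · exact ⟨2, h3, fun h hh => (TWO_mem2 hh).elim (fun e => e ▸ h1) fun e => e ▸ h2⟩
    have hV' : (z ∈ ⋂ n : ℕ, (match n with
        | 0 => fun A => f ⁻¹' A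
        | 1 => fun A => g ⁻¹' A
        | _ => fun _ => {z | z ∈ H True True ↔ z ∈ (H False False)ᶜ}ᶜ : Op) A) ↔
        f z ∈ A ∧ g z ∈ A ∧ ¬ (z ∈ H True True ↔ z ∉ H False False) := by
      rw [Set.mem_iInter]
      constructor
      · intro h
        exact ⟨h 0, h 1, h 2⟩
      · rintro ⟨h1, h2, h3⟩ n
        match n with
        | 0 => exact h1
        | 1 => exact h2
        | n + 2 => exact h3
    show z ∈ H (f z ∈ A) (g z ∈ A) ↔ (z ∉ H False False ↔ _ ∧ ¬ _)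
    refine Iff.trans ?_ (iff_congr Iff.rfl (and_congr hV (not_congr hV'))).symm
    by_cases h1 : f z ∈ A <;> by_cases h2 : g z ∈ A
    · have e1 : (f z ∈ A) = True := eq_true h1
      have e2 : (g z ∈ A) = True := eq_true h2
      rw [e1, e2]
      tauto
    · have e1 : (f z ∈ A) = True := eq_true h1
      have e2 : (g z ∈ A) = False := eq_false h2
      rw [e1, e2]
      tauto
    · have e1 : (f z ∈ A) = False := eq_false h1
      have e2 : (g z ∈ A) = True := eq_true h2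
      rw [e1, e2]
      tauto
    · have e1 : (f z ∈ A) = False := eq_false h1
      have e2 : (g z ∈ A) = False := eq_false h2
      rw [e1, e2]
      tauto

end Pool.LF
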