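import Pool.Agent.Work.MP_f36782_lf.Interface5

set_option autoImplicit false

open MeasureTheory Pool.Agent.Work.RamseyAD

namespace Pool.LF

open Classical in
/-- Reading the bit `b` with the number `m` in the position `q`. -/
noncomputable def ZET_step (B : List ℕ → Set ℕ) (N m : ℕ) (q : List ℕ) (b : Bool) : List ℕ :=
  if h : b = true ∧ N ≤ m ∧ ∃ l, m ∈ B l ∧ q <+: l then h.2.2.choose else q

theorem ZET_step_le (B : List ℕ → Set ℕ) (N m : ℕ) (q : List ℕ) (b : Bool) :
    q <+: ZET_step B N m q b := by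
  unfold ZET_step
  split_ifs with h
  · exact h.2.2.choose_spec.2
  · exact List.prefix_rfl

/-- The position after reading a list, which is given in the reverse order. -/
noncomputable def ZET_aux (B : List ℕ → Set ℕ) (N : ℕ) : List Bool → List ℕ
  | [] => []
  | b :: r => ZET_step B N r.length (ZET_aux B N r) b

/-- The position after reading a list. -/
noncomputable def ZET_fn (B : List ℕ → Set ℕ) (N : ℕ) (t : List Bool) : List ℕ :=
  ZET_aux B N t.reverse

theorem ZET_snoc (B : List ℕ → Set ℕ) (N : ℕ) (t : List Bool) (b : Bool) :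
    ZET_fn B N (t ++ [b]) = ZET_step B N t.length (ZET_fn B N t) b := by
  unfold ZET_fn
  rw [List.reverse_append, List.reverse_singleton, List.singleton_append, ZET_aux,
    List.length_reverse]

theorem ZET_mono (B : List ℕ → Set ℕ) (N : ℕ) (t r : List Bool) :
    ZET_fn B N t <+: ZET_fn B N (t ++ r) := by
  induction r using List.reverseRecOn with
  | nil => rw [List.append_nil]
  | append_singleton r b ih =>
    rw [← List.append_assoc, ZET_snoc]
    exact ih.trans (ZET_step_le _ _ _ _ _)

/-- The list map. -/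
noncomputable def ZET_map (B : List ℕ → Set ℕ) (N : ℕ) : LMap Bool ℕ :=
  ⟨ZET_fn B N, fun l l' h => by
    obtain ⟨r, rfl⟩ := h
    exact ZET_mono B N l r⟩

theorem ZET_len (z : ℕ → ℕ) (n : ℕ) : (hist z n).length = n := by simp [hist]

theorem ZET_pre (z : ℕ → ℕ) {k i : ℕ} (h : k ≤ i) : hist z k <+: hist z i := by
  have h1 : hist z k = (hist z i).take k := by
    unfold hist
    rw [← List.map_take, List.take_range, min_eq_left h]
  rw [h1]
  exact List.take_prefix _ _

theorem ZET_ini (x : C) (n : ℕ) : ini x (n + 1) = ini x n ++ [x n] := by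
  unfold ini
  rw [List.range_succ, List.map_append]
  rfl

theorem ZET_inv (B : List ℕ → Set ℕ) (hB : Blk B) (N : ℕ) (x : C) (z : ℕ → ℕ)
    (hx : ∀ m, N ≤ m → x m = true → m ∈ Br B z) (n : ℕ) :
    ∃ k, ZET_fn B N (ini x n) = hist z k ∧
      ∀ m i, m < n → N ≤ m → x m = true → m ∈ B (hist z i) → i ≤ k := by
  induction n with
  | zero => exact ⟨0, rfl, fun m i hm => absurd hm (Nat.not_lt_zero m)⟩
  | succ n ih =>
    obtain ⟨k, hk, hk2⟩ := ih
    have hlen : (ini x n).length = n := by simp [ini]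
    rw [ZET_ini, ZET_snoc, hk, hlen]
    by_cases hc : x n = true ∧ N ≤ n
    · obtain ⟨i, hi⟩ := hx n hc.2 hc.1
      have huniq : ∀ i', n ∈ B (hist z i') → i' = i := by
        intro i' hi'
        have h1 := congrArg List.length (hB.inj _ _ n hi' hi)
        rwa [ZET_len, ZET_len] at h1
      by_cases hki : k ≤ i
      · have hex : x n = true ∧ N ≤ n ∧ ∃ l, n ∈ B l ∧ hist z k <+: l :=
          ⟨hc.1, hc.2, hist z i, hi, ZET_pre z hki⟩
        refine ⟨i, ?_, ?_⟩
        · unfold ZET_step
          rw [dif_pos hex]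
          exact hB.inj _ _ n hex.2.2.choose_spec.1 hi
        · intro m i' hm hN hxm hmB
          rcases Nat.lt_succ_iff_lt_or_eq.mp hm with h | h
          · exact (hk2 m i' h hN hxm hmB).trans hki
          · subst h
            exact (huniq i' hmB).le
      · refine ⟨k, ?_, ?_⟩
        · unfold ZET_step
          rw [dif_neg]
          rintro ⟨-, -, l, hl, hpre⟩
          have h2 := hB.inj _ _ n hl hi
          rw [h2] at hpre
          have h3 := hpre.length_le
          rw [ZET_len, ZET_len] at h3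
          exact hki h3
        · intro m i' hm hN hxm hmB
          rcases Nat.lt_succ_iff_lt_or_eq.mp hm with h | h
          · exact hk2 m i' h hN hxm hmB
          · subst h
            rw [huniq i' hmB]
            omega
    · refine ⟨k, ?_, ?_⟩
      · unfold ZET_step
        rw [dif_neg]
        rintro ⟨h1, h2, -⟩
        exact hc ⟨h1, h2⟩
      · intro m i' hm hN hxm hmB
        rcases Nat.lt_succ_iff_lt_or_eq.mp hm with h | h
        · exact hk2 m i' h hN hxm hmB
        · subst h
          exact absurd ⟨hxm, hN⟩ hc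

theorem ZET_unb (B : List ℕ → Set ℕ) (hB : Blk B) (N : ℕ) (x : C) (z : ℕ → ℕ) (hinf : Inf x)
    (hx : ∀ m, N ≤ m → x m = true → m ∈ Br B z) (K : ℕ) :
    ∃ n k, K ≤ k ∧ ZET_fn B N (ini x n) = hist z k := by
  have hfin : (⋃ i ∈ Set.Iio K, B (hist z i)).Finite :=
    Set.Finite.biUnion (Set.finite_Iio K) (fun i _ => hB.fin (hist z i))
  obtain ⟨b, hb⟩ := hfin.bddAbove
  obtain ⟨m, hm1, hm2⟩ := hinf (max N (b + 1))
  have hN : N ≤ m := le_trans (le_max_left _ _) hm1
  have hbm : b + 1 ≤ m := le_trans (le_max_right _ _) hm1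
  obtain ⟨i, hi⟩ := hx m hN hm2
  have hKi : K ≤ i := by
    by_contra hlt
    push Not at hlt
    have h1 : m ∈ ⋃ i ∈ Set.Iio K, B (hist z i) := by
      simp only [Set.mem_iUnion]
      exact ⟨i, hlt, hi⟩
    have h2 := hb h1
    omega
  obtain ⟨k, hk1, hk2⟩ := ZET_inv B hB N x z hx (m + 1)
  exact ⟨m + 1, k, hKi.trans (hk2 m i (Nat.lt_succ_self m) hN hm2 hi), hk1⟩

theorem p_ZET (hLVC : Stmt_LVC) : Stmt_ZET := by
  intro B hB N
  refine ⟨ZET_map B N, ?_⟩
  intro x z hinf hx
  refine ⟨?_, ?_⟩
  · intro K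
    obtain ⟨n, k, hk, hn⟩ := ZET_unb B hB N x z hinf hx K
    refine ⟨n, ?_⟩
    change K ≤ (ZET_fn B N (ini x n)).length
    rw [hn, ZET_len]
    exact hk
  · funext m
    obtain ⟨n, k, hk, hn⟩ := ZET_unb B hB N x z hinf hx (m + 1)
    refine (hLVC Bool ℕ ℕ (ZET_map B N) ⟨id, fun _ _ h => h⟩ x).1 n m (z m) ?_
    change (ZET_fn B N (ini x n))[m]? = some (z m)
    rw [hn]
    unfold hist
    rw [List.getElem?_map, List.getElem?_range (by omega)]
    rfl

end Pool.LF
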