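import Pool.Agent.Work.MP_f36782_lf.Interface5

set_option autoImplicit false

/-!
# Block ZOF: the Borel function which decodes the branch
-/

open MeasureTheory Pool.Agent.Work.RamseyAD

namespace Pool.LF

theorem p_ZOF (hZ : Stmt_ZET) (hL : Stmt_LVM) (hK : Stmt_KBM) : Stmt_ZOF := by
  classical
  intro B hB
  choose ζ hζ using hZ B hB
  let S : ℕ → Set C := fun N => {x : C | Inf x ∧ ∃ z, ∀ m, N ≤ m → x m = true → m ∈ Br B z}
  have hS : ∀ N, MeasurableSet (S N) := (hK B hB).2.2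
  let p : ℕ → C → Prop := fun N x => x ∈ S N ∨ ∀ k, x ∉ S k
  have hp : ∀ N, MeasurableSet {x | p N x} := by
    intro N
    have h1 : {x | p N x} = S N ∪ ⋂ k, (S k)ᶜ := by
      ext x
      simp [p]
    rw [h1]
    exact (hS N).union (MeasurableSet.iInter fun k => (hS k).compl)
  have hex : ∀ x, ∃ N, p N x := by
    intro x
    by_cases h : ∃ N, x ∈ S N
    · obtain ⟨N, hN⟩ := h
      exact ⟨N, Or.inl hN⟩
    · exact ⟨0, Or.inr fun k hk => h ⟨k, hk⟩⟩
  have hm : ∀ N, Measurable (fun x : C => (ζ N).val x) := fun N => (hL.1 Bool ℕ (ζ N)).2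
  refine ⟨fun x => (ζ (Nat.find (hex x))).val x, Measurable.find hm hp hex, ?_⟩
  intro x z hx hz
  obtain ⟨K, hK'⟩ := hz
  have hSK : x ∈ S K := ⟨hx, z, hK'⟩
  have h2 : x ∈ S (Nat.find (hex x)) := by
    rcases Nat.find_spec (hex x) with h | h
    · exact h
    · exact absurd hSK (h K)
  obtain ⟨-, z', hz'⟩ := h2
  have h3 := (hζ (Nat.find (hex x)) x z' hx hz').2
  have h4 := (hζ (max K (Nat.find (hex x))) x z hx
    (fun m hm' => hK' m ((le_max_left _ _).trans hm'))).2
  have h5 := (hζ (max K (Nat.find (hex x))) x z' hx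
    (fun m hm' => hz' m ((le_max_right _ _).trans hm'))).2
  show (ζ (Nat.find (hex x))).val x = z
  rw [h3, ← h5, h4]

end Pool.LF
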