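import Pool.Agent.Work.MP_f36782_lf.Interface4

set_option autoImplicit false

/-! Block PUM: measurability of the set of the pure ports. -/

open MeasureTheory Pool.Agent.Work.RamseyAD

namespace Pool.LF

theorem PUM_mv : Measurable mv :=
  measurable_pi_iff.mpr fun i =>
    (measurable_of_countable fun n : ℕ => (Nat.unpair n).1).comp (measurable_pi_apply i)

theorem PUM_len (i : ℕ) : Measurable fun w : ℕ → ℕ => len w i := by
  unfold len
  exact Finset.measurable_sum _ fun j _ =>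
    (measurable_of_countable fun n : ℕ => (Nat.unpair n).2).comp (measurable_pi_apply j)

theorem PUM_own (q m : ℕ) : MeasurableSet {w : ℕ → ℕ | m ∈ own q w} := by
  have h : {w : ℕ → ℕ | m ∈ own q w} =
      ⋃ i : ℕ, {w : ℕ → ℕ | i % 2 = q ∧ len w i ≤ m ∧ m < len w (i + 1)} := by
    ext w
    simp [own]
  rw [h]
  refine MeasurableSet.iUnion fun i => ?_
  refine (MeasurableSet.const (i % 2 = q)).inter (MeasurableSet.inter ?_ ?_)
  · exact measurableSet_le (PUM_len i) measurable_const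
  · exact measurableSet_lt measurable_const (PUM_len (i + 1))

theorem PUM_val (f : MM) (k : ℕ) : MeasurableSet {w : ℕ → ℕ | f.1 (mv w) k = true} :=
  measurableSet_eq_fun ((measurable_pi_apply k).comp (f.2.comp PUM_mv)) measurable_const

theorem PUM_inf (f : MM) : MeasurableSet {w : ℕ → ℕ | Inf (f.1 (mv w))} := by
  have h : {w : ℕ → ℕ | Inf (f.1 (mv w))} =
      ⋂ n : ℕ, ⋃ k : ℕ, {w : ℕ → ℕ | n ≤ k} ∩ {w : ℕ → ℕ | f.1 (mv w) k = true} := by
    ext w
    simp [Inf]
  rw [h]
  exact MeasurableSet.iInter fun n => MeasurableSet.iUnion fun k =>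
    (MeasurableSet.const (n ≤ k)).inter (PUM_val f k)

theorem PUM_hit (f : MM) (q : ℕ) :
    MeasurableSet {w : ℕ → ℕ | Hit (f.1 (mv w)) (own q w)} := by
  have h : {w : ℕ → ℕ | Hit (f.1 (mv w)) (own q w)} =
      ⋂ n : ℕ, ⋃ k : ℕ, {w : ℕ → ℕ | n ≤ k} ∩ ({w : ℕ → ℕ | f.1 (mv w) k = true} ∩
        {w : ℕ → ℕ | k ∈ own q w}) := by
    ext w
    simp [Hit]
  rw [h]
  exact MeasurableSet.iInter fun n => MeasurableSet.iUnion fun k =>
    (MeasurableSet.const (n ≤ k)).inter ((PUM_val f k).inter (PUM_own q k))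

theorem p_PUM : Stmt_PUM := by
  intro g p j
  exact (PUM_inf (g j)).inter (PUM_hit (g j) (1 - p)).compl

end Pool.LF
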