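import Pool.Agent.Work.MP_f36782_lf.Interface5
import Pool.Agent.Work.MP_f36782_lf.B_PUM
import Pool.Agent.Work.MP_f36782_lf.B_PAF

set_option autoImplicit false

/-! Block PAW: the auxiliary games are in the class. -/

open MeasureTheory Pool.Agent.Work.RamseyAD

namespace Pool.LF

section

variable {F : Set (Set (ℕ → ℕ))}

theorem PAW_const (hF : DetAlgebra F) (q : Prop) : {_w : ℕ → ℕ | q} ∈ F :=
  hF.isOpen _ isOpen_const

theorem PAW_imp (hF : DetAlgebra F) (q : Prop) {p : (ℕ → ℕ) → Prop} (h : {w | p w} ∈ F) :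
    {w : ℕ → ℕ | q → p w} ∈ F := by
  have h1 := PAF_or hF (PAW_const hF (¬ q)) h
  have h2 : {w : ℕ → ℕ | q → p w} = {w : ℕ → ℕ | ¬ q ∨ p w} := by
    ext w
    change (q → p w) ↔ (¬ q ∨ p w)
    tauto
  rw [h2]
  exact h1

theorem PAW_tr (hF : DetAlgebra F) (φ : Fm F ℕ) (P : ℕ → (ℕ → ℕ) → Prop)
    (hP : ∀ i, {w | P i w} ∈ F) :
    {w | φ.tr (fun k => mv w ∈ k.1) (fun i => P i w)} ∈ F := by
  induction φ with
  | base k => exact hF.preimage k.1 k.2 mv PAF_mv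
  | pre i => exact hP i
  | uni φ ih => exact PAF_ex hF ih
  | int φ ih => exact PAF_all hF ih

theorem PAW_aeq (hF : DetAlgebra F) (f g : (ℕ → ℕ) → C)
    (h : ∀ k, {w | f w k = g w k} ∈ F) : {w | AEq (f w) (g w)} ∈ F :=
  PAF_ex hF fun N => PAF_all hF fun k => PAW_imp hF (N ≤ k) (h k)

theorem PAW_sb (hF : DetAlgebra F) (γ : ℕ → LMap ℕ Bool) (b : (ℕ → ℕ) → Set ℕ)
    (hb : ∀ i, {w | i ∈ b w} ∈ F)
    (hA : ∀ i j, {w | AEq (pt (γ i) (mv w)) (pt (γ j) (mv w))} ∈ F) (j : ℕ) :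
    {w | pt (γ j) (mv w) ∈ SbE γ (mv w) (b w)} ∈ F :=
  PAF_ex hF fun i => PAF_and hF (hb i) (hA j i)

end

theorem p_PAW (h1 : Stmt_INB) (h2 : Stmt_LVM) (h3 : Stmt_CLM) : Stmt_PAW := by
  intro F hB c o G hc b
  have hF : DetAlgebra F := hB.alg
  have hbor : ∀ S, MeasurableSet S → S ∈ F := (h1 F hB).1
  have hm : ∀ j, Measurable (fun w : ℕ → ℕ => pt (G.γ j) (mv w)) := fun j =>
    (h2.2 (G.γ j)).comp PUM_mv
  have hPu : ∀ p j, {w | j ∈ PuE c G.γ p w} ∈ F := by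
    intro p j
    refine PAF_and hF (hbor _ (PUM_inf ⟨pt (G.γ j), h2.2 (G.γ j)⟩)) (PAF_and hF
      (PAF_not hF (hbor _ (PUM_hit ⟨pt (G.γ j), h2.2 (G.γ j)⟩ (1 - p)))) ?_)
    exact PAF_and hF (PAF_not hF (hc.fP _ (hm j)))
      (PAF_and hF (PAF_not hF (hc.fQ _ (hm j))) (PAF_not hF (hc.fY _ (hm j))))
  have hA : ∀ i j, {w | AEq (pt (G.γ i) (mv w)) (pt (G.γ j) (mv w))} ∈ F := by
    intro i j
    refine PAW_aeq hF _ _ fun k => hbor _ ?_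
    exact measurableSet_eq_fun ((measurable_pi_apply k).comp (hm i))
      ((measurable_pi_apply k).comp (hm j))
  have hT1 : ∀ j, {w | pt (G.γ j) (mv w) ∈ c.P ∪ SbE G.γ (mv w) ↑b} ∈ F := fun j =>
    PAF_or hF (hc.fP _ (hm j)) (PAW_sb hF G.γ (fun _ => ↑b) (fun i => PAW_const hF _) hA j)
  have hT2 : ∀ j, {w | pt (G.γ j) (mv w) ∈
      c.P ∪ SbE G.γ (mv w) ↑b ∪ SbE G.γ (mv w) (PuE c G.γ 1 w)} ∈ F := fun j =>
    PAF_or hF (hT1 j) (PAW_sb hF G.γ (fun w => PuE c G.γ 1 w) (fun i => hPu 1 i) hA j)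
  have hC1 := h3 F hB c o G hc (fun w => c.P ∪ SbE G.γ (mv w) ↑b) hT1
  have hC2 := h3 F hB c o G hc
    (fun w => c.P ∪ SbE G.γ (mv w) ↑b ∪ SbE G.γ (mv w) (PuE c G.γ 1 w)) hT2
  have hP1 : ∀ i, {w | pt (o.α i) (mv w) ∈
      {x | Cl c.R (c.P ∪ SbE G.γ (mv w) ↑b) x}} ∈ F := by
    intro i
    rw [← G.base i]
    exact hC1 (G.ι i)
  have hP2 : ∀ i, {w | pt (o.α i) (mv w) ∈
      {x | Cl c.R (c.P ∪ SbE G.γ (mv w) ↑b ∪ SbE G.γ (mv w) (PuE c G.γ 1 w)) x}} ∈ F := by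
    intro i
    rw [← G.base i]
    exact hC2 (G.ι i)
  refine PAF_and hF ?_ (PAF_and hF ?_ (PAF_not hF ?_))
  · exact PAF_all hF fun j => PAW_imp hF (j ∈ (↑b : Set ℕ)) (hPu 0 j)
  · refine PAF_ex hF fun n => PAF_and hF (hF.preimage _ (o.hD n) mv PAF_mv) ?_
    exact PAF_all hF fun i => PAW_imp hF (i ∈ o.N n) (hP1 i)
  · exact PAW_tr hF o.φ _ hP2

end Pool.LF
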