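import Pool.Agent.Work.MP_f36782_lf.Interface5

set_option autoImplicit false

open MeasureTheory Pool.Agent.Work.RamseyAD

namespace Pool.LF

theorem LCT_ini {A : Type} (u v : ℕ → A) (n : ℕ) : ini u n = ini v n ↔ ∀ i < n, u i = v i := by
  unfold ini
  rw [List.map_inj_left]
  simp only [List.mem_range]

theorem LCT_len {A : Type} (z : ℕ → A) (n : ℕ) : (ini z n).length = n := by
  simp [ini]

theorem LCT_u0 (l : List ℕ) : ini (fun i => l.getD i 0) l.length = l := by
  apply List.ext_getElem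
  · rw [LCT_len]
  · intro i h1 h2
    simp [ini, List.getD_eq_getElem?_getD, List.getElem?_eq_getElem h2]

theorem LCT_take {A : Type} (u : ℕ → A) (m n : ℕ) (h : m ≤ n) : (ini u n).take m = ini u m := by
  unfold ini
  rw [← List.map_take, List.take_range, Nat.min_eq_left h]

theorem LCT_pre {A : Type} (u : ℕ → A) (l l' : List A) (h : l <+: l') (hu : ini u l'.length = l') :
    ini u l.length = l := by
  have h1 := List.prefix_iff_eq_take.mp h
  conv_rhs => rw [h1, ← hu]
  rw [LCT_take u _ _ h.length_le]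

theorem LCT_cont (f : (ℕ → ℕ) → C) (hf : Continuous f) (z : ℕ → ℕ) (k : ℕ) :
    ∃ n, ∀ u : ℕ → ℕ, (∀ i < n, u i = z i) → ∀ j < k, f u j = f z j := by
  induction k with
  | zero => exact ⟨0, fun u _ j hj => absurd hj (Nat.not_lt_zero _)⟩
  | succ k ih =>
    obtain ⟨n1, h1⟩ := ih
    have hc : Continuous fun u : ℕ → ℕ => f u k := (continuous_apply k).comp hf
    have ho : IsOpen {u : ℕ → ℕ | f u k = f z k} := by
      have := (isOpen_discrete ({f z k} : Set Bool)).preimage hc
      exact this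
    have hn : {u : ℕ → ℕ | f u k = f z k} ∈ nhds z := ho.mem_nhds rfl
    rw [(PiNat.isTopologicalBasis_cylinders (fun _ : ℕ => ℕ)).mem_nhds_iff] at hn
    obtain ⟨t, ⟨x, n2, rfl⟩, hz, hsub⟩ := hn
    refine ⟨max n1 n2, fun u hu j hj => ?_⟩
    rcases Nat.lt_succ_iff_lt_or_eq.mp hj with h | h
    · exact h1 u (fun i hi => hu i (lt_of_lt_of_le hi (le_max_left _ _))) j h
    · subst h
      refine hsub ?_
      rw [PiNat.mem_cylinder_iff] at hz ⊢
      intro i hi
      rw [hu i (lt_of_lt_of_le hi (le_max_right _ _)), hz i hi]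

theorem LCT_get {A : Type} (u : ℕ → A) (n m : ℕ) (h : m < n) : (ini u n)[m]? = some (u m) := by
  unfold ini
  rw [List.getElem?_map, List.getElem?_range h]
  rfl

/-- The first `k` values are determined by the list. -/
def LCT_S (f : (ℕ → ℕ) → C) (l : List ℕ) (k : ℕ) : Prop :=
  ∀ j < k, ∀ u v : ℕ → ℕ, ini u l.length = l → ini v l.length = l → f u j = f v j

open Classical in
/-- The number of determined values. -/
noncomputable def LCT_K (f : (ℕ → ℕ) → C) (l : List ℕ) : ℕ := Nat.findGreatest (LCT_S f l) l.length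

open Classical in
theorem LCT_KS (f : (ℕ → ℕ) → C) (l : List ℕ) : LCT_S f l (LCT_K f l) := by
  unfold LCT_K
  exact Nat.findGreatest_spec (P := LCT_S f l) (Nat.zero_le l.length) (fun j hj => absurd hj (Nat.not_lt_zero _))

open Classical in
theorem LCT_Kle (f : (ℕ → ℕ) → C) (l : List ℕ) (k : ℕ) (h1 : k ≤ l.length) (h2 : LCT_S f l k) : k ≤ LCT_K f l := by
  unfold LCT_K
  exact Nat.le_findGreatest h1 h2

open Classical in
theorem LCT_Klen (f : (ℕ → ℕ) → C) (l : List ℕ) : LCT_K f l ≤ l.length := by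
  unfold LCT_K
  exact Nat.findGreatest_le _

theorem LCT_prefix {A : Type} (u v : ℕ → A) (m n : ℕ) (h : m ≤ n) (huv : ∀ i < m, u i = v i) : ini u m <+: ini v n := by
  rw [(LCT_ini u v m).mpr huv, ← LCT_take v m n h]
  exact List.take_prefix _ _

/-- The list map of a function. -/
noncomputable def LCT_map (f : (ℕ → ℕ) → C) : LMap ℕ Bool where
  fn l := ini (f fun i => l.getD i 0) (LCT_K f l)
  mono l l' h := by
    refine LCT_prefix _ _ _ _ ?_ ?_
    · refine LCT_Kle f l' _ ((LCT_Klen f l).trans h.length_le) ?_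
      intro j hj u v hu hv
      exact LCT_KS f l j hj u v (LCT_pre u l l' h hu) (LCT_pre v l l' h hv)
    · intro j hj
      exact LCT_KS f l j hj _ _ (LCT_u0 l) (LCT_pre _ l l' h (LCT_u0 l'))

theorem p_LCT (hV : Stmt_LVC) : Stmt_LCT := by
  intro f hf
  refine ⟨LCT_map f, fun z => ?_⟩
  have hd : (LCT_map f).dom z := by
    intro k
    obtain ⟨n0, h0⟩ := LCT_cont f hf z k
    refine ⟨max n0 k, ?_⟩
    show k ≤ (ini (f fun i => (ini z (max n0 k)).getD i 0) (LCT_K f (ini z (max n0 k)))).length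
    rw [LCT_len]
    refine LCT_Kle f _ _ ?_ ?_
    · rw [LCT_len]
      exact le_max_right _ _
    · intro j hj u v hu hv
      rw [LCT_len, LCT_ini] at hu hv
      rw [h0 u (fun i hi => hu i (lt_of_lt_of_le hi (le_max_left _ _))) j hj,
        h0 v (fun i hi => hv i (lt_of_lt_of_le hi (le_max_left _ _))) j hj]
  refine ⟨hd, ?_⟩
  funext m
  obtain ⟨n, hn⟩ := hd (m + 1)
  refine (hV ℕ Bool Bool (LCT_map f) ⟨fun l => l, fun l l' h => h⟩ z).1 n m (f z m) ?_
  have h1 : m < LCT_K f (ini z n) := by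
    have h2 : (ini (f fun i => (ini z n).getD i 0) (LCT_K f (ini z n))).length = LCT_K f (ini z n) := LCT_len _ _
    have h3 : m + 1 ≤ (ini (f fun i => (ini z n).getD i 0) (LCT_K f (ini z n))).length := hn
    omega
  show (ini (f fun i => (ini z n).getD i 0) (LCT_K f (ini z n)))[m]? = some (f z m)
  have h4 : f (fun i => (ini z n).getD i 0) m = f z m :=
    LCT_KS f (ini z n) m h1 _ _ (LCT_u0 _) (by rw [LCT_len])
  rw [← h4]
  exact LCT_get _ _ _ h1

end Pool.LF
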