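import Pool.Agent.Work.MP_f36782_lf.Interface5

set_option autoImplicit false

open MeasureTheory Pool.Agent.Work.RamseyAD

namespace Pool.LF

/-- `F` as a measurable space. -/
@[reducible] def STP_ms (F : Set (Set (ℕ → ℕ))) (h : DetBorel F) : MeasurableSpace (ℕ → ℕ) where
  MeasurableSet' := fun S => S ∈ F
  measurableSet_empty := h.isOpen ∅ isOpen_empty
  measurableSet_compl := h.compl
  measurableSet_iUnion := h.union

/-- `InB F` as a measurable space. -/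
@[reducible] def STP_mc (F : Set (Set (ℕ → ℕ))) (h : DetBorel F) : MeasurableSpace C where
  MeasurableSet' := fun P => InB F P
  measurableSet_empty := by
    intro f _
    simpa using h.isOpen ∅ isOpen_empty
  measurableSet_compl := by
    intro P hP f hf
    simpa using h.compl _ (hP f hf)
  measurableSet_iUnion := by
    intro P hP f hf
    simpa [Set.preimage_iUnion] using h.union (fun n => f ⁻¹' P n) (fun n => hP n f hf)

theorem STP_tail_union {S T : Set C} (hS : Tail S) (hT : Tail T) : Tail (S ∪ T) := by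
  intro x y h
  simp only [Set.mem_union, hS x y h, hT x y h]

theorem STP_tail_inter {S T : Set C} (hS : Tail S) (hT : Tail T) : Tail (S ∩ T) := by
  intro x y h
  simp only [Set.mem_inter_iff, hS x y h, hT x y h]

theorem STP_tail_diff {S T : Set C} (hS : Tail S) (hT : Tail T) : Tail (S \ T) := by
  intro x y h
  simp only [Set.mem_sdiff, hS x y h, hT x y h]

theorem STP_tail_fre {c : Pnt} (hP : Tail c.P) (hQ : Tail c.Q) (hY : Tail c.Y) : Tail (Fre c) := by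
  intro x y h
  simp only [Fre, Set.mem_ofPred_eq, hP x y h, hQ x y h, hY x y h]

theorem STP_inf {x y : C} (h : ∃ N, ∀ k, N ≤ k → x k = y k) (hx : Inf x) : Inf y := by
  obtain ⟨N, hN⟩ := h
  intro n
  obtain ⟨k, hk, hxk⟩ := hx (max n N)
  exact ⟨k, le_trans (le_max_left _ _) hk, by rw [← hN k (le_trans (le_max_right _ _) hk)]; exact hxk⟩

theorem STP_inBr {B : List ℕ → Set ℕ} {z : ℕ → ℕ} {x y : C} (h : ∃ N, ∀ k, N ≤ k → x k = y k)
    (hx : InBr B z x) : InBr B z y := by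
  obtain ⟨N, hN⟩ := h
  obtain ⟨K, hK⟩ := hx
  refine ⟨max N K, fun m hm hy => hK m (le_trans (le_max_right _ _) hm) ?_⟩
  rw [hN m (le_trans (le_max_left _ _) hm)]
  exact hy

theorem STP_aeq {x y u : C} (h : ∃ N, ∀ k, N ≤ k → x k = y k) (hx : AEq x u) : AEq y u := by
  obtain ⟨N, hN⟩ := h
  obtain ⟨K, hK⟩ := hx
  refine ⟨max N K, fun m hm => ?_⟩
  rw [← hN m (le_trans (le_max_left _ _) hm)]
  exact hK m (le_trans (le_max_right _ _) hm)

theorem STP_symm {x y : C} (h : ∃ N, ∀ k, N ≤ k → x k = y k) : ∃ N, ∀ k, N ≤ k → y k = x k := by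
  obtain ⟨N, hN⟩ := h
  exact ⟨N, fun k hk => (hN k hk).symm⟩

theorem STP_meas_aeq (f : C → C) (hf : Measurable f) : MeasurableSet {x : C | AEq x (f x)} := by
  have : {x : C | AEq x (f x)} = ⋃ N : ℕ, ⋂ k : ℕ, {x : C | N ≤ k → x k = f x k} := by
    ext x
    simp [AEq]
  rw [this]
  refine MeasurableSet.iUnion fun N => MeasurableSet.iInter fun k => ?_
  by_cases hk : N ≤ k
  · simp only [hk, forall_const]
    exact measurableSet_eq_fun (measurable_pi_apply k) ((measurable_pi_apply k).comp hf)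
  · simp [hk]

theorem p_STP (hINB : Stmt_INB) (hLVM : Stmt_LVM) (hZOF : Stmt_ZOF) (hFRM : Stmt_FRM)
    (hPAW : Stmt_PAW) : Stmt_STP := by
  intro F hF c o G hc B Φ hB hΦ
  obtain ⟨-, -, -, -, -, hBor, hPre⟩ := hINB F hF
  obtain ⟨ζ, hζm, hζ⟩ := hZOF B hB
  obtain ⟨⟨mUc, mUn, mE1, mE2⟩, ⟨tUc, tUn, tE1, tE2⟩, hInf, hdis, hE12, -, -⟩ := hFRM B hB G.γ
  -- the first good finite set
  let Wb : Finset ℕ → Set (ℕ → ℕ) := fun b => {w | Gb c o G w ↑b ∧
    ∀ b' : Finset ℕ, Encodable.encode b' < Encodable.encode b → ¬ Gb c o G w ↑b'}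
  have hWb : ∀ b, Wb b ∈ F := by
    intro b
    have h1 : ∀ b' : Finset ℕ, @MeasurableSet _ (STP_ms F hF) {w | Gb c o G w ↑b'} :=
      fun b' => hPAW F hF c o G hc b'
    have h2 : Wb b = {w | Gb c o G w ↑b} ∩ ⋂ b' : Finset ℕ,
        ({w | Encodable.encode b' < Encodable.encode b → ¬ Gb c o G w ↑b'} : Set (ℕ → ℕ)) := by
      ext w
      simp [Wb]
    have h3 : @MeasurableSet _ (STP_ms F hF) (Wb b) := by
      rw [h2]
      refine @MeasurableSet.inter _ (STP_ms F hF) _ _ (h1 b) ?_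
      refine @MeasurableSet.iInter _ _ (STP_ms F hF) _ _ fun b' => ?_
      by_cases hlt : Encodable.encode b' < Encodable.encode b
      · simp only [hlt, forall_const]
        exact @MeasurableSet.compl _ _ (STP_ms F hF) (h1 b')
      · simp only [hlt, IsEmpty.forall_iff, Set.ofPred_true]
        exact @MeasurableSet.univ _ (STP_ms F hF)
    exact h3
  let Tr : Set C := ⋃ b : Finset ℕ, {x | x ∈ Uc B G.γ ∧ Φ (ζ x) ∈ Wb b ∧
    ∃ j ∈ b, AEq x (pt (G.γ j) (ζ x))}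
  have memTr : ∀ x, x ∈ Tr ↔ ∃ b : Finset ℕ, x ∈ Uc B G.γ ∧ Φ (ζ x) ∈ Wb b ∧
    ∃ j ∈ b, AEq x (pt (G.γ j) (ζ x)) := by
    intro x
    exact Set.mem_iUnion
  have bor : ∀ P : Set C, MeasurableSet P → @MeasurableSet _ (STP_mc F hF) P :=
    fun P hP => hBor P hP
  have hTrF : @MeasurableSet _ (STP_mc F hF) Tr := by
    refine @MeasurableSet.iUnion _ _ (STP_mc F hF) _ _ fun b => ?_
    have h1 : ({x | x ∈ Uc B G.γ ∧ Φ (ζ x) ∈ Wb b ∧ ∃ j ∈ b, AEq x (pt (G.γ j) (ζ x))} : Set C) =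
        Uc B G.γ ∩ ((fun x => Φ (ζ x)) ⁻¹' Wb b ∩ ⋃ j : ℕ, ⋃ _ : j ∈ b,
          {x : C | AEq x (pt (G.γ j) (ζ x))}) := by
      ext x
      constructor
      · rintro ⟨h, h', j, hj, hA⟩
        exact ⟨h, h', Set.mem_iUnion.2 ⟨j, Set.mem_iUnion.2 ⟨hj, hA⟩⟩⟩
      · rintro ⟨h, h', h''⟩
        obtain ⟨j, hj⟩ := Set.mem_iUnion.1 h''
        obtain ⟨hj, hA⟩ := Set.mem_iUnion.1 hj
        exact ⟨h, h', j, hj, hA⟩
    rw [h1]
    refine @MeasurableSet.inter _ (STP_mc F hF) _ _ (bor _ mUc) ?_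
    refine @MeasurableSet.inter _ (STP_mc F hF) _ _
      (hPre (Wb b) (fun x => Φ (ζ x)) (hWb b) (hΦ.measurable.comp hζm)) ?_
    refine bor _ (MeasurableSet.iUnion fun j => MeasurableSet.iUnion fun _ => ?_)
    exact STP_meas_aeq _ ((hLVM.2 (G.γ j)).comp hζm)
  have hUcK : ∀ x ∈ Uc B G.γ, Inf x ∧ ∃ z, InBr B z x := fun x hx => hx.1
  have tTr : Tail Tr := by
    have key : ∀ x y : C, (∃ N, ∀ k, N ≤ k → x k = y k) → x ∈ Tr → y ∈ Tr := by
      intro x y h hx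
      obtain ⟨b, hU, hW, j, hj, hA⟩ := (memTr x).1 hx
      obtain ⟨hi, z, hz⟩ := hUcK x hU
      have e1 : ζ x = z := hζ x z hi hz
      have e2 : ζ y = z := hζ y z (STP_inf h hi) (STP_inBr h hz)
      refine (memTr y).2 ⟨b, (tUc x y h).1 hU, ?_, j, hj, ?_⟩
      · rw [e2, ← e1]; exact hW
      · rw [e2, ← e1]; exact STP_aeq h hA
    intro x y h
    exact ⟨key x y h, key y x (STP_symm h)⟩
  have hTrU : Tr ⊆ Uc B G.γ := by
    intro x hx
    obtain ⟨b, hU, -⟩ := (memTr x).1 hx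
    exact hU
  have hUnK : ∀ x ∈ Un B G.γ, x ∉ Uc B G.γ := fun x hx hU => hx.1 hU.1
  have tFre : Tail (Fre c) := STP_tail_fre hc.tP hc.tQ hc.tY
  have mFre : @MeasurableSet _ (STP_mc F hF) (Fre c) := by
    have h1 : Fre c = c.Pᶜ ∩ (c.Qᶜ ∩ c.Yᶜ) := by
      ext x
      simp [Fre]
    rw [h1]
    exact @MeasurableSet.inter _ (STP_mc F hF) _ _ (@MeasurableSet.compl _ _ (STP_mc F hF) hc.fP)
      (@MeasurableSet.inter _ (STP_mc F hF) _ _ (@MeasurableSet.compl _ _ (STP_mc F hF) hc.fQ)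
        (@MeasurableSet.compl _ _ (STP_mc F hF) hc.fY))
  -- the new condition
  let d : Pnt := ⟨c.P ∪ (Fre c ∩ (Tr ∪ E1 B G.γ)),
    c.Q ∪ (Fre c ∩ (((Uc B G.γ \ Tr) ∪ Un B G.γ) ∪ E2 B G.γ)), c.Y, c.R⟩
  have hdP : ∀ x, x ∈ d.P ↔ x ∈ c.P ∨ (x ∈ Fre c ∧ (x ∈ Tr ∨ x ∈ E1 B G.γ)) := fun x => Iff.rfl
  have hdQ : ∀ x, x ∈ d.Q ↔ x ∈ c.Q ∨ (x ∈ Fre c ∧
      (((x ∈ Uc B G.γ ∧ x ∉ Tr) ∨ x ∈ Un B G.γ) ∨ x ∈ E2 B G.γ)) := fun x => Iff.rfl
  have hcls : ∀ x, x ∉ Fre d → x ∉ Fre c ∨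
      (x ∈ Uc B G.γ ∨ x ∈ Un B G.γ ∨ x ∈ E1 B G.γ ∨ x ∈ E2 B G.γ) := by
    intro x hx
    by_contra hcon
    push Not at hcon
    obtain ⟨h1, h2, h3, h4, h5⟩ := hcon
    apply hx
    refine ⟨?_, ?_, h1.2.2⟩
    · intro h
      rcases (hdP x).1 h with h | ⟨-, h | h⟩
      · exact h1.1 h
      · exact h2 (hTrU h)
      · exact h4 h
    · intro h
      rcases (hdQ x).1 h with h | ⟨-, (⟨h, -⟩ | h) | h⟩
      · exact h1.2.1 h
      · exact h2 h
      · exact h3 h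
      · exact h5 h
  have hP1 : c.P ⊆ d.P := fun x hx => Or.inl hx
  have hQ1 : c.Q ⊆ d.Q := fun x hx => Or.inl hx
  refine ⟨d, ?_, ⟨hP1, hQ1, fun x hx => hx, fun e => ⟨e, rfl⟩, fun e' x _ _ => ⟨e', rfl⟩⟩, rfl, rfl, ?_⟩
  · refine
      { dPQ := ?_, dPY := ?_, dQY := ?_, tP := ?_, tQ := ?_, tY := hc.tY, inf := ?_, bal := ?_,
        fP := ?_, fQ := ?_, fY := hc.fY, fR := hc.fR, sub := hc.sub, tR := hc.tR }
    · intro x hx hx'
      rcases (hdP x).1 hx with h | ⟨hf, h⟩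
      · rcases (hdQ x).1 hx' with h' | ⟨hf', -⟩
        · exact hc.dPQ x h h'
        · exact hf'.1 h
      · rcases (hdQ x).1 hx' with h' | ⟨-, (⟨hu, hn⟩ | hu) | he⟩
        · exact hf.2.1 h'
        · rcases h with h | h
          · exact hn h
          · exact (hdis x (Or.inl hu)).1 h
        · rcases h with h | h
          · exact hUnK x hu (hTrU h)
          · exact (hdis x (Or.inr hu)).1 h
        · rcases h with h | h
          · exact (hdis x (Or.inl (hTrU h))).2 he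
          · exact hE12 x h he
    · intro x hx
      rcases (hdP x).1 hx with h | ⟨hf, -⟩
      · exact hc.dPY x h
      · exact hf.2.2
    · intro x hx
      rcases (hdQ x).1 hx with h | ⟨hf, -⟩
      · exact hc.dQY x h
      · exact hf.2.2
    · exact STP_tail_union hc.tP (STP_tail_inter tFre (STP_tail_union tTr tE1))
    · exact STP_tail_union hc.tQ (STP_tail_inter tFre (STP_tail_union (STP_tail_union
        (STP_tail_diff tUc tTr) tUn) tE2))
    · intro x hx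
      rcases hcls x hx with h | h
      · exact hc.inf x h
      · exact (hInf x h).1
    · intro x hx
      rcases hcls x hx with h | h
      · obtain ⟨⟨y, hy, hs⟩, y', hy', hs'⟩ := hc.bal x h
        exact ⟨⟨y, hP1 hy, hs⟩, y', hQ1 hy', hs'⟩
      · obtain ⟨-, ⟨y, hy, hs⟩, y', hy', hs'⟩ := hInf x h
        constructor
        · by_cases hyf : y ∈ Fre c
          · exact ⟨y, (hdP y).2 (Or.inr ⟨hyf, Or.inr hy⟩), hs⟩
          · obtain ⟨⟨u, hu, hus⟩, -⟩ := hc.bal y hyf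
            exact ⟨u, hP1 hu, fun k hk => hs k (hus k hk)⟩
        · by_cases hyf : y' ∈ Fre c
          · exact ⟨y', (hdQ y').2 (Or.inr ⟨hyf, Or.inr hy'⟩), hs'⟩
          · obtain ⟨-, u, hu, hus⟩ := hc.bal y' hyf
            exact ⟨u, hQ1 hu, fun k hk => hs' k (hus k hk)⟩
    · exact @MeasurableSet.union _ (STP_mc F hF) _ _ hc.fP (@MeasurableSet.inter _ (STP_mc F hF) _ _
        mFre (@MeasurableSet.union _ (STP_mc F hF) _ _ hTrF (bor _ mE1)))
    · exact @MeasurableSet.union _ (STP_mc F hF) _ _ hc.fQ (@MeasurableSet.inter _ (STP_mc F hF) _ _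
        mFre (@MeasurableSet.union _ (STP_mc F hF) _ _ (@MeasurableSet.union _ (STP_mc F hF) _ _
          (@MeasurableSet.diff _ (STP_mc F hF) _ _ (bor _ mUc) hTrF) (bor _ mUn)) (bor _ mE2)))
  · intro z hz
    classical
    have hex : ∃ n : ℕ, ∃ b : Finset ℕ, Encodable.encode b = n ∧ Gb c o G (Φ z) ↑b := by
      obtain ⟨b, hb⟩ := hz
      exact ⟨_, b, rfl, hb⟩
    obtain ⟨b, hbe, hb⟩ := Nat.find_spec hex
    have hmin : ∀ b' : Finset ℕ, Encodable.encode b' < Encodable.encode b → ¬ Gb c o G (Φ z) ↑b' := by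
      intro b' hlt hb'
      rw [hbe] at hlt
      exact Nat.find_min hex hlt ⟨b', rfl, hb'⟩
    refine ⟨b, hb, ?_, ?_⟩
    · intro x hxU hxF hxz
      have hzx : ζ x = z := hζ x z (hUcK x hxU).1 hxz
      constructor
      · rintro ⟨j, hj, hA⟩
        refine (hdP x).2 (Or.inr ⟨hxF, Or.inl ((memTr x).2 ⟨b, hxU, ?_, j, hj, ?_⟩)⟩)
        · rw [hzx]; exact ⟨hb, hmin⟩
        · rw [hzx]; exact hA
      · intro hno
        refine (hdQ x).2 (Or.inr ⟨hxF, Or.inl (Or.inl ⟨hxU, fun hx => hno ?_⟩)⟩)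
        obtain ⟨b', -, hW, j, hj, hA⟩ := (memTr x).1 hx
        rw [hzx] at hW hA
        have hbb : b' = b := by
          apply Encodable.encode_injective
          rcases lt_trichotomy (Encodable.encode b') (Encodable.encode b) with h | h | h
          · exact absurd hW.1 (hmin b' h)
          · exact h
          · exact absurd hb (hW.2 b h)
        subst hbb
        exact ⟨j, hj, hA⟩
    · intro x hxF hxU
      exact (hdQ x).2 (Or.inr ⟨hxF, Or.inl (Or.inr hxU)⟩)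

end Pool.LF
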