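import Pool.Agent.Work.MP_f36782_lf.Interface5

set_option autoImplicit false

/-! Block STI: the stage if player I wins the auxiliary game (helper46). -/

open MeasureTheory Pool.Agent.Work.RamseyAD

namespace Pool.LF

theorem STI_refl (x : C) : AEq x x := ⟨0, fun _ _ => rfl⟩

/-- A set which does not meet the intervals of II in an infinite set is almost contained in the
intervals of I. -/
theorem STI_almost (hOWN : Stmt_OWN) (w : ℕ → ℕ) (hw : ∀ N, ∃ i, N ≤ len w i) (y : C)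
    (h : ¬ Hit y (own 1 w)) : ∃ n, ∀ k, n ≤ k → y k = true → k ∈ own 0 w := by
  classical
  by_contra hcon
  push Not at hcon
  obtain ⟨x, hx⟩ : ∃ x : C, ∀ k, x k = true ↔ y k = true ∧ k ∉ own 0 w :=
    ⟨fun k => decide (y k = true ∧ k ∉ own 0 w), fun k => by rw [decide_eq_true_iff]⟩
  have h1 : Inf x := by
    intro n
    obtain ⟨k, hk, h2, h3⟩ := hcon n
    exact ⟨k, hk, (hx k).2 ⟨h2, h3⟩⟩
  have h2 : ¬ Hit x (own 1 w) := by
    intro h3
    apply h
    intro n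
    obtain ⟨k, hk, h4, h5⟩ := h3 n
    exact ⟨k, hk, ((hx k).1 h4).1, h5⟩
  obtain ⟨k, -, h4, h5⟩ := hOWN w x hw h1 h2 0
  exact ((hx k).1 h4).2 h5

theorem STI_hit (B : List ℕ → Set ℕ) (z : ℕ → ℕ) (x : C) (h1 : Inf x) (h2 : InBr B z x) :
    Hit x (Br B z) := by
  obtain ⟨K, hK⟩ := h2
  intro n
  obtain ⟨k, hk, h3⟩ := h1 (max n K)
  exact ⟨k, le_trans (le_max_left _ _) hk, h3, hK k (le_trans (le_max_right _ _) hk) h3⟩

theorem STI_same (hBRF : Stmt_BRF) (B : List ℕ → Set ℕ) (hB : Blk B) (z z' : ℕ → ℕ) (x : C)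
    (h1 : Hit x (Br B z)) (h2 : InBr B z' x) : z = z' := by
  by_contra hne
  have hfin := hBRF B hB z z' hne
  obtain ⟨K, hK⟩ := h2
  obtain ⟨M, hM⟩ := hfin.bddAbove
  obtain ⟨k, hk, h3, h4⟩ := h1 (max K (M + 1))
  have h5 : k ∈ Br B z ∩ Br B z' := ⟨h4, hK k (le_trans (le_max_left _ _) hk) h3⟩
  have h6 := hM h5
  have h7 := le_trans (le_max_right K (M + 1)) hk
  omega

/-- The closure of the promised sets is contained in the compatible set. -/
theorem STI_sub (d : Pnt) (A : Set C) (hA : Cmp A d) (S : Set C) (hS : S ⊆ A) (x : C)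
    (h : Cl d.R S x) : x ∈ A := by
  induction h with
  | base x h => exact hS h
  | step e x h hd hc ih =>
    exact (hA.cl x).2 (Cl.step e x h hd fun β hβ => (hA.cl _).1 (ih β hβ))

/-- A premise of a rule for a port is a port. -/
theorem STI_port (hLVC : Stmt_LVC) (α γ' : LMap ℕ Bool) (β : LMap Bool Bool) (z : ℕ → ℕ) (x : C)
    (hx : Inf x) (h1 : x = pt α z) (hβ : β.dom x) (h2 : γ' = β.comp α) : β.val x = pt γ' z := by
  have hdom : α.dom z := by
    by_contra hcon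
    rw [pt, if_neg hcon] at h1
    obtain ⟨k, -, hk⟩ := hx 0
    rw [h1] at hk
    exact absurd hk (by simp)
  have hx2 : x = α.val z := by
    rw [h1, pt, if_pos hdom]
  obtain ⟨-, -, l3, l4⟩ := hLVC ℕ Bool Bool α β z
  have hd2 : (β.comp α).dom z := l3.2 ⟨hdom, hx2 ▸ hβ⟩
  rw [h2, pt, if_pos hd2, l4 hd2, ← hx2]

theorem p_STI (hOWN : Stmt_OWN) (hSIC : Stmt_SIC) (hBRF : Stmt_BRF) (hFMA : Stmt_FMA)
    (hLVC : Stmt_LVC) (_ : Stmt_CLF) (hFRM : Stmt_FRM) (hSTP : Stmt_STP) : Stmt_STI := by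
  intro F hF c o G hc T hT
  obtain ⟨s, Φ, B, hB, hΦ, hs⟩ := hSIC 0 T (by norm_num)
  obtain ⟨d, hd, hle, hY, hR, hz⟩ := hSTP F hF c o G hc B Φ hB hΦ
  refine ⟨d, hd, hle, fun A hA => ⟨s, fun z hzs => ?_⟩⟩
  obtain ⟨hTw, hmv, hlen, K, hK⟩ := hs z hzs
  obtain ⟨b, hb, hU, hN⟩ := hz z (hT _ hTw)
  obtain ⟨-, -, -, -, -, hfr, -⟩ := hFRM B hB G.γ
  obtain ⟨hb1, hb2, hb3⟩ := hb
  rw [hmv] at hb2 hb3
  -- the chosen ports are in `A`
  have hport : ∀ j ∈ b, pt (G.γ j) z ∈ A := by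
    intro j hj
    obtain ⟨p1, p2, p3⟩ := hb1 hj
    rw [hmv] at p1 p2 p3
    obtain ⟨n, hn⟩ := STI_almost hOWN (Φ z) hlen _ p2
    have hbr : InBr B z (pt (G.γ j) z) := ⟨max n K, fun m hm hmt =>
      hK m (hn m (le_trans (le_max_left _ _) hm) hmt) (le_trans (le_max_right _ _) hm)⟩
    have hhit := STI_hit B z _ p1 hbr
    rcases hfr j z hhit with hu | hu
    · exact hA.subP ((hU _ hu p3 hbr).1 ⟨j, hj, STI_refl _⟩)
    · exact absurd ⟨p1, z, hbr⟩ hu.1
  have hSb : SbE G.γ z ↑b ⊆ A := by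
    rintro x ⟨j, hj, N, hN⟩
    exact (hA.tail x _ ⟨N, hN⟩).2 (hport j hj)
  have hfst : o.fst z A := by
    obtain ⟨n, hn1, hn2⟩ := hb2
    refine ⟨n, hn1, fun i hi => ?_⟩
    have h1 : Cl c.R (c.P ∪ SbE G.γ z ↑b) (pt (o.α i) z) := hn2 i hi
    rw [← hR] at h1
    exact STI_sub d A hA _ (Set.union_subset (hle.1.trans hA.subP) hSb) _ h1
  -- the ports in `A`
  have hclaim : ∀ x, Cl d.R (A \ d.Y) x → ∀ i, x = pt (G.γ i) z →
      Cl c.R (c.P ∪ SbE G.γ z ↑b ∪ SbE G.γ z (PuE c G.γ 1 (Φ z))) x := by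
    intro x hx
    induction hx with
    | base x hx =>
      intro i hi
      obtain ⟨hxA, hxY⟩ := hx
      rw [hY] at hxY
      by_cases hxP : x ∈ c.P
      · exact Cl.base x (Or.inl (Or.inl hxP))
      have hxQ : x ∉ c.Q := fun h => hA.disQ x hxA (hle.2.1 h)
      have hfree : x ∈ Fre c := ⟨hxP, hxQ, hxY⟩
      have hinf := hA.inf x hxA
      by_cases hh : Hit x (own 0 (Φ z))
      · have hhit : Hit x (Br B z) := by
          intro n
          obtain ⟨k, hk, h1, h2⟩ := hh (max n K)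
          exact ⟨k, le_trans (le_max_left _ _) hk, h1,
            hK k h2 (le_trans (le_max_right _ _) hk)⟩
        have hcase : x ∈ Uc B G.γ ∨ x ∈ Un B G.γ := by
          rw [hi] at hhit ⊢
          exact hfr i z hhit
        rcases hcase with hu | hu
        · obtain ⟨⟨-, z', hz'⟩, -⟩ := id hu
          have he := STI_same hBRF B hB z z' x hhit hz'
          rw [← he] at hz'
          by_cases hj : ∃ j ∈ b, AEq x (pt (G.γ j) z)
          · exact Cl.base x (Or.inl (Or.inr hj))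
          · exact absurd ((hU x hu hfree hz').2 hj) (hA.disQ x hxA)
        · exact absurd (hN x hfree hu) (hA.disQ x hxA)
      · refine Cl.base x (Or.inr ⟨i, ⟨?_, ?_, ?_⟩, ?_⟩)
        · rw [hmv, ← hi]
          exact hinf
        · rw [hmv, ← hi]
          exact hh
        · rw [hmv, ← hi]
          exact hfree
        · rw [hi]
          exact STI_refl _
    | step e x h hdom hcl ih =>
      intro i hi
      have hxinf : Inf x := by
        apply hc.inf x
        intro hf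
        rw [hR] at h
        exact hf.2.2 (hc.sub e h)
      have key : ∀ β ∈ (c.R e).L,
          Cl c.R (c.P ∪ SbE G.γ z ↑b ∪ SbE G.γ z (PuE c G.γ 1 (Φ z))) (β.val x) := by
        intro β hβ
        obtain ⟨j', hj'⟩ := G.clos i e β hβ
        have hβd : β ∈ (d.R e).L := by
          rw [hR]
          exact hβ
        exact ih β hβd j' (STI_port hLVC _ _ β z x hxinf hi (hdom β hβd) hj')
      rw [hR] at h hdom
      exact Cl.step e x h hdom key
  refine ⟨hfst, fun hsnd => hb3 ?_⟩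
  refine (hFMA _ _ o.φ).2 _ _ _ (fun l _ hl => ?_) hsnd
  change Cl c.R (c.P ∪ SbE G.γ z ↑b ∪ SbE G.γ z (PuE c G.γ 1 (Φ z))) (pt (o.α l) z)
  exact hclaim _ ((hA.cl _).1 hl) (G.ι l) (by rw [G.base])

end Pool.LF
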