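import Pool.Agent.Work.MP_f36782_lf.Interface

set_option autoImplicit false

/-! Block OWN: every number is in an interval of one of the two players. -/

open MeasureTheory Pool.Agent.Work.RamseyAD

namespace Pool.LF

theorem OWN_mem (z : ℕ → ℕ) (hz : ∀ N, ∃ i, N ≤ len z i) (m : ℕ) : m ∈ own 0 z ∨ m ∈ own 1 z := by
  classical
  have hex : ∃ i, m < len z i := by
    obtain ⟨i, hi⟩ := hz (m + 1)
    exact ⟨i, hi⟩
  have h0 : len z 0 = 0 := by simp [len]
  have hs : m < len z (Nat.find hex) := Nat.find_spec hex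
  have hpos : Nat.find hex ≠ 0 := by
    intro h
    rw [h, h0] at hs
    exact absurd hs (Nat.not_lt_zero _)
  obtain ⟨i, hi⟩ := Nat.exists_eq_succ_of_ne_zero hpos
  have hlow : len z i ≤ m := by
    have := Nat.find_min hex (m := i) (by omega)
    omega
  have hup : m < len z (i + 1) := by
    rw [hi] at hs
    exact hs
  rcases Nat.mod_two_eq_zero_or_one i with h | h
  · exact Or.inl ⟨i, h, hlow, hup⟩
  · exact Or.inr ⟨i, h, hlow, hup⟩

theorem p_OWN : Stmt_OWN := by
  intro z x hz hx h1 n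
  unfold Hit at h1
  push Not at h1
  obtain ⟨n₁, hn₁⟩ := h1
  obtain ⟨k, hk, hxk⟩ := hx (max n n₁)
  refine ⟨k, le_trans (le_max_left _ _) hk, hxk, ?_⟩
  rcases OWN_mem z hz k with h | h
  · exact h
  · exact absurd h (hn₁ k (le_trans (le_max_right _ _) hk) hxk)

end Pool.LF
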