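import Pool.Agent.Work.MP_f36782_lf.Interface3

set_option autoImplicit false

/-! # MP_f36782_lc, THEOREM LF, part K: assembly -/

open MeasureTheory Pool.Agent.Work.RamseyAD

namespace Pool.LF

theorem dmd_bool {I : Type} (h : Dmd I) : Dmd (I × Bool) := by
  intro ρ
  obtain ⟨g, hg⟩ := h fun i n => max (ρ (i, false) n) (ρ (i, true) n)
  refine ⟨g, ?_⟩
  rintro ⟨i, b⟩
  obtain ⟨N, hN⟩ := hg i
  refine ⟨N, fun n hn => ?_⟩
  cases b
  · exact (le_max_left _ _).trans (hN n hn)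
  · exact (le_max_right _ _).trans (hN n hn)

theorem dmd_inj {I : Type} (h : Dmd I) : ∃ r : I → (ℕ → ℕ), Function.Injective r := by
  classical
  by_contra hcon
  -- then there is an injection of the functions into `I`
  have h1 : ∃ e : (ℕ → ℕ) → I, Function.Injective e := by
    rcases le_total (Cardinal.mk I) (Cardinal.mk (ℕ → ℕ)) with h2 | h2
    · obtain ⟨r⟩ := h2
      exact absurd ⟨r, r.injective⟩ hcon
    · obtain ⟨e⟩ := h2
      exact ⟨e, e.injective⟩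
  obtain ⟨e, he⟩ := h1
  obtain ⟨g, hg⟩ := h fun i => if hi : ∃ f, e f = i then hi.choose else fun _ => 0
  obtain ⟨N, hN⟩ := hg (e fun n => g n + 1)
  have h3 := hN N le_rfl
  have h4 : ∃ f, e f = e fun n => g n + 1 := ⟨_, rfl⟩
  rw [dif_pos h4, he h4.choose_spec] at h3
  dsimp only at h3
  omega

theorem fin3_main (hONF : Stmt_ONF) (hPOF : Stmt_POF) (hCMP : Stmt_CMP) (F : Set (Set (ℕ → ℕ)))
    (hF : DetAlgebra F) (T : Type) (hT : Dmd T)
    (S : T → Set C → Set (ℕ → ℕ)) (hS : ∀ t, Positive F (S t)) (A₀ : Set C) :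
    ∃ A : Set C, (∀ t, Determined (S t A) ∧ Determined (S t A)ᶜ) ∧ (Tail A₀ → Tail A) ∧
      ∀ X, Inf X → ∃ Y, Inf Y ∧ Sub Y X ∧ ∀ x, Inf x → Sub x Y → (x ∈ A ↔ x ∈ A₀) := by
  classical
  let sh : (ℕ → ℕ) → (ℕ → ℕ) := fun z n => z (n + 1)
  have hsh : Continuous sh := by fun_prop
  have h1 : ∀ t : T × Bool, ∃ φ : Fm F CM, ∀ A,
      (if t.2 then sh ⁻¹' (S t.1 A) else S t.1 A) =
        {z | φ.tr (fun k => z ∈ k.1) (fun f => f.1 z ∈ A)} := by
    rintro ⟨t, b⟩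
    cases b
    · exact (hPOF F hF (S t) (hS t)).1
    · exact (hPOF F hF _ ((hPOF F hF (S t) (hS t)).2 sh hsh)).1
  choose φ hφ using h1
  obtain ⟨A, hA1, hA2, hA3⟩ := hONF F hF (T × Bool) (dmd_bool hT) (dmd_inj (dmd_bool hT)) φ A₀
  refine ⟨A, fun t => ⟨?_, ?_⟩, hA2, fun X hX => ?_⟩
  · have h4 := hA1 (t, false)
    rw [← hφ (t, false) A] at h4
    simpa using h4
  · have h4 := hA1 (t, true)
    rw [← hφ (t, true) A] at h4
    exact hCMP (S t A) (by simpa using h4)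
  · obtain ⟨Y, h5, h6, h7⟩ := hA3 X hX
    exact ⟨Y, h5, h6, fun x hx hs => h7 x hx ⟨0, fun k _ => hs k⟩⟩

end Pool.LF
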