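import Pool.Agent.Work.MP_f36782_lf.Interface4
import Pool.Agent.Work.MP_f36782_lf.Final3

set_option autoImplicit false

/-! # MP_f36782_lc, THEOREM LF, part L: assembly -/

open MeasureTheory Pool.Agent.Work.RamseyAD

namespace Pool.LF

/-- The operation `S` is given by ports and a truth function which can be decided. -/
def Rep (F : Set (Set (ℕ → ℕ))) (E₀ : C → C → Prop) (S : Op) : Prop :=
  ∃ (g : ℕ → MM) (Ψ : (ℕ → ℕ) → Set ℕ → Prop), Ref F E₀ g Ψ ∧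
    ∀ A, S A = {z | Ψ z {j | (g j).1 z ∈ A}}

/-- The operations allowed in part (2). -/
def Adm (F : Set (Set (ℕ → ℕ))) (S : Op) : Prop :=
  PosOp F Measurable S ∨ Combo (OpenPos F Measurable) S ∨
    (ProjClosed F ∧ Combo (PosOp F Measurable) S)

theorem fin4_pos (hPFM : Stmt_PFM) (hENP : Stmt_ENP) (hRFP : Stmt_RFP) (F : Set (Set (ℕ → ℕ)))
    (hF : DetAlgebra F) (E₀ : C → C → Prop) (hE : EqR E₀) (S : Op) (hS : PosOp F Measurable S) :
    Rep F E₀ S := by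
  obtain ⟨φ, hφ⟩ := hPFM F S hS
  obtain ⟨g, hg⟩ := hENP F 1 (fun _ => φ)
  refine ⟨g, trP g φ, hRFP F hF E₀ hE g φ, fun A => ?_⟩
  rw [hφ A]
  ext z
  exact hg 0 A z

theorem fin4_bool (hCNF : Stmt_CNF) (hENU : Stmt_ENU) (hRFB : Stmt_RFB) (F : Set (Set (ℕ → ℕ)))
    (hF : DetAlgebra F) (E₀ : C → C → Prop) (hE : EqR E₀) (S : Op)
    (hS : Combo (OpenPos F Measurable) S) : Rep F E₀ S := by
  obtain ⟨k, V, h, hV, hA⟩ := hCNF _ S hS
  obtain ⟨g, D, N, hD, hg⟩ := hENU F k V hV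
  refine ⟨g, _, hRFB F hF E₀ hE k h g D N hD, fun A => ?_⟩
  rw [hA A]
  ext z
  have h1 : {l | z ∈ V l A} =
      {l | ∃ n, z ∈ D l n ∧ ∀ j ∈ N l n, j ∈ {j | (g j).1 z ∈ A}} := by
    ext l
    exact hg l A z
  show h {l | z ∈ V l A} ↔ h {l | ∃ n, z ∈ D l n ∧ ∀ j ∈ N l n, j ∈ {j | (g j).1 z ∈ A}}
  rw [h1]

theorem fin4_proj (hCNF : Stmt_CNF) (hPFM : Stmt_PFM) (hENP : Stmt_ENP) (hRFU : Stmt_RFU)
    (F : Set (Set (ℕ → ℕ))) (hF : DetAlgebra F) (hP : ProjClosed F) (E₀ : C → C → Prop)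
    (hE : EqR E₀) (S : Op) (hS : Combo (PosOp F Measurable) S) : Rep F E₀ S := by
  obtain ⟨k, V, h, hV, hA⟩ := hCNF _ S hS
  choose φ hφ using fun l => hPFM F (V l) (hV l)
  obtain ⟨g, hg⟩ := hENP F k φ
  refine ⟨g, _, hRFU F hF hP E₀ hE k h g φ, fun A => ?_⟩
  rw [hA A]
  ext z
  have h1 : {l | z ∈ V l A} = {l | trP g (φ l) z {j | (g j).1 z ∈ A}} := by
    ext l
    show z ∈ V l A ↔ _
    rw [hφ l A]
    exact hg l A z
  show h {l | z ∈ V l A} ↔ h {l | trP g (φ l) z {j | (g j).1 z ∈ A}}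
  rw [h1]

theorem fin4_sh {F : Set (Set (ℕ → ℕ))} (hF : DetAlgebra F) {S : Op}
    (hS : PosOp F Measurable S) (g : (ℕ → ℕ) → (ℕ → ℕ)) (hg : Continuous g) :
    PosOp F Measurable (fun A => g ⁻¹' (S A)) := by
  induction hS with
  | const S h => exact PosOp.const _ (hF.preimage S h g hg)
  | pre f h => exact PosOp.pre (fun z => f (g z)) (h.comp hg.measurable)
  | union S h ih =>
    have h1 : (fun A => g ⁻¹' (⋃ n, S n A)) = fun A => ⋃ n, g ⁻¹' (S n A) := by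
      funext A
      exact Set.preimage_iUnion
    rw [h1]
    exact PosOp.union (fun n A => g ⁻¹' (S n A)) ih
  | inter S h ih =>
    have h1 : (fun A => g ⁻¹' (⋂ n, S n A)) = fun A => ⋂ n, g ⁻¹' (S n A) := by
      funext A
      exact Set.preimage_iInter
    rw [h1]
    exact PosOp.inter (fun n A => g ⁻¹' (S n A)) ih

theorem fin4_cont {F : Set (Set (ℕ → ℕ))} {S : Op} (hS : PosOp F Continuous S) : Positive F S := by
  induction hS with
  | const S h => exact Positive.const S h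
  | pre f h => exact Positive.pre f h
  | union S h ih => exact Positive.union S ih
  | inter S h ih => exact Positive.inter S ih

/-- Part (2) of the theorem. -/
theorem fin4_main (hCNF : Stmt_CNF) (hPFM : Stmt_PFM) (hENU : Stmt_ENU) (hENP : Stmt_ENP)
    (hEQB : Stmt_EQB) (hRFP : Stmt_RFP) (hRFB : Stmt_RFB) (hRFU : Stmt_RFU) (hONB : Stmt_ONB)
    (hCMP : Stmt_CMP) (F : Set (Set (ℕ → ℕ))) (hF : DetAlgebra F) (T : Type) (hT : Dmd T)
    (S : T → Op) (hS : ∀ t, Adm F (S t)) (A₀ : Set C) :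
    ∃ A : Set C, (∀ t, Determined (S t A) ∧ Determined (S t A)ᶜ) ∧ (Tail A₀ → Tail A) ∧
      ∀ X, Inf X → ∃ Y, Inf Y ∧ Sub Y X ∧ ∀ x, Inf x → Sub x Y → (x ∈ A ↔ x ∈ A₀) := by
  classical
  obtain ⟨E₀, hE, hA0, hAt⟩ : ∃ E₀ : C → C → Prop, EqR E₀ ∧
      (∀ y y', E₀ y y' → y ∈ A₀ → y' ∈ A₀) ∧
      (Tail A₀ → ∀ x y : C, AEq x y → E₀ x y) := by
    by_cases h : Tail A₀
    · exact ⟨AEq, hEQB.2, fun y y' h1 h2 => (h y y' h1).1 h2, fun _ _ _ h1 => h1⟩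
    · exact ⟨fun x y => x = y, hEQB.1, fun y y' h1 h2 => h1 ▸ h2, fun h1 => absurd h1 h⟩
  let sh : (ℕ → ℕ) → (ℕ → ℕ) := fun z n => z (n + 1)
  have hsh : Continuous sh := by fun_prop
  have h1 : ∀ t : T × Bool, ∃ S' : Op, Rep F E₀ S' ∧ ∀ A, Determined (S' A) →
      Determined (if t.2 then (S t.1 A)ᶜ else S t.1 A) := by
    rintro ⟨t, b⟩
    cases b
    · refine ⟨S t, ?_, fun A h => by simpa using h⟩
      rcases hS t with h | h | h
      · exact fin4_pos hPFM hENP hRFP F hF E₀ hE _ h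
      · exact fin4_bool hCNF hENU hRFB F hF E₀ hE _ h
      · exact fin4_proj hCNF hPFM hENP hRFU F hF h.1 E₀ hE _ h.2
    · rcases hS t with h | h | h
      · exact ⟨fun A => sh ⁻¹' (S t A), fin4_pos hPFM hENP hRFP F hF E₀ hE _ (fin4_sh hF h sh hsh),
          fun A h => by simpa using hCMP (S t A) h⟩
      · exact ⟨fun A => (S t A)ᶜ, fin4_bool hCNF hENU hRFB F hF E₀ hE _ (Combo.compl _ h),
          fun A h => by simpa using h⟩
      · exact ⟨fun A => (S t A)ᶜ, fin4_proj hCNF hPFM hENP hRFU F hF h.1 E₀ hE _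
          (Combo.compl _ h.2), fun A h => by simpa using h⟩
  choose S' hS' hD using h1
  choose g Ψ hR hS'' using hS'
  obtain ⟨A, hA1, hA2, hA3⟩ := hONB F hF E₀ hE (T × Bool) (dmd_bool hT) (dmd_inj (dmd_bool hT))
    g Ψ hR A₀ hA0
  refine ⟨A, fun t => ⟨?_, ?_⟩, fun h => ?_, hA3⟩
  · have h4 := hD (t, false) A (by rw [hS'' (t, false) A]; exact hA1 (t, false))
    simpa using h4
  · have h4 := hD (t, true) A (by rw [hS'' (t, true) A]; exact hA1 (t, true))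
    simpa using h4
  · have h5 := hAt h
    intro x y hxy
    have h6 : AEq x y := hxy
    exact ⟨hA2 x y (h5 x y h6), hA2 y x (hE.equiv.symm (h5 x y h6))⟩

/-- A tail set which is not Ramsey. -/
theorem fin4_tail (hBRN : Stmt_BRN) (P : Set C → Prop)
    (h : ∀ A₀ : Set C, ∃ A : Set C, P A ∧ (Tail A₀ → Tail A) ∧
      ∀ X, Inf X → ∃ Y, Inf Y ∧ Sub Y X ∧ ∀ x, Inf x → Sub x Y → (x ∈ A ↔ x ∈ A₀)) :
    ∃ A : Set C, Tail A ∧ ¬ Ramsey A ∧ P A := by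
  obtain ⟨Z, hZ1, hZ2, hZ3⟩ := hBRN
  obtain ⟨A, h1, h2, h3⟩ := h Z
  refine ⟨A, h2 hZ1, ?_, h1⟩
  rintro ⟨H, hH, hA⟩
  obtain ⟨Y, hY, hYH, hAZ⟩ := h3 H hH
  obtain ⟨⟨x, hx, hxY⟩, ⟨y, hy, hyY, hyZ⟩⟩ := hZ3 Y hY
  have hxi := hZ2 x hx
  have tr : ∀ u : C, Sub u Y → Sub u H := fun u hu k hk => hYH k (hu k hk)
  rcases hA with hA | hA
  · exact hyZ ((hAZ y hy hyY).1 (hA y hy (tr y hyY)))
  · exact hA x hxi (tr x hxY) ((hAZ x hxi hxY).2 hx)

end Pool.LF
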