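import Pool.Agent.Work.MP_f36782_lf.Interface5
import Pool.Agent.Work.MP_f36782_lf.Final4

set_option autoImplicit false

/-! # MP_f36782_lc, THEOREM LF, part M: assembly -/

open MeasureTheory Pool.Agent.Work.RamseyAD

namespace Pool.LF

/-- The stage. -/
theorem fin5_stage (hENG : Stmt_ENG) (hPAW : Stmt_PAW) (hSTI : Stmt_STI) (hSTJ : Stmt_STJ)
    (F : Set (Set (ℕ → ℕ))) (hF : DetBorel F) (c : Pnt) (hc : Cok F c) (o : OpD F) :
    ∃ d : Pnt, Cok F d ∧ c.Le d ∧ ∀ A, Cmp A d → Determined (o.op A) := by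
  classical
  obtain ⟨G⟩ := hENG F c o
  let W : Set (ℕ → ℕ) := ⋃ n : ℕ, {w | ∃ b : Finset ℕ, Encodable.decode n = some b ∧ Gb c o G w ↑b}
  have hW : W ∈ F := by
    refine hF.union _ fun n => ?_
    rcases h : (Encodable.decode n : Option (Finset ℕ)) with _ | b
    · have h1 : {w : ℕ → ℕ | ∃ b : Finset ℕ, (none : Option (Finset ℕ)) = some b ∧
          Gb c o G w ↑b} = ∅ := by
        ext w
        simp
      rw [h1]
      exact hF.isOpen _ isOpen_empty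
    · have h1 : {w : ℕ → ℕ | ∃ b' : Finset ℕ, (some b : Option (Finset ℕ)) = some b' ∧
          Gb c o G w ↑b'} = {w | Gb c o G w ↑b} := by
        ext w
        constructor
        · rintro ⟨b', h2, h3⟩
          cases h2
          exact h3
        · intro h2
          exact ⟨b, rfl, h2⟩
      rw [h1]
      exact hPAW F hF c o G hc b
  have hmem : ∀ w, w ∈ W ↔ ∃ b : Finset ℕ, Gb c o G w ↑b := by
    intro w
    constructor
    · intro h
      obtain ⟨n, b, -, h2⟩ := Set.mem_iUnion.1 h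
      exact ⟨b, h2⟩
    · rintro ⟨b, hb⟩
      exact Set.mem_iUnion.2 ⟨Encodable.encode b, b, Encodable.encodek b, hb⟩
  rcases hF.det W hW with ⟨σ, hσ⟩ | ⟨τ, hτ⟩
  · obtain ⟨d, h1, h2, h3⟩ := hSTI F hF c o G hc σ (fun w hw => (hmem w).1
      (hσ w fun n => hw (2 * n) (by omega)))
    refine ⟨d, h1, h2, fun A hA => Or.inl ?_⟩
    obtain ⟨s, hs⟩ := h3 A hA
    refine ⟨s, fun z hz => hs z fun i hi => ?_⟩
    obtain ⟨n, rfl⟩ : ∃ n, i = 2 * n := ⟨i / 2, by omega⟩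
    exact hz n
  · obtain ⟨d, h1, h2, h3⟩ := hSTJ F hF c o G hc τ (fun w hw b hb =>
      hτ w (fun n => hw (2 * n + 1) (by omega)) ((hmem w).2 ⟨b, hb⟩))
    refine ⟨d, h1, h2, fun A hA => Or.inr ?_⟩
    obtain ⟨s, hs⟩ := h3 A hA
    refine ⟨s, fun z hz => hs z fun i hi => ?_⟩
    obtain ⟨n, rfl⟩ : ∃ n, i = 2 * n + 1 := ⟨i / 2, by omega⟩
    exact hz n

theorem fin5_le_refl (c : Pnt) : c.Le c :=
  ⟨fun _ h => h, fun _ h => h, fun _ h => h, fun e => ⟨e, rfl⟩, fun e' _ _ _ => ⟨e', rfl⟩⟩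

theorem fin5_le_trans (c d f : Pnt) (h1 : c.Le d) (h2 : d.Le f) : c.Le f := by
  obtain ⟨a1, a2, a3, a4, a5⟩ := h1
  obtain ⟨b1, b2, b3, b4, b5⟩ := h2
  refine ⟨fun x h => b1 (a1 h), fun x h => b2 (a2 h), fun x h => b3 (a3 h), fun e => ?_,
    fun e' x hx hY => ?_⟩
  · obtain ⟨e', he'⟩ := a4 e
    obtain ⟨e'', he''⟩ := b4 e'
    exact ⟨e'', he''.trans he'⟩
  · obtain ⟨e, he⟩ := b5 e' x hx (a3 hY)
    obtain ⟨e0, he0⟩ := a5 e x (by rw [he]; exact hx) hY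
    exact ⟨e0, he0.trans he⟩

/-- The empty condition. -/
def fin5_bot : Pnt := ⟨∅, ∅, ∅, fun _ => ⟨∅, []⟩⟩

theorem fin5_bot_ok (F : Set (Set (ℕ → ℕ))) (hF : DetBorel F) : Cok F fin5_bot := by
  have h0 : ∀ x : C, x ∈ Fre fin5_bot := fun x =>
    ⟨Set.notMem_empty x, Set.notMem_empty x, Set.notMem_empty x⟩
  have hE : InB F (∅ : Set C) := by
    intro f _
    rw [Set.preimage_empty]
    exact hF.isOpen _ isOpen_empty
  have hT : Tail (∅ : Set C) := fun x y _ => by simp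
  exact
    { dPQ := fun x h => absurd h (Set.notMem_empty x)
      dPY := fun x h => absurd h (Set.notMem_empty x)
      dQY := fun x h => absurd h (Set.notMem_empty x)
      tP := hT
      tQ := hT
      tY := hT
      inf := fun x h => absurd (h0 x) h
      bal := fun x h => absurd (h0 x) h
      fP := hE
      fQ := hE
      fY := hE
      fR := fun _ => hE
      sub := fun _ x h => absurd h (Set.notMem_empty x)
      tR := fun _ _ _ x _ _ h => absurd h.1 (Set.notMem_empty x) }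

theorem fin5_aux (hENG : Stmt_ENG) (hPAW : Stmt_PAW) (hSTI : Stmt_STI) (hSTJ : Stmt_STJ)
    (hLIC : Stmt_LIC) (hCHN : Stmt_CHN) (hFNA : Stmt_FNA) (F : Set (Set (ℕ → ℕ)))
    (hF : DetBorel F) (T : Type) (hT : Cardinal.mk T ≤ Cardinal.aleph 1) (o : T → OpD F) :
    ∃ A : Set C, Tail A ∧ ¬ Ramsey A ∧ ∀ t, Determined ((o t).op A) := by
  let Pt : Type := {c : Pnt // Cok F c}
  obtain ⟨g, hg, hch⟩ := hCHN Pt (fun c d => c.1.Le d.1) ⟨fin5_bot, fin5_bot_ok F hF⟩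
    (fun c => fin5_le_refl c.1) (fun c d f => fin5_le_trans c.1 d.1 f.1)
    (fun c hc => by
      obtain ⟨d, h1, h2⟩ := hLIC F hF (fun n => (c n).1) (fun n => (c n).2) hc
      exact ⟨⟨d, h1⟩, h2⟩)
    T (fun t => {c | ∀ A, Cmp A c.1 → Determined ((o t).op A)}) hT
    (fun t c => by
      obtain ⟨d, h1, h2, h3⟩ := fin5_stage hENG hPAW hSTI hSTJ F hF c.1 c.2 (o t)
      exact ⟨⟨d, h1⟩, h3, h2⟩)
  obtain ⟨A, hA1, hA2, hA3⟩ := hFNA F T (fun t => (g t).1) (fun t => (g t).2) hch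
  exact ⟨A, hA1, hA2, fun t => hg t A (hA3 t)⟩

theorem fin5_shC {F : Set (Set (ℕ → ℕ))} (hF : DetBorel F) {S : Op}
    (hS : PosOp F Continuous S) (g : (ℕ → ℕ) → (ℕ → ℕ)) (hg : Continuous g) :
    PosOp F Continuous (fun A => g ⁻¹' (S A)) := by
  induction hS with
  | const S h => exact PosOp.const _ (hF.preimage S h g hg.measurable)
  | pre f h => exact PosOp.pre (fun z => f (g z)) (h.comp hg)
  | union S h ih =>
    have h1 : (fun A => g ⁻¹' (⋃ n, S n A)) = fun A => ⋃ n, g ⁻¹' (S n A) := by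
      funext A
      exact Set.preimage_iUnion
    rw [h1]
    exact PosOp.union (fun n A => g ⁻¹' (S n A)) ih
  | inter S h ih =>
    have h1 : (fun A => g ⁻¹' (⋂ n, S n A)) = fun A => ⋂ n, g ⁻¹' (S n A) := by
      funext A
      exact Set.preimage_iInter
    rw [h1]
    exact PosOp.inter (fun n A => g ⁻¹' (S n A)) ih

theorem fin5_diff {F : Set (Set (ℕ → ℕ))} (hF : DetBorel F) {S : Op}
    (hS : Diff F Continuous S) (g : (ℕ → ℕ) → (ℕ → ℕ)) (hg : Continuous g) :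
    Diff F Continuous (fun A => g ⁻¹' (S A)) := by
  obtain ⟨V, V', ⟨D, L, hDL, hV⟩, hV', hA⟩ := hS
  refine ⟨fun A => g ⁻¹' (V A), fun A => g ⁻¹' (V' A),
    ⟨fun n => g ⁻¹' (D n), fun n => (L n).map fun f => f ∘ g, fun n => ⟨?_, ?_⟩, fun A => ?_⟩,
    fin5_shC hF hV' g hg, fun A => ?_⟩
  · exact hF.preimage _ (hDL n).1 g hg.measurable
  · intro f hf
    obtain ⟨f', hf', rfl⟩ := List.mem_map.1 hf
    exact ((hDL n).2 f' hf').comp hg
  · ext z
    have h1 : z ∈ g ⁻¹' (V A) ↔ ∃ n, g z ∈ D n ∧ ∀ f ∈ L n, f (g z) ∈ A := by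
      rw [Set.mem_preimage, hV A]
      rfl
    rw [h1]
    constructor
    · rintro ⟨n, h2, h3⟩
      refine ⟨n, h2, fun f hf => ?_⟩
      obtain ⟨f', hf', rfl⟩ := List.mem_map.1 hf
      exact h3 f' hf'
    · rintro ⟨n, h2, h3⟩
      exact ⟨n, h2, fun f hf => h3 (f ∘ g) (List.mem_map.2 ⟨f, hf, rfl⟩)⟩
  · show g ⁻¹' (S A) = _
    rw [hA A]
    rfl

theorem fin5_pos {F : Set (Set (ℕ → ℕ))} (hF : DetBorel F) {S : Op}
    (hS : PosOp F Continuous S) : Diff F Continuous (fun A => (S A)ᶜ) := by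
  refine ⟨fun _ => Set.univ, S, ⟨fun _ => Set.univ, fun _ => [], fun n => ⟨?_, ?_⟩, fun A => ?_⟩, hS,
    fun A => ?_⟩
  · exact hF.isOpen _ isOpen_univ
  · intro f hf
    exact absurd hf (List.not_mem_nil)
  · ext z
    simp
  · ext z
    simp

/-- Part (1) of the theorem for differences. -/
theorem fin5_dif (hENG : Stmt_ENG) (hPAW : Stmt_PAW) (hSTI : Stmt_STI) (hSTJ : Stmt_STJ)
    (hLIC : Stmt_LIC) (hCHN : Stmt_CHN) (hFNA : Stmt_FNA) (hDNF : Stmt_DNF) (hCMP : Stmt_CMP)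
    (F : Set (Set (ℕ → ℕ))) (hF : DetBorel F) (T : Type)
    (hT : Cardinal.mk T ≤ Cardinal.aleph 1) (S : T → Op) (hS : ∀ t, Diff F Continuous (S t)) :
    ∃ A : Set C, Tail A ∧ ¬ Ramsey A ∧ ∀ t, Determined (S t A) ∧ Determined (S t A)ᶜ := by
  classical
  let sh : (ℕ → ℕ) → (ℕ → ℕ) := fun z n => z (n + 1)
  have hsh : Continuous sh := by fun_prop
  have h1 : ∀ t : T × Bool, ∃ o : OpD F, ∀ A,
      (if t.2 then sh ⁻¹' (S t.1 A) else S t.1 A) = o.op A := by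
    rintro ⟨t, b⟩
    cases b
    · exact hDNF F (S t) (hS t)
    · exact hDNF F _ (fin5_diff hF (hS t) sh hsh)
  choose o ho using h1
  have hT2 : Cardinal.mk (T × Bool) ≤ Cardinal.aleph 1 := by
    have h2 : Cardinal.mk (T × Bool) = Cardinal.mk T * Cardinal.mk Bool := by simp
    rw [h2]
    have h3 : Cardinal.mk Bool ≤ Cardinal.aleph 1 :=
      (Cardinal.mk_le_aleph0 (α := Bool)).trans (Cardinal.aleph0_le_aleph 1)
    exact (mul_le_mul' hT h3).trans (Cardinal.mul_eq_self (Cardinal.aleph0_le_aleph 1)).le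
  obtain ⟨A, hA1, hA2, hA3⟩ := fin5_aux hENG hPAW hSTI hSTJ hLIC hCHN hFNA F hF (T × Bool) hT2 o
  refine ⟨A, hA1, hA2, fun t => ⟨?_, ?_⟩⟩
  · have h4 := hA3 (t, false)
    rw [← ho (t, false) A] at h4
    simpa using h4
  · have h4 := hA3 (t, true)
    rw [← ho (t, true) A] at h4
    exact hCMP (S t A) (by simpa using h4)

/-- Part (1) of the theorem. -/
theorem fin5_main (hENG : Stmt_ENG) (hPAW : Stmt_PAW) (hSTI : Stmt_STI) (hSTJ : Stmt_STJ)
    (hLIC : Stmt_LIC) (hCHN : Stmt_CHN) (hFNA : Stmt_FNA) (hDNF : Stmt_DNF) (hCMP : Stmt_CMP)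
    (F : Set (Set (ℕ → ℕ))) (hF : DetBorel F) (T : Type)
    (hT : Cardinal.mk T ≤ Cardinal.aleph 1) (S : T → Op)
    (hS : ∀ t, PosOp F Continuous (S t) ∨ Diff F Continuous (S t)) :
    ∃ A : Set C, Tail A ∧ ¬ Ramsey A ∧ ∀ t, Determined (S t A) ∧ Determined (S t A)ᶜ := by
  classical
  have h1 : ∀ t, ∃ S' : Op, Diff F Continuous S' ∧
      ∀ A, (Determined (S' A) ∧ Determined (S' A)ᶜ) → Determined (S t A) ∧ Determined (S t A)ᶜ := by
    intro t
    rcases hS t with h | h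
    · refine ⟨_, fin5_pos hF h, fun A hA => ⟨?_, hA.1⟩⟩
      simpa using hA.2
    · exact ⟨S t, h, fun A hA => hA⟩
  choose S' hS' hD using h1
  obtain ⟨A, hA1, hA2, hA3⟩ := fin5_dif hENG hPAW hSTI hSTJ hLIC hCHN hFNA hDNF hCMP F hF T hT S' hS'
  exact ⟨A, hA1, hA2, fun t => hD t A (hA3 t)⟩

end Pool.LF
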