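import Pool.Agent.Work.MP_f36782_lf.Interface7

set_option autoImplicit false

/-! # Block BFR: Borel operations are given by Borel formulas -/

open MeasureTheory Pool.Agent.Work.RamseyAD

namespace Pool.LF

/-- Replacement of the atoms. -/
def BFR_ren {F : Set (Set (ℕ → ℕ))} (e : ℕ → ℕ) : Bf F → Bf F
  | .base S => .base S
  | .atom j => .atom (e j)
  | .neg φ => .neg (BFR_ren e φ)
  | .uni φ => .uni (fun n => BFR_ren e (φ n))

theorem BFR_tr {F : Set (Set (ℕ → ℕ))} (e : ℕ → ℕ) (φ : Bf F) (z : ℕ → ℕ) (T : Set ℕ) :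
    (BFR_ren e φ).tr z T ↔ φ.tr z {j | e j ∈ T} := by
  induction φ with
  | base S => exact Iff.rfl
  | atom j => exact Iff.rfl
  | neg φ ih => exact not_congr ih
  | uni φ ih => exact exists_congr fun n => ih n

/-- Block BFR. -/
theorem p_BFR : Stmt_BFR := by
  intro F S hS
  induction hS with
  | const S h => exact ⟨fun _ => ⟨fun _ _ => false, measurable_const⟩, .base ⟨S, h⟩, fun A => rfl⟩
  | pre f h => exact ⟨fun _ => ⟨f, h⟩, .atom 0, fun A => rfl⟩
  | compl S _ ih =>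
    obtain ⟨g, φ, h⟩ := ih
    refine ⟨g, .neg φ, fun A => ?_⟩
    show (S A)ᶜ = _
    rw [h A]
    rfl
  | union S _ ih =>
    choose g φ h using ih
    refine ⟨fun m => g (Nat.unpair m).1 (Nat.unpair m).2,
      .uni (fun n => BFR_ren (Nat.pair n) (φ n)), fun A => ?_⟩
    ext z
    show z ∈ (⋃ n, S n A) ↔ ∃ n, (BFR_ren (Nat.pair n) (φ n)).tr z
      {j | (g (Nat.unpair j).1 (Nat.unpair j).2).1 z ∈ A}
    rw [Set.mem_iUnion]
    refine exists_congr fun n => ?_
    rw [BFR_tr, h n A]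
    have h1 : {j | Nat.pair n j ∈ {j : ℕ | (g (Nat.unpair j).1 (Nat.unpair j).2).1 z ∈ A}}
        = {j | (g n j).1 z ∈ A} := by
      ext j
      show (g (Nat.unpair (Nat.pair n j)).1 (Nat.unpair (Nat.pair n j)).2).1 z ∈ A ↔ _
      rw [Nat.unpair_pair]
      exact Iff.rfl
    rw [h1]
    exact Iff.rfl

end Pool.LF
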