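import Pool.Agent.Work.MP_f36782_lf.Interface7

set_option autoImplicit false

/-! Block BGM: Borel formulas of the naming game are in the class. -/

open MeasureTheory Pool.Agent.Work.RamseyAD

namespace Pool.LF

theorem BGM_mv : Measurable mv :=
  measurable_pi_iff.mpr fun i =>
    (measurable_of_countable fun n : ℕ => (Nat.unpair n).1).comp (measurable_pi_apply i)

theorem BGM_nm (c' : (ℕ → ℕ) → (ℕ → ℕ)) (hc' : Continuous c') (p i : ℕ) :
    MeasurableSet {u | i ∈ nm p (c' u)} := by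
  have h : {u | i ∈ nm p (c' u)} = ⋃ n : ℕ, {u | n % 2 = p} ∩ {u | c' u n = i + 1} := by
    ext u
    rw [Set.mem_iUnion]
    rfl
  rw [h]
  exact MeasurableSet.iUnion fun n => (MeasurableSet.const (n % 2 = p)).inter
    (measurableSet_eq_fun ((measurable_pi_apply n).comp hc'.measurable) measurable_const)

theorem BGM_atom (hPUM : Stmt_PUM) (E₀ : C → C → Prop) (hE : EqR E₀) (g : ℕ → MM)
    (c c' : (ℕ → ℕ) → (ℕ → ℕ)) (hc : Continuous c) (hc' : Continuous c') (j : ℕ) :
    MeasurableSet {u | j ∈ Ts E₀ g (c u) (c' u)} := by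
  have h : {u | j ∈ Ts E₀ g (c u) (c' u)} =
      ⋃ i : ℕ, (({u | i ∈ nm 0 (c' u)} ∩ {u | i ∈ Pu 0 g (c u)}) ∪
        ({u | i ∈ nm 1 (c' u)} ∩ {u | i ∈ Pu 1 g (c u)})) ∩
        {u | E₀ ((g i).1 (mv (c u))) ((g j).1 (mv (c u)))} := by
    ext u
    rw [Set.mem_iUnion]
    rfl
  rw [h]
  refine MeasurableSet.iUnion fun i => ?_
  refine MeasurableSet.inter (MeasurableSet.union ?_ ?_) ?_
  · exact (BGM_nm c' hc' 0 i).inter (hc.measurable (hPUM g 0 i))
  · exact (BGM_nm c' hc' 1 i).inter (hc.measurable (hPUM g 1 i))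
  · exact hE.meas (fun u => (g i).1 (mv (c u))) (fun u => (g j).1 (mv (c u)))
      ((g i).2.comp (BGM_mv.comp hc.measurable)) ((g j).2.comp (BGM_mv.comp hc.measurable))

theorem p_BGM (hFIN : Stmt_FIN) (hPUM : Stmt_PUM) : Stmt_BGM := by
  intro F hF E₀ hE g φ c c' hc hc'
  induction φ with
  | base S =>
    have hmv : Continuous mv := continuous_pi (fun i =>
      (continuous_of_discreteTopology (f := fun a : ℕ => (Nat.unpair a).1)).comp
        (continuous_apply i))
    exact hF.preimage S.1 S.2 (fun u => mv (c u)) (hmv.comp hc)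
  | atom j => exact (hFIN F hF).1 _ (BGM_atom hPUM E₀ hE g c c' hc hc' j)
  | neg φ ih => exact hF.compl _ ih
  | uni φ ih =>
    have h := hF.union _ ih
    have h2 : {u | (Bf.uni φ).tr (mv (c u)) (Ts E₀ g (c u) (c' u))} =
        ⋃ n, {u | (φ n).tr (mv (c u)) (Ts E₀ g (c u) (c' u))} := by
      ext u
      rw [Set.mem_iUnion]
      rfl
    rw [h2]
    exact h

end Pool.LF
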