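import Pool.Agent.Work.MP_f36782_lf.Interface

set_option autoImplicit false

/-!
# MP_f36782_lc, block CMP: complements (typed by helper55)
-/

open MeasureTheory Pool.Agent.Work.RamseyAD

namespace Pool.LF

/-- The sequence `m, y 0, y 1, ..`. -/
def CMP_cons (m : ℕ) (y : ℕ → ℕ) : ℕ → ℕ
  | 0 => m
  | (n + 1) => y n

theorem CMP_hist (m : ℕ) (y : ℕ → ℕ) (n : ℕ) :
    hist (CMP_cons m y) (n + 1) = m :: hist y n := by
  unfold hist
  rw [List.range_succ_eq_map, List.map_cons, List.map_map]
  rfl

theorem p_CMP : Stmt_CMP := by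
  intro S h
  rcases h with ⟨σ, hσ⟩ | ⟨τ, hτ⟩
  · right
    refine ⟨fun l => σ (σ [] :: l), fun y hy => ?_⟩
    have h1 := hσ (CMP_cons (σ []) y) (by
      intro n
      rcases n with _ | k
      · rfl
      · have e : 2 * (k + 1) = (2 * k + 1) + 1 := by ring
        rw [e, CMP_hist]
        exact hy k)
    have h2 : y ∈ S := h1
    exact fun h3 => h3 h2
  · left
    refine ⟨fun l => τ (0 :: l), fun y hy => ?_⟩
    have h1 := hτ (CMP_cons 0 y) (by
      intro n
      rw [CMP_hist]
      exact hy n)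
    intro h2
    exact h1 h2

end Pool.LF
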