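import Pool.Agent.Work.MP_f36782_lf.Interface4

set_option autoImplicit false

open MeasureTheory Pool.Agent.Work.RamseyAD

namespace Pool.LF

/-- Block CNF: normal form of a Boolean combination. -/
theorem p_CNF : Stmt_CNF := by
  intro G S hS
  induction hS with
  | of S h =>
    refine ⟨1, fun _ => S, fun B => (0 : Fin 1) ∈ B, fun _ => h, fun A => ?_⟩
    ext z
    simp
  | compl S _ ih =>
    obtain ⟨k, V, h, hG, hA⟩ := ih
    refine ⟨k, V, fun B => ¬ h B, hG, fun A => ?_⟩
    ext z
    show z ∉ S A ↔ _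
    rw [hA A]
    simp
  | inter S S' _ _ ih ih' =>
    obtain ⟨k, V, h, hG, hA⟩ := ih
    obtain ⟨k', V', h', hG', hA'⟩ := ih'
    refine ⟨k + k', Fin.append V V',
      fun B => h {l | Fin.castAdd k' l ∈ B} ∧ h' {l | Fin.natAdd k l ∈ B}, ?_, fun A => ?_⟩
    · intro l
      refine Fin.addCases (fun i => ?_) (fun i => ?_) l
      · rw [Fin.append_left]; exact hG i
      · rw [Fin.append_right]; exact hG' i
    · ext z
      show (z ∈ S A ∧ z ∈ S' A) ↔ _
      rw [hA A, hA' A]
      simp only [Set.mem_setOf_eq, Fin.append_left, Fin.append_right]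

end Pool.LF
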