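import Pool.Agent.Work.MP_f36782_lf.Interface4

/-! Block ENP (helper90): enumeration of the atoms of finitely many formulas. -/

set_option autoImplicit false

open MeasureTheory Pool.Agent.Work.RamseyAD

namespace Pool.LF

theorem p_ENP (hFMA : Stmt_FMA) : Stmt_ENP := by
  intro F k φ
  let f₀ : MM := ⟨fun _ _ => false, measurable_const⟩
  let S : Set MM := insert f₀ (⋃ l, (φ l).at)
  have hS : S.Countable := (Set.countable_iUnion fun l => (hFMA F MM (φ l)).1).insert f₀
  obtain ⟨g, hg⟩ := hS.exists_eq_range ⟨f₀, Set.mem_insert _ _⟩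
  refine ⟨g, fun l A z => ?_⟩
  have hat : ∀ f ∈ (φ l).at, ∃ j, g j = f := by
    intro f hf
    have h1 : f ∈ S := Set.mem_insert_of_mem _ (Set.mem_iUnion.2 ⟨l, hf⟩)
    rw [hg] at h1
    exact h1
  constructor
  · intro h
    refine (hFMA F MM (φ l)).2 _ _ _ ?_ h
    intro f hf hfA
    obtain ⟨j, hj⟩ := hat f hf
    refine ⟨j, ?_, hj⟩
    change (g j).1 z ∈ A
    rw [hj]
    exact hfA
  · intro h
    refine (hFMA F MM (φ l)).2 _ _ _ ?_ h
    rintro f - ⟨j, hj, rfl⟩
    exact hj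

end Pool.LF
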