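import Pool.Agent.Work.MP_f36782_lf.Interface4

/-!
# MP_f36782_lc, THEOREM LF, part L, block ENU: enumeration of the maps in open positive operations
-/

set_option autoImplicit false

open MeasureTheory Pool.Agent.Work.RamseyAD

namespace Pool.LF

theorem p_ENU : Stmt_ENU := by
  intro F k V hV
  classical
  choose D L hDL hVA using hV
  obtain ⟨c0⟩ : Nonempty MM := ⟨⟨fun _ _ => false, measurable_const⟩⟩
  obtain ⟨a, ha⟩ : ∃ a : Fin k × ℕ × ℕ → MM, ∀ (l : Fin k) (n i : ℕ) (hi : i < (L l n).length),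
      (a (l, n, i)).1 = (L l n)[i] := by
    refine ⟨fun p => if hi : p.2.2 < (L p.1 p.2.1).length then
      ⟨(L p.1 p.2.1)[p.2.2], (hDL p.1 p.2.1).2 _ (List.getElem_mem hi)⟩ else c0, ?_⟩
    intro l n i hi
    simp only [hi, dite_true]
  have hg : ∀ (l : Fin k) (n i : ℕ) (hi : i < (L l n).length),
      ((Encodable.decode (Encodable.encode ((l, n, i) : Fin k × ℕ × ℕ)) :
        Option (Fin k × ℕ × ℕ)).elim c0 a).1 = (L l n)[i] := by
    intro l n i hi
    rw [Encodable.encodek, Option.elim_some]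
    exact ha l n i hi
  refine ⟨fun j => (Encodable.decode j : Option (Fin k × ℕ × ℕ)).elim c0 a, D,
    fun l n => (Finset.range (L l n).length).image
      (fun i => Encodable.encode ((l, n, i) : Fin k × ℕ × ℕ)), fun l n => (hDL l n).1, ?_⟩
  intro l A z
  rw [hVA l A]
  refine exists_congr fun n => and_congr_right fun _ => ?_
  constructor
  · intro h j hj
    obtain ⟨i, hi, rfl⟩ := Finset.mem_image.1 hj
    rw [Finset.mem_range] at hi
    rw [hg l n i hi]
    exact h _ (List.getElem_mem hi)
  · intro h f hf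
    obtain ⟨i, hi, rfl⟩ := List.getElem_of_mem hf
    have h1 := h (Encodable.encode ((l, n, i) : Fin k × ℕ × ℕ))
      (Finset.mem_image.2 ⟨i, Finset.mem_range.2 hi, rfl⟩)
    rw [hg l n i hi] at h1
    exact h1

end Pool.LF
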