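import Pool.Agent.Work.MP_f36782_lf.Interface4

set_option autoImplicit false

open MeasureTheory Pool.Agent.Work.RamseyAD

namespace Pool.LF

theorem EQB_coord (f f' : (ℕ → ℕ) → C) (hf : Measurable f) (hf' : Measurable f') (k : ℕ) :
    MeasurableSet {z | f z k = f' z k} := by
  have h1 : Measurable (fun z => f z k) := (measurable_pi_apply k).comp hf
  have h2 : Measurable (fun z => f' z k) := (measurable_pi_apply k).comp hf'
  have h3 : Measurable (fun z => (f z k, f' z k)) := h1.prodMk h2
  exact h3 (MeasurableSet.of_discrete (s := {p : Bool × Bool | p.1 = p.2}))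

theorem p_EQB : Stmt_EQB := by
  refine ⟨⟨eq_equivalence, ?_, ?_⟩, ⟨⟨?_, ?_, ?_⟩, fun _ _ h => h, ?_⟩⟩
  · intro x y h
    exact ⟨0, fun k _ => congrFun h k⟩
  · intro f f' hf hf'
    have h : {z | f z = f' z} = ⋂ k : ℕ, {z | f z k = f' z k} := by
      ext z
      simp only [Set.mem_setOf_eq, Set.mem_iInter]
      exact funext_iff
    rw [h]
    exact MeasurableSet.iInter (EQB_coord f f' hf hf')
  · intro x
    exact ⟨0, fun k _ => rfl⟩
  · rintro x y ⟨N, hN⟩
    exact ⟨N, fun k hk => (hN k hk).symm⟩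
  · rintro x y z ⟨N, hN⟩ ⟨N', hN'⟩
    exact ⟨max N N', fun k hk => (hN k (le_trans (le_max_left _ _) hk)).trans
      (hN' k (le_trans (le_max_right _ _) hk))⟩
  · intro f f' hf hf'
    have h : {z | AEq (f z) (f' z)} =
        ⋃ N : ℕ, ⋂ k : ℕ, ⋂ _ : N ≤ k, {z | f z k = f' z k} := by
      ext z
      simp only [Set.mem_setOf_eq, Set.mem_iUnion, Set.mem_iInter]
      exact Iff.rfl
    rw [h]
    exact MeasurableSet.iUnion fun N => MeasurableSet.iInter fun k => MeasurableSet.iInter
      fun _ => EQB_coord f f' hf hf' k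

end Pool.LF
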