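import Pool.Agent.Work.MP_f36782_lf.Interface3

set_option autoImplicit false

/-!
Block FDM: a fast growing sequence for a dominated family.
-/

open MeasureTheory Pool.Agent.Work.RamseyAD

namespace Pool.LF

theorem p_FDM : Stmt_FDM := by
  classical
  intro I hI ρ
  obtain ⟨h', hh'⟩ := hI fun i n =>
    (Finset.range (n + 1)).powerset.sup fun S => ρ i (S.sort (· ≤ ·))
  let g : ℕ → ℕ := fun n => Nat.rec 0 (fun _ r => h' r + r + 1) n
  have hgs : ∀ n, g (n + 1) = h' (g n) + g n + 1 := fun n => rfl
  have hg : StrictMono g := strictMono_nat_of_lt_succ fun n => by rw [hgs]; omega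
  refine ⟨g, hg, fun i => ?_⟩
  obtain ⟨N, hN⟩ := hh' i
  refine ⟨N + 1, fun k hk j hj => ?_⟩
  obtain ⟨m, hm⟩ : ∃ m, k j = m + 1 := ⟨k j - 1, by omega⟩
  have hmono : StrictMono fun a => g (k a) := hg.comp hk
  set L : List ℕ := hist (fun a => g (k a)) j with hL
  have hsorted : L.Pairwise (· ≤ ·) := by
    rw [hL, hist, List.pairwise_map]
    exact (List.pairwise_lt_range (n := j)).imp fun h => (hmono h).le
  have hnd : L.Nodup := by
    rw [hL, hist]
    exact List.Nodup.map hmono.injective List.nodup_range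
  have hsort : L.toFinset.sort (· ≤ ·) = L := (List.toFinset_sort (· ≤ ·) hnd).2 hsorted
  have hsub : L.toFinset ∈ (Finset.range (g m + 1)).powerset := by
    rw [Finset.mem_powerset]
    intro a ha
    rw [List.mem_toFinset, hL, hist, List.mem_map] at ha
    obtain ⟨b, hb, rfl⟩ := ha
    rw [List.mem_range] at hb
    have h1 : k b < k j := hk hb
    have h2 : g (k b) ≤ g m := hg.monotone (by omega)
    simp only [Finset.mem_range]
    exact Nat.lt_succ_of_le h2
  have h1 : ρ i L ≤ (Finset.range (g m + 1)).powerset.sup fun S => ρ i (S.sort (· ≤ ·)) := by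
    have := Finset.le_sup (f := fun S : Finset ℕ => ρ i (S.sort (· ≤ ·))) hsub
    rwa [hsort] at this
  have h2 : m ≤ g m := hg.le_apply
  have h3 := hN (g m) (by omega)
  rw [hm, hgs]
  omega

end Pool.LF
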