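import Pool.Agent.Work.MP_f36782_lf.Interface7

set_option autoImplicit false

/-!
# MP_f36782_lc, THEOREM LF, part P: block GST
-/

open MeasureTheory Pool.Agent.Work.RamseyAD

namespace Pool.LF

theorem GST_card {k : ℕ} (T : Set (Fin k)) : T.ncard ≤ k := by
  have h := Set.ncard_le_ncard (Set.subset_univ T) Set.finite_univ
  rwa [Set.ncard_univ, Nat.card_fin] at h

theorem GST_lt {k : ℕ} {T T' : Set (Fin k)} (h : T ⊆ T') (hne : T ≠ T') : T.ncard < T'.ncard :=
  Set.ncard_lt_ncard (lt_of_le_of_ne h hne) (Set.toFinite T')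

theorem p_GST (hZER : Stmt_ZER) : Stmt_GST := by
  intro k v h J J' hv hQh hstart
  obtain ⟨Q, hQdef⟩ : ∃ Q : Set (Set ℕ), Q = {s | s.Finite} := ⟨_, rfl⟩
  have hQ0 : ∅ ∈ Q := by
    rw [hQdef]
    exact Set.finite_empty
  have hQ : ∀ s ∈ Q, ∀ t, s ⊆ t → ∃ s' ∈ Q, s ⊆ s' ∧ s' ⊆ t ∧ v s' = v t := by
    intro s hs t hst
    rw [hQdef] at hs
    obtain ⟨s', h1, h2, h3, h4⟩ := hQh s hs t hst
    exact ⟨s', by rw [hQdef]; exact h1, h2, h3, h4⟩
  rw [← hQdef] at hstart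
  replace hstart : ∃ s ∈ Q, s ⊆ J ∧ Lw (fun s => h (v s)) J J' Q k s := by
    obtain ⟨s, h1, h2, h3⟩ := hstart
    exact ⟨s, by rw [hQdef]; exact h1, h2, h3⟩
  set Φ : Set ℕ → Prop := fun s => h (v s) with hΦ
  have hZ := (hZER k v h J J' Q hv hQ0).1
  have ha : ∀ s, (∀ n, Lw Φ J J' Q n s) → ∀ s' ∈ Q, s ⊆ s' → s' \ s ⊆ J' → ¬ Φ s' →
      ∃ s'' ∈ Q, s' ⊆ s'' ∧ s'' \ s' ⊆ J ∧ ∀ n, Lw Φ J J' Q n s'' := by
    intro s hs s' hs' hss hJ' hn
    obtain ⟨s'', h1, h2, h3, h4⟩ := (hs (k + 1)).2 s' hs' hss hJ' hn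
    exact ⟨s'', h1, h2, h3, hZ s'' h4⟩
  let Sy : Set ℕ → Set ℕ → Prop := fun a b => a ⊆ J' ∧ b ⊆ J ∧ Φ (a ∪ b) ∧
    ∃ s ∈ Q, (∀ n, Lw Φ J J' Q n s) ∧ b ⊆ s ∧ s ⊆ a ∪ b
  have claim : ∀ (a' : Set ℕ), a' ⊆ J' → ∀ (d : ℕ) (b : Set ℕ), b ⊆ J →
      (∃ s ∈ Q, (∀ n, Lw Φ J J' Q n s) ∧ b ⊆ s ∧ s ⊆ a' ∪ b) →
      k - (v (a' ∪ b)).ncard ≤ d → ∃ b', b ⊆ b' ∧ Sy a' b' := by
    intro a' ha' d
    induction d with
    | zero =>
      intro b hb hs hd
      by_cases hP : Φ (a' ∪ b)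
      · exact ⟨b, le_rfl, ha', hb, hP, hs⟩
      · exfalso
        obtain ⟨s, hsQ, hsL, hbs, hsb⟩ := hs
        obtain ⟨s', hs'Q, hss', hs'b, hvs'⟩ := hQ s hsQ (a' ∪ b) hsb
        have h1 : s' \ s ⊆ J' := by
          rintro x ⟨hx, hxs⟩
          rcases hs'b hx with h2 | h2
          · exact ha' h2
          · exact absurd (hbs h2) hxs
        have h2 : ¬ Φ s' := by
          show ¬ h (v s')
          rw [hvs']
          exact hP
        obtain ⟨s'', hs''Q, hss'', hJ, hL⟩ := ha s hsL s' hs'Q hss' h1 h2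
        have h3 : Φ s'' := hL 0
        have h4 : (v s').ncard < (v s'').ncard := GST_lt (hv hss'') (fun he => h2 (by
          show h (v s')
          rw [he]
          exact h3))
        have h5 := GST_card (v s'')
        rw [hvs'] at h4
        omega
    | succ d ih =>
      intro b hb hs hd
      by_cases hP : Φ (a' ∪ b)
      · exact ⟨b, le_rfl, ha', hb, hP, hs⟩
      · obtain ⟨s, hsQ, hsL, hbs, hsb⟩ := hs
        obtain ⟨s', hs'Q, hss', hs'b, hvs'⟩ := hQ s hsQ (a' ∪ b) hsb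
        have h1 : s' \ s ⊆ J' := by
          rintro x ⟨hx, hxs⟩
          rcases hs'b hx with h2 | h2
          · exact ha' h2
          · exact absurd (hbs h2) hxs
        have h2 : ¬ Φ s' := by
          show ¬ h (v s')
          rw [hvs']
          exact hP
        obtain ⟨s'', hs''Q, hss'', hJ, hL⟩ := ha s hsL s' hs'Q hss' h1 h2
        have h3 : Φ s'' := hL 0
        have h4 : (v s').ncard < (v s'').ncard := GST_lt (hv hss'') (fun he => h2 (by
          show h (v s')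
          rw [he]
          exact h3))
        have h6 : s'' ⊆ a' ∪ (b ∪ s'' \ s') := by
          intro x hx
          by_cases hxs : x ∈ s'
          · rcases hs'b hxs with h7 | h7
            · exact Or.inl h7
            · exact Or.inr (Or.inl h7)
          · exact Or.inr (Or.inr ⟨hx, hxs⟩)
        have h7 : (v s'').ncard ≤ (v (a' ∪ (b ∪ s'' \ s'))).ncard :=
          Set.ncard_le_ncard (hv h6) (Set.toFinite _)
        rw [hvs'] at h4
        obtain ⟨b', hb', hSy⟩ := ih (b ∪ s'' \ s') (Set.union_subset hb hJ)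
          ⟨s'', hs''Q, hL, Set.union_subset ((hbs.trans hss').trans hss'') Set.sdiff_subset, h6⟩
          (by omega)
        exact ⟨b', Set.subset_union_left.trans hb', hSy⟩
  refine ⟨Sy, fun a b => (v (a ∪ b)).ncard, k, ⟨?_, ?_, ?_, ?_, ?_⟩, ?_⟩
  · intro a b hab
    exact hab.2.1
  · obtain ⟨s, hsQ, hsJ, hsL⟩ := hstart
    have hL := hZ s hsL
    refine ⟨s, Set.empty_subset _, hsJ, ?_, s, hsQ, hL, le_rfl, Set.subset_union_right⟩
    rw [Set.empty_union]
    exact hL 0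
  · intro a b a' hSy haa ha' hn
    obtain ⟨-, hbJ, hP, s, hsQ, hsL, hbs, hsb⟩ := hSy
    have hsb' : s ⊆ a' ∪ b := hsb.trans (Set.union_subset_union_left b haa)
    have hn' : ¬ Φ (a' ∪ b) := fun h1 => hn ⟨ha', hbJ, h1, s, hsQ, hsL, hbs, hsb'⟩
    obtain ⟨b', hbb, hSy'⟩ := claim a' ha' _ b hbJ ⟨s, hsQ, hsL, hbs, hsb'⟩ le_rfl
    refine ⟨b', hbb, hSy', ?_⟩
    have h1 : (v (a ∪ b)).ncard < (v (a' ∪ b)).ncard :=
      GST_lt (hv (Set.union_subset_union_left b haa)) (fun he => hn' (by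
        show h (v (a' ∪ b))
        rw [← he]
        exact hP))
    exact lt_of_lt_of_le h1
      (Set.ncard_le_ncard (hv (Set.union_subset_union_right a' hbb)) (Set.toFinite _))
  · intro a b
    exact GST_card _
  · intro a b hSy _
    exact hSy.2.2.1
  · intro a b hmono hab
    obtain ⟨s', hs'f, -, hs's, hvs⟩ := hQh ∅ Set.finite_empty ((⋃ n, a n) ∪ b)
      (Set.empty_subset _)
    obtain ⟨n, hn⟩ : ∃ n, s' ⊆ a n ∪ b := by
      have key : ∀ u : Set ℕ, u.Finite → u ⊆ (⋃ n, a n) ∪ b → ∃ n, u ⊆ a n ∪ b := by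
        intro u hu
        refine Set.Finite.induction_on u hu (fun _ => ⟨0, Set.empty_subset _⟩) ?_
        intro x u _ _ ih hxu
        obtain ⟨n, hn⟩ := ih ((Set.subset_insert x u).trans hxu)
        rcases hxu (Set.mem_insert x u) with h1 | h1
        · obtain ⟨m, hm⟩ := Set.mem_iUnion.mp h1
          refine ⟨max n m, Set.insert_subset (Or.inl (hmono (le_max_right n m) hm)) ?_⟩
          exact hn.trans (Set.union_subset_union_left b (hmono (le_max_left n m)))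
        · exact ⟨n, Set.insert_subset (Or.inr h1) hn⟩
      exact key s' hs'f hs's
    have h1 : v (a n ∪ b) = v ((⋃ n, a n) ∪ b) := by
      refine le_antisymm (hv (Set.union_subset_union_left b (Set.subset_iUnion a n))) ?_
      rw [← hvs]
      exact hv hn
    have h2 : Φ (a n ∪ b) := (hab n).2.2.2.1
    show h (v ((⋃ n, a n) ∪ b))
    rw [← h1]
    exact h2

end Pool.LF
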