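import Pool.Agent.Work.MP_f36782_lf.Interface4
import Pool.Agent.Work.MP_f36782_lf.B_PAF

set_option autoImplicit false

/-! # Block MEF: the game with finite positions is in the class -/

open MeasureTheory Pool.Agent.Work.RamseyAD

namespace Pool.LF

section gen

variable {α : Type} [MeasurableSpace α]

theorem MEF_sub {J : α → Set ℕ} (hJ : ∀ j, Measurable fun w => j ∈ J w) (A : Set ℕ) :
    Measurable fun w => A ⊆ J w :=
  Measurable.forall fun j => measurable_const.imp (hJ j)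

theorem MEF_bool {k : ℕ} (h : Set (Fin k) → Prop) {P : Fin k → α → Prop}
    (hP : ∀ l, Measurable (P l)) : Measurable fun w => h {l | P l w} := by
  have h1 : (fun w => h {l | P l w}) =
      fun w => ∃ B : Set (Fin k), h B ∧ ∀ l, (l ∈ B ↔ P l w) := by
    funext w
    apply propext
    constructor
    · intro hw
      exact ⟨_, hw, fun l => Iff.rfl⟩
    · rintro ⟨B, hB, hl⟩
      have h2 : B = {l | P l w} := Set.ext hl
      rwa [← h2]
  rw [h1]
  exact Measurable.exists fun B =>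
    measurable_const.and (Measurable.forall fun l => measurable_const.iff (hP l))

theorem MEF_Lw {Φ : Set ℕ → α → Prop} {J J' : α → Set ℕ} (hΦ : ∀ s, Measurable (Φ s))
    (hJ : ∀ j, Measurable fun w => j ∈ J w) (hJ' : ∀ j, Measurable fun w => j ∈ J' w) (n : ℕ) :
    ∀ s : Set ℕ, Measurable fun w => Lw (fun s => Φ s w) (J w) (J' w) {s | s.Finite} n s := by
  induction n with
  | zero =>
    intro s
    exact hΦ s
  | succ n ih =>
    intro s
    have h1 : (fun w => Lw (fun s => Φ s w) (J w) (J' w) {s | s.Finite} (n + 1) s) =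
        fun w => Φ s w ∧ ∀ t : Finset ℕ, s ⊆ (t : Set ℕ) → (t : Set ℕ) \ s ⊆ J' w →
          ¬ Φ (t : Set ℕ) w → ∃ t' : Finset ℕ, (t : Set ℕ) ⊆ (t' : Set ℕ) ∧
            (t' : Set ℕ) \ (t : Set ℕ) ⊆ J w ∧
            Lw (fun s => Φ s w) (J w) (J' w) {s | s.Finite} n (t' : Set ℕ) := by
      funext w
      apply propext
      constructor
      · rintro ⟨h1, h2⟩
        refine ⟨h1, fun t ht ht' ht'' => ?_⟩
        obtain ⟨s'', hs, h3, h4, h5⟩ := h2 (t : Set ℕ) t.finite_toSet ht ht' ht''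
        obtain ⟨t', rfl⟩ := Set.Finite.exists_finset_coe (show s''.Finite from hs)
        exact ⟨t', h3, h4, h5⟩
      · rintro ⟨h1, h2⟩
        refine ⟨h1, fun s' hs' ht ht' ht'' => ?_⟩
        obtain ⟨t, rfl⟩ := Set.Finite.exists_finset_coe (show s'.Finite from hs')
        obtain ⟨t', h3, h4, h5⟩ := h2 t ht ht' ht''
        exact ⟨(t' : Set ℕ), t'.finite_toSet, h3, h4, h5⟩
    rw [h1]
    exact (hΦ s).and (Measurable.forall fun t => measurable_const.imp ((MEF_sub hJ' _).imp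
      ((hΦ _).not.imp (Measurable.exists fun t' => measurable_const.and
        ((MEF_sub hJ _).and (ih _))))))

theorem MEF_top {Φ : Set ℕ → α → Prop} {J J' : α → Set ℕ} (hΦ : ∀ s, Measurable (Φ s))
    (hJ : ∀ j, Measurable fun w => j ∈ J w) (hJ' : ∀ j, Measurable fun w => j ∈ J' w) (n : ℕ) :
    MeasurableSet {w | ∃ s : Set ℕ, s.Finite ∧ s ⊆ J w ∧
      Lw (fun s => Φ s w) (J w) (J' w) {s | s.Finite} n s} := by
  have h1 : {w | ∃ s : Set ℕ, s.Finite ∧ s ⊆ J w ∧
      Lw (fun s => Φ s w) (J w) (J' w) {s | s.Finite} n s} =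
      {w | ∃ t : Finset ℕ, (t : Set ℕ) ⊆ J w ∧
        Lw (fun s => Φ s w) (J w) (J' w) {s | s.Finite} n (t : Set ℕ)} := by
    ext w
    constructor
    · rintro ⟨s, hs, h2, h3⟩
      obtain ⟨t, rfl⟩ := hs.exists_finset_coe
      exact ⟨t, h2, h3⟩
    · rintro ⟨t, h2, h3⟩
      exact ⟨(t : Set ℕ), t.finite_toSet, h2, h3⟩
  rw [h1]
  exact measurableSet_setOf.2 (Measurable.exists fun t =>
    (MEF_sub hJ _).and (MEF_Lw hΦ hJ hJ' n _))

end gen

/-- The sets in `F` as measurable sets. -/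
def MEF_ms {F : Set (Set (ℕ → ℕ))} (hF : DetAlgebra F) : MeasurableSpace (ℕ → ℕ) where
  MeasurableSet' S := S ∈ F
  measurableSet_empty := hF.isOpen _ isOpen_empty
  measurableSet_compl := hF.compl
  measurableSet_iUnion := hF.union

theorem p_MEF (h1 : Stmt_FIN) (h2 : Stmt_PUM) : Stmt_MEF := by
  intro F hF E₀ hE k h g D N hD
  have hm : ∀ p : (ℕ → ℕ) → Prop, {w | p w} ∈ F → @Measurable _ _ (MEF_ms hF) _ p :=
    fun p hp => (@measurableSet_setOf _ (MEF_ms hF) p).1 hp
  have hcst : ∀ c : Prop, {_z : ℕ → ℕ | c} ∈ F := fun c =>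
    PAF_disc hF (fun _ => ()) continuous_const (fun _ => c)
  have hN : ∀ (l : Fin k) (s : Set ℕ), @Measurable _ _ (MEF_ms hF) _
      (fun w => ∃ n, mv w ∈ D l n ∧ ∀ j ∈ N l n, j ∈ clo (ER E₀ g (mv w)) s) := by
    intro l s
    apply hm
    refine PAF_ex hF fun n => PAF_and hF (hF.preimage _ (hD l n) mv PAF_mv)
      (PAF_all hF fun j => ?_)
    by_cases hj : j ∈ N l n
    · have h3 : {z : ℕ → ℕ | j ∈ N l n → j ∈ clo (ER E₀ g (mv z)) s} =
          {z | ∃ i, i ∈ s ∧ ER E₀ g (mv z) i j} := by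
        ext z
        constructor
        · intro hz
          exact hz hj
        · intro hz _
          exact hz
      rw [h3]
      exact PAF_ex hF fun i => PAF_and hF (hcst (i ∈ s))
        (hF.preimage _ ((h1 F hF).1 _ (hE.meas _ _ (g i).2 (g j).2)) mv PAF_mv)
    · have h3 : {z : ℕ → ℕ | j ∈ N l n → j ∈ clo (ER E₀ g (mv z)) s} = {_z : ℕ → ℕ | True} := by
        ext z
        exact ⟨fun _ => trivial, fun _ h4 => absurd h4 hj⟩
      rw [h3]
      exact hcst True
  exact @MEF_top _ (MEF_ms hF)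
    (fun s w => h {l | ∃ n, mv w ∈ D l n ∧ ∀ j ∈ N l n, j ∈ clo (ER E₀ g (mv w)) s})
    (fun w => Pu 0 g w) (fun w => Pu 1 g w)
    (fun s => @MEF_bool _ (MEF_ms hF) k h _ (fun l => hN l s))
    (fun j => hm _ ((h1 F hF).1 _ (h2 g 0 j))) (fun j => hm _ ((h1 F hF).1 _ (h2 g 1 j))) k

end Pool.LF
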