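import Pool.Agent.Work.MP_f36782_lf.Interface7

set_option autoImplicit false

/-! # Block NEU: all naming games simultaneously -/

open MeasureTheory Pool.Agent.Work.RamseyAD

namespace Pool.LF

theorem NEU_hist_succ (z : ℕ → ℕ) (n : ℕ) : hist z (n + 1) = hist z n ++ [z n] := by
  simp [hist, List.range_succ]

theorem NEU_hist_length (z : ℕ → ℕ) (n : ℕ) : (hist z n).length = n := by simp [hist]

theorem NEU_getD (z : ℕ → ℕ) (n i j : ℕ) :
    (hist z n).getD i 0 = j + 1 ↔ i < n ∧ z i = j + 1 := by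
  by_cases h : i < n
  · rw [List.getD_eq_getElem _ _ (by rwa [NEU_hist_length])]
    simp [hist, h]
  · rw [List.getD_eq_default _ _ (by rw [NEU_hist_length]; omega)]
    constructor
    · intro h1
      omega
    · intro h1
      exact absurd h1.1 h

/-- The true points at a moment. -/
def NEU_T (E₀ : C → C → Prop) {K : Type} (p : K → ℕ) (x : K → ℕ → C) (J : K → Set ℕ) (Z : Set C)
    (H : K → List ℕ) : Set C :=
  {y | y ∈ Z ∨ ∃ κ, ∃ j ∈ J κ, E₀ y (x κ j) ∧ ∃ i, i % 2 = p κ ∧ (H κ).getD i 0 = j + 1}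

open Classical in
/-- The next move. -/
noncomputable def NEU_m (E₀ : C → C → Prop) {K : Type} (p : K → ℕ) (x : K → ℕ → C)
    (J J' : K → Set ℕ) (Z : Set C) (σ : K → List ℕ → ℕ) (n : ℕ) (H : K → List ℕ) (κ : K) : ℕ :=
  if n % 2 = p κ then σ κ (H κ)
  else if (Nat.unpair (n / 2)).1 ∈ J' κ ∧ x κ (Nat.unpair (n / 2)).1 ∈ NEU_T E₀ p x J Z H then
    (Nat.unpair (n / 2)).1 + 1 else 0

/-- The histories. -/
noncomputable def NEU_H (E₀ : C → C → Prop) {K : Type} (p : K → ℕ) (x : K → ℕ → C)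
    (J J' : K → Set ℕ) (Z : Set C) (σ : K → List ℕ → ℕ) : ℕ → K → List ℕ
  | 0 => fun _ => []
  | n + 1 => fun κ => NEU_H E₀ p x J J' Z σ n κ ++
      [NEU_m E₀ p x J J' Z σ n (NEU_H E₀ p x J J' Z σ n) κ]

/-- The runs. -/
theorem NEU_run (E₀ : C → C → Prop) {K : Type} (p : K → ℕ) (x : K → ℕ → C)
    (J J' : K → Set ℕ) (Z : Set C) (σ : K → List ℕ → ℕ) :
    ∃ v : K → ℕ → ℕ, (∀ κ n, n % 2 = p κ → v κ n = σ κ (hist (v κ) n)) ∧
      ∀ κ n, n % 2 ≠ p κ → ∀ j, v κ n = j + 1 ↔ j = (Nat.unpair (n / 2)).1 ∧ j ∈ J' κ ∧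
        (x κ j ∈ Z ∨ ∃ κ', ∃ j' ∈ J κ', E₀ (x κ j) (x κ' j') ∧
          ∃ i, i < n ∧ i % 2 = p κ' ∧ v κ' i = j' + 1) := by
  set v : K → ℕ → ℕ := fun κ n => NEU_m E₀ p x J J' Z σ n (NEU_H E₀ p x J J' Z σ n) κ with hv
  have hH : ∀ n κ, NEU_H E₀ p x J J' Z σ n κ = hist (v κ) n := by
    intro n
    induction n with
    | zero => intro κ; rfl
    | succ n ih =>
      intro κ
      rw [NEU_hist_succ, ← ih κ]
      rfl
  have hT : ∀ n y, y ∈ NEU_T E₀ p x J Z (NEU_H E₀ p x J J' Z σ n) ↔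
      (y ∈ Z ∨ ∃ κ', ∃ j' ∈ J κ', E₀ y (x κ' j') ∧
        ∃ i, i < n ∧ i % 2 = p κ' ∧ v κ' i = j' + 1) := by
    intro n y
    constructor
    · rintro (h | ⟨κ', j', h1, h2, i, h3, h4⟩)
      · exact Or.inl h
      · rw [hH, NEU_getD] at h4
        exact Or.inr ⟨κ', j', h1, h2, i, h4.1, h3, h4.2⟩
    · rintro (h | ⟨κ', j', h1, h2, i, h3, h4, h5⟩)
      · exact Or.inl h
      · refine Or.inr ⟨κ', j', h1, h2, i, h4, ?_⟩
        rw [hH, NEU_getD]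
        exact ⟨h3, h5⟩
  refine ⟨v, ?_, ?_⟩
  · intro κ n hn
    change NEU_m E₀ p x J J' Z σ n (NEU_H E₀ p x J J' Z σ n) κ = _
    unfold NEU_m
    rw [if_pos hn, hH]
  · intro κ n hn j
    change NEU_m E₀ p x J J' Z σ n (NEU_H E₀ p x J J' Z σ n) κ = _ ↔ _
    unfold NEU_m
    rw [if_neg hn, hT]
    by_cases hc : (Nat.unpair (n / 2)).1 ∈ J' κ ∧ (x κ (Nat.unpair (n / 2)).1 ∈ Z ∨
        ∃ κ', ∃ j' ∈ J κ', E₀ (x κ (Nat.unpair (n / 2)).1) (x κ' j') ∧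
          ∃ i, i < n ∧ i % 2 = p κ' ∧ v κ' i = j' + 1)
    · rw [if_pos hc]
      constructor
      · intro h
        have h1 : j = (Nat.unpair (n / 2)).1 := by omega
        subst h1
        exact ⟨rfl, hc.1, hc.2⟩
      · rintro ⟨h1, -, -⟩
        rw [h1]
    · rw [if_neg hc]
      constructor
      · intro h
        omega
      · rintro ⟨h1, h2, h3⟩
        subst h1
        exact absurd ⟨h2, h3⟩ hc

theorem p_NEU : Stmt_NEU := by
  intro E₀ hE K p x J J' Z Ψ hp hZ hJJ hJ hJ' hd hn hS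
  have hS' : ∀ κ, ∃ σ : List ℕ → ℕ, ∀ v : ℕ → ℕ, Cons (p κ) σ v →
      Ψ κ (clo (fun i j => E₀ (x κ i) (x κ j))
        (nm (p κ) v ∩ J κ ∪ nm (1 - p κ) v ∩ J' κ)) := hS
  choose σ hσ using hS'
  obtain ⟨v, hv1, hv2⟩ := NEU_run E₀ p x J J' Z σ
  set A : Set C := {y | y ∈ Z ∨ ∃ κ, ∃ j ∈ nm (p κ) (v κ) ∩ J κ, E₀ y (x κ j)} with hA
  have mA : ∀ y, y ∈ A ↔ y ∈ Z ∨ ∃ κ, ∃ j ∈ nm (p κ) (v κ) ∩ J κ, E₀ y (x κ j) :=
    fun y => Iff.rfl
  have hinv : ∀ y y', E₀ y y' → y ∈ A → y' ∈ A := by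
    intro y y' h hy
    rcases hy with h1 | ⟨κ, j, h1, h2⟩
    · exact Or.inl (hZ y y' h h1)
    · exact Or.inr ⟨κ, j, h1, hE.trans (hE.symm h) h2⟩
  have hclaim : ∀ κ, nm (1 - p κ) (v κ) ∩ J' κ = {j | j ∈ J' κ ∧ x κ j ∈ A} := by
    intro κ
    have hpκ := hp κ
    ext j
    constructor
    · rintro ⟨⟨n, h1, h2⟩, h3⟩
      refine ⟨h3, ?_⟩
      rw [hv2 κ n (by omega) j] at h2
      obtain ⟨-, -, h4⟩ := h2
      rcases h4 with h4 | ⟨κ', j', h4, h5, i, -, h6, h7⟩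
      · exact Or.inl h4
      · exact Or.inr ⟨κ', j', ⟨⟨i, h6, h7⟩, h4⟩, h5⟩
    · rintro ⟨h1, h2⟩
      refine ⟨?_, h1⟩
      have hN : ∃ N, ∀ n, N ≤ n → (x κ j ∈ Z ∨ ∃ κ', ∃ j' ∈ J κ', E₀ (x κ j) (x κ' j') ∧
          ∃ i, i < n ∧ i % 2 = p κ' ∧ v κ' i = j' + 1) := by
        rcases h2 with h2 | ⟨κ', j', ⟨⟨i, h3, h4⟩, h5⟩, h6⟩
        · exact ⟨0, fun n _ => Or.inl h2⟩
        · exact ⟨i + 1, fun n hn => Or.inr ⟨κ', j', h5, h6, i, by omega, h3, h4⟩⟩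
      obtain ⟨N, hN⟩ := hN
      have hle : N ≤ Nat.pair j N := Nat.right_le_pair j N
      have e : (2 * Nat.pair j N + (1 - p κ)) / 2 = Nat.pair j N := by omega
      refine ⟨2 * Nat.pair j N + (1 - p κ), by omega, ?_⟩
      rw [hv2 κ _ (by omega) j, e, Nat.unpair_pair]
      exact ⟨rfl, h1, hN _ (by omega)⟩
  refine ⟨A, ?_, hinv, ?_⟩
  · intro y hy
    rw [mA]
    constructor
    · rintro (h1 | ⟨κ, j, h1, h2⟩)
      · exact h1
      · exact absurd h2 (hy κ j h1.2)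
    · exact Or.inl
  · intro κ
    have h := hσ κ (v κ) (fun i hi => hv1 κ i hi)
    rw [hclaim κ] at h
    have e : {j | x κ j ∈ A} = clo (fun i j => E₀ (x κ i) (x κ j))
        (nm (p κ) (v κ) ∩ J κ ∪ {j | j ∈ J' κ ∧ x κ j ∈ A}) := by
      ext j
      constructor
      · intro hj
        by_cases h1 : j ∈ J' κ
        · exact ⟨j, Or.inr ⟨h1, hj⟩, hE.refl _⟩
        · by_cases h2 : j ∈ J κ
          · rcases hj with h3 | ⟨κ', j', h3, h4⟩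
            · exact absurd h3 (hd κ j h2).2
            · have h5 : κ = κ' := hJJ κ κ' j j' h2 h3.2 h4
              subst h5
              exact ⟨j', Or.inl h3, hE.symm h4⟩
          · obtain ⟨h3, h4⟩ := hn κ j h2 h1
            rcases hj with h5 | ⟨κ', j', h5, h6⟩
            · exact absurd h5 h3
            · exact absurd h6 (h4 κ' j' h5.2)
      · rintro ⟨i, hi | hi, he⟩
        · exact hinv _ _ he (Or.inr ⟨κ, i, hi, hE.refl _⟩)
        · exact hinv _ _ he hi.2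
    rw [e]
    exact h

end Pool.LF
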