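import Pool.Agent.Work.MP_f36782_lf.Interface3
import Pool.Agent.Work.MP_f36782_lf.B_OWN

set_option autoImplicit false

/-! # Block ONF: changing a given set on a Ramsey null set -/

open MeasureTheory Pool.Agent.Work.RamseyAD

namespace Pool.LF

theorem ONF_hit {x : C} {S S' : Set ℕ} (h : Hit x S) (hK : ∃ K, ∀ m ∈ S, K ≤ m → m ∈ S') :
    Hit x S' := by
  obtain ⟨K, hK⟩ := hK
  intro n
  obtain ⟨k, h1, h2, h3⟩ := h (max n K)
  exact ⟨k, (le_max_left n K).trans h1, h2, hK k h3 ((le_max_right n K).trans h1)⟩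

theorem ONF_hit_aeq {x y : C} {S : Set ℕ} (h : Hit x S) (hxy : AEq y x) : Hit y S := by
  obtain ⟨N, hN⟩ := hxy
  intro n
  obtain ⟨k, h1, h2, h3⟩ := h (max n N)
  exact ⟨k, (le_max_left n N).trans h1, by rw [hN k ((le_max_right n N).trans h1)]; exact h2, h3⟩

theorem ONF_hit_inf {x : C} {S : Set ℕ} (h : Hit x S) : Inf x := by
  intro n
  obtain ⟨k, h1, h2, _⟩ := h n
  exact ⟨k, h1, h2⟩

theorem ONF_inf_aeq {x y : C} (h : Inf x) (hxy : AEq y x) : Inf y := by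
  obtain ⟨N, hN⟩ := hxy
  intro n
  obtain ⟨k, h1, h2⟩ := h (max n N)
  exact ⟨k, (le_max_left n N).trans h1, by rw [hN k ((le_max_right n N).trans h1)]; exact h2⟩

theorem ONF_symm {x y : C} (h : AEq x y) : AEq y x := by
  obtain ⟨N, hN⟩ := h
  exact ⟨N, fun k hk => (hN k hk).symm⟩

theorem ONF_trans {x y z : C} (h : AEq x y) (h' : AEq y z) : AEq x z := by
  obtain ⟨N, hN⟩ := h
  obtain ⟨M, hM⟩ := h'
  exact ⟨max N M, fun k hk => (hN k ((le_max_left N M).trans hk)).trans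
    (hM k ((le_max_right N M).trans hk))⟩

theorem ONF_enum {F : Set (Set (ℕ → ℕ))} (φ : Fm F CM) (h : φ.at.Countable) :
    ∃ e : ℕ → CM, ∀ f ∈ φ.at, ∃ j, e j = f := by
  rcases Set.eq_empty_or_nonempty φ.at with h0 | h0
  · refine ⟨fun _ => ⟨fun _ _ => false, continuous_const⟩, fun f hf => ?_⟩
    rw [h0] at hf
    exact absurd hf (Set.notMem_empty f)
  · obtain ⟨e, he⟩ := h.exists_eq_range h0
    refine ⟨e, fun f hf => ?_⟩
    rw [he] at hf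
    exact hf

theorem ONF_prb {I : Type} {r : I → ℕ → ℕ} (hr : Function.Injective r) {a b : I × (ℕ → ℕ)}
    (hab : a ≠ b) : prb (r a.1) a.2 ≠ prb (r b.1) b.2 := by
  intro h
  apply hab
  have h1 : ∀ n, r a.1 n = r b.1 n ∧ a.2 n = b.2 n := fun n =>
    Nat.pair_eq_pair.1 (congrFun h n)
  exact Prod.ext (hr (funext fun n => (h1 n).1)) (funext fun n => (h1 n).2)

/-- the sets which are added -/
def ONF_Rp {I : Type} (p : I → ℕ) (g : I → ℕ → (ℕ → ℕ) → C) (D : I × (ℕ → ℕ) → Set ℕ) : Set C :=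
  {x | ∃ i z j, p i = 0 ∧ AEq x (g i j z) ∧ Hit (g i j z) (D (i, z)) ∧
    ∃ K, ∀ m, K ≤ m → g i j z m = true → m ∈ D (i, z)}

/-- the sets which are removed -/
def ONF_Rm {I : Type} (p : I → ℕ) (g : I → ℕ → (ℕ → ℕ) → C) (D : I × (ℕ → ℕ) → Set ℕ) : Set C :=
  {x | ∃ i z j, p i = 1 ∧ AEq x (g i j z) ∧ Hit (g i j z) (D (i, z))}

theorem ONF_disj {I : Type} {p : I → ℕ} {g : I → ℕ → (ℕ → ℕ) → C} {D : I × (ℕ → ℕ) → Set ℕ}
    (hD : ∀ a b, a ≠ b → (D a ∩ D b).Finite) : ∀ x ∈ ONF_Rp p g D, x ∉ ONF_Rm p g D := by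
  rintro x ⟨i, z, j, hp, hx, _, K, hK⟩ ⟨i', z', j', hp', hx', hh'⟩
  have hne : (i, z) ≠ (i', z') := by
    intro h
    have h1 : i = i' := congrArg Prod.fst h
    rw [h1, hp'] at hp
    omega
  obtain ⟨M, hM⟩ := (hD _ _ hne).bddAbove
  obtain ⟨N, hN⟩ := hx
  have h1 : Hit x (D (i', z')) := ONF_hit_aeq hh' hx'
  obtain ⟨k, h2, h3, h4⟩ := h1 (max (M + 1) (max K N))
  have h5 : K ≤ k := (le_max_left K N).trans ((le_max_right _ _).trans h2)
  have h6 : N ≤ k := (le_max_right K N).trans ((le_max_right _ _).trans h2)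
  have h7 : M + 1 ≤ k := (le_max_left _ _).trans h2
  have h8 : k ∈ D (i, z) := hK k h5 (by rw [← hN k h6]; exact h3)
  have h9 := hM (⟨h8, h4⟩ : k ∈ D (i, z) ∩ D (i', z'))
  omega

theorem ONF_Rp_aeq {I : Type} {p : I → ℕ} {g : I → ℕ → (ℕ → ℕ) → C} {D : I × (ℕ → ℕ) → Set ℕ}
    {x y : C} (hxy : AEq y x) (h : x ∈ ONF_Rp p g D) : y ∈ ONF_Rp p g D := by
  obtain ⟨i, z, j, hp, hx, hh⟩ := h
  exact ⟨i, z, j, hp, ONF_trans hxy hx, hh⟩

theorem ONF_Rm_aeq {I : Type} {p : I → ℕ} {g : I → ℕ → (ℕ → ℕ) → C} {D : I × (ℕ → ℕ) → Set ℕ}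
    {x y : C} (hxy : AEq y x) (h : x ∈ ONF_Rm p g D) : y ∈ ONF_Rm p g D := by
  obtain ⟨i, z, j, hp, hx, hh⟩ := h
  exact ⟨i, z, j, hp, ONF_trans hxy hx, hh⟩

theorem p_ONF (hSIF : Stmt_SIF) (hRNG : Stmt_RNG) (hRNU : Stmt_RNU) (hBRF : Stmt_BRF)
    (hOWN : Stmt_OWN) (hFMA : Stmt_FMA) (hFIN : Stmt_FIN) (hPAF : Stmt_PAF) : Stmt_ONF := by
  intro F hF I hI hr φ A₀
  obtain ⟨r, hr⟩ := hr
  have hE : InF F (∅ : Set C) := (hFIN F hF).2.2.2.2 _ MeasurableSet.empty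
  -- the winners
  have hdet : ∀ i, ∃ (p : ℕ) (T : List ℕ → ℕ),
      (p = 0 ∧ ∀ z : ℕ → ℕ, (∀ n, z (2 * n) = T (hist z (2 * n))) →
        (φ i).tr (fun k : F => mv z ∈ k.1) (atm ∅ ∅ z)) ∨
      (p = 1 ∧ ∀ z : ℕ → ℕ, (∀ n, z (2 * n + 1) = T (hist z (2 * n + 1))) →
        ¬ (φ i).tr (fun k : F => mv z ∈ k.1) (atm ∅ ∅ z)) := by
    intro i
    rcases hF.det _ (hPAF F hF ∅ ∅ hE hE (φ i)) with ⟨T, hT⟩ | ⟨T, hT⟩
    · exact ⟨0, T, Or.inl ⟨rfl, hT⟩⟩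
    · exact ⟨1, T, Or.inr ⟨rfl, hT⟩⟩
  choose p T hpT using hdet
  have hp2 : ∀ i, p i < 2 := fun i => by
    rcases hpT i with ⟨h, _⟩ | ⟨h, _⟩ <;> omega
  obtain ⟨s, Φ, B, hBlk, hs⟩ := hSIF I hI r p T hp2
  -- the almost disjoint family
  let D : I × (ℕ → ℕ) → Set ℕ := fun a => Br B (prb (r a.1) a.2)
  have hD : ∀ a b, a ≠ b → (D a ∩ D b).Finite := fun a b hab =>
    hBRF B hBlk _ _ (ONF_prb hr hab)
  -- the atoms
  choose e he using fun i => ONF_enum (φ i) (hFMA F CM (φ i)).1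
  let g : I → ℕ → (ℕ → ℕ) → C := fun i j => (e i j).1
  have hdisj := ONF_disj (p := p) (g := g) hD
  let A : Set C := ({x | x ∈ A₀ ∧ Inf x} ∪ ONF_Rp p g D) \ ONF_Rm p g D
  have hAinf : ∀ x ∈ A, Inf x := by
    rintro x ⟨h | h, _⟩
    · exact h.2
    · obtain ⟨i, z, j, _, hx, hh, _⟩ := h
      exact ONF_inf_aeq (ONF_hit_inf hh) hx
  refine ⟨A, fun i => ?_, fun hA0 => ?_, ?_⟩
  · -- determinacy
    rcases hpT i with ⟨h0, hT⟩ | ⟨h0, hT⟩
    · refine Or.inl ⟨s i, fun z hz => ?_⟩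
      have hzc : Cons (p i) (s i) z := by
        intro m hm
        rw [h0] at hm
        obtain ⟨n, rfl⟩ : ∃ n, m = 2 * n := ⟨m / 2, by omega⟩
        exact hz n
      obtain ⟨h1, h2, h3, h4⟩ := hs i z hzc
      have hw := hT (Φ i z) (fun n => h1 (2 * n) (by omega))
      rw [h2] at hw
      show (φ i).tr (fun k : F => z ∈ k.1) (fun f => f.1 z ∈ A)
      refine (hFMA F CM (φ i)).2 _ _ _ (fun f hf hat => ?_) hw
      unfold atm at hat
      rw [h2] at hat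
      rcases hat with hat | ⟨_, hi, hn⟩
      · exact absurd hat (Set.notMem_empty _)
      · rw [h0] at h4
        have hit : Hit (f.1 z) (D (i, z)) := ONF_hit (hOWN (Φ i z) (f.1 z) h3 hi hn) h4
        obtain ⟨j, rfl⟩ := he i f hf
        have hRp : (e i j).1 z ∈ ONF_Rp p g D := by
          refine ⟨i, z, j, h0, ⟨0, fun _ _ => rfl⟩, hit, ?_⟩
          obtain ⟨K, hK⟩ := h4
          unfold Hit at hn
          push Not at hn
          obtain ⟨N, hN⟩ := hn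
          refine ⟨max K N, fun m hm hm' => ?_⟩
          rcases OWN_mem (Φ i z) h3 m with h | h
          · exact hK m h ((le_max_left K N).trans hm)
          · exact absurd h (hN m ((le_max_right K N).trans hm) hm')
        exact ⟨Or.inr hRp, hdisj _ hRp⟩
    · refine Or.inr ⟨s i, fun z hz hin => ?_⟩
      have hzc : Cons (p i) (s i) z := by
        intro m hm
        rw [h0] at hm
        obtain ⟨n, rfl⟩ : ∃ n, m = 2 * n + 1 := ⟨m / 2, by omega⟩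
        exact hz n
      obtain ⟨h1, h2, h3, h4⟩ := hs i z hzc
      refine hT (Φ i z) (fun n => h1 (2 * n + 1) (by omega)) ?_
      have hin' : (φ i).tr (fun k : F => mv (Φ i z) ∈ k.1) (fun f => f.1 z ∈ A) := by
        rw [h2]
        exact hin
      refine (hFMA F CM (φ i)).2 _ _ _ (fun f hf hat => ?_) hin'
      unfold atm
      rw [h2]
      refine Or.inr ⟨Set.notMem_empty _, hAinf _ hat, fun hit => ?_⟩
      obtain ⟨j, rfl⟩ := he i f hf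
      rw [h0] at h4
      exact hat.2 ⟨i, z, j, h0, ⟨0, fun _ _ => rfl⟩, ONF_hit hit h4⟩
  · -- tail
    have key : ∀ x y : C, AEq x y → x ∈ A → y ∈ A := by
      intro x y hxy hx
      refine ⟨?_, fun h => hx.2 (ONF_Rm_aeq hxy h)⟩
      rcases hx.1 with h | h
      · exact Or.inl ⟨(hA0 x y hxy).1 h.1, ONF_inf_aeq h.2 (ONF_symm hxy)⟩
      · exact Or.inr (ONF_Rp_aeq (ONF_symm hxy) h)
    exact fun x y hxy => ⟨key x y hxy, key y x (ONF_symm hxy)⟩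
  · -- the Ramsey null set
    intro X hX
    obtain ⟨Y, hY, hYX, hN⟩ := hRNU (fun j => {x | ∃ a : I × (ℕ → ℕ), AEq x (g a.1 j a.2) ∧
      Hit (g a.1 j a.2) (D a)}) (fun j => hRNG (I × (ℕ → ℕ)) D (fun a => g a.1 j a.2) hD) X hX
    refine ⟨Y, hY, hYX, fun x hx hxY => ?_⟩
    have h1 := hN x hx hxY
    have h2 : x ∉ ONF_Rp p g D := by
      rintro ⟨i, z, j, _, hx1, hh, _⟩
      exact h1 (Set.mem_iUnion.2 ⟨j, (i, z), hx1, hh⟩)
    have h3 : x ∉ ONF_Rm p g D := by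
      rintro ⟨i, z, j, _, hx1, hh⟩
      exact h1 (Set.mem_iUnion.2 ⟨j, (i, z), hx1, hh⟩)
    constructor
    · rintro ⟨h | h, _⟩
      · exact h.1
      · exact absurd h h2
    · exact fun h => ⟨Or.inl ⟨h, hx⟩, h3⟩

end Pool.LF
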