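import Pool.Agent.Work.MP_f36782_lf.Interface4
import Pool.Agent.Work.MP_f36782_lf.B_ONF

set_option autoImplicit false

/-! # Block ONB: changing a given set on a Ramsey null set, operations which are not positive -/

open MeasureTheory Pool.Agent.Work.RamseyAD

namespace Pool.LF

theorem ONB_mono {J J' : Set ℕ} {Φ Φ' : Set ℕ → Prop} (h : ∀ s, Φ s → Φ' s)
    (hs : HasSys J J' Φ) : HasSys J J' Φ' := by
  obtain ⟨Sy, ρ, k, h1⟩ := hs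
  exact ⟨Sy, ρ, k, ⟨h1.sub, h1.init, h1.step, h1.bdd, fun a b hab ha => h _ (h1.win a b hab ha)⟩⟩

theorem ONB_pu_aeq {g : ℕ → MM} {w : ℕ → ℕ} {p : ℕ} {j j' : ℕ}
    (h : AEq ((g j).1 (mv w)) ((g j').1 (mv w))) (hj : j ∈ Pu p g w) : j' ∈ Pu p g w :=
  ⟨ONF_inf_aeq hj.1 (ONF_symm h), fun hh => hj.2 (ONF_hit_aeq hh h)⟩

theorem ONB_inv {p : ℕ} (hp : p < 2) : 1 - (1 - p) = p := by omega

/-- fact (1) -/
theorem ONB_hit {g : ℕ → MM} {w : ℕ → ℕ} {p : ℕ} (hp : p < 2) {j : ℕ}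
    (hj : j ∉ Pu (1 - p) g w) (hi : Inf ((g j).1 (mv w))) : Hit ((g j).1 (mv w)) (own p w) := by
  by_contra hc
  apply hj
  refine ⟨hi, ?_⟩
  rw [ONB_inv hp]
  exact hc

theorem ONB_mem {w : ℕ → ℕ} (hz : ∀ N, ∃ i, N ≤ len w i) {p : ℕ} (hp : p < 2) (m : ℕ) :
    m ∈ own p w ∨ m ∈ own (1 - p) w := by
  have h : p = 0 ∨ p = 1 := by omega
  rcases h with h | h
  · subst h
    exact OWN_mem w hz m
  · subst h
    rcases OWN_mem w hz m with h | h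
    · exact Or.inr h
    · exact Or.inl h

/-- fact (2) -/
theorem ONB_pure {g : ℕ → MM} {w : ℕ → ℕ} (hz : ∀ N, ∃ i, N ≤ len w i) {p : ℕ} (hp : p < 2)
    {j : ℕ} (hj : j ∈ Pu p g w) : ∃ N, ∀ m, N ≤ m → (g j).1 (mv w) m = true → m ∈ own p w := by
  have h := hj.2
  unfold Hit at h
  push Not at h
  obtain ⟨N, hN⟩ := h
  refine ⟨N, fun m hm hm' => ?_⟩
  rcases ONB_mem hz hp m with h | h
  · exact h
  · exact absurd h (hN m hm hm')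

theorem ONB_not {g : ℕ → MM} {w : ℕ → ℕ} (hz : ∀ N, ∃ i, N ≤ len w i) {p : ℕ} (hp : p < 2)
    {j : ℕ} (hj : j ∈ Pu p g w) : j ∉ Pu (1 - p) g w := by
  intro h
  obtain ⟨N, hN⟩ := ONB_pure hz hp hj
  apply h.2
  rw [ONB_inv hp]
  intro n
  obtain ⟨k, h1, h2⟩ := hj.1 (max n N)
  exact ⟨k, (le_max_left n N).trans h1, h2, hN k ((le_max_right n N).trans h1) h2⟩

theorem p_ONB (hSIF : Stmt_SIF) (hRNG : Stmt_RNG) (hRNU : Stmt_RNU) (hBRF : Stmt_BRF)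
    (_hOWN : Stmt_OWN) (hNET : Stmt_NET) : Stmt_ONB := by
  intro F hF E₀ hE I hI hr g Ψ hRef A₀ hA₀
  obtain ⟨r, hr⟩ := hr
  choose W hWF hW using hRef
  -- the winners
  have hdet : ∀ i, ∃ (p : ℕ) (T : List ℕ → ℕ),
      (p = 0 ∧ ∀ z : ℕ → ℕ, (∀ n, z (2 * n) = T (hist z (2 * n))) → z ∈ W i) ∨
      (p = 1 ∧ ∀ z : ℕ → ℕ, (∀ n, z (2 * n + 1) = T (hist z (2 * n + 1))) → z ∉ W i) := by
    intro i
    rcases hF.det _ (hWF i) with ⟨T, hT⟩ | ⟨T, hT⟩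
    · exact ⟨0, T, Or.inl ⟨rfl, hT⟩⟩
    · exact ⟨1, T, Or.inr ⟨rfl, hT⟩⟩
  choose p T hpT using hdet
  have hp2 : ∀ i, p i < 2 := fun i => by
    rcases hpT i with ⟨h, _⟩ | ⟨h, _⟩ <;> omega
  obtain ⟨s, Φ, B, hBlk, hs⟩ := hSIF I hI r p T hp2
  -- the almost disjoint family
  let D : I × (ℕ → ℕ) → Set ℕ := fun a => Br B (prb (r a.1) a.2)
  have hD : ∀ a b, a ≠ b → (D a ∩ D b).Finite := fun a b hab =>
    hBRF B hBlk _ _ (ONF_prb hr hab)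
  -- the runs
  let K : Type := {κ : I × (ℕ → ℕ) // Cons (p κ.1) (s κ.1) κ.2}
  let w : K → ℕ → ℕ := fun κ => Φ κ.1.1 κ.1.2
  let x : K → ℕ → C := fun κ j => (g κ.1.1 j).1 κ.1.2
  let J : K → Set ℕ := fun κ => Pu (p κ.1.1) (g κ.1.1) (w κ)
  let J' : K → Set ℕ := fun κ => Pu (1 - p κ.1.1) (g κ.1.1) (w κ)
  have hmv : ∀ κ : K, mv (w κ) = κ.1.2 := fun κ => (hs κ.1.1 κ.1.2 κ.2).2.1
  have hlen : ∀ κ : K, ∀ N, ∃ j, N ≤ len (w κ) j := fun κ => (hs κ.1.1 κ.1.2 κ.2).2.2.1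
  have hown : ∀ κ : K, ∃ k, ∀ m ∈ own (p κ.1.1) (w κ), k ≤ m → m ∈ D κ.1 :=
    fun κ => (hs κ.1.1 κ.1.2 κ.2).2.2.2
  have hx : ∀ (κ : K) (j : ℕ), (g κ.1.1 j).1 (mv (w κ)) = x κ j := by
    intro κ j
    rw [hmv κ]
  have f0 : ∀ (κ : K) (j : ℕ), j ∈ J κ → Inf (x κ j) := by
    intro κ j hj
    rw [← hx κ j]
    exact hj.1
  have f1 : ∀ (κ : K) (j : ℕ), j ∉ J' κ → Inf (x κ j) → Hit (x κ j) (D κ.1) := by
    intro κ j hj hi
    have h := ONB_hit (hp2 κ.1.1) hj (by rw [hx κ j]; exact hi)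
    rw [hx κ j] at h
    exact ONF_hit h (hown κ)
  have f2 : ∀ (κ : K) (j : ℕ), j ∈ J κ → ∃ N, ∀ m, N ≤ m → x κ j m = true → m ∈ D κ.1 := by
    intro κ j hj
    obtain ⟨N, hN⟩ := ONB_pure (hlen κ) (hp2 κ.1.1) hj
    obtain ⟨k, hk⟩ := hown κ
    refine ⟨max k N, fun m hm hm' => hk m (hN m ((le_max_right _ _).trans hm) ?_)
      ((le_max_left _ _).trans hm)⟩
    rw [hx κ j]
    exact hm'
  have f2' : ∀ (κ : K) (j : ℕ), j ∈ J κ → j ∉ J' κ := fun κ j hj =>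
    ONB_not (hlen κ) (hp2 κ.1.1) hj
  have f3 : ∀ (κ κ' : K) (j j' : ℕ), j ∈ J κ → j' ∉ J' κ' → Inf (x κ' j') →
      E₀ (x κ j) (x κ' j') → κ = κ' := by
    intro κ κ' j j' hj hj' hi he
    by_contra hne
    have hne' : κ.1 ≠ κ'.1 := fun h => hne (Subtype.ext h)
    obtain ⟨M, hM⟩ := (hD _ _ hne').bddAbove
    obtain ⟨N, hN⟩ := f2 κ j hj
    have h1 : Hit (x κ j) (D κ'.1) := ONF_hit_aeq (f1 κ' j' hj' hi) (hE.le _ _ he)
    obtain ⟨k, h2, h3, h4⟩ := h1 (max (M + 1) N)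
    have h5 : M + 1 ≤ k := (le_max_left _ _).trans h2
    have h6 := hM (⟨hN k ((le_max_right _ _).trans h2) h3, h4⟩ : k ∈ D κ.1 ∩ D κ'.1)
    omega
  have f4 : ∀ (κ : K) (q : ℕ) (j j' : ℕ), E₀ (x κ j) (x κ j') →
      j ∈ Pu q (g κ.1.1) (w κ) → j' ∈ Pu q (g κ.1.1) (w κ) := by
    intro κ q j j' he hj
    refine ONB_pu_aeq ?_ hj
    rw [hx κ j, hx κ j']
    exact hE.le _ _ he
  -- the removed sets
  let R : Set C := {y | ∃ (κ : K) (j : ℕ), j ∉ J' κ ∧ Inf (x κ j) ∧ E₀ y (x κ j)}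
  let Z : Set C := {y | y ∈ A₀ ∧ Inf y ∧ y ∉ R}
  have hR : ∀ y y', E₀ y y' → y' ∈ R → y ∈ R := by
    rintro y y' hy ⟨κ, j, h1, h2, h3⟩
    exact ⟨κ, j, h1, h2, hE.equiv.trans hy h3⟩
  let Ψ' : K → Set ℕ → Prop := fun κ T =>
    (p κ.1.1 = 0 → Ψ κ.1.1 κ.1.2 T) ∧ (p κ.1.1 = 1 → ¬ Ψ κ.1.1 κ.1.2 T)
  obtain ⟨A, hA1, hA2, hA3⟩ := hNET E₀ hE.equiv K x J J' Z Ψ'
    (by
      rintro y y' hy ⟨h1, h2, h3⟩
      exact ⟨hA₀ y y' hy h1, ONF_inf_aeq h2 (ONF_symm (hE.le _ _ hy)),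
        fun h => h3 (hR y y' hy h)⟩)
    (by
      intro κ κ' j j' hj hj' he
      exact f3 κ κ' j j' hj (f2' κ' j' hj') (f0 κ' j' hj') he)
    (fun κ j j' he hj => f4 κ _ j j' he hj)
    (fun κ j j' he hj => f4 κ _ j j' he hj)
    (by
      intro κ j hj
      exact ⟨f2' κ j hj, fun h => h.2.2 ⟨κ, j, f2' κ j hj, f0 κ j hj, hE.equiv.refl _⟩⟩)
    (by
      intro κ j hj hj'
      refine ⟨fun h => h.2.2 ⟨κ, j, hj', h.2.1, hE.equiv.refl _⟩, ?_⟩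
      intro κ' j'' hj'' he
      have hi : Inf (x κ j) := ONF_inf_aeq (f0 κ' j'' hj'') (hE.le _ _ he)
      have h1 : κ' = κ := f3 κ' κ j'' j hj'' hj' hi (hE.equiv.symm he)
      subst h1
      exact hj (f4 κ' _ j'' j (hE.equiv.symm he) hj''))
    (by
      intro κ
      obtain ⟨h1, h2, h3, h4⟩ := hs κ.1.1 κ.1.2 κ.2
      rcases hpT κ.1.1 with ⟨h0, hT⟩ | ⟨h0, hT⟩
      · have hw : w κ ∈ W κ.1.1 := by
          refine hT (w κ) (fun n => h1 (2 * n) (by rw [h0]; omega))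
        have h5 := (hW κ.1.1 (w κ)).1 hw
        show HasSys (Pu (p κ.1.1) (g κ.1.1) (w κ)) (Pu (1 - p κ.1.1) (g κ.1.1) (w κ)) _
        rw [h0]
        refine ONB_mono (fun t ht => ?_) h5
        refine ⟨fun _ => ?_, fun h => ?_⟩
        · rw [hmv κ] at ht
          exact ht
        · exact absurd (h0.symm.trans h) (by omega)
      · have hw : w κ ∉ W κ.1.1 := by
          refine hT (w κ) (fun n => h1 (2 * n + 1) (by rw [h0]; omega))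
        have h5 := (hW κ.1.1 (w κ)).2 hw
        show HasSys (Pu (p κ.1.1) (g κ.1.1) (w κ)) (Pu (1 - p κ.1.1) (g κ.1.1) (w κ)) _
        rw [h0]
        refine ONB_mono (fun t ht => ?_) h5
        refine ⟨fun h => ?_, fun _ => ?_⟩
        · exact absurd (h0.symm.trans h) (by omega)
        · rw [hmv κ] at ht
          exact ht)
  refine ⟨A, fun i => ?_, hA2, ?_⟩
  · -- determinacy
    rcases hpT i with ⟨h0, _⟩ | ⟨h0, _⟩
    · refine Or.inl ⟨s i, fun z hz => ?_⟩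
      have hzc : Cons (p i) (s i) z := by
        intro m hm
        rw [h0] at hm
        obtain ⟨n, rfl⟩ : ∃ n, m = 2 * n := ⟨m / 2, by omega⟩
        exact hz n
      exact (hA3 ⟨(i, z), hzc⟩).1 h0
    · refine Or.inr ⟨s i, fun z hz hin => ?_⟩
      have hzc : Cons (p i) (s i) z := by
        intro m hm
        rw [h0] at hm
        obtain ⟨n, rfl⟩ : ∃ n, m = 2 * n + 1 := ⟨m / 2, by omega⟩
        exact hz n
      exact (hA3 ⟨(i, z), hzc⟩).2 h0 hin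
  · -- the Ramsey null set
    intro X hX
    obtain ⟨Y, hY, hYX, hN⟩ := hRNU (fun j => {y | ∃ a : I × (ℕ → ℕ), AEq y ((g a.1 j).1 a.2) ∧
      Hit ((g a.1 j).1 a.2) (D a)}) (fun j => hRNG (I × (ℕ → ℕ)) D (fun a => (g a.1 j).1 a.2) hD)
      X hX
    refine ⟨Y, hY, hYX, fun y hy hyY => ?_⟩
    have h1 := hN y hy ⟨0, fun k _ hk => hyY k hk⟩
    have h2 : y ∉ R := by
      rintro ⟨κ, j, h3, h4, h5⟩
      exact h1 (Set.mem_iUnion.2 ⟨j, κ.1, hE.le _ _ h5, f1 κ j h3 h4⟩)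
    have h3 := hA1 y (fun κ j hj he => h2 ⟨κ, j, f2' κ j hj, f0 κ j hj, he⟩)
    rw [h3]
    exact ⟨fun h => h.1, fun h => ⟨h, hy, h2⟩⟩

end Pool.LF
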