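import Pool.Agent.Work.MP_f36782_lf.Interface4

/-! MP_f36782_lc, THEOREM LF, Boolean version: block PFM. -/

set_option autoImplicit false

open MeasureTheory Pool.Agent.Work.RamseyAD

namespace Pool.LF

theorem p_PFM : Stmt_PFM := by
  intro F S hS
  induction hS with
  | const S h => exact ⟨Fm.base ⟨S, h⟩, fun A => rfl⟩
  | pre f h => exact ⟨Fm.pre ⟨f, h⟩, fun A => rfl⟩
  | union S h ih =>
    choose φ hφ using ih
    refine ⟨Fm.uni φ, fun A => ?_⟩
    ext z
    simp only [Set.mem_iUnion, Set.mem_ofPred_eq, Fm.tr]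
    refine exists_congr fun n => ?_
    rw [hφ n A]
    rfl
  | inter S h ih =>
    choose φ hφ using ih
    refine ⟨Fm.int φ, fun A => ?_⟩
    ext z
    simp only [Set.mem_iInter, Set.mem_ofPred_eq, Fm.tr]
    refine forall_congr' fun n => ?_
    rw [hφ n A]
    rfl

end Pool.LF
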