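import Pool.Agent.Work.MP_f36782_lf.Interface4

/-! Block RFB: Boolean combinations of open positive operations can be decided (helper47). -/

set_option autoImplicit false

open MeasureTheory Pool.Agent.Work.RamseyAD

namespace Pool.LF

/-- The set of the true conditions. -/
def RFB_v {k : ℕ} (D : Fin k → ℕ → Set (ℕ → ℕ)) (N : Fin k → ℕ → Finset ℕ) (E : ℕ → ℕ → Prop)
    (z : ℕ → ℕ) (s : Set ℕ) : Set (Fin k) :=
  {l | ∃ n, z ∈ D l n ∧ ∀ j ∈ N l n, j ∈ clo E s}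

theorem RFB_clo {E : ℕ → ℕ → Prop} {s t : Set ℕ} (h : s ⊆ t) : clo E s ⊆ clo E t := by
  rintro j ⟨i, hi, hij⟩
  exact ⟨i, h hi, hij⟩

theorem RFB_mono {k : ℕ} (D : Fin k → ℕ → Set (ℕ → ℕ)) (N : Fin k → ℕ → Finset ℕ)
    (E : ℕ → ℕ → Prop) (z : ℕ → ℕ) : Monotone (RFB_v D N E z) := by
  intro s t hst l hl
  obtain ⟨n, hn, hj⟩ := hl
  exact ⟨n, hn, fun j hjn => RFB_clo hst (hj j hjn)⟩

theorem RFB_fin {k : ℕ} (D : Fin k → ℕ → Set (ℕ → ℕ)) (N : Fin k → ℕ → Finset ℕ)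
    (E : ℕ → ℕ → Prop) (z : ℕ → ℕ) (s : Set ℕ) (hs : s.Finite) (t : Set ℕ) (hst : s ⊆ t) :
    ∃ s' ∈ {s : Set ℕ | s.Finite}, s ⊆ s' ∧ s' ⊆ t ∧ RFB_v D N E z s' = RFB_v D N E z t := by
  classical
  have h1 : ∀ l : Fin k, ∃ u : Set ℕ, u.Finite ∧ u ⊆ t ∧
      (l ∈ RFB_v D N E z t → l ∈ RFB_v D N E z u) := by
    intro l
    by_cases hl : l ∈ RFB_v D N E z t
    · obtain ⟨n, hn, hj⟩ := hl
      have h2 : ∀ j : ℕ, ∃ i : ℕ, j ∈ N l n → (i ∈ t ∧ E i j) := by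
        intro j
        by_cases hjn : j ∈ N l n
        · obtain ⟨i, hi, hij⟩ := hj j hjn
          exact ⟨i, fun _ => ⟨hi, hij⟩⟩
        · exact ⟨0, fun h => absurd h hjn⟩
      choose f hf using h2
      refine ⟨f '' (N l n : Set ℕ), (N l n).finite_toSet.image f, ?_, fun _ => ⟨n, hn, ?_⟩⟩
      · rintro i ⟨j, hjn, rfl⟩
        exact (hf j (Finset.mem_coe.1 hjn)).1
      · intro j hjn
        exact ⟨f j, ⟨j, Finset.mem_coe.2 hjn, rfl⟩, (hf j hjn).2⟩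
    · exact ⟨∅, Set.finite_empty, Set.empty_subset _, fun h => absurd h hl⟩
  choose u hu1 hu2 hu3 using h1
  refine ⟨s ∪ ⋃ l, u l, ?_, Set.subset_union_left, Set.union_subset hst (Set.iUnion_subset hu2), ?_⟩
  · exact hs.union (Set.finite_iUnion hu1)
  · apply Set.Subset.antisymm
    · exact RFB_mono D N E z (Set.union_subset hst (Set.iUnion_subset hu2))
    · intro l hl
      exact RFB_mono D N E z
        (Set.Subset.trans (Set.subset_iUnion u l) Set.subset_union_right) (hu3 l hl)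

theorem p_RFB (hZER : Stmt_ZER) (hGSY : Stmt_GSY) (hMEF : Stmt_MEF) : Stmt_RFB := by
  intro F hF E₀ hE k h g D N hD
  refine ⟨_, hMEF F hF E₀ hE k h g D N hD, ?_⟩
  intro w
  have hv : Monotone (RFB_v D N (ER E₀ g (mv w)) (mv w)) := RFB_mono D N _ _
  have hQ0 : (∅ : Set ℕ) ∈ {s : Set ℕ | s.Finite} := Set.finite_empty
  have hQ : ∀ s ∈ {s : Set ℕ | s.Finite}, ∀ t, s ⊆ t → ∃ s' ∈ {s : Set ℕ | s.Finite},
      s ⊆ s' ∧ s' ⊆ t ∧ RFB_v D N (ER E₀ g (mv w)) (mv w) s' =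
        RFB_v D N (ER E₀ g (mv w)) (mv w) t :=
    fun s hs t hst => RFB_fin D N _ _ s hs t hst
  constructor
  · rintro ⟨s, hsf, hs, hL⟩
    exact hGSY k _ h (Pu 0 g w) (Pu 1 g w) {s | s.Finite} hv hQ0 hQ ⟨s, hsf, hs, hL⟩
  · intro hw
    rcases (hZER k _ h (Pu 0 g w) (Pu 1 g w) {s | s.Finite} hv hQ0).2 with
      ⟨s, hsf, hs, hL⟩ | h2
    · exact absurd ⟨s, hsf, hs, hL⟩ hw
    · exact hGSY k _ (fun B => ¬ h B) (Pu 1 g w) (Pu 0 g w) {s | s.Finite} hv hQ0 hQ h2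

end Pool.LF
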