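import Pool.Agent.Work.MP_f36782_lf.Interface7
import Pool.Agent.Work.MP_f36782_lf.B_RFB

/-! Block RBS: Boolean combinations of open positive operations, naming game (helper49). -/

set_option autoImplicit false

open MeasureTheory Pool.Agent.Work.RamseyAD

namespace Pool.LF

theorem p_RBS (hZER : Stmt_ZER) (hGST : Stmt_GST) (hSST : Stmt_SST) (hMEF : Stmt_MEF) :
    Stmt_RBS := by
  intro F hF E₀ hE k h g D N hD
  refine ⟨_, hMEF F hF E₀ hE k h g D N hD, ?_⟩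
  intro w
  have hv : Monotone (RFB_v D N (ER E₀ g (mv w)) (mv w)) := RFB_mono D N _ _
  have hQ0 : (∅ : Set ℕ) ∈ {s : Set ℕ | s.Finite} := Set.finite_empty
  have hQ : ∀ s : Set ℕ, s.Finite → ∀ t, s ⊆ t → ∃ s' : Set ℕ, s'.Finite ∧
      s ⊆ s' ∧ s' ⊆ t ∧ RFB_v D N (ER E₀ g (mv w)) (mv w) s' =
        RFB_v D N (ER E₀ g (mv w)) (mv w) t := by
    intro s hs t hst
    obtain ⟨s', h1, h2⟩ := RFB_fin D N (ER E₀ g (mv w)) (mv w) s hs t hst
    exact ⟨s', h1, h2⟩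
  constructor
  · rintro ⟨s, hsf, hs, hL⟩
    exact hSST 0 (by norm_num) (Pu 0 g w) (Pu 1 g w) _
      (hGST k _ h (Pu 0 g w) (Pu 1 g w) hv hQ ⟨s, hsf, hs, hL⟩)
  · intro hw
    rcases (hZER k _ h (Pu 0 g w) (Pu 1 g w) {s | s.Finite} hv hQ0).2 with
      ⟨s, hsf, hs, hL⟩ | h2
    · exact absurd ⟨s, hsf, hs, hL⟩ hw
    · exact hSST 1 (by norm_num) (Pu 1 g w) (Pu 0 g w) _
        (hGST k _ (fun B => ¬ h B) (Pu 1 g w) (Pu 0 g w) hv hQ h2)

end Pool.LF
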