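import Pool.Agent.Work.MP_f36782_lf.Interface7
import Pool.Agent.Work.MP_f36782_lf.B_PAF

set_option autoImplicit false

/-! Block RGS: Borel operations can be decided. -/

open MeasureTheory Pool.Agent.Work.RamseyAD

namespace Pool.LF

theorem RGS_rt : Continuous rt :=
  continuous_pi (fun i =>
    (continuous_of_discreteTopology (f := fun a : ℕ => (Nat.unpair a).2)).comp (continuous_apply i))

theorem RGS_mv_pair (u v : ℕ → ℕ) : mv (fun n => Nat.pair (u n) (v n)) = u := by
  funext n
  simp [mv]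

theorem RGS_rt_pair (u v : ℕ → ℕ) : rt (fun n => Nat.pair (u n) (v n)) = v := by
  funext n
  simp [rt]

theorem RGS_hist (i : ℕ) : Continuous (fun v : ℕ → ℕ => Encodable.encode (hist v i)) := by
  have e : (fun v : ℕ → ℕ => Encodable.encode (hist v i)) =
      (fun a : Fin i → ℕ => Encodable.encode (List.ofFn a)) ∘
        (fun (v : ℕ → ℕ) (j : Fin i) => v j) := by
    funext v
    have h : hist v i = List.ofFn (fun j : Fin i => v j) := by
      apply List.ext_getElem
      · simp [hist]
      · intro n h1 h2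
        simp [hist]
    simp only [Function.comp_apply, h]
  rw [e]
  exact (continuous_of_discreteTopology
    (f := fun a : Fin i → ℕ => Encodable.encode (List.ofFn a))).comp
      (continuous_pi fun j => continuous_apply _)

theorem RGS_cst {F : Set (Set (ℕ → ℕ))} (hF : DetAlgebra F) (c : Prop) :
    {_z : ℕ → ℕ | c} ∈ F :=
  PAF_disc hF (fun _ => ()) continuous_const (fun _ => c)

/-- The code of a strategy. -/
theorem RGS_code (σ : List ℕ → ℕ) : ∃ s : ℕ → ℕ, (fun l => s (Encodable.encode l)) = σ := by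
  refine ⟨fun n => match Encodable.decode (α := List ℕ) n with
    | some l => σ l
    | none => 0, ?_⟩
  funext l
  simp only [Encodable.encodek]

/-- The consistency condition. -/
theorem RGS_cons {F : Set (Set (ℕ → ℕ))} (hF : DetAlgebra F) :
    {u : ℕ → ℕ | Cons 0 (fun l => rt (mv u) (Encodable.encode l)) (rt u)} ∈ F := by
  have h1 : {u : ℕ → ℕ | ∀ i, ∀ n, ¬ (i % 2 = 0) ∨ (¬ (Encodable.encode (hist (rt u) i) = n) ∨
      rt u i = rt (mv u) n)} ∈ F := by
    refine PAF_all hF (fun i => PAF_all hF (fun n => PAF_or hF (RGS_cst hF _) (PAF_or hF ?_ ?_)))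
    · exact PAF_disc hF (fun u => Encodable.encode (hist (rt u) i)) ((RGS_hist i).comp RGS_rt)
        (fun b => ¬ b = n)
    · exact PAF_disc hF (fun u => (rt u i, rt (mv u) n))
        (((continuous_apply i).comp RGS_rt).prodMk
          ((continuous_apply n).comp (RGS_rt.comp PAF_mv))) (fun b => b.1 = b.2)
  have h2 : {u : ℕ → ℕ | Cons 0 (fun l => rt (mv u) (Encodable.encode l)) (rt u)} =
      {u : ℕ → ℕ | ∀ i, ∀ n, ¬ (i % 2 = 0) ∨ (¬ (Encodable.encode (hist (rt u) i) = n) ∨
        rt u i = rt (mv u) n)} := by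
    ext u
    constructor
    · intro h i n
      by_cases hi : i % 2 = 0
      · right
        by_cases hn : Encodable.encode (hist (rt u) i) = n
        · right
          rw [← hn]
          exact h i hi
        · exact Or.inl hn
      · exact Or.inl hi
    · intro h i hi
      rcases h i (Encodable.encode (hist (rt u) i)) with h | h | h
      · exact absurd hi h
      · exact absurd rfl h
      · exact h
  rw [h2]
  exact h1

theorem p_RGS (_hFIN : Stmt_FIN) (hBGM : Stmt_BGM) : Stmt_RGS := by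
  intro F hF hproj E₀ hE g φ
  let X : (ℕ → ℕ) → (ℕ → ℕ) → Prop := fun w v => φ.tr (mv w) (Ts E₀ g w v)
  have hX : ∀ c c' : (ℕ → ℕ) → (ℕ → ℕ), Continuous c → Continuous c' →
      {u | X (c u) (c' u)} ∈ F := fun c c' hc hc' => hBGM F hF E₀ hE g φ c c' hc hc'
  -- the set D
  have hD : {u : ℕ → ℕ | ¬ Cons 0 (fun l => rt (mv u) (Encodable.encode l)) (rt u) ∨
      X (mv (mv u)) (rt u)} ∈ F :=
    PAF_or hF (PAF_not hF (RGS_cons hF)) (hX (fun u => mv (mv u)) rt (PAF_mv.comp PAF_mv) RGS_rt)
  have hD1 := hproj _ (PAF_not hF hD)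
  have hD2 := PAF_not hF hD1
  have hW := hproj _ hD2
  refine ⟨{w | ∃ σ : List ℕ → ℕ, ∀ v, Cons 0 σ v → X w v}, ?_, ?_⟩
  · have e : {w | ∃ σ : List ℕ → ℕ, ∀ v, Cons 0 σ v → X w v} =
        {z : ℕ → ℕ | ∃ u : ℕ → ℕ, (fun n => Nat.pair (z n) (u n)) ∈
          {z : ℕ → ℕ | ¬ z ∈ {z : ℕ → ℕ | ∃ u : ℕ → ℕ, (fun n => Nat.pair (z n) (u n)) ∈
            {z | ¬ (¬ Cons 0 (fun l => rt (mv z) (Encodable.encode l)) (rt z) ∨
              X (mv (mv z)) (rt z))}}}} := by
      ext w
      constructor
      · rintro ⟨σ, hσ⟩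
        obtain ⟨s, hs⟩ := RGS_code σ
        refine ⟨s, ?_⟩
        rintro ⟨v, hv⟩
        apply hv
        by_cases hc : Cons 0 σ v
        · right
          have h := hσ v hc
          change X (mv (mv _)) (rt _)
          rw [RGS_mv_pair, RGS_mv_pair, RGS_rt_pair]
          exact h
        · left
          rw [RGS_mv_pair, RGS_rt_pair, RGS_rt_pair, hs]
          exact hc
      · rintro ⟨s, hs⟩
        refine ⟨fun l => s (Encodable.encode l), fun v hc => ?_⟩
        by_contra hX'
        apply hs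
        refine ⟨v, ?_⟩
        rintro (h | h)
        · apply h
          rw [RGS_mv_pair, RGS_rt_pair, RGS_rt_pair]
          exact hc
        · apply hX'
          rw [RGS_mv_pair, RGS_mv_pair, RGS_rt_pair] at h
          exact h
    rw [e]
    exact hW
  · intro w
    constructor
    · rintro ⟨σ, hσ⟩
      exact ⟨σ, fun v hv => hσ v hv⟩
    · intro hw
      have hd : {v | X w v} ∈ F := hX (fun _ => w) (fun v => v) continuous_const continuous_id
      rcases hF.det _ hd with ⟨σ, hσ⟩ | ⟨τ, hτ⟩
      · exact absurd ⟨σ, fun v hv => hσ v (fun n => hv (2 * n) (by omega))⟩ hw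
      · refine ⟨τ, fun v hv => ?_⟩
        have h := hτ v (fun n => hv (2 * n + 1) (by omega))
        have e : nm 1 v ∩ Pu 1 g w ∪ nm (1 - 1) v ∩ Pu 0 g w =
            nm 0 v ∩ Pu 0 g w ∪ nm 1 v ∩ Pu 1 g w := Set.union_comm _ _
        rw [e]
        exact h

end Pool.LF
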