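import Pool.Agent.Work.MP_f36782_lf.Interface3
import Pool.Agent.Work.MP_f36782_lf.B_RNC

set_option autoImplicit false

/-! Block RNG: coded sets, with a general index type. -/

open MeasureTheory Pool.Agent.Work.RamseyAD

namespace Pool.LF

theorem p_RNG : Stmt_RNG := by
  classical
  intro ι D f hD X hX
  by_cases h1 : ∀ z : ι, {k | X k = true ∧ k ∈ D z}.Finite
  · refine ⟨X, hX, fun k hk => hk, ?_⟩
    rintro x hx ⟨N1, hN1⟩ ⟨z, ⟨N2, hN2⟩, hH⟩
    apply RNC_inf_of _ (h1 z)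
    intro n
    obtain ⟨k, hk, hfk, hkD⟩ := hH (max n (max N1 N2))
    have e1 : n ≤ k := le_trans (le_max_left _ _) hk
    have e2 : N1 ≤ k := le_trans (le_trans (le_max_left _ _) (le_max_right _ _)) hk
    have e3 : N2 ≤ k := le_trans (le_trans (le_max_right _ _) (le_max_right _ _)) hk
    refine ⟨k, e1, hN1 k e2 ?_, hkD⟩
    rw [hN2 k e3]
    exact hfk
  · push Not at h1
    obtain ⟨z0, hinf⟩ := h1
    obtain ⟨X', hX'⟩ : ∃ X' : C, ∀ k, X' k = true ↔ (X k = true ∧ k ∈ D z0) := by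
      refine ⟨fun k => decide (X k = true ∧ k ∈ D z0), ?_⟩
      intro k
      rw [decide_eq_true_iff]
    have hX'inf : Inf X' := by
      intro n
      obtain ⟨k, hk, hn⟩ := Set.infinite_iff_exists_gt.1 hinf n
      exact ⟨k, le_of_lt hn, (hX' k).2 hk⟩
    obtain ⟨Y, hYinf, hYX, hYf⟩ : ∃ Y : C, Inf Y ∧ Sub Y X' ∧
        (Inf (f z0) → ¬ ASub (f z0) Y) := by
      by_cases h2 : Inf (f z0) ∧ ASub (f z0) X'
      · obtain ⟨h3, N, hN⟩ := h2
        obtain ⟨x1, hx1⟩ : ∃ x1 : C, ∀ k, x1 k = true ↔ (f z0 k = true ∧ X' k = true) := by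
          refine ⟨fun k => decide (f z0 k = true ∧ X' k = true), ?_⟩
          intro k
          rw [decide_eq_true_iff]
        have hx1inf : Inf x1 := by
          intro n
          obtain ⟨k, hk, hfk⟩ := h3 (max n N)
          exact ⟨k, le_trans (le_max_left _ _) hk,
            (hx1 k).2 ⟨hfk, hN k (le_trans (le_max_right _ _) hk) hfk⟩⟩
        obtain ⟨Y, hY1, hY2, hY3⟩ := RNC_split x1 hx1inf
        refine ⟨Y, hY1, fun k hk => ((hx1 k).1 (hY2 k hk)).2, ?_⟩
        rintro - ⟨M, hM⟩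
        obtain ⟨k, hk, hxk, hyk⟩ := hY3 M
        have := hM k hk ((hx1 k).1 hxk).1
        rw [hyk] at this
        exact absurd this (by simp)
      · refine ⟨X', hX'inf, fun k hk => hk, ?_⟩
        intro h3 h4
        exact h2 ⟨h3, h4⟩
    refine ⟨Y, hYinf, fun k hk => ((hX' k).1 (hYX k hk)).1, ?_⟩
    rintro x hx ⟨N1, hN1⟩ ⟨z, ⟨N2, hN2⟩, hH⟩
    have hzz : z = z0 := by
      by_contra hne
      apply RNC_inf_of _ (hD z z0 hne)
      intro n
      obtain ⟨k, hk, hfk, hkD⟩ := hH (max n (max N1 N2))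
      have e1 : n ≤ k := le_trans (le_max_left _ _) hk
      have e2 : N1 ≤ k := le_trans (le_trans (le_max_left _ _) (le_max_right _ _)) hk
      have e3 : N2 ≤ k := le_trans (le_trans (le_max_right _ _) (le_max_right _ _)) hk
      refine ⟨k, e1, hkD, ?_⟩
      have h5 : x k = true := by
        rw [hN2 k e3]
        exact hfk
      exact ((hX' k).1 (hYX k (hN1 k e2 h5))).2
    subst hzz
    apply hYf
    · intro n
      obtain ⟨k, hk, hfk, _⟩ := hH n
      exact ⟨k, hk, hfk⟩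
    · refine ⟨max N1 N2, ?_⟩
      intro k hk hfk
      apply hN1 k (le_trans (le_max_left _ _) hk)
      rw [hN2 k (le_trans (le_max_right _ _) hk)]
      exact hfk

end Pool.LF
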