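import Pool.Agent.Work.MP_f36782_lf.Interface4
import Pool.Agent.Work.MP_f36782_lf.B_PAF

set_option autoImplicit false

/-! # Block RFP: positive operations can be decided (helper18) -/

open MeasureTheory Pool.Agent.Work.RamseyAD

namespace Pool.LF

theorem RFP_inf {x y : C} (h : AEq x y) (hx : Inf x) : Inf y := by
  obtain ⟨N, hN⟩ := h
  intro n
  obtain ⟨k, hk, hxk⟩ := hx (max n N)
  exact ⟨k, le_trans (le_max_left _ _) hk, by rw [← hN k (le_trans (le_max_right _ _) hk)]; exact hxk⟩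

theorem RFP_hit {x y : C} {S : Set ℕ} (h : AEq x y) (hy : Hit y S) : Hit x S := by
  obtain ⟨N, hN⟩ := h
  intro n
  obtain ⟨k, hk, hyk, hkS⟩ := hy (max n N)
  exact ⟨k, le_trans (le_max_left _ _) hk, by rw [hN k (le_trans (le_max_right _ _) hk)]; exact hyk,
    hkS⟩

theorem RFP_pu {E₀ : C → C → Prop} (hE : EqR E₀) {g : ℕ → MM} {w : ℕ → ℕ} {p i j : ℕ}
    (hi : i ∈ Pu p g w) (hij : ER E₀ g (mv w) i j) : j ∈ Pu p g w := by
  have h1 := hE.le _ _ hij
  exact ⟨RFP_inf h1 hi.1, fun h2 => hi.2 (RFP_hit h1 h2)⟩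

theorem RFP_mono (hFMA : Stmt_FMA) {F : Set (Set (ℕ → ℕ))} (g : ℕ → MM) (φ : Fm F MM)
    (z : ℕ → ℕ) {T T' : Set ℕ} (hT : T ⊆ T') (h : trP g φ z T) : trP g φ z T' := by
  refine (hFMA _ _ φ).2 _ _ _ (fun l _ hl => ?_) h
  obtain ⟨j, hj, hjl⟩ := hl
  exact ⟨j, hT hj, hjl⟩

theorem RFP_mem (hFIN : Stmt_FIN) (hPUM : Stmt_PUM) {F : Set (Set (ℕ → ℕ))} (hF : DetAlgebra F)
    (g : ℕ → MM) (φ : Fm F MM) : {w | trP g φ (mv w) (Pu 0 g w)} ∈ F := by
  have hcst : ∀ c : Prop, {_z : ℕ → ℕ | c} ∈ F := fun c =>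
    PAF_disc hF (fun _ => ()) continuous_const (fun _ => c)
  unfold trP
  induction φ with
  | base k => exact hF.preimage k.1 k.2 mv PAF_mv
  | pre f =>
    exact PAF_ex hF (fun j => PAF_and hF ((hFIN F hF).1 _ (hPUM g 0 j)) (hcst (g j = f)))
  | uni φ ih => exact PAF_ex hF ih
  | int φ ih => exact PAF_all hF ih

theorem p_RFP (hFIN : Stmt_FIN) (hPUM : Stmt_PUM) (hFMA : Stmt_FMA) : Stmt_RFP := by
  intro F hF E₀ hE g φ
  refine ⟨{w | trP g φ (mv w) (Pu 0 g w)}, RFP_mem hFIN hPUM hF g φ, fun w => ⟨fun hw => ?_,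
    fun hw => ?_⟩⟩
  · refine ⟨fun _ b => b = Pu 0 g w, fun _ _ => 0, 0, ?_, ?_, ?_, ?_, ?_⟩
    · rintro a b rfl
      exact subset_rfl
    · exact ⟨_, rfl⟩
    · intro a b a' h1 _ _ h2
      exact absurd h1 h2
    · intro a b
      exact le_rfl
    · rintro a b rfl _
      refine RFP_mono hFMA g φ (mv w) ?_ hw
      intro j hj
      exact ⟨j, Or.inr hj, hE.equiv.refl _⟩
  · refine ⟨fun _ b => b = ∅, fun _ _ => 0, 0, ?_, ?_, ?_, ?_, ?_⟩
    · rintro a b rfl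
      exact Set.empty_subset _
    · exact ⟨_, rfl⟩
    · intro a b a' h1 _ _ h2
      exact absurd h1 h2
    · intro a b
      exact le_rfl
    · rintro a b rfl ha h
      apply hw
      refine RFP_mono hFMA g φ (mv w) ?_ h
      rintro j ⟨i, hi, hij⟩
      rcases hi with hi | hi
      · exact RFP_pu hE (ha hi) hij
      · exact absurd hi (Set.notMem_empty _)

end Pool.LF
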