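import Pool.Agent.Work.MP_f36782_lf.Interface7
import Pool.Agent.Work.MP_f36782_lf.B_RFP

set_option autoImplicit false

/-! # Block RPS: positive operations, the naming game (helper71) -/

open MeasureTheory Pool.Agent.Work.RamseyAD

namespace Pool.LF

theorem RPS_hist (v : ℕ → ℕ) (n : ℕ) : (hist v n).length = n := by
  simp [hist]

theorem p_RPS (hFIN : Stmt_FIN) (hPUM : Stmt_PUM) (hFMA : Stmt_FMA) : Stmt_RPS := by
  intro F hF E₀ hE g φ
  refine ⟨{w | trP g φ (mv w) (Pu 0 g w)}, RFP_mem hFIN hPUM hF g φ, fun w => ⟨fun hw => ?_,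
    fun hw => ?_⟩⟩
  · refine ⟨fun l => l.length / 2 + 1, fun v hv => ?_⟩
    refine RFP_mono hFMA g φ (mv w) ?_ hw
    intro j hj
    refine ⟨j, Or.inl ⟨⟨2 * j, by omega, ?_⟩, hj⟩, hE.equiv.refl _⟩
    have h : v (2 * j) = (hist v (2 * j)).length / 2 + 1 := hv (2 * j) (by omega)
    rw [h, RPS_hist]
    omega
  · refine ⟨fun _ => 0, fun v hv => ?_⟩
    intro h
    apply hw
    refine RFP_mono hFMA g φ (mv w) ?_ h
    rintro j ⟨i, hi, hij⟩
    rcases hi with hi | hi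
    · obtain ⟨⟨n, hn, hvn⟩, -⟩ := hi
      have h1 : v n = 0 := hv n hn
      omega
    · exact RFP_pu hE hi.2 hij

end Pool.LF
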