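import Pool.Agent.Work.MP_f36782_lf.Interface3
import Pool.Agent.Work.MP_f36782_lf.B_SIM
import Pool.Agent.Work.MP_f36782_lf.B_SIB

set_option autoImplicit false

/-! # Block SIF: simultaneous simulation of a family of games -/

open MeasureTheory Pool.Agent.Work.RamseyAD

namespace Pool.LF

lemma SIF_hist_map (r z : ℕ → ℕ) (i : ℕ) :
    (hist (prb r z) i).map (fun a => (Nat.unpair a).2) = hist z i := by
  simp only [hist, List.map_map]
  refine List.map_congr_left fun a _ => ?_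
  simp [prb]

lemma SIF_hist_congr {z z' : ℕ → ℕ} (i : ℕ) (h : ∀ j, j < i → z j = z' j) :
    hist z i = hist z' i := by
  simp only [hist]
  exact List.map_congr_left fun a ha => h a (List.mem_range.1 ha)

/-- the prescribed lengths -/
def SIF_n (g r z : ℕ → ℕ) (i : ℕ) : ℕ := g (SIM_cd (hist (prb r z) (i + 1)))

lemma SIF_n_congr (g r : ℕ → ℕ) {z z' : ℕ → ℕ} (i : ℕ) (h : ∀ j, j < i + 1 → z j = z' j) :
    SIF_n g r z i = SIF_n g r z' i := by
  unfold SIF_n
  rw [SIF_hist_congr (z := prb r z) (z' := prb r z') (i + 1) fun j hj => by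
    unfold prb
    rw [h j hj]]

/-- the simulated run -/
def SIF_Phi (p : ℕ) (T : List ℕ → ℕ) (g r z : ℕ → ℕ) (i : ℕ) : ℕ :=
  SIM_nx p T i (z i) (SIF_n g r z i) (SIM_sm p T z (SIF_n g r z) i)

lemma SIF_hist_Phi (p : ℕ) (T : List ℕ → ℕ) (g r z : ℕ → ℕ) (i : ℕ) :
    hist (SIF_Phi p T g r z) i = SIM_sm p T z (SIF_n g r z) i := by
  induction i with
  | zero => simp [hist, SIM_sm]
  | succ i ih => rw [hist_succ, SIM_sm_succ, ih, SIF_Phi]

/-- the strategy -/
def SIF_s (p : ℕ) (T : List ℕ → ℕ) (g r : ℕ → ℕ) (l : List ℕ) : ℕ :=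
  (Nat.unpair (T (SIM_sm p T (fun j => l.getD j 0) (SIF_n g r (fun j => l.getD j 0))
    l.length))).1

lemma SIF_s_hist (p : ℕ) (T : List ℕ → ℕ) (g r z : ℕ → ℕ) (i : ℕ) :
    SIF_s p T g r (hist z i) = (Nat.unpair (T (SIM_sm p T z (SIF_n g r z) i))).1 := by
  unfold SIF_s
  rw [hist_length]
  congr 3
  exact SIM_sm_congr p T i fun j hj => ⟨hist_getD z hj,
    SIF_n_congr g r j fun a ha => hist_getD z (by omega)⟩

/-- the function to be dominated -/
def SIF_rho (p : ℕ) (T : List ℕ → ℕ) (w : List ℕ) : ℕ :=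
  (Finset.range (w.sum + 1)).sup fun m =>
    SIM_F p T ((SIM_dc m).map fun a => (Nat.unpair a).2) w

lemma SIF_le_rho (p : ℕ) (T : List ℕ → ℕ) (r z : ℕ → ℕ) (i : ℕ) (w : List ℕ)
    (h : SIM_cd (hist (prb r z) i) ≤ w.sum) : SIM_F p T (hist z i) w ≤ SIF_rho p T w := by
  have h1 := Finset.le_sup (f := fun m => SIM_F p T ((SIM_dc m).map fun a => (Nat.unpair a).2) w)
    (Finset.mem_range.2 (Nat.lt_succ_of_le h))
  simp only [SIM_dc_cd, SIF_hist_map] at h1
  exact h1

/-- the domination -/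
lemma SIF_key (p : ℕ) (T : List ℕ → ℕ) (g r : ℕ → ℕ) (hg : StrictMono g) (N : ℕ)
    (hfast : ∀ k : ℕ → ℕ, StrictMono k → ∀ i, N ≤ k i →
      SIF_rho p T (hist (fun j => g (k j)) i) < g (k i))
    (z : ℕ → ℕ) (i : ℕ) (k' : ℕ → ℕ) (hk' : StrictMono k')
    (hk : ∀ j, j < i → k' j = SIM_cd (hist (prb r z) (j + 1))) (hN : N ≤ k' i) :
    SIM_L (SIM_sm p T z (SIF_n g r z) i) +
      (Nat.unpair (T (SIM_sm p T z (SIF_n g r z) i))).2 < g (k' i) := by
  have h1 : hist (fun j => g (k' j)) i = hist (SIF_n g r z) i :=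
    SIF_hist_congr i fun j hj => by rw [hk j hj, SIF_n]
  have h2 := hfast k' hk' i hN
  rw [h1] at h2
  refine lt_of_le_of_lt ?_ h2
  rw [← SIM_F_hist]
  apply SIF_le_rho p T r
  rcases i with _ | i
  · simp [hist, SIM_cd]
  · rw [hist_succ (SIF_n g r z), List.sum_append, List.sum_singleton]
    have h3 : SIM_cd (hist (prb r z) (i + 1)) ≤ SIF_n g r z i := hg.id_le _
    omega

/-- the simulation of one game -/
lemma SIF_one (p : ℕ) (T : List ℕ → ℕ) (g r : ℕ → ℕ) (hp : p < 2) (hg : StrictMono g) (N : ℕ)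
    (hfast : ∀ k : ℕ → ℕ, StrictMono k → ∀ i, N ≤ k i →
      SIF_rho p T (hist (fun j => g (k j)) i) < g (k i))
    (z : ℕ → ℕ) (hz : Cons p (SIF_s p T g r) z) :
    Cons p T (SIF_Phi p T g r z) ∧ mv (SIF_Phi p T g r z) = z ∧
      (∀ M, ∃ j, M ≤ len (SIF_Phi p T g r z) j) ∧
      ∃ K, ∀ m ∈ own p (SIF_Phi p T g r z), K ≤ m → m ∈ Br (SIB_B g) (prb r z) := by
  have key := SIF_key p T g r hg N hfast
  have hcd : ∀ i, i ≤ SIM_cd (hist (prb r z) (i + 1)) := fun i =>
    (SIM_cd_strictMono (prb r z)).id_le i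
  have hL : ∀ i, N ≤ i → SIM_L (SIM_sm p T z (SIF_n g r z) i) < SIF_n g r z i := by
    intro i hi
    have h1 := key z i (fun i => SIM_cd (hist (prb r z) (i + 1))) (SIM_cd_strictMono (prb r z))
      (fun j _ => rfl) (hi.trans (hcd i))
    have h2 : SIF_n g r z i = g (SIM_cd (hist (prb r z) (i + 1))) := rfl
    omega
  have hlen : ∀ i, len (SIF_Phi p T g r z) i = SIM_L (SIM_sm p T z (SIF_n g r z) i) := by
    intro i
    rw [SIM_len, SIF_hist_Phi]
  have hlen2 : ∀ i, i % 2 ≠ p → N ≤ i → len (SIF_Phi p T g r z) (i + 1) = SIF_n g r z i := by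
    intro i hi hN
    rw [hlen, SIM_sm_succ, SIM_L_append, SIM_nx, if_neg hi, Nat.unpair_pair]
    have := hL i hN
    dsimp only
    omega
  have hlen3 : ∀ i, i % 2 = p → N + 1 ≤ i →
      g (SIM_cd (hist (prb r z) i)) = len (SIF_Phi p T g r z) i ∧
      len (SIF_Phi p T g r z) (i + 1) < g (SIM_cd (hist (prb r z) i) + 1) := by
    intro i hi h1
    obtain ⟨i, rfl⟩ := Nat.exists_eq_add_of_le' (show 1 ≤ i by omega)
    constructor
    · rw [hlen2 i (by omega) (by omega)]
      rfl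
    · rw [hlen, SIM_sm_succ, SIM_L_append, SIM_nx, if_pos hi]
      have hk' : StrictMono fun j => if j < i + 1 then SIM_cd (hist (prb r z) (j + 1)) else
          SIM_cd (hist (prb r z) (i + 1)) + (j - i) := by
        refine strictMono_nat_of_lt_succ fun j => ?_
        by_cases hj : j + 1 < i + 1
        · rw [if_pos hj, if_pos (by omega)]
          exact SIM_cd_strictMono (prb r z) (Nat.lt_succ_self j)
        · rw [if_neg hj]
          by_cases hj' : j < i + 1
          · rw [if_pos hj']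
            have : j = i := by omega
            subst this
            omega
          · rw [if_neg hj']
            omega
      have h2 := key z (i + 1) _ hk' (fun j hj => if_pos hj) (by
        rw [if_neg (by omega)]
        have := hcd i
        omega)
      rw [if_neg (by omega), Nat.add_sub_cancel_left] at h2
      exact h2
  refine ⟨fun i hi => ?_, ?_, fun M => ?_, len (SIF_Phi p T g r z) (N + 1), ?_⟩
  · rw [SIF_hist_Phi, SIF_Phi, SIM_nx, if_pos hi]
  · funext i
    show (Nat.unpair (SIF_Phi p T g r z i)).1 = z i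
    rw [SIF_Phi, SIM_nx]
    by_cases hi : i % 2 = p
    · rw [if_pos hi, ← SIF_s_hist]
      exact (hz i hi).symm
    · rw [if_neg hi, Nat.unpair_pair]
  · refine ⟨2 * (M + N) + 1 - p + 1, ?_⟩
    rw [hlen2 _ (by omega) (by omega)]
    have h1 : SIM_cd (hist (prb r z) (2 * (M + N) + 1 - p + 1)) ≤
      SIF_n g r z (2 * (M + N) + 1 - p) := hg.id_le _
    have h2 := hcd (2 * (M + N) + 1 - p)
    omega
  · have hmono : Monotone (len (SIF_Phi p T g r z)) :=
      monotone_nat_of_le_succ fun i => by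
        unfold len
        rw [Finset.sum_range_succ]
        omega
    rintro m ⟨i, hi, h1, h2⟩ hK
    have hi1 : N + 1 ≤ i := by
      by_contra hc
      have := hmono (show i + 1 ≤ N + 1 by omega)
      omega
    obtain ⟨e1, e2⟩ := hlen3 i hi hi1
    exact ⟨i, by rw [e1]; exact h1, h2.trans e2⟩

theorem p_SIF (hFDM : Stmt_FDM) : Stmt_SIF := by
  intro I hI r p T hp
  obtain ⟨g, hg, hfast⟩ := hFDM I hI fun i => SIF_rho (p i) (T i)
  refine ⟨fun i => SIF_s (p i) (T i) g (r i), fun i => SIF_Phi (p i) (T i) g (r i), SIB_B g,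
    SIB_blk hg, fun i z hz => ?_⟩
  obtain ⟨N, hN⟩ := hfast i
  exact SIF_one (p i) (T i) g (r i) (hp i) hg N hN z hz

end Pool.LF
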