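import Pool.Agent.Work.MP_f36782_lf.Interface7

set_option autoImplicit false

/-! # Block SST: from a finitary response system to a strategy in the naming game (helper25) -/

open MeasureTheory Pool.Agent.Work.RamseyAD

namespace Pool.LF

open Classical in
/-- The next state. -/
noncomputable def SST_nx (Sy : Set ℕ → Set ℕ → Prop) (ρ : Set ℕ → Set ℕ → ℕ)
    (q : Set ℕ × Set ℕ) (a' : Set ℕ) : Set ℕ × Set ℕ :=
  if Sy a' q.2 then q else
    if h : ∃ b', q.2 ⊆ b' ∧ Sy a' b' ∧ ρ q.1 q.2 < ρ a' b' then (a', h.choose) else q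

/-- The states along an increasing sequence of sets. -/
noncomputable def SST_it (Sy : Set ℕ → Set ℕ → Prop) (ρ : Set ℕ → Set ℕ → ℕ) (b0 : Set ℕ)
    (A : ℕ → Set ℕ) : ℕ → Set ℕ × Set ℕ
  | 0 => (∅, b0)
  | n + 1 => SST_nx Sy ρ (SST_it Sy ρ b0 A n) (A (n + 1))

/-- The indices named by the opponent. -/
def SST_A (p : ℕ) (J' : Set ℕ) (l : List ℕ) : Set ℕ :=
  {j | j ∈ J' ∧ ∃ i, i % 2 = 1 - p ∧ l[i]? = some (j + 1)}

theorem SST_nx_spec {J J' : Set ℕ} {Φ : Set ℕ → Prop} {Sy : Set ℕ → Set ℕ → Prop}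
    {ρ : Set ℕ → Set ℕ → ℕ} {k : ℕ} (hS : Sys J J' Φ Sy ρ k) (q : Set ℕ × Set ℕ) (a' : Set ℕ)
    (h1 : Sy q.1 q.2) (h2 : q.1 ⊆ a') (h3 : a' ⊆ J') :
    Sy (SST_nx Sy ρ q a').1 (SST_nx Sy ρ q a').2 ∧ (SST_nx Sy ρ q a').1 ⊆ a' ∧
      Sy a' (SST_nx Sy ρ q a').2 ∧ q.2 ⊆ (SST_nx Sy ρ q a').2 ∧
      (SST_nx Sy ρ q a' = q ∨
        ρ q.1 q.2 < ρ (SST_nx Sy ρ q a').1 (SST_nx Sy ρ q a').2) := by
  by_cases h : Sy a' q.2
  · have e : SST_nx Sy ρ q a' = q := by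
      unfold SST_nx
      rw [if_pos h]
    rw [e]
    exact ⟨h1, h2, h, subset_rfl, Or.inl rfl⟩
  · have hex := hS.step q.1 q.2 a' h1 h2 h3 h
    have e : SST_nx Sy ρ q a' = (a', hex.choose) := by
      unfold SST_nx
      rw [if_neg h, dif_pos hex]
    have hc := hex.choose_spec
    rw [e]
    exact ⟨hc.2.1, subset_rfl, hc.2.1, hc.1, Or.inr hc.2.2⟩

theorem SST_inv {J J' : Set ℕ} {Φ : Set ℕ → Prop} {Sy : Set ℕ → Set ℕ → Prop}
    {ρ : Set ℕ → Set ℕ → ℕ} {k : ℕ} (hS : Sys J J' Φ Sy ρ k) (b0 : Set ℕ) (hb : Sy ∅ b0)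
    (A : ℕ → Set ℕ) (h0 : A 0 = ∅) (hm : Monotone A) (hA : ∀ n, A n ⊆ J') (n : ℕ) :
    Sy (SST_it Sy ρ b0 A n).1 (SST_it Sy ρ b0 A n).2 ∧ (SST_it Sy ρ b0 A n).1 ⊆ A n ∧
      Sy (A n) (SST_it Sy ρ b0 A n).2 := by
  induction n with
  | zero =>
    refine ⟨hb, Set.empty_subset _, ?_⟩
    rw [h0]
    exact hb
  | succ n ih =>
    obtain ⟨h1, h2, h3, -, -⟩ := SST_nx_spec hS (SST_it Sy ρ b0 A n) (A (n + 1)) ih.1
      (ih.2.1.trans (hm (Nat.le_succ n))) (hA _)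
    exact ⟨h1, h2, h3⟩

theorem SST_step {J J' : Set ℕ} {Φ : Set ℕ → Prop} {Sy : Set ℕ → Set ℕ → Prop}
    {ρ : Set ℕ → Set ℕ → ℕ} {k : ℕ} (hS : Sys J J' Φ Sy ρ k) (b0 : Set ℕ) (hb : Sy ∅ b0)
    (A : ℕ → Set ℕ) (h0 : A 0 = ∅) (hm : Monotone A) (hA : ∀ n, A n ⊆ J') (n : ℕ) :
    (SST_it Sy ρ b0 A n).2 ⊆ (SST_it Sy ρ b0 A (n + 1)).2 ∧
      (SST_it Sy ρ b0 A (n + 1) = SST_it Sy ρ b0 A n ∨
        ρ (SST_it Sy ρ b0 A n).1 (SST_it Sy ρ b0 A n).2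
          < ρ (SST_it Sy ρ b0 A (n + 1)).1 (SST_it Sy ρ b0 A (n + 1)).2) := by
  have ih := SST_inv hS b0 hb A h0 hm hA n
  obtain ⟨-, -, -, h4, h5⟩ := SST_nx_spec hS (SST_it Sy ρ b0 A n) (A (n + 1)) ih.1
    (ih.2.1.trans (hm (Nat.le_succ n))) (hA _)
  exact ⟨h4, h5⟩

theorem SST_congr (Sy : Set ℕ → Set ℕ → Prop) (ρ : Set ℕ → Set ℕ → ℕ) (b0 : Set ℕ)
    (A A' : ℕ → Set ℕ) (n : ℕ) (h : ∀ i, i ≤ n → A i = A' i) :
    SST_it Sy ρ b0 A n = SST_it Sy ρ b0 A' n := by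
  induction n with
  | zero => rfl
  | succ n ih =>
    change SST_nx Sy ρ (SST_it Sy ρ b0 A n) (A (n + 1))
      = SST_nx Sy ρ (SST_it Sy ρ b0 A' n) (A' (n + 1))
    rw [ih fun i hi => h i (by omega), h (n + 1) le_rfl]

/-- The states are eventually constant. -/
theorem SST_const {J J' : Set ℕ} {Φ : Set ℕ → Prop} {Sy : Set ℕ → Set ℕ → Prop}
    {ρ : Set ℕ → Set ℕ → ℕ} {k : ℕ} (hS : Sys J J' Φ Sy ρ k) (b0 : Set ℕ) (hb : Sy ∅ b0)
    (A : ℕ → Set ℕ) (h0 : A 0 = ∅) (hm : Monotone A) (hA : ∀ n, A n ⊆ J') :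
    ∃ n₀, ∀ n, n₀ ≤ n → SST_it Sy ρ b0 A n = SST_it Sy ρ b0 A n₀ := by
  set f : ℕ → ℕ := fun n => ρ (SST_it Sy ρ b0 A n).1 (SST_it Sy ρ b0 A n).2 with hf
  have hbd : BddAbove (Set.range f) := by
    refine ⟨k, ?_⟩
    rintro _ ⟨n, rfl⟩
    exact hS.bdd _ _
  obtain ⟨n₀, hn₀⟩ := Nat.sSup_mem (Set.range_nonempty f) hbd
  have hmax : ∀ n, f n ≤ f n₀ := by
    intro n
    rw [hn₀]
    exact le_csSup hbd (Set.mem_range_self n)
  refine ⟨n₀, fun n hn => ?_⟩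
  induction n, hn using Nat.le_induction with
  | base => rfl
  | succ n hn ih =>
    rcases (SST_step hS b0 hb A h0 hm hA n).2 with h1 | h1
    · rw [h1, ih]
    · have h2 := hmax (n + 1)
      have h3 : f n₀ < f (n + 1) := by
        have h4 : f n < f (n + 1) := h1
        have h5 : f n = f n₀ := by
          simp only [hf]
          rw [ih]
        rwa [h5] at h4
      exact absurd h2 (not_le.2 h3)

theorem SST_mono {J J' : Set ℕ} {Φ : Set ℕ → Prop} {Sy : Set ℕ → Set ℕ → Prop}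
    {ρ : Set ℕ → Set ℕ → ℕ} {k : ℕ} (hS : Sys J J' Φ Sy ρ k) (b0 : Set ℕ) (hb : Sy ∅ b0)
    (A : ℕ → Set ℕ) (h0 : A 0 = ∅) (hm : Monotone A) (hA : ∀ n, A n ⊆ J') {n m : ℕ}
    (h : n ≤ m) : (SST_it Sy ρ b0 A n).2 ⊆ (SST_it Sy ρ b0 A m).2 := by
  induction m, h using Nat.le_induction with
  | base => exact subset_rfl
  | succ m _ ih => exact ih.trans (SST_step hS b0 hb A h0 hm hA m).1

theorem SST_len (v : ℕ → ℕ) (n : ℕ) : (hist v n).length = n := by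
  simp [hist]

theorem SST_take (v : ℕ → ℕ) {n m : ℕ} (h : n ≤ m) : (hist v m).take n = hist v n := by
  unfold hist
  rw [← List.map_take, List.take_range, min_eq_left h]

theorem SST_get (v : ℕ → ℕ) (n i c : ℕ) :
    (hist v n)[i]? = some c ↔ i < n ∧ v i = c := by
  unfold hist
  rw [List.getElem?_map]
  by_cases h : i < n
  · rw [List.getElem?_range h]
    simp [h]
  · rw [List.getElem?_eq_none (by simpa using not_lt.1 h)]
    simp [h]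

theorem SST_memA (p : ℕ) (J' : Set ℕ) (v : ℕ → ℕ) (n j : ℕ) :
    j ∈ SST_A p J' (hist v n) ↔ j ∈ J' ∧ ∃ i, i % 2 = 1 - p ∧ i < n ∧ v i = j + 1 := by
  unfold SST_A
  constructor
  · rintro ⟨h1, i, h2, h3⟩
    exact ⟨h1, i, h2, (SST_get v n i _).1 h3⟩
  · rintro ⟨h1, i, h2, h3⟩
    exact ⟨h1, i, h2, (SST_get v n i _).2 h3⟩

theorem p_SST : Stmt_SST := by
  classical
  intro p hp J J' Φ hF
  obtain ⟨Sy, ρ, k, hS, hfin⟩ := hF
  obtain ⟨b0, hb0⟩ := hS.init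
  refine ⟨fun l => if (Nat.unpair (l.length / 2)).1 ∈
    (SST_it Sy ρ b0 (fun i => SST_A p J' (l.take i)) l.length).2 then
      (Nat.unpair (l.length / 2)).1 + 1 else 0, fun v hv => ?_⟩
  set A : ℕ → Set ℕ := fun n => SST_A p J' (hist v n) with hA
  have h0 : A 0 = ∅ := by
    ext j
    constructor
    · intro hj
      obtain ⟨-, i, -, h, -⟩ := (SST_memA p J' v 0 j).1 hj
      exact absurd h (Nat.not_lt_zero i)
    · exact fun h => absurd h (Set.notMem_empty j)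
  have hm : Monotone A := by
    intro a b hab j hj
    obtain ⟨h1, i, h2, h3, h4⟩ := (SST_memA p J' v a j).1 hj
    exact (SST_memA p J' v b j).2 ⟨h1, i, h2, lt_of_lt_of_le h3 hab, h4⟩
  have hJ' : ∀ n, A n ⊆ J' := fun n j hj => ((SST_memA p J' v n j).1 hj).1
  obtain ⟨n₀, hn₀⟩ := SST_const hS b0 hb0 A h0 hm hJ'
  have hv' : ∀ n, n % 2 = p → v n = if (Nat.unpair (n / 2)).1 ∈ (SST_it Sy ρ b0 A n).2 then
      (Nat.unpair (n / 2)).1 + 1 else 0 := by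
    intro n hn
    have h1 := hv n hn
    simp only [SST_len] at h1
    have h2 : SST_it Sy ρ b0 (fun i => SST_A p J' ((hist v n).take i)) n = SST_it Sy ρ b0 A n :=
      SST_congr Sy ρ b0 _ _ n fun i hi => by
        simp only [hA]
        rw [SST_take v hi]
    rw [h2] at h1
    exact h1
  have e1 : nm p v ∩ J = (SST_it Sy ρ b0 A n₀).2 := by
    ext j
    constructor
    · rintro ⟨⟨n, hn, hj⟩, -⟩
      have h1 := hv' n hn
      rw [hj] at h1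
      by_cases h2 : (Nat.unpair (n / 2)).1 ∈ (SST_it Sy ρ b0 A n).2
      · rw [if_pos h2] at h1
        have h3 : j = (Nat.unpair (n / 2)).1 := Nat.succ_injective h1
        rw [← h3] at h2
        rcases le_total n n₀ with h4 | h4
        · exact SST_mono hS b0 hb0 A h0 hm hJ' h4 h2
        · rw [hn₀ n h4] at h2
          exact h2
      · rw [if_neg h2] at h1
        exact absurd h1 (Nat.succ_ne_zero j)
    · intro hj
      refine ⟨⟨2 * Nat.pair j n₀ + p, by omega, ?_⟩,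
        hS.sub _ _ (SST_inv hS b0 hb0 A h0 hm hJ' n₀).1 hj⟩
      have h1 : (2 * Nat.pair j n₀ + p) / 2 = Nat.pair j n₀ := by omega
      have h2 : n₀ ≤ 2 * Nat.pair j n₀ + p := by
        have h3 := Nat.right_le_pair j n₀
        omega
      rw [hv' _ (by omega), h1, Nat.unpair_pair, hn₀ _ h2, if_pos hj]
  have e2 : nm (1 - p) v ∩ J' = ⋃ n, A (n₀ + n) := by
    ext j
    rw [Set.mem_iUnion]
    constructor
    · rintro ⟨⟨n, hn, hj⟩, h1⟩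
      exact ⟨n + 1, (SST_memA p J' v _ j).2 ⟨h1, n, hn, by omega, hj⟩⟩
    · rintro ⟨n, hn⟩
      obtain ⟨h1, i, h2, -, h4⟩ := (SST_memA p J' v _ j).1 hn
      exact ⟨⟨i, h2, h4⟩, h1⟩
  rw [e1, e2, Set.union_comm]
  refine hfin (fun n => A (n₀ + n)) _ (fun a b hab => hm (by omega)) fun n => ⟨hJ' _, ?_⟩
  have h1 := (SST_inv hS b0 hb0 A h0 hm hJ' (n₀ + n)).2.2
  rw [hn₀ (n₀ + n) (by omega)] at h1
  exact h1

end Pool.LF
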