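import Pool.Agent.Work.MP_f36782_lf.Interface4

set_option autoImplicit false

/-!
# Block ZER: the finite game is determined (Zermelo)
-/

open MeasureTheory Pool.Agent.Work.RamseyAD

namespace Pool.LF

theorem ZER_phi {Φ : Set ℕ → Prop} {J J' : Set ℕ} {Q : Set (Set ℕ)} {n : ℕ} {s : Set ℕ}
    (hL : Lw Φ J J' Q n s) : Φ s := by
  cases n with
  | zero => exact hL
  | succ n => exact hL.1

theorem ZER_card {k : ℕ} (A : Set (Fin k)) : A.ncard ≤ k := by
  have h := Set.ncard_le_ncard (Set.subset_univ A)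
  rwa [Set.ncard_univ, Nat.card_fin] at h

theorem ZER_lt {k : ℕ} {v : Set ℕ → Set (Fin k)} {h : Set (Fin k) → Prop} (hv : Monotone v)
    {s s' : Set ℕ} (hs : s ⊆ s') (hne : ¬ (h (v s) ↔ h (v s'))) :
    (v s).ncard < (v s').ncard := by
  refine Set.ncard_lt_ncard ((hv hs).ssubset_of_ne ?_) (Set.toFinite _)
  intro he
  exact hne (by rw [he])

theorem ZER_up (k : ℕ) (v : Set ℕ → Set (Fin k)) (h : Set (Fin k) → Prop) (J J' : Set ℕ)
    (Q : Set (Set ℕ)) (hv : Monotone v) : ∀ (d : ℕ) (s : Set ℕ), k ≤ d + (v s).ncard →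
    Lw (fun s => h (v s)) J J' Q d s → ∀ n, Lw (fun s => h (v s)) J J' Q n s := by
  intro d
  induction d with
  | zero =>
    intro s hk hL n
    have hΦ : h (v s) := ZER_phi hL
    cases n with
    | zero => exact hΦ
    | succ n =>
      refine ⟨hΦ, ?_⟩
      intro s' hs' hss' hJ' hΦ'
      exfalso
      have h1 : (v s).ncard < (v s').ncard := ZER_lt hv hss' (fun hi => hΦ' (hi.1 hΦ))
      have h2 := ZER_card (v s')
      omega
  | succ d ih =>
    intro s hk hL n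
    have hΦ : h (v s) := ZER_phi hL
    cases n with
    | zero => exact hΦ
    | succ n =>
      refine ⟨hΦ, ?_⟩
      intro s' hs' hss' hJ' hΦ'
      obtain ⟨s'', hQ, hsub, hJ, hL'⟩ := hL.2 s' hs' hss' hJ' hΦ'
      have h1 : (v s).ncard < (v s').ncard := ZER_lt hv hss' (fun hi => hΦ' (hi.1 hΦ))
      have hΦ2 : h (v s'') := ZER_phi hL'
      have h2 : (v s').ncard < (v s'').ncard := ZER_lt hv hsub (fun hi => hΦ' (hi.2 hΦ2))
      exact ⟨s'', hQ, hsub, hJ, ih s'' (by omega) hL' n⟩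

theorem ZER_claim (Φ : Set ℕ → Prop) (J J' : Set ℕ) (Q : Set (Set ℕ)) :
    ∀ (n : ℕ) (s : Set ℕ), Φ s → ¬ Lw Φ J J' Q n s →
    ∃ s' ∈ Q, s ⊆ s' ∧ s' \ s ⊆ J' ∧ ∀ m, Lw (fun s => ¬ Φ s) J' J Q m s' := by
  intro n
  induction n with
  | zero =>
    intro s hΦ hn
    exact absurd hΦ hn
  | succ n ih =>
    intro s hΦ hn
    have hn2 : ¬ (∀ s' ∈ Q, s ⊆ s' → s' \ s ⊆ J' → ¬ Φ s' →
        ∃ s'' ∈ Q, s' ⊆ s'' ∧ s'' \ s' ⊆ J ∧ Lw Φ J J' Q n s'') := fun hc => hn ⟨hΦ, hc⟩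
    by_contra hcon
    apply hn2
    intro s' hs' hss' hJ' hΦ'
    by_contra hno
    apply hcon
    refine ⟨s', hs', hss', hJ', ?_⟩
    intro m
    cases m with
    | zero => exact hΦ'
    | succ m =>
      refine ⟨hΦ', ?_⟩
      intro s'' hQ hsub hJ hΦ''
      have hP : Φ s'' := not_not.1 hΦ''
      have hL : ¬ Lw Φ J J' Q n s'' := fun hl => hno ⟨s'', hQ, hsub, hJ, hl⟩
      obtain ⟨t, ht, hst, htJ, hM⟩ := ih s'' hP hL
      exact ⟨t, ht, hst, htJ, hM m⟩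

theorem p_ZER : Stmt_ZER := by
  intro k v h J J' Q hv hQ
  refine ⟨fun s hL n => ZER_up k v h J J' Q hv k s (Nat.le_add_right _ _) hL n, ?_⟩
  by_cases hex : ∃ s ∈ Q, s ⊆ J ∧ Lw (fun s => h (v s)) J J' Q k s
  · exact Or.inl hex
  · right
    by_cases h0 : h (v ∅)
    · have hL : ¬ Lw (fun s => h (v s)) J J' Q k ∅ :=
        fun hl => hex ⟨∅, hQ, Set.empty_subset _, hl⟩
      obtain ⟨t, ht, _, htJ, hM⟩ := ZER_claim (fun s => h (v s)) J J' Q k ∅ h0 hL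
      refine ⟨t, ht, ?_, hM k⟩
      rwa [Set.sdiff_empty] at htJ
    · refine ⟨∅, hQ, Set.empty_subset _, ?_⟩
      cases k with
      | zero => exact h0
      | succ m =>
        refine ⟨h0, ?_⟩
        intro s'' hs'' _ hJ hΦ
        rw [Set.sdiff_empty] at hJ
        have hL : ¬ Lw (fun s => h (v s)) J J' Q (m + 1) s'' := fun hl => hex ⟨s'', hs'', hJ, hl⟩
        obtain ⟨t, ht, hst, htJ, hM⟩ :=
          ZER_claim (fun s => h (v s)) J J' Q (m + 1) s'' (not_not.1 hΦ) hL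
        exact ⟨t, ht, hst, htJ, hM m⟩

end Pool.LF
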