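import Pool.Agent.Work.MP_f36782_lf.Interface7
import Pool.Agent.Work.MP_f36782_lf.Final4

set_option autoImplicit false

/-! # MP_f36782_lc, THEOREM LF, part P: assembly -/

open MeasureTheory Pool.Agent.Work.RamseyAD

namespace Pool.LF

/-- The operation `S` is given by ports and a truth function which can be decided. -/
def RepS (F : Set (Set (ℕ → ℕ))) (E₀ : C → C → Prop) (S : Op) : Prop :=
  ∃ (g : ℕ → MM) (Ψ : (ℕ → ℕ) → Set ℕ → Prop), RefS F E₀ g Ψ ∧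
    ∀ A, S A = {z | Ψ z {j | (g j).1 z ∈ A}}

/-- The operations allowed in part (2). -/
def AdmS (F : Set (Set (ℕ → ℕ))) (S : Op) : Prop :=
  PosOp F Measurable S ∨ Combo (OpenPos F Measurable) S ∨
    (ProjClosed F ∧ BorOp F Measurable S)

theorem fin7_pos (hPFM : Stmt_PFM) (hENP : Stmt_ENP) (hRPS : Stmt_RPS) (F : Set (Set (ℕ → ℕ)))
    (hF : DetAlgebra F) (E₀ : C → C → Prop) (hE : EqR E₀) (S : Op) (hS : PosOp F Measurable S) :
    RepS F E₀ S := by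
  obtain ⟨φ, hφ⟩ := hPFM F S hS
  obtain ⟨g, hg⟩ := hENP F 1 (fun _ => φ)
  refine ⟨g, trP g φ, hRPS F hF E₀ hE g φ, fun A => ?_⟩
  rw [hφ A]
  ext z
  exact hg 0 A z

theorem fin7_bool (hCNF : Stmt_CNF) (hENU : Stmt_ENU) (hRBS : Stmt_RBS) (F : Set (Set (ℕ → ℕ)))
    (hF : DetAlgebra F) (E₀ : C → C → Prop) (hE : EqR E₀) (S : Op)
    (hS : Combo (OpenPos F Measurable) S) : RepS F E₀ S := by
  obtain ⟨k, V, h, hV, hA⟩ := hCNF _ S hS
  obtain ⟨g, D, N, hD, hg⟩ := hENU F k V hV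
  refine ⟨g, _, hRBS F hF E₀ hE k h g D N hD, fun A => ?_⟩
  rw [hA A]
  ext z
  have h1 : {l | z ∈ V l A} =
      {l | ∃ n, z ∈ D l n ∧ ∀ j ∈ N l n, j ∈ {j | (g j).1 z ∈ A}} := by
    ext l
    exact hg l A z
  show h {l | z ∈ V l A} ↔ h {l | ∃ n, z ∈ D l n ∧ ∀ j ∈ N l n, j ∈ {j | (g j).1 z ∈ A}}
  rw [h1]

theorem fin7_bor (hBFR : Stmt_BFR) (hRGS : Stmt_RGS) (F : Set (Set (ℕ → ℕ))) (hF : DetAlgebra F)
    (hP : ProjClosed F) (E₀ : C → C → Prop) (hE : EqR E₀) (S : Op)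
    (hS : BorOp F Measurable S) : RepS F E₀ S := by
  obtain ⟨g, φ, hA⟩ := hBFR F S hS
  exact ⟨g, _, hRGS F hF hP E₀ hE g φ, hA⟩

/-- Part (2) of the theorem. -/
theorem fin7_main (hCNF : Stmt_CNF) (hPFM : Stmt_PFM) (hENU : Stmt_ENU) (hENP : Stmt_ENP)
    (hEQB : Stmt_EQB) (hRPS : Stmt_RPS) (hRBS : Stmt_RBS) (hBFR : Stmt_BFR) (hRGS : Stmt_RGS)
    (hONS : Stmt_ONS) (hCMP : Stmt_CMP) (F : Set (Set (ℕ → ℕ))) (hF : DetAlgebra F) (T : Type)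
    (hT : Dmd T) (S : T → Op) (hS : ∀ t, AdmS F (S t)) (A₀ : Set C) :
    ∃ A : Set C, (∀ t, Determined (S t A) ∧ Determined (S t A)ᶜ) ∧ (Tail A₀ → Tail A) ∧
      ∀ X, Inf X → ∃ Y, Inf Y ∧ Sub Y X ∧ ∀ x, Inf x → Sub x Y → (x ∈ A ↔ x ∈ A₀) := by
  classical
  obtain ⟨E₀, hE, hA0, hAt⟩ : ∃ E₀ : C → C → Prop, EqR E₀ ∧
      (∀ y y', E₀ y y' → y ∈ A₀ → y' ∈ A₀) ∧
      (Tail A₀ → ∀ x y : C, AEq x y → E₀ x y) := by
    by_cases h : Tail A₀
    · exact ⟨AEq, hEQB.2, fun y y' h1 h2 => (h y y' h1).1 h2, fun _ _ _ h1 => h1⟩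
    · exact ⟨fun x y => x = y, hEQB.1, fun y y' h1 h2 => h1 ▸ h2, fun h1 => absurd h1 h⟩
  let sh : (ℕ → ℕ) → (ℕ → ℕ) := fun z n => z (n + 1)
  have hsh : Continuous sh := by fun_prop
  have h1 : ∀ t : T × Bool, ∃ S' : Op, RepS F E₀ S' ∧ ∀ A, Determined (S' A) →
      Determined (if t.2 then (S t.1 A)ᶜ else S t.1 A) := by
    rintro ⟨t, b⟩
    cases b
    · refine ⟨S t, ?_, fun A h => by simpa using h⟩
      rcases hS t with h | h | h
      · exact fin7_pos hPFM hENP hRPS F hF E₀ hE _ h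
      · exact fin7_bool hCNF hENU hRBS F hF E₀ hE _ h
      · exact fin7_bor hBFR hRGS F hF h.1 E₀ hE _ h.2
    · rcases hS t with h | h | h
      · exact ⟨fun A => sh ⁻¹' (S t A), fin7_pos hPFM hENP hRPS F hF E₀ hE _ (fin4_sh hF h sh hsh),
          fun A h => by simpa using hCMP (S t A) h⟩
      · exact ⟨fun A => (S t A)ᶜ, fin7_bool hCNF hENU hRBS F hF E₀ hE _ (Combo.compl _ h),
          fun A h => by simpa using h⟩
      · exact ⟨fun A => (S t A)ᶜ, fin7_bor hBFR hRGS F hF h.1 E₀ hE _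
          (BorOp.compl _ h.2), fun A h => by simpa using h⟩
  choose S' hS' hD using h1
  choose g Ψ hR hS'' using hS'
  obtain ⟨A, hA1, hA2, hA3⟩ := hONS F hF E₀ hE (T × Bool) (dmd_bool hT) (dmd_inj (dmd_bool hT))
    g Ψ hR A₀ hA0
  refine ⟨A, fun t => ⟨?_, ?_⟩, fun h => ?_, hA3⟩
  · have h4 := hD (t, false) A (by rw [hS'' (t, false) A]; exact hA1 (t, false))
    simpa using h4
  · have h4 := hD (t, true) A (by rw [hS'' (t, true) A]; exact hA1 (t, true))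
    simpa using h4
  · have h5 := hAt h
    intro x y hxy
    have h6 : AEq x y := hxy
    exact ⟨hA2 x y (h5 x y h6), hA2 y x (hE.equiv.symm (h5 x y h6))⟩

end Pool.LF
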