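import Pool.Agent.Work.MP_f36782_lf.Interface

set_option autoImplicit false

/-!
# MP_f36782_lc, THEOREM LF: block ANA
-/

open MeasureTheory Pool.Agent.Work.RamseyAD

namespace Pool.LF

theorem ANA_len (i : ℕ) : Continuous (fun z : ℕ → ℕ => len z i) := by
  unfold len
  refine continuous_finset_sum _ fun j _ => ?_
  exact (continuous_of_discreteTopology (f := fun a : ℕ => (Nat.unpair a).2)).comp
    (continuous_apply j)

theorem ANA_hist (s : List ℕ → ℕ) (i : ℕ) : Continuous (fun z : ℕ → ℕ => s (hist z i)) := by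
  have h1 : ∀ z : ℕ → ℕ, hist z i = List.ofFn (fun j : Fin i => z j) := by
    intro z
    apply List.ext_getElem
    · simp [hist]
    · intro n h1 h2
      simp [hist]
  have h2 : (fun z : ℕ → ℕ => s (hist z i)) =
      (fun w : Fin i → ℕ => s (List.ofFn w)) ∘ (fun z : ℕ → ℕ => fun j : Fin i => z j) := by
    funext z
    simp only [Function.comp, h1]
  rw [h2]
  refine Continuous.comp continuous_of_discreteTopology ?_
  exact continuous_pi fun j => continuous_apply _

theorem ANA_cons (p : ℕ) (s : List ℕ → ℕ) : IsClosed {z | Cons p s z} := by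
  have : {z | Cons p s z} = ⋂ i, ⋂ (_ : i % 2 = p), {z : ℕ → ℕ | z i = s (hist z i)} := by
    ext z
    simp [Cons]
  rw [this]
  exact isClosed_iInter fun i => isClosed_iInter fun _ =>
    isClosed_eq (continuous_apply i) (ANA_hist s i)

theorem ANA_own (p k : ℕ) (Φ : (ℕ → ℕ) → (ℕ → ℕ)) (hΦ : Continuous Φ) :
    IsOpen {z | k ∈ own p (Φ z)} := by
  have : {z | k ∈ own p (Φ z)} = ⋃ i, ⋃ (_ : i % 2 = p),
      ((fun z => len (Φ z) i) ⁻¹' {m | m ≤ k}) ∩ ((fun z => len (Φ z) (i + 1)) ⁻¹' {m | k < m}) := by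
    ext z
    simp only [own, Set.mem_setOf_eq, Set.mem_iUnion, Set.mem_inter_iff, Set.mem_preimage,
      exists_prop]
  rw [this]
  refine isOpen_iUnion fun i => isOpen_iUnion fun _ => IsOpen.inter ?_ ?_
  · exact (isOpen_discrete _).preimage ((ANA_len i).comp hΦ)
  · exact (isOpen_discrete _).preimage ((ANA_len (i + 1)).comp hΦ)

theorem ANA_hit (p : ℕ) (Φ : (ℕ → ℕ) → (ℕ → ℕ)) (f : (ℕ → ℕ) → C) (hΦ : Continuous Φ)
    (hf : Continuous f) : MeasurableSet {z | Hit (f z) (own p (Φ z))} := by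
  have : {z | Hit (f z) (own p (Φ z))} = ⋂ n, ⋃ k, ⋃ (_ : n ≤ k),
      ((fun z => f z k) ⁻¹' {true}) ∩ {z | k ∈ own p (Φ z)} := by
    ext z
    simp only [Hit, Set.mem_setOf_eq, Set.mem_iUnion, Set.mem_iInter, Set.mem_inter_iff,
      Set.mem_preimage, exists_prop, Set.mem_singleton_iff]
  rw [this]
  refine MeasurableSet.iInter fun n => IsOpen.measurableSet ?_
  refine isOpen_iUnion fun k => isOpen_iUnion fun _ => IsOpen.inter ?_ (ANA_own p k Φ hΦ)
  exact (isOpen_discrete _).preimage ((continuous_apply k).comp hf)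

/-- **ANA**. -/
theorem p_ANA : Stmt_ANA := by
  intro p s Φ f hΦ hf
  set W : Set (ℕ → ℕ) := {z | Cons p s z} ∩ {z | Hit (f z) (own p (Φ z))} with hW
  have hWm : MeasurableSet W := (ANA_cons p s).measurableSet.inter (ANA_hit p Φ f hΦ hf)
  let g : (N : ℕ) → (Fin N → Bool) → (ℕ → ℕ) → C := fun N t z k =>
    if h : k < N then t ⟨k, h⟩ else f z k
  have hg : ∀ N t, Continuous (g N t) := by
    intro N t
    refine continuous_pi fun k => ?_
    by_cases h : k < N
    · simp only [g, h, dif_pos]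
      exact continuous_const
    · simp only [g, h, dif_neg, not_false_eq_true]
      exact (continuous_apply k).comp hf
  have hC : Cod p s Φ f = ⋃ N, ⋃ t : Fin N → Bool, g N t '' W := by
    ext x
    simp only [Cod, Set.mem_setOf_eq, Set.mem_iUnion, Set.mem_image]
    constructor
    · rintro ⟨z, hz, ⟨N, hN⟩, hH⟩
      refine ⟨N, fun k => x k, z, ⟨hz, hH⟩, ?_⟩
      funext k
      by_cases h : k < N
      · simp only [g, h, dif_pos]
      · simp only [g, h, dif_neg, not_false_eq_true]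
        exact (hN k (not_lt.1 h)).symm
    · rintro ⟨N, t, z, ⟨hz, hH⟩, rfl⟩
      refine ⟨z, hz, ⟨N, fun k hk => ?_⟩, hH⟩
      simp only [g, not_lt.2 hk, dif_neg, not_false_eq_true]
  rw [hC]
  refine AnalyticSet.iUnion fun N => AnalyticSet.iUnion fun t => ?_
  exact hWm.analyticSet_image (hg N t).measurable

end Pool.LF
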