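import Pool.Agent.Work.MP_f36782_lf.Interface2

set_option autoImplicit false

open MeasureTheory Pool.Agent.Work.RamseyAD

namespace Pool.LF

theorem BAL_aeq_symm {x y : C} (h : AEq x y) : AEq y x := by
  obtain ⟨N, hN⟩ := h
  exact ⟨N, fun k hk => (hN k hk).symm⟩

theorem BAL_aeq_trans {x y z : C} (h : AEq x y) (h' : AEq y z) : AEq x z := by
  obtain ⟨N, hN⟩ := h
  obtain ⟨M, hM⟩ := h'
  refine ⟨max N M, fun k hk => ?_⟩
  rw [hN k ((le_max_left _ _).trans hk), hM k ((le_max_right _ _).trans hk)]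

theorem BAL_hit {x y : C} {S : Set ℕ} (h : AEq x y) (hx : Hit x S) : Hit y S := by
  obtain ⟨N, hN⟩ := h
  intro n
  obtain ⟨k, hk1, hk2, hk3⟩ := hx (max n N)
  refine ⟨k, (le_max_left _ _).trans hk1, ?_, hk3⟩
  rw [← hN k ((le_max_right _ _).trans hk1)]
  exact hk2

theorem BAL_tail_union {ι : Type} {D : ι → Set C} (h : ∀ i, Tail (D i)) : Tail (⋃ i, D i) := by
  intro x y hxy
  simp only [Set.mem_iUnion]
  exact exists_congr fun i => h i x y hxy

theorem BAL_tail_or {D E : Set C} (h : Tail D) (h' : Tail E) : Tail (D ∪ E) := by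
  intro x y hxy
  exact or_congr (h x y hxy) (h' x y hxy)

/-- block BAL -/
theorem p_BAL (hMSB : Stmt_MSB) (hMST : Stmt_MST) (hMPR : Stmt_MPR) (hMAB : Stmt_MAB)
    (hCPR : Stmt_CPR) (hCME : Stmt_CME) (hCDI : Stmt_CDI) (hCMM : Stmt_CMM) (hRSM : Stmt_RSM)
    (hRSR : Stmt_RSR) (hRSC : Stmt_RSC) (hRSB : Stmt_RSB) (hRMM : Stmt_RMM) : Stmt_BAL := by
  intro B hB f hf
  obtain ⟨hA1, hB1⟩ := hMSB B
  obtain ⟨hA2, hB2, hA3, hB3, hAB⟩ := hMST B
  obtain ⟨hMA, hMB⟩ := hMAB B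
  obtain ⟨hC1, hC2, hC3, hC4⟩ := hCDI B hB f
  -- promised sets and companions are disjoint
  have hRC : ∀ j n, 1 ≤ n → ∀ x ∈ Rst B (f j), x ∉ Com B f n := by
    rintro j n hn x hx ⟨z, i, hz1, hz2⟩
    obtain ⟨-, -, -, h4, h5, -⟩ := hCPR B f z i hz1 n
    have h6 : ∃ K, ∀ m, K ≤ m → x m = true → m ∈ Br B z := by
      obtain ⟨K, hK⟩ := hz2
      refine ⟨K, fun m hm hxm => h4 m ?_⟩
      rw [← hK m hm]
      exact hxm
    have h7 := hRSB B hB (f j) (hf j) x hx z h6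
    exact h5 j hn (BAL_aeq_trans (BAL_aeq_symm hz2) h7)
  refine ⟨((⋃ j, Rst B (f j)) ∪ ⋃ n, Com B f (2 * n + 2)) ∪ MA B,
    (⋃ n, Com B f (2 * n + 1)) ∪ MB B, ?_, ?_, ?_, ?_⟩
  · constructor
    · -- disj
      rintro x ((hx | hx) | hx) (hy | hy)
      · obtain ⟨j, hj⟩ := Set.mem_iUnion.1 hx
        obtain ⟨n, hn⟩ := Set.mem_iUnion.1 hy
        exact hRC j _ (by omega) x hj hn
      · obtain ⟨j, hj⟩ := Set.mem_iUnion.1 hx
        exact (hRMM B hB (f j) x hj).2 hy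
      · obtain ⟨m, hm⟩ := Set.mem_iUnion.1 hx
        obtain ⟨n, hn⟩ := Set.mem_iUnion.1 hy
        rcases lt_trichotomy (2 * m + 2) (2 * n + 1) with h | h | h
        · exact hC1 (2 * n + 1) (2 * m + 2) (by omega) h x hn hm
        · omega
        · exact hC1 (2 * m + 2) (2 * n + 1) (by omega) h x hm hn
      · obtain ⟨m, hm⟩ := Set.mem_iUnion.1 hx
        exact (hCMM B f _ x hm).2 hy
      · obtain ⟨n, hn⟩ := Set.mem_iUnion.1 hy
        exact (hCMM B f _ x hn).1 hx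
      · exact hAB x hx hy
    · exact BAL_tail_or (BAL_tail_or (BAL_tail_union fun j => (hRSM B hB (f j) (hf j)).2)
        (BAL_tail_union fun n => hC2 _)) hA2
    · exact BAL_tail_or (BAL_tail_union fun n => hC2 _) hB2
    · rintro x ((hx | hx) | hx)
      · obtain ⟨j, hj⟩ := Set.mem_iUnion.1 hx
        exact hj.1
      · obtain ⟨m, hm⟩ := Set.mem_iUnion.1 hx
        exact hC3 _ x hm
      · exact hA3 x hx
    · rintro x (hx | hx)
      · obtain ⟨m, hm⟩ := Set.mem_iUnion.1 hx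
        exact hC3 _ x hm
      · exact hB3 x hx
    · rintro x ((hx | hx) | hx)
      · obtain ⟨j, hj⟩ := Set.mem_iUnion.1 hx
        rcases hRSC B hB (f j) (hf j) x hj with h | h
        · obtain ⟨z, hz1, hz2⟩ := h
          have hz3 : Hit (f j z) (Br B z) := BAL_hit hz1 hz2
          obtain ⟨-, -, h3, -⟩ := hCPR B f z j hz3 1
          obtain ⟨N, hN⟩ := hz1
          refine ⟨fun m => decide (N ≤ m) && com B f 1 j z m, Or.inl (Set.mem_iUnion.2 ⟨0, ?_⟩),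
            fun m hm => ?_⟩
          · refine ⟨z, j, hz3, N, fun m hm => ?_⟩
            simp [hm]
          · simp only [Bool.and_eq_true, decide_eq_true_eq] at hm
            rw [hN m hm.1]
            exact h3 m hm.2
        · obtain ⟨a, b, h1, h2⟩ := h
          obtain ⟨-, y, hy1, hy2⟩ := hMPR B x a b h1 h2
          exact ⟨y, Or.inr hy1, hy2⟩
      · obtain ⟨m, hm⟩ := Set.mem_iUnion.1 hx
        obtain ⟨y, hy1, hy2⟩ := hC4 _ x hm
        exact ⟨y, Or.inl (Set.mem_iUnion.2 ⟨m + 1, hy1⟩), hy2⟩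
      · obtain ⟨y, hy1, hy2⟩ := hMA x hx
        exact ⟨y, Or.inr hy1, hy2⟩
    · rintro x (hx | hx)
      · obtain ⟨m, hm⟩ := Set.mem_iUnion.1 hx
        obtain ⟨y, hy1, hy2⟩ := hC4 _ x hm
        exact ⟨y, Or.inl (Or.inr (Set.mem_iUnion.2 ⟨m, hy1⟩)), hy2⟩
      · obtain ⟨y, hy1, hy2⟩ := hMB x hx
        exact ⟨y, Or.inr hy1, hy2⟩
  · exact ((MeasurableSet.iUnion fun j => (hRSM B hB (f j) (hf j)).1).union
      (MeasurableSet.iUnion fun n => hCME B hB f hf _)).union hA1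
  · exact (MeasurableSet.iUnion fun n => hCME B hB f hf _).union hB1
  · intro j z hz
    exact Or.inl (Or.inl (Set.mem_iUnion.2 ⟨j, hRSR B hB (f j) z hz⟩))

end Pool.LF
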