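import Pool.Agent.Work.MP_f36782_lf.Interface5

set_option autoImplicit false

/-! Block CLM: the truth values of the ports are in `F`. -/

open MeasureTheory Pool.Agent.Work.RamseyAD

namespace Pool.LF

theorem CLM_mv : Measurable mv :=
  measurable_pi_iff.mpr fun i =>
    (measurable_of_countable fun n : ℕ => (Nat.unpair n).1).comp (measurable_pi_apply i)

/-- A binary union. -/
theorem CLM_union {F : Set (Set (ℕ → ℕ))} (hF : DetBorel F) {S S' : Set (ℕ → ℕ)} (h : S ∈ F)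
    (h' : S' ∈ F) : S ∪ S' ∈ F := by
  have e : S ∪ S' = ⋃ n : ℕ, (if n = 0 then S else S') := by
    ext x
    simp only [Set.mem_union, Set.mem_iUnion]
    constructor
    · rintro (hx | hx)
      · exact ⟨0, by simpa using hx⟩
      · exact ⟨1, by simpa using hx⟩
    · rintro ⟨n, hx⟩
      by_cases hn : n = 0
      · left; simpa [hn] using hx
      · right; simpa [hn] using hx
  rw [e]
  refine hF.union _ fun n => ?_
  by_cases hn : n = 0
  · simpa [hn] using h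
  · simpa [hn] using h'

/-- A binary intersection. -/
theorem CLM_inter {F : Set (Set (ℕ → ℕ))} (hF : DetBorel F) {S S' : Set (ℕ → ℕ)} (h : S ∈ F)
    (h' : S' ∈ F) : S ∩ S' ∈ F := by
  have e : S ∩ S' = (Sᶜ ∪ S'ᶜ)ᶜ := by
    rw [Set.compl_union, compl_compl, compl_compl]
  rw [e]
  exact hF.compl _ (CLM_union hF (hF.compl _ h) (hF.compl _ h'))

/-- An intersection over a list. -/
theorem CLM_list {F : Set (Set (ℕ → ℕ))} (hF : DetBorel F) {X : Type} (L : List X)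
    (S : X → Set (ℕ → ℕ)) (h : ∀ β ∈ L, S β ∈ F) : {w | ∀ β ∈ L, w ∈ S β} ∈ F := by
  induction L with
  | nil =>
    have e : {w : ℕ → ℕ | ∀ β ∈ ([] : List X), w ∈ S β} = Set.univ := by
      ext w
      simp
    rw [e]
    exact hF.isOpen _ isOpen_univ
  | cons a L ih =>
    have e : {w : ℕ → ℕ | ∀ β ∈ a :: L, w ∈ S β} = S a ∩ {w | ∀ β ∈ L, w ∈ S β} := by
      ext w
      simp
    rw [e]
    exact CLM_inter hF (h a (by simp)) (ih fun β hβ => h β (by simp [hβ]))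

open Classical in
/-- The index of the composition. -/
noncomputable def CLM_J (γ : ℕ → LMap ℕ Bool) (j : ℕ) (β : LMap Bool Bool) : ℕ :=
  if h : ∃ j', γ j' = β.comp (γ j) then h.choose else 0

/-- The ports which are reached in at most `n` steps. -/
noncomputable def CLM_K (c : Pnt) (γ : ℕ → LMap ℕ Bool) (T : (ℕ → ℕ) → Set C) : ℕ → (ℕ → ℕ) → Set ℕ
  | 0, w => {j | pt (γ j) (mv w) ∈ T w}
  | n + 1, w => CLM_K c γ T n w ∪ {j | ∃ e, pt (γ j) (mv w) ∈ (c.R e).Y ∧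
      ∀ β ∈ (c.R e).L, β.dom (pt (γ j) (mv w)) ∧ CLM_J γ j β ∈ CLM_K c γ T n w}

theorem CLM_mono (c : Pnt) (γ : ℕ → LMap ℕ Bool) (T : (ℕ → ℕ) → Set C) (w : ℕ → ℕ) :
    Monotone fun n => CLM_K c γ T n w :=
  monotone_nat_of_le_succ fun _ _ hj => Or.inl hj

theorem CLM_F (h1 : Stmt_INB) (h3 : Stmt_LVM) {F : Set (Set (ℕ → ℕ))} (hF : DetBorel F) {c : Pnt}
    (γ : ℕ → LMap ℕ Bool) (hc : Cok F c) (T : (ℕ → ℕ) → Set C)
    (hT : ∀ j, {w | pt (γ j) (mv w) ∈ T w} ∈ F) (n : ℕ) : ∀ j, {w | j ∈ CLM_K c γ T n w} ∈ F := by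
  obtain ⟨hm, -⟩ := h1 F hF
  obtain ⟨hd, hp⟩ := h3
  induction n with
  | zero => exact hT
  | succ n ih =>
    intro j
    have hpj : Measurable fun w : ℕ → ℕ => pt (γ j) (mv w) := (hp (γ j)).comp CLM_mv
    have e : {w : ℕ → ℕ | j ∈ CLM_K c γ T (n + 1) w} = {w | j ∈ CLM_K c γ T n w} ∪
        ⋃ e : ℕ, ({w | pt (γ j) (mv w) ∈ (c.R e).Y} ∩ {w | ∀ β ∈ (c.R e).L,
          w ∈ {w | β.dom (pt (γ j) (mv w))} ∩ {w | CLM_J γ j β ∈ CLM_K c γ T n w}}) := by
      ext w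
      simp only [CLM_K, Set.mem_ofPred_eq, Set.mem_union, Set.mem_iUnion, Set.mem_inter_iff]
    rw [e]
    refine CLM_union hF (ih j) (hF.union _ fun e => CLM_inter hF (hc.fR e _ hpj)
      (CLM_list hF _ _ fun β _ => CLM_inter hF (hm _ ?_) (ih _)))
    exact hpj (hd Bool Bool β).1

/-- The value of a port which is infinite. -/
theorem CLM_dom {α : LMap ℕ Bool} {z : ℕ → ℕ} (h : Inf (pt α z)) : α.dom z ∧ pt α z = α.val z := by
  by_cases hd : α.dom z
  · exact ⟨hd, by rw [pt, if_pos hd]⟩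
  · exfalso
    rw [pt, if_neg hd] at h
    obtain ⟨k, -, hk⟩ := h 0
    exact Bool.false_ne_true hk

theorem CLM_val (h2 : Stmt_LVC) {F : Set (Set (ℕ → ℕ))} {c : Pnt} {o : OpD F} (G : Gam c o)
    (hc : Cok F c) {j e : ℕ} {z : ℕ → ℕ} (hY : pt (G.γ j) z ∈ (c.R e).Y) {β : LMap Bool Bool}
    (hβ : β ∈ (c.R e).L) (hd : β.dom (pt (G.γ j) z)) :
    pt (G.γ (CLM_J G.γ j β)) z = β.val (pt (G.γ j) z) := by
  have hi : Inf (pt (G.γ j) z) := hc.inf _ fun hf => hf.2.2 (hc.sub e hY)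
  obtain ⟨hd1, hv⟩ := CLM_dom hi
  have hJ : G.γ (CLM_J G.γ j β) = β.comp (G.γ j) := by
    have h := G.clos j e β hβ
    rw [CLM_J, dif_pos h]
    exact h.choose_spec
  obtain ⟨-, -, h3, h4⟩ := h2 ℕ Bool Bool (G.γ j) β z
  rw [hv] at hd
  have hd2 : (β.comp (G.γ j)).dom z := h3.2 ⟨hd1, hd⟩
  rw [hJ, pt, if_pos hd2, h4 hd2, hv]

theorem CLM_bd {X : Type} (L : List X) (P : X → ℕ → Prop) (hP : ∀ x, ∀ n m, n ≤ m → P x n → P x m)
    (h : ∀ x ∈ L, ∃ n, P x n) : ∃ n, ∀ x ∈ L, P x n := by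
  induction L with
  | nil => exact ⟨0, by simp⟩
  | cons a L ih =>
    obtain ⟨n, hn⟩ := ih fun x hx => h x (by simp [hx])
    obtain ⟨m, hm⟩ := h a (by simp)
    refine ⟨max n m, fun x hx => ?_⟩
    rcases List.mem_cons.1 hx with rfl | hx
    · exact hP _ _ _ (le_max_right n m) hm
    · exact hP _ _ _ (le_max_left n m) (hn x hx)

theorem CLM_iff (h2 : Stmt_LVC) {F : Set (Set (ℕ → ℕ))} {c : Pnt} {o : OpD F} (G : Gam c o)
    (hc : Cok F c) (T : (ℕ → ℕ) → Set C) (w : ℕ → ℕ) (j : ℕ) :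
    Cl c.R (T w) (pt (G.γ j) (mv w)) ↔ ∃ n, j ∈ CLM_K c G.γ T n w := by
  constructor
  · intro h
    have key : ∀ x, Cl c.R (T w) x → ∀ j, pt (G.γ j) (mv w) = x → ∃ n, j ∈ CLM_K c G.γ T n w := by
      intro x hx
      induction hx with
      | base x hx =>
        intro j hj
        exact ⟨0, by rw [← hj] at hx; exact hx⟩
      | step e x hx hd _ ih =>
        intro j hj
        subst hj
        obtain ⟨n, hn⟩ := CLM_bd (c.R e).L (fun β n => β ∈ (c.R e).L → CLM_J G.γ j β ∈ CLM_K c G.γ T n w)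
          (fun β n m hnm hb hb' => CLM_mono c G.γ T w hnm (hb hb'))
          (fun β hβ => by
            obtain ⟨n, hn⟩ := ih β hβ (CLM_J G.γ j β) (CLM_val h2 G hc hx hβ (hd β hβ))
            exact ⟨n, fun _ => hn⟩)
        exact ⟨n + 1, Or.inr ⟨e, hx, fun β hβ => ⟨hd β hβ, hn β hβ hβ⟩⟩⟩
    exact key _ h j rfl
  · rintro ⟨n, hn⟩
    induction n generalizing j with
    | zero => exact Cl.base _ hn
    | succ n ih =>
      rcases hn with hn | ⟨e, hY, hn⟩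
      · exact ih j hn
      · refine Cl.step e _ hY (fun β hβ => (hn β hβ).1) fun β hβ => ?_
        rw [← CLM_val h2 G hc hY hβ (hn β hβ).1]
        exact ih _ (hn β hβ).2

theorem p_CLM (h1 : Stmt_INB) (h2 : Stmt_LVC) (h3 : Stmt_LVM) : Stmt_CLM := by
  intro F hF c o G hc T hT j
  have e : {w | Cl c.R (T w) (pt (G.γ j) (mv w))} = ⋃ n : ℕ, {w | j ∈ CLM_K c G.γ T n w} := by
    ext w
    simp only [Set.mem_ofPred_eq, Set.mem_iUnion]
    exact CLM_iff h2 G hc T w j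
  rw [e]
  exact hF.union _ fun n => CLM_F h1 h3 hF G.γ hc T hT n j

end Pool.LF
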