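import Pool.Agent.Work.MP_f36782_lf.Interface2

set_option autoImplicit false

open MeasureTheory Pool.Agent.Work.RamseyAD

namespace Pool.LF

theorem CMM_pre (z : ℕ → ℕ) {i j : ℕ} (h : i ≤ j) : hist z i <+: hist z j := by
  obtain ⟨k, rfl⟩ := Nat.exists_eq_add_of_le h
  refine ⟨(List.range k).map (fun t => z (i + t)), ?_⟩
  simp [hist, List.range_add, Function.comp_def]

theorem CMM_adj (B : List ℕ → Set ℕ) (z : ℕ → ℕ) (a b : ℕ) (ha : a ∈ Br B z) (hb : b ∈ Br B z) :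
    Adj B a b := by
  obtain ⟨i, hi⟩ := ha
  obtain ⟨j, hj⟩ := hb
  refine ⟨_, _, hi, hj, ?_⟩
  rcases le_total i j with h | h
  · exact Or.inl (CMM_pre z h)
  · exact Or.inr (CMM_pre z h)

theorem CMM_uq (B : List ℕ → Set ℕ) (z : ℕ → ℕ) (x : C) (hx : Inf x) (M : ℕ)
    (hM : ∀ k, M ≤ k → x k = true → k ∈ Br B z) (N : ℕ) : ¬ Uq B x N := by
  intro hU
  obtain ⟨a, ha, hxa⟩ := hx (max M N)
  obtain ⟨b, hb, hxb⟩ := hx (a + 1)
  obtain ⟨c, hc, hxc⟩ := hx (b + 1)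
  have h1 : M ≤ a := le_trans (le_max_left _ _) ha
  have h2 : N ≤ a := le_trans (le_max_right _ _) ha
  have hba := CMM_adj B z a b (hM a h1 hxa) (hM b (by omega) hxb)
  have hca := CMM_adj B z a c (hM a h1 hxa) (hM c (by omega) hxc)
  have := hU a b c h2 (by omega) (by omega) hxa hxb hxc (by omega) (by omega) hba hca
  omega

theorem p_CMM (hCPR : Stmt_CPR) : Stmt_CMM := by
  intro B f n x hx
  obtain ⟨z, j, hH, hE⟩ := hx
  obtain ⟨hI, -, -, hB, -⟩ := hCPR B f z j hH n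
  obtain ⟨M, hM⟩ := hE
  have hIx : Inf x := by
    intro k
    obtain ⟨l, hl, hl2⟩ := hI (max k M)
    refine ⟨l, le_trans (le_max_left _ _) hl, ?_⟩
    rw [hM l (le_trans (le_max_right _ _) hl), hl2]
  have hU := CMM_uq B z x hIx M (fun k hk hk2 => hB k (by rw [← hM k hk, hk2]))
  constructor
  · rintro ⟨-, N, hN, -⟩
    exact hU N hN
  · rintro ⟨N, hN, -⟩
    exact hU N hN

end Pool.LF
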