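import Pool.Agent.Work.MP_f36782_lf.Interface

set_option autoImplicit false

/-! # Block COD: the coded outcomes for the atoms of a formula -/

open MeasureTheory Pool.Agent.Work.RamseyAD

namespace Pool.LF

theorem COD_tail (p : ℕ) (s : List ℕ → ℕ) (Φ : (ℕ → ℕ) → (ℕ → ℕ)) (f : (ℕ → ℕ) → C) (x y : C)
    (h : ∃ N, ∀ k, N ≤ k → x k = y k) (hx : x ∈ Cod p s Φ f) : y ∈ Cod p s Φ f := by
  obtain ⟨z, hz, ⟨N, hN⟩, hh⟩ := hx
  obtain ⟨M, hM⟩ := h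
  exact ⟨z, hz, ⟨max N M, fun k hk => ((hM k ((le_max_right _ _).trans hk)).symm).trans
    (hN k ((le_max_left _ _).trans hk))⟩, hh⟩

theorem COD_inf (p : ℕ) (s : List ℕ → ℕ) (Φ : (ℕ → ℕ) → (ℕ → ℕ)) (f : (ℕ → ℕ) → C) (x : C)
    (hx : x ∈ Cod p s Φ f) : Inf x := by
  obtain ⟨z, hz, ⟨N, hN⟩, hh⟩ := hx
  intro n
  obtain ⟨k, hk, hk2, -⟩ := hh (max n N)
  exact ⟨k, (le_max_left _ _).trans hk, (hN k ((le_max_right _ _).trans hk)).trans hk2⟩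

theorem p_COD (hSIM : Stmt_SIM) (hRNU : Stmt_RNU) (hRNC : Stmt_RNC) (hINF : Stmt_INF)
    (hANA : Stmt_ANA) (hFMA : Stmt_FMA) : Stmt_COD := by
  intro F hF p T hp φ
  obtain ⟨s, Φ, hc, h1, h2⟩ := hSIM p T hp
  obtain ⟨hi1, -, -, hi4, hi5⟩ := hINF F hF
  rcases Set.eq_empty_or_nonempty φ.at with he | hne
  · refine ⟨s, Φ, ∅, h1, fun X hX => ⟨X, hX, fun k h => h, fun x _ _ h => h⟩,
      fun x y _ => by simp, fun x h => absurd h (by simp), hi5, fun z hz f hf => ?_⟩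
    rw [he] at hf
    exact absurd hf (by simp)
  · obtain ⟨e, he⟩ := (hFMA F CM φ).1.exists_eq_range hne
    refine ⟨s, Φ, ⋃ n, Cod p s Φ (e n).1, h1, ?_, ?_, ?_, ?_, ?_⟩
    · exact hRNU _ fun n => hRNC {z | Cons p s z} (fun z => own p (Φ z)) (e n).1
        fun z hz z' hz' hne => h2 z z' hz hz' hne
    · intro x y hxy
      have hyx : ∃ N, ∀ k, N ≤ k → y k = x k := by
        obtain ⟨N, hN⟩ := hxy
        exact ⟨N, fun k hk => (hN k hk).symm⟩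
      simp only [Set.mem_iUnion]
      exact exists_congr fun n => ⟨COD_tail p s Φ _ x y hxy, COD_tail p s Φ _ y x hyx⟩
    · intro x hx
      obtain ⟨n, hn⟩ := Set.mem_iUnion.1 hx
      exact COD_inf p s Φ _ x hn
    · exact hi1 _ fun n => hi4 _ (hANA p s Φ (e n).1 hc (e n).2)
    · intro z hz f hf hh
      rw [he] at hf
      obtain ⟨n, rfl⟩ := hf
      exact Set.mem_iUnion.2 ⟨n, z, hz, ⟨0, fun k _ => rfl⟩, hh⟩

end Pool.LF
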