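import Pool.Agent.Work.MP_f36782_lf.Interface

set_option autoImplicit false

/-!
# Block CRD of MP_f36782_lf: cardinalities
-/

open MeasureTheory Pool.Agent.Work.RamseyAD

namespace Pool.LF

/-- The label of the node `t` of the tree of a formula. -/
def CRD_lab {K L : Type} : Fm K L → List ℕ → K ⊕ L ⊕ Bool
  | .base k, _ => Sum.inl k
  | .pre l, _ => Sum.inr (Sum.inl l)
  | .uni _, [] => Sum.inr (Sum.inr true)
  | .uni φ, n :: t => CRD_lab (φ n) t
  | .int _, [] => Sum.inr (Sum.inr false)
  | .int φ, n :: t => CRD_lab (φ n) t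

theorem CRD_inj {K L : Type} : Function.Injective (CRD_lab (K := K) (L := L)) := by
  intro φ
  induction φ with
  | base k =>
    intro ψ h
    have h0 := congrFun h []
    cases ψ <;> simp_all [CRD_lab]
  | pre l =>
    intro ψ h
    have h0 := congrFun h []
    cases ψ <;> simp_all [CRD_lab]
  | uni φ ih =>
    intro ψ h
    have h0 := congrFun h []
    cases ψ with
    | base k => simp [CRD_lab] at h0
    | pre l => simp [CRD_lab] at h0
    | int ψ => simp [CRD_lab] at h0
    | uni ψ =>
      have : φ = ψ := funext fun n => ih n (funext fun t => by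
        have := congrFun h (n :: t)
        simpa only [CRD_lab] using this)
      rw [this]
  | int φ ih =>
    intro ψ h
    have h0 := congrFun h []
    cases ψ with
    | base k => simp [CRD_lab] at h0
    | pre l => simp [CRD_lab] at h0
    | uni ψ => simp [CRD_lab] at h0
    | int ψ =>
      have : φ = ψ := funext fun n => ih n (funext fun t => by
        have := congrFun h (n :: t)
        simpa only [CRD_lab] using this)
      rw [this]

theorem CRD_fm (K L : Type) (hK : Cardinal.mk K ≤ Cardinal.continuum)
    (hL : Cardinal.mk L ≤ Cardinal.continuum) :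
    Cardinal.mk (Fm K L) ≤ Cardinal.continuum := by
  refine (Cardinal.mk_le_of_injective CRD_inj).trans ?_
  have h1 : Cardinal.mk (K ⊕ L ⊕ Bool) ≤ Cardinal.continuum := by
    rw [Cardinal.mk_sum, Cardinal.mk_sum]
    simp only [Cardinal.lift_uzero]
    refine (add_le_add hK (add_le_add hL (le_of_lt (Cardinal.mk_lt_aleph0.trans
      Cardinal.aleph0_lt_continuum)))).trans ?_
    simp
  rw [← Cardinal.power_def, Cardinal.mk_eq_aleph0 (List ℕ)]
  refine (Cardinal.power_le_power_right h1).trans ?_
  rw [Cardinal.continuum_power_aleph0]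

theorem CRD_cm : Cardinal.mk CM ≤ Cardinal.continuum := by
  have hinj : Function.Injective
      (fun (f : CM) (n : ℕ) => f.1 (TopologicalSpace.denseSeq (ℕ → ℕ) n)) := by
    intro f g h
    refine Subtype.ext ?_
    refine Continuous.ext_on (TopologicalSpace.denseRange_denseSeq (ℕ → ℕ)) f.2 g.2 ?_
    rintro _ ⟨n, rfl⟩
    exact congrFun h n
  refine (Cardinal.mk_le_of_injective hinj).trans ?_
  rw [← Cardinal.power_def, Cardinal.mk_nat]
  have h2 : Cardinal.mk C = Cardinal.continuum := by
    show Cardinal.mk (ℕ → Bool) = Cardinal.continuum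
    rw [← Cardinal.power_def, Cardinal.mk_nat, Cardinal.mk_bool, Cardinal.two_power_aleph0]
  rw [h2, Cardinal.continuum_power_aleph0]

theorem p_CRD : Stmt_CRD := ⟨CRD_fm, CRD_cm⟩

end Pool.LF
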