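import Pool.Agent.Work.MP_f36782_lf.Interface

set_option autoImplicit false

/-! Block DEN (helper94). -/

open MeasureTheory Pool.Agent.Work.RamseyAD

namespace Pool.LF

theorem DEN_split (Y : C) (hY : Inf Y) : ∃ y : C, Inf y ∧ Sub y Y ∧ ¬ AEq Y y := by
  classical
  have hinf : ({k | Y k = true} : Set ℕ).Infinite := by
    rw [Set.infinite_iff_exists_gt]
    intro n
    obtain ⟨k, hk, hk'⟩ := hY (n + 1)
    exact ⟨k, hk', by omega⟩
  have hm : StrictMono (Nat.nth fun k => Y k = true) := Nat.nth_strictMono hinf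
  refine ⟨fun k => decide (∃ n, Nat.nth (fun k => Y k = true) (2 * n) = k), ?_, ?_, ?_⟩
  · intro n
    refine ⟨Nat.nth (fun k => Y k = true) (2 * n), ?_, ?_⟩
    · have := hm.le_apply (x := 2 * n)
      omega
    · simp only [decide_eq_true_eq]
      exact ⟨n, rfl⟩
  · intro k hk
    simp only [decide_eq_true_eq] at hk
    obtain ⟨n, rfl⟩ := hk
    exact Nat.nth_mem_of_infinite hinf (2 * n)
  · rintro ⟨N, hN⟩
    have h1 := hm.le_apply (x := 2 * N + 1)
    have h2 := hN (Nat.nth (fun k => Y k = true) (2 * N + 1)) (by omega)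
    have h3 : Y (Nat.nth (fun k => Y k = true) (2 * N + 1)) = true :=
      Nat.nth_mem_of_infinite hinf (2 * N + 1)
    rw [h3] at h2
    have h4 := of_decide_eq_true h2.symm
    obtain ⟨n, hn⟩ := h4
    have := hm.injective hn
    omega

theorem DEN_aeq_trans {x y z : C} (h : AEq x y) (h' : AEq y z) : AEq x z := by
  obtain ⟨N, hN⟩ := h
  obtain ⟨M, hM⟩ := h'
  exact ⟨max N M, fun k hk => (hN k (le_trans (le_max_left _ _) hk)).trans
    (hM k (le_trans (le_max_right _ _) hk))⟩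

theorem DEN_aeq_symm {x y : C} (h : AEq x y) : AEq y x := by
  obtain ⟨N, hN⟩ := h
  exact ⟨N, fun k hk => (hN k hk).symm⟩

theorem DEN_inf {x y : C} (h : AEq x y) (hy : Inf y) : Inf x := by
  obtain ⟨N, hN⟩ := h
  intro n
  obtain ⟨k, hk, hk'⟩ := hy (max n N)
  exact ⟨k, le_trans (le_max_left _ _) hk, (hN k (le_trans (le_max_right _ _) hk)).trans hk'⟩

theorem DEN_asub {x y z : C} (h : AEq x y) (h' : Sub y z) : ASub x z := by
  obtain ⟨N, hN⟩ := h
  exact ⟨N, fun k hk hx => h' k ((hN k hk).symm.trans hx)⟩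

theorem DEN_polish : PolishSpace C := { }

theorem DEN_ana (y : C) : AnalyticSet {x : C | AEq x y} := by
  have := DEN_polish
  have e : {x : C | AEq x y} = ⋃ N : ℕ, {x : C | ∀ k, N ≤ k → x k = y k} := by
    ext x
    simp only [Set.mem_iUnion]
    rfl
  rw [e]
  refine AnalyticSet.iUnion fun N => IsClosed.analyticSet ?_
  have e2 : {x : C | ∀ k, N ≤ k → x k = y k} = ⋂ k : ℕ, ⋂ (_ : N ≤ k), {x : C | x k = y k} := by
    ext x
    simp
  rw [e2]
  exact isClosed_iInter fun k => isClosed_iInter fun _ =>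
    isClosed_eq (continuous_apply k) continuous_const

theorem DEN_rn (h1 : Stmt_RNU) {P Q : Set C} (hP : RN P) (hQ : RN Q) : RN (P ∪ Q) := by
  have h := h1 (fun n => if n = 0 then P else Q) (by
    intro n
    by_cases hn : n = 0
    · simp only [hn, if_true]
      exact hP
    · simp only [hn, if_false]
      exact hQ)
  have e : (⋃ n : ℕ, (if n = 0 then P else Q)) = P ∪ Q := by
    ext x
    simp only [Set.mem_iUnion, Set.mem_union]
    constructor
    · rintro ⟨n, hn⟩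
      by_cases h0 : n = 0
      · rw [if_pos h0] at hn
        exact Or.inl hn
      · rw [if_neg h0] at hn
        exact Or.inr hn
    · rintro (hx | hx)
      · exact ⟨0, by simpa using hx⟩
      · exact ⟨1, by simpa using hx⟩
  rw [e] at h
  exact h

theorem DEN_tail {P : Set C} (hP : Tail P) (y : C) : Tail (P ∪ {x : C | AEq x y}) := by
  intro x x' hxx
  constructor
  · rintro (h | h)
    · exact Or.inl ((hP x x' hxx).mp h)
    · exact Or.inr (DEN_aeq_trans (DEN_aeq_symm hxx) h)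
  · rintro (h | h)
    · exact Or.inl ((hP x x' hxx).mpr h)
    · exact Or.inr (DEN_aeq_trans hxx h)

theorem p_DEN (h1 : Stmt_RNU) (h2 : Stmt_RNS) (h3 : Stmt_INF) : Stmt_DEN := by
  intro F hF P Q hC X hX
  obtain ⟨Y, hY, hYX, hYN⟩ := DEN_rn h1 hC.rnP hC.rnQ X hX
  obtain ⟨y, hy, hyY, hyn⟩ := DEN_split Y hY
  have hI := h3 F hF
  refine ⟨P ∪ {x | AEq x Y}, Q ∪ {x | AEq x y}, ?_, Set.subset_union_left,
    Set.subset_union_left, ⟨Y, Or.inr ⟨0, fun _ _ => rfl⟩, hYX⟩,
    ⟨y, Or.inr ⟨0, fun _ _ => rfl⟩, fun k hk => hYX k (hyY k hk)⟩⟩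
  refine ⟨?_, DEN_rn h1 hC.rnP (h2 Y), DEN_rn h1 hC.rnQ (h2 y), DEN_tail hC.tailP Y,
    DEN_tail hC.tailQ y, ?_, ?_, hI.2.1 _ _ hC.fP (hI.2.2.2.1 _ (DEN_ana Y)),
    hI.2.1 _ _ hC.fQ (hI.2.2.2.1 _ (DEN_ana y))⟩
  · rintro x (hx | hx) (hx' | hx')
    · exact hC.disj x hx hx'
    · exact hYN x (hC.infP x hx) (DEN_asub hx' hyY) (Or.inl hx)
    · exact hYN x (DEN_inf hx hY) (DEN_asub hx fun k hk => hk) (Or.inr hx')
    · exact hyn (DEN_aeq_trans (DEN_aeq_symm hx) hx')
  · rintro x (hx | hx)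
    · exact hC.infP x hx
    · exact DEN_inf hx hY
  · rintro x (hx | hx)
    · exact hC.infQ x hx
    · exact DEN_inf hx hy

end Pool.LF
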