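import Pool.Agent.Work.MP_f36782_lf.Interface5

set_option autoImplicit false

/-!
# MP_f36782_lc, THEOREM LF, block DNF: the data of a difference operation
-/

open MeasureTheory Pool.Agent.Work.RamseyAD

namespace Pool.LF

/-- Replace the atoms of a formula. -/
def DNF_map {K L L' : Type} (g : L → L') : Fm K L → Fm K L'
  | .base k => .base k
  | .pre l => .pre (g l)
  | .uni φ => .uni fun n => DNF_map g (φ n)
  | .int φ => .int fun n => DNF_map g (φ n)

theorem DNF_tr {K L L' : Type} (g : L → L') (a : K → Prop) (b : L → Prop) (b' : L' → Prop)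
    (φ : Fm K L) (h : ∀ l ∈ φ.at, (b' (g l) ↔ b l)) : (DNF_map g φ).tr a b' ↔ φ.tr a b := by
  induction φ with
  | base k => exact Iff.rfl
  | pre l => exact h l rfl
  | uni φ ih =>
    exact exists_congr fun n => ih n fun l hl => h l (Set.mem_iUnion.2 ⟨n, hl⟩)
  | int φ ih =>
    exact forall_congr' fun n => ih n fun l hl => h l (Set.mem_iUnion.2 ⟨n, hl⟩)

theorem DNF_count {K L : Type} (φ : Fm K L) : φ.at.Countable := by
  induction φ with
  | base k => exact Set.countable_empty
  | pre l => exact Set.countable_singleton l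
  | uni φ ih => exact Set.countable_iUnion ih
  | int φ ih => exact Set.countable_iUnion ih

theorem DNF_form (F : Set (Set (ℕ → ℕ))) (S : Op) (hS : PosOp F Continuous S) :
    ∃ φ : Fm F CM, ∀ A, S A = {z | φ.tr (fun k => z ∈ k.1) (fun f => f.1 z ∈ A)} := by
  induction hS with
  | const S h => exact ⟨Fm.base ⟨S, h⟩, fun A => rfl⟩
  | pre f h => exact ⟨Fm.pre ⟨f, h⟩, fun A => rfl⟩
  | union S h ih =>
    choose φ hφ using ih
    refine ⟨Fm.uni φ, fun A => ?_⟩
    ext z
    simp only [Set.mem_iUnion, Set.mem_setOf_eq, Fm.tr]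
    refine exists_congr fun n => ?_
    rw [hφ n A]
    rfl
  | inter S h ih =>
    choose φ hφ using ih
    refine ⟨Fm.int φ, fun A => ?_⟩
    ext z
    simp only [Set.mem_iInter, Set.mem_setOf_eq, Fm.tr]
    refine forall_congr' fun n => ?_
    rw [hφ n A]
    rfl

theorem p_DNF (hLCT : Stmt_LCT) : Stmt_DNF := by
  classical
  intro F S hS
  obtain ⟨V, V', ⟨D, L, hDL, hV⟩, hV', hS⟩ := hS
  obtain ⟨φ, hφ⟩ := DNF_form F V' hV'
  set T : Set ((ℕ → ℕ) → C) := insert (fun _ _ => false)
    ((⋃ n, {f | f ∈ L n}) ∪ (fun f : CM => f.1) '' φ.at) with hT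
  have hTc : T.Countable := by
    refine Set.Countable.insert _ (Set.Countable.union ?_ ((DNF_count φ).image _))
    exact Set.countable_iUnion fun n => (List.finite_toSet (L n)).countable
  have hTne : T.Nonempty := ⟨_, Set.mem_insert _ _⟩
  have hTcont : ∀ f ∈ T, Continuous f := by
    rintro f (rfl | hf | ⟨g, -, rfl⟩)
    · exact continuous_const
    · obtain ⟨n, hn⟩ := Set.mem_iUnion.1 hf
      exact (hDL n).2 f hn
    · exact g.2
  obtain ⟨f, hf⟩ := hTc.exists_eq_range hTne
  have hfT : ∀ i, f i ∈ T := fun i => hf ▸ Set.mem_range_self i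
  choose α hα using fun i => hLCT (f i) (hTcont _ (hfT i))
  have hidx : ∀ g : (ℕ → ℕ) → C, ∃ i, g ∈ T → f i = g := by
    intro g
    by_cases hg : g ∈ T
    · rw [hf] at hg
      obtain ⟨i, hi⟩ := hg
      exact ⟨i, fun _ => hi⟩
    · exact ⟨0, fun h => absurd h hg⟩
  choose idx hidx using hidx
  have hpt : ∀ i z, pt (α i) z = f i z := by
    intro i z
    unfold pt
    rw [if_pos (hα i z).1, (hα i z).2]
  have hL : ∀ n, ∀ g ∈ L n, f (idx g) = g := fun n g hg =>
    hidx g (Set.mem_insert_of_mem _ (Or.inl (Set.mem_iUnion.2 ⟨n, hg⟩)))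
  have hA : ∀ g ∈ φ.at, f (idx g.1) = g.1 := fun g hg =>
    hidx g.1 (Set.mem_insert_of_mem _ (Or.inr ⟨g, hg, rfl⟩))
  refine ⟨{ α := α, tot := fun i z => (hα i z).1, D := D, hD := fun n => (hDL n).1,
            N := fun n => ((L n).map idx).toFinset, φ := DNF_map (fun g : CM => idx g.1) φ },
    fun A => ?_⟩
  rw [hS A]
  ext z
  refine and_congr ?_ (not_congr ?_)
  · rw [hV A]
    refine exists_congr fun n => and_congr Iff.rfl ?_
    constructor
    · intro h i hi
      obtain ⟨g, hg, rfl⟩ := List.mem_map.1 (List.mem_toFinset.1 hi)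
      show pt (α (idx g)) z ∈ A
      rw [hpt, hL n g hg]
      exact h g hg
    · intro h g hg
      have h1 : pt (α (idx g)) z ∈ A := h (idx g) (List.mem_toFinset.2 (List.mem_map.2 ⟨g, hg, rfl⟩))
      rw [hpt, hL n g hg] at h1
      exact h1
  · rw [hφ A]
    refine (DNF_tr (fun g : CM => idx g.1) _ _ _ φ fun g hg => ?_).symm
    show pt (α (idx g.1)) z ∈ A ↔ g.1 z ∈ A
    rw [hpt, hA g hg]

end Pool.LF
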