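import Pool.Agent.Work.MP_f36782_lf.Interface6

set_option autoImplicit false

/-!
# MP_f36782_lc, THEOREM LF, block DNX: the data of a signed difference
-/

open Pool.Agent.Work.RamseyAD

namespace Pool.LF

theorem p_DNX (hDNF : Stmt_DNF) : Stmt_DNX := by
  intro F S hS
  obtain ⟨B, V, V', hB, hV, hV', hS⟩ := hS
  obtain ⟨o, ho⟩ := hDNF F (fun A => V A \ V' A) ⟨V, V', hV, hV', fun _ => rfl⟩
  refine ⟨o, B, hB, fun A => ?_⟩
  rw [hS A, ← ho A]

end Pool.LF
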