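import Pool.Agent.Work.MP_f36782_lf.Interface5

set_option autoImplicit false

/-! Block ENG: an enumeration of the ports which are reachable by the rules. -/

open MeasureTheory Pool.Agent.Work.RamseyAD

namespace Pool.LF

/-- The composition of `α i` with the maps given by a list of pairs. -/
def ENG_g {F : Set (Set (ℕ → ℕ))} (c : Pnt) (o : OpD F) (i : ℕ) : List (ℕ × ℕ) → LMap ℕ Bool
  | [] => o.α i
  | q :: l =>
    match (c.R q.1).L[q.2]? with
    | some β => β.comp (ENG_g c o i l)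
    | none => ENG_g c o i l

theorem ENG_cons {F : Set (Set (ℕ → ℕ))} (c : Pnt) (o : OpD F) (i : ℕ) (l : List (ℕ × ℕ)) (e k : ℕ)
    (β : LMap Bool Bool) (h : (c.R e).L[k]? = some β) :
    ENG_g c o i ((e, k) :: l) = β.comp (ENG_g c o i l) := by
  simp only [ENG_g, h]

theorem p_ENG : Stmt_ENG := by
  intro F c o
  refine ⟨⟨fun n => ENG_g c o (Denumerable.ofNat (ℕ × List (ℕ × ℕ)) n).1
    (Denumerable.ofNat (ℕ × List (ℕ × ℕ)) n).2, fun i => Encodable.encode ((i, []) : ℕ × List (ℕ × ℕ)),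
    ?_, ?_⟩⟩
  · intro i
    simp only [Denumerable.ofNat_encode]
    rfl
  · intro j e β hβ
    obtain ⟨k, hk⟩ := List.mem_iff_getElem?.1 hβ
    refine ⟨Encodable.encode (((Denumerable.ofNat (ℕ × List (ℕ × ℕ)) j).1,
      (e, k) :: (Denumerable.ofNat (ℕ × List (ℕ × ℕ)) j).2) : ℕ × List (ℕ × ℕ)), ?_⟩
    simp only [Denumerable.ofNat_encode]
    exact ENG_cons c o _ _ e k β hk

end Pool.LF
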