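import Pool.Agent.Work.MP_f36782_lf.Interface2

set_option autoImplicit false

/-! Block FIN: closure properties of the class `InF F` for a determined algebra `F`. -/

open MeasureTheory Pool.Agent.Work.RamseyAD

namespace Pool.LF

theorem FIN_union {F : Set (Set (ℕ → ℕ))} (hF : DetAlgebra F) {S T : Set (ℕ → ℕ)} (hS : S ∈ F)
    (hT : T ∈ F) : S ∪ T ∈ F := by
  have h := hF.union (fun n => if n = 0 then S else T) (fun n => by
    split_ifs
    · exact hS
    · exact hT)
  have e : (⋃ n : ℕ, (fun n => if n = 0 then S else T) n) = S ∪ T := by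
    ext z
    simp only [Set.mem_iUnion, Set.mem_union]
    constructor
    · rintro ⟨n, hn⟩
      split_ifs at hn
      · exact Or.inl hn
      · exact Or.inr hn
    · rintro (h | h)
      · exact ⟨0, by simpa using h⟩
      · exact ⟨1, by simpa using h⟩
  rw [← e]
  exact h

theorem FIN_borel {F : Set (Set (ℕ → ℕ))} (hF : DetAlgebra F) (S : Set (ℕ → ℕ))
    (hS : MeasurableSet S) : S ∈ F := by
  rw [BorelSpace.measurable_eq (α := ℕ → ℕ)] at hS
  let m' : MeasurableSpace (ℕ → ℕ) :=
    { MeasurableSet' := fun S => S ∈ F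
      measurableSet_empty := hF.isOpen ∅ isOpen_empty
      measurableSet_compl := hF.compl
      measurableSet_iUnion := hF.union }
  have h1 : borel (ℕ → ℕ) ≤ m' := MeasurableSpace.generateFrom_le fun t ht => hF.isOpen t ht
  exact h1 S hS

theorem p_FIN : Stmt_FIN := by
  intro F hF
  refine ⟨FIN_borel hF, fun P hP f hf => ?_, fun P Q hP hQ f hf => ?_, fun P Q hP hQ f hf => ?_,
    fun P hP f hf => FIN_borel hF _ (hf.measurable hP)⟩
  · rw [Set.preimage_iUnion]
    exact hF.union _ fun n => hP n f hf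
  · rw [Set.preimage_union]
    exact FIN_union hF (hP f hf) (hQ f hf)
  · have e : f ⁻¹' (P \ Q) = ((f ⁻¹' P)ᶜ ∪ f ⁻¹' Q)ᶜ := by
      ext z
      simp only [Set.mem_preimage, Set.mem_sdiff, Set.mem_compl_iff, Set.mem_union, not_or,
        not_not]
    rw [e]
    exact hF.compl _ (FIN_union hF (hF.compl _ (hP f hf)) (hQ f hf))

end Pool.LF
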