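import Pool.Agent.Work.MP_f36782_lf.Interface5

set_option autoImplicit false

open MeasureTheory Pool.Agent.Work.RamseyAD

namespace Pool.LF

theorem FRM_symm {x y : C} (h : AEq x y) : AEq y x := by
  obtain ⟨N, hN⟩ := h
  exact ⟨N, fun k hk => (hN k hk).symm⟩

theorem FRM_trans {x y z : C} (h : AEq x y) (h' : AEq y z) : AEq x z := by
  obtain ⟨N, hN⟩ := h
  obtain ⟨M, hM⟩ := h'
  refine ⟨max N M, fun k hk => ?_⟩
  rw [hN k ((le_max_left _ _).trans hk), hM k ((le_max_right _ _).trans hk)]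

theorem FRM_hit {x y : C} {S : Set ℕ} (h : AEq x y) (hx : Hit x S) : Hit y S := by
  obtain ⟨N, hN⟩ := h
  intro n
  obtain ⟨k, hk1, hk2, hk3⟩ := hx (max n N)
  refine ⟨k, (le_max_left _ _).trans hk1, ?_, hk3⟩
  rw [← hN k ((le_max_right _ _).trans hk1)]
  exact hk2

theorem FRM_tail_union {ι : Type} {D : ι → Set C} (h : ∀ i, Tail (D i)) : Tail (⋃ i, D i) := by
  intro x y hxy
  simp only [Set.mem_iUnion]
  exact exists_congr fun i => h i x y hxy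

theorem FRM_tail_or {D E : Set C} (h : Tail D) (h' : Tail E) : Tail (D ∪ E) := by
  intro x y hxy
  exact or_congr (h x y hxy) (h' x y hxy)

/-- block FRM -/
theorem p_FRM (hMSB : Stmt_MSB) (hMST : Stmt_MST) (hMPR : Stmt_MPR) (hMAB : Stmt_MAB)
    (hCPR : Stmt_CPR) (hCBM : Stmt_CBM) (hCDB : Stmt_CDB) (_hBRF : Stmt_BRF) (hLVM : Stmt_LVM)
    (hKBM : Stmt_KBM) (hRLM : Stmt_RLM) (hRLR : Stmt_RLR) (hRLC : Stmt_RLC) (hRLB : Stmt_RLB)
    (hRLX : Stmt_RLX) : Stmt_FRM := by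
  intro B hB γ
  obtain ⟨hA1, hB1⟩ := hMSB B
  obtain ⟨hA2, hB2, hA3, hB3, hAB⟩ := hMST B
  obtain ⟨hMA, hMB⟩ := hMAB B
  have hf : ∀ j, Measurable ((fun j => pt (γ j)) j) := fun j => hLVM.2 (γ j)
  obtain ⟨hC1, hC2, hC3, hC4⟩ := hCDB B hB (fun j => pt (γ j))
  obtain ⟨hK1, hK2, -⟩ := hKBM B hB
  -- promised sets: measurable, tail
  have hRm : MeasurableSet (⋃ j, RsL B (γ j)) := MeasurableSet.iUnion fun j => (hRLM B hB (γ j)).1
  have hRt : Tail (⋃ j, RsL B (γ j)) := FRM_tail_union fun j => (hRLM B hB (γ j)).2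
  have hUc : Uc B γ = KB B ∩ ⋃ j, RsL B (γ j) := by
    ext x
    simp only [Uc, Set.mem_setOf_eq, Set.mem_inter_iff, Set.mem_iUnion]
  have hUn : Un B γ = (KB B)ᶜ ∩ ⋃ j, RsL B (γ j) := by
    ext x
    simp only [Un, Set.mem_setOf_eq, Set.mem_inter_iff, Set.mem_iUnion, Set.mem_compl_iff]
  -- promised sets and companions are disjoint
  have hRC : ∀ j n, 1 ≤ n → ∀ x ∈ RsL B (γ j), x ∉ Com B (fun j => pt (γ j)) n := by
    rintro j n hn x hx ⟨z, i, hz1, hz2⟩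
    obtain ⟨-, -, -, h4, h5, -⟩ := hCPR B (fun j => pt (γ j)) z i hz1 n
    have h6 : InBr B z x := by
      obtain ⟨K, hK⟩ := hz2
      refine ⟨K, fun m hm hxm => h4 m ?_⟩
      rw [← hK m hm]
      exact hxm
    have h7 := hRLB B hB (γ j) x hx z h6
    exact h5 j hn (FRM_trans (FRM_symm hz2) h7)
  -- companions are almost contained in a branch
  have hCK : ∀ n, ∀ x ∈ Com B (fun j => pt (γ j)) n, x ∈ KB B := by
    intro n x hx
    have hx' := hx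
    obtain ⟨z, i, hz1, hz2⟩ := hx'
    obtain ⟨-, -, -, h4, -, -⟩ := hCPR B (fun j => pt (γ j)) z i hz1 n
    refine ⟨hC3 n x hx, z, ?_⟩
    obtain ⟨K, hK⟩ := hz2
    refine ⟨K, fun m hm hxm => h4 m ?_⟩
    rw [← hK m hm]
    exact hxm
  -- companions of promised sets
  have hCo : ∀ j, ∀ x ∈ RsL B (γ j), (∃ y ∈ E1 B γ, Sub y x) ∧ ∃ y ∈ E2 B γ, Sub y x := by
    intro j x hj
    rcases hRLC B hB (γ j) x hj with h | h
    · obtain ⟨z, hz1, hz2⟩ := h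
      have hz3 : Hit (pt (γ j) z) (Br B z) := FRM_hit hz1 hz2
      have key : ∀ n, ∃ y ∈ Com B (fun j => pt (γ j)) n, Sub y x := by
        intro n
        obtain ⟨-, -, h3, -⟩ := hCPR B (fun j => pt (γ j)) z j hz3 n
        obtain ⟨N, hN⟩ := hz1
        refine ⟨fun m => decide (N ≤ m) && com B (fun j => pt (γ j)) n j z m, ?_, fun m hm => ?_⟩
        · refine ⟨z, j, hz3, N, fun m hm => ?_⟩
          simp [hm]
        · simp only [Bool.and_eq_true, decide_eq_true_eq] at hm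
          rw [hN m hm.1]
          exact h3 m hm.2
      constructor
      · obtain ⟨y, hy1, hy2⟩ := key (2 * 0 + 2)
        exact ⟨y, Or.inl (Set.mem_iUnion.2 ⟨0, hy1⟩), hy2⟩
      · obtain ⟨y, hy1, hy2⟩ := key (2 * 0 + 1)
        exact ⟨y, Or.inl (Set.mem_iUnion.2 ⟨0, hy1⟩), hy2⟩
    · obtain ⟨a, b, h1, h2⟩ := h
      obtain ⟨⟨y, hy1, hy2⟩, y', hy3, hy4⟩ := hMPR B x a b h1 h2
      exact ⟨⟨y, Or.inr hy1, hy2⟩, y', Or.inr hy3, hy4⟩
  have hRI : ∀ j, ∀ x ∈ RsL B (γ j), Inf x := fun j x hx => hx.1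
  have hRE : ∀ j, ∀ x ∈ RsL B (γ j), x ∉ E1 B γ ∧ x ∉ E2 B γ := by
    intro j x hx
    have hX := hRLX B hB x (Or.inr ⟨γ j, hx⟩)
    constructor
    · rintro (h | h)
      · obtain ⟨n, hn⟩ := Set.mem_iUnion.1 h
        exact hRC j _ (by omega) x hx hn
      · exact hX.1 h
    · rintro (h | h)
      · obtain ⟨n, hn⟩ := Set.mem_iUnion.1 h
        exact hRC j _ (by omega) x hx hn
      · exact hX.2 h
  refine ⟨⟨?_, ?_, ?_, ?_⟩, ⟨?_, ?_, ?_, ?_⟩, ?_, ?_, ?_, ?_, ?_⟩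
  · rw [hUc]
    exact hK1.inter hRm
  · rw [hUn]
    exact hK1.compl.inter hRm
  · exact (MeasurableSet.iUnion fun n => hCBM B hB _ hf _).union hA1
  · exact (MeasurableSet.iUnion fun n => hCBM B hB _ hf _).union hB1
  · rw [hUc]
    intro x y hxy
    exact and_congr (hK2 x y hxy) (hRt x y hxy)
  · rw [hUn]
    intro x y hxy
    exact and_congr (not_congr (hK2 x y hxy)) (hRt x y hxy)
  · exact FRM_tail_or (FRM_tail_union fun n => hC2 _) hA2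
  · exact FRM_tail_or (FRM_tail_union fun n => hC2 _) hB2
  · rintro x (⟨hx, j, hj⟩ | ⟨hx, j, hj⟩ | (h | h) | (h | h))
    · exact ⟨hRI j x hj, hCo j x hj⟩
    · exact ⟨hRI j x hj, hCo j x hj⟩
    · obtain ⟨n, hn⟩ := Set.mem_iUnion.1 h
      obtain ⟨y, hy1, hy2⟩ := hC4 _ x hn
      have hy1' : y ∈ Com B (fun j => pt (γ j)) (2 * (n + 1) + 1) := by
        have e : 2 * (n + 1) + 1 = 2 * n + 2 + 1 := by ring
        rw [e]
        exact hy1
      exact ⟨hC3 _ x hn, ⟨x, Or.inl h, fun k hk => hk⟩,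
        y, Or.inl (Set.mem_iUnion.2 ⟨n + 1, hy1'⟩), hy2⟩
    · obtain ⟨y, hy1, hy2⟩ := hMA x h
      exact ⟨hA3 x h, ⟨x, Or.inr h, fun k hk => hk⟩, y, Or.inr hy1, hy2⟩
    · obtain ⟨n, hn⟩ := Set.mem_iUnion.1 h
      obtain ⟨y, hy1, hy2⟩ := hC4 _ x hn
      exact ⟨hC3 _ x hn, ⟨y, Or.inl (Set.mem_iUnion.2 ⟨n, hy1⟩), hy2⟩,
        x, Or.inl h, fun k hk => hk⟩
    · obtain ⟨y, hy1, hy2⟩ := hMB x h
      exact ⟨hB3 x h, ⟨y, Or.inr hy1, hy2⟩, x, Or.inr h, fun k hk => hk⟩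
  · rintro x (⟨hx, j, hj⟩ | ⟨hx, j, hj⟩)
    · exact hRE j x hj
    · exact hRE j x hj
  · rintro x (hx | hx) (hy | hy)
    · obtain ⟨m, hm⟩ := Set.mem_iUnion.1 hx
      obtain ⟨n, hn⟩ := Set.mem_iUnion.1 hy
      rcases lt_trichotomy (2 * m + 2) (2 * n + 1) with h | h | h
      · exact hC1 (2 * n + 1) (2 * m + 2) (by omega) h x hn hm
      · omega
      · exact hC1 (2 * m + 2) (2 * n + 1) (by omega) h x hm hn
    · obtain ⟨m, hm⟩ := Set.mem_iUnion.1 hx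
      exact (hRLX B hB x (Or.inl (hCK _ x hm))).2 hy
    · obtain ⟨n, hn⟩ := Set.mem_iUnion.1 hy
      exact (hRLX B hB x (Or.inl (hCK _ x hn))).1 hx
    · exact hAB x hx hy
  · intro j z hz
    have h1 := hRLR B hB (γ j) z hz
    by_cases h2 : pt (γ j) z ∈ KB B
    · exact Or.inl ⟨h2, j, h1⟩
    · exact Or.inr ⟨h2, j, h1⟩
  · rintro x ⟨-, j, hj⟩ z hz
    exact ⟨j, hRLB B hB (γ j) x hj z hz⟩

end Pool.LF
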