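import Pool.Agent.Work.MP_f36782_lf.Interface

set_option autoImplicit false

/-! # Block FSG: the auxiliary game is an F sigma game -/

open MeasureTheory Pool.Agent.Work.RamseyAD

namespace Pool.LF

theorem FSG_mv : Continuous mv :=
  continuous_pi fun i => (continuous_of_discreteTopology (f := fun a : ℕ => (Nat.unpair a).1)).comp
    (continuous_apply i)

theorem FSG_len (i : ℕ) : Continuous fun z : ℕ → ℕ => len z i := by
  unfold len
  exact continuous_finsetSum _ fun j _ =>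
    (continuous_of_discreteTopology (f := fun a : ℕ => (Nat.unpair a).2)).comp
      (continuous_apply j)

theorem FSG_own (p k : ℕ) : IsOpen {z : ℕ → ℕ | k ∈ own p z} := by
  have h : {z : ℕ → ℕ | k ∈ own p z}
      = ⋃ i : ℕ, {z : ℕ → ℕ | i % 2 = p ∧ len z i ≤ k ∧ k < len z (i + 1)} := by
    ext z
    simp only [own, Set.mem_iUnion, Set.mem_ofPred_eq]
  rw [h]
  refine isOpen_iUnion fun i => ?_
  by_cases hi : i % 2 = p
  · have h1 : {z : ℕ → ℕ | i % 2 = p ∧ len z i ≤ k ∧ k < len z (i + 1)}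
        = (fun z : ℕ → ℕ => len z i) ⁻¹' {a | a ≤ k}
          ∩ (fun z : ℕ → ℕ => len z (i + 1)) ⁻¹' {a | k < a} := by
      ext z
      constructor
      · rintro ⟨_, h2, h3⟩
        exact ⟨h2, h3⟩
      · rintro ⟨h2, h3⟩
        exact ⟨hi, h2, h3⟩
    rw [h1]
    exact ((isOpen_discrete _).preimage (FSG_len i)).inter
      ((isOpen_discrete _).preimage (FSG_len (i + 1)))
  · have h1 : {z : ℕ → ℕ | i % 2 = p ∧ len z i ≤ k ∧ k < len z (i + 1)} = ∅ := by
      ext z
      constructor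
      · rintro ⟨h2, _⟩
        exact (hi h2).elim
      · intro h2
        exact h2.elim
    rw [h1]
    exact isOpen_empty

theorem FSG_val (f : (ℕ → ℕ) → C) (hf : Continuous f) (k : ℕ) :
    IsOpen {z : ℕ → ℕ | f (mv z) k = true} := by
  have h1 : Continuous fun z : ℕ → ℕ => f (mv z) k :=
    (continuous_apply k).comp (hf.comp FSG_mv)
  exact (isOpen_discrete {true}).preimage h1

theorem p_FSG : Stmt_FSG := by
  intro f hf
  refine ⟨fun n => {z | ∀ k, n ≤ k → ¬ (f (mv z) k = true ∧ k ∈ own 1 z)}, ?_, ?_⟩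
  · intro n
    have h1 : {z : ℕ → ℕ | ∀ k, n ≤ k → ¬ (f (mv z) k = true ∧ k ∈ own 1 z)}
        = ⋂ k : ℕ, ⋂ _ : n ≤ k, ({z : ℕ → ℕ | f (mv z) k = true} ∩ {z | k ∈ own 1 z})ᶜ := by
      ext z
      simp only [Set.mem_iInter, Set.mem_compl_iff, Set.mem_inter_iff, Set.mem_ofPred_eq]
    show IsClosed {z : ℕ → ℕ | ∀ k, n ≤ k → ¬ (f (mv z) k = true ∧ k ∈ own 1 z)}
    rw [h1]
    exact isClosed_iInter fun k => isClosed_iInter fun _ =>
      ((FSG_val f hf k).inter (FSG_own 1 k)).isClosed_compl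
  · ext z
    simp only [Set.mem_iUnion, Set.mem_ofPred_eq, Hit]
    push Not
    constructor
    · rintro ⟨n, hn⟩
      exact ⟨n, fun k hk h => hn k hk h⟩
    · rintro ⟨n, hn⟩
      exact ⟨n, fun k hk h => hn k hk h⟩

end Pool.LF
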