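import Pool.Agent.Work.MP_f36782_lf.Interface

set_option autoImplicit false

/-! Block LAT: the sets in `Lat F A` are given by formulas. -/

open MeasureTheory Pool.Agent.Work.RamseyAD

namespace Pool.LF

theorem p_LAT : Stmt_LAT := by
  intro F hF A
  constructor
  · intro S hS
    induction hS with
    | base S h => exact ⟨Fm.base ⟨S, h⟩, rfl⟩
    | pre f h => exact ⟨Fm.pre ⟨f, h⟩, rfl⟩
    | uni S h ih =>
      choose φ hφ using ih
      refine ⟨Fm.uni φ, ?_⟩
      ext z
      rw [Set.mem_iUnion]
      show (∃ n, z ∈ S n) ↔ ∃ n, (φ n).tr (fun k => z ∈ k.1) (fun f => f.1 z ∈ A)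
      refine exists_congr fun n => ?_
      conv_lhs => rw [hφ n]
      rfl
    | int S h ih =>
      choose φ hφ using ih
      refine ⟨Fm.int φ, ?_⟩
      ext z
      rw [Set.mem_iInter]
      show (∀ n, z ∈ S n) ↔ ∀ n, (φ n).tr (fun k => z ∈ k.1) (fun f => f.1 z ∈ A)
      refine forall_congr' fun n => ?_
      conv_lhs => rw [hφ n]
      rfl
  · intro S hS g hg
    induction hS with
    | base S h => exact Lat.base _ (hF.preimage S h g hg)
    | pre f h => exact Lat.pre (f ∘ g) (h.comp hg)
    | uni S h ih =>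
      rw [Set.preimage_iUnion]
      exact Lat.uni _ ih
    | int S h ih =>
      rw [Set.preimage_iInter]
      exact Lat.int _ ih

end Pool.LF
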