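import Pool.Agent.Work.MP_f36782_lf.Interface2

set_option autoImplicit false

/-!
# MP_f36782_lc, block LIB: unions of increasing sequences of balanced pairs (typed by helper63)
-/

open MeasureTheory Pool.Agent.Work.RamseyAD

namespace Pool.LF

theorem LIB_tail (P : ℕ → Set C) (h : ∀ n, Tail (P n)) : Tail (⋃ n, P n) := by
  intro x y hxy
  constructor
  · intro hx
    obtain ⟨n, hn⟩ := Set.mem_iUnion.mp hx
    exact Set.mem_iUnion.mpr ⟨n, (h n x y hxy).mp hn⟩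
  · intro hx
    obtain ⟨n, hn⟩ := Set.mem_iUnion.mp hx
    exact Set.mem_iUnion.mpr ⟨n, (h n x y hxy).mpr hn⟩

theorem p_LIB : Stmt_LIB := by
  intro P Q hC hI
  have mP : Monotone P := monotone_nat_of_le_succ (fun n => (hI n).1)
  have mQ : Monotone Q := monotone_nat_of_le_succ (fun n => (hI n).2)
  refine ⟨?_, ?_, ?_, ?_, ?_, ?_, ?_⟩
  · intro x hx hx2
    obtain ⟨n, hn⟩ := Set.mem_iUnion.mp hx
    obtain ⟨m, hm⟩ := Set.mem_iUnion.mp hx2
    exact (hC (max n m)).disj x (mP (le_max_left n m) hn) (mQ (le_max_right n m) hm)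
  · exact LIB_tail P (fun n => (hC n).tailP)
  · exact LIB_tail Q (fun n => (hC n).tailQ)
  · intro x hx
    obtain ⟨n, hn⟩ := Set.mem_iUnion.mp hx
    exact (hC n).infP x hn
  · intro x hx
    obtain ⟨n, hn⟩ := Set.mem_iUnion.mp hx
    exact (hC n).infQ x hn
  · intro x hx
    obtain ⟨n, hn⟩ := Set.mem_iUnion.mp hx
    obtain ⟨y, hy, hyx⟩ := (hC n).balP x hn
    exact ⟨y, Set.mem_iUnion.mpr ⟨n, hy⟩, hyx⟩
  · intro x hx
    obtain ⟨n, hn⟩ := Set.mem_iUnion.mp hx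
    obtain ⟨y, hy, hyx⟩ := (hC n).balQ x hn
    exact ⟨y, Set.mem_iUnion.mpr ⟨n, hy⟩, hyx⟩

end Pool.LF
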