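import Pool.Agent.Work.MP_f36782_lf.Interface

set_option autoImplicit false

/-!
# MP_f36782_lc, block LIM: unions of increasing sequences of conditions (typed by helper55)
-/

open MeasureTheory Pool.Agent.Work.RamseyAD

namespace Pool.LF

theorem LIM_mono (P : ℕ → Set C) (h : ∀ n, P n ⊆ P (n + 1)) : Monotone P :=
  monotone_nat_of_le_succ h

theorem LIM_tail (P : ℕ → Set C) (h : ∀ n, Tail (P n)) : Tail (⋃ n, P n) := by
  intro x y hxy
  constructor
  · intro hx
    obtain ⟨n, hn⟩ := Set.mem_iUnion.mp hx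
    exact Set.mem_iUnion.mpr ⟨n, (h n x y hxy).mp hn⟩
  · intro hx
    obtain ⟨n, hn⟩ := Set.mem_iUnion.mp hx
    exact Set.mem_iUnion.mpr ⟨n, (h n x y hxy).mpr hn⟩

theorem p_LIM (hRNU : Stmt_RNU) (hINF : Stmt_INF) : Stmt_LIM := by
  intro F hF P Q hC hI
  have mP : Monotone P := LIM_mono P (fun n => (hI n).1)
  have mQ : Monotone Q := LIM_mono Q (fun n => (hI n).2)
  refine ⟨?_, ?_, ?_, ?_, ?_, ?_, ?_, ?_, ?_⟩
  · intro x hx hx2
    obtain ⟨n, hn⟩ := Set.mem_iUnion.mp hx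
    obtain ⟨m, hm⟩ := Set.mem_iUnion.mp hx2
    exact (hC (max n m)).disj x (mP (le_max_left n m) hn) (mQ (le_max_right n m) hm)
  · exact hRNU P (fun n => (hC n).rnP)
  · exact hRNU Q (fun n => (hC n).rnQ)
  · exact LIM_tail P (fun n => (hC n).tailP)
  · exact LIM_tail Q (fun n => (hC n).tailQ)
  · intro x hx
    obtain ⟨n, hn⟩ := Set.mem_iUnion.mp hx
    exact (hC n).infP x hn
  · intro x hx
    obtain ⟨n, hn⟩ := Set.mem_iUnion.mp hx
    exact (hC n).infQ x hn
  · exact (hINF F hF).1 P (fun n => (hC n).fP)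
  · exact (hINF F hF).1 Q (fun n => (hC n).fQ)

end Pool.LF
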