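import Pool.Agent.Work.MP_f36782_lf.Interface4
import Pool.Agent.Work.MP_f36782_lf.B_PAF

/-! # Block MEU: the game with arbitrary positions is in the class -/

open MeasureTheory Pool.Agent.Work.RamseyAD

namespace Pool.LF

section clos

variable {F : Set (Set (ℕ → ℕ))} (hF : DetAlgebra F) {Y : Type} [TopologicalSpace Y]

include hF

theorem MEU_not {P : Y → Prop} (h : InY F Y P) : InY F Y (fun y => ¬ P y) :=
  fun c hc => PAF_not hF (h c hc)

theorem MEU_and {P Q : Y → Prop} (h : InY F Y P) (h' : InY F Y Q) : InY F Y (fun y => P y ∧ Q y) :=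
  fun c hc => PAF_and hF (h c hc) (h' c hc)

theorem MEU_ex {P : ℕ → Y → Prop} (h : ∀ n, InY F Y (P n)) : InY F Y (fun y => ∃ n, P n y) :=
  fun c hc => PAF_ex hF (fun n => h n c hc)

theorem MEU_all {P : ℕ → Y → Prop} (h : ∀ n, InY F Y (P n)) : InY F Y (fun y => ∀ n, P n y) :=
  fun c hc => PAF_all hF (fun n => h n c hc)

theorem MEU_imp {P Q : Y → Prop} (h : InY F Y P) (h' : InY F Y Q) :
    InY F Y (fun y => P y → Q y) := by
  have h1 := MEU_not hF (MEU_and hF h (MEU_not hF h'))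
  have h2 : (fun y => P y → Q y) = fun y => ¬ (P y ∧ ¬ Q y) := by
    funext y
    refine propext ⟨fun h3 h4 => h4.2 (h3 h4.1), fun h3 h4 => ?_⟩
    by_contra h5
    exact h3 ⟨h4, h5⟩
  rw [h2]
  exact h1

theorem MEU_cst (p : Prop) : InY F Y (fun _ => p) :=
  fun _ _ => PAF_disc hF (fun _ => ()) continuous_const (fun _ => p)

theorem MEU_bit {a : Y → C} (ha : Continuous a) (j : ℕ) : InY F Y (fun y => a y j = true) :=
  fun c hc => PAF_disc hF (fun z => a (c z) j) ((continuous_apply j).comp (ha.comp hc))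
    (fun b => b = true)

theorem MEU_meas (hFIN : Stmt_FIN) {S : Set (ℕ → ℕ)} (hS : MeasurableSet S) {w : Y → (ℕ → ℕ)}
    (hw : Continuous w) : InY F Y (fun y => w y ∈ S) :=
  fun _ hc => (hFIN F hF).1 _ (hS.preimage (hw.comp hc).measurable)

theorem MEU_exc {ι : Type} [Countable ι] {P : ι → Y → Prop} (h : ∀ i, InY F Y (P i)) :
    InY F Y (fun y => ∃ i, P i y) := by
  cases isEmpty_or_nonempty ι with
  | inl h1 =>
    have h2 : (fun y : Y => ∃ i, P i y) = fun _ => False := by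
      funext y
      exact propext ⟨fun ⟨i, _⟩ => h1.elim i, False.elim⟩
    rw [h2]
    exact MEU_cst hF False
  | inr h1 =>
    obtain ⟨f, hf⟩ := exists_surjective_nat ι
    have h2 : (fun y : Y => ∃ i, P i y) = fun y => ∃ n, P (f n) y := by
      funext y
      refine propext ⟨fun ⟨i, hi⟩ => ?_, fun ⟨n, hn⟩ => ⟨f n, hn⟩⟩
      obtain ⟨n, rfl⟩ := hf i
      exact ⟨n, hi⟩
    rw [h2]
    exact MEU_ex hF fun n => h (f n)

theorem MEU_allc {ι : Type} [Countable ι] {P : ι → Y → Prop} (h : ∀ i, InY F Y (P i)) :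
    InY F Y (fun y => ∀ i, P i y) := by
  have h1 := MEU_not hF (MEU_exc hF fun i => MEU_not hF (h i))
  have h2 : (fun y => ∀ i, P i y) = fun y => ¬ ∃ i, ¬ P i y := by
    funext y
    exact propext not_exists_not.symm
  rw [h2]
  exact h1

theorem MEU_h {k : ℕ} (h : Set (Fin k) → Prop) {p : Fin k → Y → Prop}
    (hp : ∀ l, InY F Y (p l)) : InY F Y (fun y => h {l | p l y}) := by
  have h1 : InY F Y (fun y => ∃ B : Set (Fin k), h B ∧ ∀ l, (p l y → l ∈ B) ∧ (l ∈ B → p l y)) :=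
    MEU_exc hF fun B => MEU_and hF (MEU_cst hF (h B)) (MEU_allc hF fun l =>
      MEU_and hF (MEU_imp hF (hp l) (MEU_cst hF (l ∈ B))) (MEU_imp hF (MEU_cst hF (l ∈ B)) (hp l)))
  have h2 : (fun y => h {l | p l y}) =
      fun y => ∃ B : Set (Fin k), h B ∧ ∀ l, (p l y → l ∈ B) ∧ (l ∈ B → p l y) := by
    funext y
    refine propext ⟨fun h3 => ⟨{l | p l y}, h3, fun l => ⟨fun h4 => h4, fun h4 => h4⟩⟩, ?_⟩
    rintro ⟨B, h3, h4⟩
    have h5 : {l | p l y} = B := Set.ext fun l => ⟨(h4 l).1, (h4 l).2⟩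
    rw [h5]
    exact h3
  rw [h2]
  exact h1

end clos

theorem MEU_sub {F : Set (Set (ℕ → ℕ))} {Y Y' : Type} [TopologicalSpace Y] [TopologicalSpace Y']
    {P : Y' → Prop} (h : InY F Y' P) {m : Y → Y'} (hm : Continuous m) :
    InY F Y (fun y => P (m y)) := fun c hc => h (fun z => m (c z)) (hm.comp hc)

/-- the set coded by a point of Cantor space -/
def MEU_cs (s : C) : Set ℕ := {j | s j = true}

theorem MEU_cs_surj (T : Set ℕ) : ∃ s : C, MEU_cs s = T := by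
  classical
  refine ⟨fun j => decide (j ∈ T), Set.ext fun j => ?_⟩
  change decide (j ∈ T) = true ↔ j ∈ T
  exact decide_eq_true_iff

/-- the truth of the payoff -/
def MEU_Phi {F : Set (Set (ℕ → ℕ))} (E₀ : C → C → Prop) {k : ℕ} (h : Set (Fin k) → Prop)
    (g : ℕ → MM) (φ : Fin k → Fm F MM) (w : ℕ → ℕ) (T : Set ℕ) : Prop :=
  h {l | trP g (φ l) (mv w) (clo (ER E₀ g (mv w)) T)}

section main

variable {F : Set (Set (ℕ → ℕ))} (hF : DetAlgebra F) (hFIN : Stmt_FIN) {E₀ : C → C → Prop}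
  (hE : EqR E₀) {Y : Type} [TopologicalSpace Y]

include hF hFIN hE

theorem MEU_tr (g : ℕ → MM) (φ : Fm F MM) {w : Y → (ℕ → ℕ)} (hw : Continuous w) {a : Y → C}
    (ha : Continuous a) :
    InY F Y (fun y => trP g φ (mv (w y)) (clo (ER E₀ g (mv (w y))) (MEU_cs (a y)))) := by
  induction φ with
  | base k =>
    exact fun c hc => hF.preimage k.1 k.2 (fun z => mv (w (c z)))
      (PAF_mv.comp (hw.comp hc))
  | pre f =>
    have h1 : ∀ i j, InY F Y (fun y => E₀ ((g i).1 (mv (w y))) ((g j).1 (mv (w y)))) :=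
      fun i j => MEU_meas hF hFIN (hE.meas _ _ (g i).2 (g j).2) (PAF_mv.comp hw)
    exact MEU_ex hF fun j => MEU_and hF (MEU_ex hF fun i => MEU_and hF (MEU_bit hF ha i) (h1 i j))
      (MEU_cst hF (g j = f))
  | uni φ ih => exact MEU_ex hF ih
  | int φ ih => exact MEU_all hF ih

theorem MEU_PhiY {k : ℕ} (h : Set (Fin k) → Prop) (g : ℕ → MM) (φ : Fin k → Fm F MM)
    {w : Y → (ℕ → ℕ)} (hw : Continuous w) {a : Y → C} (ha : Continuous a) :
    InY F Y (fun y => MEU_Phi E₀ h g φ (w y) (MEU_cs (a y))) :=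
  MEU_h hF h fun l => MEU_tr hF hFIN hE g (φ l) hw ha

omit hFIN hE in
theorem MEU_subset {a b : Y → C} (ha : Continuous a) (hb : Continuous b) :
    InY F Y (fun y => MEU_cs (a y) ⊆ MEU_cs (b y)) := by
  have h1 := MEU_all hF fun j => MEU_imp hF (MEU_bit hF ha j) (MEU_bit hF hb j)
  exact h1

omit hE in
theorem MEU_pu (hPUM : Stmt_PUM) (g : ℕ → MM) (p : ℕ) {w : Y → (ℕ → ℕ)} (hw : Continuous w)
    {a : Y → C} (ha : Continuous a) : InY F Y (fun y => MEU_cs (a y) ⊆ Pu p g (w y)) := by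
  have h1 := MEU_all hF fun j => MEU_imp hF (MEU_bit hF ha j)
    (MEU_meas hF hFIN (hPUM g p j) hw)
  exact h1

omit hE in
theorem MEU_diff (hPUM : Stmt_PUM) (g : ℕ → MM) (p : ℕ) {w : Y → (ℕ → ℕ)} (hw : Continuous w)
    {a b : Y → C} (ha : Continuous a) (hb : Continuous b) :
    InY F Y (fun y => MEU_cs (b y) \ MEU_cs (a y) ⊆ Pu p g (w y)) := by
  have h1 := MEU_all hF fun j => MEU_imp hF (MEU_and hF (MEU_bit hF hb j)
    (MEU_not hF (MEU_bit hF ha j))) (MEU_meas hF hFIN (hPUM g p j) hw)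
  exact h1

theorem MEU_Lw (hPUM : Stmt_PUM) (hPRJ : Stmt_PRJ) (hP : ProjClosed F) {k : ℕ}
    (h : Set (Fin k) → Prop) (g : ℕ → MM) (φ : Fin k → Fm F MM) (n : ℕ) :
    InY F ((ℕ → ℕ) × C) (fun y => Lw (MEU_Phi E₀ h g φ y.1) (Pu 0 g y.1) (Pu 1 g y.1) Set.univ n
      (MEU_cs y.2)) := by
  induction n with
  | zero => exact MEU_PhiY hF hFIN hE h g φ continuous_fst continuous_snd
  | succ n ih =>
    -- the inner quantifier
    have q3 : InY F ((((ℕ → ℕ) × C) × C) × C) (fun y =>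
        MEU_cs y.1.2 ⊆ MEU_cs y.2 ∧ MEU_cs y.2 \ MEU_cs y.1.2 ⊆ Pu 0 g y.1.1.1 ∧
          Lw (MEU_Phi E₀ h g φ y.1.1.1) (Pu 0 g y.1.1.1) (Pu 1 g y.1.1.1) Set.univ n
            (MEU_cs y.2)) := by
      refine MEU_and hF (MEU_subset hF (continuous_snd.comp continuous_fst) continuous_snd)
        (MEU_and hF (MEU_diff hF hFIN hPUM g 0
          (continuous_fst.comp (continuous_fst.comp continuous_fst))
          (continuous_snd.comp continuous_fst) continuous_snd) ?_)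
      exact MEU_sub ih (m := fun y : (((ℕ → ℕ) × C) × C) × C => (y.1.1.1, y.2))
        ((continuous_fst.comp (continuous_fst.comp continuous_fst)).prodMk continuous_snd)
    have q3' := hPRJ F hF hP _ _ q3
    have q2 : InY F (((ℕ → ℕ) × C) × C) (fun y =>
        MEU_cs y.1.2 ⊆ MEU_cs y.2 ∧ MEU_cs y.2 \ MEU_cs y.1.2 ⊆ Pu 1 g y.1.1 ∧
          ¬ MEU_Phi E₀ h g φ y.1.1 (MEU_cs y.2) ∧
          ¬ ∃ s : C, MEU_cs y.2 ⊆ MEU_cs s ∧ MEU_cs s \ MEU_cs y.2 ⊆ Pu 0 g y.1.1 ∧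
          Lw (MEU_Phi E₀ h g φ y.1.1) (Pu 0 g y.1.1) (Pu 1 g y.1.1) Set.univ n
            (MEU_cs s)) := by
      exact MEU_and hF (MEU_subset hF (continuous_snd.comp continuous_fst) continuous_snd)
        (MEU_and hF (MEU_diff hF hFIN hPUM g 1 (continuous_fst.comp continuous_fst)
          (continuous_snd.comp continuous_fst) continuous_snd)
          (MEU_and hF (MEU_not hF (MEU_PhiY hF hFIN hE h g φ (continuous_fst.comp continuous_fst)
            continuous_snd)) (MEU_not hF q3')))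
    have q2' := MEU_not hF (hPRJ F hF hP _ _ q2)
    have q1 := MEU_and hF (MEU_PhiY hF hFIN hE h g φ (Y := (ℕ → ℕ) × C) continuous_fst
      continuous_snd) q2'
    refine fun c hc => ?_
    have q0 := q1 c hc
    convert q0 using 1
    ext z
    simp only [Set.mem_setOf_eq]
    constructor
    · rintro ⟨h1, h2⟩
      refine ⟨h1, ?_⟩
      rintro ⟨s', h3, h4, h5, h6⟩
      obtain ⟨T, -, h7, h8, h9⟩ := h2 (MEU_cs s') (Set.mem_univ _) h3 h4 h5
      obtain ⟨s'', rfl⟩ := MEU_cs_surj T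
      exact h6 ⟨s'', h7, h8, h9⟩
    · rintro ⟨h1, h2⟩
      refine ⟨h1, fun T' _ h3 h4 h5 => ?_⟩
      obtain ⟨s', rfl⟩ := MEU_cs_surj T'
      by_contra h6
      refine h2 ⟨s', h3, h4, h5, ?_⟩
      rintro ⟨s'', h7, h8, h9⟩
      exact h6 ⟨MEU_cs s'', Set.mem_univ _, h7, h8, h9⟩

end main

theorem p_MEU (hFIN : Stmt_FIN) (hPUM : Stmt_PUM) (hPRJ : Stmt_PRJ) : Stmt_MEU := by
  intro F hF hP E₀ hE k h g φ
  have h1 := MEU_Lw hF hFIN hE hPUM hPRJ hP h g φ k
  have h2 : InY F ((ℕ → ℕ) × C) (fun y => MEU_cs y.2 ⊆ Pu 0 g y.1 ∧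
      Lw (MEU_Phi E₀ h g φ y.1) (Pu 0 g y.1) (Pu 1 g y.1) Set.univ k (MEU_cs y.2)) :=
    MEU_and hF (MEU_pu hF hFIN hPUM g 0 continuous_fst continuous_snd) h1
  have h3 := hPRJ F hF hP _ _ h2 (fun z => z) continuous_id
  convert h3 using 1
  ext w
  simp only [Set.mem_setOf_eq]
  constructor
  · rintro ⟨T, h4, h5⟩
    obtain ⟨s, rfl⟩ := MEU_cs_surj T
    exact ⟨s, h4, h5⟩
  · rintro ⟨s, h4, h5⟩
    exact ⟨MEU_cs s, h4, h5⟩

end Pool.LF
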