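import Pool.Agent.Work.MP_f36782_lf.Interface2

/-! Block MIX of THEOREM LF (helper41). -/

set_option autoImplicit false

open MeasureTheory Pool.Agent.Work.RamseyAD

namespace Pool.LF

theorem MIX_tail {P Q U : Set C} (hP : Tail P) (hQ : Tail Q) (hU : Tail U) :
    Tail (P ∪ (U \ Q)) := by
  intro x y hxy
  simp only [Set.mem_union, Set.mem_diff, hP x y hxy, hQ x y hxy, hU x y hxy]

theorem p_MIX : Stmt_MIX := by
  intro P Q U V h1 h2
  refine ⟨?_, MIX_tail h1.tailP h1.tailQ h2.tailP, MIX_tail h1.tailQ h1.tailP h2.tailQ, ?_, ?_,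
    ?_, ?_⟩
  · rintro x (hx | ⟨hx, hx'⟩) (hy | ⟨hy, hy'⟩)
    · exact h1.disj x hx hy
    · exact hy' hx
    · exact hx' hy
    · exact h2.disj x hx hy
  · rintro x (hx | ⟨hx, -⟩)
    · exact h1.infP x hx
    · exact h2.infP x hx
  · rintro x (hx | ⟨hx, -⟩)
    · exact h1.infQ x hx
    · exact h2.infQ x hx
  · rintro x (hx | ⟨hx, -⟩)
    · obtain ⟨y, hy, hyx⟩ := h1.balP x hx
      exact ⟨y, Or.inl hy, hyx⟩
    · obtain ⟨y, hy, hyx⟩ := h2.balP x hx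
      by_cases hyP : y ∈ P
      · obtain ⟨z, hz, hzy⟩ := h1.balP y hyP
        exact ⟨z, Or.inl hz, fun k hk => hyx k (hzy k hk)⟩
      · exact ⟨y, Or.inr ⟨hy, hyP⟩, hyx⟩
  · rintro x (hx | ⟨hx, -⟩)
    · obtain ⟨y, hy, hyx⟩ := h1.balQ x hx
      exact ⟨y, Or.inl hy, hyx⟩
    · obtain ⟨y, hy, hyx⟩ := h2.balQ x hx
      by_cases hyQ : y ∈ Q
      · obtain ⟨z, hz, hzy⟩ := h1.balQ y hyQ
        exact ⟨z, Or.inl hz, fun k hk => hyx k (hzy k hk)⟩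
      · exact ⟨y, Or.inr ⟨hy, hyQ⟩, hyx⟩

end Pool.LF
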