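import Pool.Agent.Work.MP_f36782_lf.Interface4

set_option autoImplicit false

/-! # Block NET: all runs simultaneously (helper79) -/

open MeasureTheory Pool.Agent.Work.RamseyAD

namespace Pool.LF

/-- A bounded function on a nonempty set has a maximum. -/
theorem NET_max {α : Type} (c : Set α) (hne : c.Nonempty) (f : α → ℕ) (k : ℕ)
    (hk : ∀ s ∈ c, f s ≤ k) : ∃ s ∈ c, ∀ t ∈ c, f t ≤ f s := by
  obtain ⟨s, hs, hmin⟩ := WellFounded.has_min (measure (fun s => k - f s)).wf c hne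
  refine ⟨s, hs, fun t ht => ?_⟩
  have h1 := hmin t ht
  have h2 := hk t ht
  change ¬ (k - f t < k - f s) at h1
  omega

/-- The comparison of two pairs. -/
def NET_R (ρ : Set ℕ → Set ℕ → ℕ) (p q : Set ℕ × Set ℕ) : Prop :=
  p = q ∨ (p.1 ⊆ q.1 ∧ p.2 ⊆ q.2 ∧ ρ p.1 p.2 < ρ q.1 q.2)

theorem NET_trans {ρ : Set ℕ → Set ℕ → ℕ} {p q r : Set ℕ × Set ℕ} (h : NET_R ρ p q)
    (h' : NET_R ρ q r) : NET_R ρ p r := by
  rcases h with rfl | ⟨h1, h2, h3⟩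
  · exact h'
  · rcases h' with rfl | ⟨k1, k2, k3⟩
    · exact Or.inr ⟨h1, h2, h3⟩
    · exact Or.inr ⟨h1.trans k1, h2.trans k2, h3.trans k3⟩

theorem NET_snd {ρ : Set ℕ → Set ℕ → ℕ} {p q : Set ℕ × Set ℕ} (h : NET_R ρ p q) : p.2 ⊆ q.2 := by
  rcases h with rfl | ⟨-, h2, -⟩
  · exact subset_rfl
  · exact h2

/-- The Zorn argument. -/
theorem NET_zorn {K : Type} (J' : K → Set ℕ) (Sy : K → Set ℕ → Set ℕ → Prop)
    (ρ : K → Set ℕ → Set ℕ → ℕ) (k : K → ℕ) (I : (K → Set ℕ) → K → Set ℕ)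
    (hI : ∀ b b' : K → Set ℕ, (∀ κ, b κ ⊆ b' κ) → ∀ κ, I b κ ⊆ I b' κ)
    (hIJ : ∀ b κ, I b κ ⊆ J' κ) (hinit : ∀ κ, ∃ b, Sy κ ∅ b)
    (hstep : ∀ κ a b a', Sy κ a b → a ⊆ a' → a' ⊆ J' κ → ¬ Sy κ a' b →
      ∃ b', b ⊆ b' ∧ Sy κ a' b' ∧ ρ κ a b < ρ κ a' b')
    (hbdd : ∀ κ a b, ρ κ a b ≤ k κ) : ∃ b : K → Set ℕ, ∀ κ, Sy κ (I b κ) (b κ) := by
  classical
  set St : (K → Set ℕ × Set ℕ) → Prop := fun s =>
    ∀ κ, Sy κ (s κ).1 (s κ).2 ∧ (s κ).1 ⊆ I (fun κ => (s κ).2) κ with hSt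
  set r : {s : K → Set ℕ × Set ℕ // St s} → {s : K → Set ℕ × Set ℕ // St s} → Prop :=
    fun s t => ∀ κ, NET_R (ρ κ) (s.1 κ) (t.1 κ) with hr
  obtain ⟨m, hm⟩ := exists_maximal_of_chains_bounded (r := r) (by
    intro c hc
    rcases c.eq_empty_or_nonempty with rfl | hne
    · choose b0 hb0 using hinit
      exact ⟨⟨fun κ => (∅, b0 κ), fun κ => ⟨hb0 κ, Set.empty_subset _⟩⟩, by simp⟩
    · have h1 : ∀ κ, ∃ s ∈ c, ∀ t ∈ c, ρ κ (t.1 κ).1 (t.1 κ).2 ≤ ρ κ (s.1 κ).1 (s.1 κ).2 :=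
        fun κ => NET_max c hne (fun s => ρ κ (s.1 κ).1 (s.1 κ).2) (k κ) fun s _ => hbdd κ _ _
      choose S hSc hSm using h1
      have hub : ∀ t ∈ c, ∀ κ, NET_R (ρ κ) (t.1 κ) ((S κ).1 κ) := by
        intro t ht κ
        by_cases he : t = S κ
        · rw [he]
          exact Or.inl rfl
        · rcases hc ht (hSc κ) he with h2 | h2
          · exact h2 κ
          · rcases h2 κ with h3 | ⟨-, -, h3⟩
            · exact Or.inl h3.symm
            · exact absurd (hSm κ t ht) (not_le.2 h3)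
      refine ⟨⟨fun κ => (S κ).1 κ, fun κ => ⟨((S κ).2 κ).1, ?_⟩⟩, hub⟩
      exact ((S κ).2 κ).2.trans (hI _ _ (fun κ' => NET_snd (hub (S κ) (hSc κ) κ')) κ))
    (fun {a b c} h h' κ => NET_trans (h κ) (h' κ))
  refine ⟨fun κ => (m.1 κ).2, fun κ => ?_⟩
  by_contra hcon
  obtain ⟨b', hb1, hb2, hb3⟩ := hstep κ (m.1 κ).1 (m.1 κ).2 _ (m.2 κ).1 (m.2 κ).2 (hIJ _ κ) hcon
  have hmon : ∀ κ', (m.1 κ').2 ⊆
      (Function.update m.1 κ (I (fun κ => (m.1 κ).2) κ, b') κ').2 := by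
    intro κ'
    by_cases h : κ' = κ
    · subst h
      rw [Function.update_self]
      exact hb1
    · rw [Function.update_of_ne h]
  have hst : St (Function.update m.1 κ (I (fun κ => (m.1 κ).2) κ, b')) := by
    intro κ'
    by_cases h : κ' = κ
    · subst h
      have e := Function.update_self κ' (I (fun κ => (m.1 κ).2) κ', b') m.1
      rw [e]
      exact ⟨hb2, hI _ _ hmon κ'⟩
    · have e := Function.update_of_ne h (I (fun κ => (m.1 κ).2) κ, b') m.1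
      rw [e]
      exact ⟨(m.2 κ').1, (m.2 κ').2.trans (hI _ _ hmon κ')⟩
  have hle : r m ⟨_, hst⟩ := by
    intro κ'
    by_cases h : κ' = κ
    · subst h
      change NET_R (ρ κ') (m.1 κ') (Function.update m.1 κ' (I (fun κ => (m.1 κ).2) κ', b') κ')
      rw [Function.update_self]
      exact Or.inr ⟨(m.2 κ').2, hb1, hb3⟩
    · change NET_R (ρ κ') (m.1 κ') (Function.update m.1 κ (I (fun κ => (m.1 κ).2) κ, b') κ')
      rw [Function.update_of_ne h]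
      exact Or.inl rfl
  have hge := hm _ hle κ
  change NET_R (ρ κ) (Function.update m.1 κ (I (fun κ => (m.1 κ).2) κ, b') κ) (m.1 κ) at hge
  rw [Function.update_self] at hge
  rcases hge with h | ⟨-, -, h⟩
  · rw [← h] at hb3
    exact lt_irrefl _ hb3
  · exact absurd h (not_lt.2 hb3.le)

theorem p_NET : Stmt_NET := by
  intro E₀ hE K x J J' Z Ψ hZ hJJ hJ hJ' hd hn hS
  have hS' : ∀ κ, ∃ (Sy : Set ℕ → Set ℕ → Prop) (ρ : Set ℕ → Set ℕ → ℕ) (k : ℕ),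
      Sys (J κ) (J' κ) (fun s => Ψ κ (clo (fun i j => E₀ (x κ i) (x κ j)) s)) Sy ρ k := hS
  choose Sy ρ k hSys using hS'
  set Tr : (K → Set ℕ) → Set C := fun b => {y | y ∈ Z ∨ ∃ κ, ∃ j ∈ b κ, E₀ y (x κ j)} with hTr
  have mTr : ∀ b y, y ∈ Tr b ↔ y ∈ Z ∨ ∃ κ, ∃ j ∈ b κ, E₀ y (x κ j) := fun b y => Iff.rfl
  obtain ⟨b, hb⟩ := NET_zorn J' Sy ρ k (fun b κ => {j | j ∈ J' κ ∧ x κ j ∈ Tr b}) (by
    intro b b' h κ j hj
    refine ⟨hj.1, ?_⟩
    rcases hj.2 with h1 | ⟨κ', j', h1, h2⟩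
    · exact Or.inl h1
    · exact Or.inr ⟨κ', j', h κ' h1, h2⟩) (fun b κ j hj => hj.1) (fun κ => (hSys κ).init)
    (fun κ => (hSys κ).step) (fun κ => (hSys κ).bdd)
  have hinv : ∀ y y', E₀ y y' → y ∈ Tr b → y' ∈ Tr b := by
    intro y y' h hy
    rcases hy with h1 | ⟨κ, j, h1, h2⟩
    · exact Or.inl (hZ y y' h h1)
    · exact Or.inr ⟨κ, j, h1, hE.trans (hE.symm h) h2⟩
  refine ⟨Tr b, ?_, hinv, ?_⟩
  · intro y hy
    rw [mTr]
    constructor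
    · rintro (h1 | ⟨κ, j, h1, h2⟩)
      · exact h1
      · exact absurd h2 (hy κ j ((hSys κ).sub _ _ (hb κ) h1))
    · exact Or.inl
  · intro κ
    have h := (hSys κ).win _ _ (hb κ) (fun j hj => hj.1)
    have e : {j | x κ j ∈ Tr b} = clo (fun i j => E₀ (x κ i) (x κ j))
        ({j | j ∈ J' κ ∧ x κ j ∈ Tr b} ∪ b κ) := by
      ext j
      constructor
      · intro hj
        by_cases h1 : j ∈ J' κ
        · exact ⟨j, Or.inl ⟨h1, hj⟩, hE.refl _⟩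
        · by_cases h2 : j ∈ J κ
          · rcases hj with h3 | ⟨κ', j', h3, h4⟩
            · exact absurd h3 (hd κ j h2).2
            · have h5 : κ = κ' := hJJ κ κ' j j' h2 ((hSys κ').sub _ _ (hb κ') h3) h4
              subst h5
              exact ⟨j', Or.inr h3, hE.symm h4⟩
          · obtain ⟨h3, h4⟩ := hn κ j h2 h1
            rcases hj with h5 | ⟨κ', j', h5, h6⟩
            · exact absurd h5 h3
            · exact absurd h6 (h4 κ' j' ((hSys κ').sub _ _ (hb κ') h5))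
      · rintro ⟨i, hi | hi, he⟩
        · exact hinv _ _ he hi.2
        · exact hinv _ _ he (Or.inr ⟨κ, i, hi, hE.refl _⟩)
    rw [e]
    exact h

end Pool.LF
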