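import Pool.Agent.Work.MP_f36782_lf.Interface

set_option autoImplicit false

/-! Block ONE of THEOREM LF (helper86). -/

open MeasureTheory Pool.Agent.Work.RamseyAD

namespace Pool.LF

theorem ONE_aeq (x : C) : AEq x x := ⟨0, fun _ _ => rfl⟩

theorem ONE_cons0 (s : List ℕ → ℕ) (z : ℕ → ℕ) (h : ∀ n, z (2 * n) = s (hist z (2 * n))) :
    Cons 0 s z := by
  intro i hi
  obtain ⟨n, rfl⟩ : ∃ n, i = 2 * n := ⟨i / 2, by omega⟩
  exact h n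

theorem ONE_cons1 (s : List ℕ → ℕ) (z : ℕ → ℕ) (h : ∀ n, z (2 * n + 1) = s (hist z (2 * n + 1))) :
    Cons 1 s z := by
  intro i hi
  obtain ⟨n, rfl⟩ : ∃ n, i = 2 * n + 1 := ⟨i / 2, by omega⟩
  exact h n

theorem p_ONE (hSIM : Stmt_SIM) (hOWN : Stmt_OWN) (hRNC : Stmt_RNC) (hWLF : Stmt_WLF)
    (hFSG : Stmt_FSG) : Stmt_ONE := by
  intro f hf A₀
  obtain ⟨F, hFc, hFe⟩ := hFSG f hf
  have hdet := hWLF F hFc
  rw [← hFe] at hdet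
  rcases hdet with ⟨σ, hσ⟩ | ⟨τ, hτ⟩
  · obtain ⟨s, Φ, -, hs, hfin⟩ := hSIM 0 σ (by norm_num)
    have hit : ∀ z, Cons 0 s z → Inf (f z) → Hit (f z) (own 0 (Φ z)) := by
      intro z hz hi
      obtain ⟨h1, h2, h3⟩ := hs z hz
      have h4 := hσ (Φ z) fun n => h1 (2 * n) (by omega)
      rw [Set.mem_setOf_eq, h2] at h4
      exact hOWN (Φ z) (f z) h3 hi h4
    refine ⟨A₀ ∪ {x | ∃ z, Cons 0 s z ∧ x = f z}, Or.inl ⟨s, fun z hz => ?_⟩, ?_⟩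
    · exact Or.inr ⟨z, ONE_cons0 s z hz, rfl⟩
    · intro X hX
      obtain ⟨Y, hY, hYX, hN⟩ := hRNC {z | Cons 0 s z} (fun z => own 0 (Φ z)) f
        (fun z hz z' hz' hne => hfin z z' hz hz' hne) X hX
      refine ⟨Y, hY, hYX, fun x hx hxY => ⟨?_, fun h => Or.inl h⟩⟩
      rintro (h | ⟨z, hz, rfl⟩)
      · exact h
      · exact absurd ⟨z, hz, ONE_aeq _, hit z hz hx⟩ (hN _ hx hxY)
  · obtain ⟨s, Φ, -, hs, hfin⟩ := hSIM 1 τ (by norm_num)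
    have hit : ∀ z, Cons 1 s z → Hit (f z) (own 1 (Φ z)) := by
      intro z hz
      obtain ⟨h1, h2, h3⟩ := hs z hz
      have h4 := hτ (Φ z) fun n => h1 (2 * n + 1) (by omega)
      rw [Set.mem_setOf_eq, h2, not_not] at h4
      exact h4
    refine ⟨A₀ \ {x | ∃ z, Cons 1 s z ∧ x = f z}, Or.inr ⟨s, fun z hz => ?_⟩, ?_⟩
    · exact fun h => h.2 ⟨z, ONE_cons1 s z hz, rfl⟩
    · intro X hX
      obtain ⟨Y, hY, hYX, hN⟩ := hRNC {z | Cons 1 s z} (fun z => own 1 (Φ z)) f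
        (fun z hz z' hz' hne => hfin z z' hz hz' hne) X hX
      refine ⟨Y, hY, hYX, fun x hx hxY => ⟨fun h => h.1, fun h => ⟨h, ?_⟩⟩⟩
      rintro ⟨z, hz, rfl⟩
      exact hN _ hx hxY ⟨z, hz, ONE_aeq _, hit z hz⟩

end Pool.LF
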