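import Pool.Agent.Work.MP_f36782_lf.Interface

set_option autoImplicit false

open MeasureTheory Pool.Agent.Work.RamseyAD

namespace Pool.LF

theorem OPN_take (z : ℕ → ℕ) {k i : ℕ} (h : k ≤ i) : (hist z i).take k = hist z k := by
  unfold hist
  rw [← List.map_take, List.take_range, Nat.min_eq_left h]

theorem OPN_len (q : List ℕ) (a : ℕ) : (q ++ [a]).length = q.length + 1 := by simp

theorem OPN_rch_one (U : Set (List ℕ)) (q : List ℕ) (a : ℕ) (hq : q.length % 2 = 1)
    (h : Rch U (q ++ [a])) : Rch U q := by
  classical
  obtain ⟨S', hS'⟩ := h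
  refine ⟨fun w => if w = q then a else S' w, fun z hz hS => ?_⟩
  have h1 : z q.length = a := by
    have h2 := hS q.length le_rfl hq
    rw [hz] at h2
    simpa using h2
  have h2 : hist z (q ++ [a]).length = q ++ [a] := by
    rw [OPN_len, hist_succ, hz, h1]
  obtain ⟨m, hm, hmU⟩ := hS' z h2 (fun i hi hi2 => by
    rw [OPN_len] at hi
    have h3 := hS i (by omega) hi2
    simp only at h3
    rw [if_neg (by
      intro h4
      have h5 := congrArg List.length h4
      rw [hist_length] at h5
      omega)] at h3
    exact h3)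
  rw [OPN_len] at hm
  exact ⟨m, by omega, hmU⟩

theorem OPN_rch_all (U : Set (List ℕ)) (q : List ℕ) (h : ∀ a, Rch U (q ++ [a])) : Rch U q := by
  choose S hS using h
  refine ⟨fun w => S (w.getD q.length 0) w, fun z hz hz2 => ?_⟩
  have h2 : hist z (q ++ [z q.length]).length = q ++ [z q.length] := by
    rw [OPN_len, hist_succ, hz]
  obtain ⟨m, hm, hmU⟩ := hS (z q.length) z h2 (fun i hi hi2 => by
    rw [OPN_len] at hi
    have h3 := hz2 i (by omega) hi2
    simp only at h3
    rw [hist_getD z (by omega)] at h3
    exact h3)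
  rw [OPN_len] at hm
  exact ⟨m, by omega, hmU⟩

theorem OPN_closed (F₀ : Set (ℕ → ℕ)) (hF : IsClosed F₀) (z : ℕ → ℕ) (N : ℕ)
    (h : ∀ k, N ≤ k → ∃ y ∈ F₀, hist y k = hist z k) : z ∈ F₀ := by
  have h' : ∀ k, ∃ y ∈ F₀, hist y (N + k) = hist z (N + k) := fun k => h _ (Nat.le_add_right _ _)
  choose y hy hyz using h'
  refine hF.mem_of_tendsto (f := y) (b := Filter.atTop) ?_ (Filter.Eventually.of_forall hy)
  rw [tendsto_pi_nhds]
  intro i
  refine tendsto_const_nhds.congr' ?_
  filter_upwards [Filter.eventually_gt_atTop i] with k hk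
  rw [← hist_getD z (show i < N + k by omega), ← hyz k, hist_getD (y k) (by omega)]

theorem p_OPN : Stmt_OPN := by
  classical
  intro A F₀ hF hFA l hl
  by_contra hR
  apply hl
  set U : Set (List ℕ) := {q | ¬ WinI A q ∧ ∀ z ∈ F₀, hist z q.length ≠ q} with hU
  let σ : List ℕ → List ℕ → ℕ := fun q => if h : WinI A q then h.choose else fun _ => 0
  let P : List ℕ → ℕ → Prop := fun w k => l.length ≤ k ∧ k ≤ w.length ∧ WinI A (w.take k)
  let St : List ℕ → ℕ := fun w => if h : ∃ k, P w k then σ (w.take (Nat.find h)) w else
    if h' : ∃ a, ¬ Rch U (w ++ [a]) then h'.choose else 0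
  refine ⟨St, fun z hz hzS => ?_⟩
  by_cases hw : ∃ k, l.length ≤ k ∧ WinI A (hist z k)
  · have hk := Nat.find_spec hw
    have hmin : ∀ n < Nat.find hw, ¬ (l.length ≤ n ∧ WinI A (hist z n)) := fun n hn =>
      Nat.find_min hw hn
    set k := Nat.find hw with hkdef
    refine hk.2.choose_spec z (by rw [hist_length]) (fun i hi hi2 => ?_)
    rw [hist_length] at hi
    have h1 := hzS i (le_trans hk.1 hi) hi2
    have hex : ∃ n, P (hist z i) n := ⟨k, hk.1, by rw [hist_length]; exact hi, by
      rw [OPN_take z hi]; exact hk.2⟩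
    have hfind : Nat.find hex = k := by
      rw [Nat.find_eq_iff]
      refine ⟨⟨hk.1, by rw [hist_length]; exact hi, by rw [OPN_take z hi]; exact hk.2⟩, ?_⟩
      rintro n hn ⟨p1, p2, p3⟩
      rw [OPN_take z (by omega)] at p3
      exact hmin n hn ⟨p1, p3⟩
    have h2 : St (hist z i) = σ ((hist z i).take (Nat.find hex)) (hist z i) := dif_pos hex
    rw [h1, h2, hfind, OPN_take z hi]
    have h3 : σ (hist z k) = hk.2.choose := dif_pos hk.2
    rw [h3]
  · apply hFA
    push Not at hw
    have hN : ∀ j, ¬ Rch U (hist z (l.length + j)) := by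
      intro j
      induction j with
      | zero =>
        rw [Nat.add_zero, hz]
        exact hR
      | succ j ih =>
        have e : l.length + (j + 1) = (l.length + j) + 1 := by ring
        rw [e, hist_succ]
        set i := l.length + j with hi
        rcases Nat.mod_two_eq_zero_or_one i with h2 | h2
        · have hex : ∃ a, ¬ Rch U (hist z i ++ [a]) := by
            by_contra hcon
            push Not at hcon
            exact ih (OPN_rch_all U _ hcon)
          have h1 := hzS i (by omega) h2
          have hno : ¬ ∃ n, P (hist z i) n := by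
            rintro ⟨n, p1, p2, p3⟩
            rw [hist_length] at p2
            rw [OPN_take z p2] at p3
            exact hw n p1 p3
          have h3 : St (hist z i) = hex.choose := by
            show (if h : ∃ k, P (hist z i) k then σ ((hist z i).take (Nat.find h)) (hist z i) else
              if h' : ∃ a, ¬ Rch U (hist z i ++ [a]) then h'.choose else 0) = hex.choose
            rw [dif_neg hno, dif_pos hex]
          rw [h1, h3]
          exact hex.choose_spec
        · intro hcon
          exact ih (OPN_rch_one U _ _ (by rw [hist_length]; exact h2) hcon)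
    refine OPN_closed F₀ hF z l.length (fun k hk => ?_)
    by_contra hcon
    push Not at hcon
    have hkj : k = l.length + (k - l.length) := by omega
    apply hN (k - l.length)
    rw [← hkj]
    refine ⟨fun _ => 0, fun y hy _ => ⟨k, by rw [hist_length], ?_⟩⟩
    rw [hist_length] at hy
    rw [hy]
    refine ⟨hw k hk, fun x hx => ?_⟩
    rw [hist_length]
    exact hcon x hx

end Pool.LF
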