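import Pool.Agent.Work.MP_f36782_lf.Interface6
import Pool.Agent.Work.MP_f36782_lf.B_PAW

set_option autoImplicit false

/-! Block PAX: the auxiliary games with an arbitrary attacker are in the class. -/

open MeasureTheory Pool.Agent.Work.RamseyAD

namespace Pool.LF

theorem p_PAX (h1 : Stmt_INB) (h2 : Stmt_LVM) (h3 : Stmt_CLM) : Stmt_PAX := by
  intro F hB c o G hc a b
  have hF : DetAlgebra F := hB.alg
  have hbor : ∀ S, MeasurableSet S → S ∈ F := (h1 F hB).1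
  have hm : ∀ j, Measurable (fun w : ℕ → ℕ => pt (G.γ j) (mv w)) := fun j =>
    (h2.2 (G.γ j)).comp PUM_mv
  have hPu : ∀ p j, {w | j ∈ PuE c G.γ p w} ∈ F := by
    intro p j
    refine PAF_and hF (hbor _ (PUM_inf ⟨pt (G.γ j), h2.2 (G.γ j)⟩)) (PAF_and hF
      (PAF_not hF (hbor _ (PUM_hit ⟨pt (G.γ j), h2.2 (G.γ j)⟩ (1 - p)))) ?_)
    exact PAF_and hF (PAF_not hF (hc.fP _ (hm j)))
      (PAF_and hF (PAF_not hF (hc.fQ _ (hm j))) (PAF_not hF (hc.fY _ (hm j))))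
  have hA : ∀ i j, {w | AEq (pt (G.γ i) (mv w)) (pt (G.γ j) (mv w))} ∈ F := by
    intro i j
    refine PAW_aeq hF _ _ fun k => hbor _ ?_
    exact measurableSet_eq_fun ((measurable_pi_apply k).comp (hm i))
      ((measurable_pi_apply k).comp (hm j))
  have hT1 : ∀ j, {w | pt (G.γ j) (mv w) ∈ c.P ∪ SbE G.γ (mv w) ↑b} ∈ F := fun j =>
    PAF_or hF (hc.fP _ (hm j)) (PAW_sb hF G.γ (fun _ => ↑b) (fun i => PAW_const hF _) hA j)
  have hT2 : ∀ j, {w | pt (G.γ j) (mv w) ∈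
      c.P ∪ SbE G.γ (mv w) ↑b ∪ SbE G.γ (mv w) (PuE c G.γ (1 - a) w)} ∈ F := fun j =>
    PAF_or hF (hT1 j) (PAW_sb hF G.γ (fun w => PuE c G.γ (1 - a) w) (fun i => hPu (1 - a) i) hA j)
  have hC1 := h3 F hB c o G hc (fun w => c.P ∪ SbE G.γ (mv w) ↑b) hT1
  have hC2 := h3 F hB c o G hc
    (fun w => c.P ∪ SbE G.γ (mv w) ↑b ∪ SbE G.γ (mv w) (PuE c G.γ (1 - a) w)) hT2
  have hP1 : ∀ i, {w | pt (o.α i) (mv w) ∈
      {x | Cl c.R (c.P ∪ SbE G.γ (mv w) ↑b) x}} ∈ F := by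
    intro i
    rw [← G.base i]
    exact hC1 (G.ι i)
  have hP2 : ∀ i, {w | pt (o.α i) (mv w) ∈
      {x | Cl c.R (c.P ∪ SbE G.γ (mv w) ↑b ∪ SbE G.γ (mv w) (PuE c G.γ (1 - a) w)) x}} ∈ F := by
    intro i
    rw [← G.base i]
    exact hC2 (G.ι i)
  refine PAF_and hF ?_ (PAF_and hF ?_ (PAF_not hF ?_))
  · exact PAF_all hF fun j => PAW_imp hF (j ∈ (↑b : Set ℕ)) (hPu a j)
  · refine PAF_ex hF fun n => PAF_and hF (hF.preimage _ (o.hD n) mv PAF_mv) ?_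
    exact PAF_all hF fun i => PAW_imp hF (i ∈ o.N n) (hP1 i)
  · exact PAW_tr hF o.φ _ hP2

end Pool.LF
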