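import Pool.Agent.Work.MP_f36782_lf.Interface

/-! # Block PAY: the auxiliary games are in the class (helper38) -/

open MeasureTheory Pool.Agent.Work.RamseyAD

namespace Pool.LF

theorem PAY_not {F : Set (Set (ℕ → ℕ))} (hF : DetAlg F) {p : (ℕ → ℕ) → Prop}
    (h : {z | p z} ∈ F) : {z | ¬ p z} ∈ F := hF.compl _ h

theorem PAY_ex {F : Set (Set (ℕ → ℕ))} (hF : DetAlg F) {p : ℕ → (ℕ → ℕ) → Prop}
    (h : ∀ n, {z | p n z} ∈ F) : {z | ∃ n, p n z} ∈ F := by
  have h1 := hF.union (fun n => {z | p n z}) h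
  have h2 : {z | ∃ n, p n z} = ⋃ n, {z | p n z} := by
    ext z
    rw [Set.mem_iUnion]
    rfl
  rw [h2]
  exact h1

theorem PAY_all {F : Set (Set (ℕ → ℕ))} (hF : DetAlg F) {p : ℕ → (ℕ → ℕ) → Prop}
    (h : ∀ n, {z | p n z} ∈ F) : {z | ∀ n, p n z} ∈ F := by
  have h1 := PAY_not hF (PAY_ex hF (fun n => PAY_not hF (h n)))
  have h2 : {z | ∀ n, p n z} = {z | ¬ ∃ n, ¬ p n z} := by
    ext z
    exact (not_exists_not).symm
  rw [h2]
  exact h1

theorem PAY_or {F : Set (Set (ℕ → ℕ))} (hF : DetAlg F) {p q : (ℕ → ℕ) → Prop}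
    (hp : {z | p z} ∈ F) (hq : {z | q z} ∈ F) : {z | p z ∨ q z} ∈ F := by
  have h1 := PAY_ex hF (p := fun n z => if n = 0 then p z else q z) (by
    intro n
    by_cases hn : n = 0
    · simp only [if_pos hn]
      exact hp
    · simp only [if_neg hn]
      exact hq)
  have h2 : {z | p z ∨ q z} = {z | ∃ n : ℕ, if n = 0 then p z else q z} := by
    ext z
    constructor
    · rintro (h | h)
      · exact ⟨0, by rw [if_pos rfl]; exact h⟩
      · exact ⟨1, by rw [if_neg one_ne_zero]; exact h⟩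
    · rintro ⟨n, h⟩
      by_cases hn : n = 0
      · rw [if_pos hn] at h
        exact Or.inl h
      · rw [if_neg hn] at h
        exact Or.inr h
  rw [h2]
  exact h1

theorem PAY_and {F : Set (Set (ℕ → ℕ))} (hF : DetAlg F) {p q : (ℕ → ℕ) → Prop}
    (hp : {z | p z} ∈ F) (hq : {z | q z} ∈ F) : {z | p z ∧ q z} ∈ F := by
  have h1 := PAY_not hF (PAY_or hF (PAY_not hF hp) (PAY_not hF hq))
  have h2 : {z | p z ∧ q z} = {z | ¬ (¬ p z ∨ ¬ q z)} := by
    ext z
    change (p z ∧ q z) ↔ ¬ (¬ p z ∨ ¬ q z)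
    tauto
  rw [h2]
  exact h1

theorem PAY_disc {F : Set (Set (ℕ → ℕ))} (hF : DetAlg F) {β : Type} [TopologicalSpace β]
    [DiscreteTopology β] (g : (ℕ → ℕ) → β) (hg : Continuous g) (s : β → Prop) :
    {z | s (g z)} ∈ F :=
  hF.analytic _ (((isClosed_discrete {b | s b}).preimage hg).analyticSet)

theorem PAY_mv : Continuous mv :=
  continuous_pi (fun i =>
    (continuous_of_discreteTopology (f := fun a : ℕ => (Nat.unpair a).1)).comp (continuous_apply i))

theorem PAY_len (i : ℕ) : Continuous (fun z => len z i) := by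
  unfold len
  exact continuous_finset_sum _ (fun j _ =>
    (continuous_of_discreteTopology (f := fun a : ℕ => (Nat.unpair a).2)).comp (continuous_apply j))

theorem p_PAY (_hINF : Stmt_INF) : Stmt_PAY := by
  intro F hF P Q hP hQ φ
  induction φ with
  | base k => exact hF.preimage k.1 k.2 mv PAY_mv
  | pre f =>
    have hc : Continuous (fun z => f.1 (mv z)) := f.2.comp PAY_mv
    have h1 : {z | f.1 (mv z) ∈ P} ∈ F := hP _ hc
    have h2 : {z | f.1 (mv z) ∈ Q} ∈ F := hQ _ hc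
    have hk : ∀ k : ℕ, {z | f.1 (mv z) k = true} ∈ F := fun k =>
      PAY_disc hF (fun z => f.1 (mv z) k) ((continuous_apply k).comp hc) (fun b => b = true)
    have hcst : ∀ c : Prop, {_z : ℕ → ℕ | c} ∈ F := fun c =>
      PAY_disc hF (fun _ => ()) continuous_const (fun _ => c)
    have h3 : {z | Inf (f.1 (mv z))} ∈ F :=
      PAY_all hF (fun n => PAY_ex hF (fun k => PAY_and hF (hcst (n ≤ k)) (hk k)))
    have hown : ∀ k : ℕ, {z | k ∈ own 1 z} ∈ F := fun k =>
      PAY_ex hF (fun i => PAY_and hF (hcst (i % 2 = 1)) (PAY_and hF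
        (PAY_disc hF (fun z => len z i) (PAY_len i) (fun b => b ≤ k))
        (PAY_disc hF (fun z => len z (i + 1)) (PAY_len (i + 1)) (fun b => k < b))))
    have h4 : {z | Hit (f.1 (mv z)) (own 1 z)} ∈ F :=
      PAY_all hF (fun n => PAY_ex hF (fun k => PAY_and hF (hcst (n ≤ k))
        (PAY_and hF (hk k) (hown k))))
    exact PAY_or hF h1 (PAY_and hF (PAY_not hF h2) (PAY_and hF h3 (PAY_not hF h4)))
  | uni φ ih => exact PAY_ex hF ih
  | int φ ih => exact PAY_all hF ih

end Pool.LF
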