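import Pool.Agent.Work.MP_f36782_lf.Interface2

/-! MP_f36782_lc, THEOREM LF, final version: block POF. -/

set_option autoImplicit false

open MeasureTheory Pool.Agent.Work.RamseyAD

namespace Pool.LF

theorem POF_form (F : Set (Set (ℕ → ℕ))) (S : Set C → Set (ℕ → ℕ)) (hS : Positive F S) :
    ∃ φ : Fm F CM, ∀ A, S A = {z | φ.tr (fun k => z ∈ k.1) (fun f => f.1 z ∈ A)} := by
  induction hS with
  | const S h => exact ⟨Fm.base ⟨S, h⟩, fun A => rfl⟩
  | pre f h => exact ⟨Fm.pre ⟨f, h⟩, fun A => rfl⟩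
  | union S h ih =>
    choose φ hφ using ih
    refine ⟨Fm.uni φ, fun A => ?_⟩
    ext z
    simp only [Set.mem_iUnion, Set.mem_setOf_eq, Fm.tr]
    refine exists_congr fun n => ?_
    rw [hφ n A]
    rfl
  | inter S h ih =>
    choose φ hφ using ih
    refine ⟨Fm.int φ, fun A => ?_⟩
    ext z
    simp only [Set.mem_iInter, Set.mem_setOf_eq, Fm.tr]
    refine forall_congr' fun n => ?_
    rw [hφ n A]
    rfl

theorem POF_pre (F : Set (Set (ℕ → ℕ))) (hF : DetAlgebra F) (S : Set C → Set (ℕ → ℕ))
    (hS : Positive F S) (g : (ℕ → ℕ) → (ℕ → ℕ)) (hg : Continuous g) :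
    Positive F (fun A => g ⁻¹' (S A)) := by
  induction hS with
  | const S h => exact Positive.const (g ⁻¹' S) (hF.preimage S h g hg)
  | pre f h => exact Positive.pre (fun z => f (g z)) (h.comp hg)
  | union S h ih =>
    have h1 := Positive.union (F := F) (fun n A => g ⁻¹' (S n A)) ih
    simpa only [Set.preimage_iUnion] using h1
  | inter S h ih =>
    have h1 := Positive.inter (F := F) (fun n A => g ⁻¹' (S n A)) ih
    simpa only [Set.preimage_iInter] using h1

theorem p_POF : Stmt_POF := by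
  intro F hF S hS
  exact ⟨POF_form F S hS, fun g hg => POF_pre F hF S hS g hg⟩

end Pool.LF
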