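import Pool.Agent.Work.MP_f36782_lf.Interface4

set_option autoImplicit false

open MeasureTheory Pool.Agent.Work.RamseyAD

namespace Pool.LF

/-- Continuity of a map into a product of discrete spaces which acts coordinatewise. -/
theorem PRJ_cont {β : Type} [TopologicalSpace β] (f : ℕ → β) :
    Continuous (fun (v : ℕ → ℕ) (n : ℕ) => f (v n)) := by
  refine continuous_pi fun n => ?_
  exact (continuous_of_discreteTopology (f := f)).comp (continuous_apply n)

theorem p_PRJ (_hFIN : Stmt_FIN) : Stmt_PRJ := by
  intro F hF hproj Y _ P hP c hc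
  let L : (ℕ → ℕ) → (ℕ → ℕ) := fun v n => (Nat.unpair (v n)).1
  let R : (ℕ → ℕ) → C := fun v n => decide ((Nat.unpair (v n)).2 % 2 = 1)
  have hL : Continuous L := PRJ_cont (fun m => (Nat.unpair m).1)
  have hR : Continuous R := PRJ_cont (fun m => decide ((Nat.unpair m).2 % 2 = 1))
  have h1 : {v : ℕ → ℕ | P (c (L v), R v)} ∈ F :=
    hP (fun v => (c (L v), R v)) ((hc.comp hL).prodMk hR)
  have h2 := hproj _ h1
  have h3 : {z : ℕ → ℕ | ∃ u : ℕ → ℕ, (fun n => Nat.pair (z n) (u n)) ∈
      {v : ℕ → ℕ | P (c (L v), R v)}} = {z | ∃ s, P (c z, s)} := by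
    ext z
    simp only [Set.mem_ofPred_eq]
    constructor
    · rintro ⟨u, hu⟩
      have e1 : L (fun n => Nat.pair (z n) (u n)) = z := by
        funext n; simp [L]
      rw [e1] at hu
      exact ⟨_, hu⟩
    · rintro ⟨s, hs⟩
      refine ⟨fun n => if s n = true then 1 else 0, ?_⟩
      have e1 : L (fun n => Nat.pair (z n) (if s n = true then 1 else 0)) = z := by
        funext n; simp [L]
      have e2 : R (fun n => Nat.pair (z n) (if s n = true then 1 else 0)) = s := by
        funext n
        cases h : s n <;> simp [R, h]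
      rw [e1, e2]
      exact hs
  rw [h3] at h2
  exact h2

end Pool.LF
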