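import Pool.Agent.Work.MP_f36782_lf.Interface4

/-! Block RFU: Boolean combinations of positive operations can be decided. -/

set_option autoImplicit false

open MeasureTheory Pool.Agent.Work.RamseyAD

namespace Pool.LF

theorem RFU_mono (hFMA : Stmt_FMA) {F : Set (Set (ℕ → ℕ))} (E₀ : C → C → Prop) (k : ℕ)
    (g : ℕ → MM) (φ : Fin k → Fm F MM) (z : ℕ → ℕ) :
    Monotone (fun s : Set ℕ => {l : Fin k | trP g (φ l) z (clo (ER E₀ g z) s)}) := by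
  intro s t hst l hl
  refine (hFMA _ _ (φ l)).2 _ _ _ ?_ hl
  rintro f - ⟨j, ⟨i, hi, hij⟩, hj⟩
  exact ⟨j, ⟨i, hst hi, hij⟩, hj⟩

theorem p_RFU (hZER : Stmt_ZER) (hGSY : Stmt_GSY) (hMEU : Stmt_MEU) (hFMA : Stmt_FMA) :
    Stmt_RFU := by
  intro F hF hP E₀ hE k h g φ
  refine ⟨_, hMEU F hF hP E₀ hE k h g φ, ?_⟩
  intro w
  have hv := RFU_mono hFMA E₀ k g φ (mv w)
  have hQ : ∀ s ∈ (Set.univ : Set (Set ℕ)), ∀ t, s ⊆ t → ∃ s' ∈ (Set.univ : Set (Set ℕ)),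
      s ⊆ s' ∧ s' ⊆ t ∧ {l : Fin k | trP g (φ l) (mv w) (clo (ER E₀ g (mv w)) s')} =
        {l : Fin k | trP g (φ l) (mv w) (clo (ER E₀ g (mv w)) t)} :=
    fun s _ t hst => ⟨t, Set.mem_univ _, hst, subset_rfl, rfl⟩
  constructor
  · rintro ⟨s, hs, hL⟩
    exact hGSY k _ h (Pu 0 g w) (Pu 1 g w) Set.univ hv (Set.mem_univ _) hQ
      ⟨s, Set.mem_univ _, hs, hL⟩
  · intro hw
    rcases (hZER k _ h (Pu 0 g w) (Pu 1 g w) Set.univ hv (Set.mem_univ _)).2 with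
      ⟨s, -, hs, hL⟩ | h2
    · exact absurd ⟨s, hs, hL⟩ hw
    · exact hGSY k _ (fun B => ¬ h B) (Pu 1 g w) (Pu 0 g w) Set.univ hv (Set.mem_univ _) hQ h2

end Pool.LF
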