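import Pool.Agent.Work.MP_f36782_lf.Interface2

set_option autoImplicit false

/-!
# MP_f36782_lc, THEOREM LF, block RMM: the promised sets are not in `MA`, `MB`
-/

open MeasureTheory Pool.Agent.Work.RamseyAD

namespace Pool.LF

theorem RMM_pre (u : ℕ → ℕ) {a b : ℕ} (h : a ≤ b) : hist u a <+: hist u b := by
  obtain ⟨c, rfl⟩ := Nat.exists_eq_add_of_le h
  unfold hist
  rw [List.range_add, List.map_append]
  exact List.prefix_append _ _

theorem RMM_len (u : ℕ → ℕ) (a : ℕ) : (hist u a).length = a := by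
  unfold hist
  rw [List.length_map, List.length_range]

theorem RMM_mono {n : ℕ → ℕ} {k : ℕ} (h : ∀ i, i < k → n i < n (i + 1)) (i d : ℕ)
    (hd : i + d + 1 ≤ k) : n i < n (i + d + 1) := by
  induction d with
  | zero => exact h i (by omega)
  | succ d ih =>
    have h1 := ih (by omega)
    have h2 := h (i + d + 1) (by omega)
    have h3 : i + (d + 1) + 1 = i + d + 1 + 1 := by ring
    rw [h3]
    exact h1.trans h2

/-- A promised set has three pairwise adjacent elements beyond every `N`. -/
theorem RMM_uq {B : List ℕ → Set ℕ} (hB : Blk B) {f : (ℕ → ℕ) → C} {x : C} (hx : x ∈ Rst B f)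
    (N : ℕ) : ¬ Uq B x N := by
  intro hU
  obtain ⟨-, N₀, h⟩ := hx
  obtain ⟨u, n, h1, h2, -⟩ := h (N + 2)
  choose! m hm1 hm2 using h2
  have hlt : ∀ i j, i < j → j ≤ N + 2 → n i < n j := by
    intro i j hij hj
    obtain ⟨d, rfl⟩ := Nat.exists_eq_add_of_lt hij
    exact RMM_mono h1 i d hj
  have hne : ∀ i j, i ≤ N + 2 → j ≤ N + 2 → i ≠ j → m i ≠ m j := by
    intro i j hi hj hij hm
    have h3 : hist u (n i) = hist u (n j) := by
      refine hB.inj _ _ (m i) (hm1 i hi) ?_
      rw [hm]
      exact hm1 j hj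
    have h4 := congrArg List.length h3
    rw [RMM_len, RMM_len] at h4
    rcases lt_or_gt_of_ne hij with h5 | h5
    · have := hlt i j h5 hj
      omega
    · have := hlt j i h5 hi
      omega
  have hadj : ∀ i j, i ≤ N + 2 → j ≤ N + 2 → Adj B (m i) (m j) := by
    intro i j hi hj
    refine ⟨hist u (n i), hist u (n j), hm1 i hi, hm1 j hj, ?_⟩
    rcases le_total (n i) (n j) with h5 | h5
    · left
      exact RMM_pre u h5
    · right
      exact RMM_pre u h5
  have hcard1 : ((Finset.range (N + 3)).filter (fun i => ¬ N ≤ m i)).card ≤ N := by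
    have h3 : (((Finset.range (N + 3)).filter (fun i => ¬ N ≤ m i)).image m) ⊆
        Finset.range N := by
      intro t ht
      obtain ⟨i, hi, rfl⟩ := Finset.mem_image.1 ht
      exact Finset.mem_range.2 (not_le.1 (Finset.mem_filter.1 hi).2)
    have h4 := Finset.card_le_card h3
    rw [Finset.card_range, Finset.card_image_of_injOn] at h4
    · exact h4
    · intro i hi j hj hij
      have hi' := Finset.mem_range.1 (Finset.mem_filter.1 (Finset.mem_coe.1 hi)).1
      have hj' := Finset.mem_range.1 (Finset.mem_filter.1 (Finset.mem_coe.1 hj)).1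
      by_contra hne'
      exact hne i j (by omega) (by omega) hne' hij
  have hcard2 := Finset.card_filter_add_card_filter_not (s := Finset.range (N + 3))
    (fun i => N ≤ m i)
  rw [Finset.card_range] at hcard2
  have hcard3 : 2 < ((Finset.range (N + 3)).filter (fun i => N ≤ m i)).card := by omega
  obtain ⟨a, ha, b, hb, c, hc, hab, hac, hbc⟩ := Finset.two_lt_card.1 hcard3
  rw [Finset.mem_filter, Finset.mem_range] at ha hb hc
  have ha' : a ≤ N + 2 := by omega
  have hb' : b ≤ N + 2 := by omega
  have hc' : c ≤ N + 2 := by omega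
  exact hne b c hb' hc' hbc (hU (m a) (m b) (m c) ha.2 hb.2 hc.2 (hm2 a ha') (hm2 b hb')
    (hm2 c hc') (hne b a hb' ha' hab.symm) (hne c a hc' ha' hac.symm) (hadj a b ha' hb')
    (hadj a c ha' hc'))

theorem p_RMM : Stmt_RMM := by
  intro B hB f x hx
  refine ⟨?_, ?_⟩
  · rintro ⟨-, N, hU, -⟩
    exact RMM_uq hB hx N hU
  · rintro ⟨N, hU, -⟩
    exact RMM_uq hB hx N hU

end Pool.LF
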