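import Pool.Agent.Work.MP_f36782_lf.Interface

set_option autoImplicit false

/-! # Block RNS: the tail class of a point is Ramsey null -/

open MeasureTheory Pool.Agent.Work.RamseyAD

namespace Pool.LF

theorem p_RNS : Stmt_RNS := by
  classical
  intro x₀ X hX
  by_cases h0 : Inf x₀
  swap
  · refine ⟨X, hX, fun k h => h, fun x hx _ hxe => h0 fun n => ?_⟩
    obtain ⟨N, hN⟩ := hxe
    obtain ⟨k, hk, hxk⟩ := hx (max n N)
    exact ⟨k, (le_max_left _ _).trans hk, (hN k ((le_max_right _ _).trans hk)) ▸ hxk⟩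
  have hinf : {k : ℕ | X k = true}.Infinite := by
    rw [← Nat.frequently_atTop_iff_infinite, Filter.frequently_atTop]
    intro n
    obtain ⟨k, hk, hk2⟩ := hX n
    exact ⟨k, hk, hk2⟩
  let e : ℕ → ℕ := Nat.nth fun k => X k = true
  have he : StrictMono e := Nat.nth_strictMono hinf
  have heX : ∀ j, X (e j) = true := fun j => Nat.nth_mem_of_infinite hinf j
  let Y : ℕ → C := fun i k => decide (∃ j, e (2 * j + i) = k)
  have hYs : ∀ i, Sub (Y i) X := by
    intro i k hk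
    obtain ⟨j, hj⟩ := of_decide_eq_true hk
    rw [← hj]
    exact heX _
  have hYi : ∀ i, Inf (Y i) := by
    intro i n
    refine ⟨e (2 * n + i), ?_, decide_eq_true ⟨n, rfl⟩⟩
    have := he.le_apply (x := 2 * n + i)
    omega
  have hne : ¬ ASub x₀ (Y 0) ∨ ¬ ASub x₀ (Y 1) := by
    by_contra hc
    push Not at hc
    obtain ⟨⟨N, hN⟩, ⟨M, hM⟩⟩ := hc
    obtain ⟨k, hk, hk2⟩ := h0 (max N M)
    obtain ⟨i, hi⟩ := of_decide_eq_true (hN k ((le_max_left _ _).trans hk) hk2)
    obtain ⟨j, hj⟩ := of_decide_eq_true (hM k ((le_max_right _ _).trans hk) hk2)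
    have := he.injective (hi.trans hj.symm)
    omega
  have key : ∀ i, ¬ ASub x₀ (Y i) → ∃ Y, Inf Y ∧ Sub Y X ∧
      ∀ x, Inf x → ASub x Y → x ∉ {x | AEq x x₀} := by
    intro i hi
    refine ⟨Y i, hYi i, hYs i, fun x _ hxY hxe => hi ?_⟩
    obtain ⟨N, hN⟩ := hxY
    obtain ⟨M, hM⟩ := hxe
    exact ⟨max N M, fun k hk hk2 => hN k ((le_max_left _ _).trans hk)
      ((hM k ((le_max_right _ _).trans hk)).trans hk2)⟩
  rcases hne with h | h
  · exact key 0 h
  · exact key 1 h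

end Pool.LF
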