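import Pool.Agent.Work.MP_f36782_lf.Interface

set_option autoImplicit false

/-! # Block RNU: countable unions of Ramsey null sets -/

open MeasureTheory Pool.Agent.Work.RamseyAD

namespace Pool.LF

theorem p_RNU : Stmt_RNU := by
  classical
  intro N hN X hX
  choose G hG1 hG2 hG3 using hN
  let Xs : ℕ → {x : C // Inf x} := fun n =>
    Nat.rec (motive := fun _ => {x : C // Inf x}) ⟨X, hX⟩ (fun n x => ⟨G n x.1 x.2, hG1 n x.1 x.2⟩) n
  have hXs : ∀ n, (Xs (n + 1)).1 = G n (Xs n).1 (Xs n).2 := fun n => rfl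
  have hsub : ∀ n m, n ≤ m → Sub (Xs m).1 (Xs n).1 := by
    intro n m h
    induction m, h using Nat.le_induction with
    | base => exact fun k hk => hk
    | succ m _ ih =>
      intro k hk
      rw [hXs m] at hk
      exact ih k (hG2 m _ _ k hk)
  choose nx hnx1 hnx2 using fun (n a : ℕ) => (Xs n).2 a
  let y : ℕ → ℕ := fun n => Nat.rec (motive := fun _ => ℕ) (nx 0 0) (fun n a => nx (n + 1) (a + 1)) n
  have hy1 : ∀ n, y n + 1 ≤ y (n + 1) := fun n => hnx1 (n + 1) (y n + 1)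
  have hy2 : ∀ n, (Xs n).1 (y n) = true := by
    intro n
    cases n with
    | zero => exact hnx2 0 0
    | succ n => exact hnx2 (n + 1) (y n + 1)
  have hmono : StrictMono y := strictMono_nat_of_lt_succ fun n => by
    have := hy1 n
    omega
  obtain ⟨Y, hY⟩ : ∃ Y : C, ∀ k, Y k = true ↔ ∃ n, y n = k :=
    ⟨fun k : ℕ => @decide (∃ n : ℕ, y n = k) (Classical.propDecidable _), fun k => by simp⟩
  refine ⟨Y, ?_, ?_, ?_⟩
  · intro n
    exact ⟨y n, hmono.id_le n, (hY _).2 ⟨n, rfl⟩⟩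
  · intro k hk
    obtain ⟨n, rfl⟩ := (hY _).1 hk
    exact hsub 0 n (Nat.zero_le n) _ (hy2 n)
  · intro x hx hxY hmem
    obtain ⟨n, hn⟩ := Set.mem_iUnion.1 hmem
    refine hG3 n (Xs n).1 (Xs n).2 x hx ?_ hn
    obtain ⟨M, hM⟩ := hxY
    refine ⟨max M (y (n + 1)), fun k hk hxk => ?_⟩
    obtain ⟨m, rfl⟩ := (hY _).1 (hM k (le_trans (le_max_left _ _) hk) hxk)
    have h1 : n + 1 ≤ m := by
      by_contra hcon
      have := hmono (show m < n + 1 by omega)
      have := le_trans (le_max_right M (y (n + 1))) hk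
      omega
    rw [← hXs n]
    exact hsub (n + 1) m h1 _ (hy2 m)

end Pool.LF
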