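import Pool.Agent.Work.MP_f36782_lf.Interface2

set_option autoImplicit false

/-!
# Block RSB of MP_f36782_lf
-/

open MeasureTheory Pool.Agent.Work.RamseyAD

namespace Pool.LF

theorem RSB_hist_length (u : ℕ → ℕ) (n : ℕ) : (hist u n).length = n := by
  simp [hist]

theorem RSB_hist_le {u z : ℕ → ℕ} {n k : ℕ} (h : hist u n = hist z n) (hk : k ≤ n) :
    hist u k = hist z k := by
  unfold hist at h ⊢
  have h1 : ∀ i ∈ List.range n, u i = z i := List.map_inj_left.mp h
  refine List.map_inj_left.mpr fun i hi => h1 i ?_
  rw [List.mem_range] at hi ⊢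
  omega

theorem RSB_hist_val {u z : ℕ → ℕ} {n i : ℕ} (h : hist u n = hist z n) (hi : i < n) :
    u i = z i := by
  unfold hist at h
  exact List.map_inj_left.mp h i (List.mem_range.mpr hi)

theorem p_RSB : Stmt_RSB := by
  intro B hB f hf x hx z hK
  obtain ⟨-, N, hN⟩ := hx
  obtain ⟨K, hK⟩ := hK
  have key : ∀ k, ∃ u : ℕ → ℕ, hist u k = hist z k ∧ ∀ j, N ≤ j → j < k → x j = f u j := by
    intro k
    obtain ⟨u, n, hn, hm, hx⟩ := hN (k + K + 1)
    -- the positions are increasing
    have hmono : ∀ i j, i ≤ j → j ≤ k + K + 1 → n i ≤ n j := by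
      intro i j hij
      induction j, hij using Nat.le_induction with
      | base => intro _; exact le_refl _
      | succ j hij ih =>
        intro hj
        exact (ih (by omega)).trans (hn j (by omega)).le
    have hstrict : ∀ i j, i < j → j ≤ k + K + 1 → n i < n j := by
      intro i j hij hj
      exact lt_of_lt_of_le (hn i (by omega)) (hmono (i + 1) j hij hj)
    have hge : ∀ i, i ≤ k + K + 1 → i ≤ n i := by
      intro i
      induction i with
      | zero => intro _; exact Nat.zero_le _
      | succ i ih =>
        intro hi
        have h1 := ih (by omega)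
        have h2 := hn i (by omega)
        omega
    choose! m hmB hmx using hm
    have hinj : Set.InjOn m (Finset.Icc k (k + K) : Finset ℕ) := by
      intro i hi j hj hij
      rw [Finset.coe_Icc, Set.mem_Icc] at hi hj
      have h1 := hmB i (by omega)
      have h2 := hmB j (by omega)
      rw [← hij] at h2
      have h3 := hB.inj _ _ _ h1 h2
      have h4 : n i = n j := by
        have := congrArg List.length h3
        rwa [RSB_hist_length, RSB_hist_length] at this
      rcases lt_trichotomy i j with h | h | h
      · exact absurd h4 (hstrict i j h (by omega)).ne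
      · exact h
      · exact absurd h4.symm (hstrict j i h (by omega)).ne
    obtain ⟨i, hi, hiK⟩ : ∃ i ∈ Finset.Icc k (k + K), K ≤ m i := by
      by_contra hcon
      push Not at hcon
      have h1 : (Finset.Icc k (k + K)).card ≤ (Finset.range K).card :=
        Finset.card_le_card_of_injOn m (fun i hi => Finset.mem_coe.mpr
          (Finset.mem_range.mpr (hcon i (Finset.mem_coe.mp hi)))) hinj
      rw [Nat.card_Icc, Finset.card_range] at h1
      omega
    rw [Finset.mem_Icc] at hi
    obtain ⟨i', hi'⟩ := hK (m i) hiK (hmx i (by omega))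
    have h3 := hB.inj _ _ _ (hmB i (by omega)) hi'
    have h4 : n i = i' := by
      have := congrArg List.length h3
      rwa [RSB_hist_length, RSB_hist_length] at this
    rw [← h4] at h3
    have hki : k ≤ n i := hi.1.trans (hge i (by omega))
    refine ⟨u, RSB_hist_le h3 hki, fun j hj hjk => hx j hj ?_⟩
    have := hmono i (k + K + 1) (by omega) (le_refl _)
    omega
  choose u hu hux using key
  have hlim : Filter.Tendsto u Filter.atTop (nhds z) := by
    rw [tendsto_pi_nhds]
    intro i
    refine tendsto_const_nhds.congr' ?_
    filter_upwards [Filter.eventually_gt_atTop i] with k hk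
    exact (RSB_hist_val (hu k) hk).symm
  have hflim : Filter.Tendsto (fun k => f (u k)) Filter.atTop (nhds (f z)) :=
    (hf.tendsto z).comp hlim
  refine ⟨N, fun j hj => ?_⟩
  have hj1 := (tendsto_pi_nhds.mp hflim) j
  rw [nhds_discrete, Filter.tendsto_pure] at hj1
  obtain ⟨k, hk1, hk2⟩ := (hj1.and (Filter.eventually_gt_atTop j)).exists
  rw [hux k j hj hk2, hk1]

end Pool.LF
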