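import Pool.Agent.Work.MP_f36782_lf.Interface2

set_option autoImplicit false

open MeasureTheory Pool.Agent.Work.RamseyAD

namespace Pool.LF

theorem RSC_hist_iff {y z : ℕ → ℕ} {n : ℕ} : hist y n = hist z n ↔ ∀ k < n, y k = z k := by
  unfold hist
  rw [List.map_inj_left]
  exact ⟨fun h k hk => h k (List.mem_range.2 hk), fun h k hk => h k (List.mem_range.1 hk)⟩

theorem RSC_len (z : ℕ → ℕ) (n : ℕ) : (hist z n).length = n := by simp [hist]

/-- a coordinate of a continuous map depends on finitely many moves -/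
theorem RSC_loc {f : (ℕ → ℕ) → C} (hf : Continuous f) (z : ℕ → ℕ) (j : ℕ) :
    ∃ n, ∀ w : ℕ → ℕ, hist w n = hist z n → f w j = f z j := by
  have hg : Continuous fun w => f w j := (continuous_apply j).comp hf
  have ho : IsOpen {w : ℕ → ℕ | f w j = f z j} :=
    (isOpen_discrete ({f z j} : Set Bool)).preimage hg
  obtain ⟨I, u, hI, hsub⟩ := isOpen_pi_iff.1 ho z rfl
  refine ⟨I.sup id + 1, fun w hw => ?_⟩
  refine hsub (fun a ha => ?_)
  have h1 : a ≤ I.sup id := Finset.le_sup (f := id) ha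
  have h2 : w a = z a := RSC_hist_iff.1 hw a (by omega)
  rw [h2]
  exact (hI a ha).2

/-- block RSC -/
theorem p_RSC (hNOD : Stmt_NOD) : Stmt_RSC := by
  intro B hB f hf x hx
  obtain ⟨hxI, N, hN⟩ := hx
  obtain ⟨M, hM⟩ : ∃ M : Set (List ℕ), M = {h | (∃ m ∈ B h, x m = true) ∧
    ∃ u, hist u h.length = h ∧ ∀ j, N ≤ j → j < h.length → x j = f u j} := ⟨_, rfl⟩
  have hchain : ∀ k, ∃ (u n : ℕ → ℕ), (∀ i, i < k → n i < n (i + 1)) ∧
      ∀ i, i ≤ k → hist u (n i) ∈ M := by
    intro k
    obtain ⟨u, n, h1, h2, h3⟩ := hN k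
    refine ⟨u, n, h1, fun i hi => ?_⟩
    rw [hM]
    refine ⟨h2 i hi, u, ?_, fun j hj1 hj2 => ?_⟩
    · rw [RSC_len]
    · rw [RSC_len] at hj2
      have hmono : ∀ d, i + d ≤ k → n i ≤ n (i + d) := by
        intro d
        induction d with
        | zero => intro _; exact le_refl _
        | succ d ih =>
          intro hd
          have h4 := ih (by omega)
          have h5 := h1 (i + d) (by omega)
          have h6 : i + (d + 1) = i + d + 1 := by omega
          rw [h6]
          omega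
      have h4 := hmono (k - i) (by omega)
      have h5 : i + (k - i) = k := by omega
      rw [h5] at h4
      exact h3 j hj1 (by omega)
  rcases hNOD M hchain with h1 | h1
  · obtain ⟨z, hz⟩ := h1
    left
    have hI : {i | hist z i ∈ M}.Infinite := by
      refine Set.infinite_of_not_bddAbove fun h => ?_
      obtain ⟨b, hb⟩ := h
      obtain ⟨i, hi1, hi2⟩ := hz (b + 1)
      have := hb hi2
      omega
    refine ⟨z, ⟨N, fun j hj => ?_⟩, fun n => ?_⟩
    · obtain ⟨n₀, hn₀⟩ := RSC_loc hf z j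
      obtain ⟨i, hi1, hi2⟩ := hz (max n₀ (j + 1))
      rw [hM] at hi2
      obtain ⟨-, u, hu1, hu2⟩ := hi2
      rw [RSC_len] at hu1 hu2
      have h2 : n₀ ≤ i := (le_max_left _ _).trans hi1
      have h3 : j + 1 ≤ i := (le_max_right _ _).trans hi1
      rw [hu2 j hj (by omega)]
      refine hn₀ u (RSC_hist_iff.2 fun k hk => ?_)
      exact RSC_hist_iff.1 hu1 k (by omega)
    · have h2 : ∀ i : {i | hist z i ∈ M}, ∃ m, m ∈ B (hist z i) ∧ x m = true := by
        intro i
        have h3 : hist z i ∈ {h | (∃ m ∈ B h, x m = true) ∧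
            ∃ u, hist u h.length = h ∧ ∀ j, N ≤ j → j < h.length → x j = f u j} := by
          rw [← hM]
          exact i.2
        obtain ⟨⟨m, hm1, hm2⟩, -⟩ := h3
        exact ⟨m, hm1, hm2⟩
      choose m hm1 hm2 using h2
      have hinj : Function.Injective m := by
        intro i i' h
        have h3 := hB.inj _ _ _ (hm1 i) (by rw [h]; exact hm1 i')
        have h4 := congrArg List.length h3
        rw [RSC_len, RSC_len] at h4
        exact Subtype.ext h4
      haveI : Infinite {i | hist z i ∈ M} := hI.to_subtype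
      have h3 : (Set.range m).Infinite := Set.infinite_range_of_injective hinj
      obtain ⟨b, hb1, hb2⟩ := h3.exists_gt n
      obtain ⟨i, rfl⟩ := hb1
      exact ⟨m i, hb2.le, hm2 i, ⟨i, hm1 i⟩⟩
  · obtain ⟨e, e', he, hee⟩ := h1
    right
    have h2 : ∀ k, ∃ a b, (a ∈ B (e k) ∧ x a = true) ∧ b ∈ B (e' k) ∧ x b = true := by
      intro k
      obtain ⟨h3, h4, -⟩ := he k
      rw [hM] at h3 h4
      obtain ⟨⟨a, ha1, ha2⟩, -⟩ := h3
      obtain ⟨⟨b, hb1, hb2⟩, -⟩ := h4
      exact ⟨a, b, ⟨ha1, ha2⟩, hb1, hb2⟩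
    choose a b hab hb using h2
    refine ⟨a, b, fun k => ⟨(hab k).2, (hb k).2, fun h => ?_, ?_⟩, ?_⟩
    · refine (he k).2.2.2 (hB.inj _ _ _ (hab k).1 ?_)
      rw [h]
      exact (hb k).1
    · exact ⟨e k, e' k, (hab k).1, (hb k).1, Or.inl (he k).2.2.1⟩
    · intro k k' hkk c c' hc hc'
      have h3 : ∃ l, c ∈ B l ∧ e k <+: l := by
        rcases hc with rfl | rfl
        · exact ⟨e k, (hab k).1, List.prefix_refl _⟩
        · exact ⟨e' k, (hb k).1, (he k).2.2.1⟩
      have h4 : ∃ l, c' ∈ B l ∧ e k' <+: l := by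
        rcases hc' with rfl | rfl
        · exact ⟨e k', (hab k').1, List.prefix_refl _⟩
        · exact ⟨e' k', (hb k').1, (he k').2.2.1⟩
      obtain ⟨l, hl1, hl2⟩ := h3
      obtain ⟨l', hl1', hl2'⟩ := h4
      have hcomp : ∀ r : List ℕ, e k <+: r → e k' <+: r → False := by
        intro r hr hr'
        rcases List.prefix_or_prefix_of_prefix hr hr' with h | h
        · exact hee k k' hkk h
        · exact hee k' k (Ne.symm hkk) h
      refine ⟨fun h => ?_, ?_⟩
      · have h5 : l = l' := hB.inj _ _ _ hl1 (by rw [h]; exact hl1')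
        rw [← h5] at hl2'
        exact hcomp l hl2 hl2'
      · rintro ⟨r, r', hr, hr', h⟩
        have h5 : r = l := hB.inj _ _ _ hr hl1
        have h6 : r' = l' := hB.inj _ _ _ hr' hl1'
        rw [h5, h6] at h
        rcases h with h | h
        · exact hcomp l' (hl2.trans h) hl2'
        · exact hcomp l hl2 (hl2'.trans h)

end Pool.LF
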