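import Pool.Agent.Work.MP_f36782_lf.Interface2

set_option autoImplicit false

/-!
# MP_f36782_lc, THEOREM LF, block RSM: the promised set is a Borel tail set
-/

open MeasureTheory Pool.Agent.Work.RamseyAD

namespace Pool.LF

/-- drop the members of a chain whose chosen elements are `< M` -/
theorem RSM_sel {B : List ℕ → Set ℕ} (hB : Blk B) (x : C) (u n : ℕ → ℕ) (k M : ℕ)
    (hn : ∀ i, i < k + M → n i < n (i + 1))
    (hx : ∀ i, i ≤ k + M → ∃ m ∈ B (hist u (n i)), x m = true) :
    ∃ n' : ℕ → ℕ, (∀ i, i < k → n' i < n' (i + 1)) ∧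
      (∀ i, i ≤ k → ∃ m ∈ B (hist u (n' i)), M ≤ m ∧ x m = true) ∧ n' k ≤ n (k + M) := by
  choose! m hm1 hm2 using hx
  have hmono : ∀ d i, i + d + 1 ≤ k + M → n i < n (i + d + 1) := by
    intro d
    induction d with
    | zero =>
      intro i hi
      exact hn i (by omega)
    | succ d ih =>
      intro i hi
      exact (ih i (by omega)).trans (hn (i + d + 1) (by omega))
  have hmono' : ∀ i j, i < j → j ≤ k + M → n i < n j := by
    intro i j hij hj
    obtain ⟨d, rfl⟩ : ∃ d, j = i + d + 1 := ⟨j - i - 1, by omega⟩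
    exact hmono d i hj
  have hmono'' : ∀ i j, i ≤ j → j ≤ k + M → n i ≤ n j := by
    intro i j hij hj
    rcases Nat.lt_or_ge i j with h | h
    · exact (hmono' i j h hj).le
    · rw [le_antisymm hij h]
  have hinj : Set.InjOn m {i | i ≤ k + M} := by
    intro i hi j hj hij
    have h1 : hist u (n i) = hist u (n j) := by
      refine hB.inj _ _ (m i) (hm1 i hi) ?_
      rw [hij]
      exact hm1 j hj
    have h2 : n i = n j := by
      have h3 := congrArg List.length h1
      simpa [hist] using h3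
    rcases lt_trichotomy i j with h | h | h
    · have := hmono' i j h hj
      omega
    · exact h
    · have := hmono' j i h hi
      omega
  obtain ⟨S, hS⟩ : ∃ S, S = (Finset.range (k + M + 1)).filter fun i => M ≤ m i := ⟨_, rfl⟩
  have hcard : k + 1 ≤ S.card := by
    have h1 : ((Finset.range (k + M + 1)).filter fun i => ¬ M ≤ m i).card ≤ (Finset.range M).card := by
      refine Finset.card_le_card_of_injOn m ?_ ?_
      · intro i hi
        simp only [Finset.coe_filter, Finset.mem_range, Set.mem_ofPred_eq, not_le] at hi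
        simp only [Finset.coe_range, Set.mem_Iio]
        exact hi.2
      · refine hinj.mono ?_
        intro i hi
        simp only [Finset.coe_filter, Finset.mem_range, Set.mem_ofPred_eq, not_le] at hi
        show i ≤ k + M
        omega
    have h2 := Finset.card_filter_add_card_filter_not (s := Finset.range (k + M + 1))
      (fun i => M ≤ m i)
    rw [Finset.card_range] at h1 h2
    rw [hS]
    omega
  have hmem : ∀ i ∈ S, i ≤ k + M ∧ M ≤ m i := by
    intro i hi
    rw [hS, Finset.mem_filter, Finset.mem_range] at hi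
    exact ⟨by omega, hi.2⟩
  obtain ⟨e, he⟩ : ∃ e : ℕ → ℕ, e = fun i => if h : i < S.card then S.orderEmbOfFin rfl ⟨i, h⟩ else 0 :=
    ⟨_, rfl⟩
  have heS : ∀ i, i ≤ k → e i ∈ S := by
    intro i hi
    rw [he]
    simp only
    rw [dif_pos (by omega : i < S.card)]
    exact Finset.orderEmbOfFin_mem S rfl _
  have helt : ∀ i, i < k → e i < e (i + 1) := by
    intro i hi
    rw [he]
    simp only
    rw [dif_pos (by omega : i < S.card), dif_pos (by omega : i + 1 < S.card)]
    exact (S.orderEmbOfFin rfl).strictMono (Fin.mk_lt_mk.2 (Nat.lt_succ_self i))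
  refine ⟨fun i => n (e i), ?_, ?_, ?_⟩
  · intro i hi
    exact hmono' _ _ (helt i hi) (hmem _ (heS (i + 1) (by omega))).1
  · intro i hi
    obtain ⟨h1, h2⟩ := hmem _ (heS i hi)
    exact ⟨m (e i), hm1 _ h1, h2, hm2 _ h1⟩
  · exact hmono'' _ _ (hmem _ (heS k le_rfl)).1 le_rfl

theorem RSM_tail {B : List ℕ → Set ℕ} (hB : Blk B) (f : (ℕ → ℕ) → C) {x y : C} {M : ℕ}
    (hxy : ∀ k, M ≤ k → x k = y k) (hx : x ∈ Rst B f) : y ∈ Rst B f := by
  obtain ⟨hI, N, hN⟩ := hx
  refine ⟨?_, max N M, ?_⟩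
  · intro n
    obtain ⟨k, h1, h2⟩ := hI (max n M)
    exact ⟨k, (le_max_left _ _).trans h1, (hxy k ((le_max_right _ _).trans h1)).symm.trans h2⟩
  · intro k
    obtain ⟨u, n, h1, h2, h3⟩ := hN (k + M)
    obtain ⟨n', g1, g2, g3⟩ := RSM_sel hB x u n k M h1 h2
    refine ⟨u, n', g1, ?_, ?_⟩
    · intro i hi
      obtain ⟨m, hm1, hm2, hm3⟩ := g2 i hi
      exact ⟨m, hm1, (hxy m hm2).symm.trans hm3⟩
    · intro j hj hj'
      rw [← hxy j ((le_max_right _ _).trans hj)]
      exact h3 j ((le_max_left _ _).trans hj) (hj'.trans_le g3)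

theorem RSM_coord (m : ℕ) (b : Bool) : IsOpen {x : C | x m = b} := by
  have h1 : Continuous fun x : C => x m := continuous_apply m
  exact (isOpen_discrete ({b} : Set Bool)).preimage h1

theorem RSM_open (B : List ℕ → Set ℕ) (f : (ℕ → ℕ) → C) (N k : ℕ) :
    IsOpen {x : C | ∃ (u n : ℕ → ℕ), (∀ i, i < k → n i < n (i + 1)) ∧
      (∀ i, i ≤ k → ∃ m ∈ B (hist u (n i)), x m = true) ∧ ∀ j, N ≤ j → j < n k → x j = f u j} := by
  simp only [Set.ofPred_exists]
  refine isOpen_iUnion fun u => isOpen_iUnion fun n => ?_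
  refine IsOpen.and isOpen_const (IsOpen.and ?_ ?_)
  · have h1 : {x : C | ∀ i, i ≤ k → ∃ m ∈ B (hist u (n i)), x m = true} =
        ⋂ i ∈ Set.Iic k, {x : C | ∃ m ∈ B (hist u (n i)), x m = true} := by
      ext x
      simp only [Set.mem_ofPred_eq, Set.mem_iInter, Set.mem_Iic]
    rw [h1]
    refine (Set.finite_Iic k).isOpen_biInter fun i _ => ?_
    have h2 : {x : C | ∃ m ∈ B (hist u (n i)), x m = true} =
        ⋃ m ∈ B (hist u (n i)), {x : C | x m = true} := by
      ext x
      simp only [Set.mem_ofPred_eq, Set.mem_iUnion, exists_prop]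
    rw [h2]
    exact isOpen_biUnion fun m _ => RSM_coord m true
  · have h1 : {x : C | ∀ j, N ≤ j → j < n k → x j = f u j} =
        ⋂ j ∈ Set.Ico N (n k), {x : C | x j = f u j} := by
      ext x
      simp only [Set.mem_ofPred_eq, Set.mem_iInter, Set.mem_Ico, and_imp]
    rw [h1]
    exact (Set.finite_Ico N (n k)).isOpen_biInter fun j _ => RSM_coord j _

theorem p_RSM : Stmt_RSM := by
  intro B hB f _
  refine ⟨?_, ?_⟩
  · have h1 : Rst B f = {x : C | Inf x} ∩ ⋃ N, ⋂ k, {x : C | ∃ (u n : ℕ → ℕ),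
        (∀ i, i < k → n i < n (i + 1)) ∧ (∀ i, i ≤ k → ∃ m ∈ B (hist u (n i)), x m = true) ∧
          ∀ j, N ≤ j → j < n k → x j = f u j} := by
      ext x
      simp only [Rst, Set.mem_ofPred_eq, Set.mem_inter_iff, Set.mem_iUnion, Set.mem_iInter]
    have h2 : {x : C | Inf x} = ⋂ n : ℕ, ⋃ k ∈ Set.Ici n, {x : C | x k = true} := by
      ext x
      simp only [Inf, Set.mem_ofPred_eq, Set.mem_iUnion, Set.mem_iInter, Set.mem_Ici, exists_prop]
    rw [h1, h2]
    refine MeasurableSet.inter (MeasurableSet.iInter fun n => ?_)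
      (MeasurableSet.iUnion fun N => MeasurableSet.iInter fun k => (RSM_open B f N k).measurableSet)
    exact (isOpen_biUnion fun m _ => RSM_coord m true).measurableSet
  · rintro x y ⟨M, hM⟩
    exact ⟨fun h => RSM_tail hB f hM h, fun h => RSM_tail hB f (fun k hk => (hM k hk).symm) h⟩

end Pool.LF
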