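import Pool.Agent.Work.MP_f36782_lf.Interface2

/-! Block RSR (MP_f36782_lc, helper90). -/

set_option autoImplicit false

open MeasureTheory Pool.Agent.Work.RamseyAD

namespace Pool.LF

theorem RSR_inf {B : List ℕ → Set ℕ} (hB : Blk B) {x : C} {z : ℕ → ℕ} (h : Hit x (Br B z))
    (N : ℕ) : ∃ i, N ≤ i ∧ ∃ m ∈ B (hist z i), x m = true := by
  have hfin : (⋃ i ∈ Finset.range N, B (hist z i)).Finite :=
    Set.Finite.biUnion (Finset.finite_toSet _) (fun i _ => hB.fin _)
  obtain ⟨M, hM⟩ := hfin.bddAbove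
  obtain ⟨m, hm, hx, i, hi⟩ := h (M + 1)
  refine ⟨i, ?_, m, hi, hx⟩
  by_contra hlt
  have h1 : m ∈ ⋃ i ∈ Finset.range N, B (hist z i) :=
    Set.mem_biUnion (Finset.mem_coe.2 (Finset.mem_range.2 (by omega))) hi
  have h2 := hM h1
  omega

theorem p_RSR : Stmt_RSR := by
  intro B hB f z h
  refine ⟨fun n => ?_, 0, fun k => ?_⟩
  · obtain ⟨m, h1, h2, -⟩ := h n
    exact ⟨m, h1, h2⟩
  · choose g hg hP using RSR_inf hB h
    let n : ℕ → ℕ := fun i => Nat.rec (g 0) (fun _ m => g (m + 1)) i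
    have hn : ∀ i, n (i + 1) = g (n i + 1) := fun i => rfl
    refine ⟨z, n, ?_, ?_, fun _ _ _ => rfl⟩
    · intro i _
      have h1 := hg (n i + 1)
      rw [hn]
      omega
    · intro i _
      cases i with
      | zero => exact hP 0
      | succ i =>
        rw [hn]
        exact hP _

end Pool.LF
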