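import Pool.Agent.Work.MP_f36782_lf.Interface2

set_option autoImplicit false

/-! Block STA: the stage. -/

open MeasureTheory Pool.Agent.Work.RamseyAD

namespace Pool.LF

theorem STA_symm {P Q : Set C} (h : Bal P Q) : Bal Q P :=
  ⟨fun x hx hx' => h.disj x hx' hx, h.tailQ, h.tailP, h.infQ, h.infP, h.balQ, h.balP⟩

theorem STA_hit {x : C} {S S' : Set ℕ} (h : Hit x S) (hK : ∃ K, ∀ m ∈ S, K ≤ m → m ∈ S') :
    Hit x S' := by
  obtain ⟨K, hK⟩ := hK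
  intro n
  obtain ⟨k, h1, h2, h3⟩ := h (max n K)
  exact ⟨k, (le_max_left n K).trans h1, h2, hK k h3 ((le_max_right n K).trans h1)⟩

theorem STA_enum {F : Set (Set (ℕ → ℕ))} (φ : Fm F CM) (h : φ.at.Countable) :
    ∃ e : ℕ → CM, ∀ f ∈ φ.at, ∃ j, e j = f := by
  rcases Set.eq_empty_or_nonempty φ.at with h0 | h0
  · refine ⟨fun _ => ⟨fun _ _ => false, continuous_const⟩, fun f hf => ?_⟩
    rw [h0] at hf
    exact absurd hf (Set.notMem_empty f)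
  · obtain ⟨e, he⟩ := h.exists_eq_range h0
    refine ⟨e, fun f hf => ?_⟩
    rw [he] at hf
    exact hf

theorem p_STA (hSIB : Stmt_SIB) (hOWN : Stmt_OWN) (hFMA : Stmt_FMA) (hBAL : Stmt_BAL)
    (hMIX : Stmt_MIX) (hFIN : Stmt_FIN) (hPAF : Stmt_PAF) : Stmt_STA := by
  intro F hF P Q hc fP fQ φ
  have hW := hPAF F hF P Q fP fQ φ
  obtain ⟨-, -, hU, hD, hB⟩ := hFIN F hF
  obtain ⟨e, he⟩ := STA_enum φ (hFMA F CM φ).1
  rcases hF.det _ hW with ⟨T, hT⟩ | ⟨T, hT⟩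
  · obtain ⟨s, Φ, B, hBlk, hs⟩ := hSIB 0 T (by norm_num)
    obtain ⟨U, V, hUV, mU, mV, hUf⟩ := hBAL B hBlk (fun j => (e j).1) (fun j => (e j).2)
    refine ⟨P ∪ (U \ Q), Q ∪ (V \ P), hMIX P Q U V hc hUV, hU _ _ fP (hD _ _ (hB U mU) fQ),
      hU _ _ fQ (hD _ _ (hB V mV) fP), Set.subset_union_left, Set.subset_union_left, ?_⟩
    intro A hPA _ _
    refine Or.inl ⟨s, fun z hz => ?_⟩
    have hzc : Cons 0 s z := by
      intro i hi
      obtain ⟨n, rfl⟩ : ∃ n, i = 2 * n := ⟨i / 2, by omega⟩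
      exact hz n
    obtain ⟨h1, h2, h3, h4⟩ := hs z hzc
    have hw := hT (Φ z) (fun n => h1 (2 * n) (by omega))
    have hw' : φ.tr (fun k : F => z ∈ k.1) (atm P Q (Φ z)) := by
      have : φ.tr (fun k : F => mv (Φ z) ∈ k.1) (atm P Q (Φ z)) := hw
      rwa [h2] at this
    show φ.tr (fun k : F => z ∈ k.1) (fun f => f.1 z ∈ A)
    refine (hFMA F CM φ).2 _ _ _ (fun f hf hat => ?_) hw'
    unfold atm at hat
    rw [h2] at hat
    rcases hat with hat | ⟨hq, hi, hn⟩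
    · exact hPA (Or.inl hat)
    · have hit := STA_hit (hOWN (Φ z) (f.1 z) h3 hi hn) h4
      obtain ⟨j, rfl⟩ := he f hf
      exact hPA (Or.inr ⟨hUf j z hit, hq⟩)
  · obtain ⟨s, Φ, B, hBlk, hs⟩ := hSIB 1 T (by norm_num)
    obtain ⟨U, V, hUV, mU, mV, hUf⟩ := hBAL B hBlk (fun j => (e j).1) (fun j => (e j).2)
    refine ⟨P ∪ (V \ Q), Q ∪ (U \ P), hMIX P Q V U hc (STA_symm hUV),
      hU _ _ fP (hD _ _ (hB V mV) fQ), hU _ _ fQ (hD _ _ (hB U mU) fP), Set.subset_union_left,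
      Set.subset_union_left, ?_⟩
    intro A _ hAQ hAI
    refine Or.inr ⟨s, fun z hz hin => ?_⟩
    have hzc : Cons 1 s z := by
      intro i hi
      obtain ⟨n, rfl⟩ : ∃ n, i = 2 * n + 1 := ⟨i / 2, by omega⟩
      exact hz n
    obtain ⟨h1, h2, h3, h4⟩ := hs z hzc
    refine hT (Φ z) (fun n => h1 (2 * n + 1) (by omega)) ?_
    show φ.tr (fun k : F => mv (Φ z) ∈ k.1) (atm P Q (Φ z))
    have hin' : φ.tr (fun k : F => mv (Φ z) ∈ k.1) (fun f => f.1 z ∈ A) := by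
      rw [h2]
      exact hin
    refine (hFMA F CM φ).2 _ _ _ (fun f hf hat => ?_) hin'
    unfold atm
    rw [h2]
    by_cases hfp : f.1 z ∈ P
    · exact Or.inl hfp
    · refine Or.inr ⟨fun hq => hAQ _ hat (Or.inl hq), hAI _ hat, fun hit => ?_⟩
      obtain ⟨j, rfl⟩ := he f hf
      exact hAQ _ hat (Or.inr ⟨hUf j z (STA_hit hit h4), hfp⟩)

end Pool.LF
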