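import Pool.Agent.Work.MP_f36782_lf.Interface

set_option autoImplicit false

/-! Block STG: the stage lemma. -/

open MeasureTheory Pool.Agent.Work.RamseyAD

namespace Pool.LF

theorem STG_mono {M N : Set C} (h : M ⊆ N) (hN : RN N) : RN M := by
  intro X hX
  obtain ⟨Y, hY, hYX, hy⟩ := hN X hX
  exact ⟨Y, hY, hYX, fun x hx hxY hxM => hy x hx hxY (h hxM)⟩

theorem STG_rn (hRNU : Stmt_RNU) {P R : Set C} (hP : RN P) (hR : RN R) : RN (P ∪ R) := by
  have h := hRNU (fun n => if n = 0 then P else R) (fun n => by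
    split_ifs
    · exact hP
    · exact hR)
  refine STG_mono ?_ h
  intro x hx
  rw [Set.mem_iUnion]
  rcases hx with hx | hx
  · exact ⟨0, by simpa using hx⟩
  · exact ⟨1, by simpa using hx⟩

theorem STG_tu {P R : Set C} (hP : Tail P) (hR : Tail R) : Tail (P ∪ R) := fun x y h =>
  or_congr (hP x y h) (hR x y h)

theorem STG_td {P R : Set C} (hP : Tail P) (hR : Tail R) : Tail (P \ R) := fun x y h =>
  and_congr (hP x y h) (not_congr (hR x y h))

theorem p_STG (hCOD : Stmt_COD) (hOWN : Stmt_OWN) (hRNU : Stmt_RNU) (hINF : Stmt_INF)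
    (hPAY : Stmt_PAY) (hFMA : Stmt_FMA) : Stmt_STG := by
  intro F hF P Q hc φ
  have hW := hPAY F hF P Q hc.fP hc.fQ φ
  obtain ⟨-, hIU, hID, -, -⟩ := hINF F hF
  rcases hF.det _ hW with ⟨T, hT⟩ | ⟨T, hT⟩
  · obtain ⟨s, Φ, R, hs, hRN, hRT, hRI, hRF, hR⟩ := hCOD F hF 0 T (by norm_num) φ
    refine ⟨P ∪ (R \ Q), Q, ⟨?_, ?_, hc.rnQ, ?_, hc.tailQ, ?_, hc.infQ, ?_, hc.fQ⟩,
      Set.subset_union_left, subset_rfl, ?_⟩
    · rintro x (hx | hx)
      · exact hc.disj x hx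
      · exact hx.2
    · exact STG_rn hRNU hc.rnP (STG_mono Set.sdiff_subset hRN)
    · exact STG_tu hc.tailP (STG_td hRT hc.tailQ)
    · rintro x (hx | hx)
      · exact hc.infP x hx
      · exact hRI x hx.1
    · exact hIU _ _ hc.fP (hID _ _ hRF hc.fQ)
    · intro A hPA _ _
      refine Or.inl ⟨s, fun z hz => ?_⟩
      have hzc : Cons 0 s z := by
        intro i hi
        obtain ⟨n, rfl⟩ : ∃ n, i = 2 * n := ⟨i / 2, by omega⟩
        exact hz n
      obtain ⟨h1, h2, h3⟩ := hs z hzc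
      have hw := hT (Φ z) (fun n => h1 (2 * n) (by omega))
      have hw' : φ.tr (fun k : F => z ∈ k.1) (atm P Q (Φ z)) := by
        have : φ.tr (fun k : F => mv (Φ z) ∈ k.1) (atm P Q (Φ z)) := hw
        rwa [h2] at this
      show φ.tr (fun k : F => z ∈ k.1) (fun f => f.1 z ∈ A)
      refine (hFMA F CM φ).2 _ _ _ (fun f hf hat => ?_) hw'
      unfold atm at hat
      rw [h2] at hat
      rcases hat with hat | ⟨hq, hi, hn⟩
      · exact hPA (Or.inl hat)
      · have hit := hOWN (Φ z) (f.1 z) h3 hi hn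
        exact hPA (Or.inr ⟨hR z hzc f hf hit, hq⟩)
  · obtain ⟨s, Φ, R, hs, hRN, hRT, hRI, hRF, hR⟩ := hCOD F hF 1 T (by norm_num) φ
    refine ⟨P, Q ∪ (R \ P), ⟨?_, hc.rnP, ?_, hc.tailP, ?_, hc.infP, ?_, hc.fP, ?_⟩,
      subset_rfl, Set.subset_union_left, ?_⟩
    · rintro x hx (hq | hq)
      · exact hc.disj x hx hq
      · exact hq.2 hx
    · exact STG_rn hRNU hc.rnQ (STG_mono Set.sdiff_subset hRN)
    · exact STG_tu hc.tailQ (STG_td hRT hc.tailP)
    · rintro x (hx | hx)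
      · exact hc.infQ x hx
      · exact hRI x hx.1
    · exact hIU _ _ hc.fQ (hID _ _ hRF hc.fP)
    · intro A hPA hAQ hAI
      refine Or.inr ⟨s, fun z hz hin => ?_⟩
      have hzc : Cons 1 s z := by
        intro i hi
        obtain ⟨n, rfl⟩ : ∃ n, i = 2 * n + 1 := ⟨i / 2, by omega⟩
        exact hz n
      obtain ⟨h1, h2, h3⟩ := hs z hzc
      refine hT (Φ z) (fun n => h1 (2 * n + 1) (by omega)) ?_
      show φ.tr (fun k : F => mv (Φ z) ∈ k.1) (atm P Q (Φ z))
      have hin' : φ.tr (fun k : F => mv (Φ z) ∈ k.1) (fun f => f.1 z ∈ A) := by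
        rw [h2]
        exact hin
      refine (hFMA F CM φ).2 _ _ _ (fun f hf hat => ?_) hin'
      unfold atm
      rw [h2]
      by_cases hfp : f.1 z ∈ P
      · exact Or.inl hfp
      · refine Or.inr ⟨fun hq => hAQ _ hat (Or.inl hq), hAI _ hat, fun hit => ?_⟩
        exact hAQ _ hat (Or.inr ⟨hR z hzc f hf hit, hfp⟩)

end Pool.LF
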