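import Pool.Agent.Work.MP_f36782_lf.Interface6
import Pool.Agent.Work.MP_f36782_lf.B_STP
import Pool.Agent.Work.MP_f36782_lf.B_PUM
import Pool.Agent.Work.MP_f36782_lf.B_LVM

set_option autoImplicit false

/-! Block STM: the new sets of the stage, signed differences (helper83; compare `B_STP.lean`). -/

open MeasureTheory Pool.Agent.Work.RamseyAD

namespace Pool.LF

theorem STM_hit {x y : C} {S : Set ℕ} (h : ∃ N, ∀ k, N ≤ k → x k = y k) (hx : Hit x S) : Hit y S := by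
  obtain ⟨N, hN⟩ := h
  intro n
  obtain ⟨k, hk, hxk, hS⟩ := hx (max n N)
  exact ⟨k, le_trans (le_max_left _ _) hk, by rw [← hN k (le_trans (le_max_right _ _) hk)]; exact hxk,
    hS⟩

theorem STM_mHit (q : ℕ) (g : C → (ℕ → ℕ)) (hg : Measurable g) :
    MeasurableSet {x : C | Hit x (own q (g x))} := by
  have h : {x : C | Hit x (own q (g x))} =
      ⋂ n : ℕ, ⋃ k : ℕ, {_x : C | n ≤ k} ∩ ({x : C | x k = true} ∩ g ⁻¹' {w | k ∈ own q w}) := by
    ext x
    simp [Hit]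
  rw [h]
  refine MeasurableSet.iInter fun n => MeasurableSet.iUnion fun k =>
    (MeasurableSet.const (n ≤ k)).inter (MeasurableSet.inter ?_ (hg (PUM_own q k)))
  exact measurableSet_eq_fun (measurable_pi_apply k) measurable_const

theorem STM_mBr (B : List ℕ → Set ℕ) (m : ℕ) : MeasurableSet {z : ℕ → ℕ | m ∈ Br B z} := by
  have h : {z : ℕ → ℕ | m ∈ Br B z} = ⋃ i : ℕ, {z : ℕ → ℕ | m ∈ B (ini z i)} := by
    ext z
    simp only [Set.mem_iUnion]
    exact Iff.rfl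
  rw [h]
  exact MeasurableSet.iUnion fun i => LVM_ini (fun l => m ∈ B l) i

theorem STM_mIn (B : List ℕ → Set ℕ) (M : ℕ) (g : C → (ℕ → ℕ)) (hg : Measurable g) :
    MeasurableSet {x : C | ∀ m, M ≤ m → x m = true → m ∈ Br B (g x)} := by
  have h : {x : C | ∀ m, M ≤ m → x m = true → m ∈ Br B (g x)} =
      ⋂ m : ℕ, ({_x : C | M ≤ m}ᶜ ∪ ({x : C | x m = true}ᶜ ∪ g ⁻¹' {z | m ∈ Br B z})) := by
    ext x
    simp only [Set.mem_iInter, Set.mem_union, Set.mem_compl_iff, Set.mem_preimage, Set.mem_ofPred_eq]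
    constructor
    · intro h m
      by_cases h1 : M ≤ m
      · by_cases h2 : x m = true
        · exact Or.inr (Or.inr (h m h1 h2))
        · exact Or.inr (Or.inl h2)
      · exact Or.inl h1
    · intro h m h1 h2
      rcases h m with h3 | h3 | h3
      · exact absurd h1 h3
      · exact absurd h2 h3
      · exact h3
  rw [h]
  refine MeasurableSet.iInter fun m => (MeasurableSet.const (M ≤ m)).compl.union
    (MeasurableSet.union (MeasurableSet.compl ?_) (hg (STM_mBr B m)))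
  exact measurableSet_eq_fun (measurable_pi_apply m) measurable_const

/-- the old rules and the new ones, interleaved -/
def STM_R (R N : ℕ → Rule) (e : ℕ) : Rule := if e % 2 = 0 then R (e / 2) else N (e / 2)

theorem STM_R0 (R N : ℕ → Rule) (e : ℕ) : STM_R R N (2 * e) = R e := by
  rw [STM_R, if_pos (by omega)]
  congr 1
  omega

theorem STM_R1 (R N : ℕ → Rule) (e : ℕ) : STM_R R N (2 * e + 1) = N e := by
  rw [STM_R, if_neg (by omega)]
  congr 1
  omega

theorem STM_Rc (R N : ℕ → Rule) (e : ℕ) :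
    (∃ k, e = 2 * k ∧ STM_R R N e = R k) ∨ ∃ k, e = 2 * k + 1 ∧ STM_R R N e = N k := by
  rcases Nat.even_or_odd' e with ⟨k, h | h⟩
  · exact Or.inl ⟨k, h, by rw [h, STM_R0]⟩
  · exact Or.inr ⟨k, h, by rw [h, STM_R1]⟩

theorem p_STM (hINB : Stmt_INB) (hLVC : Stmt_LVC) (hLVM : Stmt_LVM) (hZET : Stmt_ZET)
    (hZOF : Stmt_ZOF) (hFRM : Stmt_FRM) (hPAX : Stmt_PAX) : Stmt_STM := by
  intro F hF c o G hc p E hE B Φ hB hΦ
  obtain ⟨-, -, -, -, -, hBor, hPre⟩ := hINB F hF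
  obtain ⟨ζ, hζm, hζ⟩ := hZOF B hB
  choose ξ hξ using hZET B hB
  obtain ⟨⟨mUc, mUn, mE1, mE2⟩, ⟨tUc, tUn, tE1, tE2⟩, hInf, hdis, hE12, -, -⟩ := hFRM B hB G.γ
  -- the first good finite set
  let Wb : Finset ℕ → Set (ℕ → ℕ) := fun b => {w | Gp c o G p w ↑b ∧
    ∀ b' : Finset ℕ, Encodable.encode b' < Encodable.encode b → ¬ Gp c o G p w ↑b'}
  have hWb : ∀ b, Wb b ∈ F := by
    intro b
    have h1 : ∀ b' : Finset ℕ, @MeasurableSet _ (STP_ms F hF) {w | Gp c o G p w ↑b'} :=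
      fun b' => hPAX F hF c o G hc p b'
    have h2 : Wb b = {w | Gp c o G p w ↑b} ∩ ⋂ b' : Finset ℕ,
        ({w | Encodable.encode b' < Encodable.encode b → ¬ Gp c o G p w ↑b'} : Set (ℕ → ℕ)) := by
      ext w
      simp [Wb]
    have h3 : @MeasurableSet _ (STP_ms F hF) (Wb b) := by
      rw [h2]
      refine @MeasurableSet.inter _ (STP_ms F hF) _ _ (h1 b) ?_
      refine @MeasurableSet.iInter _ _ (STP_ms F hF) _ _ fun b' => ?_
      by_cases hlt : Encodable.encode b' < Encodable.encode b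
      · simp only [hlt, forall_const]
        exact @MeasurableSet.compl _ _ (STP_ms F hF) (h1 b')
      · simp only [hlt, IsEmpty.forall_iff, Set.ofPred_true]
        exact @MeasurableSet.univ _ (STP_ms F hF)
    exact h3
  have bor : ∀ P : Set C, MeasurableSet P → @MeasurableSet _ (STP_mc F hF) P :=
    fun P hP => hBor P hP
  have mE : @MeasurableSet _ (STP_mc F hF) (ζ ⁻¹' E) := hPre E ζ hE hζm
  have hUcK : ∀ x ∈ Uc B G.γ, Inf x ∧ ∃ z, InBr B z x := fun x hx => hx.1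
  have hUnK : ∀ x ∈ Un B G.γ, x ∉ Uc B G.γ := fun x hx hU => hx.1 hU.1
  have hζt : ∀ x y : C, (∃ N, ∀ k, N ≤ k → x k = y k) → x ∈ Uc B G.γ → ζ y = ζ x := by
    intro x y h hU
    obtain ⟨hi, z, hz⟩ := hUcK x hU
    rw [hζ x z hi hz, hζ y z (STP_inf h hi) (STP_inBr h hz)]
  have tFre : Tail (Fre c) := STP_tail_fre hc.tP hc.tQ hc.tY
  have mFre : @MeasurableSet _ (STP_mc F hF) (Fre c) := by
    have h1 : Fre c = c.Pᶜ ∩ (c.Qᶜ ∩ c.Yᶜ) := by
      ext x
      simp [Fre]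
    rw [h1]
    exact @MeasurableSet.inter _ (STP_mc F hF) _ _ (@MeasurableSet.compl _ _ (STP_mc F hF) hc.fP)
      (@MeasurableSet.inter _ (STP_mc F hF) _ _ (@MeasurableSet.compl _ _ (STP_mc F hF) hc.fQ)
        (@MeasurableSet.compl _ _ (STP_mc F hF) hc.fY))
  -- the sets which are promised in the runs of `E`
  let Tr : Set C := ⋃ b : Finset ℕ, {x | x ∈ Uc B G.γ ∧ ζ x ∈ E ∧ Φ (ζ x) ∈ Wb b ∧
    ∃ j ∈ b, AEq x (pt (G.γ j) (ζ x))}
  have memTr : ∀ x, x ∈ Tr ↔ ∃ b : Finset ℕ, x ∈ Uc B G.γ ∧ ζ x ∈ E ∧ Φ (ζ x) ∈ Wb b ∧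
    ∃ j ∈ b, AEq x (pt (G.γ j) (ζ x)) := by
    intro x
    exact Set.mem_iUnion
  have hTrF : @MeasurableSet _ (STP_mc F hF) Tr := by
    refine @MeasurableSet.iUnion _ _ (STP_mc F hF) _ _ fun b => ?_
    have h1 : ({x | x ∈ Uc B G.γ ∧ ζ x ∈ E ∧ Φ (ζ x) ∈ Wb b ∧
        ∃ j ∈ b, AEq x (pt (G.γ j) (ζ x))} : Set C) =
        Uc B G.γ ∩ (ζ ⁻¹' E ∩ ((fun x => Φ (ζ x)) ⁻¹' Wb b ∩ ⋃ j : ℕ, ⋃ _ : j ∈ b,
          {x : C | AEq x (pt (G.γ j) (ζ x))})) := by
      ext x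
      constructor
      · rintro ⟨h, hE', h', j, hj, hA⟩
        exact ⟨h, hE', h', Set.mem_iUnion.2 ⟨j, Set.mem_iUnion.2 ⟨hj, hA⟩⟩⟩
      · rintro ⟨h, hE', h', h''⟩
        obtain ⟨j, hj⟩ := Set.mem_iUnion.1 h''
        obtain ⟨hj, hA⟩ := Set.mem_iUnion.1 hj
        exact ⟨h, hE', h', j, hj, hA⟩
    rw [h1]
    refine @MeasurableSet.inter _ (STP_mc F hF) _ _ (bor _ mUc) ?_
    refine @MeasurableSet.inter _ (STP_mc F hF) _ _ mE ?_
    refine @MeasurableSet.inter _ (STP_mc F hF) _ _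
      (hPre (Wb b) (fun x => Φ (ζ x)) (hWb b) (hΦ.measurable.comp hζm)) ?_
    refine bor _ (MeasurableSet.iUnion fun j => MeasurableSet.iUnion fun _ => ?_)
    exact STP_meas_aeq _ ((hLVM.2 (G.γ j)).comp hζm)
  have tTr : Tail Tr := by
    have key : ∀ x y : C, (∃ N, ∀ k, N ≤ k → x k = y k) → x ∈ Tr → y ∈ Tr := by
      intro x y h hx
      obtain ⟨b, hU, hE', hW, j, hj, hA⟩ := (memTr x).1 hx
      have e1 := hζt x y h hU
      refine (memTr y).2 ⟨b, (tUc x y h).1 hU, ?_, ?_, j, hj, ?_⟩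
      · rw [e1]; exact hE'
      · rw [e1]; exact hW
      · rw [e1]; exact STP_aeq h hA
    intro x y h
    exact ⟨key x y h, key y x (STP_symm h)⟩
  have hTrU : Tr ⊆ Uc B G.γ := by
    intro x hx
    obtain ⟨b, hU, -⟩ := (memTr x).1 hx
    exact hU
  have hTrE : ∀ x ∈ Tr, ζ x ∈ E := by
    intro x hx
    obtain ⟨b, -, hE', -⟩ := (memTr x).1 hx
    exact hE'
  -- the reserved sets
  let Yn : Set C := {x | x ∈ Uc B G.γ ∧ x ∈ Fre c ∧ ζ x ∉ E ∧ ¬ Hit x (own (1 - p) (Φ (ζ x)))}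
  have memYn : ∀ x, x ∈ Yn ↔ x ∈ Uc B G.γ ∧ x ∈ Fre c ∧ ζ x ∉ E ∧
    ¬ Hit x (own (1 - p) (Φ (ζ x))) := fun x => Iff.rfl
  have hYnF : @MeasurableSet _ (STP_mc F hF) Yn := by
    have h1 : Yn = Uc B G.γ ∩ (Fre c ∩ ((ζ ⁻¹' E)ᶜ ∩
        {x : C | Hit x (own (1 - p) ((fun x => Φ (ζ x)) x))}ᶜ)) := by
      ext x
      exact Iff.rfl
    rw [h1]
    refine @MeasurableSet.inter _ (STP_mc F hF) _ _ (bor _ mUc) ?_
    refine @MeasurableSet.inter _ (STP_mc F hF) _ _ mFre ?_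
    refine @MeasurableSet.inter _ (STP_mc F hF) _ _ (@MeasurableSet.compl _ _ (STP_mc F hF) mE) ?_
    exact bor _ (STM_mHit (1 - p) (fun x => Φ (ζ x)) (hΦ.measurable.comp hζm)).compl
  have tYn : Tail Yn := by
    have key : ∀ x y : C, (∃ N, ∀ k, N ≤ k → x k = y k) → x ∈ Yn → y ∈ Yn := by
      intro x y h hx
      obtain ⟨hU, hf, hE', hH⟩ := hx
      have e1 := hζt x y h hU
      refine ⟨(tUc x y h).1 hU, (tFre x y h).1 hf, ?_, ?_⟩
      · rw [e1]; exact hE'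
      · rw [e1]
        exact fun hy => hH (STM_hit (STP_symm h) hy)
    intro x y h
    exact ⟨key x y h, key y x (STP_symm h)⟩
  -- the new rules
  let N : ℕ → Rule := fun k =>
    ⟨{x | x ∈ Yn ∧ ζ x ∈ o.D (Nat.unpair k).2 ∧
      ∀ m, (Nat.unpair k).1 ≤ m → x m = true → m ∈ Br B (ζ x)},
      (o.N (Nat.unpair k).2).toList.map fun i => (o.α i).comp (ξ (Nat.unpair k).1)⟩
  have hβ : ∀ (x : C) (M i : ℕ), Inf x → (∀ m, M ≤ m → x m = true → m ∈ Br B (ζ x)) →
      ((o.α i).comp (ξ M)).dom x ∧ ((o.α i).comp (ξ M)).val x = pt (o.α i) (ζ x) := by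
    intro x M i hi hm
    obtain ⟨h1, h2⟩ := hξ M x (ζ x) hi hm
    obtain ⟨-, -, h3, h4⟩ := hLVC Bool ℕ Bool (ξ M) (o.α i) x
    have h5 : ((o.α i).comp (ξ M)).dom x := h3.2 ⟨h1, by rw [h2]; exact o.tot i (ζ x)⟩
    refine ⟨h5, ?_⟩
    rw [h4 h5, h2, pt, if_pos (o.tot i (ζ x))]
  -- the new condition
  let d : Pnt := ⟨c.P ∪ (Fre c ∩ (Tr ∪ E1 B G.γ)),
    c.Q ∪ (Fre c ∩ (((Uc B G.γ \ (Tr ∪ Yn)) ∪ Un B G.γ) ∪ E2 B G.γ)), c.Y ∪ Yn, STM_R c.R N⟩
  have hdP : ∀ x, x ∈ d.P ↔ x ∈ c.P ∨ (x ∈ Fre c ∧ (x ∈ Tr ∨ x ∈ E1 B G.γ)) := fun x => Iff.rfl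
  have hdQ : ∀ x, x ∈ d.Q ↔ x ∈ c.Q ∨ (x ∈ Fre c ∧
      (((x ∈ Uc B G.γ ∧ ¬ (x ∈ Tr ∨ x ∈ Yn)) ∨ x ∈ Un B G.γ) ∨ x ∈ E2 B G.γ)) := fun x => Iff.rfl
  have hdY : ∀ x, x ∈ d.Y ↔ x ∈ c.Y ∨ x ∈ Yn := fun x => Iff.rfl
  have hcls : ∀ x, x ∉ Fre d → x ∉ Fre c ∨
      (x ∈ Uc B G.γ ∨ x ∈ Un B G.γ ∨ x ∈ E1 B G.γ ∨ x ∈ E2 B G.γ) := by
    intro x hx
    by_contra hcon
    push Not at hcon
    obtain ⟨h1, h2, h3, h4, h5⟩ := hcon
    apply hx
    refine ⟨?_, ?_, ?_⟩
    · intro h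
      rcases (hdP x).1 h with h | ⟨-, h | h⟩
      · exact h1.1 h
      · exact h2 (hTrU h)
      · exact h4 h
    · intro h
      rcases (hdQ x).1 h with h | ⟨-, (⟨h, -⟩ | h) | h⟩
      · exact h1.2.1 h
      · exact h2 h
      · exact h3 h
      · exact h5 h
    · intro h
      rcases (hdY x).1 h with h | h
      · exact h1.2.2 h
      · exact h2 h.1
  have hP1 : c.P ⊆ d.P := fun x hx => Or.inl hx
  have hQ1 : c.Q ⊆ d.Q := fun x hx => Or.inl hx
  refine ⟨d, ?_, ⟨hP1, hQ1, fun x hx => Or.inl hx, fun e => ⟨2 * e, STM_R0 c.R N e⟩, ?_⟩, ?_, ?_,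
    ?_, ?_⟩
  · refine
      { dPQ := ?_, dPY := ?_, dQY := ?_, tP := ?_, tQ := ?_, tY := ?_, inf := ?_, bal := ?_,
        fP := ?_, fQ := ?_, fY := ?_, fR := ?_, sub := ?_, tR := ?_ }
    · intro x hx hx'
      rcases (hdP x).1 hx with h | ⟨hf, h⟩
      · rcases (hdQ x).1 hx' with h' | ⟨hf', -⟩
        · exact hc.dPQ x h h'
        · exact hf'.1 h
      · rcases (hdQ x).1 hx' with h' | ⟨-, (⟨hu, hn⟩ | hu) | he⟩
        · exact hf.2.1 h'
        · rcases h with h | h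
          · exact hn (Or.inl h)
          · exact (hdis x (Or.inl hu)).1 h
        · rcases h with h | h
          · exact hUnK x hu (hTrU h)
          · exact (hdis x (Or.inr hu)).1 h
        · rcases h with h | h
          · exact (hdis x (Or.inl (hTrU h))).2 he
          · exact hE12 x h he
    · intro x hx hx'
      rcases (hdP x).1 hx with h | ⟨hf, h⟩
      · rcases hx' with h' | h'
        · exact hc.dPY x h h'
        · exact h'.2.1.1 h
      · rcases hx' with h' | h'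
        · exact hf.2.2 h'
        · rcases h with h | h
          · exact h'.2.2.1 (hTrE x h)
          · exact (hdis x (Or.inl h'.1)).1 h
    · intro x hx hx'
      rcases (hdQ x).1 hx with h | ⟨hf, h⟩
      · rcases hx' with h' | h'
        · exact hc.dQY x h h'
        · exact h'.2.1.2.1 h
      · rcases hx' with h' | h'
        · exact hf.2.2 h'
        · rcases h with (⟨-, h⟩ | h) | h
          · exact h (Or.inr h')
          · exact hUnK x h h'.1
          · exact (hdis x (Or.inl h'.1)).2 h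
    · exact STP_tail_union hc.tP (STP_tail_inter tFre (STP_tail_union tTr tE1))
    · exact STP_tail_union hc.tQ (STP_tail_inter tFre (STP_tail_union (STP_tail_union
        (STP_tail_diff tUc (STP_tail_union tTr tYn)) tUn) tE2))
    · exact STP_tail_union hc.tY tYn
    · intro x hx
      rcases hcls x hx with h | h
      · exact hc.inf x h
      · exact (hInf x h).1
    · intro x hx
      rcases hcls x hx with h | h
      · obtain ⟨⟨y, hy, hs⟩, y', hy', hs'⟩ := hc.bal x h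
        exact ⟨⟨y, hP1 hy, hs⟩, y', hQ1 hy', hs'⟩
      · obtain ⟨-, ⟨y, hy, hs⟩, y', hy', hs'⟩ := hInf x h
        constructor
        · by_cases hyf : y ∈ Fre c
          · exact ⟨y, (hdP y).2 (Or.inr ⟨hyf, Or.inr hy⟩), hs⟩
          · obtain ⟨⟨u, hu, hus⟩, -⟩ := hc.bal y hyf
            exact ⟨u, hP1 hu, fun k hk => hs k (hus k hk)⟩
        · by_cases hyf : y' ∈ Fre c
          · exact ⟨y', (hdQ y').2 (Or.inr ⟨hyf, Or.inr hy'⟩), hs'⟩
          · obtain ⟨-, u, hu, hus⟩ := hc.bal y' hyf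
            exact ⟨u, hQ1 hu, fun k hk => hs' k (hus k hk)⟩
    · exact @MeasurableSet.union _ (STP_mc F hF) _ _ hc.fP (@MeasurableSet.inter _ (STP_mc F hF) _ _
        mFre (@MeasurableSet.union _ (STP_mc F hF) _ _ hTrF (bor _ mE1)))
    · exact @MeasurableSet.union _ (STP_mc F hF) _ _ hc.fQ (@MeasurableSet.inter _ (STP_mc F hF) _ _
        mFre (@MeasurableSet.union _ (STP_mc F hF) _ _ (@MeasurableSet.union _ (STP_mc F hF) _ _
          (@MeasurableSet.diff _ (STP_mc F hF) _ _ (bor _ mUc)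
            (@MeasurableSet.union _ (STP_mc F hF) _ _ hTrF hYnF)) (bor _ mUn)) (bor _ mE2)))
    · exact @MeasurableSet.union _ (STP_mc F hF) _ _ hc.fY hYnF
    · intro e
      rcases STM_Rc c.R N e with ⟨k, -, hk⟩ | ⟨k, -, hk⟩
      · change InB F (STM_R c.R N e).Y
        rw [hk]
        exact hc.fR k
      · change InB F (STM_R c.R N e).Y
        rw [hk]
        have h1 : (N k).Y = Yn ∩ (ζ ⁻¹' (o.D (Nat.unpair k).2) ∩
            {x : C | ∀ m, (Nat.unpair k).1 ≤ m → x m = true → m ∈ Br B (ζ x)}) := by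
          ext x
          exact Iff.rfl
        rw [h1]
        exact @MeasurableSet.inter _ (STP_mc F hF) _ _ hYnF (@MeasurableSet.inter _ (STP_mc F hF) _ _
          (hPre _ ζ (o.hD _) hζm) (bor _ (STM_mIn B _ ζ hζm)))
    · intro e x hx
      rcases STM_Rc c.R N e with ⟨k, -, hk⟩ | ⟨k, -, hk⟩
      · change x ∈ (STM_R c.R N e).Y at hx
        rw [hk] at hx
        exact Or.inl (hc.sub k hx)
      · change x ∈ (STM_R c.R N e).Y at hx
        rw [hk] at hx
        exact Or.inr hx.1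
    · intro A hA e x x' hxx hs
      change ∃ e', Sat A (STM_R c.R N e') x'
      change Sat A (STM_R c.R N e) x at hs
      rcases STM_Rc c.R N e with ⟨k, -, hk⟩ | ⟨k, -, hk⟩
      · rw [hk] at hs
        obtain ⟨e', he'⟩ := hc.tR A hA k x x' hxx hs
        exact ⟨2 * e', by rw [STM_R0]; exact he'⟩
      · rw [hk] at hs
        obtain ⟨⟨hY, hD, hm⟩, hL⟩ := hs
        obtain ⟨K, hK⟩ := id hxx
        have e1 : ζ x' = ζ x := hζt x x' hxx hY.1
        refine ⟨2 * Nat.pair (max (Nat.unpair k).1 K) (Nat.unpair k).2 + 1, ?_⟩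
        rw [STM_R1]
        have hm' : ∀ m, max (Nat.unpair k).1 K ≤ m → x' m = true → m ∈ Br B (ζ x') := by
          intro m h1 h2
          rw [e1]
          refine hm m (le_trans (le_max_left _ _) h1) ?_
          rw [hK m (le_trans (le_max_right _ _) h1)]
          exact h2
        have hi : Inf x := (hUcK x hY.1).1
        have hi' : Inf x' := STP_inf hxx hi
        refine ⟨⟨(tYn x x' hxx).1 hY, ?_, ?_⟩, ?_⟩
        · simp only [Nat.unpair_pair]
          rw [e1]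
          exact hD
        · simp only [Nat.unpair_pair]
          exact hm'
        · intro β hβL
          simp only [N, Nat.unpair_pair] at hβL
          obtain ⟨i, hi1, rfl⟩ := List.mem_map.1 hβL
          obtain ⟨h3, h4⟩ := hβ x' _ i hi' hm'
          refine ⟨h3, ?_⟩
          rw [h4, e1]
          have h5 := (hL ((o.α i).comp (ξ (Nat.unpair k).1)) (List.mem_map.2 ⟨i, hi1, rfl⟩)).2
          rw [(hβ x _ i hi hm).2] at h5
          exact h5
  · intro e x hx hxY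
    rcases STM_Rc c.R N e with ⟨k, -, hk⟩ | ⟨k, -, hk⟩
    · exact ⟨k, hk.symm⟩
    · exfalso
      change x ∈ (STM_R c.R N e).Y at hx
      rw [hk] at hx
      exact hx.1.2.1.2.2 hxY
  · intro x hxF hxU
    exact (hdQ x).2 (Or.inr ⟨hxF, Or.inl (Or.inr hxU)⟩)
  · intro z hzE hz
    classical
    have hex : ∃ n : ℕ, ∃ b : Finset ℕ, Encodable.encode b = n ∧ Gp c o G p (Φ z) ↑b := by
      obtain ⟨b, hb⟩ := hz
      exact ⟨_, b, rfl, hb⟩
    obtain ⟨b, hbe, hb⟩ := Nat.find_spec hex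
    have hmin : ∀ b' : Finset ℕ, Encodable.encode b' < Encodable.encode b →
        ¬ Gp c o G p (Φ z) ↑b' := by
      intro b' hlt hb'
      rw [hbe] at hlt
      exact Nat.find_min hex hlt ⟨b', rfl, hb'⟩
    refine ⟨b, hb, ?_⟩
    intro x hxU hxF hxz
    have hzx : ζ x = z := hζ x z (hUcK x hxU).1 hxz
    constructor
    · rintro ⟨j, hj, hA⟩
      refine (hdP x).2 (Or.inr ⟨hxF, Or.inl ((memTr x).2 ⟨b, hxU, ?_, ?_, j, hj, ?_⟩)⟩)
      · rw [hzx]; exact hzE
      · rw [hzx]; exact ⟨hb, hmin⟩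
      · rw [hzx]; exact hA
    · intro hno
      refine (hdQ x).2 (Or.inr ⟨hxF, Or.inl (Or.inl ⟨hxU, fun hx => ?_⟩)⟩)
      rcases hx with hx | hx
      · apply hno
        obtain ⟨b', -, -, hW, j, hj, hA⟩ := (memTr x).1 hx
        rw [hzx] at hW hA
        have hbb : b' = b := by
          apply Encodable.encode_injective
          rcases lt_trichotomy (Encodable.encode b') (Encodable.encode b) with h | h | h
          · exact absurd hW.1 (hmin b' h)
          · exact h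
          · exact absurd hb (hW.2 b h)
        subst hbb
        exact ⟨j, hj, hA⟩
      · apply hx.2.2.1
        rw [hzx]
        exact hzE
  · intro z hzE x hxU hxF hxz
    have hi : Inf x := (hUcK x hxU).1
    have hzx : ζ x = z := hζ x z hi hxz
    constructor
    · intro hH
      have hY : x ∈ Yn := ⟨hxU, hxF, by rw [hzx]; exact hzE, by rw [hzx]; exact hH⟩
      refine ⟨Or.inr hY, ?_⟩
      rintro A ⟨n, hn, hA⟩
      obtain ⟨K, hK⟩ := hxz
      have hK' : ∀ m, K ≤ m → x m = true → m ∈ Br B (ζ x) := by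
        rw [hzx]
        exact hK
      refine ⟨2 * Nat.pair K n + 1, ?_⟩
      change Sat A (STM_R c.R N (2 * Nat.pair K n + 1)) x
      rw [STM_R1]
      refine ⟨⟨hY, ?_, ?_⟩, ?_⟩
      · simp only [Nat.unpair_pair]
        rw [hzx]
        exact hn
      · simp only [Nat.unpair_pair]
        exact hK'
      · intro β hβL
        simp only [N, Nat.unpair_pair] at hβL
        obtain ⟨i, hi1, rfl⟩ := List.mem_map.1 hβL
        obtain ⟨h3, h4⟩ := hβ x K i hi hK'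
        refine ⟨h3, ?_⟩
        rw [h4, hzx]
        exact hA i (Finset.mem_toList.1 hi1)
    · intro hH
      refine (hdQ x).2 (Or.inr ⟨hxF, Or.inl (Or.inl ⟨hxU, fun hx => ?_⟩)⟩)
      rcases hx with hx | hx
      · apply hzE
        rw [← hzx]
        exact hTrE x hx
      · apply hx.2.2.2
        rw [hzx]
        exact hH
  · intro e x A hxF hs
    change Sat A (STM_R c.R N e) x at hs
    change ∃ z n, z ∉ E ∧ InBr B z x ∧ Inf x ∧ z ∈ o.D n ∧
      ∀ i ∈ o.N n, ∃ β ∈ (STM_R c.R N e).L, β.val x = pt (o.α i) z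
    rcases STM_Rc c.R N e with ⟨k, -, hk⟩ | ⟨k, -, hk⟩
    · rw [hk] at hs
      exact absurd (hc.sub k hs.1) hxF.2.2
    · rw [hk] at hs ⊢
      obtain ⟨⟨hY, hD, hm⟩, -⟩ := hs
      have hi : Inf x := (hUcK x hY.1).1
      refine ⟨ζ x, (Nat.unpair k).2, hY.2.2.1, ⟨_, hm⟩, hi, hD, fun i hi1 => ?_⟩
      exact ⟨(o.α i).comp (ξ (Nat.unpair k).1), List.mem_map.2 ⟨i, Finset.mem_toList.2 hi1, rfl⟩,
        (hβ x _ i hi hm).2⟩

end Pool.LF
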