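import Pool.Agent.Work.MP_f36782_lf.Interface5

set_option autoImplicit false

open MeasureTheory Pool.Agent.Work.RamseyAD

namespace Pool.LF

/-- `InB F` as a measurable space. -/
@[reducible] def STQ_mc (F : Set (Set (ℕ → ℕ))) (h : DetBorel F) : MeasurableSpace C where
  MeasurableSet' := fun P => InB F P
  measurableSet_empty := by
    intro f _
    simpa using h.isOpen ∅ isOpen_empty
  measurableSet_compl := by
    intro P hP f hf
    simpa using h.compl _ (hP f hf)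
  measurableSet_iUnion := by
    intro P hP f hf
    simpa [Set.preimage_iUnion] using h.union (fun n => f ⁻¹' P n) (fun n => hP n f hf)

theorem STQ_tail_union {S T : Set C} (hS : Tail S) (hT : Tail T) : Tail (S ∪ T) := by
  intro x y h
  simp only [Set.mem_union, hS x y h, hT x y h]

theorem STQ_tail_inter {S T : Set C} (hS : Tail S) (hT : Tail T) : Tail (S ∩ T) := by
  intro x y h
  simp only [Set.mem_inter_iff, hS x y h, hT x y h]

theorem STQ_tail_diff {S T : Set C} (hS : Tail S) (hT : Tail T) : Tail (S \ T) := by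
  intro x y h
  simp only [Set.mem_sdiff, hS x y h, hT x y h]

theorem STQ_tail_fre {c : Pnt} (hP : Tail c.P) (hQ : Tail c.Q) (hY : Tail c.Y) : Tail (Fre c) := by
  intro x y h
  simp only [Fre, Set.mem_ofPred_eq, hP x y h, hQ x y h, hY x y h]

theorem STQ_inf {x y : C} (h : ∃ N, ∀ k, N ≤ k → x k = y k) (hx : Inf x) : Inf y := by
  obtain ⟨N, hN⟩ := h
  intro n
  obtain ⟨k, hk, hxk⟩ := hx (max n N)
  exact ⟨k, le_trans (le_max_left _ _) hk, by rw [← hN k (le_trans (le_max_right _ _) hk)]; exact hxk⟩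

theorem STQ_hit {x y : C} {S : Set ℕ} (h : ∃ N, ∀ k, N ≤ k → x k = y k) (hx : Hit x S) : Hit y S := by
  obtain ⟨N, hN⟩ := h
  intro n
  obtain ⟨k, hk, hxk, hS⟩ := hx (max n N)
  exact ⟨k, le_trans (le_max_left _ _) hk,
    by rw [← hN k (le_trans (le_max_right _ _) hk)]; exact hxk, hS⟩

theorem STQ_inBr {B : List ℕ → Set ℕ} {z : ℕ → ℕ} {x y : C} (h : ∃ N, ∀ k, N ≤ k → x k = y k)
    (hx : InBr B z x) : InBr B z y := by
  obtain ⟨N, hN⟩ := h
  obtain ⟨K, hK⟩ := hx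
  refine ⟨max N K, fun m hm hy => hK m (le_trans (le_max_right _ _) hm) ?_⟩
  rw [hN m (le_trans (le_max_left _ _) hm)]
  exact hy

theorem STQ_symm {x y : C} (h : ∃ N, ∀ k, N ≤ k → x k = y k) : ∃ N, ∀ k, N ≤ k → y k = x k := by
  obtain ⟨N, hN⟩ := h
  exact ⟨N, fun k hk => (hN k hk).symm⟩

theorem STQ_cyl (z : ℕ → ℕ) (i : ℕ) : IsOpen {u : ℕ → ℕ | ∀ j ∈ Finset.range i, u j = z j} := by
  have h : {u : ℕ → ℕ | ∀ j ∈ Finset.range i, u j = z j} =
      ⋂ j ∈ Finset.range i, (fun u : ℕ → ℕ => u j) ⁻¹' {z j} := by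
    ext u
    simp
  rw [h]
  exact isOpen_biInter_finset (fun j _ => (isOpen_discrete _).preimage (continuous_apply j))

theorem STQ_hist (z u : ℕ → ℕ) (i : ℕ) (h : ∀ j ∈ Finset.range i, u j = z j) :
    hist u i = hist z i := by
  unfold hist
  apply List.map_congr_left
  intro j hj
  exact h j (by simpa using hj)

theorem STQ_mbr (B : List ℕ → Set ℕ) (m : ℕ) : MeasurableSet {z : ℕ → ℕ | m ∈ Br B z} := by
  apply IsOpen.measurableSet
  rw [isOpen_iff_forall_mem_open]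
  rintro z ⟨i, hi⟩
  refine ⟨{u : ℕ → ℕ | ∀ j ∈ Finset.range i, u j = z j}, ?_, STQ_cyl z i, fun j _ => rfl⟩
  intro u hu
  exact ⟨i, by rw [STQ_hist z u i hu]; exact hi⟩

theorem STQ_len (i : ℕ) : Measurable (fun w : ℕ → ℕ => len w i) := by
  unfold len
  refine Finset.measurable_sum _ fun j _ => ?_
  exact (measurable_from_nat (f := fun n : ℕ => (Nat.unpair n).2)).comp (measurable_pi_apply j)

theorem STQ_own (p k : ℕ) : MeasurableSet {w : ℕ → ℕ | k ∈ own p w} := by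
  have h : {w : ℕ → ℕ | k ∈ own p w} = ⋃ i : ℕ, {w : ℕ → ℕ | i % 2 = p ∧ len w i ≤ k ∧
      k < len w (i + 1)} := by
    ext w
    simp [own]
  rw [h]
  refine MeasurableSet.iUnion fun i => ?_
  by_cases hi : i % 2 = p
  · simp only [hi, true_and]
    exact (measurableSet_le (STQ_len i) measurable_const).inter
      (measurableSet_lt measurable_const (STQ_len (i + 1)))
  · simp [hi]

theorem STQ_mhit (f : C → (ℕ → ℕ)) (hf : Measurable f) :
    MeasurableSet {x : C | Hit x (own 0 (f x))} := by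
  have h : {x : C | Hit x (own 0 (f x))} = ⋂ n : ℕ, ⋃ k : ℕ,
      {x : C | n ≤ k ∧ x k = true ∧ k ∈ own 0 (f x)} := by
    ext x
    simp [Hit]
  rw [h]
  refine MeasurableSet.iInter fun n => MeasurableSet.iUnion fun k => ?_
  by_cases hk : n ≤ k
  · simp only [hk, true_and]
    exact (measurableSet_eq_fun (measurable_pi_apply k) measurable_const).inter
      (hf (STQ_own 0 k))
  · simp [hk]

theorem STQ_mlow (B : List ℕ → Set ℕ) (f : C → (ℕ → ℕ)) (hf : Measurable f) (M : ℕ) :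
    MeasurableSet {x : C | ∀ m, M ≤ m → x m = true → m ∈ Br B (f x)} := by
  have h : {x : C | ∀ m, M ≤ m → x m = true → m ∈ Br B (f x)} =
      ⋂ m : ℕ, {x : C | M ≤ m → x m = true → m ∈ Br B (f x)} := by
    ext x
    simp
  rw [h]
  refine MeasurableSet.iInter fun m => ?_
  by_cases hm : M ≤ m
  · have h2 : {x : C | M ≤ m → x m = true → m ∈ Br B (f x)} =
        {x : C | x m = true}ᶜ ∪ f ⁻¹' {z | m ∈ Br B z} := by
      ext x
      constructor
      · intro hx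
        by_cases hxm : x m = true
        · exact Or.inr (hx hm hxm)
        · exact Or.inl hxm
      · rintro (hx | hx) _ hxm
        · exact absurd hxm hx
        · exact hx
    rw [h2]
    exact (measurableSet_eq_fun (measurable_pi_apply m) measurable_const).compl.union
      (hf (STQ_mbr B m))
  · simp [hm]

theorem p_STQ (hINB : Stmt_INB) (hLVC : Stmt_LVC) (_hLVM : Stmt_LVM) (hZET : Stmt_ZET)
    (hZOF : Stmt_ZOF) (hFRM : Stmt_FRM) : Stmt_STQ := by
  intro F hF c o G hc B Φ hB hΦ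
  obtain ⟨-, -, -, -, -, hBor, hPre⟩ := hINB F hF
  obtain ⟨ζ, hζm, hζ⟩ := hZOF B hB
  choose ζM hζM using hZET B hB
  obtain ⟨⟨mUc, mUn, mE1, mE2⟩, ⟨tUc, tUn, tE1, tE2⟩, hInf, hdis, hE12, -, -⟩ := hFRM B hB G.γ
  have bor : ∀ P : Set C, MeasurableSet P → @MeasurableSet _ (STQ_mc F hF) P :=
    fun P hP => hBor P hP
  have tFre : Tail (Fre c) := STQ_tail_fre hc.tP hc.tQ hc.tY
  have mFre : @MeasurableSet _ (STQ_mc F hF) (Fre c) := by
    have h1 : Fre c = c.Pᶜ ∩ (c.Qᶜ ∩ c.Yᶜ) := by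
      ext x
      simp [Fre]
    rw [h1]
    exact @MeasurableSet.inter _ (STQ_mc F hF) _ _ (@MeasurableSet.compl _ _ (STQ_mc F hF) hc.fP)
      (@MeasurableSet.inter _ (STQ_mc F hF) _ _ (@MeasurableSet.compl _ _ (STQ_mc F hF) hc.fQ)
        (@MeasurableSet.compl _ _ (STQ_mc F hF) hc.fY))
  -- the new reserved sets
  let Yn : Set C := {x | x ∈ Uc B G.γ ∧ x ∈ Fre c ∧ ¬ Hit x (own 0 (Φ (ζ x)))}
  have mYn : @MeasurableSet _ (STQ_mc F hF) Yn := by
    have h1 : Yn = Uc B G.γ ∩ (Fre c ∩ {x : C | Hit x (own 0 (Φ (ζ x)))}ᶜ) := by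
      ext x
      rfl
    rw [h1]
    refine @MeasurableSet.inter _ (STQ_mc F hF) _ _ (bor _ mUc)
      (@MeasurableSet.inter _ (STQ_mc F hF) _ _ mFre (bor _ ?_))
    exact (STQ_mhit (fun x => Φ (ζ x)) (hΦ.measurable.comp hζm)).compl
  have hUcK : ∀ x ∈ Uc B G.γ, Inf x ∧ ∃ z, InBr B z x := fun x hx => hx.1
  have hζt : ∀ x y : C, x ∈ Uc B G.γ → (∃ N, ∀ k, N ≤ k → x k = y k) → ζ x = ζ y := by
    intro x y hx h
    obtain ⟨hi, z, hz⟩ := hUcK x hx
    rw [hζ x z hi hz, hζ y z (STQ_inf h hi) (STQ_inBr h hz)]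
  have keyYn : ∀ x y : C, (∃ N, ∀ k, N ≤ k → x k = y k) → x ∈ Yn → y ∈ Yn := by
    rintro x y h ⟨hU, hf, hn⟩
    refine ⟨(tUc x y h).1 hU, (tFre x y h).1 hf, fun hh => hn ?_⟩
    rw [hζt x y hU h]
    exact STQ_hit (STQ_symm h) hh
  have tYn : Tail Yn := fun x y h => ⟨keyYn x y h, keyYn y x (STQ_symm h)⟩
  have hUnK : ∀ x ∈ Un B G.γ, x ∉ Uc B G.γ := fun x hx hU => hx.1 hU.1
  -- the new rules
  let rul : ℕ → ℕ → Rule := fun M n =>
    ⟨{x | x ∈ Yn ∧ ζ x ∈ o.D n ∧ ∀ m, M ≤ m → x m = true → m ∈ Br B (ζ x)},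
      (o.N n).toList.map fun i => (o.α i).comp (ζM M)⟩
  have hval : ∀ M n x, x ∈ (rul M n).Y → ∀ i, ((o.α i).comp (ζM M)).dom x ∧
      ((o.α i).comp (ζM M)).val x = pt (o.α i) (ζ x) := by
    rintro M n x ⟨⟨hU, -, -⟩, -, hm⟩ i
    obtain ⟨hd, hv⟩ := hζM M x (ζ x) (hUcK x hU).1 hm
    obtain ⟨-, -, h3, h4⟩ := hLVC Bool ℕ Bool (ζM M) (o.α i) x
    have hdom : ((o.α i).comp (ζM M)).dom x := h3.2 ⟨hd, o.tot i _⟩
    refine ⟨hdom, ?_⟩
    rw [h4 hdom, hv, pt, if_pos (o.tot i _)]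
  have hL : ∀ M n β, β ∈ (rul M n).L → ∃ i ∈ o.N n, (o.α i).comp (ζM M) = β := by
    intro M n β hβ
    obtain ⟨i, hi, he⟩ := List.mem_map.1 hβ
    exact ⟨i, Finset.mem_toList.1 hi, he⟩
  have hL' : ∀ M n, ∀ i ∈ o.N n, (o.α i).comp (ζM M) ∈ (rul M n).L := by
    intro M n i hi
    exact List.mem_map.2 ⟨i, Finset.mem_toList.2 hi, rfl⟩
  have hsat : ∀ A M n x, Sat A (rul M n) x ↔ x ∈ (rul M n).Y ∧ ∀ i ∈ o.N n,
      pt (o.α i) (ζ x) ∈ A := by
    intro A M n x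
    constructor
    · rintro ⟨hx, h⟩
      refine ⟨hx, fun i hi => ?_⟩
      have := (h _ (hL' M n i hi)).2
      rwa [(hval M n x hx i).2] at this
    · rintro ⟨hx, h⟩
      refine ⟨hx, fun β hβ => ?_⟩
      obtain ⟨i, hi, rfl⟩ := hL M n β hβ
      refine ⟨(hval M n x hx i).1, ?_⟩
      rw [(hval M n x hx i).2]
      exact h i hi
  let RR : ℕ → Rule := fun t => if t % 2 = 0 then c.R (t / 2) else
    rul (Nat.unpair (t / 2)).1 (Nat.unpair (t / 2)).2
  have hR0 : ∀ e, RR (2 * e) = c.R e := by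
    intro e
    have h1 : 2 * e % 2 = 0 := by omega
    have h2 : 2 * e / 2 = e := by omega
    show (if 2 * e % 2 = 0 then c.R (2 * e / 2) else
      rul (Nat.unpair (2 * e / 2)).1 (Nat.unpair (2 * e / 2)).2) = c.R e
    rw [if_pos h1, h2]
  have hR1 : ∀ M n, RR (2 * Nat.pair M n + 1) = rul M n := by
    intro M n
    have h1 : ¬ (2 * Nat.pair M n + 1) % 2 = 0 := by omega
    have h2 : (2 * Nat.pair M n + 1) / 2 = Nat.pair M n := by omega
    show (if (2 * Nat.pair M n + 1) % 2 = 0 then c.R ((2 * Nat.pair M n + 1) / 2) else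
      rul (Nat.unpair ((2 * Nat.pair M n + 1) / 2)).1
        (Nat.unpair ((2 * Nat.pair M n + 1) / 2)).2) = rul M n
    rw [if_neg h1, h2, Nat.unpair_pair]
  have hRt : ∀ t, (∃ e, RR t = c.R e) ∨ ∃ M n, RR t = rul M n := by
    intro t
    by_cases h : t % 2 = 0
    · exact Or.inl ⟨t / 2, if_pos h⟩
    · exact Or.inr ⟨_, _, if_neg h⟩
  -- the new condition
  let d : Pnt := ⟨c.P ∪ (Fre c ∩ E1 B G.γ),
    c.Q ∪ (Fre c ∩ (((Uc B G.γ \ Yn) ∪ Un B G.γ) ∪ E2 B G.γ)), c.Y ∪ Yn, RR⟩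
  have hdP : ∀ x, x ∈ d.P ↔ x ∈ c.P ∨ (x ∈ Fre c ∧ x ∈ E1 B G.γ) := fun x => Iff.rfl
  have hdQ : ∀ x, x ∈ d.Q ↔ x ∈ c.Q ∨ (x ∈ Fre c ∧
      (((x ∈ Uc B G.γ ∧ x ∉ Yn) ∨ x ∈ Un B G.γ) ∨ x ∈ E2 B G.γ)) := fun x => Iff.rfl
  have hdY : ∀ x, x ∈ d.Y ↔ x ∈ c.Y ∨ x ∈ Yn := fun x => Iff.rfl
  have hcls : ∀ x, x ∉ Fre d → x ∉ Fre c ∨
      (x ∈ Uc B G.γ ∨ x ∈ Un B G.γ ∨ x ∈ E1 B G.γ ∨ x ∈ E2 B G.γ) := by
    intro x hx
    by_contra hcon
    push Not at hcon
    obtain ⟨h1, h2, h3, h4, h5⟩ := hcon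
    apply hx
    refine ⟨?_, ?_, ?_⟩
    · intro h
      rcases (hdP x).1 h with h | ⟨-, h⟩
      · exact h1.1 h
      · exact h4 h
    · intro h
      rcases (hdQ x).1 h with h | ⟨-, (⟨h, -⟩ | h) | h⟩
      · exact h1.2.1 h
      · exact h2 h
      · exact h3 h
      · exact h5 h
    · intro h
      rcases (hdY x).1 h with h | h
      · exact h1.2.2 h
      · exact h2 h.1
  have hP1 : c.P ⊆ d.P := fun x hx => Or.inl hx
  have hQ1 : c.Q ⊆ d.Q := fun x hx => Or.inl hx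
  refine ⟨d, ?_, ⟨hP1, hQ1, fun x hx => Or.inl hx, fun e => ⟨2 * e, hR0 e⟩, ?_⟩, ?_, ?_, ?_⟩
  · refine
      { dPQ := ?_, dPY := ?_, dQY := ?_, tP := ?_, tQ := ?_, tY := ?_, inf := ?_, bal := ?_,
        fP := ?_, fQ := ?_, fY := ?_, fR := ?_, sub := ?_, tR := ?_ }
    · intro x hx hx'
      rcases (hdP x).1 hx with h | ⟨hf, h⟩
      · rcases (hdQ x).1 hx' with h' | ⟨hf', -⟩
        · exact hc.dPQ x h h'
        · exact hf'.1 h
      · rcases (hdQ x).1 hx' with h' | ⟨-, (⟨hu, hn⟩ | hu) | he⟩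
        · exact hf.2.1 h'
        · exact (hdis x (Or.inl hu)).1 h
        · exact (hdis x (Or.inr hu)).1 h
        · exact hE12 x h he
    · intro x hx hx'
      rcases (hdP x).1 hx with h | ⟨hf, h⟩
      · rcases (hdY x).1 hx' with h' | h'
        · exact hc.dPY x h h'
        · exact h'.2.1.1 h
      · rcases (hdY x).1 hx' with h' | h'
        · exact hf.2.2 h'
        · exact (hdis x (Or.inl h'.1)).1 h
    · intro x hx hx'
      rcases (hdQ x).1 hx with h | ⟨hf, h⟩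
      · rcases (hdY x).1 hx' with h' | h'
        · exact hc.dQY x h h'
        · exact h'.2.1.2.1 h
      · rcases (hdY x).1 hx' with h' | h'
        · exact hf.2.2 h'
        · rcases h with (⟨-, hn⟩ | hu) | he
          · exact hn h'
          · exact hUnK x hu h'.1
          · exact (hdis x (Or.inl h'.1)).2 he
    · exact STQ_tail_union hc.tP (STQ_tail_inter tFre tE1)
    · exact STQ_tail_union hc.tQ (STQ_tail_inter tFre (STQ_tail_union (STQ_tail_union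
        (STQ_tail_diff tUc tYn) tUn) tE2))
    · exact STQ_tail_union hc.tY tYn
    · intro x hx
      rcases hcls x hx with h | h
      · exact hc.inf x h
      · exact (hInf x h).1
    · intro x hx
      rcases hcls x hx with h | h
      · obtain ⟨⟨y, hy, hs⟩, y', hy', hs'⟩ := hc.bal x h
        exact ⟨⟨y, hP1 hy, hs⟩, y', hQ1 hy', hs'⟩
      · obtain ⟨-, ⟨y, hy, hs⟩, y', hy', hs'⟩ := hInf x h
        constructor
        · by_cases hyf : y ∈ Fre c
          · exact ⟨y, (hdP y).2 (Or.inr ⟨hyf, hy⟩), hs⟩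
          · obtain ⟨⟨u, hu, hus⟩, -⟩ := hc.bal y hyf
            exact ⟨u, hP1 hu, fun k hk => hs k (hus k hk)⟩
        · by_cases hyf : y' ∈ Fre c
          · exact ⟨y', (hdQ y').2 (Or.inr ⟨hyf, Or.inr hy'⟩), hs'⟩
          · obtain ⟨-, u, hu, hus⟩ := hc.bal y' hyf
            exact ⟨u, hQ1 hu, fun k hk => hs' k (hus k hk)⟩
    · exact @MeasurableSet.union _ (STQ_mc F hF) _ _ hc.fP (@MeasurableSet.inter _ (STQ_mc F hF) _ _
        mFre (bor _ mE1))
    · exact @MeasurableSet.union _ (STQ_mc F hF) _ _ hc.fQ (@MeasurableSet.inter _ (STQ_mc F hF) _ _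
        mFre (@MeasurableSet.union _ (STQ_mc F hF) _ _ (@MeasurableSet.union _ (STQ_mc F hF) _ _
          (@MeasurableSet.diff _ (STQ_mc F hF) _ _ (bor _ mUc) mYn) (bor _ mUn)) (bor _ mE2)))
    · exact @MeasurableSet.union _ (STQ_mc F hF) _ _ hc.fY mYn
    · intro t
      show @MeasurableSet _ (STQ_mc F hF) (RR t).Y
      rcases hRt t with ⟨e, he⟩ | ⟨M, n, he⟩
      · rw [he]; exact hc.fR e
      · rw [he]
        have h1 : (rul M n).Y = Yn ∩ (ζ ⁻¹' o.D n ∩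
            {x : C | ∀ m, M ≤ m → x m = true → m ∈ Br B (ζ x)}) := by
          ext x
          rfl
        rw [h1]
        exact @MeasurableSet.inter _ (STQ_mc F hF) _ _ mYn
          (@MeasurableSet.inter _ (STQ_mc F hF) _ _ (hPre (o.D n) ζ (o.hD n) hζm)
            (bor _ (STQ_mlow B ζ hζm M)))
    · intro t x hx
      have hx' : x ∈ (RR t).Y := hx
      rcases hRt t with ⟨e, he⟩ | ⟨M, n, he⟩
      · rw [he] at hx'; exact Or.inl (hc.sub e hx')
      · rw [he] at hx'; exact Or.inr hx'.1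
    · intro A hA t x x' hxx hs
      have hs' : Sat A (RR t) x := hs
      show ∃ e', Sat A (RR e') x'
      rcases hRt t with ⟨e, he⟩ | ⟨M, n, he⟩
      · rw [he] at hs'
        obtain ⟨e', he'⟩ := hc.tR A hA e x x' hxx hs'
        exact ⟨2 * e', by rw [hR0]; exact he'⟩
      · rw [he, hsat] at hs'
        obtain ⟨⟨hY, hD, hm⟩, hp⟩ := hs'
        obtain ⟨K, hK⟩ := hxx
        have hζx : ζ x = ζ x' := hζt x x' hY.1 ⟨K, hK⟩
        refine ⟨2 * Nat.pair (max M K) n + 1, ?_⟩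
        rw [hR1, hsat]
        refine ⟨⟨keyYn x x' ⟨K, hK⟩ hY, by rw [← hζx]; exact hD, ?_⟩, ?_⟩
        · intro m hmm hxm
          rw [← hζx]
          apply hm m (le_trans (le_max_left _ _) hmm)
          rw [hK m (le_trans (le_max_right _ _) hmm)]
          exact hxm
        · rw [← hζx]
          exact hp
  · intro t x hx hxY
    have hx' : x ∈ (RR t).Y := hx
    rcases hRt t with ⟨e, he⟩ | ⟨M, n, he⟩
    · exact ⟨e, he.symm⟩
    · rw [he] at hx'
      exact absurd hxY hx'.1.2.1.2.2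
  · intro x hx
    refine ⟨fun h => Or.inr ⟨hx, Or.inl (Or.inr h)⟩, fun h hn => Or.inr ⟨hx, Or.inl (Or.inl ⟨h, ?_⟩)⟩⟩
    exact fun h' => hn (Or.inr h')
  · intro x hx z hU hz hno
    have hζx : ζ x = z := hζ x z (hUcK x hU).1 hz
    have hY : x ∈ Yn := ⟨hU, hx, by rw [hζx]; exact hno⟩
    refine ⟨Or.inr hY, ?_⟩
    rintro A ⟨n, hn, hi⟩
    obtain ⟨K, hK⟩ := hz
    refine ⟨2 * Nat.pair K n + 1, ?_⟩
    show Sat A (RR (2 * Nat.pair K n + 1)) x
    rw [hR1, hsat]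
    refine ⟨⟨hY, by rw [hζx]; exact hn, by rw [hζx]; exact hK⟩, by rw [hζx]; exact hi⟩
  · intro t x A hx hs
    have hs' : Sat A (RR t) x := hs
    show ∃ z n, InBr B z x ∧ Inf x ∧ z ∈ o.D n ∧ ∀ i ∈ o.N n, ∃ β ∈ (RR t).L,
      β.val x = pt (o.α i) z
    rcases hRt t with ⟨e, he⟩ | ⟨M, n, he⟩
    · rw [he] at hs'
      exact absurd (hc.sub e hs'.1) hx.2.2
    · rw [he] at hs' ⊢
      obtain ⟨hY, -⟩ := hs'
      refine ⟨ζ x, n, ⟨M, hY.2.2⟩, (hUcK x hY.1.1).1, hY.2.1, fun i hi => ?_⟩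
      exact ⟨_, hL' M n i hi, (hval M n x hY i).2⟩

end Pool.LF
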