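import Pool.Agent.Work.MP_f36782_lf.Interface6
import Pool.Agent.Work.MP_f36782_lf.B_STJ

set_option autoImplicit false

/-! # Block STT: the runs in which `p` is not the attacker (adapted from STJ of helper79) -/

open MeasureTheory Pool.Agent.Work.RamseyAD

namespace Pool.LF

theorem STT_mem (w : ℕ → ℕ) (hlen : ∀ N, ∃ i, N ≤ len w i) (p : ℕ) (hp : p < 2) (m : ℕ) :
    m ∈ own (1 - p) w ∨ m ∈ own p w := by
  have h := OWN_mem w hlen m
  have h2 : p = 0 ∨ p = 1 := by omega
  rcases h2 with rfl | rfl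
  · exact h.symm
  · exact h

/-- A set which meets the branch of `z` infinitely often and is almost contained in the branch of
`z'`. -/
theorem STT_eq (hBRF : Stmt_BRF) {B : List ℕ → Set ℕ} (hB : Blk B) {z z' : ℕ → ℕ} {x : C}
    (h1 : Hit x (Br B z)) (g1 : InBr B z' x) : z = z' := by
  by_contra hzz
  obtain ⟨K', hK'⟩ := g1
  obtain ⟨M, hM⟩ := (hBRF B hB z z' hzz).bddAbove
  obtain ⟨k, h2, h3, h4⟩ := h1 (max K' (M + 1))
  have h5 := hM ⟨h4, hK' k ((le_max_left _ _).trans h2) h3⟩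
  have h6 := (le_max_right K' (M + 1)).trans h2
  omega

theorem p_STT (_hOWN : Stmt_OWN) (hBRF : Stmt_BRF) (hFMA : Stmt_FMA)
    (hLVC : Stmt_LVC) (hCLF : Stmt_CLF) (hFRM : Stmt_FRM) : Stmt_STT := by
  intro F c o G hc p hp B z w hB hmv hlen hK0 hT d hd hle q1 q2 q3 A hA hzop
  have hpp : 1 - (1 - p) = p := by omega
  obtain ⟨lP, lQ, lY, lR, lN⟩ := hle
  obtain ⟨K, hK⟩ := hK0
  obtain ⟨-, -, -, -, -, f6, -⟩ := hFRM B hB G.γ
  obtain ⟨hfst, hnsnd⟩ := hzop
  -- closure of `A`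
  have hAcl : ∀ e x, Sat A (d.R e) x → x ∈ A := by
    intro e x hx
    rw [hA.cl]
    exact Cl.step e x hx.1 (fun β hβ => (hx.2 β hβ).1) (fun β hβ => (hA.cl _).1 (hx.2 β hβ).2)
  have hAcl' : ∀ e x, x ∈ (c.R e).Y → (∀ β ∈ (c.R e).L, β.dom x) →
      (∀ β ∈ (c.R e).L, β.val x ∈ A) → x ∈ A := by
    intro e x h1 h2 h3
    obtain ⟨e', he'⟩ := lR e
    refine hAcl e' x ?_
    rw [he']
    exact ⟨h1, fun β hβ => ⟨h2 β hβ, h3 β hβ⟩⟩
  -- the ports of the attacker in `A`
  set bA : Set ℕ := {i | i ∈ PuE c G.γ (1 - p) w ∧ pt (G.γ i) z ∈ A} with hbA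
  have hbAm : ∀ i, Inf (pt (G.γ i) z) → ¬ Hit (pt (G.γ i) z) (own p w) →
      pt (G.γ i) z ∈ Fre c → pt (G.γ i) z ∈ A → i ∈ bA := by
    intro i h1 h2 h3 h4
    refine ⟨?_, h4⟩
    change Inf (pt (G.γ i) (mv w)) ∧ ¬ Hit (pt (G.γ i) (mv w)) (own (1 - (1 - p)) w) ∧
      pt (G.γ i) (mv w) ∈ Fre c
    rw [hmv, hpp]
    exact ⟨h1, h2, h3⟩
  have hH1 : ∀ x : C, Hit x (own p w) → Hit x (Br B z) := fun x h => STJ_hit h ⟨K, hK⟩
  -- CLAIM 1
  have claim1 : o.fst z {x | Cl c.R (c.P ∪ SbE G.γ z bA) x} := by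
    by_contra hn
    have key : ∀ x, Cl d.R (A \ d.Y) x → ∀ i, x = pt (G.γ i) z →
        Cl c.R (c.P ∪ SbE G.γ z bA) x := by
      intro x hx
      induction hx with
      | base x hx =>
        intro i hi
        by_cases hP : x ∈ c.P
        · exact Cl.base x (Or.inl hP)
        · have hfr : x ∈ Fre c :=
            ⟨hP, fun h => hA.disQ x hx.1 (lQ h), fun h => hx.2 (lY h)⟩
          have hinf : Inf x := hA.inf x hx.1
          have hnh : ¬ Hit x (own p w) := by
            intro h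
            have h1 := hH1 x h
            have h2 : x ∈ Uc B G.γ ∨ x ∈ Un B G.γ := by
              rw [hi] at h1 ⊢
              exact f6 i z h1
            rcases h2 with h2 | h2
            · obtain ⟨-, z', g1⟩ := h2.1
              have hzz := STT_eq hBRF hB h1 g1
              subst hzz
              obtain ⟨r1, r2⟩ := q2 x h2 hfr g1
              by_cases hh : Hit x (own (1 - p) w)
              · exact hA.disQ x hx.1 (r2 hh)
              · exact hx.2 (r1 hh).1
            · exact hA.disQ x hx.1 (q1 x hfr h2)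
          refine Cl.base x (Or.inr ⟨i, ?_, ?_⟩)
          · rw [hi] at hinf hnh hfr
            exact hbAm i hinf hnh hfr (hi ▸ hx.1)
          · rw [hi]
            exact STJ_refl _
      | step e x hxY hdom hcl ih =>
        intro i hi
        have hSat : Sat A (d.R e) x := ⟨hxY, fun β hβ => ⟨hdom β hβ, (hA.cl _).2 (hcl β hβ)⟩⟩
        have hxA : x ∈ A := hAcl e x hSat
        have hinf : Inf x := hA.inf x hxA
        by_cases hY : x ∈ c.Y
        · obtain ⟨e0, he0⟩ := lN e x hxY hY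
          refine Cl.step e0 x (by rw [he0]; exact hxY) (by rw [he0]; exact hdom) ?_
          intro β hβ
          obtain ⟨j', hj'⟩ := G.clos i e0 β hβ
          rw [he0] at hβ
          refine ih β hβ j' ?_
          rw [hj', hi]
          rw [hi] at hinf
          exact (STJ_port hLVC hinf (hi ▸ hdom β hβ)).symm
        · have hdY : x ∈ d.Y := hd.sub e hxY
          have hfr : x ∈ Fre c :=
            ⟨fun h => hd.dPY x (lP h) hdY, fun h => hd.dQY x (lQ h) hdY, hY⟩
          obtain ⟨z', n, g1, -, g3, g4⟩ := q3 e x A hfr hSat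
          by_cases hzz : z = z'
          · subst hzz
            exfalso
            refine hn ⟨n, g3, fun i' hi' => ?_⟩
            obtain ⟨β, hβ, h1⟩ := g4 i' hi'
            have h2 : β.val x = pt (G.γ (G.ι i')) z := by rw [h1, G.base]
            have h3 := ih β hβ (G.ι i') h2
            rw [h1] at h3
            exact h3
          · have hnh : ¬ Hit x (own p w) := fun h => hzz (STT_eq hBRF hB (hH1 x h) g1)
            refine Cl.base x (Or.inr ⟨i, ?_, ?_⟩)
            · rw [hi] at hinf hnh hfr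
              exact hbAm i hinf hnh hfr (hi ▸ hxA)
            · rw [hi]
              exact STJ_refl _
    obtain ⟨n, h1, h2⟩ := hfst
    refine hn ⟨n, h1, fun i hi => ?_⟩
    exact key _ ((hA.cl _).1 (h2 i hi)) (G.ι i) (by rw [G.base])
  -- CLAIM 2
  have claim2 : ∃ b : Finset ℕ, ↑b ⊆ bA ∧ o.fst z {x | Cl c.R (c.P ∪ SbE G.γ z ↑b) x} := by
    classical
    obtain ⟨n, h1, h2⟩ := claim1
    have h3 : ∀ i ∈ o.N n, ∃ b : Finset ℕ, ↑b ⊆ bA ∧
        Cl c.R (c.P ∪ SbE G.γ z ↑b) (pt (o.α i) z) := by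
      intro i hi
      obtain ⟨S₀, s1, s2, s3⟩ := (hCLF ℕ c.R).2 _ _ (h2 i hi)
      obtain ⟨b, b1, b2⟩ := STJ_fin G.γ z c.P bA S₀ s1 s2
      exact ⟨b, b1, (hCLF ℕ c.R).1 _ _ b2 _ s3⟩
    choose! g hg1 hg2 using h3
    refine ⟨(o.N n).biUnion g, ?_, n, h1, ?_⟩
    · intro j hj
      rw [Finset.mem_coe, Finset.mem_biUnion] at hj
      obtain ⟨i, hi, hj⟩ := hj
      exact hg1 i hi hj
    · intro i hi
      refine (hCLF ℕ c.R).1 _ _ (Set.union_subset_union_right _ (STJ_mono ?_)) _ (hg2 i hi)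
      intro j hj
      rw [Finset.mem_coe, Finset.mem_biUnion]
      exact ⟨i, hi, hj⟩
  obtain ⟨b, hb1, hb2⟩ := claim2
  have hsnd : o.snd z {x | Cl c.R (c.P ∪ SbE G.γ z ↑b ∪ SbE G.γ z (PuE c G.γ p w)) x} := by
    by_contra hns
    refine hT b ?_
    change ↑b ⊆ PuE c G.γ (1 - p) w ∧
      o.fst (mv w) {x | Cl c.R (c.P ∪ SbE G.γ (mv w) ↑b) x} ∧
      ¬ o.snd (mv w) {x | Cl c.R (c.P ∪ SbE G.γ (mv w) ↑b ∪
        SbE G.γ (mv w) (PuE c G.γ (1 - (1 - p)) w)) x}
    rw [hmv, hpp]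
    exact ⟨fun j hj => (hb1 hj).1, hb2, hns⟩
  -- CLAIM 3
  have claim3 : ∀ x, Cl c.R (c.P ∪ SbE G.γ z ↑b ∪ SbE G.γ z (PuE c G.γ p w)) x → x ∈ A := by
    intro x hx
    induction hx with
    | base x hx =>
      rcases hx with (hx | ⟨j, hj, he⟩) | ⟨j, hj, he⟩
      · exact hA.subP (lP hx)
      · exact (hA.tail _ _ he).2 (hb1 hj).2
      · refine (hA.tail _ _ he).2 ?_
        have hj' : Inf (pt (G.γ j) (mv w)) ∧ ¬ Hit (pt (G.γ j) (mv w)) (own (1 - p) w) ∧
          pt (G.γ j) (mv w) ∈ Fre c := hj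
        rw [hmv] at hj'
        obtain ⟨j1, j2, j3⟩ := hj'
        have hin : InBr B z (pt (G.γ j) z) := by
          have h1 : ∃ n, ∀ k, n ≤ k → pt (G.γ j) z k = true → k ∉ own (1 - p) w := by
            unfold Hit at j2
            push Not at j2
            exact j2
          obtain ⟨n, hn⟩ := h1
          refine ⟨max n K, fun m hm hm1 => ?_⟩
          rcases STT_mem w hlen p hp m with h2 | h2
          · exact absurd h2 (hn m ((le_max_left _ _).trans hm) hm1)
          · exact hK m h2 ((le_max_right _ _).trans hm)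
        have hhit : Hit (pt (G.γ j) z) (Br B z) := by
          obtain ⟨K', hK'⟩ := hin
          intro n
          obtain ⟨k, k1, k2⟩ := j1 (max n K')
          exact ⟨k, (le_max_left _ _).trans k1, k2, hK' k ((le_max_right _ _).trans k1) k2⟩
        have huc : pt (G.γ j) z ∈ Uc B G.γ := by
          rcases f6 j z hhit with h1 | h1
          · exact h1
          · exact absurd ⟨j1, z, hin⟩ h1.1
        obtain ⟨-, h2⟩ := (q2 _ huc j3 hin).1 j2
        obtain ⟨e, he'⟩ := h2 A hfst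
        exact hAcl e _ he'
    | step e x hxY hdom _ ih => exact hAcl' e x hxY hdom ih
  exact hnsnd ((hFMA _ _ o.φ).2 _ _ _ (fun i _ hi => claim3 _ hi) hsnd)

end Pool.LF
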