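import Pool.Agent.Work.MP_f36782_lf.Interface

set_option autoImplicit false

/-!
# Block WLF: Wolfe's theorem (games with a countable union of closed sets are determined)
-/

open MeasureTheory Pool.Agent.Work.RamseyAD

namespace Pool.LF

theorem WLF_len (z : ℕ → ℕ) (n : ℕ) : (hist z n).length = n := by
  simp [hist]

theorem WLF_hist {y z : ℕ → ℕ} {n : ℕ} : hist y n = hist z n ↔ ∀ k < n, y k = z k := by
  unfold hist
  rw [List.map_inj_left]
  simp

theorem WLF_getD (z : ℕ → ℕ) (n k : ℕ) (h : k < n) : (hist z n).getD k 0 = z k := by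
  simp [hist, h]

open Classical in
/-- The beginning of the current phase. -/
noncomputable def WLF_st (U : ℕ → Set (List ℕ)) (idx : List ℕ → ℕ) (z : ℕ → ℕ) : ℕ → List ℕ
  | 0 => []
  | i + 1 => if hist z (i + 1) ∈ U (idx (WLF_st U idx z i)) then hist z (i + 1)
      else WLF_st U idx z i

theorem WLF_congr (U : ℕ → Set (List ℕ)) (idx : List ℕ → ℕ) (z z' : ℕ → ℕ) :
    ∀ i : ℕ, (∀ k < i, z k = z' k) → WLF_st U idx z i = WLF_st U idx z' i := by
  intro i
  induction i with
  | zero => intro _; rfl
  | succ i ih =>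
    intro h
    have h1 := ih (fun k hk => h k (by omega))
    have h2 : hist z (i + 1) = hist z' (i + 1) := WLF_hist.2 h
    unfold WLF_st
    rw [h1, h2]

theorem WLF_basic (U : ℕ → Set (List ℕ)) (idx : List ℕ → ℕ) (z : ℕ → ℕ) (i : ℕ) :
    WLF_st U idx z i = hist z (WLF_st U idx z i).length ∧ (WLF_st U idx z i).length ≤ i ∧
      ∀ j, (WLF_st U idx z i).length ≤ j → j ≤ i → WLF_st U idx z j = WLF_st U idx z i := by
  induction i with
  | zero =>
    refine ⟨rfl, le_rfl, fun j _ hj => ?_⟩
    have : j = 0 := by omega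
    rw [this]
  | succ i ih =>
    by_cases h : hist z (i + 1) ∈ U (idx (WLF_st U idx z i))
    · have h1 : WLF_st U idx z (i + 1) = hist z (i + 1) := by
        conv_lhs => unfold WLF_st
        rw [if_pos h]
      rw [h1, WLF_len]
      refine ⟨rfl, le_rfl, fun j hj hj' => ?_⟩
      have : j = i + 1 := by omega
      rw [this, h1]
    · have h1 : WLF_st U idx z (i + 1) = WLF_st U idx z i := by
        conv_lhs => unfold WLF_st
        rw [if_neg h]
      rw [h1]
      refine ⟨ih.1, by omega, fun j hj hj' => ?_⟩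
      rcases Nat.lt_or_ge i j with h2 | h2
      · have : j = i + 1 := by omega
        rw [this, h1]
      · exact ih.2.2 j hj h2

theorem WLF_inv (U : ℕ → Set (List ℕ)) (idx : List ℕ → ℕ) (z : ℕ → ℕ) (Pr : List ℕ → Prop)
    (h0 : Pr []) (hU : ∀ n, ∀ p ∈ U n, Pr p) (i : ℕ) : Pr (WLF_st U idx z i) := by
  induction i with
  | zero => exact h0
  | succ i ih =>
    by_cases h : hist z (i + 1) ∈ U (idx (WLF_st U idx z i))
    · have h1 : WLF_st U idx z (i + 1) = hist z (i + 1) := by
        conv_lhs => unfold WLF_st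
        rw [if_pos h]
      rw [h1]
      exact hU _ _ h
    · have h1 : WLF_st U idx z (i + 1) = WLF_st U idx z i := by
        conv_lhs => unfold WLF_st
        rw [if_neg h]
      rw [h1]
      exact ih

theorem p_WLF (hOPN : Stmt_OPN) : Stmt_WLF := by
  classical
  intro F hF
  obtain ⟨A, hA⟩ : ∃ A, A = ⋃ n, F n := ⟨_, rfl⟩
  rw [← hA]
  have hFA : ∀ n, F n ⊆ A := fun n => by
    rw [hA]
    exact Set.subset_iUnion F n
  by_cases hw : WinI A []
  · left
    obtain ⟨S, hS⟩ := hw
    refine ⟨S, fun z hz => hS z rfl fun i _ hi => ?_⟩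
    obtain ⟨n, rfl⟩ : ∃ n, i = 2 * n := ⟨i / 2, by omega⟩
    exact hz n
  · right
    -- initial segments of points of `F n`
    obtain ⟨In, hIn⟩ : ∃ In : ℕ → List ℕ → Prop,
        ∀ n p, In n p ↔ ∃ y ∈ F n, hist y p.length = p :=
      ⟨fun n p => ∃ y ∈ F n, hist y p.length = p, fun _ _ => Iff.rfl⟩
    obtain ⟨U, hU⟩ : ∃ U : ℕ → Set (List ℕ), ∀ n, U n =
        {q | ¬ WinI A q ∧ ∀ z ∈ F n, hist z q.length ≠ q} := ⟨_, fun _ => rfl⟩
    have hUIn : ∀ n p, p ∈ U n → ¬ WinI A p ∧ ¬ In n p := by
      intro n p hp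
      rw [hU] at hp
      refine ⟨hp.1, fun h => ?_⟩
      obtain ⟨y, hy, hyp⟩ := (hIn n p).1 h
      exact hp.2 y hy hyp
    have hmono : ∀ n (z : ℕ → ℕ) (a b : ℕ), a ≤ b → In n (hist z b) → In n (hist z a) := by
      intro n z a b hab h
      obtain ⟨y, hy, hyp⟩ := (hIn _ _).1 h
      rw [WLF_len] at hyp
      refine (hIn _ _).2 ⟨y, hy, ?_⟩
      rw [WLF_len, WLF_hist]
      intro k hk
      exact WLF_hist.1 hyp k (by omega)
    have hS : ∀ (n : ℕ) (q : List ℕ), ∃ S : List ℕ → ℕ, ¬ WinI A q → ∀ z : ℕ → ℕ,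
        hist z q.length = q → (∀ i, q.length ≤ i → i % 2 = 1 → z i = S (hist z i)) →
        ∃ m, q.length ≤ m ∧ hist z m ∈ U n := by
      intro n q
      by_cases hq : WinI A q
      · exact ⟨fun _ => 0, fun h => absurd hq h⟩
      · obtain ⟨S, hS⟩ := hOPN A (F n) (hF n) (hFA n) q hq
        refine ⟨S, fun _ => ?_⟩
        rw [hU]
        exact hS
    choose S hS using hS
    obtain ⟨idx, hidx⟩ : ∃ idx : List ℕ → ℕ, ∀ q, idx q = sInf {n | In n q} :=
      ⟨fun q => sInf {n | In n q}, fun _ => rfl⟩
    refine ⟨fun p => S (idx (WLF_st U idx (fun k => p.getD k 0) p.length))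
      (WLF_st U idx (fun k => p.getD k 0) p.length) p, fun z hz hzA => ?_⟩
    rw [hA] at hzA
    obtain ⟨n₀, hn₀⟩ := Set.mem_iUnion.1 hzA
    have hst : ∀ i, i % 2 = 1 → z i = S (idx (WLF_st U idx z i)) (WLF_st U idx z i) (hist z i) := by
      intro i hi
      obtain ⟨n, rfl⟩ : ∃ n, i = 2 * n + 1 := ⟨i / 2, by omega⟩
      have h1 := hz n
      have h2 : WLF_st U idx (fun k => (hist z (2 * n + 1)).getD k 0) (2 * n + 1) =
          WLF_st U idx z (2 * n + 1) :=
        WLF_congr U idx _ _ _ fun k hk => WLF_getD z _ k hk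
      simp only [WLF_len] at h1
      rw [h2] at h1
      exact h1
    have hInz : ∀ i, In n₀ (hist z i) := fun i =>
      (hIn _ _).2 ⟨z, hn₀, by rw [WLF_len]⟩
    have hIdx : ∀ i, In (idx (hist z i)) (hist z i) ∧ idx (hist z i) ≤ n₀ := by
      intro i
      rw [hidx]
      exact ⟨Nat.sInf_mem (s := {n | In n (hist z i)}) ⟨n₀, hInz i⟩, Nat.sInf_le (hInz i)⟩
    have hnW : ∀ i, ¬ WinI A (WLF_st U idx z i) :=
      WLF_inv U idx z (fun p => ¬ WinI A p) hw (fun n p hp => (hUIn n p hp).1)
    have key : ∀ k : ℕ, ∃ i, k ≤ idx (WLF_st U idx z i) := by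
      intro k
      induction k with
      | zero => exact ⟨0, Nat.zero_le _⟩
      | succ k ih =>
        obtain ⟨i, hi⟩ := ih
        obtain ⟨q, hq⟩ : ∃ q, q = WLF_st U idx z i := ⟨_, rfl⟩
        obtain ⟨b1, b2, b3⟩ := WLF_basic U idx z i
        rw [← hq] at hi b1 b2 b3
        -- the phase ends
        obtain ⟨j, hj, hjU⟩ : ∃ j, WLF_st U idx z j = q ∧ hist z (j + 1) ∈ U (idx q) := by
          by_contra hcon
          push Not at hcon
          have hall : ∀ d, WLF_st U idx z (i + d) = q := by
            intro d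
            induction d with
            | zero => exact hq.symm
            | succ d ihd =>
              have h1 := hcon _ ihd
              have h2 : WLF_st U idx z (i + (d + 1)) = WLF_st U idx z (i + d) := by
                conv_lhs => rw [← add_assoc]; unfold WLF_st
                rw [ihd, if_neg h1]
              rw [h2, ihd]
          have hall' : ∀ j, q.length ≤ j → WLF_st U idx z j = q := by
            intro j hj
            rcases Nat.lt_or_ge j i with h1 | h1
            · exact b3 j hj h1.le
            · obtain ⟨d, rfl⟩ := Nat.exists_eq_add_of_le h1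
              exact hall d
          have hnWq : ¬ WinI A q := by
            rw [hq]
            exact hnW i
          obtain ⟨m, hm1, hm2⟩ := hS (idx q) q hnWq z b1.symm (fun k hk hk' => by
            have h3 := hst k hk'
            rw [hall' k hk] at h3
            exact h3)
          have hqIn : In (idx q) q := by
            have h3 := (hIdx q.length).1
            rw [← b1] at h3
            exact h3
          rcases Nat.lt_or_ge q.length m with h1 | h1
          · obtain ⟨m', rfl⟩ : ∃ m', m = m' + 1 := ⟨m - 1, by omega⟩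
            exact hcon m' (hall' m' (by omega)) hm2
          · have h2 : m = q.length := by omega
            rw [h2, ← b1] at hm2
            exact (hUIn _ _ hm2).2 hqIn
        refine ⟨j + 1, ?_⟩
        have h1 : WLF_st U idx z (j + 1) = hist z (j + 1) := by
          conv_lhs => unfold WLF_st
          rw [hj, if_pos hjU]
        rw [h1]
        have h2 : idx q < idx (hist z (j + 1)) := by
          by_contra hle
          push Not at hle
          have h3 := (hIdx (j + 1)).1
          obtain ⟨-, b5, -⟩ := WLF_basic U idx z j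
          rw [hj] at b5
          have h4 := hmono _ z q.length (j + 1) (by omega) h3
          rw [← b1] at h4
          have h5 : idx q ≤ idx (hist z (j + 1)) := by
            rw [hidx q]
            exact Nat.sInf_le h4
          have h6 : idx (hist z (j + 1)) = idx q := le_antisymm hle h5
          rw [h6] at h3
          exact (hUIn _ _ hjU).2 h3
        omega
    obtain ⟨i, hi⟩ := key (n₀ + 1)
    obtain ⟨b1, -, -⟩ := WLF_basic U idx z i
    have h1 := (hIdx (WLF_st U idx z i).length).2
    rw [← b1] at h1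
    omega

end Pool.LF
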