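import Pool.Agent.Work.MP_f36782_h69.Defs

set_option autoImplicit false

/-!
# MP_f36782_lc, THEOREM LF (the local form of Q1 fails): definitions

`Determined`, `hist`, `C` (Cantor space, a point codes a set of natural numbers), `Inf`, `Sub`,
`Tail`, `Ramsey` are those of `Pool/Agent/Work/MP_f36782_h69/Defs.lean`.
-/

open Pool.Agent.Work.RamseyAD

namespace Pool.LF

/-- The smallest class of sets of reals which contains the sets in `F` and the continuous
preimages of `A` and is closed under countable unions and countable intersections. -/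
inductive Lat (F : Set (Set (ℕ → ℕ))) (A : Set C) : Set (ℕ → ℕ) → Prop
  | base (S : Set (ℕ → ℕ)) (h : S ∈ F) : Lat F A S
  | pre (f : (ℕ → ℕ) → C) (h : Continuous f) : Lat F A (f ⁻¹' A)
  | uni (S : ℕ → Set (ℕ → ℕ)) (h : ∀ n, Lat F A (S n)) : Lat F A (⋃ n, S n)
  | int (S : ℕ → Set (ℕ → ℕ)) (h : ∀ n, Lat F A (S n)) : Lat F A (⋂ n, S n)

/-- A σ-algebra of sets of reals which is closed under continuous preimages, contains the analytic
sets and consists of determined sets. -/
structure DetAlg (F : Set (Set (ℕ → ℕ))) : Prop where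
  compl : ∀ S ∈ F, Sᶜ ∈ F
  union : ∀ S : ℕ → Set (ℕ → ℕ), (∀ n, S n ∈ F) → (⋃ n, S n) ∈ F
  preimage : ∀ S ∈ F, ∀ g : (ℕ → ℕ) → (ℕ → ℕ), Continuous g → g ⁻¹' S ∈ F
  analytic : ∀ S, MeasureTheory.AnalyticSet S → S ∈ F
  det : ∀ S ∈ F, Determined S

end Pool.LF
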