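import Pool.Agent.Work.MP_f36782_h69.Defs

set_option autoImplicit false

/-!
# MP_f36782_lc, THEOREM LF, final version: definitions

`Determined`, `hist`, `C` (Cantor space, a point codes a set of natural numbers), `Inf`, `Sub`,
`Tail`, `Ramsey` are those of `Pool/Agent/Work/MP_f36782_h69/Defs.lean`.
-/

open Pool.Agent.Work.RamseyAD

namespace Pool.LF

/-- A σ-algebra of determined sets of reals which contains the open sets and is closed under
continuous preimages. -/
structure DetAlgebra (F : Set (Set (ℕ → ℕ))) : Prop where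
  compl : ∀ S ∈ F, Sᶜ ∈ F
  union : ∀ S : ℕ → Set (ℕ → ℕ), (∀ n, S n ∈ F) → (⋃ n, S n) ∈ F
  preimage : ∀ S ∈ F, ∀ g : (ℕ → ℕ) → (ℕ → ℕ), Continuous g → g ⁻¹' S ∈ F
  isOpen : ∀ S, IsOpen S → S ∈ F
  det : ∀ S ∈ F, Determined S

/-- The smallest class of operations, taking sets of sets of natural numbers to sets of reals, which
contains the constants in `F` and the operations `A ↦ f ⁻¹' A`, `f` continuous, and is closed under
countable unions and countable intersections. -/
inductive Positive (F : Set (Set (ℕ → ℕ))) : (Set C → Set (ℕ → ℕ)) → Prop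
  | const (S : Set (ℕ → ℕ)) (h : S ∈ F) : Positive F (fun _ => S)
  | pre (f : (ℕ → ℕ) → C) (h : Continuous f) : Positive F (fun A => f ⁻¹' A)
  | union (S : ℕ → Set C → Set (ℕ → ℕ)) (h : ∀ n, Positive F (S n)) : Positive F (fun A => ⋃ n, S n A)
  | inter (S : ℕ → Set C → Set (ℕ → ℕ)) (h : ∀ n, Positive F (S n)) : Positive F (fun A => ⋂ n, S n A)

end Pool.LF
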