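import Pool.Agent.Work.MP_f36782_lf.Defs2

set_option autoImplicit false

/-!
# MP_f36782_lc, THEOREM LF, Boolean version: definitions
-/

open Pool.Agent.Work.RamseyAD

namespace Pool.LF

/-- Operations which take sets of sets of natural numbers to sets of reals. -/
abbrev Op : Type := Set C → Set (ℕ → ℕ)

/-- Positive operations: the smallest class of operations which contains the constants in `F` and the
operations `A ↦ f ⁻¹' A` for the maps `f` with the property `M`, and is closed under countable unions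
and countable intersections. -/
inductive PosOp (F : Set (Set (ℕ → ℕ))) (M : ((ℕ → ℕ) → C) → Prop) : Op → Prop
  | const (S : Set (ℕ → ℕ)) (h : S ∈ F) : PosOp F M (fun _ => S)
  | pre (f : (ℕ → ℕ) → C) (h : M f) : PosOp F M (fun A => f ⁻¹' A)
  | union (S : ℕ → Op) (h : ∀ n, PosOp F M (S n)) : PosOp F M (fun A => ⋃ n, S n A)
  | inter (S : ℕ → Op) (h : ∀ n, PosOp F M (S n)) : PosOp F M (fun A => ⋂ n, S n A)

/-- Open positive operations: countable unions of finite intersections of constants in `F` and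
operations `A ↦ f ⁻¹' A`, where the maps `f` have the property `M`. -/
def OpenPos (F : Set (Set (ℕ → ℕ))) (M : ((ℕ → ℕ) → C) → Prop) (S : Op) : Prop :=
  ∃ (D : ℕ → Set (ℕ → ℕ)) (L : ℕ → List ((ℕ → ℕ) → C)),
    (∀ n, D n ∈ F ∧ ∀ f ∈ L n, M f) ∧ ∀ A, S A = {z | ∃ n, z ∈ D n ∧ ∀ f ∈ L n, f z ∈ A}

/-- Finite Boolean combinations of operations with the property `G`. -/
inductive Combo (G : Op → Prop) : Op → Prop
  | of (S : Op) (h : G S) : Combo G S
  | compl (S : Op) (h : Combo G S) : Combo G (fun A => (S A)ᶜ)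
  | inter (S S' : Op) (h : Combo G S) (h' : Combo G S') : Combo G (fun A => S A ∩ S' A)

/-- `F` is closed under projections. -/
def ProjClosed (F : Set (Set (ℕ → ℕ))) : Prop :=
  ∀ S ∈ F, {z : ℕ → ℕ | ∃ u : ℕ → ℕ, (fun n => Nat.pair (z n) (u n)) ∈ S} ∈ F

end Pool.LF
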