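import Pool.Agent.Work.MP_f36782_lf.Defs3

set_option autoImplicit false

/-!
# MP_f36782_lc, THEOREM LF, difference version: definitions
-/

open Pool.Agent.Work.RamseyAD

namespace Pool.LF

/-- A σ-algebra of determined sets of reals which contains the open sets and is closed under
preimages by Borel maps. -/
structure DetBorel (F : Set (Set (ℕ → ℕ))) : Prop where
  compl : ∀ S ∈ F, Sᶜ ∈ F
  union : ∀ S : ℕ → Set (ℕ → ℕ), (∀ n, S n ∈ F) → (⋃ n, S n) ∈ F
  preimage : ∀ S ∈ F, ∀ g : (ℕ → ℕ) → (ℕ → ℕ), Measurable g → g ⁻¹' S ∈ F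
  isOpen : ∀ S, IsOpen S → S ∈ F
  det : ∀ S ∈ F, Determined S

/-- Differences of an open positive and a positive operation. -/
def Diff (F : Set (Set (ℕ → ℕ))) (M : ((ℕ → ℕ) → C) → Prop) (S : Op) : Prop :=
  ∃ V V' : Op, OpenPos F M V ∧ PosOp F M V' ∧ ∀ A, S A = V A \ V' A

theorem DetBorel.alg {F : Set (Set (ℕ → ℕ))} (h : DetBorel F) : DetAlgebra F :=
  { compl := h.compl
    union := h.union
    preimage := fun S hS g hg => h.preimage S hS g hg.measurable
    isOpen := h.isOpen
    det := h.det }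

end Pool.LF
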