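import Pool.Agent.Work.MP_f36782_lf.Defs4

set_option autoImplicit false

/-!
# MP_f36782_lc, THEOREM LF, signed differences: definitions
-/

open Pool.Agent.Work.RamseyAD

namespace Pool.LF

/-- Signed differences of an open positive and a positive operation: `z ∈ S A` iff (`z ∈ B` iff
`z ∈ V A \ V' A`). -/
def XDiff (F : Set (Set (ℕ → ℕ))) (M : ((ℕ → ℕ) → C) → Prop) (S : Op) : Prop :=
  ∃ (B : Set (ℕ → ℕ)) (V V' : Op), B ∈ F ∧ OpenPos F M V ∧ PosOp F M V' ∧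
    ∀ A, S A = {z | z ∈ B ↔ z ∈ V A \ V' A}

/-- Boolean combinations of two preimages and sets in `F`: whether `z ∈ S A` depends, in a way which is
in `F`, on `z` and the truth values of `f z ∈ A` and `g z ∈ A`. -/
def Two (F : Set (Set (ℕ → ℕ))) (M : ((ℕ → ℕ) → C) → Prop) (S : Op) : Prop :=
  ∃ (f g : (ℕ → ℕ) → C) (H : Prop → Prop → Set (ℕ → ℕ)), M f ∧ M g ∧ (∀ p q, H p q ∈ F) ∧
    ∀ A, S A = {z | z ∈ H (f z ∈ A) (g z ∈ A)}

end Pool.LF
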