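import Pool.Agent.Work.MP_f36782_lf.Defs3

set_option autoImplicit false

/-!
# MP_f36782_lc, THEOREM LF, Borel operations: definitions
-/

open Pool.Agent.Work.RamseyAD

namespace Pool.LF

/-- Borel operations: the smallest class of operations which contains the constants in `F` and the
operations `A ↦ f ⁻¹' A` for the maps `f` with the property `M`, and is closed under complements and
countable unions. -/
inductive BorOp (F : Set (Set (ℕ → ℕ))) (M : ((ℕ → ℕ) → C) → Prop) : Op → Prop
  | const (S : Set (ℕ → ℕ)) (h : S ∈ F) : BorOp F M (fun _ => S)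
  | pre (f : (ℕ → ℕ) → C) (h : M f) : BorOp F M (fun A => f ⁻¹' A)
  | compl (S : Op) (h : BorOp F M S) : BorOp F M (fun A => (S A)ᶜ)
  | union (S : ℕ → Op) (h : ∀ n, BorOp F M (S n)) : BorOp F M (fun A => ⋃ n, S n A)

end Pool.LF
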