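import Pool.Agent.Work.MP_f36782_lf.Interface

set_option autoImplicit false

/-! # MP_f36782_lc, THEOREM LF: assembly -/

open MeasureTheory Pool.Agent.Work.RamseyAD

namespace Pool.LF

theorem fin_two (hSTG : Stmt_STG) (hDEN : Stmt_DEN) (hLIM : Stmt_LIM) (hCHN : Stmt_CHN)
    (hCRD : Stmt_CRD) (hLAT : Stmt_LAT) (hCMP : Stmt_CMP) (hINF : Stmt_INF)
    (hCH : (Cardinal.aleph 1 : Cardinal.{0}) = Cardinal.continuum) (F : Set (Set (ℕ → ℕ))) (hF : DetAlg F)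
    (hcard : Cardinal.mk F ≤ Cardinal.continuum) :
    ∃ A : Set C, Tail A ∧ ¬ Ramsey A ∧ ∀ S, Lat F A S → Determined S ∧ Determined Sᶜ := by
  classical
  obtain ⟨hcF, hcC⟩ := hCRD
  let T : Type := Fm F CM ⊕ {X : C // Inf X}
  let Pt : Type := {pq : Set C × Set C // Cnd F pq.1 pq.2}
  let E : Pt → Pt → Prop := fun p q => p.1.1 ⊆ q.1.1 ∧ p.1.2 ⊆ q.1.2
  let D : T → Set Pt := fun t => match t with
    | .inl φ => {q | ∀ A : Set C, q.1.1 ⊆ A → (∀ x ∈ A, x ∉ q.1.2) → (∀ x ∈ A, Inf x) →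
        Determined {z | φ.tr (fun k => z ∈ k.1) (fun f => f.1 z ∈ A)}}
    | .inr X => {q | (∃ x ∈ q.1.1, Sub x X.1) ∧ ∃ y ∈ q.1.2, Sub y X.1}
  have hrn : RN (∅ : Set C) := fun X hX => ⟨X, hX, fun k h => h, fun x _ _ h => h⟩
  have h0 : Cnd F (∅ : Set C) (∅ : Set C) :=
    { disj := fun x h => absurd h (by simp)
      rnP := hrn
      rnQ := hrn
      tailP := fun x y _ => by simp
      tailQ := fun x y _ => by simp
      infP := fun x h => absurd h (by simp)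
      infQ := fun x h => absurd h (by simp)
      fP := (hINF F hF).2.2.2.2
      fQ := (hINF F hF).2.2.2.2 }
  have hT : Cardinal.mk T ≤ Cardinal.aleph 1 := by
    have h1 : Cardinal.mk C = Cardinal.continuum := by
      simp [C]
    have h2 : Cardinal.mk {X : C // Inf X} ≤ Cardinal.continuum := by
      rw [← h1]
      exact Cardinal.mk_subtype_le _
    have h3 : Cardinal.mk T = Cardinal.mk (Fm F CM) + Cardinal.mk {X : C // Inf X} := by
      simp [T]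
    rw [h3, hCH]
    calc _ ≤ Cardinal.continuum + Cardinal.continuum := add_le_add (hcF _ _ hcard hcC) h2
      _ = Cardinal.continuum := Cardinal.continuum_add_self
  obtain ⟨g, hg, hch⟩ := hCHN Pt E ⟨(∅, ∅), h0⟩ (fun p => ⟨fun x h => h, fun x h => h⟩)
    (fun p q r h1 h2 => ⟨fun x h => h2.1 (h1.1 h), fun x h => h2.2 (h1.2 h)⟩)
    (fun p hp => ⟨⟨(⋃ n, (p n).1.1, ⋃ n, (p n).1.2),
      hLIM F hF (fun n => (p n).1.1) (fun n => (p n).1.2) (fun n => (p n).2) hp⟩,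
      fun n => ⟨Set.subset_iUnion (fun n => (p n).1.1) n, Set.subset_iUnion (fun n => (p n).1.2) n⟩⟩)
    T D hT (fun t p => by
      match t with
      | .inl φ =>
        obtain ⟨P', Q', h1, h2, h3, h4⟩ := hSTG F hF p.1.1 p.1.2 p.2 φ
        exact ⟨⟨(P', Q'), h1⟩, h4, h2, h3⟩
      | .inr X =>
        obtain ⟨P', Q', h1, h2, h3, h4⟩ := hDEN F hF p.1.1 p.1.2 p.2 X.1 X.2
        exact ⟨⟨(P', Q'), h1⟩, h4, h2, h3⟩)
  have hdis : ∀ t, ∀ x ∈ ⋃ t, (g t).1.1, x ∉ (g t).1.2 := by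
    intro t x hx hx2
    obtain ⟨t', hx'⟩ := Set.mem_iUnion.1 hx
    rcases hch t t' with h | h
    · exact (g t').2.disj x hx' (h.2 hx2)
    · exact (g t).2.disj x (h.1 hx') hx2
  have hinf : ∀ x ∈ ⋃ t, (g t).1.1, Inf x := by
    intro x hx
    obtain ⟨t', hx'⟩ := Set.mem_iUnion.1 hx
    exact (g t').2.infP x hx'
  have hdet : ∀ S, Lat F (⋃ t, (g t).1.1) S → Determined S := by
    intro S hS
    obtain ⟨φ, rfl⟩ := (hLAT F hF _).1 S hS
    exact hg (.inl φ) _ (Set.subset_iUnion (fun t => (g t).1.1) (.inl φ)) (hdis _) hinf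
  refine ⟨⋃ t, (g t).1.1, ?_, ?_, fun S hS => ⟨hdet S hS, ?_⟩⟩
  · intro x y hxy
    simp only [Set.mem_iUnion]
    exact exists_congr fun t => (g t).2.tailP x y hxy
  · rintro ⟨H, hH, h | h⟩
    · obtain ⟨y, hy, hyH⟩ := (hg (.inr ⟨H, hH⟩)).2
      exact hdis _ y (h y ((g (.inr ⟨H, hH⟩)).2.infQ y hy) hyH) hy
    · obtain ⟨x, hx, hxH⟩ := (hg (.inr ⟨H, hH⟩)).1
      exact h x ((g (.inr ⟨H, hH⟩)).2.infP x hx) hxH (Set.mem_iUnion.2 ⟨_, hx⟩)
  · exact hCMP S (hdet _ ((hLAT F hF _).2 S hS _ (by fun_prop)))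

end Pool.LF
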