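import Pool.Agent.Work.MP_f36782_lf.Interface2

set_option autoImplicit false

/-! # MP_f36782_lc, THEOREM LF, final version: assembly -/

open MeasureTheory Pool.Agent.Work.RamseyAD

namespace Pool.LF

theorem fin2_aux (hFIN : Stmt_FIN) (hSTA : Stmt_STA) (hLIB : Stmt_LIB) (hCHN : Stmt_CHN)
    (hBRN : Stmt_BRN) (F : Set (Set (ℕ → ℕ))) (hF : DetAlgebra F) (T : Type)
    (hT : Cardinal.mk T ≤ Cardinal.aleph 1) (φ : T → Fm F CM) :
    ∃ A : Set C, Tail A ∧ ¬ Ramsey A ∧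
      ∀ t, Determined {z | (φ t).tr (fun k => z ∈ k.1) (fun f => f.1 z ∈ A)} := by
  classical
  obtain ⟨hF1, hF2, -, -, hF5⟩ := hFIN F hF
  let Pt : Type := {pq : Set C × Set C // Bal pq.1 pq.2 ∧ InF F pq.1 ∧ InF F pq.2}
  let E : Pt → Pt → Prop := fun p q => p.1.1 ⊆ q.1.1 ∧ p.1.2 ⊆ q.1.2
  let D : T → Set Pt := fun t => {q | ∀ A : Set C, q.1.1 ⊆ A → (∀ x ∈ A, x ∉ q.1.2) →
    (∀ x ∈ A, Inf x) → Determined {z | (φ t).tr (fun k => z ∈ k.1) (fun f => f.1 z ∈ A)}}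
  have h0 : Bal (∅ : Set C) (∅ : Set C) :=
    { disj := fun x h => absurd h (by simp)
      tailP := fun x y _ => by simp
      tailQ := fun x y _ => by simp
      infP := fun x h => absurd h (by simp)
      infQ := fun x h => absurd h (by simp)
      balP := fun x h => absurd h (by simp)
      balQ := fun x h => absurd h (by simp) }
  obtain ⟨g, hg, hch⟩ := hCHN Pt E ⟨(∅, ∅), h0, hF5 _ MeasurableSet.empty,
    hF5 _ MeasurableSet.empty⟩ (fun p => ⟨fun x h => h, fun x h => h⟩)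
    (fun p q r h1 h2 => ⟨fun x h => h2.1 (h1.1 h), fun x h => h2.2 (h1.2 h)⟩)
    (fun p hp => ⟨⟨(⋃ n, (p n).1.1, ⋃ n, (p n).1.2),
      hLIB (fun n => (p n).1.1) (fun n => (p n).1.2) (fun n => (p n).2.1) hp,
      hF2 _ fun n => (p n).2.2.1, hF2 _ fun n => (p n).2.2.2⟩,
      fun n => ⟨Set.subset_iUnion (fun n => (p n).1.1) n, Set.subset_iUnion (fun n => (p n).1.2) n⟩⟩)
    T D hT (fun t p => by
      obtain ⟨P', Q', h1, h2, h3, h4, h5, h6⟩ := hSTA F hF p.1.1 p.1.2 p.2.1 p.2.2.1 p.2.2.2 (φ t)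
      exact ⟨⟨(P', Q'), h1, h2, h3⟩, h6, h4, h5⟩)
  obtain ⟨Z, hZ1, hZ2, hZ3⟩ := hBRN
  let P : Set C := ⋃ t, (g t).1.1
  let Q : Set C := ⋃ t, (g t).1.2
  have hPQ : ∀ x ∈ P, x ∉ Q := by
    intro x hx hx2
    obtain ⟨t, ht⟩ := Set.mem_iUnion.1 hx
    obtain ⟨t', ht'⟩ := Set.mem_iUnion.1 hx2
    rcases hch t t' with h | h
    · exact (g t').2.1.disj x (h.1 ht) ht'
    · exact (g t).2.1.disj x ht (h.2 ht')
  have hPi : ∀ x ∈ P, Inf x := by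
    intro x hx
    obtain ⟨t, ht⟩ := Set.mem_iUnion.1 hx
    exact (g t).2.1.infP x ht
  have hQi : ∀ x ∈ Q, Inf x := by
    intro x hx
    obtain ⟨t, ht⟩ := Set.mem_iUnion.1 hx
    exact (g t).2.1.infQ x ht
  have hPt : Tail P := by
    intro x y hxy
    simp only [P, Set.mem_iUnion]
    exact exists_congr fun t => (g t).2.1.tailP x y hxy
  have hQt : Tail Q := by
    intro x y hxy
    simp only [Q, Set.mem_iUnion]
    exact exists_congr fun t => (g t).2.1.tailQ x y hxy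
  have hPb : ∀ x ∈ P, ∃ y ∈ Q, Sub y x := by
    intro x hx
    obtain ⟨t, ht⟩ := Set.mem_iUnion.1 hx
    obtain ⟨y, hy, hyx⟩ := (g t).2.1.balP x ht
    exact ⟨y, Set.mem_iUnion.2 ⟨t, hy⟩, hyx⟩
  have hQb : ∀ x ∈ Q, ∃ y ∈ P, Sub y x := by
    intro x hx
    obtain ⟨t, ht⟩ := Set.mem_iUnion.1 hx
    obtain ⟨y, hy, hyx⟩ := (g t).2.1.balQ x ht
    exact ⟨y, Set.mem_iUnion.2 ⟨t, hy⟩, hyx⟩
  have htr : ∀ x y H : C, Sub x y → Sub y H → Sub x H := fun x y H h1 h2 k hk => h2 k (h1 k hk)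
  let A : Set C := P ∪ (Z \ Q)
  have hAQ : ∀ x ∈ A, x ∉ Q := by
    rintro x (hx | hx)
    · exact hPQ x hx
    · exact hx.2
  have hAi : ∀ x ∈ A, Inf x := by
    rintro x (hx | hx)
    · exact hPi x hx
    · exact hZ2 x hx.1
  refine ⟨A, ?_, ?_, fun t => ?_⟩
  · intro x y hxy
    simp only [A, Set.mem_union, Set.mem_diff, hPt x y hxy, hQt x y hxy, hZ1 x y hxy]
  · rintro ⟨H, hH, h | h⟩
    · obtain ⟨-, y, hy, hyH, hyZ⟩ := hZ3 H hH
      have hyA := h y hy hyH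
      rcases hyA with hyP | hyZ'
      · obtain ⟨q, hq, hqy⟩ := hPb y hyP
        exact hAQ q (h q (hQi q hq) (htr q y H hqy hyH)) hq
      · exact hyZ hyZ'.1
    · obtain ⟨⟨x, hx, hxH⟩, -⟩ := hZ3 H hH
      by_cases hxQ : x ∈ Q
      · obtain ⟨q, hq, hqx⟩ := hQb x hxQ
        exact h q (hPi q hq) (htr q x H hqx hxH) (Or.inl hq)
      · exact h x (hZ2 x hx) hxH (Or.inr ⟨hx, hxQ⟩)
  · refine hg t A (fun x hx => Or.inl (Set.mem_iUnion.2 ⟨t, hx⟩)) (fun x hx hxt => ?_) hAi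
    exact hAQ x hx (Set.mem_iUnion.2 ⟨t, hxt⟩)

theorem fin2_main (hFIN : Stmt_FIN) (hSTA : Stmt_STA) (hLIB : Stmt_LIB) (hCHN : Stmt_CHN)
    (hBRN : Stmt_BRN) (hPOF : Stmt_POF) (hCMP : Stmt_CMP) (F : Set (Set (ℕ → ℕ)))
    (hF : DetAlgebra F) (T : Type) (hT : Cardinal.mk T ≤ Cardinal.aleph 1)
    (S : T → Set C → Set (ℕ → ℕ)) (hS : ∀ t, Positive F (S t)) :
    ∃ A : Set C, Tail A ∧ ¬ Ramsey A ∧ ∀ t, Determined (S t A) ∧ Determined (S t A)ᶜ := by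
  classical
  let sh : (ℕ → ℕ) → (ℕ → ℕ) := fun z n => z (n + 1)
  have hsh : Continuous sh := by fun_prop
  have h1 : ∀ t : T × Bool, ∃ φ : Fm F CM, ∀ A,
      (if t.2 then sh ⁻¹' (S t.1 A) else S t.1 A) =
        {z | φ.tr (fun k => z ∈ k.1) (fun f => f.1 z ∈ A)} := by
    rintro ⟨t, b⟩
    cases b
    · exact (hPOF F hF (S t) (hS t)).1
    · exact (hPOF F hF _ ((hPOF F hF (S t) (hS t)).2 sh hsh)).1
  choose φ hφ using h1
  have hT2 : Cardinal.mk (T × Bool) ≤ Cardinal.aleph 1 := by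
    have h2 : Cardinal.mk (T × Bool) = Cardinal.mk T * Cardinal.mk Bool := by simp
    rw [h2]
    have h3 : Cardinal.mk Bool ≤ Cardinal.aleph 1 :=
      (Cardinal.mk_le_aleph0 (α := Bool)).trans (Cardinal.aleph0_le_aleph 1)
    exact (mul_le_mul' hT h3).trans (Cardinal.mul_eq_self (Cardinal.aleph0_le_aleph 1)).le
  obtain ⟨A, hA1, hA2, hA3⟩ := fin2_aux hFIN hSTA hLIB hCHN hBRN F hF (T × Bool) hT2 φ
  refine ⟨A, hA1, hA2, fun t => ⟨?_, ?_⟩⟩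
  · have h4 := hA3 (t, false)
    rw [← hφ (t, false) A] at h4
    simpa using h4
  · have h4 := hA3 (t, true)
    rw [← hφ (t, true) A] at h4
    exact hCMP (S t A) (by simpa using h4)

end Pool.LF
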