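import Pool.Agent.Work.MP_f36782_lf.Defs
import Pool.Agent.Work.MP_f36782_h69.Games

set_option autoImplicit false

/-!
# MP_f36782_lc, THEOREM LF, helper16: statements of the blocks

Files `B_X.lean` in `Pool/Agent/Work/MP_f36782_lf` (import `Pool.Agent.Work.MP_f36782_lf.Interface`),
`open Pool.Agent.Work.RamseyAD`, namespace `Pool.LF`, `theorem p_X (h1 : Stmt_Y) .. : Stmt_X` with the
blocks of the column `uses` as hypotheses in that order.  Helper lemmas with the prefix `X_`.  The
docstrings contain the proofs.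

THE THEOREM.  (1) For every continuous `f : ω^ω → P(ω)` and every `A₀` there is `A`, equal to `A₀` off a
Ramsey null set, with the game `f⁻¹(A)` determined.  (2) Under CH, for every `DetAlg F` with at most
continuum many members, there is a tail set `A`, not Ramsey, such that all sets in `Lat F A` and their
complements are determined.

THE PROOF.  `P`, `Q` disjoint Ramsey null sets.  The auxiliary game: the players play `z` and cut `ω` into
consecutive intervals, the mover chooses the length of his interval (a move is the pair of the real move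
and the length).  I wins iff `f z ∈ P`, or `f z ∉ Q` is infinite and meets the intervals of II in a
finite set.  The winner (I, say) simulates in the real game the lengths of the other player such that
his own intervals in different positions are disjoint (SIM).  So the sets `C_z` = the union of his
intervals in the run `z` are almost disjoint, the set of the `f z` with `f z ∩ C_z` infinite is Ramsey
null (RNC) and can be added to `P`.  A transfinite induction over all games gives `A`.
-/

open MeasureTheory Pool.Agent.Work.RamseyAD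

namespace Pool.LF

/-! ## Notions -/

/-- The moves of player `p` (`0` = I, `1` = II) in the run `z` are given by the strategy `S`. -/
def Cons (p : ℕ) (S : List ℕ → ℕ) (z : ℕ → ℕ) : Prop := ∀ i, i % 2 = p → z i = S (hist z i)

/-- The real moves of a run of the auxiliary game. -/
def mv (z : ℕ → ℕ) : ℕ → ℕ := fun i => (Nat.unpair (z i)).1

/-- The total length of the first `i` intervals. -/
def len (z : ℕ → ℕ) (i : ℕ) : ℕ := ∑ j ∈ Finset.range i, (Nat.unpair (z j)).2

/-- The union of the intervals of player `p`. -/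
def own (p : ℕ) (z : ℕ → ℕ) : Set ℕ :=
  {m | ∃ i, i % 2 = p ∧ len z i ≤ m ∧ m < len z (i + 1)}

/-- Inclusion up to a finite set. -/
def ASub (x y : C) : Prop := ∃ N, ∀ k, N ≤ k → x k = true → y k = true

/-- Equality up to a finite set. -/
def AEq (x y : C) : Prop := ∃ N, ∀ k, N ≤ k → x k = y k

/-- The set coded by `x` meets `S` in an infinite set. -/
def Hit (x : C) (S : Set ℕ) : Prop := ∀ n, ∃ k, n ≤ k ∧ x k = true ∧ k ∈ S

/-- Ramsey null sets. -/
def RN (N : Set C) : Prop :=
  ∀ X, Inf X → ∃ Y, Inf Y ∧ Sub Y X ∧ ∀ x, Inf x → ASub x Y → x ∉ N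

/-- Formulas: countable unions and intersections of basic sets `k : K` and atoms `l : L`. -/
inductive Fm (K L : Type) : Type
  | base (k : K) : Fm K L
  | pre (l : L) : Fm K L
  | uni (φ : ℕ → Fm K L) : Fm K L
  | int (φ : ℕ → Fm K L) : Fm K L

/-- The truth value of a formula. -/
def Fm.tr {K L : Type} (a : K → Prop) (b : L → Prop) : Fm K L → Prop
  | .base k => a k
  | .pre l => b l
  | .uni φ => ∃ n, (φ n).tr a b
  | .int φ => ∀ n, (φ n).tr a b

/-- The atoms of a formula. -/
def Fm.at {K L : Type} : Fm K L → Set L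
  | .base _ => ∅
  | .pre l => {l}
  | .uni φ => ⋃ n, (φ n).at
  | .int φ => ⋃ n, (φ n).at

/-- The continuous maps to Cantor space. -/
abbrev CM : Type := {f : (ℕ → ℕ) → C // Continuous f}

/-- The class of the subsets of Cantor space which belong to `F`. -/
def InF (F : Set (Set (ℕ → ℕ))) (P : Set C) : Prop :=
  ∀ f : (ℕ → ℕ) → C, Continuous f → f ⁻¹' P ∈ F

/-- The outcomes `f z` (up to finite changes), `z` a run according to `s`, which meet the intervals
of player `p` in an infinite set. -/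
def Cod (p : ℕ) (s : List ℕ → ℕ) (Φ : (ℕ → ℕ) → (ℕ → ℕ)) (f : (ℕ → ℕ) → C) : Set C :=
  {x | ∃ z, Cons p s z ∧ AEq x (f z) ∧ Hit (f z) (own p (Φ z))}

/-- The conditions: pairs of disjoint Ramsey null tail sets of infinite sets, in `F`. -/
structure Cnd (F : Set (Set (ℕ → ℕ))) (P Q : Set C) : Prop where
  disj : ∀ x ∈ P, x ∉ Q
  rnP : RN P
  rnQ : RN Q
  tailP : Tail P
  tailQ : Tail Q
  infP : ∀ x ∈ P, Inf x
  infQ : ∀ x ∈ Q, Inf x
  fP : InF F P
  fQ : InF F Q

/-- The truth of the atom `f` in the run `z` of the auxiliary game: `f (mv z)` is in `P`, or it is an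
infinite set not in `Q` which meets the intervals of II in a finite set. -/
def atm (P Q : Set C) (z : ℕ → ℕ) (f : CM) : Prop :=
  f.1 (mv z) ∈ P ∨ (f.1 (mv z) ∉ Q ∧ Inf (f.1 (mv z)) ∧ ¬ Hit (f.1 (mv z)) (own 1 z))

/-- The position `l` is winning for player I. -/
def WinI (A : Set (ℕ → ℕ)) (l : List ℕ) : Prop := ∃ S : List ℕ → ℕ, ∀ z : ℕ → ℕ,
  hist z l.length = l → (∀ i, l.length ≤ i → i % 2 = 0 → z i = S (hist z i)) → z ∈ A

/-- Player II can reach from the position `l` a position in `U`. -/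
def Rch (U : Set (List ℕ)) (l : List ℕ) : Prop := ∃ S : List ℕ → ℕ, ∀ z : ℕ → ℕ,
  hist z l.length = l → (∀ i, l.length ≤ i → i % 2 = 1 → z i = S (hist z i)) →
    ∃ m, l.length ≤ m ∧ hist z m ∈ U

/-! ## Part A: simulation -/

/-- **SIM** (300), uses nothing.  Moves of the auxiliary game are coded pairs `Nat.pair a d` (real move, length of the interval).  NOTATION:
`L l = ∑ (Nat.unpair a).2` over the list `l`; `cd l = Encodable.encode l.reverse` (injective, `cd l < cd (l ++ [a])`, because
`Encodable.encode_list_cons` and `Nat.right_le_pair`).  For sequences `z` (real moves) and `n` (lengths) let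
`sm z n 0 = []`, `sm z n (i + 1) = l ++ [if i % 2 = p then T l else Nat.pair (z i) (n i - L l)]` with `l = sm z n i`; it depends only on the first
`i` values of `z` and `n`.
THE FAST SEQUENCE.  `ρ (w : List ℕ) =` the supremum over the (finitely many) lists `l` with `l.length = w.length` and `cd l ≤ w.sum` of
`L (sm l w i) + (Nat.unpair (T (sm l w i))).2`, `i = w.length` (`l`, `w` continued by `0`, `List.getD`).  By `fast` (file
`MP_f36782_h69/Games.lean`) there is a strictly increasing `g` with `ρ (hist (g ∘ k) i) < g (k i)` for all strictly increasing `k`.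
THE SIMULATION.  `n i = g (cd (hist z (i + 1)))`, `Φ z i =` the last entry of `sm z n (i + 1)`, so `hist (Φ z) i = sm z n i`, and
`s l = (Nat.unpair (T (sm l n l.length))).1` (`n i = g (cd (l.take (i + 1)))`).  `Φ z i` depends on `hist z (i + 1)`: continuous.  If `Cons p s z`, then
`Cons p T (Φ z)` and `mv (Φ z) = z` are clear.  With `k i = cd (hist z (i + 1))` (strictly increasing; `k (i-1) = cd (hist z i) ≤ w.sum` for
`w = hist (g ∘ k) i`) one gets `L (sm z n i) + (unpair (T ..)).2 ≤ ρ w < g (k' i)` for EVERY strictly increasing `k'` which agrees with `k` below `i`; so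
(a) `L (sm z n i) < n i`, hence `len (Φ z) (i + 1) = n i` for `i % 2 ≠ p` (unbounded lengths), and (b) for `i % 2 = p`, `i ≥ 1`, the interval
`[len (Φ z) i, len (Φ z) (i + 1))` of player `p` is contained in `[g (k (i-1)), g (k (i-1) + 1))`, `k (i-1) = cd (hist z i)` (take `k' i = k (i-1) + 1`).
These intervals are disjoint for different values of `hist z i`; for `z ≠ z'` only finitely many `i` have `hist z i = hist z' i`. -/
def Stmt_SIM : Prop := ∀ (p : ℕ) (T : List ℕ → ℕ), p < 2 →
  ∃ (s : List ℕ → ℕ) (Φ : (ℕ → ℕ) → (ℕ → ℕ)), Continuous Φ ∧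
    (∀ z, Cons p s z → Cons p T (Φ z) ∧ mv (Φ z) = z ∧ ∀ N, ∃ i, N ≤ len (Φ z) i) ∧
    ∀ z z', Cons p s z → Cons p s z' → z ≠ z' → (own p (Φ z) ∩ own p (Φ z')).Finite

/-- **OWN** (60), uses nothing.  Every `m` is in one of the intervals `[len z i, len z (i + 1))` (the least `i` with `m < len z (i + 1)`), so
`x ∩ own 0 z` or `x ∩ own 1 z` is infinite. -/
def Stmt_OWN : Prop := ∀ (z : ℕ → ℕ) (x : C), (∀ N, ∃ i, N ≤ len z i) → Inf x →
  ¬ Hit x (own 1 z) → Hit x (own 0 z)

/-! ## Part B: Ramsey null sets -/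

/-- **RNU** (100), uses nothing.  `X_0 = X`, `X_(n+1) ⊆ X_n` for `N n`; `y_0 < y_1 < ..`, `y_n ∈ X_n`, `Y = {y_n}`: `Y` minus finitely many points is
contained in `X_(n+1)`, so `ASub x Y` gives `ASub x X_(n+1)`, `x ∉ N n`. -/
def Stmt_RNU : Prop := ∀ N : ℕ → Set C, (∀ n, RN (N n)) → RN (⋃ n, N n)

/-- **RNC** (120), uses nothing.  Coded sets.  `X` is given.  If `X ∩ D z` is finite for all `z ∈ Z` take `Y = X`: `ASub x X`, `AEq x (f z)`, `Hit (f z) (D z)` give
that `X ∩ D z` is infinite.  Otherwise `X ∩ D z₀` is infinite, `z₀ ∈ Z`; take `Y ⊆ X ∩ D z₀` infinite with `¬ ASub (f z₀) Y` if `f z₀` is infinite (if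
`ASub (f z₀) (X ∩ D z₀)` fails take `Y = X ∩ D z₀`, otherwise remove infinitely many points of `f z₀` and leave infinitely many points, for example
take every second point of `X ∩ D z₀`, or the other ones).  If `x` is infinite, `ASub x Y`, `AEq x (f z)`, `Hit (f z) (D z)`, `z ∈ Z`, then `D z ∩ D z₀` is
infinite, `z = z₀`, `ASub (f z₀) Y`, contradiction. -/
def Stmt_RNC : Prop := ∀ (Z : Set (ℕ → ℕ)) (D : (ℕ → ℕ) → Set ℕ) (f : (ℕ → ℕ) → C),
  (∀ z ∈ Z, ∀ z' ∈ Z, z ≠ z' → (D z ∩ D z').Finite) →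
    RN {x | ∃ z ∈ Z, AEq x (f z) ∧ Hit (f z) (D z)}

/-- **RNS** (60), uses RNC or nothing.  The tail class of a point is Ramsey null: take every second point of `X`, or the other ones. -/
def Stmt_RNS : Prop := ∀ x₀ : C, RN {x | AEq x x₀}

/-! ## Part C: the class `F` -/

/-- **INF** (100), uses nothing.  Closure properties of `InF F`: unions (`Set.preimage_iUnion`), differences (`P \ Q = (Pᶜ ∪ Q)ᶜ`, a union of two sets is
`⋃ n, if n = 0 then .. else ..`), analytic sets (`AnalyticSet.preimage`). -/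
def Stmt_INF : Prop := ∀ F : Set (Set (ℕ → ℕ)), DetAlg F →
  (∀ P : ℕ → Set C, (∀ n, InF F (P n)) → InF F (⋃ n, P n)) ∧
  (∀ P Q : Set C, InF F P → InF F Q → InF F (P ∪ Q)) ∧
  (∀ P Q : Set C, InF F P → InF F Q → InF F (P \ Q)) ∧
  (∀ P : Set C, AnalyticSet P → InF F P) ∧ InF F ∅

/-- **ANA** (150), uses nothing.  `Cod` is the union over `N` and the finite modifications `t` of the images under the continuous maps
`z ↦ (t below N, f z from N on)` of the set of the `z` with `Cons p s z` (closed) and `Hit (f z) (own p (Φ z))` (Borel: `G_δ`; `{z | k ∈ own p (Φ z)}` is open, as the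
union over `i` of clopen sets).  `MeasurableSet.analyticSet_image`, `AnalyticSet.iUnion`. -/
def Stmt_ANA : Prop := ∀ (p : ℕ) (s : List ℕ → ℕ) (Φ : (ℕ → ℕ) → (ℕ → ℕ)) (f : (ℕ → ℕ) → C),
  Continuous Φ → Continuous f → AnalyticSet (Cod p s Φ f)

/-- **PAY** (150), uses INF.  The auxiliary games are in `F`.  Induction on `φ`: basic sets by `preimage` with the continuous map `mv`; atoms:
`{z | f (mv z) ∈ P}` is in `F` by `InF`, `{z | f (mv z) ∉ Q}` by complements, `{z | Inf (f (mv z))}` and `{z | Hit (f (mv z)) (own 1 z)}` are Borel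
(`MeasurableSet.analyticSet`); unions; intersections by complements. -/
def Stmt_PAY : Prop := ∀ F : Set (Set (ℕ → ℕ)), DetAlg F → ∀ P Q : Set C, InF F P → InF F Q →
  ∀ φ : Fm F CM, {z | φ.tr (fun k => mv z ∈ k.1) (atm P Q z)} ∈ F

/-! ## Part D: the stage lemma and the induction -/

/-- **FMA** (60), uses nothing.  Atoms are countable; monotonicity.  Induction on `φ`. -/
def Stmt_FMA : Prop := ∀ (K L : Type) (φ : Fm K L), φ.at.Countable ∧
  ∀ (a : K → Prop) (b b' : L → Prop), (∀ l ∈ φ.at, b l → b' l) → φ.tr a b → φ.tr a b'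

/-- **COD** (100), uses SIM RNU RNC INF ANA FMA.  The set of the coded outcomes for the atoms of a formula.  `Stmt_SIM` gives `s`, `Φ`;
`R = ⋃ over f ∈ φ.at of Cod p s Φ f` (a countable set: enumerate it, or `R = ∅`).  `RN`: RNC with `Z = {z | Cons p s z}`, `D z = own p (Φ z)`, and RNU;
`InF`: ANA, INF.  Tail and infinite: clear (`Hit` gives `Inf`). -/
def Stmt_COD : Prop := ∀ F : Set (Set (ℕ → ℕ)), DetAlg F → ∀ (p : ℕ) (T : List ℕ → ℕ), p < 2 →
  ∀ φ : Fm F CM, ∃ (s : List ℕ → ℕ) (Φ : (ℕ → ℕ) → (ℕ → ℕ)) (R : Set C),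
    (∀ z, Cons p s z → Cons p T (Φ z) ∧ mv (Φ z) = z ∧ ∀ N, ∃ i, N ≤ len (Φ z) i) ∧
    RN R ∧ Tail R ∧ (∀ x ∈ R, Inf x) ∧ InF F R ∧
    ∀ z, Cons p s z → ∀ f ∈ φ.at, Hit (f.1 z) (own p (Φ z)) → f.1 z ∈ R

/-- **STG** (200), uses COD OWN RNU INF PAY FMA.  The auxiliary game `{z | φ.tr (mv z ∈ k.1) (atm P Q z)}` is in `F` (PAY), so it is determined.
If I wins by `T`: `s`, `Φ`, `R` from COD for `p = 0`; `P' = P ∪ (R \ Q)`, `Q' = Q`.  Let `P' ⊆ A`, `A ∩ Q = ∅`; for a run `z` according to `s` the run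
`Φ z` is won by I, and `atm P Q (Φ z) f` implies `f z ∈ A` for `f ∈ φ.at` (if `f z ∉ P` then OWN gives `Hit (f z) (own 0 (Φ z))`, so `f z ∈ R \ Q`); FMA.
If II wins by `T`: COD for `p = 1`; `P' = P`, `Q' = Q ∪ (R \ P)`.  For a run `z` according to `s`: `f z ∈ A` implies `atm P Q (Φ z) f` for `f ∈ φ.at` (it is infinite and not
in `Q`; if `f z ∉ P` and `Hit (f z) (own 1 (Φ z))` then `f z ∈ R \ P ⊆ Q'`, contradiction), so `φ.tr .. (f z ∈ A)` would give that `Φ z` is won by I.
`RN (P ∪ R)`: RNU for `n = 0 ↦ P`, `else ↦ R`, and subsets.  (`hist`-strategies of `Determined` and `Cons`: `i = 2 n` or `i = 2 n + 1`.) -/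
def Stmt_STG : Prop := ∀ F : Set (Set (ℕ → ℕ)), DetAlg F → ∀ P Q : Set C, Cnd F P Q →
  ∀ φ : Fm F CM, ∃ P' Q' : Set C, Cnd F P' Q' ∧ P ⊆ P' ∧ Q ⊆ Q' ∧
    ∀ A : Set C, P' ⊆ A → (∀ x ∈ A, x ∉ Q') → (∀ x ∈ A, Inf x) →
      Determined {z | φ.tr (fun k => z ∈ k.1) (fun f => f.1 z ∈ A)}

/-- **DEN** (120), uses RNU RNS INF.  `X` infinite.  `RN (P ∪ Q)` gives `Y ⊆ X` infinite such that no infinite `x` with `ASub x Y` is in `P ∪ Q`.  `x = Y`, `y =` every
second point of `Y`.  `P' = P ∪ {AEq · x}`, `Q' = Q ∪ {AEq · y}` (tail classes are countable, so analytic). -/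
def Stmt_DEN : Prop := ∀ F : Set (Set (ℕ → ℕ)), DetAlg F → ∀ P Q : Set C, Cnd F P Q →
  ∀ X : C, Inf X → ∃ P' Q' : Set C, Cnd F P' Q' ∧ P ⊆ P' ∧ Q ⊆ Q' ∧
    (∃ x ∈ P', Sub x X) ∧ ∃ y ∈ Q', Sub y X

/-- **LIM** (80), uses RNU INF.  Unions of increasing sequences of conditions. -/
def Stmt_LIM : Prop := ∀ F : Set (Set (ℕ → ℕ)), DetAlg F → ∀ P Q : ℕ → Set C,
  (∀ n, Cnd F (P n) (Q n)) → (∀ n, P n ⊆ P (n + 1) ∧ Q n ⊆ Q (n + 1)) →
    Cnd F (⋃ n, P n) (⋃ n, Q n)

/-- **CHN** (200), uses nothing.  A σ-closed partial order (`E p q`: `q` is stronger) meets `ℵ₁` dense sets.  Let `e` be an injection of `T` into the ordinals `< ω₁`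
(`(Cardinal.aleph 1).ord.ToType`, initial segments are countable: `Cardinal.mk_Iio_ord_toType` or similar) and define `g t` by well-founded recursion on
`e t`: the set `{g t' | e t' < e t}` is a countable chain, so it has an upper bound (if it is empty take `p₀`; otherwise enumerate it, the maxima of the first `n`
members form an increasing sequence), and then `g t` is a stronger member of `D t`. -/
def Stmt_CHN : Prop := ∀ (Pt : Type) (E : Pt → Pt → Prop) (_ : Pt), (∀ p, E p p) →
  (∀ p q r, E p q → E q r → E p r) →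
  (∀ p : ℕ → Pt, (∀ n, E (p n) (p (n + 1))) → ∃ q, ∀ n, E (p n) q) →
  ∀ (T : Type) (D : T → Set Pt), Cardinal.mk T ≤ Cardinal.aleph 1 →
    (∀ t p, ∃ q ∈ D t, E p q) →
    ∃ g : T → Pt, (∀ t, g t ∈ D t) ∧ ∀ t t', E (g t) (g t') ∨ E (g t') (g t)

/-- **CRD** (150), uses nothing.  Cardinalities.  `Fm K L` is a W-type (`WType.cardinalMk_le_of_le'`), or inject it into the functions
`List ℕ → K ⊕ L ⊕ Bool` (the labels of the nodes of the tree).  A continuous map is determined by its values on a countable dense set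
(`Continuous.ext_on`), so `#CM ≤ #(ℕ → C) = 𝔠`. -/
def Stmt_CRD : Prop := (∀ K L : Type, Cardinal.mk K ≤ Cardinal.continuum →
    Cardinal.mk L ≤ Cardinal.continuum → Cardinal.mk (Fm K L) ≤ Cardinal.continuum) ∧
  Cardinal.mk CM ≤ Cardinal.continuum

/-- **LAT** (80), uses nothing.  Sets in `Lat F A` are given by formulas (induction, choice), and `Lat F A` is closed under continuous preimages. -/
def Stmt_LAT : Prop := ∀ F : Set (Set (ℕ → ℕ)), DetAlg F → ∀ A : Set C,
  (∀ S, Lat F A S → ∃ φ : Fm F CM, S = {z | φ.tr (fun k => z ∈ k.1) (fun f => f.1 z ∈ A)}) ∧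
  ∀ S, Lat F A S → ∀ g : (ℕ → ℕ) → (ℕ → ℕ), Continuous g → Lat F A (g ⁻¹' S)

/-- **CMP** (100), uses nothing.  Complements: the game for `Sᶜ` is the game for `{z | z(· + 1) ∈ S}` with exchanged players.  `g z = fun n => z (n + 1)`.  If player I
wins `g⁻¹(S)` by `σ`: his first move is `m₀ = σ []`, and `τ l = σ (m₀ :: l)` is a strategy of II for `S`ᶜ: a run `y` according to `τ` gives
the run `z = m₀, y 0, y 1, ..` according to `σ`, `y = g z ∈ S`.  If II wins `g⁻¹(S)` by `τ`: `σ l = τ (0 :: l)` wins `Sᶜ` for I. -/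
def Stmt_CMP : Prop := ∀ S : Set (ℕ → ℕ),
  Determined ((fun z : ℕ → ℕ => fun n => z (n + 1)) ⁻¹' S) → Determined Sᶜ

/-! ## Part E: one continuous map, in ZFC -/

/-- **OPN** (200), uses nothing.  `U = {q | ¬ WinI A q, q is not an initial segment of a point of F₀}`.  Suppose `¬ Rch U l`.  The set `N` of the positions `q` with
`¬ Rch U q` is closed: (II to move) `q ++ [a] ∈ N` for all `a`; (I to move) `q ++ [a] ∈ N` for some `a` (otherwise combine the strategies); and `N ∩ U = ∅` (`m = q.length`).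
Player I plays from `l`: as long as the position `q` is not winning, he stays in `N`; if a first winning position `q` is reached he follows a winning strategy for it.
A run in which all positions are not winning has all positions in `N`, not in `U`, so they are initial segments of points of `F₀`; `F₀` is closed, so the run is in `F₀ ⊆ A`.
So `WinI A l`. -/
def Stmt_OPN : Prop := ∀ (A F₀ : Set (ℕ → ℕ)), IsClosed F₀ → F₀ ⊆ A → ∀ l : List ℕ, ¬ WinI A l →
  Rch {q | ¬ WinI A q ∧ ∀ z ∈ F₀, hist z q.length ≠ q} l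

/-- **WLF** (250), uses OPN.  Wolfe's theorem.  `A = ⋃ F n`.  If `WinI A []` then I wins.  Otherwise II plays in phases: phase `n` begins at a position `q` with
`¬ WinI A q` and follows the strategy `S_(n,q)` of OPN for `F n` until the position is in `U_n = {q | ¬ WinI A q, q not an initial segment of a point of F n}`, where
phase `n + 1` begins (the phase and its beginning are computed from the history).  Every phase ends, so the run is in no `F n`. -/
def Stmt_WLF : Prop := ∀ F : ℕ → Set (ℕ → ℕ), (∀ n, IsClosed (F n)) → Determined (⋃ n, F n)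

/-- **FSG** (100), uses nothing.  `{z | k ∈ own 1 z}` is open (a union over `i` of clopen sets, `len z i` is continuous), `{z | f (mv z) k = true}` is clopen; the set is the union over
`n` of the closed sets of the `z` such that no `k ≥ n` has both properties. -/
def Stmt_FSG : Prop := ∀ f : (ℕ → ℕ) → C, Continuous f → ∃ F : ℕ → Set (ℕ → ℕ),
  (∀ n, IsClosed (F n)) ∧ {z | ¬ Hit (f (mv z)) (own 1 z)} = ⋃ n, F n

/-- **ONE** (150), uses SIM OWN RNC WLF FSG.  The game `{z | ¬ Hit (f (mv z)) (own 1 z)}` is determined (FSG, WLF).  If I wins: SIM for `p = 0`, `A = A₀ ∪ {f z | Cons 0 s z}`; an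
infinite `f z` has `Hit (f z) (own 0 (Φ z))` (OWN); RNC.  If II wins: SIM for `p = 1`, `A = A₀ \ {f z | Cons 1 s z}`, `Hit (f z) (own 1 (Φ z))`; RNC. -/
def Stmt_ONE : Prop := ∀ (f : (ℕ → ℕ) → C), Continuous f → ∀ A₀ : Set C, ∃ A : Set C,
  Determined (f ⁻¹' A) ∧
    ∀ X, Inf X → ∃ Y, Inf Y ∧ Sub Y X ∧ ∀ x, Inf x → ASub x Y → (x ∈ A ↔ x ∈ A₀)

end Pool.LF
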