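import Pool.Agent.Work.MP_f36782_lf.Interface
import Pool.Agent.Work.MP_f36782_lf.Defs2

set_option autoImplicit false

/-!
# MP_f36782_lc, THEOREM LF, final version (ZFC), helper16: statements of the blocks

Files `B_X.lean` in `Pool/Agent/Work/MP_f36782_lf` (import `Pool.Agent.Work.MP_f36782_lf.Interface2`),
`open MeasureTheory Pool.Agent.Work.RamseyAD`, namespace `Pool.LF`, `theorem p_X (h1 : Stmt_Y) .. :
Stmt_X` with the blocks of the column `uses` as hypotheses in that order.  Helper lemmas with the
prefix `X_`.  The docstrings contain the proofs.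

THE THEOREM.  `F` a σ-algebra of determined sets with the open sets, closed under continuous
preimages.  For any `ℵ₁` many positive operations `S_t` there is a tail set `A`, not Ramsey, with all
`S_t A` and `(S_t A)ᶜ` determined.

THE PROOF.  A condition is a pair `(P, Q)` of disjoint tail sets of infinite sets, with both in `F`, such that
every element of `P` contains an element of `Q` and vice versa.  Stage: in the auxiliary game the
players play `z` and cut `ω` into intervals (as in `Interface.lean`).  The winner simulates the lengths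
of the opponent such that his intervals lie in finite blocks `B (z | i)`, disjoint for different
positions.  Let `Br z = ⋃ B (z | i)`.  All outcomes `f z` which meet `Br z` in an infinite set are promised
to be in `A` (or: not in `A`).  To have everything Borel one promises the larger set `Rst B f`.  Every
element of it contains companions of both kinds: either it is `f z` mod finite and meets `Br z`, and the
companions are the levels `com n j z ⊆ f z ∩ Br z` (`dia`: no two of them agree mod finite, and none
agrees with an outcome), or it contains infinitely many pairs in blocks of comparable positions,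
different pairs in blocks of incomparable positions, and so an element of the sets `MA`, `MB`.
So there is a balanced pair `(U, V)` of Borel sets with `Rst B f ⊆ U`.  After `ω₁` stages a set `A` between
`P` and the complement of `Q` is not Ramsey on any `X` which contains an element of `P ∪ Q`; elsewhere use a
set `Z` which is not Ramsey anywhere.
-/

open MeasureTheory Pool.Agent.Work.RamseyAD

namespace Pool.LF

/-! ## Notions -/

/-- A system of finite blocks, disjoint for different positions. -/
structure Blk (B : List ℕ → Set ℕ) : Prop where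
  fin : ∀ l, (B l).Finite
  inj : ∀ l l' m, m ∈ B l → m ∈ B l' → l = l'

/-- The union of the blocks along the branch `z`. -/
def Br (B : List ℕ → Set ℕ) (z : ℕ → ℕ) : Set ℕ := {m | ∃ i, m ∈ B (hist z i)}

/-- `a` and `b` are in blocks of comparable positions. -/
def Adj (B : List ℕ → Set ℕ) (a b : ℕ) : Prop :=
  ∃ l l', a ∈ B l ∧ b ∈ B l' ∧ (l <+: l' ∨ l' <+: l)

/-- The promised set: for every `k` there is `u` such that `x` meets the blocks of `k + 1` initial
positions of `u` and agrees with `f u` from `N` up to the length of the last one. -/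
def Rst (B : List ℕ → Set ℕ) (f : (ℕ → ℕ) → C) : Set C :=
  {x | Inf x ∧ ∃ N, ∀ k, ∃ (u n : ℕ → ℕ), (∀ i, i < k → n i < n (i + 1)) ∧
    (∀ i, i ≤ k → ∃ m ∈ B (hist u (n i)), x m = true) ∧ ∀ j, N ≤ j → j < n k → x j = f u j}

/-- From `N` on every element of `x` is adjacent to at most one other. -/
def Uq (B : List ℕ → Set ℕ) (x : C) (N : ℕ) : Prop :=
  ∀ a b b', N ≤ a → N ≤ b → N ≤ b' → x a = true → x b = true → x b' = true →
    b ≠ a → b' ≠ a → Adj B a b → Adj B a b' → b = b'

/-- `a` is adjacent to another element of `x` from `N` on. -/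
def Nb (B : List ℕ → Set ℕ) (x : C) (N a : ℕ) : Prop :=
  ∃ b, N ≤ b ∧ b ≠ a ∧ x b = true ∧ Adj B a b

/-- Almost all elements are adjacent to exactly one other. -/
def MA (B : List ℕ → Set ℕ) : Set C :=
  {x | Inf x ∧ ∃ N, Uq B x N ∧ ∃ M, ∀ a, M ≤ a → x a = true → Nb B x N a}

/-- Almost all elements are adjacent to at most one other, infinitely many to none, infinitely many to
one. -/
def MB (B : List ℕ → Set ℕ) : Set C :=
  {x | ∃ N, Uq B x N ∧ (∀ n, ∃ a, n ≤ a ∧ x a = true ∧ ¬ Nb B x N a) ∧
    ∀ n, ∃ a, n ≤ a ∧ x a = true ∧ Nb B x N a}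

/-- The number of the elements of `w` below `m`. -/
def cnt (w : C) (m : ℕ) : ℕ := ((Finset.range m).filter fun i => w i = true).card

/-- A subset of `w` which differs from all `g i` infinitely often. -/
def dia (w : C) (g : ℕ → C) : C := fun m =>
  w m && (decide (cnt w m % 2 = 1) || !(g (Nat.unpair (cnt w m / 2)).1 m))

/-- The first `n` levels: a list of the sets to avoid, and the companions of level `n`. -/
noncomputable def lev (B : List ℕ → Set ℕ) (f : ℕ → (ℕ → ℕ) → C) (z : ℕ → ℕ) :
    ℕ → (ℕ → C) × (ℕ → C)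
  | 0 => (fun i => f i z, fun j m => f j z m && @decide (m ∈ Br B z) (Classical.propDecidable _))
  | n + 1 => (fun i => if i % 2 = 0 then (lev B f z n).1 (i / 2) else
      dia ((lev B f z n).2 (i / 2)) (lev B f z n).1, fun j => dia ((lev B f z n).2 j) (lev B f z n).1)

/-- The companion of level `n` of `f j z`; level `0` is `f j z ∩ Br B z`. -/
noncomputable def com (B : List ℕ → Set ℕ) (f : ℕ → (ℕ → ℕ) → C) (n j : ℕ) (z : ℕ → ℕ) : C :=
  (lev B f z n).2 j

/-- The companions of level `n`, mod finite. -/
def Com (B : List ℕ → Set ℕ) (f : ℕ → (ℕ → ℕ) → C) (n : ℕ) : Set C :=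
  {x | ∃ z j, Hit (f j z) (Br B z) ∧ AEq x (com B f n j z)}

/-- A balanced pair: every element of one set contains an element of the other. -/
structure Bal (P Q : Set C) : Prop where
  disj : ∀ x ∈ P, x ∉ Q
  tailP : Tail P
  tailQ : Tail Q
  infP : ∀ x ∈ P, Inf x
  infQ : ∀ x ∈ Q, Inf x
  balP : ∀ x ∈ P, ∃ y ∈ Q, Sub y x
  balQ : ∀ x ∈ Q, ∃ y ∈ P, Sub y x

/-! ## Part F: the simulation -/

/-- **SIB** (300), uses nothing.  SIM (in `B_SIM.lean`) with blocks.  Copy `B_SIM.lean` with new names `SIB_..` (or import it and use its lemmas): `B l = Set.Ico (g (SIM_cd l)) (g (SIM_cd l + 1))`; `hlen3` there says that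
for `i % 2 = p`, `1 ≤ i`, the interval `[len (Φ z) i, len (Φ z) (i + 1))` is contained in `B (hist z i)`; `K = len (Φ z) 1`. -/
def Stmt_SIB : Prop := ∀ (p : ℕ) (T : List ℕ → ℕ), p < 2 →
  ∃ (s : List ℕ → ℕ) (Φ : (ℕ → ℕ) → (ℕ → ℕ)) (B : List ℕ → Set ℕ), Blk B ∧
    ∀ z, Cons p s z → Cons p T (Φ z) ∧ mv (Φ z) = z ∧ (∀ N, ∃ i, N ≤ len (Φ z) i) ∧
      ∃ K, ∀ m ∈ own p (Φ z), K ≤ m → m ∈ Br B z

/-! ## Part G: the sets MA and MB -/

/-- **MSB** (120), uses nothing.  `Adj B a b`, for fixed numbers, does not depend on `x`; `{x | x a = true}` is clopen.  `MA`, `MB` are built from these by countable unions and intersections (`Inf x` too):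
`MeasurableSet.iUnion`, `MeasurableSet.iInter`, `Set.setOf_exists`, `Set.setOf_forall`, `MeasurableSet.const`, or `measurability`. -/
def Stmt_MSB : Prop := ∀ B : List ℕ → Set ℕ, MeasurableSet (MA B) ∧ MeasurableSet (MB B)

/-- **MST** (120), uses nothing.  Tail sets.  If `Uq B x N` and `N ≤ N'` then `Uq B x N'`.  If `Uq B x N`, then for `N ≤ N'` only finitely many `a` have `Nb B x N a` and not `Nb B x N' a` (such `a` has its neighbour in
`[N, N')`, and by `Uq` (and symmetry of `Adj`) every element `≥ N` of `x` in `[N, N')` is the neighbour of at most one `a ≥ N`).  So the conditions in `MA`, `MB` for `N` imply those for every larger `N'`, and for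
`N'` beyond which `x = y` they are the same for `x` and `y` (but for the finitely many `a < N'`). -/
def Stmt_MST : Prop := ∀ B : List ℕ → Set ℕ, Tail (MA B) ∧ Tail (MB B) ∧
  (∀ x ∈ MA B, Inf x) ∧ (∀ x ∈ MB B, Inf x) ∧ ∀ x ∈ MA B, x ∉ MB B

/-- **MPR** (100), uses nothing.  Pairs.  `x` contains the `a k`, `b k`; adjacency exactly inside the pairs.  `y` = all `a k`, `b k` is in `MA`, `y` = all `a k` and the `b k` with `k` even is in `MB` (`N = 0`; infinite
because the `a k` are different, `Set.infinite_range_of_injective`). -/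
def Stmt_MPR : Prop := ∀ (B : List ℕ → Set ℕ) (x : C) (a b : ℕ → ℕ),
  (∀ k, x (a k) = true ∧ x (b k) = true ∧ a k ≠ b k ∧ Adj B (a k) (b k)) →
  (∀ k k', k ≠ k' → ∀ c c', (c = a k ∨ c = b k) → (c' = a k' ∨ c' = b k') → c ≠ c' ∧ ¬ Adj B c c') →
  (∃ y ∈ MA B, Sub y x) ∧ ∃ y ∈ MB B, Sub y x

/-- **MAB** (120), uses MPR.  `MA` to `MB`: let `x ∈ MA` with `N`, `M`.  Recursion: `a k ≥ max M N`, larger than all `a j`, `b j`, `j < k`, in `x`; `b k` its neighbour.  By `Uq` (and symmetry) `b k` is not one of the former `a j`, `b j`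
(their only neighbours are their partners, and `a k` is larger), and there is no adjacency between different pairs.  MPR.  `MB` to `MA`: `y = {a ∈ x | N ≤ a, Nb B x N a}`: the neighbour of such `a` is again
in `y`. -/
def Stmt_MAB : Prop := ∀ B : List ℕ → Set ℕ,
  (∀ x ∈ MA B, ∃ y ∈ MB B, Sub y x) ∧ ∀ x ∈ MB B, ∃ y ∈ MA B, Sub y x

/-- **NOD** (200), uses nothing.  A set `M` of positions with chains of every finite length has an infinite branch or infinitely many incomparable chains of length two.  Call `h` (in `M`, or `h = []`) large if for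
every `k` there is a chain `c 0 <+: c 1 <+: .. <+: c k` of different elements of `M` with `h <+: c 0`.  `[]` is large.  CASE 1: every large `h` has a large `h' ∈ M`, `h <+: h'`, `h ≠ h'`: a sequence of such `h`
gives `z` with infinitely many `hist z i ∈ M`.  CASE 2: some large `h` has none.  Let `E` be the set of the minimal elements of `{m ∈ M | h <+: m, m ≠ h}`; every element of this set is above an element of `E`
(induction on the length), and different elements of `E` are incomparable.  Let `E'` be the set of the `e ∈ E` above which there is a chain of two elements of `M`.  If `E'` were finite, then, its elements not being large, there would be `k` such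
that there is no chain of length `k` above an element of `E'`; but a chain of length `k + 2` above `h` gives (drop `h` if it is the first member) a chain of length `k + 1 ≥ 2` above an element of `E`, which is in `E'`.
So `E'` is infinite: choose different `e k ∈ E'` and `e' k ∈ M` above, `e' k ≠ e k`. -/
def Stmt_NOD : Prop := ∀ M : Set (List ℕ),
  (∀ k, ∃ (u n : ℕ → ℕ), (∀ i, i < k → n i < n (i + 1)) ∧ ∀ i, i ≤ k → hist u (n i) ∈ M) →
  (∃ z : ℕ → ℕ, ∀ N, ∃ i, N ≤ i ∧ hist z i ∈ M) ∨
  ∃ e e' : ℕ → List ℕ, (∀ k, e k ∈ M ∧ e' k ∈ M ∧ e k <+: e' k ∧ e k ≠ e' k) ∧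
    ∀ k k', k ≠ k' → ¬ e k <+: e k'

/-! ## Part H: companions -/

/-- **DIA** (80), uses nothing.  The elements `m` of `w` with `cnt w m` odd are in `dia w g`.  For `i` and `N` let `k ≥ N` with `(Nat.unpair k).1 = i` (`Nat.pair i N`) and `m` the element of `w` with `cnt w m = 2 k` (so `m ≥ 2 k ≥ N`): there `dia w g` and
`g i` differ.  (Existence of `m`: `w` is infinite; `cnt w` is monotone, unbounded and increases by at most `1`, at the elements of `w`.) -/
def Stmt_DIA : Prop := ∀ (w : C) (g : ℕ → C), Sub (dia w g) w ∧ (Inf w → Inf (dia w g)) ∧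
  (Inf w → ∀ i, ¬ AEq (dia w g) (g i))

/-- **CPR** (150), uses DIA.  Properties of the companions, for `z`, `j` with `Hit (f j z) (Br B z)`: level `0` is infinite; `com (n + 1) j z = dia (com n j z) (lev z n).1`; the list `(lev z n).1` contains all `f i z` and all `com m i z`,
`1 ≤ m ≤ n` (induction on `n`: `(lev z (n + 1)).1 (2 i) = (lev z n).1 i`, `(lev z (n + 1)).1 (2 i + 1) = com (n + 1) i z`). -/
def Stmt_CPR : Prop := ∀ (B : List ℕ → Set ℕ) (f : ℕ → (ℕ → ℕ) → C) (z : ℕ → ℕ) (j : ℕ),
  Hit (f j z) (Br B z) → ∀ n,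
    Inf (com B f n j z) ∧ Sub (com B f (n + 1) j z) (com B f n j z) ∧ Sub (com B f n j z) (f j z) ∧
    (∀ m, com B f n j z m = true → m ∈ Br B z) ∧
    (∀ i, 1 ≤ n → ¬ AEq (com B f n j z) (f i z)) ∧
    ∀ m i, 1 ≤ m → m < n → ¬ AEq (com B f n j z) (com B f m i z)

/-- **CCO** (120), uses nothing.  Continuity of `z ↦ com B f n j z`.  `{z | m ∈ Br B z}` is clopen: if `m` is in no block it is empty; if `m ∈ B l` it is `{z | hist z l.length = l}` (`Blk.inj`).  `(w, g) ↦ dia w g` is continuous in the
sense: if `w z` and all `g i z` are continuous in `z` then `dia (w z) (fun i => g i z)` is: `cnt (w z) m` depends on finitely many coordinates, `continuous_of_discreteTopology` after splitting according to the value of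
`cnt` (or: a map into `Bool` is continuous iff locally constant: for every `z₀` there is a neighbourhood on which `w z i`, `i ≤ m`, and `g k z m`, for the one relevant `k`, are constant). -/
def Stmt_CCO : Prop := ∀ B : List ℕ → Set ℕ, Blk B → ∀ f : ℕ → (ℕ → ℕ) → C,
  (∀ j, Continuous (f j)) → ∀ n j, Continuous (com B f n j)

/-- **CME** (150), uses CPR CCO BRF.  `Com B f n` is Borel.  It is the union over `j` and `t : List Bool` of the images of the Borel set `{z | Hit (f j z) (Br B z)}` under the continuous maps `z ↦ (t below t.length, com B f n j z from there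
on)`, and these are injective there: two infinite sets in `Br B z` and `Br B z'` which agree mod finite give `z = z'` (BRF).  `MeasurableSet.image_of_continuousOn_injOn`. -/
def Stmt_CME : Prop := ∀ B : List ℕ → Set ℕ, Blk B → ∀ f : ℕ → (ℕ → ℕ) → C,
  (∀ j, Continuous (f j)) → ∀ n, MeasurableSet (Com B f n)

/-- **BRF** (60), uses nothing.  For `z ≠ z'` only finitely many positions are initial positions of both, and by `Blk.inj` a common element of `Br B z` and `Br B z'` is in the block of one of them. -/
def Stmt_BRF : Prop := ∀ B : List ℕ → Set ℕ, Blk B → ∀ z z' : ℕ → ℕ, z ≠ z' →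
  (Br B z ∩ Br B z').Finite

/-- **CDI** (80), uses BRF CPR.  Different levels are disjoint (if `com n j z` and `com m j' z'` agree mod finite then `z = z'` by BRF), tail sets, infinite, and every element of level `n` contains one of level `n + 1` (if `x` and `com n j z` agree from `N` on
take `com (n + 1) j z` from `N` on). -/
def Stmt_CDI : Prop := ∀ B : List ℕ → Set ℕ, Blk B → ∀ f : ℕ → (ℕ → ℕ) → C,
  (∀ n m, 1 ≤ m → m < n → ∀ x ∈ Com B f n, x ∉ Com B f m) ∧
  (∀ n, Tail (Com B f n)) ∧ (∀ n, ∀ x ∈ Com B f n, Inf x) ∧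
  ∀ n, ∀ x ∈ Com B f n, ∃ y ∈ Com B f (n + 1), Sub y x

/-- **CMM** (80), uses CPR.  `Com` and `MA`, `MB`: an infinite `x` with almost all elements in `Br B z` is in neither, because any two elements of `Br B z` are adjacent (initial positions of `z` are comparable), so `Uq` fails for every `N` (three
elements `≥ N`). -/
def Stmt_CMM : Prop := ∀ (B : List ℕ → Set ℕ) (f : ℕ → (ℕ → ℕ) → C) (n : ℕ),
  ∀ x ∈ Com B f n, x ∉ MA B ∧ x ∉ MB B

/-! ## Part I: the promised set -/

/-- **RSM** (100), uses nothing.  For fixed `N`, `k` the set of the `x` for which `u`, `n` exist is open (a union over `u`, `n` and the choice of the `m` of clopen sets: finitely many conditions on coordinates of `x`; `isOpen_iff_forall_mem_open` or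
a union of finite intersections), so `Rst` is Borel.  Tail: if `x`, `y` agree from `M` on, use `max N M` and, for `k`, the chain for `k + K`, where `K` is the number of the elements `< M` of blocks: a chain of length `k + K + 1` for `x`
has at most `M` members whose block contains a number `< M` (blocks are disjoint, `Blk.inj`, and the members are different positions), drop them: the `k + 1` first others. -/
def Stmt_RSM : Prop := ∀ B : List ℕ → Set ℕ, Blk B → ∀ f : (ℕ → ℕ) → C, Continuous f →
  MeasurableSet (Rst B f) ∧ Tail (Rst B f)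

/-- **RSR** (80), uses nothing.  Outcomes `f z` which meet `Br B z` in an infinite set are promised: `u = z`, `N = 0`, `n i` increasing such that `f z` meets `B (hist z (n i))` (infinitely many `i` have this property because blocks are finite). -/
def Stmt_RSR : Prop := ∀ B : List ℕ → Set ℕ, Blk B → ∀ (f : (ℕ → ℕ) → C) (z : ℕ → ℕ),
  Hit (f z) (Br B z) → f z ∈ Rst B f

/-- **RSC** (200), uses NOD.  The two cases.  Let `x ∈ Rst B f` with `N`; `M = {h | x meets B h, and some u has hist u h.length = h and x j = f u j for N ≤ j < h.length}`.  It has chains of every finite length (`hist u (n i)`, `i ≤ k`, with the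
same `u`).  NOD.  If `hist z i ∈ M` for infinitely many `i`: `x` and `f z` agree from `N` on (for such `i` there is `u_i` with `hist u_i i = hist z i`; `u_i → z`, and `f` is continuous), and `x` meets infinitely many blocks of `z`, in different points
(`Blk.inj`), so `Hit x (Br B z)`.  Otherwise choose `a k ∈ B (e k)`, `b k ∈ B (e' k)` in `x`: `Adj (a k) (b k)`, and there is no adjacency between different pairs: by `Blk.inj` the positions would be comparable, so `e k` and `e k'` would be
comparable (initial positions of comparable positions: `List.prefix_or_prefix_of_prefix`). -/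
def Stmt_RSC : Prop := ∀ B : List ℕ → Set ℕ, Blk B → ∀ f : (ℕ → ℕ) → C, Continuous f →
  ∀ x ∈ Rst B f, (∃ z, AEq x (f z) ∧ Hit x (Br B z)) ∨
    ∃ a b : ℕ → ℕ, (∀ k, x (a k) = true ∧ x (b k) = true ∧ a k ≠ b k ∧ Adj B (a k) (b k)) ∧
      ∀ k k', k ≠ k' → ∀ c c', (c = a k ∨ c = b k) → (c' = a k' ∨ c' = b k') → c ≠ c' ∧ ¬ Adj B c c'

/-- **RSB** (120), uses nothing.  If `x` is promised and almost contained in `Br B z` then `x` and `f z` agree mod finite.  Let `x ∈ Rst B f` with `N`, `x` contained in `Br B z` from `K` on.  For `k` let `u`, `n` be as in `Rst` for `k + K + 1`: at most `K` of the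
positions `hist u (n i)` have a block with an element `< K` (`Blk.inj`), so among `k + K + 2` positions there is one, with `i ≥ k`, whose block meets `x` in `m ≥ K`, so `m ∈ Br B z` and `hist u (n i) = hist z (n i)`, `n i ≥ k`.
So for every `k` there is `u` with `hist u k = hist z k` and `x j = f u j` for `N ≤ j < k`; let `k → ∞`. -/
def Stmt_RSB : Prop := ∀ B : List ℕ → Set ℕ, Blk B → ∀ f : (ℕ → ℕ) → C, Continuous f →
  ∀ x ∈ Rst B f, ∀ z, (∃ K, ∀ m, K ≤ m → x m = true → m ∈ Br B z) → AEq x (f z)

/-- **RMM** (100), uses nothing.  A promised `x` is not in `MA`, `MB`: for every `N` it has three pairwise adjacent elements `≥ N` (a chain of length `N + 3`, at most `N` of the blocks contain numbers `< N`), so `Uq B x N` fails. -/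
def Stmt_RMM : Prop := ∀ B : List ℕ → Set ℕ, Blk B → ∀ f : (ℕ → ℕ) → C,
  ∀ x ∈ Rst B f, x ∉ MA B ∧ x ∉ MB B

/-- **BAL** (200), uses MSB MST MPR MAB CPR CME CDI CMM RSM RSR RSC RSB RMM.  The balanced pair.  `U = (⋃ j, Rst B (f j)) ∪ (⋃ n, Com B f (2 n + 2)) ∪ MA B`, `V = (⋃ n, Com B f (2 n + 1)) ∪ MB B`.  `Rst` and `Com n`, `n ≥ 1`, are disjoint: RSB and CPR (`com n j z`
does not agree with `f i z`).  `balP`: `x ∈ Rst B (f j)`: RSC; in the first case `Hit (f j z) (Br B z)`, and `com 1 j z` from `N` on is contained in `x`; in the second case MPR.  `Com`: CDI.  `MA`, `MB`: MAB. -/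
def Stmt_BAL : Prop := ∀ B : List ℕ → Set ℕ, Blk B → ∀ f : ℕ → (ℕ → ℕ) → C,
  (∀ j, Continuous (f j)) → ∃ U V : Set C, Bal U V ∧ MeasurableSet U ∧ MeasurableSet V ∧
    ∀ j z, Hit (f j z) (Br B z) → f j z ∈ U

/-! ## Part J: the stages -/

/-- **FIN** (120), uses nothing.  Closure properties.  The members of `F` form a σ-algebra which contains the open sets, so `F` contains the Borel sets; unions, intersections, differences of two sets. -/
def Stmt_FIN : Prop := ∀ F : Set (Set (ℕ → ℕ)), DetAlgebra F →
  (∀ S, MeasurableSet S → S ∈ F) ∧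
  (∀ P : ℕ → Set C, (∀ n, InF F (P n)) → InF F (⋃ n, P n)) ∧
  (∀ P Q : Set C, InF F P → InF F Q → InF F (P ∪ Q)) ∧
  (∀ P Q : Set C, InF F P → InF F Q → InF F (P \ Q)) ∧
  (∀ P : Set C, MeasurableSet P → InF F P)

/-- **PAF** (120), uses FIN.  `PAY` (see `B_PAY.lean`) for `DetAlgebra` instead of `DetAlg` (Borel sets by FIN). -/
def Stmt_PAF : Prop := ∀ F : Set (Set (ℕ → ℕ)), DetAlgebra F → ∀ P Q : Set C, InF F P → InF F Q →
  ∀ φ : Fm F CM, {z | φ.tr (fun k => mv z ∈ k.1) (atm P Q z)} ∈ F

/-- **MIX** (100), uses nothing.  `P' = P ∪ (U \ Q)`, `Q' = Q ∪ (V \ P)`.  `balP`: `x ∈ U` contains `y ∈ V`; if `y ∈ P` then `y` contains an element of `Q`, otherwise `y ∈ Q'`.  `balQ`: `x ∈ V` contains `y ∈ U`; if `y ∈ Q` then `y` contains an element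
of `P`. -/
def Stmt_MIX : Prop := ∀ P Q U V : Set C, Bal P Q → Bal U V → Bal (P ∪ (U \ Q)) (Q ∪ (V \ P))

/-- **STA** (250), uses SIB OWN FMA BAL MIX FIN PAF.  The stage (compare `B_STG.lean`).  The auxiliary game `{z | φ.tr (mv z ∈ k.1) (atm P Q z)}` is in `F` (PAF), so it is determined.  The atoms of `φ` are countable (FMA): enumerate them as `f j` (if there are none take
any constant map).  I wins by `T`: SIB for `p = 0`, BAL: `U ∋ f j z` for all `z` with `Hit (f j z) (Br B z)`; `P' = P ∪ (U \ Q)`, `Q' = Q ∪ (V \ P)` (MIX, FIN).  Let `P' ⊆ A`, `A ∩ Q' = ∅`.  For a run `z` according to `s` the run `Φ z` is won by I, and `atm P Q (Φ z) f` implies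
`f z ∈ A`: `f z ∈ P`, or `f z ∉ Q`, infinite and `¬ Hit (f z) (own 1 (Φ z))`, so `Hit (f z) (own 0 (Φ z))` (OWN), so `Hit (f z) (Br B z)`, `f z ∈ U \ Q`; FMA.  II wins by `T`: SIB for `p = 1`, BAL with exchanged
roles: `P' = P ∪ (V \ Q)`, `Q' = Q ∪ (U \ P)` (MIX for `V`, `U`, `Bal` is symmetric).  For a run `z` according to `s`: `f z ∈ A` implies `atm P Q (Φ z) f`: `f z` is infinite and not in `Q`; if `f z ∉ P` and `Hit (f z) (own 1 (Φ z))` then
`Hit (f z) (Br B z)`, `f z ∈ U \ P ⊆ Q'`, contradiction.  So `φ.tr .. (f z ∈ A)` would give that `Φ z` is won by I. -/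
def Stmt_STA : Prop := ∀ F : Set (Set (ℕ → ℕ)), DetAlgebra F → ∀ P Q : Set C, Bal P Q →
  InF F P → InF F Q → ∀ φ : Fm F CM, ∃ P' Q' : Set C, Bal P' Q' ∧ InF F P' ∧ InF F Q' ∧
    P ⊆ P' ∧ Q ⊆ Q' ∧
    ∀ A : Set C, P' ⊆ A → (∀ x ∈ A, x ∉ Q') → (∀ x ∈ A, Inf x) →
      Determined {z | φ.tr (fun k => z ∈ k.1) (fun f => f.1 z ∈ A)}

/-- **LIB** (60), uses nothing.  Unions of increasing sequences. -/
def Stmt_LIB : Prop := ∀ P Q : ℕ → Set C, (∀ n, Bal (P n) (Q n)) →
  (∀ n, P n ⊆ P (n + 1) ∧ Q n ⊆ Q (n + 1)) → Bal (⋃ n, P n) (⋃ n, Q n)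

/-- **POF** (80), uses nothing.  Positive operations are given by formulas (induction, choice), and they are closed under continuous preimages (induction on `Positive`). -/
def Stmt_POF : Prop := ∀ F : Set (Set (ℕ → ℕ)), DetAlgebra F → ∀ S : Set C → Set (ℕ → ℕ),
  Positive F S → (∃ φ : Fm F CM, ∀ A, S A = {z | φ.tr (fun k => z ∈ k.1) (fun f => f.1 z ∈ A)}) ∧
    ∀ g : (ℕ → ℕ) → (ℕ → ℕ), Continuous g → Positive F (fun A => g ⁻¹' (S A))

/-- **INJ** (120), uses nothing.  An injective choice function.  `I`, `X` of cardinality at most continuum, every `K i` of cardinality at least continuum.  Let `e` be an injection of `I` into `Cardinal.continuum.ord.ToType` (initial segments have cardinality `<` continuum: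
`Cardinal.mk_Iio_ord_toType` or similar); define `c i ∈ K i \ {c j | e j < e i}` by well-founded recursion. -/
def Stmt_INJ : Prop := ∀ (I X : Type) (K : I → Set X), Cardinal.mk I ≤ Cardinal.continuum →
  (∀ i, Cardinal.continuum ≤ Cardinal.mk (K i)) → ∃ c : I → X, Function.Injective c ∧ ∀ i, c i ∈ K i

/-- **BRN** (150), uses INJ.  A tail set which is not Ramsey anywhere.  `X` = the quotient of `C` by `AEq`, `I = {H // Inf H} × Bool`, `K (H, _)` = the classes of the infinite subsets of `H`: cardinality `≥` continuum, because for `r : ℕ → Bool` the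
sets `{h (code (r | n)) | n}` (`h` the increasing enumeration of `H`, or any injection of `ℕ` into `H`; `code` an injection of `List Bool` into `ℕ`) are infinite and for different `r` almost disjoint.  With `c` from INJ let `Z` be the set of the infinite `x` whose class is a
`c (H, true)`.  The class `c (H, false)` is that of an infinite `y ⊆ H`, `y ∉ Z`. -/
def Stmt_BRN : Prop := ∃ Z : Set C, Tail Z ∧ (∀ x ∈ Z, Inf x) ∧
  ∀ H, Inf H → (∃ x ∈ Z, Sub x H) ∧ ∃ y, Inf y ∧ Sub y H ∧ y ∉ Z

end Pool.LF
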