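import Pool.Agent.Work.MP_f36782_lf.Interface2

set_option autoImplicit false

/-!
# MP_f36782_lc, THEOREM LF, part K: changing a given set on a Ramsey null set

Files `B_X.lean` in `Pool/Agent/Work/MP_f36782_lf` (import `Pool.Agent.Work.MP_f36782_lf.Interface3`),
`open MeasureTheory Pool.Agent.Work.RamseyAD`, namespace `Pool.LF`.

THE THEOREM.  Let `I` be a type such that every family of functions `ρ i : ℕ → ℕ`, `i : I`, is
dominated by one function.  Every set `A₀` can be changed on a Ramsey null set to a set `A` such that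
given positive operations `S i`, `i : I`, have determined values at `A`.  The auxiliary games (with
`P = Q = ∅`) are simulated simultaneously with one system of blocks.
-/

open MeasureTheory Pool.Agent.Work.RamseyAD

namespace Pool.LF

/-- Every family of functions indexed by `I` is eventually dominated by one function. -/
def Dmd (I : Type) : Prop :=
  ∀ ρ : I → ℕ → ℕ, ∃ g : ℕ → ℕ, ∀ i, ∃ N, ∀ n, N ≤ n → ρ i n ≤ g n

/-- The branch of the pair `r`, `z`. -/
def prb (r z : ℕ → ℕ) : ℕ → ℕ := fun n => Nat.pair (r n) (z n)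

/-- **FDM** (100), uses nothing.  (Compare `fast` in `MP_f36782_h69/Games.lean`.)  `h i n` = the maximum of `ρ i w` over the (finitely many) lists `w` with `w.length ≤ n` and all entries `≤ n`; `h'` dominates all `h i`.  `g 0 = 0`,
`g (m + 1) = h' (g m + m + 1) + g m + 1`.  Let `N ≥ 1` with `h i n ≤ h' n` for `n ≥ N`.  For `j` with `m = k j ≥ N` the list `hist (g ∘ k) j` has length `j ≤ m` and entries `≤ g (m - 1)` (for `a < j`, `k a ≤ m - 1`), so
`ρ i (..) ≤ h i n ≤ h' n < g m` for `n = g (m - 1) + m`. -/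
def Stmt_FDM : Prop := ∀ I : Type, Dmd I → ∀ ρ : I → List ℕ → ℕ,
  ∃ g : ℕ → ℕ, StrictMono g ∧ ∀ i, ∃ N, ∀ k : ℕ → ℕ, StrictMono k → ∀ j, N ≤ k j →
    ρ i (hist (fun a => g (k a)) j) < g (k j)

/-- **SIF** (300), uses FDM.  SIM (`B_SIM.lean`) for a family.  As there with `ρ i = SIM_rho (p i) (T i)`, `g` from FDM, and with `SIM_cd (hist w (j + 1))` instead of `SIM_cd (hist z (j + 1))`, where `w = prb (r i) z`:
the prescribed lengths are `n j = g (SIM_cd (hist w (j + 1)))`, `Φ i z j` is the last entry of the simulated position, `s i l` is computed from `l` and `r i`.  The estimates hold for `j` with `N ≤ k j`, `k j = SIM_cd (hist w (j + 1))`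
(`j ≤ k j`), so from some position on: the interval of player `p i` with number `j` is contained in `B (hist w j)`, `B l = Set.Ico (g (SIM_cd l)) (g (SIM_cd l + 1))`, and the lengths are unbounded. -/
def Stmt_SIF : Prop := ∀ I : Type, Dmd I → ∀ (r : I → ℕ → ℕ) (p : I → ℕ) (T : I → List ℕ → ℕ),
  (∀ i, p i < 2) → ∃ (s : I → List ℕ → ℕ) (Φ : I → (ℕ → ℕ) → (ℕ → ℕ)) (B : List ℕ → Set ℕ), Blk B ∧
    ∀ i z, Cons (p i) (s i) z → Cons (p i) (T i) (Φ i z) ∧ mv (Φ i z) = z ∧
      (∀ N, ∃ j, N ≤ len (Φ i z) j) ∧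
      ∃ K, ∀ m ∈ own (p i) (Φ i z), K ≤ m → m ∈ Br B (prb (r i) z)

/-- **RNG** (120), uses nothing.  RNC (`B_RNC.lean`) with a general index type. -/
def Stmt_RNG : Prop := ∀ (ι : Type) (D : ι → Set ℕ) (f : ι → C),
  (∀ a b, a ≠ b → (D a ∩ D b).Finite) → RN {x | ∃ a, AEq x (f a) ∧ Hit (f a) (D a)}

/-- **ONF** (250), uses SIF RNG RNU BRF OWN FMA FIN PAF.  Let `r : I → (ℕ → ℕ)` be injective.  The auxiliary games `{z | (φ i).tr (mv z ∈ k.1) (atm ∅ ∅ z)}` are in `F` (PAF; `∅` is in `InF F` by FIN), so they are determined: `p i` = the winner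
(`0` or `1`), `T i` a winning strategy.  SIF.  `D (i, z) = Br B (prb (r i) z)`: almost disjoint (BRF, `prb` and `r` are injective).  Enumerate the atoms of `φ i` (FMA) as `f i j`, `j : ℕ` (a constant map if there are none).
`R⁺ = {x | ∃ i z j, p i = 0, AEq x (f i j z), Hit (f i j z) (D (i, z)), and f i j z is contained in D (i, z) up to a finite set}`, `R⁻ = {x | ∃ i z j, p i = 1, AEq x (f i j z), Hit (f i j z) (D (i, z))}`.  They are disjoint (a common element
would give two different index pairs with an infinite intersection of the `D`), tail sets, and their union is Ramsey null (RNG for fixed `j`, RNU).  `A = (A₀ ∪ R⁺) \\ R⁻`.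
I wins (`p i = 0`): for a run `z` according to `s i` the run `Φ i z` is won by I, and `atm ∅ ∅ (Φ i z) f` (`f z` is infinite and `¬ Hit (f z) (own 1 (Φ i z))`) implies that `f z` is contained in `own 0 (Φ i z)` up to a finite set (every number is in one of the
intervals, compare OWN; the least `j` with `m < len (Φ i z) (j + 1)`), so `f z ∈ R⁺ ⊆ A`; FMA.  II wins: `f z ∈ A` implies `f z ∉ R⁻`; either `f z` is infinite and does not hit `own 1 (Φ i z)`, so `atm`, or `f z` is finite.
REMARK on finite sets: choose `A` such that it contains no finite set: replace `A₀` by `{x ∈ A₀ | Inf x}` (this changes nothing for infinite `x`; tail sets stay tail sets). -/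
def Stmt_ONF : Prop := ∀ F : Set (Set (ℕ → ℕ)), DetAlgebra F → ∀ I : Type, Dmd I →
  (∃ r : I → (ℕ → ℕ), Function.Injective r) → ∀ (φ : I → Fm F CM) (A₀ : Set C), ∃ A : Set C,
    (∀ i, Determined {z | (φ i).tr (fun k => z ∈ k.1) (fun f => f.1 z ∈ A)}) ∧
    (Tail A₀ → Tail A) ∧
    ∀ X, Inf X → ∃ Y, Inf Y ∧ Sub Y X ∧ ∀ x, Inf x → ASub x Y → (x ∈ A ↔ x ∈ A₀)

end Pool.LF
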