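import Pool.Agent.Work.MP_f36782_lf.Interface3
import Pool.Agent.Work.MP_f36782_lf.Defs3

set_option autoImplicit false

/-!
# MP_f36782_lc, THEOREM LF, part L: operations which are not positive

Files `B_X.lean` in `Pool/Agent/Work/MP_f36782_lf` (import `Pool.Agent.Work.MP_f36782_lf.Interface4`),
`open MeasureTheory Pool.Agent.Work.RamseyAD`, namespace `Pool.LF`, `theorem p_X (h1 : Stmt_Y) .. :
Stmt_X` with exactly the blocks of the column `uses` as hypotheses in that order.  Helper lemmas with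
the prefix `X_`.  The docstrings contain the proofs.

THE THEOREM.  Let every family of functions indexed by `I` be dominated by one function (for example
`I` countable).  Every set `A₀` can be changed on a Ramsey null set to a set `A` such that given
operations `S i` have determined values at `A`, where each `S i` is positive, or a finite Boolean
combination of open positive operations (of positive operations, if `F` is closed under projections).

THE PROOF.  The auxiliary games: the players play `z` and cut `ω` into intervals.  The atoms (ports)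
of `S i` are the sets `g j z`.  A port is pure for a player if it is infinite and almost contained in
his intervals.  All other ports are declared to be not in `A`.  Who wins the run is decided by a
finite game `G` on the truth values: at first all ports are false; the players may only make ports
true which are pure for them; a player who is not satisfied with the truth value of the payoff must
add true ports until he is satisfied, otherwise he has lost.  There are only finitely many rounds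
because the payoff is a Boolean combination of `k` monotone conditions, so the game `G` is determined
(ZER).  The winner of the auxiliary game `i` plays in the real game such that his pure ports in
different runs are different (SIF).  Then the set `A` is defined by a process in which all runs of all
games take part simultaneously (NET): at first no pure port of a winner is in `A`; whenever the winner
of a run is not satisfied with the present truth values he adds some of his pure ports according to his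
strategy in `G`.  The process stops because there are at most `k` changes in each run.
-/

open MeasureTheory Pool.Agent.Work.RamseyAD

namespace Pool.LF

/-! ## Notions -/

/-- The Borel maps to Cantor space. -/
abbrev MM : Type := {f : (ℕ → ℕ) → C // Measurable f}

/-- The indices of the ports which are pure for player `p` in the run `w`. -/
def Pu (p : ℕ) (g : ℕ → MM) (w : ℕ → ℕ) : Set ℕ :=
  {j | Inf ((g j).1 (mv w)) ∧ ¬ Hit ((g j).1 (mv w)) (own (1 - p) w)}

/-- The equivalence relations used below: equality and equality up to a finite set. -/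
structure EqR (E₀ : C → C → Prop) : Prop where
  equiv : Equivalence E₀
  le : ∀ x y, E₀ x y → AEq x y
  meas : ∀ f f' : (ℕ → ℕ) → C, Measurable f → Measurable f' → MeasurableSet {z | E₀ (f z) (f' z)}

/-- The induced equivalence relation on the indices. -/
def ER (E₀ : C → C → Prop) (g : ℕ → MM) (z : ℕ → ℕ) (i j : ℕ) : Prop := E₀ ((g i).1 z) ((g j).1 z)

/-- The closure of a set of indices. -/
def clo (E : ℕ → ℕ → Prop) (s : Set ℕ) : Set ℕ := {j | ∃ i ∈ s, E i j}

/-- The player who owns `J` is satisfied in the position `s` and can stay satisfied for `n` rounds.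
`Φ` = he is satisfied; `J'` = the indices which the other player can make true; `Q` = the positions. -/
def Lw (Φ : Set ℕ → Prop) (J J' : Set ℕ) (Q : Set (Set ℕ)) : ℕ → Set ℕ → Prop
  | 0, s => Φ s
  | n + 1, s => Φ s ∧ ∀ s' ∈ Q, s ⊆ s' → s' \ s ⊆ J' → ¬ Φ s' →
      ∃ s'' ∈ Q, s' ⊆ s'' ∧ s'' \ s' ⊆ J ∧ Lw Φ J J' Q n s''

/-- A response system for the owner of `J`.  `Sy a b`: `b` is a good answer if `a` is the set of the
true indices which he does not own.  `ρ` counts the changes. -/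
structure Sys (J J' : Set ℕ) (Φ : Set ℕ → Prop) (Sy : Set ℕ → Set ℕ → Prop)
    (ρ : Set ℕ → Set ℕ → ℕ) (k : ℕ) : Prop where
  sub : ∀ a b, Sy a b → b ⊆ J
  init : ∃ b, Sy ∅ b
  step : ∀ a b a', Sy a b → a ⊆ a' → a' ⊆ J' → ¬ Sy a' b →
    ∃ b', b ⊆ b' ∧ Sy a' b' ∧ ρ a b < ρ a' b'
  bdd : ∀ a b, ρ a b ≤ k
  win : ∀ a b, Sy a b → a ⊆ J' → Φ (a ∪ b)

/-- There is a response system. -/
def HasSys (J J' : Set ℕ) (Φ : Set ℕ → Prop) : Prop :=
  ∃ (Sy : Set ℕ → Set ℕ → Prop) (ρ : Set ℕ → Set ℕ → ℕ) (k : ℕ), Sys J J' Φ Sy ρ k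

/-- The operation with the ports `g` and the truth function `Ψ` can be decided: if the run `w` of the
auxiliary game is in `W` then I has a response system, otherwise II has one. -/
def Ref (F : Set (Set (ℕ → ℕ))) (E₀ : C → C → Prop) (g : ℕ → MM)
    (Ψ : (ℕ → ℕ) → Set ℕ → Prop) : Prop :=
  ∃ W ∈ F, ∀ w : ℕ → ℕ,
    (w ∈ W → HasSys (Pu 0 g w) (Pu 1 g w) (fun s => Ψ (mv w) (clo (ER E₀ g (mv w)) s))) ∧
    (w ∉ W → HasSys (Pu 1 g w) (Pu 0 g w) (fun s => ¬ Ψ (mv w) (clo (ER E₀ g (mv w)) s)))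

/-- The subsets of `Y` whose continuous preimages are in `F`. -/
def InY (F : Set (Set (ℕ → ℕ))) (Y : Type) [TopologicalSpace Y] (P : Y → Prop) : Prop :=
  ∀ c : (ℕ → ℕ) → Y, Continuous c → {z | P (c z)} ∈ F

/-- The truth function of a formula with the ports `g`. -/
def trP {F : Set (Set (ℕ → ℕ))} (g : ℕ → MM) (φ : Fm F MM) (z : ℕ → ℕ) (T : Set ℕ) : Prop :=
  φ.tr (fun k => z ∈ k.1) (fun f => ∃ j ∈ T, g j = f)

/-! ## Part L1: normal forms -/

/-- **CNF** (80), uses nothing.  Normal form of a Boolean combination.  Induction: `of`: `k = 1`, `h B = (0 ∈ B)`.  `compl`: `¬ h`.  `inter`: `k + k'`, `V = Fin.append V V'` (or `Fin.addCases`), `h'' B = h {l | Fin.castAdd k' l ∈ B} ∧ h' {l | Fin.natAdd k l ∈ B}`. -/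
def Stmt_CNF : Prop := ∀ (G : Op → Prop) (S : Op), Combo G S →
  ∃ (k : ℕ) (V : Fin k → Op) (h : Set (Fin k) → Prop), (∀ l, G (V l)) ∧
    ∀ A, S A = {z | h {l | z ∈ V l A}}

/-- **PFM** (60), uses nothing.  Positive operations are given by formulas (compare `p_POF` in `B_POF.lean`).  Induction, choice. -/
def Stmt_PFM : Prop := ∀ (F : Set (Set (ℕ → ℕ))) (S : Op), PosOp F Measurable S →
  ∃ φ : Fm F MM, ∀ A, S A = {z | φ.tr (fun k => z ∈ k.1) (fun f => f.1 z ∈ A)}

/-- **ENU** (100), uses nothing.  Enumeration of the maps in open positive operations.  `D l`, `L l` from `OpenPos`.  The set of all `f` with `f ∈ L l n` for some `l`, `n` is countable: let `g : ℕ → MM` be such that its range contains all of them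
(if it is empty any `g`); `N l n` = a finite set of numbers `j`, one for each `f ∈ L l n`, with `(g j).1 = f` (image of `(L l n).toFinset` (classical) or of the list under a choice function). -/
def Stmt_ENU : Prop := ∀ (F : Set (Set (ℕ → ℕ))) (k : ℕ) (V : Fin k → Op),
  (∀ l, OpenPos F Measurable (V l)) →
  ∃ (g : ℕ → MM) (D : Fin k → ℕ → Set (ℕ → ℕ)) (N : Fin k → ℕ → Finset ℕ),
    (∀ l n, D l n ∈ F) ∧ ∀ l A z, z ∈ V l A ↔ ∃ n, z ∈ D l n ∧ ∀ j ∈ N l n, (g j).1 z ∈ A

/-- **ENP** (80), uses FMA.  Enumeration of the atoms of finitely many formulas (countable by FMA; if there are none take any `g`); then, by induction on the formula (or by FMA twice), the truth of `φ l` at `z`, `A` is `trP`. -/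
def Stmt_ENP : Prop := ∀ (F : Set (Set (ℕ → ℕ))) (k : ℕ) (φ : Fin k → Fm F MM),
  ∃ g : ℕ → MM, ∀ l (A : Set C) z,
    (φ l).tr (fun k => z ∈ k.1) (fun f => f.1 z ∈ A) ↔ trP g (φ l) z {j | (g j).1 z ∈ A}

/-- **EQB** (80), uses nothing.  Equality, and equality up to a finite set, are relations as in `EqR`. -/
def Stmt_EQB : Prop := EqR (fun x y => x = y) ∧ EqR AEq

/-! ## Part L2: the finite game -/

/-- **ZER** (150), uses nothing.  Let `Φ s = h (v s)`, `J`, `J'`, `Q` fixed.  (1) If `Lw k s` then `Lw n s` for all `n`: claim, by induction on `d`: if `k - |v s| ≤ d` and `Lw d s` then `Lw n s` for all `n`.  If `s'` is as in the definition then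
`Φ s` and `¬ Φ s'` give `v s ≠ v s'`, so `v s ⊂ v s'`, and in the same way `v s' ⊂ v s''`.  For `d = 0` there is no such `s'` (`v s` is everything); for `d + 1` apply the claim to `s''`: `k - |v s''| ≤ d`.
(2) Write `M n s = Lw (¬ Φ) J' J Q n s`.  CLAIM: if `Φ s` and not `Lw n s` then there is `s' ∈ Q`, `s ⊆ s'`, `s' \ s ⊆ J'`, with `M m s'` for all `m`.  Induction on `n`; `n = 0`: contradiction.  `n + 1`: there is `s' ∈ Q`, `s ⊆ s'`, `s' \ s ⊆ J'`,
`¬ Φ s'`, such that no `s'' ∈ Q`, `s' ⊆ s''`, `s'' \ s' ⊆ J` has `Lw n s''`.  `M 0 s'`; `M (m + 1) s'`: for such `s''` with `Φ s''` the induction hypothesis gives `s''' ∈ Q`, `s'' ⊆ s'''`, `s''' \ s'' ⊆ J'`, `M m s'''`.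
START: let no `s ∈ Q`, `s ⊆ J` have `Lw k s`.  If `Φ ∅` then the claim for `s = ∅` gives `s' ⊆ J'` with `M k s'`.  If `¬ Φ ∅` then `M m ∅` for all `m`: for `s'' ∈ Q`, `s'' ⊆ J`, `Φ s''` the claim gives `s'''`. -/
def Stmt_ZER : Prop := ∀ (k : ℕ) (v : Set ℕ → Set (Fin k)) (h : Set (Fin k) → Prop)
  (J J' : Set ℕ) (Q : Set (Set ℕ)), Monotone v → ∅ ∈ Q →
  (∀ s, Lw (fun s => h (v s)) J J' Q k s → ∀ n, Lw (fun s => h (v s)) J J' Q n s) ∧
  ((∃ s ∈ Q, s ⊆ J ∧ Lw (fun s => h (v s)) J J' Q k s) ∨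
    ∃ s ∈ Q, s ⊆ J' ∧ Lw (fun s => ¬ h (v s)) J' J Q k s)

/-- **GSY** (200), uses ZER.  Let `Φ s = h (v s)`, and let `𝓛 s` = (`s ∈ Q` and `Lw n s` for all `n`).  (a) If `𝓛 s` and `s'` is as in the definition of `Lw` then there is `s''` with `𝓛 s''` (use `Lw (k + 1) s` and ZER (1)).
`Sy a b` = (`a ⊆ J'`, `b ⊆ J`, `Φ (a ∪ b)`, and some `s` with `𝓛 s` has `b ⊆ s ⊆ a ∪ b`).  `ρ a b = |v (a ∪ b)|` (`Set.ncard`), bound `k`.  `init`: `b` = the given set `s ⊆ J`.  `win`, `sub`: clear.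
`step`: let `Sy a b`, `a ⊆ a' ⊆ J'`, `¬ Sy a' b`.  Then `¬ Φ (a' ∪ b)` (the same `s`), so `v (a ∪ b) ⊂ v (a' ∪ b)`, and it is enough to find `b' ⊇ b` with `Sy a' b'`.  CLAIM, by induction on `d`: if `b ⊆ J`, some `s` with `𝓛 s` has `b ⊆ s ⊆ a' ∪ b`,
and `k - |v (a' ∪ b)| ≤ d` then there is `b' ⊇ b` with `Sy a' b'`.  If `Φ (a' ∪ b)` take `b' = b`.  Otherwise take `s' ∈ Q`, `s ⊆ s' ⊆ a' ∪ b`, `v s' = v (a' ∪ b)` (hypothesis on `Q`): `s' \ s ⊆ a' ⊆ J'`, `¬ Φ s'`; by (a) `s'' ⊇ s'`, `s'' \ s' ⊆ J`, `𝓛 s''`.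
Let `b'' = b ∪ (s'' \ s')`: `b'' ⊆ s'' ⊆ a' ∪ b''`, and `v (a' ∪ b'') ⊇ v s'' ⊃ v s' = v (a' ∪ b)` (strictly, because `Φ s''`, `¬ Φ s'`); apply the induction hypothesis to `b''` (for `d = 0` this is a contradiction). -/
def Stmt_GSY : Prop := ∀ (k : ℕ) (v : Set ℕ → Set (Fin k)) (h : Set (Fin k) → Prop)
  (J J' : Set ℕ) (Q : Set (Set ℕ)), Monotone v → ∅ ∈ Q →
  (∀ s ∈ Q, ∀ t, s ⊆ t → ∃ s' ∈ Q, s ⊆ s' ∧ s' ⊆ t ∧ v s' = v t) →
  (∃ s ∈ Q, s ⊆ J ∧ Lw (fun s => h (v s)) J J' Q k s) → HasSys J J' (fun s => h (v s))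

/-- **NET** (250), uses nothing.  All runs simultaneously.  `Sy κ`, `ρ κ`, `k κ` from `HasSys`.  For `b : K → Set ℕ` let `Tr b = Z ∪ {y | ∃ κ, ∃ j ∈ b κ, E₀ y (x κ j)}` and `in b κ = {j ∈ J' κ | x κ j ∈ Tr b}`; both are monotone in `b`.
A state is a pair `(a, b)`, `a b : K → Set ℕ`, with `Sy κ (a κ) (b κ)` and `a κ ⊆ in b κ` for all `κ`.  `(a, b) ≤ (a', b')` if for every `κ` the pairs `(a κ, b κ)`, `(a' κ, b' κ)` are equal or `a κ ⊆ a' κ`, `b κ ⊆ b' κ` and `ρ κ (a κ) (b κ) < ρ κ (a' κ) (b' κ)`.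
This is a partial order (preorder is enough).  There is a state: `a = ∅`, `b` from `init`.  ZORN: for a nonempty chain and `κ` choose a member for which `ρ κ (a κ) (b κ)` is maximal (bounded by `k κ`); let `(a' κ, b' κ)` be its pair at `κ`.
For any member of the chain the pair at `κ` is equal to it or smaller (compare the two members; if the chosen one is the smaller one they are equal at `κ`, because of the maximality).  So `(a', b')` is an upper bound and a state (`in` is monotone).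
Let `(a, b)` be maximal.  CLAIM: `Sy κ (in b κ) (b κ)` for all `κ`.  Otherwise `step` for `a κ ⊆ in b κ` gives `b'`; changing the pair at `κ` to `(in b κ, b')` gives a strictly larger state (`Function.update`).
`A = Tr b`.  It is `E₀`-invariant (`Z` is).  Off the ports it is `Z` (`b κ ⊆ J κ`).  For every `κ`: `{j | x κ j ∈ A} = clo (in b κ ∪ b κ)`.  `⊇` by invariance.  `⊆`: let `x κ j ∈ A`.  If `j ∈ J' κ` then `j ∈ in b κ`.  If `j ∈ J κ` then `x κ j ∉ Z`, so `E₀ (x κ j) (x κ' j')`,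
`j' ∈ b κ' ⊆ J κ'`, and `κ = κ'`.  Otherwise `x κ j ∉ A` by hypothesis.  So `win` gives `Ψ κ`. -/
def Stmt_NET : Prop := ∀ E₀ : C → C → Prop, Equivalence E₀ → ∀ (K : Type) (x : K → ℕ → C)
  (J J' : K → Set ℕ) (Z : Set C) (Ψ : K → Set ℕ → Prop),
  (∀ y y', E₀ y y' → y ∈ Z → y' ∈ Z) →
  (∀ κ κ' j j', j ∈ J κ → j' ∈ J κ' → E₀ (x κ j) (x κ' j') → κ = κ') →
  (∀ κ j j', E₀ (x κ j) (x κ j') → j ∈ J κ → j' ∈ J κ) →
  (∀ κ j j', E₀ (x κ j) (x κ j') → j ∈ J' κ → j' ∈ J' κ) →
  (∀ κ j, j ∈ J κ → j ∉ J' κ ∧ x κ j ∉ Z) →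
  (∀ κ j, j ∉ J κ → j ∉ J' κ → x κ j ∉ Z ∧ ∀ κ' j', j' ∈ J κ' → ¬ E₀ (x κ j) (x κ' j')) →
  (∀ κ, HasSys (J κ) (J' κ) (fun s => Ψ κ (clo (fun i j => E₀ (x κ i) (x κ j)) s))) →
  ∃ A : Set C, (∀ y, (∀ κ, ∀ j ∈ J κ, ¬ E₀ y (x κ j)) → (y ∈ A ↔ y ∈ Z)) ∧
    (∀ y y', E₀ y y' → y ∈ A → y' ∈ A) ∧ ∀ κ, Ψ κ {j | x κ j ∈ A}

/-! ## Part L3: measurability -/

/-- **PUM** (80), uses nothing.  `mv` is continuous, `{w | m ∈ own p w}` is open (a union over `i` of clopen sets), `g j ∘ mv` is Borel; `Inf`, `Hit` are countable intersections and unions. -/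
def Stmt_PUM : Prop := ∀ (g : ℕ → MM) (p j : ℕ), MeasurableSet {w | j ∈ Pu p g w}

/-- **MEF** (200), uses FIN PUM.  The game `G` with finite positions is in `F`.  `F` contains the Borel sets (FIN) and is closed under countable unions, intersections, complements (lemmas `PAF_not`, `PAF_ex`, `PAF_all`, `PAF_or`, `PAF_and` in `B_PAF.lean`; or the
`MeasurableSpace` with `F` as measurable sets).  (a) For a finite set `s` and `l`: `{w | ∃ n, mv w ∈ D l n ∧ ∀ j ∈ N l n, j ∈ clo (ER E₀ g (mv w)) s} ∈ F` (`mv` is continuous; `∃ i ∈ s, E₀ (g i (mv w)) (g j (mv w))` is Borel by `EqR.meas`).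
(b) `{w | h {l | ..}} ∈ F`: a finite union over the `B : Set (Fin k)` with `h B` of `{w | {l | ..} = B}`.  (c) By induction on `n`: `{w | Lw .. n s} ∈ F` for all finite `s`; the quantifiers over finite sets are countable (`Finset ℕ`), and `s' \ s ⊆ Pu 1 g w` is a finite
conjunction of Borel conditions (PUM). -/
def Stmt_MEF : Prop := ∀ F : Set (Set (ℕ → ℕ)), DetAlgebra F → ∀ E₀ : C → C → Prop, EqR E₀ →
  ∀ (k : ℕ) (h : Set (Fin k) → Prop) (g : ℕ → MM) (D : Fin k → ℕ → Set (ℕ → ℕ))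
    (N : Fin k → ℕ → Finset ℕ), (∀ l n, D l n ∈ F) →
    {w | ∃ s : Set ℕ, s.Finite ∧ s ⊆ Pu 0 g w ∧
      Lw (fun s => h {l | ∃ n, mv w ∈ D l n ∧ ∀ j ∈ N l n, j ∈ clo (ER E₀ g (mv w)) s})
        (Pu 0 g w) (Pu 1 g w) {s | s.Finite} k s} ∈ F

/-- **PRJ** (100), uses FIN.  Projections along `C`.  `π : (ℕ → ℕ) → C`, `π u n = (u n % 2 = 1)`, is continuous and surjective.  For continuous `c : (ℕ → ℕ) → Y` the map `v ↦ (c (left v), π (right v))`, `left v n = (Nat.unpair (v n)).1`, `right v n = (Nat.unpair (v n)).2`, is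
continuous, so `{v | P (c (left v), π (right v))} ∈ F`; its projection in the sense of `ProjClosed` is `{z | ∃ s, P (c z, s)}`. -/
def Stmt_PRJ : Prop := ∀ F : Set (Set (ℕ → ℕ)), DetAlgebra F → ProjClosed F →
  ∀ (Y : Type) [TopologicalSpace Y] (P : Y × C → Prop), InY F (Y × C) P → InY F Y (fun y => ∃ s, P (y, s))

/-- **MEU** (250), uses FIN PUM PRJ.  The game `G` with arbitrary positions is in `F`.  `s : C` codes the set `cs s = {j | s j = true}`.  `InY F Y` is closed under complements, countable unions and intersections and contains the Borel sets (preimages of Borel sets under continuous maps are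
Borel, FIN), and continuous substitutions.  (a) `{(w, s) | trP g (φ l) (mv w) (clo (ER E₀ g (mv w)) (cs s))}` is in `InY F ((ℕ → ℕ) × C)`: induction on `φ l`: basic sets `mv w ∈ k.1` by continuous preimages; atoms: a countable union over `i`, `j` with `g j = f` of Borel sets `s i = true`
and `E₀ (g i (mv w)) (g j (mv w))`.  (b) `h {l | ..}`: a finite union.  (c) By induction on `n` the set of the `(w, s)` with `Lw .. n (cs s)` is in `InY F ((ℕ → ℕ) × C)`: write the quantifiers over sets as quantifiers over `C` (every set is `cs s`), two applications of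
PRJ (for `Y = (ℕ → ℕ) × C` and `Y = ((ℕ → ℕ) × C) × C`) and complements; `cs s' \ cs s ⊆ Pu 1 g w` is Borel in `(w, s, s')` (PUM).  Then PRJ for `Y = ℕ → ℕ` and `c = id`. -/
def Stmt_MEU : Prop := ∀ F : Set (Set (ℕ → ℕ)), DetAlgebra F → ProjClosed F →
  ∀ E₀ : C → C → Prop, EqR E₀ → ∀ (k : ℕ) (h : Set (Fin k) → Prop) (g : ℕ → MM)
    (φ : Fin k → Fm F MM),
    {w | ∃ s : Set ℕ, s ⊆ Pu 0 g w ∧
      Lw (fun s => h {l | trP g (φ l) (mv w) (clo (ER E₀ g (mv w)) s)})
        (Pu 0 g w) (Pu 1 g w) Set.univ k s} ∈ F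

/-! ## Part L4: the operations can be decided -/

/-- **RFP** (120), uses FIN PUM FMA.  Positive operations.  `W = {w | trP g φ (mv w) (Pu 0 g w)}` is in `F`: induction on `φ` (lemmas `PAF_..` in `B_PAF.lean`; atoms: a countable union over the `j` with `g j = f` of `{w | j ∈ Pu 0 g w}`).  If `w ∈ W`: `Sy a b` = (`b = Pu 0 g w`), `ρ = 0`;
`win` by monotonicity (FMA; `clo E s ⊇ s`).  If `w ∉ W`: `Sy a b` = (`b = ∅`), `ρ = 0`; `win`: `a ⊆ Pu 0 g w`, so `clo E a ⊆ Pu 0 g w` (`EqR.le`; `Inf` and `Hit` do not change under finite changes). -/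
def Stmt_RFP : Prop := ∀ F : Set (Set (ℕ → ℕ)), DetAlgebra F → ∀ E₀ : C → C → Prop, EqR E₀ →
  ∀ (g : ℕ → MM) (φ : Fm F MM), Ref F E₀ g (trP g φ)

/-- **RFB** (150), uses ZER GSY MEF.  Boolean combinations of open positive operations.  For fixed `w` let `v s = {l | ∃ n, mv w ∈ D l n ∧ ∀ j ∈ N l n, j ∈ clo E s}`, `E = ER E₀ g (mv w)`, `Q` = the finite sets.  `v` is monotone, and for finite `s ⊆ t` there is a finite `s'`, `s ⊆ s' ⊆ t`,
`v s' = v t`: for `l ∈ v t` choose `n` and for `j ∈ N l n` an `i ∈ t` with `E i j`.  `W` from MEF.  `w ∈ W`: GSY.  `w ∉ W`: ZER (2) and GSY for `¬ h` and exchanged `J`, `J'`. -/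
def Stmt_RFB : Prop := ∀ F : Set (Set (ℕ → ℕ)), DetAlgebra F → ∀ E₀ : C → C → Prop, EqR E₀ →
  ∀ (k : ℕ) (h : Set (Fin k) → Prop) (g : ℕ → MM) (D : Fin k → ℕ → Set (ℕ → ℕ))
    (N : Fin k → ℕ → Finset ℕ), (∀ l n, D l n ∈ F) →
    Ref F E₀ g (fun z T => h {l | ∃ n, z ∈ D l n ∧ ∀ j ∈ N l n, j ∈ T})

/-- **RFU** (120), uses ZER GSY MEU FMA.  Boolean combinations of positive operations if `F` is closed under projections.  As RFB with `Q = Set.univ` (`s' = t`) and `v s = {l | trP g (φ l) (mv w) (clo E s)}`, monotone by FMA. -/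
def Stmt_RFU : Prop := ∀ F : Set (Set (ℕ → ℕ)), DetAlgebra F → ProjClosed F →
  ∀ E₀ : C → C → Prop, EqR E₀ → ∀ (k : ℕ) (h : Set (Fin k) → Prop) (g : ℕ → MM)
    (φ : Fin k → Fm F MM), Ref F E₀ g (fun z T => h {l | trP g (φ l) z T})

/-- **ONB** (300), uses SIF RNG RNU BRF OWN NET.  (Compare `B_ONF.lean`, most of the lemmas there can be used.)  `W i ∈ F` from `Ref` is determined: `p i` = the winner (`0` or `1`), `T i` a winning strategy.  SIF gives `s`, `Φ`, `B`.  `D (i, z) = Br B (prb (r i) z)`: almost disjoint (`ONF_prb`, BRF).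
`K = {κ : I × (ℕ → ℕ) // Cons (p κ.1) (s κ.1) κ.2}`; for `κ = (i, z)` let `w = Φ i z` (so `mv w = z`), `x κ j = g i j z`, `J κ = Pu (p i) (g i) w`, `J' κ = Pu (1 - p i) (g i) w`.  `R` = the set of the `y` with `E₀ y (x κ j)` for some `κ`, `j ∉ J' κ` with `x κ j` infinite (pure for the winner,
or mixed).  `Z = {y ∈ A₀ | Inf y} \ R`.  FACTS: (1) `j ∉ J' κ` and `x κ j` infinite: `Hit (x κ j) (own (p i) w)`, so `Hit (x κ j) (D κ)`.  (2) `j ∈ J κ`: `x κ j` is almost contained in `own (p i) w` (`OWN_mem`), so in `D κ`, and it is infinite, `j ∉ J' κ`.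
(3) So if `j ∈ J κ`, `j' ∉ J' κ'`, `x κ' j'` infinite, `E₀ (x κ j) (x κ' j')`, then `D κ ∩ D κ'` is infinite and `κ = κ'`; then `j' ∈ J κ'` because `Inf`, `Hit` do not change under finite changes.  These give the hypotheses of NET (`Ψ κ = Ψ i z` if `p i = 0`, its negation if `p i = 1`; `HasSys` from `Ref`, because
`Φ i z ∈ W i` iff `p i = 0`).  Let `A` be the set from NET.  Determined: `s i` wins for player `p i`.  For `X` let `Y` be from RNU, RNG applied to `{x | ∃ a, AEq x (g a.1 j a.2) ∧ Hit (g a.1 j a.2) (D a)}`, `j : ℕ`, as in `B_ONF.lean`: an infinite `x ⊆ Y` is not in `R`, so `x ∈ A ↔ x ∈ Z ↔ x ∈ A₀`. -/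
def Stmt_ONB : Prop := ∀ F : Set (Set (ℕ → ℕ)), DetAlgebra F → ∀ E₀ : C → C → Prop, EqR E₀ →
  ∀ I : Type, Dmd I → (∃ r : I → (ℕ → ℕ), Function.Injective r) →
  ∀ (g : I → ℕ → MM) (Ψ : I → (ℕ → ℕ) → Set ℕ → Prop), (∀ i, Ref F E₀ (g i) (Ψ i)) →
  ∀ A₀ : Set C, (∀ y y', E₀ y y' → y ∈ A₀ → y' ∈ A₀) →
  ∃ A : Set C, (∀ i, Determined {z | Ψ i z {j | (g i j).1 z ∈ A}}) ∧
    (∀ y y', E₀ y y' → y ∈ A → y' ∈ A) ∧
    ∀ X, Inf X → ∃ Y, Inf Y ∧ Sub Y X ∧ ∀ x, Inf x → Sub x Y → (x ∈ A ↔ x ∈ A₀)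

end Pool.LF
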