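import Pool.Agent.Work.MP_f36782_lf.Interface4
import Pool.Agent.Work.MP_f36782_lf.Defs4

set_option autoImplicit false

/-!
# MP_f36782_lc, THEOREM LF, part M: differences, `ℵ₁` many operations

Files `B_X.lean` in `Pool/Agent/Work/MP_f36782_lf` (import `Pool.Agent.Work.MP_f36782_lf.Interface5`),
`open MeasureTheory Pool.Agent.Work.RamseyAD`, namespace `Pool.LF`, `theorem p_X (h1 : Stmt_Y) .. :
Stmt_X` with exactly the blocks of the column `uses` as hypotheses in that order.  Helper lemmas with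
the prefix `X_`.  The docstrings contain the proofs.

THE THEOREM.  `F` a σ-algebra of determined sets which contains the open sets and is closed under Borel
preimages.  For any `ℵ₁` many operations `S t = V t \ V' t`, `V t` open positive, `V' t` positive
(continuous maps), there is a tail set `A`, not Ramsey, with all `S t A` and `(S t A)ᶜ` determined.
In particular (under CH) Wadge's lemma holds for all continuous preimages of `A` and all sets in `F`.

THE PROOF.  A condition consists of sets `P` (promised to be contained in `A`), `Q` (promised to be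
disjoint from `A`), `Y` (reserved) and countably many rules; a rule says that `x ∈ Y_e` is in `A` if
finitely many other sets `β x` are in `A` (`β` a partial continuous map).  `A` is the least set which
contains its free part `A \ Y` and is closed under the rules.  All elements of `P`, `Q`, `Y` contain an
element of `P` and an element of `Q`, so that `A` is not Ramsey.  Stage (compare `Interface2.lean`): the
auxiliary game; the ports of the run are all sets which are reachable from the atoms by the rules.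
A free port is pure for a player if it is almost contained in his intervals.  I wins the run if he can
choose finitely many of his free pure ports such that `V` becomes true if only these are true, and
`V'` stays false if in addition all free pure ports of II are true.  If I wins the game: in all runs
these ports are promised to be in `A`, all others which meet his blocks are promised to be not in `A`.
If II wins: in all runs his free pure ports `y` are reserved with the rule: `y ∈ A` if `V` is true.  If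
`V` is true in a run then it is already true without the pure ports of II (look at the first derivation
of `V`), therefore `V'` is true if in addition all pure ports of II are true, and they are because of
the rule.
-/

open MeasureTheory Pool.Agent.Work.RamseyAD

namespace Pool.LF

/-! ## Notions -/

/-- Initial segments of sequences (`hist` for sequences of numbers). -/
def ini {A : Type} (z : ℕ → A) (n : ℕ) : List A := (List.range n).map z

/-- Monotone maps between finite sequences (partial continuous maps between infinite sequences). -/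
structure LMap (A B : Type) where
  fn : List A → List B
  mono : ∀ l l' : List A, l <+: l' → fn l <+: fn l'

/-- `z` is in the domain. -/
def LMap.dom {A B : Type} (α : LMap A B) (z : ℕ → A) : Prop := ∀ k, ∃ n, k ≤ (α.fn (ini z n)).length

/-- The value at `z` (in the domain). -/
noncomputable def LMap.val {A B : Type} [Inhabited B] (α : LMap A B) (z : ℕ → A) : ℕ → B := fun m =>
  Classical.epsilon fun b => ∃ n, (α.fn (ini z n))[m]? = some b

/-- Composition. -/
def LMap.comp {A B D : Type} (β : LMap B D) (α : LMap A B) : LMap A D :=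
  ⟨fun l => β.fn (α.fn l), fun l l' h => β.mono _ _ (α.mono l l' h)⟩

open Classical in
/-- The set coded by the value; the empty set outside of the domain. -/
noncomputable def pt (α : LMap ℕ Bool) (z : ℕ → ℕ) : C := if α.dom z then α.val z else fun _ => false

/-- `x` meets the block of `l` and agrees with `α l` from `N` on. -/
def Gd (B : List ℕ → Set ℕ) (α : LMap ℕ Bool) (x : C) (N : ℕ) (l : List ℕ) : Prop :=
  (∃ m ∈ B l, x m = true) ∧ ∀ (j : ℕ) (b : Bool), N ≤ j → (α.fn l)[j]? = some b → x j = b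

/-- The promised set (compare `Rst`): there are arbitrarily long chains of positions as in `Gd` along
which `α` grows. -/
def RsL (B : List ℕ → Set ℕ) (α : LMap ℕ Bool) : Set C :=
  {x | Inf x ∧ ∃ N, ∀ k, ∃ c : ℕ → List ℕ, (∀ i, i < k → c i <+: c (i + 1) ∧
    (α.fn (c i)).length < (α.fn (c (i + 1))).length) ∧ ∀ i, i ≤ k → Gd B α x N (c i)}

/-- `x` is almost contained in `Br B z`. -/
def InBr (B : List ℕ → Set ℕ) (z : ℕ → ℕ) (x : C) : Prop := ∃ K, ∀ m, K ≤ m → x m = true → m ∈ Br B z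

/-- The infinite sets which are almost contained in a branch. -/
def KB (B : List ℕ → Set ℕ) : Set C := {x | Inf x ∧ ∃ z, InBr B z x}

/-- The promised sets which are almost contained in a branch. -/
def Uc (B : List ℕ → Set ℕ) (γ : ℕ → LMap ℕ Bool) : Set C := {x | x ∈ KB B ∧ ∃ j, x ∈ RsL B (γ j)}

/-- The promised sets which are not almost contained in a branch. -/
def Un (B : List ℕ → Set ℕ) (γ : ℕ → LMap ℕ Bool) : Set C := {x | x ∉ KB B ∧ ∃ j, x ∈ RsL B (γ j)}

/-- The companions of the first kind. -/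
def E1 (B : List ℕ → Set ℕ) (γ : ℕ → LMap ℕ Bool) : Set C :=
  (⋃ n, Com B (fun j => pt (γ j)) (2 * n + 2)) ∪ MA B

/-- The companions of the second kind. -/
def E2 (B : List ℕ → Set ℕ) (γ : ℕ → LMap ℕ Bool) : Set C :=
  (⋃ n, Com B (fun j => pt (γ j)) (2 * n + 1)) ∪ MB B

/-- A rule: `x ∈ Y` is in `A` if all values `β x`, `β ∈ L`, are in `A`. -/
structure Rule where
  Y : Set C
  L : List (LMap Bool Bool)

/-- The rule can be applied. -/
def Sat (A : Set C) (r : Rule) (x : C) : Prop := x ∈ r.Y ∧ ∀ β ∈ r.L, β.dom x ∧ β.val x ∈ A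

/-- The closure of `S` under rules. -/
inductive Cl {ι : Type} (R : ι → Rule) (S : Set C) : C → Prop
  | base (x : C) (h : x ∈ S) : Cl R S x
  | step (e : ι) (x : C) (h : x ∈ (R e).Y) (hd : ∀ β ∈ (R e).L, β.dom x)
      (hc : ∀ β ∈ (R e).L, Cl R S (β.val x)) : Cl R S x

/-- The subsets of Cantor space whose Borel preimages are in `F`. -/
def InB (F : Set (Set (ℕ → ℕ))) (P : Set C) : Prop :=
  ∀ f : (ℕ → ℕ) → C, Measurable f → f ⁻¹' P ∈ F

/-- The data of a condition. -/
structure Pnt where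
  P : Set C
  Q : Set C
  Y : Set C
  R : ℕ → Rule

/-- `d` is stronger than `c`: the promises are kept, the rules are kept, and new rules do not concern
old reserved sets. -/
def Pnt.Le (c d : Pnt) : Prop := c.P ⊆ d.P ∧ c.Q ⊆ d.Q ∧ c.Y ⊆ d.Y ∧
  (∀ e, ∃ e', d.R e' = c.R e) ∧ ∀ e' x, x ∈ (d.R e').Y → x ∈ c.Y → ∃ e, c.R e = d.R e'

/-- The free sets. -/
def Fre (c : Pnt) : Set C := {x | x ∉ c.P ∧ x ∉ c.Q ∧ x ∉ c.Y}

/-- Conditions. -/
structure Cok (F : Set (Set (ℕ → ℕ))) (c : Pnt) : Prop where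
  dPQ : ∀ x ∈ c.P, x ∉ c.Q
  dPY : ∀ x ∈ c.P, x ∉ c.Y
  dQY : ∀ x ∈ c.Q, x ∉ c.Y
  tP : Tail c.P
  tQ : Tail c.Q
  tY : Tail c.Y
  inf : ∀ x, x ∉ Fre c → Inf x
  bal : ∀ x, x ∉ Fre c → (∃ y ∈ c.P, Sub y x) ∧ ∃ y ∈ c.Q, Sub y x
  fP : InB F c.P
  fQ : InB F c.Q
  fY : InB F c.Y
  fR : ∀ e, InB F (c.R e).Y
  sub : ∀ e, (c.R e).Y ⊆ c.Y
  tR : ∀ A, Tail A → ∀ e x x', AEq x x' → Sat A (c.R e) x → ∃ e', Sat A (c.R e') x'

/-- `A` is compatible with the condition. -/
structure Cmp (A : Set C) (c : Pnt) : Prop where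
  subP : c.P ⊆ A
  disQ : ∀ x ∈ A, x ∉ c.Q
  inf : ∀ x ∈ A, Inf x
  tail : Tail A
  cl : ∀ x, x ∈ A ↔ Cl c.R (A \ c.Y) x

/-- The data of an operation `V \ V'`: ports `α i` (total), `V` is true at `z` if for some `n` with
`z ∈ D n` the ports in `N n` are in `A`; `V'` is given by the formula `φ`, whose atoms are ports. -/
structure OpD (F : Set (Set (ℕ → ℕ))) where
  α : ℕ → LMap ℕ Bool
  tot : ∀ i z, (α i).dom z
  D : ℕ → Set (ℕ → ℕ)
  hD : ∀ n, D n ∈ F
  N : ℕ → Finset ℕ
  φ : Fm F ℕ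

/-- `V` is true. -/
def OpD.fst {F : Set (Set (ℕ → ℕ))} (o : OpD F) (z : ℕ → ℕ) (A : Set C) : Prop :=
  ∃ n, z ∈ o.D n ∧ ∀ i ∈ o.N n, pt (o.α i) z ∈ A

/-- `V'` is true. -/
def OpD.snd {F : Set (Set (ℕ → ℕ))} (o : OpD F) (z : ℕ → ℕ) (A : Set C) : Prop :=
  o.φ.tr (fun k => z ∈ k.1) (fun i => pt (o.α i) z ∈ A)

/-- The operation. -/
def OpD.op {F : Set (Set (ℕ → ℕ))} (o : OpD F) (A : Set C) : Set (ℕ → ℕ) :=
  {z | o.fst z A ∧ ¬ o.snd z A}

/-- An enumeration `γ` of all ports which are reachable by the rules. -/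
structure Gam {F : Set (Set (ℕ → ℕ))} (c : Pnt) (o : OpD F) where
  γ : ℕ → LMap ℕ Bool
  ι : ℕ → ℕ
  base : ∀ i, γ (ι i) = o.α i
  clos : ∀ j e, ∀ β ∈ (c.R e).L, ∃ j', γ j' = β.comp (γ j)

/-- The free ports which are pure for player `p` in the run `w`. -/
def PuE (c : Pnt) (γ : ℕ → LMap ℕ Bool) (p : ℕ) (w : ℕ → ℕ) : Set ℕ :=
  {j | Inf (pt (γ j) (mv w)) ∧ ¬ Hit (pt (γ j) (mv w)) (own (1 - p) w) ∧ pt (γ j) (mv w) ∈ Fre c}

/-- The sets which agree mod finite with a port in `b`. -/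
def SbE (γ : ℕ → LMap ℕ Bool) (z : ℕ → ℕ) (b : Set ℕ) : Set C := {x | ∃ j ∈ b, AEq x (pt (γ j) z)}

/-- `b` is a good choice for player I in the run `w`. -/
def Gb {F : Set (Set (ℕ → ℕ))} (c : Pnt) (o : OpD F) (G : Gam c o) (w : ℕ → ℕ) (b : Set ℕ) : Prop :=
  b ⊆ PuE c G.γ 0 w ∧ o.fst (mv w) {x | Cl c.R (c.P ∪ SbE G.γ (mv w) b) x} ∧
    ¬ o.snd (mv w) {x | Cl c.R (c.P ∪ SbE G.γ (mv w) b ∪ SbE G.γ (mv w) (PuE c G.γ 1 w)) x}

/-! ## Part M1: list maps -/

/-- **LVC** (150), uses nothing.  (1) If `(α.fn (ini z n))[m]? = some b` then `α.val z m = b` (for other `n'` the lists are comparable, so the entries agree; `Classical.epsilon_spec`).  (2) `α.dom z` iff all `m` have such `n`, `b`.  (3) Composition: if `α.dom z` then `α.fn (ini z n)` is an initial segment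
`ini (α.val z) k` with `k` unbounded; so `β.dom (α.val z)` iff `(β.comp α).dom z` and then the values are the same (monotonicity of `β.fn`: `β.fn (ini (α.val z) k)` is an initial segment of `β.fn (α.fn (ini z n))` if `k ≤ (α.fn (ini z n)).length`).  If not `α.dom z` the lists `α.fn (ini z n)` are
eventually constant (bounded length), so not `(β.comp α).dom z`. -/
def Stmt_LVC : Prop := ∀ (A B D : Type) [Inhabited B] [Inhabited D] (α : LMap A B) (β : LMap B D)
  (z : ℕ → A),
  (∀ (n m : ℕ) (b : B), (α.fn (ini z n))[m]? = some b → α.val z m = b) ∧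
  (α.dom z ↔ ∀ m : ℕ, ∃ (n : ℕ) (b : B), (α.fn (ini z n))[m]? = some b) ∧
  ((β.comp α).dom z ↔ α.dom z ∧ β.dom (α.val z)) ∧
  ((β.comp α).dom z → (β.comp α).val z = β.val (α.val z))

/-- **LCT** (150), uses LVC.  Continuous maps are given by list maps.  For a list `l` let `k` be the largest number `≤ l.length` such that for all `j < k` all `u` with `hist u l.length = l` have the same `f u j`; `α.fn l` = the list of these values.  Monotone: for `l <+: l'` there are fewer `u`.  Domain: for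
`z` and `k` the values `f u j`, `j < k`, are constant on a neighbourhood of `z` (continuity), so for large `n` the list `α.fn (ini z n)` has length `≥ k`. -/
def Stmt_LCT : Prop := ∀ f : (ℕ → ℕ) → C, Continuous f → ∃ α : LMap ℕ Bool, ∀ z, α.dom z ∧ α.val z = f z

/-- **LVM** (120), uses LVC.  `{z | α.dom z}` is a countable intersection of unions over `n` of sets which depend on finitely many coordinates.  The value at `m`: `{z | ∃ n, (α.fn (ini z n))[m]? = some b}` is open for every `b`, and where no such `b` exists the predicate in `Classical.epsilon` is constant false, so the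
value is constant. -/
def Stmt_LVM : Prop := (∀ (A B : Type) [Countable A] [Countable B] [Inhabited B] [MeasurableSpace A]
  [DiscreteMeasurableSpace A] [MeasurableSpace B] [DiscreteMeasurableSpace B] (α : LMap A B),
    MeasurableSet {z : ℕ → A | α.dom z} ∧ Measurable (fun z : ℕ → A => α.val z)) ∧
  ∀ α : LMap ℕ Bool, Measurable (pt α)

/-- **ZET** (250), uses LVC.  Decoding the branch.  For a list `t : List Bool` say that it is good if the numbers `m ≥ N` with `t[m]? = some true` are all in blocks and the positions of these blocks are pairwise comparable; then let `pos t` be the longest of these positions (`[]` if there is none).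
`ζ.fn t = pos t'` for the longest good initial segment `t'` of `t`.  Monotone: for `t <+: t'` the longest good initial segments are comparable in the same order, and `pos` is monotone on good lists.  If `x` is infinite and `x \ N ⊆ Br B z` then all `ini x n` are good, the positions are initial positions of `z`
(`Blk.inj`), and they are unbounded because blocks are finite and `x` is infinite. -/
def Stmt_ZET : Prop := ∀ B : List ℕ → Set ℕ, Blk B → ∀ N : ℕ, ∃ ζ : LMap Bool ℕ, ∀ (x : C) (z : ℕ → ℕ),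
  Inf x → (∀ m, N ≤ m → x m = true → m ∈ Br B z) → ζ.dom x ∧ ζ.val x = z

/-- **KBM** (100), uses nothing.  `x` is infinite and `x \ K ⊆ Br B z` for some `z`, iff all elements `≥ K` of `x` are in blocks with pairwise comparable positions (the union of the positions is a branch, infinite because blocks are finite): a Borel condition (countable intersection of clopen sets). -/
def Stmt_KBM : Prop := ∀ B : List ℕ → Set ℕ, Blk B → MeasurableSet (KB B) ∧ Tail (KB B) ∧
  ∀ N, MeasurableSet {x : C | Inf x ∧ ∃ z, ∀ m, N ≤ m → x m = true → m ∈ Br B z}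

/-- **ZOF** (120), uses ZET LVM KBM.  `ζ x = ζ_N.val x` for the least `N` such that `x \ N ⊆ Br B z` for some `z` (Borel sets by KBM), `0` if there is none. -/
def Stmt_ZOF : Prop := ∀ B : List ℕ → Set ℕ, Blk B → ∃ ζ : C → (ℕ → ℕ), Measurable ζ ∧
  ∀ (x : C) (z : ℕ → ℕ), Inf x → InBr B z x → ζ x = z

/-! ## Part M2: the promised set -/

/-- **NOL** (200), uses nothing.  (Compare NOD.)  Write `l ≺ l'` for `l <+: l'`, `lam l < lam l'`.  `l ∈ M` is `k`-long if there is a chain `l = c 0 ≺ .. ≺ c k` in `M`.  `L` = the members of `M` which are `k`-long for all `k`.  CASE 1: `L` is not empty and every `l ∈ L` has `l' ∈ L`, `l ≺ l'`: an infinite chain in `L`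
(`l ≠ l'`, so the lengths grow) gives `z`.  CASE 2: otherwise let `D = M` if `L = ∅`, and `D = {l' ∈ M | l ≺ l'}` for an `l ∈ L` without such `l'`.  No member of `D` is in `L`, but for every `k` there is a `k`-long one.  `E` = the minimal elements (for `<+:`) of `{l' ∈ D | l' is 1-long}`;
every element of this set extends an element of `E`, different elements of `E` are incomparable.  If `E` were finite, let no `e ∈ E` be `k`-long (`k`-longness is decreasing in `k`), and let `l' ∈ D` be `k + 1`-long, `e <+: l'`: then `e ≺ c 1 ≺ .. ≺ c (k + 1)`, because `lam e ≤ lam l'`; contradiction.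
So `E` is infinite: different `e k ∈ E` and `e' k` with `e k ≺ e' k`. -/
def Stmt_NOL : Prop := ∀ (M : Set (List ℕ)) (lam : List ℕ → ℕ),
  (∀ l l', l <+: l' → lam l ≤ lam l') →
  (∀ k, ∃ c : ℕ → List ℕ, (∀ i, i < k → c i <+: c (i + 1) ∧ lam (c i) < lam (c (i + 1))) ∧
    ∀ i, i ≤ k → c i ∈ M) →
  (∃ z : ℕ → ℕ, ∀ K, ∃ n, K ≤ n ∧ hist z n ∈ M ∧ K ≤ lam (hist z n)) ∨
  ∃ e e' : ℕ → List ℕ, (∀ k, e k ∈ M ∧ e' k ∈ M ∧ e k <+: e' k ∧ e k ≠ e' k) ∧
    ∀ k k', k ≠ k' → ¬ e k <+: e k'

/-- **RLM** (150), uses nothing.  (Compare RSM.)  For fixed `N`, `k`, `c` the conditions for `i ≤ k` are finitely many conditions on coordinates of `x` (blocks are finite), so the union over `c` is open.  Tail: if `x`, `y` agree from `K` on, use `max N K` and drop from a chain for `k + K` the nodes whose block contains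
a number `< K` (at most `K` nodes, because the nodes are different and blocks are disjoint); what remains is a chain of length `k`. -/
def Stmt_RLM : Prop := ∀ B : List ℕ → Set ℕ, Blk B → ∀ α : LMap ℕ Bool,
  MeasurableSet (RsL B α) ∧ Tail (RsL B α)

/-- **RLR** (120), uses LVC.  (Compare RSR.)  `Hit` gives that `pt α z` is infinite, so `α.dom z`, `pt α z = α.val z`.  `N = 0`, `c i = hist z (n i)` with `n` increasing such that `x` meets `B (hist z (n i))` (infinitely many `n` have this property because blocks are finite) and the length of `α.fn (hist z (n i))` increases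
(`hist z n = ini z n` by definition). -/
def Stmt_RLR : Prop := ∀ B : List ℕ → Set ℕ, Blk B → ∀ (α : LMap ℕ Bool) (z : ℕ → ℕ),
  Hit (pt α z) (Br B z) → pt α z ∈ RsL B α

/-- **RLC** (150), uses NOL LVC.  (Compare RSC.)  NOL for `M = {l | Gd B α x N l}`, `lam l = (α.fn l).length`.  In the first case `α.dom z`, `x` and `α.val z` agree from `N` on, and `x` meets infinitely many blocks of `z`, in different numbers (`Blk.inj`).  In the second case choose `a k ∈ B (e k)`, `b k ∈ B (e' k)` in `x`. -/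
def Stmt_RLC : Prop := ∀ B : List ℕ → Set ℕ, Blk B → ∀ α : LMap ℕ Bool,
  ∀ x ∈ RsL B α, (∃ z, AEq x (pt α z) ∧ Hit x (Br B z)) ∨
    ∃ a b : ℕ → ℕ, (∀ k, x (a k) = true ∧ x (b k) = true ∧ a k ≠ b k ∧ Adj B (a k) (b k)) ∧
      ∀ k k', k ≠ k' → ∀ c c', (c = a k ∨ c = b k) → (c' = a k' ∨ c' = b k') → c ≠ c' ∧ ¬ Adj B c c'

/-- **RLB** (120), uses LVC.  (Compare RSB.)  Let `x \ K ⊆ Br B z`.  For `K'` take a chain for `K + K'`: the nodes are different, so among `c K', .., c (K' + K)` one has a block which meets `x` in some `m ≥ K`; `m ∈ Br B z`, so this node is an initial position of `z`, and `α.fn` of it has length `≥ K'`.  So `α.dom z`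
and `x`, `α.val z` agree from `N` on. -/
def Stmt_RLB : Prop := ∀ B : List ℕ → Set ℕ, Blk B → ∀ α : LMap ℕ Bool,
  ∀ x ∈ RsL B α, ∀ z, InBr B z x → AEq x (pt α z)

/-- **RLX** (100), uses nothing.  (Compare RMM.)  For every `N` a promised `x` has three pairwise adjacent elements `≥ N` (a chain for `N + 2`: `N + 3` different nodes, different witnesses).  An infinite `x` which is almost contained in `Br B z`: any two elements of `Br B z` are adjacent.  So `Uq B x N` fails. -/
def Stmt_RLX : Prop := ∀ B : List ℕ → Set ℕ, Blk B → ∀ x : C,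
  (x ∈ KB B ∨ ∃ α : LMap ℕ Bool, x ∈ RsL B α) → x ∉ MA B ∧ x ∉ MB B

/-- **CBM** (200), uses CPR BRF.  As CCO and CME for Borel maps.  `z ↦ com B f n j z` is Borel (`{z | m ∈ Br B z}` is clopen; `dia (w z) (g z) m` depends on `cnt (w z) m`, which has finitely many values).  `Com B f n` is the union over `j` and `t : List Bool` of the images of the Borel sets `{z | Hit (f j z) (Br B z)}` under
the Borel maps `z ↦ (t below t.length, com B f n j z from there on)`, injective there by BRF (`MeasurableSet.image_of_measurable_injOn`). -/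
def Stmt_CBM : Prop := ∀ B : List ℕ → Set ℕ, Blk B → ∀ f : ℕ → (ℕ → ℕ) → C,
  (∀ j, Measurable (f j)) → ∀ n, MeasurableSet (Com B f n)

/-- **CDB** (80), uses BRF CPR.  The statement of CDI without the (not needed) hypothesis of continuity: see the proof in `B_CDI.lean`. -/
def Stmt_CDB : Prop := ∀ B : List ℕ → Set ℕ, Blk B → ∀ f : ℕ → (ℕ → ℕ) → C,
  (∀ n m, 1 ≤ m → m < n → ∀ x ∈ Com B f n, x ∉ Com B f m) ∧
  (∀ n, Tail (Com B f n)) ∧ (∀ n, ∀ x ∈ Com B f n, Inf x) ∧
  ∀ n, ∀ x ∈ Com B f n, ∃ y ∈ Com B f (n + 1), Sub y x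

/-- **FRM** (300), uses MSB MST MPR MAB CPR CBM CDB BRF LVM KBM RLM RLR RLC RLB RLX.  The frame.  `f j = pt (γ j)`.  Borel: LVM, RLM, KBM, CBM, MSB.  Tail: RLM, KBM, CDB, MST.  Disjoint: elements of `Com n` are in `KB` and do not agree with any `pt (γ i) z` (`n ≥ 1`, CPR, BRF), elements of `Uc` do (RLB); elements of `Uc`, `Un`
are not in `MA`, `MB` (RLX), elements of `Com n` neither (they are in `KB`); different levels are disjoint (CDB), `MA`, `MB` are disjoint (MST).  Companions: `x ∈ Uc` agrees with `pt (γ j) z` (RLB), so `Hit (pt (γ j) z) (Br B z)` and `com 1 j z`, `com 2 j z` from some number on are contained in `x` (CPR);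
`x ∈ Un`: RLC, in the first case the same, in the second case MPR; `Com`: CDB; `MA`, `MB`: MAB.  The last two lines: RLR and the definition; RLB. -/
def Stmt_FRM : Prop := ∀ B : List ℕ → Set ℕ, Blk B → ∀ γ : ℕ → LMap ℕ Bool,
  (MeasurableSet (Uc B γ) ∧ MeasurableSet (Un B γ) ∧ MeasurableSet (E1 B γ) ∧
    MeasurableSet (E2 B γ)) ∧
  (Tail (Uc B γ) ∧ Tail (Un B γ) ∧ Tail (E1 B γ) ∧ Tail (E2 B γ)) ∧
  (∀ x, x ∈ Uc B γ ∨ x ∈ Un B γ ∨ x ∈ E1 B γ ∨ x ∈ E2 B γ →
    Inf x ∧ (∃ y ∈ E1 B γ, Sub y x) ∧ ∃ y ∈ E2 B γ, Sub y x) ∧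
  (∀ x, x ∈ Uc B γ ∨ x ∈ Un B γ → x ∉ E1 B γ ∧ x ∉ E2 B γ) ∧ (∀ x ∈ E1 B γ, x ∉ E2 B γ) ∧
  (∀ j z, Hit (pt (γ j) z) (Br B z) → pt (γ j) z ∈ Uc B γ ∨ pt (γ j) z ∈ Un B γ) ∧
  ∀ x ∈ Uc B γ, ∀ z, InBr B z x → ∃ j, AEq x (pt (γ j) z)

/-! ## Part M3: conditions -/

/-- **CLF** (100), uses nothing.  The closure is monotone and finitary: induction on `Cl` (finitely many premises: union of finite sets). -/
def Stmt_CLF : Prop := ∀ (ι : Type) (R : ι → Rule),
  (∀ S S' : Set C, S ⊆ S' → ∀ x, Cl R S x → Cl R S' x) ∧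
  ∀ (S : Set C) (x : C), Cl R S x → ∃ S₀ : Set C, S₀.Finite ∧ S₀ ⊆ S ∧ Cl R S₀ x

/-- **ENG** (100), uses nothing.  An enumeration of all compositions: `LMap`s obtained from the `α i` by finite lists of pairs `(e, l)` (composition with the `l`-th member of `(R e).L`, or nothing if there is none); the type `ℕ × List (ℕ × ℕ)` is countable and infinite (`Denumerable`, or `Encodable.decode`). -/
def Stmt_ENG : Prop := ∀ (F : Set (Set (ℕ → ℕ))) (c : Pnt) (o : OpD F), Nonempty (Gam c o)

/-- **INB** (120), uses nothing.  Closure properties of `F` and of `InB F`.  (`DetBorel.alg` gives `DetAlgebra F`; lemmas `FIN_..`, `PAF_..` in `B_FIN.lean`, `B_PAF.lean`.) -/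
def Stmt_INB : Prop := ∀ F : Set (Set (ℕ → ℕ)), DetBorel F →
  (∀ S, MeasurableSet S → S ∈ F) ∧
  (∀ P : ℕ → Set C, (∀ n, InB F (P n)) → InB F (⋃ n, P n)) ∧
  (∀ P Q : Set C, InB F P → InB F Q → InB F (P ∪ Q)) ∧
  (∀ P Q : Set C, InB F P → InB F Q → InB F (P ∩ Q)) ∧
  (∀ P : Set C, InB F P → InB F Pᶜ) ∧
  (∀ P : Set C, MeasurableSet P → InB F P) ∧
  ∀ (S : Set (ℕ → ℕ)) (ζ : C → (ℕ → ℕ)), S ∈ F → Measurable ζ → InB F (ζ ⁻¹' S)

/-- **CLM** (250), uses INB LVC LVM.  The truth values of the ports are in `F`.  `K 0 w = {j | pt (γ j) (mv w) ∈ T w}`, `K (n + 1) w = K n w ∪ {j | ∃ e, pt (γ j) (mv w) ∈ (c.R e).Y ∧ ∀ β ∈ (c.R e).L, β.dom (pt (γ j) (mv w)) ∧ j'(j, β) ∈ K n w}`, where `γ (j'(j, β)) = β.comp (γ j)` (`Gam.clos`).  By induction on `n`,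
`{w | j ∈ K n w} ∈ F`: `mv` is Borel, `pt (γ j)` is Borel (LVM), `InB F (c.R e).Y`, `{x | β.dom x}` is Borel.  `Cl c.R (T w) (pt (γ j) (mv w))` iff `j ∈ K n w` for some `n`: if `pt (γ j) z ∈ (c.R e).Y` then it is infinite (`Cok.sub`, `Cok.inf`), so `(γ j).dom z`, `pt (γ j) z = (γ j).val z`, and if `β.dom` holds then
`pt (β.comp (γ j)) z = β.val (pt (γ j) z)` (LVC).  `⇐`: induction on `n`.  `⇒`: induction on `Cl`, for all `j` with `pt (γ j) z = x` (finitely many premises, the maximum of the `n`). -/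
def Stmt_CLM : Prop := ∀ F : Set (Set (ℕ → ℕ)), DetBorel F → ∀ (c : Pnt) (o : OpD F) (G : Gam c o),
  Cok F c → ∀ T : (ℕ → ℕ) → Set C, (∀ j, {w | pt (G.γ j) (mv w) ∈ T w} ∈ F) →
    ∀ j, {w | Cl c.R (T w) (pt (G.γ j) (mv w))} ∈ F

/-- **LIC** (200), uses INB.  Limits of increasing sequences of conditions: the unions of the `P`, `Q`, `Y`, and `R (Nat.pair n e) = (c n).R e`.  (`Le` is transitive; the members are comparable.) -/
def Stmt_LIC : Prop := ∀ F : Set (Set (ℕ → ℕ)), DetBorel F → ∀ c : ℕ → Pnt, (∀ n, Cok F (c n)) →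
  (∀ n, (c n).Le (c (n + 1))) → ∃ d : Pnt, Cok F d ∧ ∀ n, (c n).Le d

/-- **FNA** (300), uses BRN CLF.  The set `A`.  `Z` from BRN.  `P`, `Q`, `Y` = the unions of the `(g t).P` etc.; by comparability they are pairwise disjoint tail sets, their elements are infinite and contain an element of `P` and an element of `Q`.  `R : T × ℕ → Rule`, `R (t, e) = (g t).R e`.  `B₀ = P ∪ (Z \ (Q ∪ Y))`,
`A = {x | Cl R B₀ x}`.  (1) `x ∈ A` implies `x ∈ B₀` or `x ∈ Y` (`Cok.sub`), so `x ∉ Q`, `x` infinite.  (2) Tail: by induction on `Cl`, `x ∈ A` implies `x' ∈ A` for all `x'` with `AEq x x'`: for `base`, `B₀` is a tail set; for `step` let `A° = {y | all y' with AEq y y' are in A}`, a tail set (`AEq` is an equivalence relation) contained in `A`; the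
induction hypothesis says that the premises are in `A°`, so `Sat A° ((g t).R e) x`, `Cok.tR` gives `Sat A° ((g t).R e') x'`, so `x' ∈ A`.  (3) `x ∈ A` iff `Cl (g t).R (A \ (g t).Y) x`: `⇐`: `A` is closed under the rules.  `⇒`: induction on `Cl R B₀ x`: if `x ∉ (g t).Y` then `x ∈ A \ (g t).Y`.  Otherwise it is a `step` with a rule of some
`t'` (elements of `B₀` are not in `Y`); the rule is also a rule of `g t` (by `Le` in one of the two directions), and the premises are in the closure by induction.  (4) Not Ramsey: let `H` be infinite.  If some infinite `x ⊆ H` is in `P ∪ Q ∪ Y` then `H` contains an element of `P ⊆ A` and one of `Q`.  Otherwise for all infinite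
`x ⊆ H`: `x ∈ A` iff `x ∈ Z`. -/
def Stmt_FNA : Prop := ∀ (F : Set (Set (ℕ → ℕ))) (T : Type) (g : T → Pnt), (∀ t, Cok F (g t)) →
  (∀ t t', (g t).Le (g t') ∨ (g t').Le (g t)) →
  ∃ A : Set C, Tail A ∧ ¬ Ramsey A ∧ ∀ t, Cmp A (g t)

/-! ## Part M4: the stages -/

/-- **SIC** (80), uses nothing.  `Stmt_SIB` with continuity of `Φ`: combine the proofs of `p_SIM` (first part) and `p_SIB`. -/
def Stmt_SIC : Prop := ∀ (p : ℕ) (T : List ℕ → ℕ), p < 2 →
  ∃ (s : List ℕ → ℕ) (Φ : (ℕ → ℕ) → (ℕ → ℕ)) (B : List ℕ → Set ℕ), Blk B ∧ Continuous Φ ∧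
    ∀ z, Cons p s z → Cons p T (Φ z) ∧ mv (Φ z) = z ∧ (∀ N, ∃ i, N ≤ len (Φ z) i) ∧
      ∃ K, ∀ m ∈ own p (Φ z), K ≤ m → m ∈ Br B z

/-- **DNF** (200), uses LCT.  The data of a difference operation.  The continuous maps which occur in `V` (the lists `L n`) and in a formula for `V'` (`fin4_cont` in `Final4.lean` and `p_POF`; countably many atoms, `p_FMA`, these finished blocks may be imported) are countably many: enumerate them as `f i` (add a constant map if there are
none), `α i` from LCT (`pt (α i) z = f i z`).  `N n` = a finite set of indices, one for each `f ∈ L n`.  `φ` = the formula for `V'` with the atoms replaced by indices (recursion on `Fm`). -/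
def Stmt_DNF : Prop := ∀ (F : Set (Set (ℕ → ℕ))) (S : Op), Diff F Continuous S →
  ∃ o : OpD F, ∀ A, S A = o.op A

/-- **PAW** (200), uses INB LVM CLM.  The auxiliary games are in `F`.  `{w | j ∈ PuE c G.γ p w} ∈ F`: `mv` and `pt (γ j)` are Borel, `Inf`, `Hit` are Borel (compare PUM), `InB` for `c.P`, `c.Q`, `c.Y`.  CLM for `T w = c.P ∪ SbE G.γ (mv w) b` and for `T w = c.P ∪ SbE G.γ (mv w) b ∪ SbE G.γ (mv w) (PuE c G.γ 1 w)` (countable unions; `AEq` of
Borel maps is Borel).  `o.fst`, `o.snd` by `Gam.base` and induction on `o.φ` (lemmas `PAF_..`). -/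
def Stmt_PAW : Prop := ∀ F : Set (Set (ℕ → ℕ)), DetBorel F → ∀ (c : Pnt) (o : OpD F) (G : Gam c o),
  Cok F c → ∀ b : Finset ℕ, {w | Gb c o G w ↑b} ∈ F

/-- **STP** (250), uses INB LVM ZOF FRM PAW.  The new sets if I wins.  `ζ` from ZOF.  `Wb b = {w | Gb w b, and no Gb w b' with Encodable.encode b' < Encodable.encode b} ∈ F`.  `Tr = ⋃ b, {x ∈ Uc B G.γ | Φ (ζ x) ∈ Wb b ∧ ∃ j ∈ b, AEq x (pt (G.γ j) (ζ x))}`: in `InB F` (`Φ ∘ ζ` is Borel), a tail set (for `x ∈ KB B`, `ζ` does not
change under finite changes).  `d.P = c.P ∪ (Fre c ∩ (Tr ∪ E1))`, `d.Q = c.Q ∪ (Fre c ∩ ((Uc \ Tr) ∪ Un ∪ E2))`, `d.Y = c.Y`, `d.R = c.R`.  `Cok`: FRM; `bal`: an element of `Uc`, `Un`, `E1`, `E2` contains an element of `E1`, which is either free, so in `d.P`, or contains an element of `c.P` (`Cok.bal`); the same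
for `Q`.  The last lines: by definition; `b` = the first good finite set (uniqueness of `b`, disjointness of the sets in FRM and `Fre`, and uniqueness of the branch: `ζ x = z` if `x` is infinite and `InBr B z x`). -/
def Stmt_STP : Prop := ∀ F : Set (Set (ℕ → ℕ)), DetBorel F → ∀ (c : Pnt) (o : OpD F) (G : Gam c o),
  Cok F c → ∀ (B : List ℕ → Set ℕ) (Φ : (ℕ → ℕ) → (ℕ → ℕ)), Blk B → Continuous Φ →
  ∃ d : Pnt, Cok F d ∧ c.Le d ∧ d.Y = c.Y ∧ d.R = c.R ∧
    ∀ z, (∃ b : Finset ℕ, Gb c o G (Φ z) ↑b) → ∃ b : Finset ℕ, Gb c o G (Φ z) ↑b ∧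
      (∀ x ∈ Uc B G.γ, x ∈ Fre c → InBr B z x →
        ((∃ j ∈ b, AEq x (pt (G.γ j) z)) → x ∈ d.P) ∧ ((¬ ∃ j ∈ b, AEq x (pt (G.γ j) z)) → x ∈ d.Q)) ∧
      ∀ x ∈ Fre c, x ∈ Un B G.γ → x ∈ d.Q

/-- **STI** (250), uses OWN SIC BRF FMA LVC CLF FRM STP.  I wins.  SIC for `p = 0`; STP.  Let `A` be compatible with `d`, `z` a run according to `s`, `w = Φ z` (so `mv w = z`, and `w` is won by I), `b` from STP.  (i) `SbE G.γ z b ⊆ A`: let `y = pt (G.γ j) z`, `j ∈ b ⊆ PuE c G.γ 0 w`: infinite, free, not `Hit y (own 1 w)`, so it is almost contained in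
`own 0 w` (`OWN_mem`), so `InBr B z y`, `Hit y (Br B z)`; FRM: `y ∈ Uc` or `y ∈ Un`, and `Un` is disjoint from `KB`; so `y ∈ d.P ⊆ A`; `A` is a tail set.  `A` is closed under the rules `c.R = d.R` (`Cmp.cl`), so `{x | Cl c.R (c.P ∪ SbE b) x} ⊆ A` and `o.fst z A`.  (ii) CLAIM: if `x ∈ A` and `x = pt (G.γ i) z` then
`Cl c.R (c.P ∪ SbE b ∪ SbE (PuE c G.γ 1 w)) x`.  Induction on `Cl d.R (A \ d.Y) x` (`Cmp.cl`).  `base`: if `x ∈ c.P` clear; `x ∉ c.Q`, `x ∉ c.Y`; so `x` is free, infinite.  If not `Hit x (own 0 w)` then `i ∈ PuE c G.γ 1 w`.  Otherwise `Hit x (Br B z)`, so `x ∈ Uc` or `x ∈ Un`, and `x ∉ d.Q`, so `x ∈ Uc`, and there is `z'` with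
`InBr B z' x`; `Br B z ∩ Br B z'` is infinite, `z = z'` (BRF), and by STP `x ∈ SbE b` (otherwise `x ∈ d.Q`).  `step`: the premises `β.val x` are ports (`Gam.clos`, LVC; `x` is infinite by `Cok.sub`, `Cok.inf`, so `(G.γ i).dom z`).  So `o.snd z A` would imply `o.snd` for the closure (FMA; the atoms are ports, `Gam.base`), contradiction. -/
def Stmt_STI : Prop := ∀ F : Set (Set (ℕ → ℕ)), DetBorel F → ∀ (c : Pnt) (o : OpD F) (G : Gam c o),
  Cok F c → ∀ T : List ℕ → ℕ, (∀ w, Cons 0 T w → ∃ b : Finset ℕ, Gb c o G w ↑b) →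
  ∃ d : Pnt, Cok F d ∧ c.Le d ∧ ∀ A, Cmp A d →
    ∃ s : List ℕ → ℕ, ∀ z, Cons 0 s z → z ∈ o.op A

/-- **STQ** (300), uses INB LVC LVM ZET ZOF FRM.  The new sets if II wins.  `ζ` from ZOF, `ζ_M` from ZET.  `Yn = {x ∈ Uc B G.γ | x ∈ Fre c, ¬ Hit x (own 0 (Φ (ζ x)))}`: in `InB F`, a tail set.  `d.P = c.P ∪ (Fre c ∩ E1)`, `d.Q = c.Q ∪ (Fre c ∩ ((Uc \ Yn) ∪ Un ∪ E2))`, `d.Y = c.Y ∪ Yn`.  Rules: `d.R (2 e) = c.R e`,
`d.R (2 (Nat.pair M n) + 1)` = the rule with `Y = {x ∈ Yn | ζ x ∈ o.D n, and all m ≥ M in x are in Br B (ζ x)}` and `L` = the list of the `(o.α i).comp ζ_M`, `i ∈ o.N n` (`Finset.toList`).  For `x` in this `Y` the value of `(o.α i).comp ζ_M` at `x` is `pt (o.α i) (ζ x)` (LVC, `o.tot`).  `Cok`: `tR` for the new rules: if `x`, `x'` agree from `K` on use `M' = max M K`: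
`ζ x' = ζ x`, and the premises are the same.  `Le`: new rules concern only free sets.  The last lines: by definition. -/
def Stmt_STQ : Prop := ∀ F : Set (Set (ℕ → ℕ)), DetBorel F → ∀ (c : Pnt) (o : OpD F) (G : Gam c o),
  Cok F c → ∀ (B : List ℕ → Set ℕ) (Φ : (ℕ → ℕ) → (ℕ → ℕ)), Blk B → Continuous Φ →
  ∃ d : Pnt, Cok F d ∧ c.Le d ∧
    (∀ x ∈ Fre c, (x ∈ Un B G.γ → x ∈ d.Q) ∧ (x ∈ Uc B G.γ → x ∉ d.Y → x ∈ d.Q)) ∧
    (∀ x ∈ Fre c, ∀ z, x ∈ Uc B G.γ → InBr B z x → ¬ Hit x (own 0 (Φ z)) →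
      x ∈ d.Y ∧ ∀ A, o.fst z A → ∃ e, Sat A (d.R e) x) ∧
    ∀ e x A, x ∈ Fre c → Sat A (d.R e) x →
      ∃ z n, InBr B z x ∧ Inf x ∧ z ∈ o.D n ∧ ∀ i ∈ o.N n, ∃ β ∈ (d.R e).L, β.val x = pt (o.α i) z

/-- **STJ** (300), uses OWN SIC BRF FMA LVC CLF FRM STQ.  II wins.  SIC for `p = 1`; STQ.  Let `A` be compatible with `d`, `z` a run according to `s`, `w = Φ z` (`mv w = z`, no finite `b` is good for `w`), and suppose `o.fst z A`; we show `o.snd z A`.  `b_A = {i ∈ PuE c G.γ 0 w | pt (G.γ i) z ∈ A}`, `H = {x | Cl c.R (c.P ∪ SbE G.γ z b_A) x}`.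
CLAIM 1: `o.fst z H`.  Suppose not.  Then for all `x ∈ A`, `x = pt (G.γ i) z` implies `x ∈ H`: induction on `Cl d.R (A \ d.Y) x`.  `base`: `x ∈ c.P` is clear; otherwise `x` is free (`x ∉ d.Q ⊇ c.Q`, `x ∉ d.Y ⊇ c.Y`) and infinite.  If `Hit x (own 1 w)` then `Hit x (Br B z)`, so `x ∈ Uc` or `x ∈ Un` (FRM), so `x ∈ d.Q`, contradiction.  So `i ∈ b_A`.
`step` with the rule `e`, all premises in `A` (and in `H` if they are ports of `z`).  If `x ∈ c.Y`: by `Le` it is a rule of `c`, the premises are ports of `z` (`Gam.clos`, LVC), so `x ∈ H`.  Otherwise `x` is not in `c.P`, `c.Q` (`x ∈ d.Y`, `Cok` for `d`), so it is free, and STQ gives `z'`, `n` with `InBr B z' x`, `z' ∈ o.D n` and premises `pt (o.α i) z'`.  If `z' = z` these are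
ports of `z`, so in `H`, and `o.fst z H`, contradiction.  If `z' ≠ z` then `x` is almost disjoint from `Br B z` (BRF), so not `Hit x (own 1 w)`, `i ∈ b_A`, `x ∈ H`.  With the implication `o.fst z A` gives `o.fst z H`, contradiction.  CLAIM 2: by CLF there is a finite `b ⊆ b_A` (a `Finset`) with `o.fst z {x | Cl c.R (c.P ∪ SbE G.γ z b) x}`; `b` is
not good, so `o.snd z {x | Cl c.R (c.P ∪ SbE b ∪ SbE (PuE c G.γ 1 w)) x}`.  CLAIM 3: this closure is contained in `A`: `A` is closed under `c.R` (the rules of `c` are rules of `d`), contains `c.P` and `SbE b`; let `y = pt (G.γ j) z`, `j ∈ PuE c G.γ 1 w`: infinite, free, not `Hit y (own 0 w)`, so almost contained in `own 1 w` and in `Br B z`; FRM: `y ∈ Uc` (not `Un`, because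
`y ∈ KB`); STQ with `o.fst z A`: `Sat A (d.R e) y`, so `y ∈ A`; `A` is a tail set.  FMA. -/
def Stmt_STJ : Prop := ∀ F : Set (Set (ℕ → ℕ)), DetBorel F → ∀ (c : Pnt) (o : OpD F) (G : Gam c o),
  Cok F c → ∀ T : List ℕ → ℕ, (∀ w, Cons 1 T w → ∀ b : Finset ℕ, ¬ Gb c o G w ↑b) →
  ∃ d : Pnt, Cok F d ∧ c.Le d ∧ ∀ A, Cmp A d →
    ∃ s : List ℕ → ℕ, ∀ z, Cons 1 s z → z ∉ o.op A

end Pool.LF
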