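import Pool.Agent.Work.MP_f36782_lf.Interface5
import Pool.Agent.Work.MP_f36782_lf.Defs5

set_option autoImplicit false

/-!
# MP_f36782_lc, THEOREM LF, part N: signed differences

Files `B_X.lean` in `Pool/Agent/Work/MP_f36782_lf` (import `Pool.Agent.Work.MP_f36782_lf.Interface6`),
conventions as in `Interface5.lean`.

The operations `{z | z ∈ B ↔ z ∈ V A \ V' A}`, `B ∈ F`.  The ATTACKER at `z` (the player who wants
`z ∈ V A \ V' A`) is player I if `z ∈ B` and player II otherwise.  He wins the run of the auxiliary game if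
he can choose finitely many of his free pure ports such that `V` becomes true and `V'` stays false even
if all free pure ports of the other player are true.  If player `p` wins the auxiliary game then he
keeps both kinds of promises: in the runs in which he is the attacker as in `Stmt_STP`, in the other runs
as in `Stmt_STQ`.
-/

open MeasureTheory Pool.Agent.Work.RamseyAD

namespace Pool.LF

/-- `b` is a good choice for the attacker `a` in the run `w`. -/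
def Gp {F : Set (Set (ℕ → ℕ))} (c : Pnt) (o : OpD F) (G : Gam c o) (a : ℕ) (w : ℕ → ℕ)
    (b : Set ℕ) : Prop :=
  b ⊆ PuE c G.γ a w ∧ o.fst (mv w) {x | Cl c.R (c.P ∪ SbE G.γ (mv w) b) x} ∧
    ¬ o.snd (mv w)
      {x | Cl c.R (c.P ∪ SbE G.γ (mv w) b ∪ SbE G.γ (mv w) (PuE c G.γ (1 - a) w)) x}

/-- **DNX** (80), uses DNF.  `DNF` for `A ↦ V A \ V' A`. -/
def Stmt_DNX : Prop := ∀ (F : Set (Set (ℕ → ℕ))) (S : Op), XDiff F Continuous S →
  ∃ (o : OpD F) (B : Set (ℕ → ℕ)), B ∈ F ∧ ∀ A, S A = {z | z ∈ B ↔ z ∈ o.op A}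

/-- **TWO** (120), uses nothing.  Boolean combinations of two preimages and sets in `F` are signed differences.  `B = H False False ᶜ`, i.e. `z ∈ B` iff `S` is false at `z` if both `f z`, `g z` are not in `A`.  Let `D p q` be the set of the `z` with (`z ∈ H p q` iff `z ∈ B`).  (So `z ∉ D False False`.)  With the truth values `p`, `q`
of `f z ∈ A`, `g z ∈ A`: `V` = (`p` and `z ∈ D True False`, or `q` and `z ∈ D False True`, or `p` and `q` and `z ∈ D True True`), `V'` = (`p` and `q` and `z ∉ D True True`).  Then `z ∈ D p q` iff `V` and not `V'` (four cases).  `OpenPos`: three terms (`D n = ∅` for `n ≥ 3`); `PosOp`: an intersection of three operations (a sequence, constant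
from the third on).  `{z | z ∈ B ↔ z ∈ D p q} = H p q`. -/
def Stmt_TWO : Prop := ∀ (F : Set (Set (ℕ → ℕ))), DetBorel F → ∀ (M : ((ℕ → ℕ) → C) → Prop) (S : Op),
  Two F M S → XDiff F M S

/-- **PAX** (150), uses INB LVM CLM.  As PAW (`B_PAW.lean`) with `a`, `1 - a` instead of `0`, `1`. -/
def Stmt_PAX : Prop := ∀ F : Set (Set (ℕ → ℕ)), DetBorel F → ∀ (c : Pnt) (o : OpD F) (G : Gam c o),
  Cok F c → ∀ (a : ℕ) (b : Finset ℕ), {w | Gp c o G a w ↑b} ∈ F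

/-- **STM** (400), uses INB LVC LVM ZET ZOF FRM PAX.  The new sets if player `p` wins; a combination of `B_STP.lean` and `B_STQ.lean`.  `E` = the set of the `z` where `p` is the attacker.  `ζ` from ZOF, `ζ_M` from ZET.  `Wb b = {w | Gp p w b, and no Gp p w b' with Encodable.encode b' < Encodable.encode b} ∈ F`.
`Tr = ⋃ b, {x ∈ Uc B G.γ | ζ x ∈ E ∧ Φ (ζ x) ∈ Wb b ∧ ∃ j ∈ b, AEq x (pt (G.γ j) (ζ x))}`, `Yn = {x ∈ Uc B G.γ | x ∈ Fre c, ζ x ∉ E, ¬ Hit x (own (1 - p) (Φ (ζ x)))}`: both in `InB F`, tail sets, disjoint.  `d.P = c.P ∪ (Fre c ∩ (Tr ∪ E1))`, `d.Q = c.Q ∪ (Fre c ∩ ((Uc \ (Tr ∪ Yn)) ∪ Un ∪ E2))`, `d.Y = c.Y ∪ Yn`,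
`d.R (2 e) = c.R e`, `d.R (2 (Nat.pair M n) + 1)` = the rule with `Y = {x ∈ Yn | ζ x ∈ o.D n, and all m ≥ M in x are in Br B (ζ x)}`, `L` = the list of the `(o.α i).comp ζ_M`, `i ∈ o.N n`. -/
def Stmt_STM : Prop := ∀ F : Set (Set (ℕ → ℕ)), DetBorel F → ∀ (c : Pnt) (o : OpD F) (G : Gam c o),
  Cok F c → ∀ (p : ℕ) (E : Set (ℕ → ℕ)), E ∈ F →
  ∀ (B : List ℕ → Set ℕ) (Φ : (ℕ → ℕ) → (ℕ → ℕ)), Blk B → Continuous Φ →
  ∃ d : Pnt, Cok F d ∧ c.Le d ∧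
    (∀ x ∈ Fre c, x ∈ Un B G.γ → x ∈ d.Q) ∧
    (∀ z ∈ E, (∃ b : Finset ℕ, Gp c o G p (Φ z) ↑b) → ∃ b : Finset ℕ, Gp c o G p (Φ z) ↑b ∧
      ∀ x ∈ Uc B G.γ, x ∈ Fre c → InBr B z x →
        ((∃ j ∈ b, AEq x (pt (G.γ j) z)) → x ∈ d.P) ∧ ((¬ ∃ j ∈ b, AEq x (pt (G.γ j) z)) → x ∈ d.Q)) ∧
    (∀ z, z ∉ E → ∀ x ∈ Uc B G.γ, x ∈ Fre c → InBr B z x →
      (¬ Hit x (own (1 - p) (Φ z)) → x ∈ d.Y ∧ ∀ A, o.fst z A → ∃ e, Sat A (d.R e) x) ∧
      (Hit x (own (1 - p) (Φ z)) → x ∈ d.Q)) ∧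
    ∀ e x A, x ∈ Fre c → Sat A (d.R e) x →
      ∃ z n, z ∉ E ∧ InBr B z x ∧ Inf x ∧ z ∈ o.D n ∧
        ∀ i ∈ o.N n, ∃ β ∈ (d.R e).L, β.val x = pt (o.α i) z

/-- **STR** (300), uses OWN BRF FMA LVC FRM.  The runs in which `p` is the attacker (compare `B_STI.lean`).  Here `B`, `Φ`, `d`, `E` have the properties of SIC and STM for the strategy `s`, `z` is a run according to `s`, `z ∈ E`, `w = Φ z`, and `A` is compatible with `d`.  (i) `SbE G.γ z b ⊆ A`, `o.fst z A` as in `B_STI.lean` (with `own p w`, `own (1 - p) w`).  (ii) CLAIM: if `x ∈ A`, `x = pt (G.γ i) z` then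
`Cl c.R (c.P ∪ SbE b ∪ SbE (PuE c G.γ (1 - p) w)) x`.  Induction on `Cl d.R (A \ d.Y) x`.  `base`: as in `B_STI.lean`: `x ∈ c.P`, or `x` is free; then either not `Hit x (own p w)` and `i ∈ PuE c G.γ (1 - p) w` (`1 - (1 - p) = p`), or `Hit x (Br B z)`, `x ∈ Uc` or `x ∈ Un`, `x ∉ d.Q`, so `x ∈ Uc`, `InBr B z' x` for some `z'`, `z' = z` (BRF) and `x ∈ SbE b`.
`step`: if `x ∈ c.Y` the rule is a rule of `c` (`Le`) and the premises are ports of `z`.  Otherwise `x` is free (`Cok` for `d`), and the last property of STM gives `z' ∉ E` with `InBr B z' x`; `z' ≠ z`, so `x` is almost disjoint from `Br B z` and from `own p w`, and `i ∈ PuE c G.γ (1 - p) w`. -/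
def Stmt_STR : Prop := ∀ F : Set (Set (ℕ → ℕ)), ∀ (c : Pnt) (o : OpD F) (G : Gam c o),
  Cok F c → ∀ p < 2, ∀ (E : Set (ℕ → ℕ)) (B : List ℕ → Set ℕ) (z w : ℕ → ℕ), Blk B → mv w = z →
  (∀ N, ∃ i, N ≤ len w i) → (∃ K, ∀ m ∈ own p w, K ≤ m → m ∈ Br B z) → z ∈ E →
  ∀ (b : Finset ℕ), Gp c o G p w ↑b → ∀ d : Pnt, Cok F d → c.Le d →
    (∀ x ∈ Fre c, x ∈ Un B G.γ → x ∈ d.Q) →
    (∀ x ∈ Uc B G.γ, x ∈ Fre c → InBr B z x →
      ((∃ j ∈ b, AEq x (pt (G.γ j) z)) → x ∈ d.P) ∧ ((¬ ∃ j ∈ b, AEq x (pt (G.γ j) z)) → x ∈ d.Q)) →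
    (∀ e x A, x ∈ Fre c → Sat A (d.R e) x → ∃ z', z' ∉ E ∧ InBr B z' x ∧ Inf x) →
    ∀ A, Cmp A d → z ∈ o.op A

/-- **STT** (300), uses OWN BRF FMA LVC CLF FRM.  The runs in which `p` is not the attacker (compare `B_STJ.lean`; there `p = 1`).  Suppose `o.fst z A`; we show `o.snd z A`.  `b_A = {i ∈ PuE c G.γ (1 - p) w | pt (G.γ i) z ∈ A}`, `H = {x | Cl c.R (c.P ∪ SbE G.γ z b_A) x}`.  CLAIM 1: `o.fst z H`, otherwise for all `x ∈ A`, `x = pt (G.γ i) z` implies `x ∈ H`: induction on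
`Cl d.R (A \ d.Y) x`.  `base`: `x ∈ c.P`, or `x` is free; if `Hit x (own p w)` then `Hit x (Br B z)`, so `x ∈ Uc` or `x ∈ Un`; `x ∉ d.Q`, so `x ∈ Uc`, `InBr B z' x`, `z' = z` (BRF), so `x ∈ d.Y` or `x ∈ d.Q`, contradiction; so `i ∈ b_A`.  `step`: as in `B_STJ.lean`.  CLAIM 2: a finite `b ⊆ b_A` with `o.fst z {x | Cl c.R (c.P ∪ SbE b) x}` (CLF); it is not good for the
attacker `1 - p`, so `o.snd z` of the larger closure (`1 - (1 - p) = p`).  CLAIM 3: this closure is contained in `A`: for `y = pt (G.γ j) z`, `j ∈ PuE c G.γ p w`: `InBr B z y`, `Hit y (Br B z)`, `y ∈ Uc`, so `Sat A (d.R e) y` for some `e`, `y ∈ A`. -/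
def Stmt_STT : Prop := ∀ F : Set (Set (ℕ → ℕ)), ∀ (c : Pnt) (o : OpD F) (G : Gam c o),
  Cok F c → ∀ p < 2, ∀ (B : List ℕ → Set ℕ) (z w : ℕ → ℕ), Blk B → mv w = z →
  (∀ N, ∃ i, N ≤ len w i) → (∃ K, ∀ m ∈ own p w, K ≤ m → m ∈ Br B z) →
  (∀ b : Finset ℕ, ¬ Gp c o G (1 - p) w ↑b) → ∀ d : Pnt, Cok F d → c.Le d →
    (∀ x ∈ Fre c, x ∈ Un B G.γ → x ∈ d.Q) →
    (∀ x ∈ Uc B G.γ, x ∈ Fre c → InBr B z x →
      (¬ Hit x (own (1 - p) w) → x ∈ d.Y ∧ ∀ A, o.fst z A → ∃ e, Sat A (d.R e) x) ∧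
      (Hit x (own (1 - p) w) → x ∈ d.Q)) →
    (∀ e x A, x ∈ Fre c → Sat A (d.R e) x → ∃ z' n, InBr B z' x ∧ Inf x ∧ z' ∈ o.D n ∧
      ∀ i ∈ o.N n, ∃ β ∈ (d.R e).L, β.val x = pt (o.α i) z') →
    ∀ A, Cmp A d → z ∉ o.op A

end Pool.LF
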