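import Pool.Agent.Work.MP_f36782_lf.Interface4
import Pool.Agent.Work.MP_f36782_lf.Defs6

set_option autoImplicit false

/-!
# MP_f36782_lc, THEOREM LF, part P: operations which are Borel in `A`

Files `B_X.lean` in `Pool/Agent/Work/MP_f36782_lf` (import `Pool.Agent.Work.MP_f36782_lf.Interface7`),
`open MeasureTheory Pool.Agent.Work.RamseyAD`, namespace `Pool.LF`, `theorem p_X (h1 : Stmt_Y) .. :
Stmt_X` with exactly the blocks of the column `uses` as hypotheses in that order.  Helper lemmas with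
the prefix `X_`.  The docstrings contain the proofs.  No double quotes in the files.

THE THEOREM.  Part L (`Interface4.lean`) with `operations which are Borel in A` (the least class which
contains the constants in `F` and the preimages of `A` and is closed under complements and countable
unions) instead of finite Boolean combinations of positive operations, if `F` is closed under
projections.

THE PROOF.  The finite game on the truth values of Part L is replaced by a NAMING GAME of length `ω`: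
the players alternately name indices of ports (`0` = pass, `j + 1` = the index `j`); at the end those
ports are true which were named by a player for whom they are pure.  This game is determined for every
run `w` of the auxiliary game, and it is in `F` who wins it (`∃ s ∀ v`, two projections).  The winner of the
auxiliary game then wins the naming game at every run.  All naming games are played simultaneously, for
`ω` rounds: the owner of the run names ports according to his strategy, the ports of the opponent are named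
as soon as they have become true by moves of owners of other runs.  The set `A` of all ports named by
owners is as required.
-/

open MeasureTheory Pool.Agent.Work.RamseyAD

namespace Pool.LF

/-! ## Notions -/

/-- The indices which player `p` names in the run `v`. -/
def nm (p : ℕ) (v : ℕ → ℕ) : Set ℕ := {j | ∃ n, n % 2 = p ∧ v n = j + 1}

/-- Player `p` has a winning strategy in the naming game; he owns `J`, the other player owns `J'`. -/
def HasStr (p : ℕ) (J J' : Set ℕ) (Φ : Set ℕ → Prop) : Prop :=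
  ∃ σ : List ℕ → ℕ, ∀ v : ℕ → ℕ, Cons p σ v → Φ (nm p v ∩ J ∪ nm (1 - p) v ∩ J')

/-- The operation with the ports `g` and the truth function `Ψ` can be decided: if the run `w` of the
auxiliary game is in `W` then I wins the naming game, otherwise II wins it. -/
def RefS (F : Set (Set (ℕ → ℕ))) (E₀ : C → C → Prop) (g : ℕ → MM)
    (Ψ : (ℕ → ℕ) → Set ℕ → Prop) : Prop :=
  ∃ W ∈ F, ∀ w : ℕ → ℕ,
    (w ∈ W → HasStr 0 (Pu 0 g w) (Pu 1 g w) (fun s => Ψ (mv w) (clo (ER E₀ g (mv w)) s))) ∧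
    (w ∉ W → HasStr 1 (Pu 1 g w) (Pu 0 g w) (fun s => ¬ Ψ (mv w) (clo (ER E₀ g (mv w)) s)))

/-- There is a finitary response system. -/
def HasFin (J J' : Set ℕ) (Φ : Set ℕ → Prop) : Prop :=
  ∃ (Sy : Set ℕ → Set ℕ → Prop) (ρ : Set ℕ → Set ℕ → ℕ) (k : ℕ), Sys J J' Φ Sy ρ k ∧
    ∀ (a : ℕ → Set ℕ) (b : Set ℕ), Monotone a → (∀ n, a n ⊆ J' ∧ Sy (a n) b) →
      Φ ((⋃ n, a n) ∪ b)

/-- Borel formulas. -/
inductive Bf (F : Set (Set (ℕ → ℕ))) : Type
  | base (S : F) : Bf F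
  | atom (j : ℕ) : Bf F
  | neg (φ : Bf F) : Bf F
  | uni (φ : ℕ → Bf F) : Bf F

/-- The truth value if exactly the atoms in `T` are true. -/
def Bf.tr {F : Set (Set (ℕ → ℕ))} (z : ℕ → ℕ) (T : Set ℕ) : Bf F → Prop
  | .base S => z ∈ S.1
  | .atom j => j ∈ T
  | .neg φ => ¬ φ.tr z T
  | .uni φ => ∃ n, (φ n).tr z T

/-- The true ports after the run `v` of the naming game at `w`. -/
def Ts (E₀ : C → C → Prop) (g : ℕ → MM) (w v : ℕ → ℕ) : Set ℕ :=
  clo (ER E₀ g (mv w)) (nm 0 v ∩ Pu 0 g w ∪ nm 1 v ∩ Pu 1 g w)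

/-- The second coordinates (the first ones are `mv u`). -/
def rt (u : ℕ → ℕ) : ℕ → ℕ := fun i => (Nat.unpair (u i)).2

/-! ## The blocks -/

/-- **SST** (200), uses nothing.  From a finitary response system to a strategy in the naming game.  For a list `l` of moves let `A l` = the set of the `j ∈ J'` named in `l` at a place `n % 2 = 1 - p`.  Recursion on `l` (append at the end; `List.reverseRec`, or define the state for
the prefixes `l.take n` by recursion on `n`): a pair `(a, b)` with `Sy a b`, `a ⊆ A l`, `Sy (A l) b`.  Start: `a = ∅`, `b` from `init` (`A [] = ∅`).  For `l ++ [m]`: if `Sy (A (l ++ [m])) b` keep the pair, otherwise `step` for `a ⊆ A (l ++ [m]) ⊆ J'` gives `b' ⊇ b`,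
the new pair is `(A (l ++ [m]), b')`, and `ρ` has grown.  The strategy: `σ l = j + 1` for `j = (Nat.unpair (l.length / 2)).1` if `j` is in the second component `b` of the state of `l`, otherwise `0`.  Let `v` be a run.  The second components increase, and (because `ρ ≤ k`) the pair
is constant, `(a*, b*)`, from some `n₀` on.  `nm p v ∩ J = b*`: an index named by the owner is in the second component at that time, so in `b*`; `b* ⊆ J` (`sub`); `j ∈ b*` is named at the time `n = 2 * Nat.pair j n₀ + p ≥ n₀` (`n / 2 = Nat.pair j n₀`).  `nm (1 - p) v ∩ J' = ⋃ n, A (hist v (n₀ + n))`, and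
`Sy (A (hist v (n₀ + n))) b*`.  Apply the finitary property. -/
def Stmt_SST : Prop := ∀ p < 2, ∀ (J J' : Set ℕ) (Φ : Set ℕ → Prop), HasFin J J' Φ → HasStr p J J' Φ

/-- **GST** (150), uses ZER.  Copy the proof of `p_GSY` (`B_GSY.lean`) for `Q` = the finite sets.  In addition the finitary property: `Sy a b` = (`a ⊆ J'`, `b ⊆ J`, `Φ (a ∪ b)`, and ..); let `a n` increase, `Sy (a n) b`, `t = (⋃ n, a n) ∪ b`.  By hypothesis (for `s = ∅`) there is a finite `s' ⊆ t` with `v s' = v t`;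
`s' ⊆ a n ∪ b` for some `n`; so `v (a n ∪ b) = v t` and `Φ t` (`Φ s = h (v s)`). -/
def Stmt_GST : Prop := ∀ (k : ℕ) (v : Set ℕ → Set (Fin k)) (h : Set (Fin k) → Prop)
  (J J' : Set ℕ), Monotone v →
  (∀ s : Set ℕ, s.Finite → ∀ t, s ⊆ t → ∃ s' : Set ℕ, s'.Finite ∧ s ⊆ s' ∧ s' ⊆ t ∧ v s' = v t) →
  (∃ s : Set ℕ, s.Finite ∧ s ⊆ J ∧ Lw (fun s => h (v s)) J J' {s | s.Finite} k s) →
  HasFin J J' (fun s => h (v s))

/-- **RPS** (120), uses FIN PUM FMA.  Positive operations (compare `B_RFP.lean`, whose lemmas may be imported).  `W = {w | trP g φ (mv w) (Pu 0 g w)}` (`RFP_mem`).  `w ∈ W`: `σ l = l.length / 2 + 1`, then `nm 0 v` is everything; monotonicity (FMA; `clo E s ⊇ s`).  `w ∉ W`: `σ l = 0`, then `nm 1 v = ∅`; `clo E (nm 0 v ∩ Pu 0 g w) ⊆ Pu 0 g w`. -/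
def Stmt_RPS : Prop := ∀ F : Set (Set (ℕ → ℕ)), DetAlgebra F → ∀ E₀ : C → C → Prop, EqR E₀ →
  ∀ (g : ℕ → MM) (φ : Fm F MM), RefS F E₀ g (trP g φ)

/-- **RBS** (80), uses ZER GST SST MEF.  As RFB (`B_RFB.lean`, whose lemmas `RFB_mono`, `RFB_fin` may be imported) with GST and SST (for `p = 0`, `p = 1`) instead of GSY. -/
def Stmt_RBS : Prop := ∀ F : Set (Set (ℕ → ℕ)), DetAlgebra F → ∀ E₀ : C → C → Prop, EqR E₀ →
  ∀ (k : ℕ) (h : Set (Fin k) → Prop) (g : ℕ → MM) (D : Fin k → ℕ → Set (ℕ → ℕ))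
    (N : Fin k → ℕ → Finset ℕ), (∀ l n, D l n ∈ F) →
    RefS F E₀ g (fun z T => h {l | ∃ n, z ∈ D l n ∧ ∀ j ∈ N l n, j ∈ T})

/-- **BFR** (120), uses nothing.  Borel operations are given by Borel formulas.  Induction on `BorOp`: `const`: `base`, `g` = a constant map; `pre`: `g j = f`, `φ = atom 0`; `compl`: `neg`; `union`: choose `g n`, `φ n`; `g' m = g (Nat.unpair m).1 (Nat.unpair m).2`, `φ' = uni (fun n => φ n` with the atoms `j` replaced by
`Nat.pair n j)` (define the replacement by recursion on `Bf`; its truth value for `T` is that of `φ n` for `{j | Nat.pair n j ∈ T}`). -/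
def Stmt_BFR : Prop := ∀ (F : Set (Set (ℕ → ℕ))) (S : Op), BorOp F Measurable S →
  ∃ (g : ℕ → MM) (φ : Bf F), ∀ A, S A = {z | φ.tr z {j | (g j).1 z ∈ A}}

/-- **BGM** (150), uses FIN PUM.  Induction on `φ` (lemmas `PAF_..` in `B_PAF.lean` for complements and countable unions; Borel sets are in `F` by FIN).  `base`: `S.2`, preimage under the continuous map `mv ∘ c`.  `atom j`: `j ∈ Ts ..` iff for some `i`: `E₀ ((g i).1 (mv (c u))) ((g j).1 (mv (c u)))` (Borel by `EqR.meas`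
and composition with `c`) and (some `n`, `n % 2 = 0`, `c' u n = i + 1` (clopen), and `i ∈ Pu 0 g (c u)` (Borel by PUM, composed with `c`), or the same with `1`). -/
def Stmt_BGM : Prop := ∀ F : Set (Set (ℕ → ℕ)), DetAlgebra F → ∀ E₀ : C → C → Prop, EqR E₀ →
  ∀ (g : ℕ → MM) (φ : Bf F) (c c' : (ℕ → ℕ) → (ℕ → ℕ)), Continuous c → Continuous c' →
    {u | φ.tr (mv (c u)) (Ts E₀ g (c u) (c' u))} ∈ F

/-- **RGS** (200), uses FIN BGM.  `X w v` = `φ.tr (mv w) (Ts E₀ g w v)`.  `W = {w | ∃ σ, ∀ v, Cons 0 σ v → X w v}`.  `W ∈ F`: strategies are coded by `s : ℕ → ℕ`, `σ l = s (Encodable.encode l)` (surjective: `s n = σ (decode n)`).  `D` = the set of the `u` with (`Cons 0 (σ of rt (mv u)) (rt u)` implies `X (mv (mv u)) (rt u)`): in `F` by BGM for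
`c u = mv (mv u)`, `c' = rt`, and because the `Cons` condition is Borel.  By `ProjClosed` for `Dᶜ` and complement `D' = {u | ∀ v, pair u v ∈ D} ∈ F`, by `ProjClosed` again `{w | ∃ s, pair w s ∈ D'} ∈ F`, and this is `W` (`mv (pair u v) = u`, `rt (pair u v) = v`).  `w ∈ W`: by definition.  `w ∉ W`: `{v | X w v} ∈ F` by
BGM for `c` constant and `c' = id`, so it is determined; I has no winning strategy because `w ∉ W`, so II has one (`Set.union_comm`). -/
def Stmt_RGS : Prop := ∀ F : Set (Set (ℕ → ℕ)), DetAlgebra F → ProjClosed F →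
  ∀ E₀ : C → C → Prop, EqR E₀ → ∀ (g : ℕ → MM) (φ : Bf F), RefS F E₀ g (fun z T => φ.tr z T)

/-- **NEU** (250), uses nothing.  All naming games simultaneously.  `σ κ` from `HasStr`.  By recursion on `n` define histories `H n : K → List ℕ` (of length `n`), `H 0 κ = []`, `H (n + 1) κ = H n κ ++ [m n κ]`: `m n κ = σ κ (H n κ)` if `n % 2 = p κ`; otherwise, with `j = (Nat.unpair (n / 2)).1`, `m n κ = j + 1` if `j ∈ J' κ` and
`x κ j ∈ Tr n`, and `m n κ = 0` if not, where `Tr n = Z ∪ {y | ∃ κ' j', j' ∈ J κ', E₀ y (x κ' j')`, and `j' + 1` stands in `H n κ'` at a place `i` with `i % 2 = p κ'}`.  `v κ n = m n κ`, `hist (v κ) n = H n κ`, `Cons (p κ) (σ κ) (v κ)`.  `A = Z ∪ {y | ∃ κ, ∃ j ∈ nm (p κ) (v κ) ∩ J κ, E₀ y (x κ j)}`.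
CLAIM: `nm (1 - p κ) (v κ) ∩ J' κ = {j ∈ J' κ | x κ j ∈ A}`.  `⊆`: by definition (`Tr n ⊆ A`).  `⊇`: `x κ j ∈ Tr n` for all large `n`; take `n = 2 * Nat.pair j N + (1 - p κ)`.  The rest is as in `B_NET.lean` with `b κ = nm (p κ) (v κ) ∩ J κ`: `{j | x κ j ∈ A} = clo ({j ∈ J' κ | x κ j ∈ A} ∪ b κ)`. -/
def Stmt_NEU : Prop := ∀ E₀ : C → C → Prop, Equivalence E₀ → ∀ (K : Type) (p : K → ℕ)
  (x : K → ℕ → C) (J J' : K → Set ℕ) (Z : Set C) (Ψ : K → Set ℕ → Prop),
  (∀ κ, p κ < 2) →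
  (∀ y y', E₀ y y' → y ∈ Z → y' ∈ Z) →
  (∀ κ κ' j j', j ∈ J κ → j' ∈ J κ' → E₀ (x κ j) (x κ' j') → κ = κ') →
  (∀ κ j j', E₀ (x κ j) (x κ j') → j ∈ J κ → j' ∈ J κ) →
  (∀ κ j j', E₀ (x κ j) (x κ j') → j ∈ J' κ → j' ∈ J' κ) →
  (∀ κ j, j ∈ J κ → j ∉ J' κ ∧ x κ j ∉ Z) →
  (∀ κ j, j ∉ J κ → j ∉ J' κ → x κ j ∉ Z ∧ ∀ κ' j', j' ∈ J κ' → ¬ E₀ (x κ j) (x κ' j')) →
  (∀ κ, HasStr (p κ) (J κ) (J' κ) (fun s => Ψ κ (clo (fun i j => E₀ (x κ i) (x κ j)) s))) →
  ∃ A : Set C, (∀ y, (∀ κ, ∀ j ∈ J κ, ¬ E₀ y (x κ j)) → (y ∈ A ↔ y ∈ Z)) ∧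
    (∀ y y', E₀ y y' → y ∈ A → y' ∈ A) ∧ ∀ κ, Ψ κ {j | x κ j ∈ A}

/-- **ONS** (300), uses SIF RNG RNU BRF OWN NEU.  Copy `B_ONB.lean` (its lemmas `ONB_..` may be imported) with `RefS`, `HasStr`, NEU instead of `Ref`, `HasSys`, NET (`p κ = p κ.1.1`; `HasStr` is monotone in `Φ`). -/
def Stmt_ONS : Prop := ∀ F : Set (Set (ℕ → ℕ)), DetAlgebra F → ∀ E₀ : C → C → Prop, EqR E₀ →
  ∀ I : Type, Dmd I → (∃ r : I → (ℕ → ℕ), Function.Injective r) →
  ∀ (g : I → ℕ → MM) (Ψ : I → (ℕ → ℕ) → Set ℕ → Prop), (∀ i, RefS F E₀ (g i) (Ψ i)) →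
  ∀ A₀ : Set C, (∀ y y', E₀ y y' → y ∈ A₀ → y' ∈ A₀) →
  ∃ A : Set C, (∀ i, Determined {z | Ψ i z {j | (g i j).1 z ∈ A}}) ∧
    (∀ y y', E₀ y y' → y ∈ A → y' ∈ A) ∧
    ∀ X, Inf X → ∃ Y, Inf Y ∧ Sub Y X ∧ ∀ x, Inf x → Sub x Y → (x ∈ A ↔ x ∈ A₀)

end Pool.LF
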